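import Pool.Agent.KS6_58.BC

/-!
# The local data at an archimedean place
-/

set_option autoImplicit false

namespace Pool.Agent.KS6_58

open Polynomial Pool.Agent.Y723.HJ

/-- the threshold -/
noncomputable def TT (g : ℕ) (R : ℝ) : ℝ := 4 * g * R + 2

/-- the constant at the archimedean places -/
noncomputable def KK (g : ℕ) (R : ℝ) : ℝ :=
  32 * 64 ^ (2 * g + 1) + 128 * 4 ^ 6 * R + 2 * R * TT g R ^ (2 * g + 1) + TT g R

lemma TT_ge {g : ℕ} {R : ℝ} (hR : 1 ≤ R) : 2 ≤ TT g R := by
  unfold TT
  have : (0 : ℝ) ≤ 4 * g * R := by positivity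
  linarith

lemma KK_ge {g : ℕ} {R : ℝ} (hR : 1 ≤ R) : 32 * 64 ^ (2 * g + 1) ≤ KK g R ∧
    128 * 4 ^ 6 * R ≤ KK g R ∧ 2 * R * TT g R ^ (2 * g + 1) ≤ KK g R ∧ TT g R ≤ KK g R ∧
    R ≤ KK g R ∧ 2 ≤ KK g R ∧ 1 ≤ KK g R := by
  have h1 := TT_ge (g := g) hR
  have h2 : (0 : ℝ) ≤ 32 * 64 ^ (2 * g + 1) := by positivity
  have h3 : (0 : ℝ) ≤ 128 * 4 ^ 6 * R := by positivity
  have h4 : (0 : ℝ) ≤ 2 * R * TT g R ^ (2 * g + 1) := by positivity
  have h5 : R ≤ 128 * 4 ^ 6 * R := by nlinarith
  unfold KK
  refine ⟨by linarith, by linarith, by linarith, by linarith, by linarith, by linarith,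
    by linarith⟩

variable {k : Type*} [Field k] {v : AbsoluteValue k ℝ} {f : k[X]}

/-- the local data at an archimedean place -/
noncomputable def arLN [hfo : OddM f] {g : ℕ} {R : ℝ} (hR : 1 ≤ R) (φ : k →+* ℂ)
    (hv : ∀ x, v x = ‖φ x‖) (hd : f.natDegree = 2 * g + 1)
    (hf : L1 (f.map φ) ≤ R) {A B : k[X]} {Δ : k} (hA : L1 (A.map φ) ≤ R)
    (hB : L1 (B.map φ) ≤ R) (hAd : A.natDegree ≤ 2 * g + 1) (hBd : B.natDegree ≤ 2 * g + 1)
    (hAB : A * f + B * derivative f = C Δ) (hΔ : v Δ ≤ R) :
    LN v f g Δ (KK g R) (TT g R) where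
  μ p := (p.map φ).mahlerMeasure
  ν z := L1 (z.re.map φ) + L1 (z.im.map φ)
  one_le_T := by linarith [TT_ge (g := g) hR]
  T_le := (KK_ge hR).2.2.2.1
  two_le := by
    rw [hv, map_ofNat]
    have := (KK_ge (g := g) hR).2.2.2.2.2.1
    simpa using this
  μ_mul p q := by rw [Polynomial.map_mul, mahlerMeasure_mul]
  μ_C c := by rw [map_C, mahlerMeasure_const, hv]
  μ_X r := by
    rw [Polynomial.map_sub, map_X, map_C, mahlerMeasure_X_sub_C, hv]
  ν_nonneg z := add_nonneg (L1_nonneg _) (L1_nonneg _)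
  ν_mul z w := by
    have e1 : (z * w).re = z.re * w.re + f * z.im * w.im := rfl
    have e2 : (z * w).im = z.re * w.im + z.im * w.re := by
      show _ + 0 * z.im * w.im = _
      ring
    rw [e1, e2]
    simp only [Polynomial.map_add, Polynomial.map_mul]
    have n1 := L1_nonneg (z.re.map φ)
    have n2 := L1_nonneg (z.im.map φ)
    have n3 := L1_nonneg (w.re.map φ)
    have n4 := L1_nonneg (w.im.map φ)
    have nf := L1_nonneg (f.map φ)
    have a1 := L1_add_le (z.re.map φ * w.re.map φ) (f.map φ * z.im.map φ * w.im.map φ)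
    have a2 := L1_add_le (z.re.map φ * w.im.map φ) (z.im.map φ * w.re.map φ)
    have a3 := L1_mul_le (z.re.map φ) (w.re.map φ)
    have a4 := L1_mul_le (z.re.map φ) (w.im.map φ)
    have a5 := L1_mul_le (z.im.map φ) (w.re.map φ)
    have a6 : L1 (f.map φ * z.im.map φ * w.im.map φ) ≤
        KK g R * (L1 (z.im.map φ) * L1 (w.im.map φ)) := by
      refine (L1_mul_le _ _).trans ?_
      have b1 := L1_mul_le (f.map φ) (z.im.map φ)
      have b2 := (KK_ge (g := g) hR).2.2.2.2.1
      calc L1 (f.map φ * z.im.map φ) * L1 (w.im.map φ)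
          ≤ (L1 (f.map φ) * L1 (z.im.map φ)) * L1 (w.im.map φ) := by gcongr
        _ ≤ (KK g R * L1 (z.im.map φ)) * L1 (w.im.map φ) := by
            gcongr
            exact hf.trans b2
        _ = _ := by ring
    have hK := (KK_ge (g := g) hR).2.2.2.2.2.2
    have m1 : 0 ≤ L1 (z.re.map φ) * L1 (w.re.map φ) := by positivity
    have m2 : 0 ≤ L1 (z.re.map φ) * L1 (w.im.map φ) := by positivity
    have m3 : 0 ≤ L1 (z.im.map φ) * L1 (w.re.map φ) := by positivity
    nlinarith [mul_le_mul_of_nonneg_right hK m1, mul_le_mul_of_nonneg_right hK m2,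
      mul_le_mul_of_nonneg_right hK m3]
  ν_smul p w hp hw := by
    have hpw : CC f p * w ≠ 0 := mul_ne_zero (CC_ne hp) hw
    have e1 : (CC f p * w).re = p * w.re := by
      simp only [QuadraticAlgebra.re_mul, CC_re, CC_im]; ring
    have e2 : (CC f p * w).im = p * w.im := by
      simp only [QuadraticAlgebra.im_mul, CC_re, CC_im]; ring
    obtain ⟨D, hD⟩ : ∃ D, D = (CC f p * w).norm.natDegree := ⟨_, rfl⟩
    have hDw : w.norm.natDegree ≤ D := by
      rw [hD, natDegree_norm_mul (CC_ne hp) hw]; omega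
    obtain ⟨d1, d2⟩ := degs hw
    have key : ∀ q : k[X], q.natDegree ≤ D →
        (p.map φ).mahlerMeasure * L1 (q.map φ) ≤ 2 ^ D * L1 ((p * q).map φ) := by
      intro q hq
      have h1 : L1 (q.map φ) ≤ 2 ^ D * (q.map φ).mahlerMeasure :=
        L1_le_mahler _ (natDegree_map_le.trans hq)
      calc (p.map φ).mahlerMeasure * L1 (q.map φ)
          ≤ (p.map φ).mahlerMeasure * (2 ^ D * (q.map φ).mahlerMeasure) := by
            have := mahlerMeasure_nonneg (p.map φ)
            gcongr
        _ = 2 ^ D * (((p * q).map φ).mahlerMeasure) := by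
            rw [Polynomial.map_mul, mahlerMeasure_mul]; ring
        _ ≤ _ := by
            gcongr
            exact mahler_le_L1 _
    have k1 := key w.re (by omega)
    have k2 : (p.map φ).mahlerMeasure * L1 (w.im.map φ) ≤ 2 ^ D * L1 ((p * w.im).map φ) := by
      by_cases hi : w.im = 0
      · rw [hi]; simp [L1_zero]
      · exact key w.im (by have := d2 hi; omega)
    rw [← hD, e1, e2]
    have hK := (KK_ge (g := g) hR).2.2.2.2.2
    have h2D : (2 : ℝ) ^ D ≤ KK g R ^ (D + 1) := by
      calc (2 : ℝ) ^ D ≤ KK g R ^ D := by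
            gcongr
            exact hK.1
        _ ≤ KK g R ^ (D + 1) := pow_le_pow_right₀ hK.2 (by omega)
    have n1 := L1_nonneg ((p * w.re).map φ)
    have n2 := L1_nonneg ((p * w.im).map φ)
    calc (p.map φ).mahlerMeasure * (L1 (w.re.map φ) + L1 (w.im.map φ))
        ≤ 2 ^ D * (L1 ((p * w.re).map φ) + L1 ((p * w.im).map φ)) := by linarith
      _ ≤ _ := by gcongr
  ν_eval w x y h := by
    by_cases hw : w = 0
    · rw [hw, map_zero, map_zero, zero_pow two_ne_zero]
      have := (KK_ge (g := g) hR).2.2.2.2.2.2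
      positivity
    obtain ⟨d1, d2⟩ := degs hw
    obtain ⟨m, hm'⟩ : ∃ m, m = max 1 (v x) := ⟨_, rfl⟩
    have hm : (1 : ℝ) ≤ m := by rw [hm']; exact le_max_left _ _
    rw [← hm']
    obtain ⟨D, hD⟩ : ∃ D, D = w.norm.natDegree := ⟨_, rfl⟩
    rw [← hD] at d1 d2 ⊢
    have ev : ∀ p : k[X], v (p.eval x) ≤ L1 (p.map φ) * m ^ p.natDegree := by
      intro p
      have h1 := norm_eval_le (p.map φ) (φ x)
      rw [eval_map, eval₂_at_apply, ← hv, ← hv, natDegree_map, ← hm'] at h1
      exact h1
    obtain ⟨s, hs⟩ : ∃ s, s = Real.sqrt (m ^ D) := ⟨_, rfl⟩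
    have hs0 : 0 ≤ s := by rw [hs]; exact Real.sqrt_nonneg _
    have hs2 : s ^ 2 = m ^ D := by rw [hs]; exact Real.sq_sqrt (by positivity)
    obtain ⟨K, hK⟩ : ∃ K, K = KK g R := ⟨_, rfl⟩
    have hK1 := (KK_ge (g := g) hR).2.2.2.2
    rw [← hK] at hK1 ⊢
    have n1 := L1_nonneg (w.re.map φ)
    have n2 := L1_nonneg (w.im.map φ)
    have h1 : v (w.re.eval x) ≤ K * L1 (w.re.map φ) * s := by
      apply le_of_sq_le_sq _ (by have := hK1.2.2; positivity)
      calc v (w.re.eval x) ^ 2 ≤ (L1 (w.re.map φ) * m ^ w.re.natDegree) ^ 2 := by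
            gcongr
            exact ev _
        _ = L1 (w.re.map φ) ^ 2 * m ^ (2 * w.re.natDegree) := by
            rw [mul_pow, ← pow_mul, mul_comm 2]
        _ ≤ L1 (w.re.map φ) ^ 2 * m ^ D := by gcongr
        _ ≤ K ^ 2 * (L1 (w.re.map φ) ^ 2 * m ^ D) :=
            le_mul_of_one_le_left (by positivity) (one_le_pow₀ hK1.2.2)
        _ = _ := by rw [mul_pow, mul_pow, hs2]; ring
    have h2 : v (w.im.eval x * y) ≤ K * L1 (w.im.map φ) * s := by
      apply le_of_sq_le_sq _ (by have := hK1.2.2; positivity)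
      by_cases hi : w.im = 0
      · rw [hi, eval_zero, zero_mul, map_zero, zero_pow two_ne_zero]
        positivity
      have hy : v y ^ 2 ≤ K * m ^ f.natDegree := by
        rw [← map_pow, h]
        refine (ev f).trans ?_
        gcongr
        exact hf.trans hK1.1
      calc v (w.im.eval x * y) ^ 2 = v (w.im.eval x) ^ 2 * v y ^ 2 := by rw [map_mul, mul_pow]
        _ ≤ (L1 (w.im.map φ) * m ^ w.im.natDegree) ^ 2 * (K * m ^ f.natDegree) := by
            gcongr
            exact ev _
        _ = K * (L1 (w.im.map φ) ^ 2 * m ^ (2 * w.im.natDegree + f.natDegree)) := by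
            rw [mul_pow, ← pow_mul, mul_comm _ 2, pow_add]; ring
        _ ≤ K * (L1 (w.im.map φ) ^ 2 * m ^ D) := by
            have := d2 hi
            have := hK1.2.2
            gcongr
        _ ≤ (K * K) * (L1 (w.im.map φ) ^ 2 * m ^ D) := by
            have := hK1.2.2
            gcongr
            nlinarith
        _ = _ := by rw [mul_pow, mul_pow, hs2]; ring
    rw [evP_apply]
    have h3 : v (w.re.eval x + w.im.eval x * y) ≤
        K * (L1 (w.re.map φ) + L1 (w.im.map φ)) * s := by
      refine (v.add_le _ _).trans ?_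
      linarith
    calc v (w.re.eval x + w.im.eval x * y) ^ 2
        ≤ (K * (L1 (w.re.map φ) + L1 (w.im.map φ)) * s) ^ 2 := by gcongr
      _ = _ := by rw [mul_pow, mul_pow, hs2]
  ν_y a b i := by
    have e1 : L1 ((C a * X ^ i : k[X]).map φ) = v a := by
      rw [Polynomial.map_mul, Polynomial.map_pow, map_X, map_C, mul_comm, L1_X_pow_mul, L1_C, hv]
    have e2 : L1 ((C b : k[X]).map φ) = v b := by rw [map_C, L1_C, hv]
    show L1 ((C a * X ^ i : k[X]).map φ) + L1 ((C b : k[X]).map φ) ≤ _
    rw [e1, e2]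
    have h1 := le_max_left (v a) (v b)
    have h2 := le_max_right (v a) (v b)
    have h3 := (KK_ge (g := g) hR).2.2.2.2.2.1
    have h4 : 0 ≤ max (v a) (v b) := (v.nonneg a).trans h1
    nlinarith
  bc z hz := by
    obtain ⟨d1, d2⟩ := degs hz
    obtain ⟨D, hD⟩ : ∃ D, D = z.norm.natDegree := ⟨_, rfl⟩
    rw [← hD] at d1 d2 ⊢
    have hnorm : (z.norm).map φ = (z.re.map φ) ^ 2 - f.map φ * (z.im.map φ) ^ 2 := by
      rw [nrm, Polynomial.map_sub, Polynomial.map_pow, Polynomial.map_mul, Polynomial.map_pow]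
    have h1 := bc_gen (D := D) (hfo.monic.map φ) (natDegree_map (f := φ) (p := f))
      hfo.odd hR hf (z.re.map φ) (z.im.map φ) (by rw [natDegree_map]; exact d1) (by
        intro h
        rw [natDegree_map]
        apply d2
        rintro h'
        rw [h', Polynomial.map_zero] at h
        exact h rfl) (by
        rw [← hnorm, natDegree_map, hD])
    rw [← hnorm, hd] at h1
    have h2 : L1 (z.norm.map φ) ≤ 2 ^ D * (z.norm.map φ).mahlerMeasure :=
      L1_le_mahler _ (by rw [natDegree_map, hD])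
    have hK := KK_ge (g := g) hR
    obtain ⟨K, hK'⟩ : ∃ K, K = KK g R := ⟨_, rfl⟩
    rw [← hK'] at hK ⊢
    have hM := mahlerMeasure_nonneg (z.norm.map φ)
    refine h1.trans ?_
    calc 32 * 64 ^ (2 * g + 1 + D) * (4 ^ 6 * R) ^ D * L1 (z.norm.map φ)
        ≤ 32 * 64 ^ (2 * g + 1 + D) * (4 ^ 6 * R) ^ D *
          (2 ^ D * (z.norm.map φ).mahlerMeasure) := by gcongr
      _ = (32 * 64 ^ (2 * g + 1)) * (128 * 4 ^ 6 * R) ^ D * (z.norm.map φ).mahlerMeasure := by
          have e : (128 * 4 ^ 6 * R) ^ D = (64 ^ D) * (4 ^ 6 * R) ^ D * 2 ^ D := by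
            rw [← mul_pow, ← mul_pow]; congr 1; ring
          rw [e, pow_add]
          ring
      _ ≤ K * K ^ D * (z.norm.map φ).mahlerMeasure := by
          gcongr
          · linarith [hK.2.2.2.2.2.2]
          · exact hK.1
          · exact hK.2.1
      _ = _ := by rw [pow_succ']
  f_le x := by
    have h1 := norm_eval_le (f.map φ) (φ x)
    rw [eval_map, eval₂_at_apply, ← hv, ← hv, natDegree_map, hd] at h1
    refine h1.trans ?_
    gcongr
    exact hf.trans (KK_ge hR).2.2.2.2.1
  h1 x hx := by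
    have h := congrArg (fun p => p.eval x) hAB
    simp only [eval_add, eval_mul, eval_C] at h
    have hT := TT_ge (g := g) hR
    have e : ∀ p : k[X], L1 (p.map φ) ≤ R → p.natDegree ≤ 2 * g + 1 →
        v (p.eval x) ≤ R * TT g R ^ (2 * g + 1) := by
      intro p hp hpd
      have h1 := norm_eval_le (p.map φ) (φ x)
      rw [eval_map, eval₂_at_apply, ← hv, ← hv, natDegree_map] at h1
      refine h1.trans ?_
      have h2 : max 1 (v x) ≤ TT g R := max_le (by linarith) hx
      have h3 : max 1 (v x) ^ p.natDegree ≤ TT g R ^ (2 * g + 1) := by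
        calc max 1 (v x) ^ p.natDegree ≤ TT g R ^ p.natDegree := by gcongr
          _ ≤ _ := pow_le_pow_right₀ (by linarith) hpd
      gcongr
    have h1 := e A hA hAd
    have h2 := e B hB hBd
    have h3 := le_max_left (v (f.eval x)) (v (f.derivative.eval x))
    have h4 := le_max_right (v (f.eval x)) (v (f.derivative.eval x))
    obtain ⟨M, hM⟩ : ∃ M, M = max (v (f.eval x)) (v (f.derivative.eval x)) := ⟨_, rfl⟩
    rw [← hM] at h3 h4 ⊢
    have hM0 : 0 ≤ M := (v.nonneg _).trans h3
    have hK := (KK_ge (g := g) hR).2.2.1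
    calc v Δ = v (A.eval x * f.eval x + B.eval x * f.derivative.eval x) := by rw [h]
      _ ≤ v (A.eval x * f.eval x) + v (B.eval x * f.derivative.eval x) := v.add_le _ _
      _ = v (A.eval x) * v (f.eval x) + v (B.eval x) * v (f.derivative.eval x) := by
          rw [map_mul, map_mul]
      _ ≤ (R * TT g R ^ (2 * g + 1)) * M + (R * TT g R ^ (2 * g + 1)) * M := by gcongr
      _ = (2 * R * TT g R ^ (2 * g + 1)) * M := by ring
      _ ≤ _ := by gcongr
  h2 x hx := by
    have hT := TT_ge (g := g) hR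
    have hmon : f.coeff (2 * g + 1) = 1 := by
      rw [← hd]; exact hfo.monic.coeff_natDegree
    have e1 : 2 * g * f.eval x - x * f.derivative.eval x =
        (∑ i ∈ Finset.range (2 * g + 1), ((2 * g : ℕ) - (i : ℕ) : k) * f.coeff i * x ^ i) -
          x ^ (2 * g + 1) := by
      have h1 : (C ((2 * g : ℕ) : k) * f - X * f.derivative).eval x =
          2 * g * f.eval x - x * f.derivative.eval x := by
        simp
      rw [← h1, eval_eq_sum_range' (n := 2 * g + 2), Finset.sum_range_succ]
      · have h2 : ∀ i, (C ((2 * g : ℕ) : k) * f - X * f.derivative).coeff i =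
            ((2 * g : ℕ) - (i : ℕ) : k) * f.coeff i := by
          intro i
          rw [coeff_sub, coeff_C_mul]
          cases i with
          | zero => simp
          | succ i =>
            rw [coeff_X_mul, coeff_derivative]
            push_cast
            ring
        rw [h2, hmon]
        simp only [h2]
        push_cast
        ring
      · refine lt_of_le_of_lt (natDegree_sub_le _ _) (max_lt ?_ ?_)
        · refine (natDegree_C_mul_le _ _).trans_lt ?_
          omega
        · refine (natDegree_mul_le).trans_lt ?_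
          have := natDegree_derivative_le f
          rw [natDegree_X]
          omega
    have hx1 : 1 < v x := by linarith
    have h2 : v (∑ i ∈ Finset.range (2 * g + 1), ((2 * g : ℕ) - (i : ℕ) : k) * f.coeff i * x ^ i)
        ≤ 2 * g * R * v x ^ (2 * g) := by
      refine (v.sum_le _ _).trans ?_
      calc ∑ i ∈ Finset.range (2 * g + 1), v (((2 * g : ℕ) - (i : ℕ) : k) * f.coeff i * x ^ i)
          ≤ ∑ i ∈ Finset.range (2 * g + 1), 2 * g * ‖(f.map φ).coeff i‖ * v x ^ (2 * g) := by
            apply Finset.sum_le_sum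
            intro i hi
            rw [Finset.mem_range] at hi
            rw [map_mul, map_mul, map_pow, coeff_map, ← hv]
            have h3 : v (((2 * g : ℕ) : k) - (i : ℕ)) ≤ 2 * g := by
              rw [hv, ← Nat.cast_sub (by omega : i ≤ 2 * g), map_natCast, Complex.norm_natCast]
              have : 2 * g - i ≤ 2 * g := Nat.sub_le _ _
              exact_mod_cast this
            have h4 : v x ^ i ≤ v x ^ (2 * g) := pow_le_pow_right₀ hx1.le (by omega)
            gcongr
        _ = 2 * g * (∑ i ∈ Finset.range (2 * g + 1), ‖(f.map φ).coeff i‖) * v x ^ (2 * g) := by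
            rw [Finset.mul_sum, Finset.sum_mul]
        _ ≤ 2 * g * R * v x ^ (2 * g) := by
            gcongr
            refine le_trans ?_ hf
            rw [L1_range (p := f.map φ) (N := 2 * g + 2) (by rw [natDegree_map, hd]; omega)]
            apply Finset.sum_le_sum_of_subset_of_nonneg
            · intro i hi
              rw [Finset.mem_range] at hi ⊢
              omega
            · intros
              exact norm_nonneg _
    have h3 : 2 * g * R * v x ^ (2 * g) ≤ 1 / 2 * v x ^ (2 * g + 1) := by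
      have h4 : 4 * g * R ≤ v x := by
        have : TT g R = 4 * g * R + 2 := rfl
        linarith
      have h5 : 0 ≤ v x ^ (2 * g) := by positivity
      rw [pow_succ (v x)]
      nlinarith
    have h4 : v x ^ (2 * g + 1) ≤ v (∑ i ∈ Finset.range (2 * g + 1),
        ((2 * g : ℕ) - (i : ℕ) : k) * f.coeff i * x ^ i) +
        v (2 * g * f.eval x - x * f.derivative.eval x) := by
      rw [← map_pow]
      have e2 : x ^ (2 * g + 1) = (∑ i ∈ Finset.range (2 * g + 1),
        ((2 * g : ℕ) - (i : ℕ) : k) * f.coeff i * x ^ i) -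
          (2 * g * f.eval x - x * f.derivative.eval x) := by rw [e1]; ring
      conv_lhs => rw [e2]
      refine (v.sub_le_add _ _)
    have hK := (KK_ge (g := g) hR).2.2.2.2.2.1
    have h5 : 0 ≤ v (2 * g * f.eval x - x * f.derivative.eval x) := v.nonneg _
    nlinarith
  Δ_le := hΔ.trans (KK_ge hR).2.2.2.2.1

end Pool.Agent.KS6_58
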