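import Pool.Agent.KS6_58.Loc

/-!
# The local data at a nonarchimedean absolute value
-/

set_option autoImplicit false

namespace Pool.Agent.KS6_58

open Polynomial Pool.Agent.Y723.HJ

lemma degs {k : Type*} [Field k] {f : k[X]} [OddM f] {z : CR f} (hz : z ≠ 0) :
    2 * z.re.natDegree ≤ z.norm.natDegree ∧
      (z.im ≠ 0 → 2 * z.im.natDegree + f.natDegree ≤ z.norm.natDegree) := by
  have hf : f ≠ 0 := f_ne inferInstance
  have e1 : ∀ p : k[X], p ≠ 0 → (f * p ^ 2).natDegree = f.natDegree + 2 * p.natDegree := by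
    intro p hp
    rw [natDegree_mul hf (pow_ne_zero 2 hp), natDegree_pow]
  rcases cases_norm z hz with ⟨h1, h2, h3, h4, h5⟩ | ⟨h1, h2, h3, h4, h5⟩
  · refine ⟨h4.ge, fun h => ?_⟩
    have h6 := natDegree_lt_natDegree (mul_ne_zero hf (pow_ne_zero 2 h)) h2
    rw [e1 _ h, natDegree_pow] at h6
    omega
  · refine ⟨?_, fun _ => by omega⟩
    by_cases h : z.re = 0
    · rw [h]; simp
    · have h6 := natDegree_lt_natDegree (pow_ne_zero 2 h) h2
      rw [e1 _ h1, natDegree_pow] at h6
      omega

section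

variable {k : Type*} [Field k] {v : AbsoluteValue k ℝ} (hna : IsNonarchimedean v)

lemma coeff_le_G (p : k[X]) (i : ℕ) : v (p.coeff i) ≤ gaussNorm v (1 : ℝ) p := by
  have := le_gaussNorm v p (c := 1) zero_le_one i
  simpa using this

lemma G_le {p : k[X]} {b : ℝ} (_h0 : 0 ≤ b) (h : ∀ i, v (p.coeff i) ≤ b) : gaussNorm v (1 : ℝ) p ≤ b := by
  obtain ⟨i, hi⟩ := exists_eq_gaussNorm v (1 : ℝ) p
  rw [hi]
  simpa using h i

lemma G_nonneg (p : k[X]) : 0 ≤ gaussNorm v (1 : ℝ) p := gaussNorm_nonneg v p zero_le_one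

lemma G_pos {p : k[X]} (hp : p ≠ 0) : 0 < gaussNorm v (1 : ℝ) p := by
  refine lt_of_le_of_ne (G_nonneg p) (Ne.symm ?_)
  intro h
  exact hp ((gaussNorm_eq_zero_iff v p (fun _ hx => (AbsoluteValue.eq_zero v).mp hx)
    one_pos).1 h)

/-- the top index at which the Gauss norm is attained -/
def Top (v : AbsoluteValue k ℝ) (p : k[X]) (i : ℕ) : Prop :=
  v (p.coeff i) = gaussNorm v (1 : ℝ) p ∧ ∀ j, i < j → v (p.coeff j) < gaussNorm v (1 : ℝ) p

lemma exists_top {p : k[X]} (hp : p ≠ 0) : ∃ i, Top v p i := by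
  classical
  have h0 : (p.support.filter (fun i => v (p.coeff i) = gaussNorm v (1 : ℝ) p)).Nonempty := by
    obtain ⟨i, hi⟩ := exists_eq_gaussNorm v (1 : ℝ) p
    rw [one_pow, mul_one] at hi
    refine ⟨i, Finset.mem_filter.2 ⟨?_, hi.symm⟩⟩
    rw [mem_support_iff]
    intro h
    rw [h, map_zero] at hi
    exact (G_pos (v := v) hp).ne' hi
  refine ⟨_, (Finset.mem_filter.1 (Finset.max'_mem _ h0)).2, ?_⟩
  intro j hj
  refine lt_of_le_of_ne (coeff_le_G p j) ?_
  intro h
  have h1 : j ∈ p.support.filter (fun i => v (p.coeff i) = gaussNorm v (1 : ℝ) p) := by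
    refine Finset.mem_filter.2 ⟨?_, h⟩
    rw [mem_support_iff]
    intro h'
    rw [h', map_zero] at h
    exact (G_pos (v := v) hp).ne h
  exact absurd (Finset.le_max' _ _ h1) (not_le.2 hj)

include hna

lemma sub_ge {a b : k} (h : v a < v b) : v b ≤ v (a - b) ∧ v b ≤ v (b - a) := by
  have h1 : v b ≤ max (v a) (v (b - a)) := by
    have := hna a (b - a)
    rwa [add_sub_cancel] at this
  have h2 : v b ≤ v (b - a) := by
    rcases le_max_iff.1 h1 with h3 | h3
    · exact absurd h (not_lt.2 h3)
    · exact h3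
  refine ⟨?_, h2⟩
  rwa [v.map_sub]

lemma top_mul {p q : k[X]} {i j : ℕ} (hp : p ≠ 0) (hq : q ≠ 0) (h1 : Top v p i) (h2 : Top v q j) :
    Top v (p * q) (i + j) := by
  have hGp := G_pos (v := v) hp
  have hGq := G_pos (v := v) hq
  have hlt : ∀ a b : ℕ, i < a ∨ j < b → v (p.coeff a * q.coeff b) < gaussNorm v (1 : ℝ) p * gaussNorm v (1 : ℝ) q := by
    intro a b hab
    rw [map_mul]
    rcases hab with h | h
    · exact mul_lt_mul_of_lt_of_le_of_nonneg_of_pos (h1.2 a h) (coeff_le_G q b)
        (v.nonneg _) hGq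
    · exact (mul_le_mul_of_nonneg_right (coeff_le_G p a) (v.nonneg _)).trans_lt
        (mul_lt_mul_of_pos_left (h2.2 b h) hGp)
  have hsum : ∀ (s : Finset (ℕ × ℕ)), (∀ x ∈ s, i < x.1 ∨ j < x.2) →
      v (∑ x ∈ s, p.coeff x.1 * q.coeff x.2) < gaussNorm v (1 : ℝ) p * gaussNorm v (1 : ℝ) q := by
    intro s
    classical
    induction s using Finset.induction_on with
    | empty => intro _; simp only [Finset.sum_empty, map_zero]; positivity
    | insert a s ha ih =>
      intro h
      rw [Finset.sum_insert ha]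
      refine (hna _ _).trans_lt (max_lt ?_ ?_)
      · exact hlt _ _ (h a (Finset.mem_insert_self _ _))
      · exact ih fun x hx => h x (Finset.mem_insert_of_mem hx)
  rw [Top, gaussNorm_mul hna one_pos]
  constructor
  · have hmem : (i, j) ∈ Finset.HasAntidiagonal.antidiagonal (i + j) :=
      Finset.HasAntidiagonal.mem_antidiagonal.2 rfl
    rw [coeff_mul, ← Finset.add_sum_erase _ _ hmem]
    have h3 := hsum ((Finset.HasAntidiagonal.antidiagonal (i + j)).erase (i, j)) (by
      intro x hx
      rw [Finset.mem_erase, Finset.HasAntidiagonal.mem_antidiagonal] at hx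
      obtain ⟨h4, h5⟩ := hx
      by_contra hc
      push Not at hc
      apply h4
      refine Prod.ext ?_ ?_ <;> simp only <;> omega)
    have h4 : v (p.coeff i * q.coeff j) = gaussNorm v (1 : ℝ) p * gaussNorm v (1 : ℝ) q := by rw [map_mul, h1.1, h2.1]
    apply le_antisymm
    · refine (hna _ _).trans (max_le h4.le h3.le)
    · have h5 : v (-∑ x ∈ (Finset.HasAntidiagonal.antidiagonal (i + j)).erase (i, j), p.coeff x.1 * q.coeff x.2) <
          v (p.coeff i * q.coeff j) := by rw [map_neg_eq_map, h4]; exact h3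
      have := (sub_ge hna h5).2
      rw [sub_neg_eq_add, h4] at this
      exact this
  · intro m hm
    rw [coeff_mul]
    apply hsum
    intro x hx
    rw [Finset.HasAntidiagonal.mem_antidiagonal] at hx
    omega

lemma G_add_le (p q : k[X]) : gaussNorm v (1 : ℝ) (p + q) ≤ max (gaussNorm v (1 : ℝ) p) (gaussNorm v (1 : ℝ) q) :=
  isNonarchimedean_gaussNorm v hna zero_le_one p q

lemma G_sub_le (p q : k[X]) : gaussNorm v (1 : ℝ) (p - q) ≤ max (gaussNorm v (1 : ℝ) p) (gaussNorm v (1 : ℝ) q) := by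
  rw [sub_eq_add_neg]
  refine (G_add_le hna _ _).trans ?_
  apply max_le_max le_rfl
  apply G_le (G_nonneg q)
  intro i
  rw [coeff_neg, map_neg_eq_map]
  exact coeff_le_G q i

lemma v_eval_le (p : k[X]) (x : k) : v (p.eval x) ≤ gaussNorm v (1 : ℝ) p * max 1 (v x) ^ p.natDegree := by
  have hm : (1 : ℝ) ≤ max 1 (v x) := le_max_left _ _
  rw [eval_eq_sum_range]
  have : ∀ (s : Finset ℕ), (∀ i ∈ s, i ≤ p.natDegree) →
      v (∑ i ∈ s, p.coeff i * x ^ i) ≤ gaussNorm v (1 : ℝ) p * max 1 (v x) ^ p.natDegree := by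
    intro s
    classical
    induction s using Finset.induction_on with
    | empty =>
      intro _
      have := G_nonneg (v := v) p
      simp only [Finset.sum_empty, map_zero]
      positivity
    | insert a s ha ih =>
      intro h
      rw [Finset.sum_insert ha]
      refine (hna _ _).trans (max_le ?_ (ih fun x hx => h x (Finset.mem_insert_of_mem hx)))
      rw [map_mul, map_pow]
      have h1 : v x ^ a ≤ max 1 (v x) ^ p.natDegree := by
        calc v x ^ a ≤ max 1 (v x) ^ a := by gcongr; exact le_max_right _ _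
          _ ≤ _ := pow_le_pow_right₀ hm (h a (Finset.mem_insert_self _ _))
      have := coeff_le_G (v := v) p a
      have := G_nonneg (v := v) p
      gcongr
  exact this _ fun i hi => by rw [Finset.mem_range] at hi; omega

lemma v_nat_le (n : ℕ) : v (n : k) ≤ 1 := by
  induction n with
  | zero => simp
  | succ n ih =>
    push_cast
    exact (hna _ _).trans (max_le ih (by simp))

variable {f : k[X]}

/-- the norm of a function at a nonarchimedean place -/
theorem bc_na [OddM f] (hf : ∀ i, v (f.coeff i) ≤ 1) (z : CR f) :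
    max (gaussNorm v (1 : ℝ) z.re) (gaussNorm v (1 : ℝ) z.im) ^ 2 ≤ gaussNorm v (1 : ℝ) z.norm := by
  have hf0 : f ≠ 0 := f_ne inferInstance
  have hG1 : gaussNorm v (1 : ℝ) f = 1 := by
    apply le_antisymm (G_le zero_le_one hf)
    have := coeff_le_G (v := v) f f.natDegree
    rwa [(inferInstance : OddM f).monic.coeff_natDegree, map_one] at this
  have hGf : ∀ b : k[X], gaussNorm v (1 : ℝ) (f * b ^ 2) = gaussNorm v (1 : ℝ) b ^ 2 := by
    intro b
    rw [gaussNorm_mul hna one_pos, hG1, one_mul, pow_two, gaussNorm_mul hna one_pos, pow_two]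
  have hGa : ∀ b : k[X], gaussNorm v (1 : ℝ) (b ^ 2) = gaussNorm v (1 : ℝ) b ^ 2 := by
    intro b
    rw [pow_two, gaussNorm_mul hna one_pos, pow_two]
  have htf : Top v f f.natDegree := by
    refine ⟨?_, fun j hj => ?_⟩
    · rw [(inferInstance : OddM f).monic.coeff_natDegree, map_one, hG1]
    · rw [coeff_eq_zero_of_natDegree_lt hj, map_zero, hG1]
      exact one_pos
  rw [nrm]
  by_cases ha : z.re = 0
  · rw [ha, gaussNorm_zero, max_eq_right (G_nonneg _), ← hGf]
    have e : (0 : k[X]) ^ 2 - f * z.im ^ 2 = -(f * z.im ^ 2) := by ring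
    rw [e]
    apply G_le (G_nonneg _)
    intro i
    have := coeff_le_G (v := v) (-(f * z.im ^ 2)) i
    rwa [coeff_neg, map_neg_eq_map] at this
  by_cases hb : z.im = 0
  · rw [hb, gaussNorm_zero, max_eq_left (G_nonneg _), ← hGa]
    simp
  obtain ⟨i, hi⟩ := exists_top (v := v) ha
  obtain ⟨j, hj⟩ := exists_top (v := v) hb
  have h1 : Top v (z.re ^ 2) (i + i) := by
    rw [pow_two]; exact top_mul hna ha ha hi hi
  have h2 : Top v (f * z.im ^ 2) (f.natDegree + (j + j)) := by
    apply top_mul hna hf0 (pow_ne_zero 2 hb) htf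
    rw [pow_two]; exact top_mul hna hb hb hj hj
  have hne : i + i ≠ f.natDegree + (j + j) := by
    obtain ⟨m, hm⟩ := (inferInstance : OddM f).odd
    omega
  have hA := G_nonneg (v := v) z.re
  have hB := G_nonneg (v := v) z.im
  have key1 : gaussNorm v (1 : ℝ) z.im ≤ gaussNorm v (1 : ℝ) z.re → v ((f * z.im ^ 2).coeff (i + i)) < v ((z.re ^ 2).coeff (i + i)) →
      max (gaussNorm v (1 : ℝ) z.re) (gaussNorm v (1 : ℝ) z.im) ^ 2 ≤ gaussNorm v (1 : ℝ) (z.re ^ 2 - f * z.im ^ 2) := by
    intro h3 h4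
    rw [max_eq_left h3, ← hGa, ← h1.1]
    refine (sub_ge hna h4).2.trans ?_
    rw [← coeff_sub]
    exact coeff_le_G _ _
  have key2 : gaussNorm v (1 : ℝ) z.re ≤ gaussNorm v (1 : ℝ) z.im → v ((z.re ^ 2).coeff (f.natDegree + (j + j))) <
      v ((f * z.im ^ 2).coeff (f.natDegree + (j + j))) →
      max (gaussNorm v (1 : ℝ) z.re) (gaussNorm v (1 : ℝ) z.im) ^ 2 ≤ gaussNorm v (1 : ℝ) (z.re ^ 2 - f * z.im ^ 2) := by
    intro h3 h4
    rw [max_eq_right h3, ← hGf, ← h2.1]
    refine (sub_ge hna h4).1.trans ?_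
    rw [← coeff_sub]
    exact coeff_le_G _ _
  rcases lt_trichotomy (gaussNorm v (1 : ℝ) z.re) (gaussNorm v (1 : ℝ) z.im) with h3 | h3 | h3
  · apply key2 h3.le
    rw [h2.1, hGf]
    refine (coeff_le_G _ _).trans_lt ?_
    rw [hGa]
    gcongr
  · rcases lt_or_gt_of_ne hne with h4 | h4
    · apply key2 h3.le
      rw [h2.1, hGf, ← h3, ← hGa]
      exact h1.2 _ h4
    · apply key1 h3.ge
      rw [h1.1, hGa, h3, ← hGf]
      exact h2.2 _ h4
  · apply key1 h3.le
    rw [h1.1, hGa]
    refine (coeff_le_G _ _).trans_lt ?_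
    rw [hGf]
    gcongr

lemma G_X_sub_C (r : k) : gaussNorm v (1 : ℝ) (X - C r) = max 1 (v r) := by
  apply le_antisymm
  · refine (G_sub_le hna _ _).trans ?_
    rw [gaussNorm_C]
    apply max_le_max _ le_rfl
    apply G_le zero_le_one
    intro i
    rw [coeff_X]
    split_ifs <;> simp
  · apply max_le
    · have := coeff_le_G (v := v) (X - C r) 1
      rw [coeff_sub, coeff_X_one, coeff_C_succ, sub_zero, map_one] at this
      exact this
    · have := coeff_le_G (v := v) (X - C r) 0
      rw [coeff_sub, coeff_X_zero, coeff_C_zero, zero_sub, map_neg_eq_map] at this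
      exact this

/-- the local data at a nonarchimedean absolute value -/
noncomputable def naLN [hfo : OddM f] {g : ℕ} (hd : f.natDegree = 2 * g + 1)
    (hf : ∀ i, v (f.coeff i) ≤ 1) {A B : k[X]} {Δ : k} (hA : ∀ i, v (A.coeff i) ≤ 1)
    (hB : ∀ i, v (B.coeff i) ≤ 1) (hAB : A * f + B * derivative f = C Δ) (hΔ : v Δ ≤ 1) :
    LN v f g Δ 1 1 where
  μ := gaussNorm v (1 : ℝ)
  ν z := max (gaussNorm v (1 : ℝ) z.re) (gaussNorm v (1 : ℝ) z.im)
  one_le_T := le_rfl
  T_le := le_rfl
  two_le := by exact_mod_cast v_nat_le hna 2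
  μ_mul := gaussNorm_mul hna one_pos
  μ_C c := gaussNorm_C v 1 c
  μ_X := G_X_sub_C hna
  ν_nonneg z := (G_nonneg _).trans (le_max_left _ _)
  ν_mul z w := by
    have hGf : gaussNorm v (1 : ℝ) f ≤ 1 := G_le zero_le_one hf
    have e1 : (z * w).re = z.re * w.re + f * z.im * w.im := rfl
    have e2 : (z * w).im = z.re * w.im + z.im * w.re := by
      show _ + 0 * z.im * w.im = _
      ring
    rw [e1, e2, one_mul]
    have n1 := G_nonneg (v := v) z.re
    have n2 := G_nonneg (v := v) z.im
    have n3 := G_nonneg (v := v) w.re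
    have n4 := G_nonneg (v := v) w.im
    have a1 := le_max_left (gaussNorm v (1 : ℝ) z.re) (gaussNorm v (1 : ℝ) z.im)
    have a2 := le_max_right (gaussNorm v (1 : ℝ) z.re) (gaussNorm v (1 : ℝ) z.im)
    have b1 := le_max_left (gaussNorm v (1 : ℝ) w.re) (gaussNorm v (1 : ℝ) w.im)
    have b2 := le_max_right (gaussNorm v (1 : ℝ) w.re) (gaussNorm v (1 : ℝ) w.im)
    have c1 : 0 ≤ max (gaussNorm v (1 : ℝ) z.re) (gaussNorm v (1 : ℝ) z.im) := n1.trans a1
    apply max_le
    · refine (G_add_le hna _ _).trans (max_le ?_ ?_)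
      · rw [gaussNorm_mul hna one_pos]; gcongr
      · rw [gaussNorm_mul hna one_pos, gaussNorm_mul hna one_pos]
        calc gaussNorm v (1 : ℝ) f * gaussNorm v (1 : ℝ) z.im * gaussNorm v (1 : ℝ) w.im ≤ 1 * gaussNorm v (1 : ℝ) z.im * gaussNorm v (1 : ℝ) w.im := by gcongr
          _ = gaussNorm v (1 : ℝ) z.im * gaussNorm v (1 : ℝ) w.im := by ring
          _ ≤ _ := by gcongr
    · refine (G_add_le hna _ _).trans (max_le ?_ ?_)
      · rw [gaussNorm_mul hna one_pos]; gcongr
      · rw [gaussNorm_mul hna one_pos]; gcongr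
  ν_smul p w _ _ := by
    have e1 : (CC f p * w).re = p * w.re := by
      simp only [QuadraticAlgebra.re_mul, CC_re, CC_im]; ring
    have e2 : (CC f p * w).im = p * w.im := by
      simp only [QuadraticAlgebra.im_mul, CC_re, CC_im]; ring
    rw [e1, e2, one_pow, one_mul, gaussNorm_mul hna one_pos, gaussNorm_mul hna one_pos,
      mul_max_of_nonneg _ _ (G_nonneg p)]
  ν_eval w x y h := by
    by_cases hw : w = 0
    · rw [hw, map_zero, map_zero, zero_pow two_ne_zero]
      positivity
    obtain ⟨d1, d2⟩ := degs hw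
    have hm : (1 : ℝ) ≤ max 1 (v x) := le_max_left _ _
    obtain ⟨m, hm'⟩ : ∃ m, m = max 1 (v x) := ⟨_, rfl⟩
    rw [← hm'] at hm ⊢
    rw [one_pow, one_mul, evP_apply]
    have n1 := G_nonneg (v := v) w.re
    have n2 := G_nonneg (v := v) w.im
    have a1 := le_max_left (gaussNorm v (1 : ℝ) w.re) (gaussNorm v (1 : ℝ) w.im)
    have a2 := le_max_right (gaussNorm v (1 : ℝ) w.re) (gaussNorm v (1 : ℝ) w.im)
    have h1 : v (w.re.eval x) ^ 2 ≤ max (gaussNorm v (1 : ℝ) w.re) (gaussNorm v (1 : ℝ) w.im) ^ 2 * m ^ w.norm.natDegree := by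
      calc v (w.re.eval x) ^ 2 ≤ (gaussNorm v (1 : ℝ) w.re * m ^ w.re.natDegree) ^ 2 := by
            gcongr
            rw [hm']
            exact v_eval_le hna _ _
        _ = gaussNorm v (1 : ℝ) w.re ^ 2 * m ^ (2 * w.re.natDegree) := by rw [mul_pow, ← pow_mul, mul_comm 2]
        _ ≤ _ := by gcongr
    have h2 : v (w.im.eval x * y) ^ 2 ≤ max (gaussNorm v (1 : ℝ) w.re) (gaussNorm v (1 : ℝ) w.im) ^ 2 * m ^ w.norm.natDegree := by
      by_cases hi : w.im = 0
      · rw [hi, eval_zero, zero_mul, map_zero, zero_pow two_ne_zero]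
        positivity
      have hy : v y ^ 2 ≤ m ^ f.natDegree := by
        rw [← map_pow, h, hm']
        refine (v_eval_le hna _ _).trans ?_
        have hGf : gaussNorm v (1 : ℝ) f ≤ 1 := G_le zero_le_one hf
        calc gaussNorm v (1 : ℝ) f * max 1 (v x) ^ f.natDegree ≤ 1 * max 1 (v x) ^ f.natDegree := by gcongr
          _ = _ := one_mul _
      calc v (w.im.eval x * y) ^ 2 = v (w.im.eval x) ^ 2 * v y ^ 2 := by rw [map_mul, mul_pow]
        _ ≤ (gaussNorm v (1 : ℝ) w.im * m ^ w.im.natDegree) ^ 2 * m ^ f.natDegree := by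
            gcongr
            rw [hm']
            exact v_eval_le hna _ _
        _ = gaussNorm v (1 : ℝ) w.im ^ 2 * m ^ (2 * w.im.natDegree + f.natDegree) := by
            rw [mul_pow, ← pow_mul, mul_comm _ 2, pow_add]; ring
        _ ≤ _ := by
            have := d2 hi
            gcongr
    have h3 := hna (w.re.eval x) (w.im.eval x * y)
    rcases le_max_iff.1 h3 with h4 | h4
    · refine le_trans ?_ h1
      gcongr
    · refine le_trans ?_ h2
      gcongr
  ν_y a b i := by
    rw [one_mul]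
    apply max_le_max
    · show gaussNorm v (1 : ℝ) (C a * X ^ i) ≤ _
      apply G_le (v.nonneg _)
      intro j
      rw [coeff_C_mul, coeff_X_pow, map_mul]
      split_ifs
      · simp
      · simp
    · show gaussNorm v (1 : ℝ) (C b) ≤ _
      rw [gaussNorm_C]
  bc z _ := by
    rw [one_pow, one_mul]
    exact bc_na hna hf z
  f_le x := by
    rw [one_mul, ← hd]
    refine (v_eval_le hna _ _).trans ?_
    have hGf : gaussNorm v (1 : ℝ) f ≤ 1 := G_le zero_le_one hf
    calc gaussNorm v (1 : ℝ) f * max 1 (v x) ^ f.natDegree ≤ 1 * max 1 (v x) ^ f.natDegree := by gcongr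
      _ = _ := one_mul _
  h1 x hx := by
    have h := congrArg (fun p => p.eval x) hAB
    simp only [eval_add, eval_mul, eval_C] at h
    have e : ∀ p : k[X], (∀ i, v (p.coeff i) ≤ 1) → v (p.eval x) ≤ 1 := by
      intro p hp
      refine (v_eval_le hna p x).trans ?_
      rw [max_eq_left hx, one_pow, mul_one]
      exact G_le zero_le_one hp
    rw [one_mul, ← h]
    refine (hna _ _).trans (max_le_max ?_ ?_)
    · rw [map_mul]
      exact mul_le_of_le_one_left (v.nonneg _) (e A hA)
    · rw [map_mul]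
      exact mul_le_of_le_one_left (v.nonneg _) (e B hB)
  h2 x hx := by
    have hmon : f.coeff (2 * g + 1) = 1 := by
      rw [← hd]; exact hfo.monic.coeff_natDegree
    -- `2 g f - x f'` is `- x ^ (2 g + 1)` plus smaller terms
    have e1 : 2 * g * f.eval x - x * f.derivative.eval x =
        (∑ i ∈ Finset.range (2 * g + 1), ((2 * g : ℕ) - (i : ℕ) : k) * f.coeff i * x ^ i) -
          x ^ (2 * g + 1) := by
      have h1 : (C ((2 * g : ℕ) : k) * f - X * f.derivative).eval x =
          2 * g * f.eval x - x * f.derivative.eval x := by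
        simp
      rw [← h1, eval_eq_sum_range' (n := 2 * g + 2), Finset.sum_range_succ]
      · have h2 : ∀ i, (C ((2 * g : ℕ) : k) * f - X * f.derivative).coeff i =
            ((2 * g : ℕ) - (i : ℕ) : k) * f.coeff i := by
          intro i
          rw [coeff_sub, coeff_C_mul]
          cases i with
          | zero => simp
          | succ i =>
            rw [coeff_X_mul, coeff_derivative]
            push_cast
            ring
        rw [h2, hmon]
        simp only [h2]
        push_cast
        ring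
      · refine lt_of_le_of_lt (natDegree_sub_le _ _) (max_lt ?_ ?_)
        · refine (natDegree_C_mul_le _ _).trans_lt ?_
          omega
        · refine (natDegree_mul_le).trans_lt ?_
          have := natDegree_derivative_le f
          rw [natDegree_X]
          omega
    have hx0 : 0 < v x := by linarith
    have h2 : v (∑ i ∈ Finset.range (2 * g + 1), ((2 * g : ℕ) - (i : ℕ) : k) * f.coeff i * x ^ i)
        ≤ v x ^ (2 * g) := by
      have : ∀ (s : Finset ℕ), (∀ i ∈ s, i ≤ 2 * g) →
          v (∑ i ∈ s, ((2 * g : ℕ) - (i : ℕ) : k) * f.coeff i * x ^ i) ≤ v x ^ (2 * g) := by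
        intro s
        classical
        induction s using Finset.induction_on with
        | empty =>
          intro _
          simp only [Finset.sum_empty, map_zero]
          positivity
        | insert a s ha ih =>
          intro h
          rw [Finset.sum_insert ha]
          refine (hna _ _).trans (max_le ?_ (ih fun x hx => h x (Finset.mem_insert_of_mem hx)))
          rw [map_mul, map_mul, map_pow]
          have h3 : v (((2 * g : ℕ) : k) - (a : ℕ)) ≤ 1 := by
            rw [sub_eq_add_neg]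
            refine (hna _ _).trans (max_le (v_nat_le hna _) ?_)
            rw [map_neg_eq_map]
            exact v_nat_le hna _
          calc v (((2 * g : ℕ) : k) - (a : ℕ)) * v (f.coeff a) * v x ^ a
              ≤ 1 * 1 * v x ^ (2 * g) := by
                gcongr
                · exact hf a
                · exact hx.le
                · exact h a (Finset.mem_insert_self _ _)
            _ = _ := by ring
      exact this _ fun i hi => by rw [Finset.mem_range] at hi; omega
    have h3 : v (∑ i ∈ Finset.range (2 * g + 1), ((2 * g : ℕ) - (i : ℕ) : k) * f.coeff i * x ^ i)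
        < v (x ^ (2 * g + 1)) := by
      refine h2.trans_lt ?_
      rw [map_pow]
      exact pow_lt_pow_right₀ hx (by omega)
    have h4 := (sub_ge hna h3).1
    rw [one_mul, e1]
    rwa [map_pow] at h4
  Δ_le := hΔ

end

end Pool.Agent.KS6_58
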