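import Pool.Agent.KS6_58.LOne
import Pool.Agent.KS6_58.Na

/-!
# The coefficients of a function on `y² = f(x)` are bounded by those of its norm (complex numbers)
-/

set_option autoImplicit false

namespace Pool.Agent.KS6_58

open Polynomial Pool.Agent.Y723.HJ

lemma expand_comp_neg (a : ℂ[X]) : (expand ℂ 2 a).comp (-X) = expand ℂ 2 a := by
  rw [expand_eq_comp_X_pow, comp_assoc]
  congr 1
  rw [pow_comp, X_comp]
  ring

/-- small lower coefficients -/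
theorem bc_small {f : ℂ[X]} {n k D : ℕ} (hf : f.Monic) (hn : f.natDegree = n) (hodd : Odd n)
    (hc : ∀ j, 1 ≤ j → j ≤ n → ‖f.coeff (n - j)‖ ≤ (1 / 4 ^ 6) ^ j) (hk : n ≤ k) (hD : D ≤ k)
    (a b : ℂ[X]) (ha : 2 * a.natDegree ≤ D) (hb : b ≠ 0 → 2 * b.natDegree + n ≤ D) :
    L1 a ^ 2 ≤ 8 * 64 ^ k * L1 (a ^ 2 - f * b ^ 2) ∧
      L1 b ^ 2 ≤ 8 * 64 ^ k * L1 (a ^ 2 - f * b ^ 2) := by
  obtain ⟨T, E, hT, hTE, hE, hTX⟩ := exists_sqrt hf hn hc hk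
  obtain ⟨K, hK⟩ : ∃ K, K = 2 * k - n := ⟨_, rfl⟩
  have hKodd : Odd K := by
    obtain ⟨m, hm⟩ := hodd
    exact ⟨k - m - 1, by omega⟩
  rw [← hK] at hTE
  obtain ⟨A, hA⟩ : ∃ A : ℂ[X], A = X ^ K * expand ℂ 2 a := ⟨_, rfl⟩
  obtain ⟨B, hB⟩ : ∃ B : ℂ[X], B = expand ℂ 2 (b * T) := ⟨_, rfl⟩
  have hAd : A.natDegree ≤ 3 * k := by
    rw [hA]
    refine natDegree_mul_le.trans ?_
    rw [natDegree_expand, natDegree_X_pow]
    omega
  have hBd : B.natDegree ≤ 3 * k := by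
    by_cases h : b = 0
    · rw [hB, h]; simp
    · have h1 := hb h
      rw [hB, natDegree_expand]
      have h2 : (b * T).natDegree ≤ b.natDegree + T.natDegree := natDegree_mul_le
      omega
  have hAc : A.comp (-X) = -A := by
    rw [hA, mul_comp, expand_comp_neg, pow_comp, X_comp, hKodd.neg_pow]
    ring
  have hBc : B.comp (-X) = B := by rw [hB, expand_comp_neg]
  obtain ⟨M, hM⟩ : ∃ M, M = (A + B).mahlerMeasure := ⟨_, rfl⟩
  have hM0 : 0 ≤ M := by rw [hM]; exact mahlerMeasure_nonneg _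
  have hM2 : (A - B).mahlerMeasure = M := by
    have e1 : A - B = -((A + B).comp (-X)) := by rw [add_comp, hAc, hBc]; ring
    rw [e1, mahler_neg, mahler_comp_neg, hM]
  have h1 : L1 (A + B) ≤ 8 ^ k * M := by
    have := L1_le_mahler (A + B) (d := 3 * k) ((natDegree_add_le _ _).trans (max_le hAd hBd))
    rw [← hM, pow_mul] at this
    norm_num at this
    exact this
  have h2 : L1 (A - B) ≤ 8 ^ k * M := by
    have := L1_le_mahler (A - B) (d := 3 * k) ((natDegree_sub_le _ _).trans (max_le hAd hBd))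
    rw [hM2, pow_mul] at this
    norm_num at this
    exact this
  have h3 : L1 a ≤ 8 ^ k * M := by
    have e1 : L1 A = L1 a := by rw [hA, L1_X_pow_mul, L1_expand]
    have e2 : C 2 * A = (A + B) + (A - B) := by rw [map_ofNat]; ring
    have e3 := L1_add_le (A + B) (A - B)
    rw [← e2, L1_C_mul, e1] at e3
    norm_num at e3
    linarith
  have h4 : L1 (b * T) ≤ 8 ^ k * M := by
    have e1 : L1 B = L1 (b * T) := by rw [hB, L1_expand]
    have e2 : C 2 * B = (A + B) - (A - B) := by rw [map_ofNat]; ring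
    have e3 := L1_sub_le (A + B) (A - B)
    rw [← e2, L1_C_mul, e1] at e3
    norm_num at e3
    linarith
  have h5 : L1 b ≤ 2 * (8 ^ k * M) := by
    have e1 : X ^ k * b = b * T - b * (T - X ^ k) := by ring
    have e2 := L1_sub_le (b * T) (b * (T - X ^ k))
    rw [← e1, L1_X_pow_mul] at e2
    have e3 := L1_mul_le b (T - X ^ k)
    have e4 : L1 b * L1 (T - X ^ k) ≤ L1 b * (1 / 2) :=
      mul_le_mul_of_nonneg_left hTX (L1_nonneg b)
    linarith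
  obtain ⟨N1, hN1⟩ : ∃ N1, N1 = L1 (a ^ 2 - f * b ^ 2) := ⟨_, rfl⟩
  have hN0 : 0 ≤ N1 := by rw [hN1]; exact L1_nonneg _
  have h6 : M ^ 2 ≤ N1 + L1 b ^ 2 * L1 E := by
    have e1 : (A + B) * (A - B) = expand ℂ 2 (X ^ K * (a ^ 2 - f * b ^ 2) + b ^ 2 * E) := by
      have e2 : X ^ K * (a ^ 2 - f * b ^ 2) + b ^ 2 * E = X ^ K * a ^ 2 - (b * T) ^ 2 := by
        have : X ^ K * (a ^ 2 - f * b ^ 2) = X ^ K * a ^ 2 - (X ^ K * f) * b ^ 2 := by ring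
        rw [this, hTE]
        ring
      rw [e2, map_sub, map_mul, map_pow, map_pow, map_pow, expand_X, hA, hB, ← pow_mul]
      ring
    have e2 : M ^ 2 = ((A + B) * (A - B)).mahlerMeasure := by
      rw [mahlerMeasure_mul, hM2, ← hM, pow_two]
    rw [e2]
    refine (mahler_le_L1 _).trans ?_
    rw [e1, L1_expand]
    refine (L1_add_le _ _).trans ?_
    rw [L1_X_pow_mul, ← hN1]
    have e3 : L1 (b ^ 2 * E) ≤ L1 b ^ 2 * L1 E := by
      refine (L1_mul_le _ _).trans ?_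
      rw [pow_two b, pow_two (L1 b)]
      exact mul_le_mul_of_nonneg_right (L1_mul_le b b) (L1_nonneg E)
    linarith
  have h7 : 64 ^ k * L1 E ≤ 1 / 8 := by
    calc (64 : ℝ) ^ k * L1 E ≤ 64 ^ k * (2 ^ k * (1 / 2 ^ 9) ^ (k + 1)) := by gcongr
      _ = (64 * 2 * (1 / 2 ^ 9)) ^ k * (1 / 2 ^ 9) := by
          rw [pow_succ, mul_pow, mul_pow]; ring
      _ ≤ 1 ^ k * (1 / 2 ^ 9) := by
          gcongr
          norm_num
      _ ≤ _ := by rw [one_pow]; norm_num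
  have h8 : (64 : ℝ) ^ k = (8 ^ k) ^ 2 := by rw [← pow_mul, mul_comm, pow_mul]; norm_num
  have hb2 : L1 b ^ 2 ≤ 8 * 64 ^ k * N1 := by
    have e1 : L1 b ^ 2 ≤ (2 * (8 ^ k * M)) ^ 2 := by
      have := L1_nonneg b
      gcongr
    have e2 : (2 * (8 ^ k * M)) ^ 2 = 4 * (64 ^ k * M ^ 2) := by rw [h8]; ring
    have e3 : 64 ^ k * M ^ 2 ≤ 64 ^ k * (N1 + L1 b ^ 2 * L1 E) := by gcongr
    have e4 : L1 b ^ 2 * (64 ^ k * L1 E) ≤ L1 b ^ 2 * (1 / 8) := by gcongr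
    nlinarith
  refine ⟨?_, by rw [← hN1]; exact hb2⟩
  rw [← hN1]
  have e1 : L1 a ^ 2 ≤ (8 ^ k * M) ^ 2 := by
    have := L1_nonneg a
    gcongr
  have e2 : (8 ^ k * M) ^ 2 = 64 ^ k * M ^ 2 := by rw [h8]; ring
  have e3 : 64 ^ k * M ^ 2 ≤ 64 ^ k * (N1 + L1 b ^ 2 * L1 E) := by gcongr
  have e4 : L1 b ^ 2 * (64 ^ k * L1 E) ≤ L1 b ^ 2 * (1 / 8) := by gcongr
  have e5 : 0 ≤ 64 ^ k * N1 := by positivity
  nlinarith

lemma L1_comp_le (p : ℂ[X]) {S : ℝ} (hS : 1 ≤ S) :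
    L1 p ≤ L1 (p.comp (C (S : ℂ) * X)) ∧ L1 (p.comp (C (S : ℂ) * X)) ≤ S ^ p.natDegree * L1 p := by
  have hd : (p.comp (C (S : ℂ) * X)).natDegree < p.natDegree + 1 := by
    refine Nat.lt_succ_of_le (natDegree_comp_le.trans ?_)
    have : (C (S : ℂ) * X : ℂ[X]).natDegree ≤ 1 := (natDegree_C_mul_le _ _).trans natDegree_X.le
    nlinarith
  rw [L1_range hd, L1_range (p := p) (Nat.lt_succ_self _), Finset.mul_sum]
  constructor
  · apply Finset.sum_le_sum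
    intro i _
    rw [comp_C_mul_X_coeff, norm_mul, norm_pow, Complex.norm_real, Real.norm_of_nonneg (by linarith)]
    exact le_mul_of_one_le_right (norm_nonneg _) (one_le_pow₀ hS)
  · apply Finset.sum_le_sum
    intro i hi
    rw [Finset.mem_range] at hi
    rw [comp_C_mul_X_coeff, norm_mul, norm_pow, Complex.norm_real,
      Real.norm_of_nonneg (by linarith), mul_comm]
    have : S ^ i ≤ S ^ p.natDegree := pow_le_pow_right₀ hS (by omega)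
    gcongr

/-- the coefficients are bounded by those of the norm -/
theorem bc_gen {f : ℂ[X]} {n D : ℕ} {R : ℝ} (hf : f.Monic) (hn : f.natDegree = n)
    (hodd : Odd n) (hR : 1 ≤ R) (hfR : L1 f ≤ R)
    (a b : ℂ[X]) (ha : 2 * a.natDegree ≤ D) (hb : b ≠ 0 → 2 * b.natDegree + n ≤ D)
    (hND : (a ^ 2 - f * b ^ 2).natDegree ≤ D) :
    (L1 a + L1 b) ^ 2 ≤ 32 * 64 ^ (n + D) * (4 ^ 6 * R) ^ D * L1 (a ^ 2 - f * b ^ 2) := by
  obtain ⟨S, hS⟩ : ∃ S : ℝ, S = 4 ^ 6 * R := ⟨_, rfl⟩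
  have hS1 : 1 ≤ S := by rw [hS]; nlinarith
  have hS0 : 0 < S := by linarith
  have hSC : (S : ℂ) ≠ 0 := by exact_mod_cast hS0.ne'
  obtain ⟨l, hl⟩ : ∃ l : ℝ, l = Real.sqrt S := ⟨_, rfl⟩
  have hl2 : l ^ 2 = S := by rw [hl]; exact Real.sq_sqrt hS0.le
  have hl1 : 1 ≤ l := by rw [hl]; exact Real.one_le_sqrt.2 hS1
  obtain ⟨a', ha'⟩ : ∃ a' : ℂ[X], a' = a.comp (C (S : ℂ) * X) := ⟨_, rfl⟩
  obtain ⟨b', hb'⟩ : ∃ b' : ℂ[X], b' = C ((l : ℂ) ^ n) * b.comp (C (S : ℂ) * X) := ⟨_, rfl⟩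
  obtain ⟨f', hf'⟩ : ∃ f' : ℂ[X], f' = C (((S : ℂ) ^ n)⁻¹) * f.comp (C (S : ℂ) * X) := ⟨_, rfl⟩
  have hdeg : ∀ p : ℂ[X], (p.comp (C (S : ℂ) * X)).natDegree = p.natDegree := by
    intro p
    rw [natDegree_comp, natDegree_C_mul_X _ hSC, mul_one]
  have hSn : ((S : ℂ) ^ n)⁻¹ ≠ 0 := inv_ne_zero (pow_ne_zero _ hSC)
  have hf'd : f'.natDegree = n := by rw [hf', natDegree_C_mul hSn, hdeg, hn]
  have hf'c : ∀ i, f'.coeff i = ((S : ℂ) ^ n)⁻¹ * (f.coeff i * (S : ℂ) ^ i) := by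
    intro i
    rw [hf', coeff_C_mul, comp_C_mul_X_coeff]
  have hf'm : f'.Monic := by
    rw [Monic, leadingCoeff, hf'd, hf'c, ← hn, hf.coeff_natDegree, one_mul,
      inv_mul_cancel₀ (pow_ne_zero _ hSC)]
  have hln : ((l : ℂ) ^ n) ≠ 0 := by
    apply pow_ne_zero
    have : l ≠ 0 := by linarith
    exact_mod_cast this
  have hN : a' ^ 2 - f' * b' ^ 2 = (a ^ 2 - f * b ^ 2).comp (C (S : ℂ) * X) := by
    have e1 : (C (((S : ℂ) ^ n)⁻¹) * C ((l : ℂ) ^ n) ^ 2 : ℂ[X]) = 1 := by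
      rw [← C_pow, ← C_mul, ← pow_mul, mul_comm n 2, pow_mul]
      have : (l : ℂ) ^ 2 = S := by exact_mod_cast hl2
      rw [this, inv_mul_cancel₀ (pow_ne_zero _ hSC), C_1]
    rw [ha', hb', hf', sub_comp, mul_comp, pow_comp, pow_comp]
    linear_combination (-(f.comp (C (S : ℂ) * X) * b.comp (C (S : ℂ) * X) ^ 2)) * e1
  have hc : ∀ j, 1 ≤ j → j ≤ n → ‖f'.coeff (n - j)‖ ≤ (1 / 4 ^ 6) ^ j := by
    intro j hj1 hj2
    rw [hf'c, norm_mul, norm_mul, norm_inv, norm_pow, norm_pow, Complex.norm_real,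
      Real.norm_of_nonneg hS0.le]
    have e1 : S ^ n = S ^ (n - j) * S ^ j := by rw [← pow_add]; congr 1; omega
    have e2 : (S ^ n)⁻¹ * (‖f.coeff (n - j)‖ * S ^ (n - j)) = ‖f.coeff (n - j)‖ / S ^ j := by
      rw [e1]
      field_simp
    rw [e2, div_le_iff₀ (by positivity), hS, mul_pow, ← mul_assoc, ← mul_pow]
    norm_num
    calc ‖f.coeff (n - j)‖ ≤ R := (coeff_le_L1 f _).trans hfR
      _ = R ^ 1 := (pow_one R).symm
      _ ≤ R ^ j := pow_le_pow_right₀ hR hj1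
  obtain ⟨h1, h2⟩ := bc_small (n := n) (D := D) (k := n + D) hf'm hf'd hodd hc
    (Nat.le_add_right n D) (Nat.le_add_left D n) a' b'
    (by rw [ha', hdeg]; exact ha) (by
      intro h
      have hb0 : b ≠ 0 := by
        rintro rfl
        rw [zero_comp, mul_zero] at hb'
        exact h hb'
      rw [hb', natDegree_C_mul hln, hdeg]
      exact hb hb0)
  rw [hN] at h1 h2
  have h3 : L1 a ≤ L1 a' := by rw [ha']; exact (L1_comp_le a hS1).1
  have h4 : L1 b ≤ L1 b' := by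
    rw [hb', L1_C_mul, norm_pow, Complex.norm_real, Real.norm_of_nonneg (by linarith)]
    have e1 := (L1_comp_le b hS1).1
    have e2 : (1 : ℝ) ≤ l ^ n := one_le_pow₀ hl1
    have e3 := L1_nonneg (b.comp (C (S : ℂ) * X))
    nlinarith
  have h5 : L1 ((a ^ 2 - f * b ^ 2).comp (C (S : ℂ) * X)) ≤ S ^ D * L1 (a ^ 2 - f * b ^ 2) := by
    refine (L1_comp_le _ hS1).2.trans ?_
    have := L1_nonneg (a ^ 2 - f * b ^ 2)
    have : S ^ (a ^ 2 - f * b ^ 2).natDegree ≤ S ^ D := pow_le_pow_right₀ hS1 hND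
    gcongr
  have ha0 := L1_nonneg a
  have hb0 := L1_nonneg b
  have h6 : (L1 a + L1 b) ^ 2 ≤ 2 * (L1 a' ^ 2 + L1 b' ^ 2) := by
    have e1 : L1 a ^ 2 ≤ L1 a' ^ 2 := by gcongr
    have e2 : L1 b ^ 2 ≤ L1 b' ^ 2 := by gcongr
    nlinarith [sq_nonneg (L1 a - L1 b)]
  have h7 : 8 * 64 ^ (n + D) * L1 ((a ^ 2 - f * b ^ 2).comp (C (S : ℂ) * X)) ≤
      8 * 64 ^ (n + D) * (S ^ D * L1 (a ^ 2 - f * b ^ 2)) := by gcongr
  rw [← hS]
  nlinarith

end Pool.Agent.KS6_58
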