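import Mathlib

/-!
# Local dynamics of `x ^ (n + 1) + c` at the nonarchimedean places
-/

set_option autoImplicit false

namespace Pool.Agent.KS6_58

open Function

/-- the unicritical polynomial map -/
def fc {K : Type} [Field K] (d : ℕ) (c : K) : K → K := fun x => x ^ d + c

/-- preperiodic points -/
def PreP {α : Type} (f : α → α) (x : α) : Prop := ∃ m n : ℕ, m < n ∧ f^[m] x = f^[n] x

section gen

variable {α : Type} {f : α → α}

lemma PreP.map {x : α} (h : PreP f x) : PreP f (f x) := by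
  obtain ⟨m, n, hmn, h⟩ := h
  refine ⟨m, n, hmn, ?_⟩
  rw [← iterate_succ_apply, ← iterate_succ_apply, iterate_succ_apply', iterate_succ_apply', h]

lemma PreP.iter {x : α} (h : PreP f x) (k : ℕ) : PreP f (f^[k] x) := by
  induction k with
  | zero => exact h
  | succ k ih => rw [iterate_succ_apply']; exact ih.map

lemma PreP.of_map {x : α} (h : PreP f (f x)) : PreP f x := by
  obtain ⟨m, n, hmn, h⟩ := h
  exact ⟨m + 1, n + 1, by omega, by rw [iterate_succ_apply, iterate_succ_apply, h]⟩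

lemma PreP.of_eq {x y : α} (h : PreP f x) (hxy : f x = f y) : PreP f y :=
  PreP.of_map (hxy ▸ h.map)

lemma PreP.of_per {x : α} (h : x ∈ periodicPts f) : PreP f x := by
  obtain ⟨n, hn, h⟩ := h
  exact ⟨0, n, hn, h.symm⟩

lemma per_iter {x : α} (h : x ∈ periodicPts f) (k : ℕ) : f^[k] x ∈ periodicPts f := by
  obtain ⟨n, hn, h⟩ := h
  exact ⟨n, hn, h.apply_iterate k⟩

lemma per_map {x : α} (h : x ∈ periodicPts f) : f x ∈ periodicPts f := per_iter h 1

/-- some iterate is periodic -/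
lemma PreP.exists_per {x : α} (h : PreP f x) : ∃ k, f^[k] x ∈ periodicPts f := by
  obtain ⟨m, n, hmn, h⟩ := h
  refine ⟨m, n - m, by omega, ?_⟩
  show f^[n - m] (f^[m] x) = f^[m] x
  rw [← iterate_add_apply, Nat.sub_add_cancel hmn.le, h]

/-- escape -/
lemma not_pre (A : Set α) (φ : α → ℝ) (h : ∀ y ∈ A, f y ∈ A ∧ φ y < φ (f y)) {y : α} (hy : y ∈ A) :
    ¬ PreP f y := by
  rintro ⟨m, n, hmn, he⟩
  have h1 : ∀ k, f^[k] y ∈ A := by
    intro k
    induction k with
    | zero => exact hy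
    | succ k ih => rw [iterate_succ_apply']; exact (h _ ih).1
  have h2 : StrictMono fun k => φ (f^[k] y) := by
    apply strictMono_nat_of_lt_succ
    intro k
    rw [iterate_succ_apply']
    exact (h _ (h1 k)).2
  have := h2 hmn
  simp only at this
  rw [he] at this
  exact lt_irrefl _ this

end gen

section fac

variable {K : Type} [Field K] {n : ℕ} {ζ : K}

lemma fac (hζ : IsPrimitiveRoot ζ (n + 1)) (x y : K) :
    x ^ (n + 1) - y ^ (n + 1) = (x - y) * ∏ k ∈ Finset.range n, (x - ζ ^ (k + 1) * y) := by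
  have h := X_pow_sub_C_eq_prod hζ n.zero_lt_succ (rfl : y ^ (n + 1) = y ^ (n + 1))
  have h1 := congrArg (Polynomial.eval x) h
  rw [Finset.prod_range_succ', Polynomial.eval_mul, Polynomial.eval_prod] at h1
  simp only [Polynomial.eval_sub, Polynomial.eval_pow, Polynomial.eval_X, Polynomial.eval_C,
    pow_zero, one_mul] at h1
  rw [h1, mul_comm]

lemma root_pow (hζ : IsPrimitiveRoot ζ (n + 1)) {η : K} (h : η ^ (n + 1) = 1) (h1 : η ≠ 1) :
    ∃ k < n, η = ζ ^ (k + 1) := by
  obtain ⟨i, hi, rfl⟩ := hζ.eq_pow_of_pow_eq_one h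
  rcases i with _ | k
  · exact absurd (pow_zero ζ) h1
  · exact ⟨k, by omega, rfl⟩

lemma pow_root (hζ : IsPrimitiveRoot ζ (n + 1)) (k : ℕ) : (ζ ^ k) ^ (n + 1) = 1 := by
  rw [← pow_mul, mul_comm, pow_mul, hζ.pow_eq_one, one_pow]

lemma pow_ne (hζ : IsPrimitiveRoot ζ (n + 1)) {k : ℕ} (hk : k < n) : ζ ^ (k + 1) ≠ 1 :=
  hζ.pow_ne_one_of_pos_of_lt (by omega) (by omega)

end fac

section na

variable {K : Type} [Field K] {v : AbsoluteValue K ℝ} {n : ℕ} {ζ : K} {c : K}

lemma v_root {η : K} (h : η ^ (n + 1) = 1) : v η = 1 := by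
  have h1 := congrArg v h
  rw [map_pow, map_one] at h1
  exact (pow_eq_one_iff_of_nonneg (v.nonneg _) (by omega)).1 h1

lemma na_sub (hna : IsNonarchimedean v) (x y : K) : v (x - y) ≤ max (v x) (v y) := by
  rw [sub_eq_add_neg]
  refine (hna _ _).trans ?_
  rw [v.map_neg]

lemma na_add_eq (hna : IsNonarchimedean v) {x y : K} (h : v y < v x) : v (x + y) = v x := by
  apply le_antisymm
  · exact (hna _ _).trans (max_le le_rfl h.le)
  · have h1 := na_sub hna (x + y) y
    rw [add_sub_cancel_right] at h1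
    rcases le_max_iff.1 h1 with h2 | h2
    · exact h2
    · exact absurd h2 (not_le.2 h)

lemma na_sub_eq (hna : IsNonarchimedean v) {x y : K} (h : v y < v x) : v (x - y) = v x := by
  rw [sub_eq_add_neg]
  exact na_add_eq hna (by rwa [v.map_neg])

/-- a product of reals in `[0,1]` which is at least one -/
lemma fac_one {ι : Type} (s : Finset ι) (a : ι → ℝ) (h0 : ∀ i ∈ s, 0 ≤ a i)
    (h1 : ∀ i ∈ s, a i ≤ 1) (h : 1 ≤ ∏ i ∈ s, a i) {i : ι} (hi : i ∈ s) : a i = 1 := by
  classical
  rw [← Finset.mul_prod_erase s a hi] at h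
  have h2 : ∏ j ∈ s.erase i, a j ≤ 1 := Finset.prod_le_one
    (fun j hj => h0 j (Finset.mem_of_mem_erase hj)) (fun j hj => h1 j (Finset.mem_of_mem_erase hj))
  have h3 : a i * ∏ j ∈ s.erase i, a j ≤ a i := mul_le_of_le_one_right (h0 i hi) h2
  exact le_antisymm (h1 i hi) (h.trans h3)

/-- away from `n + 1` the roots of unity are distinct modulo `v` -/
lemma v_one_sub (hna : IsNonarchimedean v) (hζ : IsPrimitiveRoot ζ (n + 1))
    (hv : v ((n : K) + 1) = 1) {η : K} (h : η ^ (n + 1) = 1) (h1 : η ≠ 1) : v (1 - η) = 1 := by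
  obtain ⟨k, hk, rfl⟩ := root_pow hζ h h1
  have h2 := congrArg v hζ.prod_one_sub_pow_eq_order
  rw [hv, map_prod] at h2
  refine fac_one _ (fun k => v (1 - ζ ^ (k + 1))) (fun i _ => v.nonneg _) (fun i _ => ?_) h2.ge
    (Finset.mem_range.2 hk)
  refine (na_sub hna _ _).trans ?_
  rw [map_one, v_root (pow_root hζ _), max_self]

/-- good places -/
lemma pre_good (hna : IsNonarchimedean v) (hn : 1 ≤ n) (hc : v c ≤ 1) {x : K}
    (hx : PreP (fc (n + 1) c) x) : v x ≤ 1 := by
  by_contra hlt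
  push Not at hlt
  refine not_pre {y | 1 < v y} (fun y => v y) ?_ hlt hx
  intro y (hy : 1 < v y)
  have h1 : v y < v y ^ (n + 1) := by
    conv_lhs => rw [← pow_one (v y)]
    exact pow_lt_pow_right₀ hy (by omega)
  have h2 : v (fc (n + 1) c y) = v y ^ (n + 1) := by
    unfold fc
    rw [na_add_eq hna, map_pow]
    rw [map_pow]
    exact hc.trans_lt (hy.trans h1)
  simp only [Set.mem_ofPred_eq, h2]
  exact ⟨hy.trans h1, h1⟩

/-- bad places -/
lemma pre_bad (hna : IsNonarchimedean v) (hn : 1 ≤ n) (hc : 1 < v c) {x : K}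
    (hx : PreP (fc (n + 1) c) x) : v x ^ (n + 1) = v c := by
  have hesc : ∀ y, v c < v y ^ (n + 1) → ¬ PreP (fc (n + 1) c) y := by
    intro y hy
    refine not_pre {y | v c < v y ^ (n + 1)} (fun y => v y) ?_ hy
    intro y (hy : v c < v y ^ (n + 1))
    have h0 : 1 < v y := by
      by_contra h
      push Not at h
      have := pow_le_one₀ (v.nonneg y) h (n := n + 1)
      linarith
    have h1 : v y < v y ^ (n + 1) := by
      conv_lhs => rw [← pow_one (v y)]
      exact pow_lt_pow_right₀ h0 (by omega)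
    have h2 : v (fc (n + 1) c y) = v y ^ (n + 1) := by
      unfold fc
      rw [na_add_eq hna, map_pow]
      rw [map_pow]
      exact hy
    simp only [Set.mem_ofPred_eq, h2]
    refine ⟨hy.trans ?_, h1⟩
    exact pow_lt_pow_left₀ h1 (v.nonneg _) (by omega)
  rcases lt_trichotomy (v x ^ (n + 1)) (v c) with h | h | h
  · exfalso
    refine hesc _ ?_ hx.map
    have h2 : v (fc (n + 1) c x) = v c := by
      unfold fc
      rw [add_comm, na_add_eq hna]
      rw [map_pow]
      exact h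
    rw [h2]
    conv_lhs => rw [← pow_one (v c)]
    exact pow_lt_pow_right₀ hc (by omega)
  · exact h
  · exact absurd hx (hesc _ h)

lemma bad_gt {x : K} (hc : 1 < v c) (h : v x ^ (n + 1) = v c) : 1 < v x := by
  by_contra h1
  push Not at h1
  have := pow_le_one₀ (v.nonneg x) h1 (n := n + 1)
  linarith

lemma bad_eq {x y : K} (h : v x ^ (n + 1) = v c) (h' : v y ^ (n + 1) = v c) : v x = v y :=
  (pow_left_inj₀ (v.nonneg _) (v.nonneg _) (Nat.succ_ne_zero n)).1 (h.trans h'.symm)

/-- one step -/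
lemma bad_step (hna : IsNonarchimedean v) (hζ : IsPrimitiveRoot ζ (n + 1))
    (hv : v ((n : K) + 1) = 1) (hn : 1 ≤ n) (hc : 1 < v c) {x y : K}
    (hx : PreP (fc (n + 1) c) x) (hy : PreP (fc (n + 1) c) y) (h : v (x - y) < v x) :
    v (fc (n + 1) c x - fc (n + 1) c y) = v (x - y) * v x ^ n := by
  have e : fc (n + 1) c x - fc (n + 1) c y = x ^ (n + 1) - y ^ (n + 1) := by unfold fc; ring
  have hxy : v x = v y := bad_eq (pre_bad hna hn hc hx) (pre_bad hna hn hc hy)
  rw [e, fac hζ, map_mul, map_prod]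
  congr 1
  rw [Finset.prod_congr rfl (g := fun _ => v x), Finset.prod_const, Finset.card_range]
  intro k hk
  rw [Finset.mem_range] at hk
  have h1 : v ((1 - ζ ^ (k + 1)) * y) = v x := by
    rw [map_mul, v_one_sub hna hζ hv (pow_root hζ _) (pow_ne hζ hk), one_mul, hxy]
  have e2 : x - ζ ^ (k + 1) * y = (1 - ζ ^ (k + 1)) * y + (x - y) := by ring
  rw [e2, na_add_eq hna, h1]
  rwa [h1]

/-- **distances of preperiodic points at the bad places** -/
lemma bad_dist (hna : IsNonarchimedean v) (hζ : IsPrimitiveRoot ζ (n + 1))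
    (hv : v ((n : K) + 1) = 1) (hn : 1 ≤ n) (hc : 1 < v c) {x y : K}
    (hx : PreP (fc (n + 1) c) x) (hy : PreP (fc (n + 1) c) y) (hne : x ≠ y) :
    ∃ N : ℕ, v (x - y) * (v x ^ N) ^ n = v x := by
  obtain ⟨f, hf⟩ : ∃ f, f = fc (n + 1) c := ⟨_, rfl⟩
  rw [← hf] at hx hy
  have hR : ∀ z, PreP f z → v z = v x := fun z hz => by
    rw [hf] at hz hx
    exact bad_eq (pre_bad hna hn hc hz) (pre_bad hna hn hc hx)
  have hR1 : 1 < v x := by
    rw [hf] at hx
    exact bad_gt hc (pre_bad hna hn hc hx)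
  have h0 : 0 < v (x - y) := v.pos (sub_ne_zero.2 hne)
  have hRn : 1 < v x ^ n := one_lt_pow₀ hR1 (by omega)
  have key : ∀ N : ℕ, (∃ M : ℕ, v (x - y) * (v x ^ M) ^ n = v x) ∨
      (v (f^[N] x - f^[N] y) = v (x - y) * (v x ^ N) ^ n ∧ v (f^[N] x - f^[N] y) < v x) := by
    intro N
    induction N with
    | zero =>
      have h1 : v (x - y) ≤ v x := by
        refine (na_sub hna _ _).trans ?_
        rw [hR y hy, max_self]
      rcases h1.eq_or_lt with h2 | h2
      · left
        exact ⟨0, by simpa using h2⟩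
      · right
        exact ⟨by simp, h2⟩
    | succ N ih =>
      rcases ih with h | ⟨h1, h2⟩
      · exact Or.inl h
      · have hxN := hx.iter N
        have hyN := hy.iter N
        have h3 : v (f (f^[N] x) - f (f^[N] y)) = v (f^[N] x - f^[N] y) * v (f^[N] x) ^ n := by
          have h4 : v (f^[N] x - f^[N] y) < v (f^[N] x) := by rw [hR _ hxN]; exact h2
          rw [hf] at hxN hyN h4 ⊢
          exact bad_step hna hζ hv hn hc hxN hyN h4
        rw [← iterate_succ_apply' f, ← iterate_succ_apply' f, hR _ hxN, h1] at h3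
        have h5 : v (x - y) * (v x ^ N) ^ n * v x ^ n = v (x - y) * (v x ^ (N + 1)) ^ n := by
          rw [pow_succ (v x) N, mul_pow]; ring
        rw [h5] at h3
        have h6 : v (f^[N + 1] x - f^[N + 1] y) ≤ v x := by
          refine (na_sub hna _ _).trans ?_
          rw [hR _ (hx.iter _), hR _ (hy.iter _), max_self]
        rcases h6.eq_or_lt with h7 | h7
        · left
          exact ⟨N + 1, by rw [← h3, h7]⟩
        · right
          exact ⟨h3, h7⟩
  obtain ⟨N, hN⟩ := pow_unbounded_of_one_lt (v x / v (x - y)) hRn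
  rcases key N with h | ⟨h1, h2⟩
  · exact h
  · exfalso
    rw [h1] at h2
    rw [div_lt_iff₀ h0, ← pow_mul, mul_comm n N, pow_mul] at hN
    linarith

/-- ratios at the bad places -/
lemma bad_ratio (hna : IsNonarchimedean v) (hζ : IsPrimitiveRoot ζ (n + 1))
    (hv : v ((n : K) + 1) = 1) (hn : 1 ≤ n) (hc : 1 < v c) {x y : K}
    (hx : PreP (fc (n + 1) c) x) (hy : PreP (fc (n + 1) c) y) {η η' : K} (hη : η ^ (n + 1) = 1)
    (hη' : η' ^ (n + 1) = 1) (hne : x ≠ η * y) (hne' : x ≠ η' * y) :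
    ∃ z : K, z ≠ 0 ∧ v ((x - η * y) / (x - η' * y)) = v (z ^ n) := by
  have hpre : ∀ η : K, η ^ (n + 1) = 1 → PreP (fc (n + 1) c) (η * y) := by
    intro η h
    apply hy.of_eq
    unfold fc
    rw [mul_pow, h, one_mul]
  obtain ⟨N, hN⟩ := bad_dist hna hζ hv hn hc hx (hpre η hη) hne
  obtain ⟨M, hM⟩ := bad_dist hna hζ hv hn hc hx (hpre η' hη') hne'
  have hx1 : 1 < v x := bad_gt hc (pre_bad hna hn hc hx)
  have hx0 : x ≠ 0 := by
    rintro rfl
    rw [map_zero] at hx1
    linarith
  have hvx : 0 < v x := v.pos hx0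
  refine ⟨x ^ M / x ^ N, div_ne_zero (pow_ne_zero _ hx0) (pow_ne_zero _ hx0), ?_⟩
  have h1 : 0 < v (x - η' * y) := v.pos (sub_ne_zero.2 hne')
  have h3 : 0 < (v x ^ N) ^ n := by positivity
  have h4 : 0 < (v x ^ M) ^ n := by positivity
  rw [map_div₀, map_pow, map_div₀, map_pow, map_pow, div_pow, div_eq_div_iff h1.ne' h3.ne', hN,
    mul_comm, hM]

/-- two periodic points at a good place -/
lemma good_per (hna : IsNonarchimedean v) (hζ : IsPrimitiveRoot ζ (n + 1)) (hn : 1 ≤ n)
    (hc : v c ≤ 1) {x y : K} (hx : x ∈ periodicPts (fc (n + 1) c))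
    (hy : y ∈ periodicPts (fc (n + 1) c)) (hne : x ≠ y) {η : K} (hη : η ^ (n + 1) = 1)
    (hη1 : η ≠ 1) : v (x - η * y) = 1 := by
  obtain ⟨f, hf⟩ : ∃ f, f = fc (n + 1) c := ⟨_, rfl⟩
  obtain ⟨k, hk, rfl⟩ := root_pow hζ hη hη1
  have hint : ∀ z, PreP f z → v z ≤ 1 := fun z hz => by
    rw [hf] at hz
    exact pre_good hna hn hc hz
  rw [← hf] at hx hy
  have hle : ∀ a b : K, PreP f a → PreP f b → ∀ j : ℕ, v (a - ζ ^ (j + 1) * b) ≤ 1 := by
    intro a b ha hb j
    refine (na_sub hna _ _).trans (max_le (hint a ha) ?_)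
    rw [map_mul, v_root (pow_root hζ _), one_mul]
    exact hint b hb
  have hstep : ∀ a b : K, v (f a - f b) =
      v (a - b) * ∏ j ∈ Finset.range n, v (a - ζ ^ (j + 1) * b) := by
    intro a b
    have e : f a - f b = a ^ (n + 1) - b ^ (n + 1) := by rw [hf]; unfold fc; ring
    rw [e, fac hζ, map_mul, map_prod]
  have hmono : ∀ a b : K, PreP f a → PreP f b → v (f a - f b) ≤ v (a - b) := by
    intro a b ha hb
    rw [hstep]
    apply mul_le_of_le_one_right (v.nonneg _)
    exact Finset.prod_le_one (fun _ _ => v.nonneg _) fun j _ => hle a b ha hb j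
  obtain ⟨N, hN, hxN⟩ := hx
  obtain ⟨M, hM, hyM⟩ := hy
  have hxP : PreP f x := PreP.of_per ⟨N, hN, hxN⟩
  have hyP : PreP f y := PreP.of_per ⟨M, hM, hyM⟩
  have h1 : f^[M * N] x = x := (hxN.const_mul M)
  have h2 : f^[M * N] y = y := (hyM.mul_const N)
  obtain ⟨P, hP⟩ : ∃ P, M * N = P + 1 := ⟨M * N - 1, by
    have := Nat.mul_pos hM hN
    omega⟩
  rw [hP] at h1 h2
  have hanti : ∀ i, v (f^[i + 1] x - f^[i + 1] y) ≤ v (f x - f y) := by
    intro i
    induction i with
    | zero => exact le_rfl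
    | succ i ih =>
      rw [iterate_succ_apply', iterate_succ_apply' f (i + 1) y]
      exact (hmono _ _ (hxP.iter _) (hyP.iter _)).trans ih
  have h3 := hanti P
  rw [h1, h2, hstep] at h3
  have h4 : 0 < v (x - y) := v.pos (sub_ne_zero.2 hne)
  have h5 : 1 ≤ ∏ j ∈ Finset.range n, v (x - ζ ^ (j + 1) * y) := by
    by_contra h
    push Not at h
    nlinarith
  exact fac_one _ (fun j => v (x - ζ ^ (j + 1) * y)) (fun _ _ => v.nonneg _)
    (fun j _ => hle x y hxP hyP j) h5 (Finset.mem_range.2 hk)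

/-- distances between the iterates at a good place -/
lemma good_iter (hna : IsNonarchimedean v) (hζ : IsPrimitiveRoot ζ (n + 1)) (hn : 1 ≤ n)
    (hc : v c ≤ 1) {x y : K} (hx : PreP (fc (n + 1) c) x) (hy : PreP (fc (n + 1) c) y) {k : ℕ}
    (hk : 1 ≤ k) (h : v ((fc (n + 1) c)^[k] x - (fc (n + 1) c)^[k] y) = 1) {η : K}
    (hη : η ^ (n + 1) = 1) : v (x - η * y) = 1 := by
  obtain ⟨f, hf⟩ : ∃ f, f = fc (n + 1) c := ⟨_, rfl⟩
  have hint : ∀ z, PreP f z → v z ≤ 1 := fun z hz => by
    rw [hf] at hz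
    exact pre_good hna hn hc hz
  rw [← hf] at hx hy h
  have hle : ∀ a b : K, PreP f a → PreP f b → ∀ j : ℕ, v (a - ζ ^ j * b) ≤ 1 := by
    intro a b ha hb j
    refine (na_sub hna _ _).trans (max_le (hint a ha) ?_)
    rw [map_mul, v_root (pow_root hζ _), one_mul]
    exact hint b hb
  have hstep : ∀ a b : K, v (f a - f b) = ∏ j ∈ Finset.range (n + 1), v (a - ζ ^ j * b) := by
    intro a b
    have e : f a - f b = a ^ (n + 1) - b ^ (n + 1) := by rw [hf]; unfold fc; ring
    rw [e, fac hζ, Finset.prod_range_succ', pow_zero, one_mul, map_mul, map_prod, mul_comm]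
  have hmono : ∀ a b : K, PreP f a → PreP f b → v (f a - f b) ≤ v (a - b) := by
    intro a b ha hb
    rw [hstep, Finset.prod_range_succ', pow_zero, one_mul]
    apply mul_le_of_le_one_left (v.nonneg _)
    exact Finset.prod_le_one (fun _ _ => v.nonneg _) fun j _ => hle a b ha hb (j + 1)
  have hanti : ∀ i, v (f^[i + 1] x - f^[i + 1] y) ≤ v (f x - f y) := by
    intro i
    induction i with
    | zero => exact le_rfl
    | succ i ih =>
      rw [iterate_succ_apply', iterate_succ_apply' f (i + 1) y]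
      exact (hmono _ _ (hx.iter _) (hy.iter _)).trans ih
  obtain ⟨i, rfl⟩ : ∃ i, k = i + 1 := ⟨k - 1, by omega⟩
  have h1 := hanti i
  rw [h, hstep] at h1
  obtain ⟨j, hj, rfl⟩ := hζ.eq_pow_of_pow_eq_one hη
  exact fac_one _ (fun j => v (x - ζ ^ j * y)) (fun _ _ => v.nonneg _)
    (fun j _ => hle x y hx hy j) h1 (Finset.mem_range.2 hj)

/-- the fixed point and its tails at a good place -/
lemma good_fix (hna : IsNonarchimedean v) (hζ : IsPrimitiveRoot ζ (n + 1))
    (hv : v ((n : K) + 1) = 1) (hn : 1 ≤ n) (hc : v c ≤ 1) {x z : K}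
    (hx : PreP (fc (n + 1) c) x) (hz : fc (n + 1) c z = z) (hz0 : z ≠ 0) {k : ℕ} (hk : 1 ≤ k)
    {θ : K} (hθ : θ ^ (n + 1) = 1) (hθ1 : θ ≠ 1) (h : (fc (n + 1) c)^[k] x = θ * z) {η η' : K}
    (hη : η ^ (n + 1) = 1) (hη' : η' ^ (n + 1) = 1) :
    v ((x - η * z) / (x - η' * z)) = 1 := by
  have hzP : PreP (fc (n + 1) c) z := ⟨0, 1, one_pos, hz.symm⟩
  have hz1 : v z ≤ 1 := pre_good hna hn hc hzP
  have hvz : 0 < v z := v.pos hz0
  have hzk : (fc (n + 1) c)^[k] z = z := Function.iterate_fixed hz k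
  rcases hz1.eq_or_lt with h1 | h1
  · have h2 : v ((fc (n + 1) c)^[k] x - (fc (n + 1) c)^[k] z) = 1 := by
      have e : θ * z - z = -((1 - θ) * z) := by ring
      rw [h, hzk, e, v.map_neg, map_mul, v_one_sub hna hζ hv hθ hθ1, h1, one_mul]
    rw [map_div₀, good_iter hna hζ hn hc hx hzP hk h2 hη, good_iter hna hζ hn hc hx hzP hk h2 hη',
      div_one]
  · have hcz : v c = v z := by
      have e : c = z - z ^ (n + 1) := by
        have : z ^ (n + 1) + c = z := hz
        linear_combination this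
      rw [e, na_sub_eq hna]
      rw [map_pow, pow_succ]
      have : v z ^ n < 1 := pow_lt_one₀ (v.nonneg _) h1 (by omega)
      nlinarith
    have hlt : v z ^ (n + 1) < v z := by
      rw [pow_succ]
      have : v z ^ n < 1 := pow_lt_one₀ (v.nonneg _) h1 (by omega)
      nlinarith
    -- the preimages
    have hA : ∀ a, fc (n + 1) c a = θ * z → v z < v a := by
      intro a ha
      have e : a ^ (n + 1) = -((1 - θ) * z) + z ^ (n + 1) := by
        have h2 : z ^ (n + 1) + c = z := hz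
        have h3 : a ^ (n + 1) + c = θ * z := ha
        linear_combination h3 - h2
      have h2 : v (-((1 - θ) * z)) = v z := by
        rw [v.map_neg, map_mul, v_one_sub hna hζ hv hθ hθ1, one_mul]
      have h4 : v a ^ (n + 1) = v z := by
        rw [← map_pow, e, na_add_eq hna, h2]
        rw [h2, map_pow]
        exact hlt
      by_contra h5
      push Not at h5
      have := pow_le_pow_left₀ (v.nonneg a) h5 (n + 1)
      linarith
    have hB : ∀ a, v z < v (fc (n + 1) c a) → v z < v a := by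
      intro a ha
      have e : a ^ (n + 1) = fc (n + 1) c a - c := by unfold fc; ring
      have h4 : v a ^ (n + 1) = v (fc (n + 1) c a) := by
        rw [← map_pow, e, na_sub_eq hna]
        rw [hcz]
        exact ha
      by_contra h5
      push Not at h5
      have := pow_le_pow_left₀ (v.nonneg a) h5 (n + 1)
      linarith
    have hC : ∀ i a, (fc (n + 1) c)^[i + 1] a = θ * z → v z < v a := by
      intro i
      induction i with
      | zero =>
        intro a ha
        exact hA a ha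
      | succ i ih =>
        intro a ha
        rw [iterate_succ_apply] at ha
        exact hB a (ih _ ha)
    obtain ⟨i, rfl⟩ : ∃ i, k = i + 1 := ⟨k - 1, by omega⟩
    have hxz := hC i x h
    have h6 : ∀ η : K, η ^ (n + 1) = 1 → v (x - η * z) = v x := by
      intro η h
      rw [na_sub_eq hna]
      rw [map_mul, v_root h, one_mul]
      exact hxz
    rw [map_div₀, h6 η hη, h6 η' hη', div_self]
    exact (hvz.trans hxz).ne'

end na

end Pool.Agent.KS6_58
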