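import Pool.Agent.KS6_58.Dyn
import Pool.Graph.R_seed8.H437R2.Man.V1

/-!
# Heights of the preperiodic points of `x ^ (n + 1) + c`
-/

set_option autoImplicit false

namespace Pool.Agent.KS6_58

open Function Height Height.AdmissibleAbsValues Pool.Agent.H437R2.Man

section arch

variable {K : Type} [Field K] {v : AbsoluteValue K ℝ} {n : ℕ} {c : K}

lemma lxnn (x : K) (v : AbsoluteValue K ℝ) : 0 ≤ lx x v := Real.log_nonneg (le_max_right _ _)

/-- any absolute value -/
lemma pre_any (hn : 1 ≤ n) {x : K} (hx : PreP (fc (n + 1) c) x) :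
    v x ^ (n + 1) ≤ 2 ^ (n + 1) * max (v c) 1 := by
  by_contra hlt
  push Not at hlt
  refine not_pre {y | 2 ^ (n + 1) * max (v c) 1 < v y ^ (n + 1)} (fun y => v y) ?_ hlt hx
  intro y (hy : 2 ^ (n + 1) * max (v c) 1 < v y ^ (n + 1))
  have hm1 : 1 ≤ max (v c) 1 := le_max_right _ _
  have hmc : v c ≤ max (v c) 1 := le_max_left _ _
  have h2 : 2 < v y := by
    by_contra h
    push Not at h
    have := pow_le_pow_left₀ (v.nonneg y) h (n + 1)
    have h3 : (2 : ℝ) ^ (n + 1) ≤ 2 ^ (n + 1) * max (v c) 1 :=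
      le_mul_of_one_le_right (by positivity) hm1
    linarith
  have h4 : (4 : ℝ) ≤ 2 ^ (n + 1) := by
    calc (4 : ℝ) = 2 ^ 2 := by norm_num
      _ ≤ 2 ^ (n + 1) := pow_le_pow_right₀ (by norm_num) (by omega)
  have h5 : 4 * v c ≤ v y ^ (n + 1) := by
    have : 4 * v c ≤ 2 ^ (n + 1) * max (v c) 1 := by
      have := v.nonneg c
      gcongr
    linarith
  have h6 : v y * 2 ≤ v y ^ (n + 1) := by
    rw [pow_succ, mul_comm]
    have h7 : v y ^ 1 ≤ v y ^ n := pow_le_pow_right₀ (by linarith) hn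
    rw [pow_one] at h7
    have : 2 ≤ v y ^ n := by linarith
    gcongr
  have h8 : v y ^ (n + 1) - v c ≤ v (fc (n + 1) c y) := by
    unfold fc
    have := v.add_le (y ^ (n + 1) + c) (-c)
    rw [add_neg_cancel_right, v.map_neg, map_pow] at this
    linarith
  have h9 : v y < v (fc (n + 1) c y) := by linarith
  refine ⟨?_, h9⟩
  show 2 ^ (n + 1) * max (v c) 1 < v (fc (n + 1) c y) ^ (n + 1)
  exact hy.trans (pow_lt_pow_left₀ h9 (v.nonneg _) (by omega))

lemma max_pow_le {a b : ℝ} {m : ℕ} (_ : 0 ≤ a) (h : a ^ m ≤ b) (hb : 1 ≤ b) :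
    max a 1 ^ m ≤ b := by
  rcases le_total a 1 with h1 | h1
  · rw [max_eq_right h1, one_pow]; exact hb
  · rw [max_eq_left h1]; exact h

lemma lx_arch (hn : 1 ≤ n) {x : K} (hx : PreP (fc (n + 1) c) x) :
    ((n + 1 : ℕ) : ℝ) * lx x v ≤ lx c v + ((n + 1 : ℕ) : ℝ) * Real.log 2 := by
  have h := pre_any (v := v) hn hx
  have hm1 : 1 ≤ max (v c) 1 := le_max_right _ _
  have h2 : (1 : ℝ) ≤ 2 ^ (n + 1) := one_le_pow₀ (by norm_num)
  have h3 := max_pow_le (v.nonneg x) h (by nlinarith)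
  have h4 := Real.log_le_log (by positivity) h3
  rw [Real.log_mul (by positivity) (by positivity), Real.log_pow, Real.log_pow] at h4
  unfold lx
  linarith

lemma lx_na (hna : IsNonarchimedean v) (hn : 1 ≤ n) {x : K} (hx : PreP (fc (n + 1) c) x) :
    ((n + 1 : ℕ) : ℝ) * lx x v ≤ lx c v := by
  have h : v x ^ (n + 1) ≤ max (v c) 1 := by
    rcases le_or_gt (v c) 1 with h1 | h1
    · rw [max_eq_right h1]
      exact pow_le_one₀ (v.nonneg _) (pre_good hna hn h1 hx)
    · rw [max_eq_left h1.le]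
      exact (pre_bad hna hn h1 hx).le
  have h3 := max_pow_le (v.nonneg x) h (le_max_right _ _)
  have h4 := Real.log_le_log (by positivity) h3
  rw [Real.log_pow] at h4
  unfold lx
  linarith

/-- the local comparison at a nonarchimedean place -/
lemma lu_na (hna : IsNonarchimedean v) (hn : 1 ≤ n) {x y : K} (hx : PreP (fc (n + 1) c) x)
    (hy : PreP (fc (n + 1) c) y) (hxy : y ^ (n + 1) - x ^ (n + 1) ≠ 0) :
    (n : ℝ) * lx c v ≤ ((n + 1 : ℕ) : ℝ) * lx (y ^ (n + 1) / (y ^ (n + 1) - x ^ (n + 1))) v := by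
  rcases le_or_gt (v c) 1 with h1 | h1
  · have : lx c v = 0 := by unfold lx; rw [max_eq_right h1, Real.log_one]
    rw [this, mul_zero]
    exact mul_nonneg (Nat.cast_nonneg _) (lxnn _ _)
  · obtain ⟨w, hw⟩ : ∃ w, w = y ^ (n + 1) - x ^ (n + 1) := ⟨_, rfl⟩
    rw [← hw] at hxy ⊢
    have hwe : w = fc (n + 1) c y - fc (n + 1) c x := by rw [hw]; unfold fc; ring
    have hvw : 0 < v w := v.pos hxy
    have h2 : v w ^ (n + 1) ≤ v c := by
      have h3 : v w ≤ max (v (fc (n + 1) c y)) (v (fc (n + 1) c x)) := by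
        rw [hwe]; exact na_sub hna _ _
      rw [bad_eq (pre_bad hna hn h1 hy.map) (pre_bad hna hn h1 hx.map), max_self] at h3
      exact (pow_le_pow_left₀ (v.nonneg _) h3 _).trans (pre_bad hna hn h1 hx.map).le
    have hy' : v (y ^ (n + 1)) = v c := by rw [map_pow]; exact pre_bad hna hn h1 hy
    have hc0 : 0 < v c := one_pos.trans h1
    have h4 : v c ^ n ≤ v (y ^ (n + 1) / w) ^ (n + 1) := by
      rw [map_div₀, hy', div_pow, le_div_iff₀ (by positivity), pow_succ (v c) n]
      gcongr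
    have h5 : v c ^ n ≤ max (v (y ^ (n + 1) / w)) 1 ^ (n + 1) :=
      h4.trans (pow_le_pow_left₀ (v.nonneg _) (le_max_left _ _) _)
    have h6 := Real.log_le_log (by positivity) h5
    rw [Real.log_pow, Real.log_pow] at h6
    unfold lx
    rw [max_eq_left h1.le]
    exact h6

/-- the local comparison at any place -/
lemma lu_any (hn : 1 ≤ n) {x y : K} (hx : PreP (fc (n + 1) c) x)
    (hy : PreP (fc (n + 1) c) y) (hxy : y ^ (n + 1) - x ^ (n + 1) ≠ 0) :
    (n : ℝ) * lx c v ≤ ((n + 1 : ℕ) : ℝ) * lx (y ^ (n + 1) / (y ^ (n + 1) - x ^ (n + 1))) v +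
      ((n + 1 : ℕ) : ℝ) * Real.log 16 := by
  rcases le_or_gt (v c) 16 with h1 | h1
  · have h2 : lx c v ≤ Real.log 16 := by
      unfold lx
      apply Real.log_le_log (by positivity)
      exact max_le h1 (by norm_num)
    have h3 := lxnn (y ^ (n + 1) / (y ^ (n + 1) - x ^ (n + 1))) v
    have h4 := lxnn c v
    have h5 : (n : ℝ) * lx c v ≤ ((n + 1 : ℕ) : ℝ) * Real.log 16 := by
      push_cast
      nlinarith [Nat.cast_nonneg (α := ℝ) n]
    have h6 : (0 : ℝ) ≤ ((n + 1 : ℕ) : ℝ) *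
      lx (y ^ (n + 1) / (y ^ (n + 1) - x ^ (n + 1))) v := by positivity
    linarith
  · obtain ⟨w, hw⟩ : ∃ w, w = y ^ (n + 1) - x ^ (n + 1) := ⟨_, rfl⟩
    rw [← hw] at hxy ⊢
    have hwe : w = fc (n + 1) c y - fc (n + 1) c x := by rw [hw]; unfold fc; ring
    have hvw : 0 < v w := v.pos hxy
    obtain ⟨M, hM⟩ : ∃ M, M = v c := ⟨_, rfl⟩
    rw [← hM] at h1
    have hM0 : 0 < M := by linarith
    have hmax : max (v c) 1 = M := by rw [← hM]; exact max_eq_left (by linarith)
    have hb : ∀ z, PreP (fc (n + 1) c) z → v z ^ (n + 1) ≤ 2 ^ (n + 1) * M := by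
      intro z hz
      have := pre_any (v := v) hn hz
      rwa [hmax] at this
    have h2 : v w ^ (n + 1) ≤ 4 ^ (n + 1) * M := by
      have h3 : v w ≤ v (fc (n + 1) c y) + v (fc (n + 1) c x) := by
        rw [hwe, sub_eq_add_neg]
        refine (v.add_le _ _).trans ?_
        rw [v.map_neg]
      have hy' := hb _ hy.map
      have hx' := hb _ hx.map
      obtain ⟨m, hm⟩ : ∃ m, m = max (v (fc (n + 1) c y)) (v (fc (n + 1) c x)) := ⟨_, rfl⟩
      have hm' : m ^ (n + 1) ≤ 2 ^ (n + 1) * M := by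
        rw [hm]
        rcases le_total (v (fc (n + 1) c y)) (v (fc (n + 1) c x)) with h | h
        · rw [max_eq_right h]; exact hx'
        · rw [max_eq_left h]; exact hy'
      have h4 : v w ≤ 2 * m := by
        have := le_max_left (v (fc (n + 1) c y)) (v (fc (n + 1) c x))
        have := le_max_right (v (fc (n + 1) c y)) (v (fc (n + 1) c x))
        rw [hm]
        linarith
      calc v w ^ (n + 1) ≤ (2 * m) ^ (n + 1) := pow_le_pow_left₀ (v.nonneg _) h4 _
        _ = 2 ^ (n + 1) * m ^ (n + 1) := mul_pow _ _ _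
        _ ≤ 2 ^ (n + 1) * (2 ^ (n + 1) * M) := by gcongr
        _ = 4 ^ (n + 1) * M := by
            rw [← mul_assoc, ← mul_pow]; norm_num
    have h3 : M / 2 ≤ v y ^ (n + 1) := by
      have h4 : v (fc (n + 1) c y) ≤ M / 2 := by
        by_contra h
        push Not at h
        have h5 := pow_lt_pow_left₀ h (by positivity) (n := n + 1) (by omega)
        have h6 := hb _ hy.map
        have h7 : (M / 2) ^ (n + 1) < 2 ^ (n + 1) * M := h5.trans_le h6
        rw [div_pow, div_lt_iff₀ (by positivity), pow_succ M n] at h7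
        have h8 : (2 : ℝ) ^ (n + 1) * M * 2 ^ (n + 1) = 4 ^ (n + 1) * M := by
          rw [mul_right_comm, ← mul_pow]; norm_num
        rw [h8] at h7
        have h9 : M ^ n < 4 ^ (n + 1) := lt_of_mul_lt_mul_right h7 hM0.le
        have h10 : (16 : ℝ) ^ n ≤ M ^ n := pow_le_pow_left₀ (by norm_num) h1.le _
        have h11 : (4 : ℝ) ^ (n + 1) ≤ 16 ^ n := by
          rw [show (16 : ℝ) = 4 ^ 2 by norm_num, ← pow_mul]
          exact pow_le_pow_right₀ (by norm_num) (by omega)
        linarith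
      have h5 : v c ≤ v (fc (n + 1) c y) + v (y ^ (n + 1)) := by
        have e : c = fc (n + 1) c y + -(y ^ (n + 1)) := by unfold fc; ring
        calc v c = v (fc (n + 1) c y + -(y ^ (n + 1))) := by rw [← e]
          _ ≤ _ := (v.add_le _ _).trans (by rw [v.map_neg])
      rw [map_pow, ← hM] at h5
      linarith
    have h4 : M ^ n ≤ 16 ^ (n + 1) * v (y ^ (n + 1) / w) ^ (n + 1) := by
      rw [map_div₀, map_pow, div_pow, ← mul_div_assoc, le_div_iff₀ (by positivity)]
      calc M ^ n * v w ^ (n + 1) ≤ M ^ n * (4 ^ (n + 1) * M) := by gcongr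
        _ = 8 ^ (n + 1) * (M / 2) ^ (n + 1) := by
            rw [← mul_pow]
            have : 8 * (M / 2) = 4 * M := by ring
            rw [this, mul_pow, pow_succ M n]
            ring
        _ ≤ 16 ^ (n + 1) * (v y ^ (n + 1)) ^ (n + 1) := by
            gcongr
            norm_num
    have h5 : M ^ n ≤ 16 ^ (n + 1) * max (v (y ^ (n + 1) / w)) 1 ^ (n + 1) :=
      h4.trans (by
        gcongr
        exact le_max_left _ _)
    have h6 := Real.log_le_log (by positivity) h5
    rw [Real.log_mul (by positivity) (by positivity), Real.log_pow, Real.log_pow,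
      Real.log_pow] at h6
    unfold lx
    rw [hmax]
    linarith

/-- if zero is preperiodic -/
lemma zero_any (hn : 1 ≤ n) (h : PreP (fc (n + 1) c) 0) : lx c v ≤ Real.log 4 := by
  have h1 : fc (n + 1) c 0 = c := by unfold fc; simp
  have h2 : PreP (fc (n + 1) c) c := by
    have := h.map
    rwa [h1] at this
  have h3 := pre_any (v := v) hn h2
  have h4 : max (v c) 1 ≤ 4 := by
    by_contra hc
    push Not at hc
    have h5 : max (v c) 1 = v c := by
      apply max_eq_left
      rcases lt_max_iff.1 hc with h | h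
      · linarith
      · linarith
    rw [h5] at h3 hc
    rw [pow_succ] at h3
    have h6 : v c ^ n ≤ 2 ^ (n + 1) := le_of_mul_le_mul_right h3 (by linarith)
    have h7 : (4 : ℝ) ^ n < v c ^ n := pow_lt_pow_left₀ hc (by norm_num) (by omega)
    have h8 : (2 : ℝ) ^ (n + 1) ≤ 4 ^ n := by
      rw [show (4 : ℝ) = 2 ^ 2 by norm_num, ← pow_mul]
      exact pow_le_pow_right₀ (by norm_num) (by omega)
    linarith
  unfold lx
  exact Real.log_le_log (by positivity) h4

lemma zero_na (hna : IsNonarchimedean v) (hn : 1 ≤ n) (h : PreP (fc (n + 1) c) 0) :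
    lx c v = 0 := by
  unfold lx
  rcases le_or_gt (v c) 1 with h1 | h1
  · rw [max_eq_right h1, Real.log_one]
  · have := pre_bad hna hn h1 h
    rw [map_zero, zero_pow (Nat.succ_ne_zero n)] at this
    linarith

end arch

section global

variable {K : Type} [Field K] [NumberField K] {n : ℕ} {c : K}

/-- **heights of preperiodic points** -/
theorem ht_pre (hn : 1 ≤ n) {x : K} (hx : PreP (fc (n + 1) c) x) :
    ((n + 1 : ℕ) : ℝ) * logHeight₁ x ≤
      logHeight₁ c + totalWeight K * (((n + 1 : ℕ) : ℝ) * Real.log 2) := by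
  have h1 := gs_le (K := K) (f := fun v => ((n + 1 : ℕ) : ℝ) * lx x v) (g := fun v => lx c v)
    ((FS_lx x).const_mul _) (FS_lx c) (((n + 1 : ℕ) : ℝ) * Real.log 2)
    (fun v _ => lx_arch hn hx) (fun v hv => lx_na (isNonarchimedean v hv) hn hx)
  rw [gs_const_mul _ (FS_lx x), gs_lx] at h1
  have h2 : gs (fun v : AbsoluteValue K ℝ => lx c v) = logHeight₁ c := gs_lx c
  rw [h2] at h1
  exact h1

/-- **the lower bound for the ratio of two preperiodic points** -/
theorem ht_ratio_low (hn : 1 ≤ n) {x y : K} (hx : PreP (fc (n + 1) c) x)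
    (hy : PreP (fc (n + 1) c) y) (hy0 : y ≠ 0) (hxy : x ^ (n + 1) ≠ y ^ (n + 1)) :
    (n : ℝ) * logHeight₁ c ≤ ((n + 1 : ℕ) : ℝ) ^ 2 * logHeight₁ (x / y) +
      totalWeight K * (((n + 1 : ℕ) : ℝ) * (Real.log 2 + Real.log 16)) := by
  have hw : y ^ (n + 1) - x ^ (n + 1) ≠ 0 := sub_ne_zero.2 (Ne.symm hxy)
  obtain ⟨u, hu⟩ : ∃ u, u = y ^ (n + 1) / (y ^ (n + 1) - x ^ (n + 1)) := ⟨_, rfl⟩
  have h1 := gs_le (K := K) (f := fun v => (n : ℝ) * lx c v)
    (g := fun v => ((n + 1 : ℕ) : ℝ) * lx u v)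
    ((FS_lx c).const_mul _) ((FS_lx u).const_mul _) (((n + 1 : ℕ) : ℝ) * Real.log 16)
    (fun v _ => by rw [hu]; exact lu_any hn hx hy hw)
    (fun v hv => by rw [hu]; exact lu_na (isNonarchimedean v hv) hn hx hy hw)
  rw [gs_const_mul _ (FS_lx c), gs_const_mul _ (FS_lx u), gs_lx, gs_lx] at h1
  have h2 : u = (1 - (x / y) ^ (n + 1))⁻¹ := by
    rw [hu, div_pow]
    have hyn : y ^ (n + 1) ≠ 0 := pow_ne_zero _ hy0
    field_simp
  have h3 : logHeight₁ u ≤ ((n + 1 : ℕ) : ℝ) * logHeight₁ (x / y) +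
      totalWeight K * Real.log 2 := by
    rw [h2, logHeight₁_inv]
    have h4 := logHeight₁_sub_le (1 : K) ((x / y) ^ (n + 1))
    rw [logHeight₁_one, logHeight₁_pow] at h4
    linarith
  have h5 : (0 : ℝ) ≤ ((n + 1 : ℕ) : ℝ) := Nat.cast_nonneg _
  have h6 := mul_le_mul_of_nonneg_left h3 h5
  nlinarith

/-- zero is not preperiodic for the parameters of large height -/
theorem zero_pre (hn : 1 ≤ n) (h : PreP (fc (n + 1) c) 0) :
    logHeight₁ c ≤ totalWeight K * Real.log 4 := by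
  have h1 := gs_le (K := K) (f := fun v => lx c v) (g := fun v => (0 : ℝ) * lx c v)
    (FS_lx c) ((FS_lx c).const_mul _) (Real.log 4)
    (fun v _ => by rw [zero_mul, zero_add]; exact zero_any hn h)
    (fun v hv => by rw [zero_mul, zero_na (isNonarchimedean v hv) hn h])
  rw [gs_const_mul _ (FS_lx c)] at h1
  have h2 : gs (fun v : AbsoluteValue K ℝ => lx c v) = logHeight₁ c := gs_lx c
  rw [h2, zero_mul, zero_add] at h1
  exact h1

end global

end Pool.Agent.KS6_58
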