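import Mathlib
import Pool.Graph.R_seed8.H437R2.Man.MWSel

/-!
# Norms of elements with even valuations
-/

set_option autoImplicit false

namespace Pool.Agent.KS6_58

open NumberField IsDedekindDomain UniqueFactorizationMonoid

section

variable {K L : Type} [Field K] [NumberField K] [Field L] [NumberField L] [Algebra K L]

open Classical in
/-- orders at primes of norms of ideals -/
lemma even_relNorm (v : HeightOneSpectrum (𝓞 K)) (J : Ideal (𝓞 L)) (hJ : J ≠ 0)
    (h : ∀ P : HeightOneSpectrum (𝓞 L), P.asIdeal.comap (algebraMap (𝓞 K) (𝓞 L)) = v.asIdeal →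
      Even ((normalizedFactors J).count P.asIdeal)) :
    Even ((normalizedFactors (Ideal.relNorm (𝓞 K) J)).count v.asIdeal) := by
  obtain ⟨s, hs⟩ : ∃ s, s = normalizedFactors J := ⟨_, rfl⟩
  have hprod : s.prod = J := by
    rw [hs]; exact Ideal.prod_normalizedFactors_eq_self hJ
  have hprime : ∀ P ∈ s, Prime P := fun P hP => by
    rw [hs] at hP; exact prime_of_normalized_factor P hP
  have hcount : ∀ t : Multiset (Ideal (𝓞 L)), (∀ P ∈ t, Prime P) →
      (normalizedFactors (Ideal.relNorm (𝓞 K) t.prod)).count v.asIdeal =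
        (t.map fun P => (normalizedFactors (Ideal.relNorm (𝓞 K) P)).count v.asIdeal).sum := by
    intro t
    induction t using Multiset.induction_on with
    | empty =>
      intro _
      rw [Multiset.prod_zero, Multiset.map_zero, Multiset.sum_zero, map_one, normalizedFactors_one]
      simp
    | cons P t ih =>
      intro ht
      have hP : Ideal.relNorm (𝓞 K) P ≠ 0 := by
        intro h0
        exact (ht P (Multiset.mem_cons_self _ _)).ne_zero (Ideal.relNorm_eq_bot_iff.1 h0)
      have ht' : Ideal.relNorm (𝓞 K) t.prod ≠ 0 := by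
        intro h0
        have h1 := Ideal.relNorm_eq_bot_iff.1 h0
        have h2 : t.prod ≠ 0 := Multiset.prod_ne_zero fun h3 =>
          (ht 0 (Multiset.mem_cons_of_mem h3)).ne_zero rfl
        exact h2 h1
      rw [Multiset.prod_cons, map_mul, normalizedFactors_mul hP ht', Multiset.count_add,
        Multiset.map_cons, Multiset.sum_cons, ih fun P' hP' => ht P' (Multiset.mem_cons_of_mem hP')]
  rw [← hprod, hcount s hprime, Finset.sum_multiset_map_count]
  apply Finset.even_sum
  intro P hP
  rw [Multiset.mem_toFinset] at hP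
  have hPp := hprime P hP
  have hPi : P.IsPrime := Ideal.isPrime_of_prime hPp
  rw [smul_eq_mul]
  by_cases hv : P.comap (algebraMap (𝓞 K) (𝓞 L)) = v.asIdeal
  · apply Even.mul_right
    rw [hs]
    exact h ⟨P, hPi, hPp.ne_zero⟩ hv
  · apply Even.mul_left
    obtain ⟨p, hp⟩ : ∃ p, p = P.comap (algebraMap (𝓞 K) (𝓞 L)) := ⟨_, rfl⟩
    have hpp : p.IsPrime := by rw [hp]; exact Ideal.IsPrime.comap _
    have hlo : P.LiesOver p := ⟨hp⟩
    have hp0 : p ≠ ⊥ := by
      intro h0
      rw [h0] at hlo
      exact hPp.ne_zero (Ideal.eq_bot_of_liesOver_bot (𝓞 K) P)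
    obtain ⟨m, hm⟩ := Ideal.exists_relNorm_eq_pow_of_isPrime P p
    have hpirr : Irreducible p := (Ideal.prime_of_isPrime hp0 hpp).irreducible
    rw [hm, normalizedFactors_pow, Multiset.count_nsmul, normalizedFactors_irreducible hpirr,
      normalize_eq, Multiset.count_singleton, if_neg]
    · simp
    · intro h1
      rw [← hp] at hv
      exact hv h1.symm

/-- the valuation of a nonzero element is a square -/
def EvenAt (v : HeightOneSpectrum (𝓞 K)) (x : K) : Prop := IsSquare (v.valuation K x)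

omit [Algebra K L] in
open Classical in
lemma evenAt_int {v : HeightOneSpectrum (𝓞 L)} {a : 𝓞 L} (ha : a ≠ 0) :
    EvenAt v (a : L) ↔ Even ((normalizedFactors (Ideal.span {a})).count v.asIdeal) := by
  unfold EvenAt
  rw [v.valuation_of_algebraMap, v.intValuation_if_neg ha,
    Ideal.count_associates_factors_eq (by simpa using ha) v.isPrime v.ne_bot]
  obtain ⟨n, hn⟩ : ∃ n, n = (normalizedFactors (Ideal.span {a})).count v.asIdeal := ⟨_, rfl⟩
  rw [← hn]
  constructor
  · rintro ⟨x, hx⟩
    have hx0 : x ≠ 0 := by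
      rintro rfl
      rw [mul_zero] at hx
      exact WithZero.exp_ne_zero hx
    obtain ⟨m, hm⟩ : ∃ m : ℤ, x = WithZero.exp m := ⟨WithZero.log x, (WithZero.exp_log hx0).symm⟩
    rw [hm, ← WithZero.exp_add] at hx
    have := WithZero.exp_injective hx
    have h2 : Even (-(n : ℤ)) := ⟨m, this⟩
    rw [even_neg] at h2
    exact_mod_cast h2
  · rintro ⟨m, hm⟩
    refine ⟨WithZero.exp (-(m : ℤ)), ?_⟩
    rw [← WithZero.exp_add, hm]
    congr 1
    push_cast
    ring

theorem evenAt_norm (v : HeightOneSpectrum (𝓞 K)) {x : L} (hx : x ≠ 0)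
    (h : ∀ P : HeightOneSpectrum (𝓞 L), P.asIdeal.comap (algebraMap (𝓞 K) (𝓞 L)) = v.asIdeal →
      EvenAt P x) : EvenAt v (Algebra.norm K x) := by
  classical
  obtain ⟨p, q, hq, hpq⟩ := IsFractionRing.div_surjective (A := 𝓞 L) x
  have hq0 : q ≠ 0 := nonZeroDivisors.ne_zero hq
  have hqL : (algebraMap (𝓞 L) L q) ≠ 0 := by simpa using hq0
  have hp0 : p ≠ 0 := by
    rintro rfl
    rw [map_zero, zero_div] at hpq
    exact hx hpq.symm
  have hpq0 : p * q ≠ 0 := mul_ne_zero hp0 hq0
  have e1 : algebraMap (𝓞 L) L (p * q) = x * (algebraMap (𝓞 L) L q) ^ 2 := by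
    rw [← hpq, map_mul]
    field_simp
  have h1 : Even ((normalizedFactors (Ideal.relNorm (𝓞 K) (Ideal.span {p * q}))).count
      v.asIdeal) := by
    apply even_relNorm
    · simpa using hpq0
    · intro P hP
      rw [← evenAt_int hpq0]
      unfold EvenAt
      have := h P hP
      unfold EvenAt at this
      change IsSquare (P.valuation L (algebraMap (𝓞 L) L (p * q)))
      rw [e1, map_mul, map_pow]
      exact this.mul (IsSquare.sq _)
  rw [Ideal.relNorm_singleton] at h1
  have hn0 : Algebra.intNorm (𝓞 K) (𝓞 L) (p * q) ≠ 0 := by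
    rwa [Ne, Algebra.intNorm_eq_zero]
  rw [← evenAt_int hn0] at h1
  have e2 : ((Algebra.intNorm (𝓞 K) (𝓞 L) (p * q) : 𝓞 K) : K) =
      Algebra.norm K x * (Algebra.norm K (algebraMap (𝓞 L) L q)) ^ 2 := by
    have := Algebra.algebraMap_intNorm (A := 𝓞 K) (K := K) (L := L) (B := 𝓞 L) (p * q)
    rw [e1] at this
    exact this.trans (by rw [map_mul, map_pow])
  unfold EvenAt at h1 ⊢
  rw [e2, map_mul, map_pow] at h1
  have hN : Algebra.norm K (algebraMap (𝓞 L) L q) ≠ 0 := by
    rwa [Ne, Algebra.norm_eq_zero_iff]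
  have hv0 : v.valuation K (Algebra.norm K (algebraMap (𝓞 L) L q)) ≠ 0 :=
    (Valuation.ne_zero_iff _).2 hN
  obtain ⟨t, ht⟩ := h1
  refine ⟨t / v.valuation K (Algebra.norm K (algebraMap (𝓞 L) L q)), ?_⟩
  field_simp
  rw [ht, pow_two]

end

end Pool.Agent.KS6_58
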