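import Pool.Agent.KS6_58.Ev
import Pool.Graph.R_seed8.Y723.HJ.Rt
import Pool.Graph.R_seed8.H437R2.Man.MWWeak

/-!
# The values at the Weierstrass points of a class have even valuations
-/

set_option autoImplicit false

namespace Pool.Agent.KS6_58

open NumberField IsDedekindDomain UniqueFactorizationMonoid Polynomial Pool.Agent.Y723.HJ

lemma evenAt_of_prod {L : Type} [Field L] [NumberField L] {ι : Type*} [Fintype ι]
    (hodd : Odd (Fintype.card ι)) {r : ι → L} {P : HeightOneSpectrum (𝓞 L)}
    (hr : ∀ i, P.valuation L (r i) ≤ 1) (hrr : ∀ i k, i ≠ k → P.valuation L (r i - r k) = 1)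
    {θ β : L} (_hβ : β ≠ 0) (h : β ^ 2 = ∏ i, (θ - r i)) (i : ι) : EvenAt P (θ - r i) := by
  classical
  obtain ⟨w, hw⟩ : ∃ w, w = P.valuation L := ⟨_, rfl⟩
  unfold EvenAt
  rw [← hw]
  rw [← hw] at hr hrr
  have hprod : w β ^ 2 = ∏ i, w (θ - r i) := by rw [← map_pow, h, map_prod]
  rcases lt_or_ge 1 (w θ) with h1 | h1
  · have h2 : ∀ i, w (θ - r i) = w θ := by
      intro i
      rw [Valuation.map_sub_eq_of_lt_left _ ((hr i).trans_lt h1)]
    have h3 : w θ ≠ 0 := by
      intro h0
      rw [h0] at h1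
      exact absurd h1 (by simp)
    obtain ⟨m, hm⟩ := hodd
    simp only [h2, Finset.prod_const, Finset.card_univ, hm] at hprod
    rw [h2]
    refine ⟨w β / w θ ^ m, ?_⟩
    field_simp
    rw [hprod, ← pow_mul, ← pow_succ', mul_comm m 2]
  · by_cases h4 : ∃ k, w (θ - r k) < 1
    · obtain ⟨k, hk⟩ := h4
      have h5 : ∀ l, l ≠ k → w (θ - r l) = 1 := by
        intro l hl
        have e1 : θ - r l = (θ - r k) + (r k - r l) := by ring
        rw [e1, Valuation.map_add_eq_of_lt_right _ (by rw [hrr k l (Ne.symm hl)]; exact hk),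
          hrr k l (Ne.symm hl)]
      by_cases hik : i = k
      · subst hik
        refine ⟨w β, ?_⟩
        rw [← pow_two, hprod, ← Finset.mul_prod_erase _ _ (Finset.mem_univ i),
          Finset.prod_eq_one (s := Finset.univ.erase i), mul_one]
        intro l hl
        exact h5 l (Finset.ne_of_mem_erase hl)
      · rw [h5 i hik]
        exact IsSquare.one
    · push Not at h4
      have h5 : w (θ - r i) = 1 := by
        apply le_antisymm _ (h4 i)
        exact (Valuation.map_sub _ _ _).trans (max_le h1 (hr i))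
      rw [h5]
      exact IsSquare.one

lemma norm_sub_root {K : Type} [Field K] {q : K[X]} [Fact (Irreducible q)] (hq : q.Monic) (t : K) :
    Algebra.norm K (algebraMap K (AdjoinRoot q) t - AdjoinRoot.root q) = q.eval t := by
  classical
  obtain ⟨pb, hpb⟩ : ∃ pb : PowerBasis K (AdjoinRoot q), pb.gen = AdjoinRoot.root q :=
    ⟨AdjoinRoot.powerBasis hq.ne_zero, AdjoinRoot.powerBasis_gen _⟩
  have h1 : minpoly K (AdjoinRoot.root q) = q := by
    rw [AdjoinRoot.minpoly_root hq.ne_zero, hq.leadingCoeff, inv_one, C_1, mul_one]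
  rw [Algebra.norm_eq_matrix_det pb.basis, map_sub, ← hpb]
  have h2 : (Algebra.leftMulMatrix pb.basis) (algebraMap K (AdjoinRoot q) t) =
      Matrix.scalar _ t := by
    rw [AlgHom.commutes]
    rfl
  rw [h2, ← Matrix.eval_charpoly, charpoly_leftMulMatrix, hpb, h1]

section

variable {K : Type} [Field K] [NumberField K] {ι : Type} [Fintype ι]

/-- the curve `y² = ∏ (x - r i)` with integral roots -/
noncomputable abbrev pfi (r : ι → 𝓞 K) : K[X] := pf (fun i => (r i : K))

lemma evenAt_irred (r : ι → 𝓞 K) (hodd : Odd (Fintype.card ι)) (v : HeightOneSpectrum (𝓞 K))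
    (hv : ∀ i k, i ≠ k → r i - r k ∉ v.asIdeal) {q V : K[X]} (hq : q.Monic) (hqi : Irreducible q)
    (hqd : q ∣ pfi r - V ^ 2) (hq0 : ∀ i, q.eval (r i : K) ≠ 0) (i : ι) :
    EvenAt v (q.eval (r i : K)) := by
  have : Fact (Irreducible q) := ⟨hqi⟩
  have : Module.Finite K (AdjoinRoot q) := (AdjoinRoot.powerBasis hq.ne_zero).finite
  have : CharZero (AdjoinRoot q) := charZero_of_injective_algebraMap
    (algebraMap K (AdjoinRoot q)).injective
  have : NumberField (AdjoinRoot q) :=
    { to_charZero := inferInstance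
      to_finiteDimensional := Module.Finite.trans K (AdjoinRoot q) }
  obtain ⟨θ, hθ⟩ : ∃ θ, θ = AdjoinRoot.root q := ⟨_, rfl⟩
  rw [← norm_sub_root hq, ← hθ]
  have hne : ∀ k, θ - algebraMap K (AdjoinRoot q) (r k : K) ≠ 0 := by
    intro k h0
    apply hq0 k
    rw [← norm_sub_root hq, ← hθ]
    have : algebraMap K (AdjoinRoot q) (r k : K) - θ = 0 := by linear_combination -h0
    rw [this, Algebra.norm_zero]
  apply evenAt_norm
  · intro h0
    apply hne i
    linear_combination -h0
  · intro P hP
    have e1 : EvenAt P (θ - algebraMap K (AdjoinRoot q) (r i : K)) := by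
      refine evenAt_of_prod hodd (r := fun i => algebraMap K (AdjoinRoot q) (r i : K))
        (β := aeval θ V) ?_ ?_ ?_ ?_ i
      · intro k
        have : algebraMap K (AdjoinRoot q) (r k : K) =
            ((algebraMap (𝓞 K) (𝓞 (AdjoinRoot q)) (r k) : 𝓞 (AdjoinRoot q)) : AdjoinRoot q) := rfl
        rw [this]
        exact P.valuation_le_one _
      · intro j k hjk
        have : algebraMap K (AdjoinRoot q) (r j : K) - algebraMap K (AdjoinRoot q) (r k : K) =
            algebraMap (𝓞 (AdjoinRoot q)) (AdjoinRoot q)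
              (algebraMap (𝓞 K) (𝓞 (AdjoinRoot q)) (r j - r k)) := by
          have h2 : algebraMap K (AdjoinRoot q) ((r j - r k : 𝓞 K) : K) =
            algebraMap (𝓞 (AdjoinRoot q)) (AdjoinRoot q)
              (algebraMap (𝓞 K) (𝓞 (AdjoinRoot q)) (r j - r k)) := rfl
          rw [← h2, ← map_sub]
          congr 1
        rw [this]
        apply le_antisymm (P.valuation_le_one _)
        by_contra hlt
        push Not at hlt
        rw [P.valuation_lt_one_iff_mem] at hlt
        apply hv j k hjk
        rw [← hP]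
        exact hlt
      · intro h0
        have h2 : ∏ k, (θ - algebraMap K (AdjoinRoot q) (r k : K)) = 0 := by
          have h3 : aeval θ (pfi r - V ^ 2) = 0 := by
            obtain ⟨w, hw⟩ := hqd
            rw [hw, map_mul, hθ, AdjoinRoot.aeval_eq, AdjoinRoot.mk_self, zero_mul]
          rw [map_sub, map_pow, h0, zero_pow two_ne_zero, sub_zero] at h3
          rw [← h3]
          unfold pfi pf
          rw [map_prod]
          apply Finset.prod_congr rfl
          intro k _
          rw [map_sub, aeval_X, aeval_C]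
        rw [Finset.prod_eq_zero_iff] at h2
        obtain ⟨k, -, hk⟩ := h2
        exact hne k hk
      · have h3 : aeval θ (pfi r - V ^ 2) = 0 := by
          obtain ⟨w, hw⟩ := hqd
          rw [hw, map_mul, hθ, AdjoinRoot.aeval_eq, AdjoinRoot.mk_self, zero_mul]
        rw [map_sub, map_pow, sub_eq_zero] at h3
        rw [← h3]
        unfold pfi pf
        rw [map_prod]
        apply Finset.prod_congr rfl
        intro k _
        rw [map_sub, aeval_X, aeval_C]
    unfold EvenAt at e1 ⊢
    rwa [← Valuation.map_neg, neg_sub] at e1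

theorem evenAt_poly (r : ι → 𝓞 K) (hodd : Odd (Fintype.card ι)) (v : HeightOneSpectrum (𝓞 K))
    (hv : ∀ i k, i ≠ k → r i - r k ∉ v.asIdeal) {V : K[X]} (i : ι) (n : ℕ) : ∀ u : K[X],
    u.natDegree = n → u.Monic → u ∣ pfi r - V ^ 2 → (∀ i, u.eval (r i : K) ≠ 0) →
    EvenAt v (u.eval (r i : K)) := by
  induction n using Nat.strong_induction_on with
  | _ n ih =>
    intro u hn hu hud hu0
    by_cases h0 : u.natDegree = 0
    · have h1 : u = 1 := hu.natDegree_eq_zero.1 h0
      rw [h1, eval_one]
      unfold EvenAt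
      rw [map_one]
      exact IsSquare.one
    · have hnu : ¬ IsUnit u := by
        intro h
        exact h0 (natDegree_eq_zero_of_isUnit h)
      obtain ⟨q, hq, hqi, hqu⟩ := exists_monic_irreducible_factor u hnu
      obtain ⟨u2, hu2⟩ := hqu
      have hu2m : u2.Monic := hq.of_mul_monic_left (by rw [← hu2]; exact hu)
      have hdq : 0 < q.natDegree := hqi.natDegree_pos
      have hdeg : u.natDegree = q.natDegree + u2.natDegree := by
        rw [hu2, hq.natDegree_mul hu2m]
      have hq0 : ∀ i, q.eval (r i : K) ≠ 0 := by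
        intro k hk
        apply hu0 k
        rw [hu2, eval_mul, hk, zero_mul]
      have hu20 : ∀ i, u2.eval (r i : K) ≠ 0 := by
        intro k hk
        apply hu0 k
        rw [hu2, eval_mul, hk, mul_zero]
      have h1 := evenAt_irred r hodd v hv hq hqi
        (dvd_trans (by rw [hu2]; exact dvd_mul_right _ _) hud) hq0 i
      have h2 := ih u2.natDegree (by omega) u2 rfl hu2m
        (dvd_trans (by rw [hu2]; exact dvd_mul_left _ _) hud) hu20
      unfold EvenAt at h1 h2 ⊢
      rw [hu2, eval_mul, map_mul]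
      exact h1.mul h2

lemma evenAt_toAdd {v : HeightOneSpectrum (𝓞 K)} (a : Kˣ) (h : EvenAt v (a : K)) :
    Even (Multiplicative.toAdd (v.valuationOfNeZero a)) := by
  unfold EvenAt at h
  rw [← v.valuationOfNeZero_eq] at h
  obtain ⟨x, hx⟩ := h
  have hx0 : x ≠ 0 := by
    rintro rfl
    rw [mul_zero] at hx
    exact WithZero.coe_ne_zero hx
  obtain ⟨m, rfl⟩ := WithZero.ne_zero_iff_exists.1 hx0
  rw [← WithZero.coe_mul] at hx
  rw [WithZero.coe_injective hx, toAdd_mul]
  exact ⟨_, rfl⟩

/-- the finite set of primes -/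
lemma finite_bad {r : ι → 𝓞 K} (hr : Function.Injective r) :
    {v : HeightOneSpectrum (𝓞 K) | ∃ i k, i ≠ k ∧ r i - r k ∈ v.asIdeal}.Finite := by
  classical
  have h1 : ∀ i k, i ≠ k → {v : HeightOneSpectrum (𝓞 K) | r i - r k ∈ v.asIdeal}.Finite := by
    intro i k hik
    have h2 : (r i : K) - r k ≠ 0 := by
      rw [sub_ne_zero]
      intro h
      exact hik (hr (by exact_mod_cast h))
    refine (Pool.Agent.H437R2.Man.MW.finite_val_ne_one ((r i : K) - r k) h2).subset ?_
    intro v hv
    have h3 : v.valuation K (algebraMap (𝓞 K) K (r i - r k)) < 1 := by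
      rw [v.valuation_lt_one_iff_mem]; exact hv
    rw [map_sub] at h3
    exact ne_of_lt h3
  have h2 : {v : HeightOneSpectrum (𝓞 K) | ∃ i k, i ≠ k ∧ r i - r k ∈ v.asIdeal} ⊆
      ⋃ i : ι, ⋃ k : ι, {v | i ≠ k ∧ r i - r k ∈ v.asIdeal} := by
    rintro v ⟨i, k, h, h'⟩
    simp only [Set.mem_iUnion]
    exact ⟨i, k, h, h'⟩
  refine (Set.finite_iUnion fun i => Set.finite_iUnion fun k => ?_).subset h2
  by_cases hik : i = k
  · convert Set.finite_empty
    ext v
    simp [hik]
  · refine (h1 i k hik).subset ?_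
    rintro v ⟨-, h⟩
    exact h

end

end Pool.Agent.KS6_58
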