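import Pool.Agent.KS6_58.Ev2
import Pool.Graph.R_seed8.Y723.HJ.Sgn

/-!
# Halving of classes over a field that contains the square roots of the values at the Weierstrass
points, and the finiteness of `Cl / 2 Cl`
-/

set_option autoImplicit false

namespace Pool.Agent.KS6_58

open NumberField IsDedekindDomain Polynomial Pool.Agent.Y723.HJ

section inj

variable {F L : Type} [Field F] [Field L]

/-- the extension of classes is injective -/
theorem clmap_inj (φ : F →+* L) {f : F[X]} {f' : L[X]} [HF f] [HF f'] (h : f.map φ = f')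
    {g : ℕ} (hg : f.natDegree = 2 * g + 1) {a b : ClassGroup (CR f)}
    (hab : clmap φ h a = clmap φ h b) : a = b := by
  obtain ⟨u, v, hu, huv, hug, hvu, rfl⟩ := exists_reduced hg a
  obtain ⟨u1, v1, hu1, huv1, hug1, hvu1, rfl⟩ := exists_reduced hg b
  rw [clmap_mi _ _ hu.ne_zero, clmap_mi _ _ hu1.ne_zero] at hab
  have hg' : f'.natDegree = 2 * g + 1 := by rw [← h, natDegree_map, hg]
  have hd : u.map φ ∣ f' - (v.map φ) ^ 2 := by
    have := Polynomial.map_dvd φ huv
    rwa [Polynomial.map_sub, Polynomial.map_pow, h] at this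
  have hd1 : u1.map φ ∣ f' - (v1.map φ) ^ 2 := by
    have := Polynomial.map_dvd φ huv1
    rwa [Polynomial.map_sub, Polynomial.map_pow, h] at this
  obtain ⟨e1, e2⟩ := reduced_unique hg' (hu.map φ) (hu1.map φ) hd hd1
    (by rw [natDegree_map]; exact hug) (by rw [natDegree_map]; exact hug1) hab
  have e3 : u = u1 := Polynomial.map_injective φ φ.injective e1
  subst e3
  have h4 : (⟨-(v1.map φ), 1⟩ : CR f') ∈ mi f' (u.map φ) (v.map φ) := by
    rw [e2]; exact mi_y_mem _ _
  rw [mem_mi hd] at h4
  have h5 : u ∣ v - v1 := by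
    rw [← Polynomial.map_dvd_map' φ, Polynomial.map_sub]
    convert h4 using 1
    simp only
    ring
  obtain ⟨s, hs⟩ := h5
  have : v = v1 + u * s := by rw [← hs]; ring
  rw [this, mi_shift]

end inj

section desc

variable {K : Type} [Field K] [CharZero K]

/-- descent of invariant classes -/
theorem clmap_desc {f : K[X]} {f' : (AlgebraicClosure K)[X]} [HF f] [HF f']
    (h : f.map (algebraMap K (AlgebraicClosure K)) = f') {g : ℕ} (hg : f.natDegree = 2 * g + 1)
    (hf' : ∀ τ : AlgebraicClosure K ≃ₐ[K] AlgebraicClosure K,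
      f'.map (τ : AlgebraicClosure K →+* AlgebraicClosure K) = f')
    (P : ClassGroup (CR f'))
    (hP : ∀ τ : AlgebraicClosure K ≃ₐ[K] AlgebraicClosure K,
      clmap (τ : AlgebraicClosure K →+* AlgebraicClosure K) (hf' τ) P = P) :
    ∃ P0 : ClassGroup (CR f), clmap (algebraMap K (AlgebraicClosure K)) h P0 = P := by
  have hdeg : f'.natDegree = 2 * g + 1 := by rw [← h, natDegree_map, hg]
  obtain ⟨u, v, hu, huv, hug, hvu, hc⟩ := exists_reduced hdeg P
  have hfix : ∀ τ : AlgebraicClosure K ≃ₐ[K] AlgebraicClosure K,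
      u.map (τ : AlgebraicClosure K →+* AlgebraicClosure K) = u ∧
      v.map (τ : AlgebraicClosure K →+* AlgebraicClosure K) = v := by
    intro τ
    have h1 := hP τ
    have h0 := hf' τ
    obtain ⟨φ, hφ⟩ : ∃ φ : AlgebraicClosure K →+* AlgebraicClosure K, φ = τ := ⟨_, rfl⟩
    have h1' : clmap φ (by rw [hφ]; exact h0) P = P := by
      subst hφ
      exact h1
    rw [← hφ] at h0 ⊢
    rw [← hc, clmap_mi _ _ hu.ne_zero] at h1'
    have huv' : u.map φ ∣ f' - (v.map φ) ^ 2 := by
      have := Polynomial.map_dvd φ huv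
      rwa [Polynomial.map_sub, Polynomial.map_pow, h0] at this
    obtain ⟨e1, e2⟩ := reduced_unique hdeg (hu.map φ) hu huv' huv
      (by rw [natDegree_map]; exact hug) hug h1'
    refine ⟨e1, ?_⟩
    have h4 : (⟨-(v.map φ), 1⟩ : CR f') ∈ mi f' u v := by
      rw [← e2]; exact mi_y_mem _ _
    rw [mem_mi huv] at h4
    have h5 : u ∣ v - v.map φ := by
      convert h4 using 1
      simp only
      ring
    have h6 : (v - v.map φ).degree < u.degree := by
      have h7 : v.degree < u.degree := by
        rw [← hvu]; exact degree_modByMonic_lt v hu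
      refine (degree_sub_le _ _).trans_lt ?_
      rw [degree_map, max_self]
      exact h7
    have h7 := eq_zero_of_dvd_of_degree_lt h5 h6
    exact (sub_eq_zero.1 h7).symm
  have : IsGalois K (AlgebraicClosure K) := inferInstance
  have hlift : ∀ p : (AlgebraicClosure K)[X],
      (∀ τ : AlgebraicClosure K ≃ₐ[K] AlgebraicClosure K,
        p.map (τ : AlgebraicClosure K →+* AlgebraicClosure K) = p) →
      ∃ q : K[X], q.map (algebraMap K (AlgebraicClosure K)) = p := by
    intro p hp
    have h1 : p ∈ Polynomial.lifts (algebraMap K (AlgebraicClosure K)) := by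
      rw [lifts_iff_coeff_lifts]
      intro n
      rw [InfiniteGalois.mem_range_algebraMap_iff_fixed]
      intro τ
      have := congrArg (fun q => q.coeff n) (hp τ)
      simp only [coeff_map] at this
      exact this
    exact (mem_lifts p).1 h1
  obtain ⟨u0, rfl⟩ := hlift u fun τ => (hfix τ).1
  obtain ⟨v0, rfl⟩ := hlift v fun τ => (hfix τ).2
  have hu0 : u0.Monic := by
    rwa [Polynomial.monic_map_iff] at hu
  exact ⟨cl (mi f u0 v0), by rw [clmap_mi _ _ hu0.ne_zero]; exact hc⟩

/-- halving -/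
theorem halving {ι : Type} [Fintype ι] {r : ι → K} (hr : Function.Injective r)
    (hodd : Odd (Fintype.card ι)) [HF (pf r)] {I : Ideal (CR (pf r))} (hI : Gd r I) {s : ι → K}
    (hs : ∀ i, s i ^ 2 = del (r i) I) : ∃ P, P ^ 2 = cl I := by
  classical
  obtain ⟨g, hg⟩ : ∃ g, (pf r).natDegree = 2 * g + 1 := by
    rw [pf_deg]; exact hodd
  obtain ⟨φ, hφ⟩ : ∃ φ : K →+* AlgebraicClosure K, φ = algebraMap K (AlgebraicClosure K) :=
    ⟨_, rfl⟩
  obtain ⟨r', hr'⟩ : ∃ r' : ι → AlgebraicClosure K, r' = fun i => φ (r i) := ⟨_, rfl⟩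
  have hr'inj : Function.Injective r' := by
    rw [hr']; exact φ.injective.comp hr
  have hf' : HF (pf r') := pf_HF hodd hr'inj two_ne_zero
  have hm : (pf r).map φ = pf r' := by rw [hr']; exact pf_map φ r
  have hinf : Infinite (AlgebraicClosure K) := inferInstance
  -- halve over the closure
  obtain ⟨P, hP⟩ := halve_cl (clmap φ hm (cl I))
  obtain ⟨I', hI'⟩ : ∃ I', I' = I.map (mapR φ hm) := ⟨_, rfl⟩
  have hI'0 : I' ≠ ⊥ := by rw [hI']; exact map_ne φ hm hI.1
  have hcl : cl I' = P ^ 2 := by rw [hP, clmap_cl φ hm hI.1, hI']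
  obtain ⟨s', hs'⟩ := Rt.exists P hI'0 hcl
  have hsq : ∀ i, s' i ^ 2 = φ (s i) ^ 2 := by
    intro i
    have hri : r' i = φ (r i) := by rw [hr']
    rw [hs'.sq hI'0 i, ← map_pow, hs, hI', ← del_map φ hm (r i) hI.1, hri]
  have hs0 : ∀ i, s' i ≠ 0 := by
    intro i h0
    have h1 := hsq i
    rw [h0, zero_pow two_ne_zero] at h1
    have h2 : s i ≠ 0 := by
      intro h3
      have := hs i
      rw [h3, zero_pow two_ne_zero] at this
      exact hI.del i this.symm
    exact h2 (φ.injective (by rw [map_zero]; exact (pow_eq_zero_iff two_ne_zero).1 h1.symm))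
  have hτm : ∀ τ : AlgebraicClosure K ≃ₐ[K] AlgebraicClosure K,
      (pf r').map (τ : AlgebraicClosure K →+* AlgebraicClosure K) = pf r' := by
    intro τ
    rw [pf_map, hr', hφ]
    congr 1
    funext i
    exact τ.commutes _
  have hinv : ∀ τ : AlgebraicClosure K ≃ₐ[K] AlgebraicClosure K,
      clmap (τ : AlgebraicClosure K →+* AlgebraicClosure K) (hτm τ) P = P := by
    intro τ
    obtain ⟨ψ, hψ⟩ : ∃ ψ : AlgebraicClosure K →+* AlgebraicClosure K, ψ = τ := ⟨_, rfl⟩
    have h0 : (pf r').map ψ = pf r' := by rw [hψ]; exact hτm τ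
    have hψφ : ∀ x, ψ (φ x) = φ x := by
      intro x
      rw [hψ, hφ]
      exact τ.commutes x
    have hcomp : ψ.comp φ = φ := RingHom.ext hψφ
    have key : clmap ψ h0 P = P := by
      have h1 := rt_map ψ (r := r') (r' := r') (by
        funext i
        rw [hr']
        exact (hψφ _).symm) h0 hs'
      have h2 : I'.map (mapR ψ h0) = I' := by
        rw [hI', Ideal.map_map]
        congr 1
        ext1 z
        refine QuadraticAlgebra.ext ?_ ?_
        · show (z.re.map φ).map ψ = z.re.map φ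
          rw [Polynomial.map_map, hcomp]
        · show (z.im.map φ).map ψ = z.im.map φ
          rw [Polynomial.map_map, hcomp]
      have h3 : (fun i => ψ (s' i)) = s' := by
        funext i
        have h4 : (s' i - φ (s i)) * (s' i + φ (s i)) = 0 := by
          linear_combination hsq i
        rcases mul_eq_zero.1 h4 with h5 | h5
        · rw [sub_eq_zero.1 h5, hψφ]
        · have : s' i = -φ (s i) := by linear_combination h5
          rw [this, map_neg, hψφ]
      rw [h2, h3] at h1
      -- the quotient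
      obtain ⟨T, hT⟩ : ∃ T, T = clmap ψ h0 P * P⁻¹ := ⟨_, rfl⟩
      have hT2 : T ^ 2 = 1 := by
        rw [hT, mul_pow, inv_pow, ← map_pow, hP]
        have : clmap ψ h0 (clmap φ hm (cl I)) = clmap φ hm (cl I) := by
          rw [clmap_cl φ hm hI.1, ← hI', clmap_cl ψ h0 hI'0, h2]
        rw [this, mul_inv_cancel]
      obtain ⟨t, ht⟩ := Rt.exists (r := r') T (I := ⊤) top_ne_bot (by rw [cl_top, hT2])
      have h5 := hs'.mul ht
      have h6 : P * T = clmap ψ h0 P := by
        rw [hT, mul_comm (clmap ψ h0 P), mul_inv_cancel_left]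
      rw [h6, Ideal.mul_top] at h5
      have h7 := Rt.unique hI'0 h5 h1
      have h8 : t = fun _ => 1 := by
        funext i
        have h9 : s' i * t i = s' i := congrFun h7 i
        exact mul_left_cancel₀ (hs0 i) (by rw [h9, mul_one])
      rw [h8] at ht
      have h9 := ht.eq_one
      rw [hT, mul_inv_eq_one] at h9
      exact h9
    subst hψ
    exact key
  have hm' : (pf r).map (algebraMap K (AlgebraicClosure K)) = pf r' := by rw [← hφ]; exact hm
  obtain ⟨P0, hP0⟩ := clmap_desc hm' hg hτm P hinv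
  subst hφ
  refine ⟨P0, clmap_inj _ hm hg ?_⟩
  rw [map_pow, hP0, hP]

end desc

section weak

variable {K : Type} [Field K] [NumberField K] {ι : Type} [Fintype ι]

/-- **weak Mordell-Weil theorem** -/
theorem weak_mw {r : ι → 𝓞 K} (hr : Function.Injective r) (hodd : Odd (Fintype.card ι))
    [HF (pfi r)] : ∃ U : Finset (ClassGroup (CR (pfi r))), ∀ c, ∃ u ∈ U, ∃ P, c = u * P ^ 2 := by
  classical
  have hr' : Function.Injective (fun i => (r i : K)) := by
    intro i k h
    have h' : (r i : K) = r k := h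
    exact hr (by exact_mod_cast h')
  obtain ⟨T, hT0, hT⟩ := Pool.Agent.H437R2.Man.MW.sel_finite _ (finite_bad hr)
  have hinf : Infinite K := inferInstance
  -- the relation between classes and values
  let Q : (ι → K) → ClassGroup (CR (pfi r)) → Prop := fun τ c =>
    ∃ I : Ideal (CR (pfi r)), Gd (fun i => (r i : K)) I ∧ cl I = c ∧
      ∀ i, ∃ b, b ≠ 0 ∧ del (r i : K) I = τ i * b ^ 2
  let rep : (ι → K) → ClassGroup (CR (pfi r)) := fun τ =>
    if h : ∃ c, Q τ c then (Classical.choose h)⁻¹ else 1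
  refine ⟨(Fintype.piFinset fun _ => T).image rep, fun c => ?_⟩
  obtain ⟨u, v, hu, huv, hc, hu0⟩ := exists_gd (r := fun i => (r i : K)) c
  have hgd := gd_mi (r := fun i => (r i : K)) hu huv hu0
  have hdel : ∀ i, del (r i : K) (mi (pfi r) u v) ≠ 0 := fun i => hgd.del i
  have h1 : ∀ i, ∃ t ∈ T, ∃ b : K, b ≠ 0 ∧ del (r i : K) (mi (pfi r) u v) = t * b ^ 2 := by
    intro i
    apply hT (Units.mk0 _ (hdel i))
    intro w hw
    apply evenAt_toAdd
    rw [Units.val_mk0]
    unfold del
    rw [nm_mi hu huv]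
    have h2 := evenAt_poly r hodd w (by
      intro i k hik h
      exact hw ⟨i, k, hik, h⟩) i _ u rfl hu huv hu0
    unfold EvenAt at h2 ⊢
    rw [map_mul, map_pow, Valuation.map_neg, map_one, one_pow, one_mul]
    exact h2
  choose τ hτT b hb0 hb using h1
  have hQ : ∃ c, Q τ c := ⟨c, mi (pfi r) u v, hgd, hc, fun i => ⟨b i, hb0 i, hb i⟩⟩
  have hrep : rep τ = (Classical.choose hQ)⁻¹ := dif_pos hQ
  obtain ⟨I', hI', hc', hd'⟩ := Classical.choose_spec hQ
  choose b' hb'0 hb' using hd'
  obtain ⟨P, hP⟩ := halving hr' hodd (hgd.mul hI') (s := fun i => τ i * b i * b' i) (by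
    intro i
    rw [del_mul _ hgd.1 hI'.1, hb' i]
    have := hb i
    rw [show del (r i : K) (mi (pf fun i => (r i : K)) u v) = τ i * b i ^ 2 from this]
    ring)
  refine ⟨rep τ, Finset.mem_image_of_mem _ (Fintype.mem_piFinset.2 hτT), P, ?_⟩
  rw [hP, cl_mul hgd.1 hI'.1, hc', hc, hrep, mul_comm c, inv_mul_cancel_left]

end weak

end Pool.Agent.KS6_58
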