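import Pool.Agent.KS6_58.ME
import Pool.Agent.KS6_58.Hv

/-!
# Relations between the classes of points, and the height inequality
-/

set_option autoImplicit false

namespace Pool.Agent.KS6_58

open Polynomial Pool.Agent.Y723.HJ Pool.Agent.H437R2.Man Height Height.AdmissibleAbsValues

section alg

variable {L : Type} [Field L] {f : L[X]}

/-- the ideal of the point `(x, y)` -/
noncomputable def pt (f : L[X]) (x y : L) : Ideal (CR f) := mi f (X - C x) (C y)

lemma mem_pt {x y : L} (h : y ^ 2 = f.eval x) (z : CR f) : z ∈ pt f x y ↔ evP x y h z = 0 := by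
  unfold pt
  rw [mem_mi (mi_point_dvd h), dvd_iff_isRoot, IsRoot, eval_add, eval_mul, eval_C, evP_apply,
    mul_comm y]

lemma pt_prime {x y : L} (h : y ^ 2 = f.eval x) : (pt f x y).IsPrime := by
  have : pt f x y = RingHom.ker (evP x y h) := by
    ext z
    rw [mem_pt h, RingHom.mem_ker]
  rw [this]
  exact RingHom.ker_isPrime _

lemma pt_ne (x y : L) : pt f x y ≠ ⊥ := mi_ne (X_sub_C_ne_zero x)

lemma le_pt_iff {U V : L[X]} {x y : L} (h : y ^ 2 = f.eval x) :
    mi f U V ≤ pt f x y ↔ U.eval x = 0 ∧ V.eval x = y := by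
  unfold mi
  rw [Ideal.span_le]
  constructor
  · intro h1
    have h2 : CC f U ∈ pt f x y := h1 (by simp)
    have h3 : (⟨-V, 1⟩ : CR f) ∈ pt f x y := h1 (by simp)
    rw [mem_pt h, evP_CC] at h2
    rw [mem_pt h, evP_apply] at h3
    simp only [eval_neg, eval_one, one_mul] at h3
    exact ⟨h2, by linear_combination -h3⟩
  · rintro ⟨h1, h2⟩ z hz
    simp only [Set.mem_insert_iff, Set.mem_singleton_iff] at hz
    rcases hz with rfl | rfl
    · rw [SetLike.mem_coe, mem_pt h, evP_CC, h1]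
    · rw [SetLike.mem_coe, mem_pt h, evP_apply]
      simp only [eval_neg, eval_one, one_mul]
      linear_combination -h2

lemma pt_le_pt {x y x' y' : L} (h' : y' ^ 2 = f.eval x') (hle : pt f x y ≤ pt f x' y') :
    x' = x ∧ y' = y := by
  unfold pt at hle
  have := (le_pt_iff h').1 hle
  simp only [eval_sub, eval_X, eval_C] at this
  exact ⟨by linear_combination this.1, this.2.symm⟩

variable [HF f]

lemma cl_pow {I : Ideal (CR f)} (hI : I ≠ ⊥) (n : ℕ) : I ^ n ≠ ⊥ ∧ cl (I ^ n) = cl I ^ n := by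
  induction n with
  | zero =>
    rw [pow_zero, pow_zero, Ideal.one_eq_top]
    exact ⟨top_ne_bot, cl_top⟩
  | succ n ih =>
    rw [pow_succ, pow_succ]
    exact ⟨mul_ne_bot ih.1 hI, by rw [cl_mul ih.1 hI, ih.2]⟩

lemma nm_pow {I : Ideal (CR f)} (hI : I ≠ ⊥) (n : ℕ) : nm (I ^ n) = nm I ^ n := by
  induction n with
  | zero =>
    rw [pow_zero, pow_zero, Ideal.one_eq_top]
    exact nm_top
  | succ n ih =>
    rw [pow_succ, pow_succ, nm_mul (cl_pow hI n).1 hI, ih]

lemma prod_facts {ι : Type} (s : Finset ι) (I : ι → Ideal (CR f)) (hI : ∀ i ∈ s, I i ≠ ⊥) :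
    (∏ i ∈ s, I i) ≠ ⊥ ∧ cl (∏ i ∈ s, I i) = ∏ i ∈ s, cl (I i) ∧
      nm (∏ i ∈ s, I i) = ∏ i ∈ s, nm (I i) := by
  classical
  induction s using Finset.induction_on with
  | empty =>
    rw [Finset.prod_empty, Finset.prod_empty, Finset.prod_empty, Ideal.one_eq_top]
    exact ⟨top_ne_bot, cl_top, nm_top⟩
  | insert a s ha ih =>
    obtain ⟨h1, h2, h3⟩ := ih fun i hi => hI i (Finset.mem_insert_of_mem hi)
    have h4 := hI a (Finset.mem_insert_self _ _)
    rw [Finset.prod_insert ha, Finset.prod_insert ha, Finset.prod_insert ha]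
    exact ⟨mul_ne_bot h4 h1, by rw [cl_mul h4 h1, h2], by rw [nm_mul h4 h1, h3]⟩

/-- a relation gives a function -/
theorem exists_fn {ι : Type} [Fintype ι] (x y : ι → L) (h : ∀ i, y i ^ 2 = f.eval (x i))
    (n : ι → ℕ) {U V : L[X]} (hU : U.Monic) (hUV : U ∣ f - V ^ 2) (e : ℕ)
    (hrel : (∏ i, cl (pt f (x i) (y i)) ^ n i) * cl (mi f U V) ^ e = 1) :
    ∃ z : CR f, z ≠ 0 ∧ Ideal.span {z} = (∏ i, pt f (x i) (y i) ^ n i) * mi f U V ^ e ∧
      ∃ c : L, z.norm = C c * ((∏ i, (X - C (x i)) ^ n i) * U ^ e) := by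
  obtain ⟨h1, h2, h3⟩ := prod_facts Finset.univ (fun i => pt f (x i) (y i) ^ n i)
    fun i _ => (cl_pow (pt_ne _ _) _).1
  obtain ⟨h4, h5⟩ := cl_pow (mi_ne (f := f) (v := V) hU.ne_zero) e
  have h6 : cl ((∏ i, pt f (x i) (y i) ^ n i) * mi f U V ^ e) = 1 := by
    rw [cl_mul h1 h4, h2, h5, ← hrel]
    congr 1
    apply Finset.prod_congr rfl
    intro i _
    exact (cl_pow (pt_ne _ _) _).2
  obtain ⟨z, hz, hz'⟩ := cl_one (mul_ne_bot h1 h4) h6
  refine ⟨z, hz, hz'.symm, (-1) ^ z.norm.natDegree * lead z ^ 2, ?_⟩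
  have h8 : nm (Ideal.span {z}) = (∏ i, (X - C (x i)) ^ n i) * U ^ e := by
    rw [← hz', nm_mul h1 h4, h3, nm_pow (mi_ne hU.ne_zero), nm_mi hU hUV]
    congr 1
    apply Finset.prod_congr rfl
    intro i _
    rw [nm_pow (pt_ne _ _)]
    unfold pt
    rw [nm_mi (monic_X_sub_C _) (mi_point_dvd (h i))]
  have h7 := (nm_span hz).1
  rw [h8] at h7
  exact h7

omit [HF f] in
/-- nonvanishing -/
lemma fn_ne {ι : Type} [Fintype ι] {x y : ι → L} {n : ι → ℕ} {U V : L[X]} {e : ℕ} {z : CR f}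
    (hz : Ideal.span {z} = (∏ i, pt f (x i) (y i) ^ n i) * mi f U V ^ e) {a b : L}
    (hab : b ^ 2 = f.eval a) (h1 : ∀ i, n i ≠ 0 → ¬ (a = x i ∧ b = y i))
    (h2 : e ≠ 0 → ¬ (U.eval a = 0 ∧ V.eval a = b)) : evP a b hab z ≠ 0 := by
  intro h0
  have hle : Ideal.span {z} ≤ pt f a b := by
    rw [Ideal.span_singleton_le_iff_mem, mem_pt hab]
    exact h0
  rw [hz] at hle
  have hp := pt_prime hab
  rcases (hp.mul_le).1 hle with h3 | h3
  · rw [hp.prod_le] at h3
    obtain ⟨i, -, hi⟩ := h3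
    have hn : n i ≠ 0 := by
      intro hn
      rw [hn, pow_zero, Ideal.one_eq_top, top_le_iff] at hi
      exact hp.ne_top hi
    have h4 := hp.le_of_pow_le hi
    obtain ⟨h5, h6⟩ := pt_le_pt hab h4
    exact h1 i hn ⟨h5, h6⟩
  · have he : e ≠ 0 := by
      intro he
      rw [he, pow_zero, Ideal.one_eq_top, top_le_iff] at h3
      exact hp.ne_top h3
    exact h2 he ((le_pt_iff hab).1 (hp.le_of_pow_le h3))

end alg

section ht

variable {L : Type} [Field L] [NumberField L]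

/-- the divisor of zeros as a multiset -/
lemma exists_ms {ι : Type} [Fintype ι] (x : ι → L) (n : ι → ℕ) (s : Multiset L) (e : ℕ) :
    ∃ S : Multiset L, (S.map fun a => X - C a).prod =
        (∏ i, (X - C (x i)) ^ n i) * (s.map fun a => X - C a).prod ^ e ∧
      Multiset.card S = ∑ i, n i + e * Multiset.card s ∧
      (S.map fun a => logHeight₁ a).sum =
        ∑ i, n i * logHeight₁ (x i) + e * (s.map fun a => logHeight₁ a).sum := by
  classical
  have h1 : ∀ T : Finset ι, ∃ S : Multiset L, (S.map fun a => X - C a).prod =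
        (∏ i ∈ T, (X - C (x i)) ^ n i) ∧ Multiset.card S = ∑ i ∈ T, n i ∧
      (S.map fun a => logHeight₁ a).sum = ∑ i ∈ T, n i * logHeight₁ (x i) := by
    intro T
    induction T using Finset.induction_on with
    | empty => exact ⟨0, by simp⟩
    | insert a T ha ih =>
      obtain ⟨S, hS1, hS2, hS3⟩ := ih
      refine ⟨Multiset.replicate (n a) (x a) + S, ?_, ?_, ?_⟩
      · rw [Multiset.map_add, Multiset.prod_add, Multiset.map_replicate, Multiset.prod_replicate,
          hS1, Finset.prod_insert ha]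
      · rw [Multiset.card_add, Multiset.card_replicate, hS2, Finset.sum_insert ha]
      · rw [Multiset.map_add, Multiset.sum_add, Multiset.map_replicate, Multiset.sum_replicate,
          hS3, Finset.sum_insert ha, nsmul_eq_mul]
  obtain ⟨S, hS1, hS2, hS3⟩ := h1 Finset.univ
  refine ⟨S + e • s, ?_, ?_, ?_⟩
  · rw [Multiset.map_add, Multiset.prod_add, hS1, Multiset.map_nsmul, Multiset.prod_nsmul]
  · rw [Multiset.card_add, hS2, Multiset.card_nsmul]
  · rw [Multiset.map_add, Multiset.sum_add, hS3, Multiset.map_nsmul, Multiset.sum_nsmul,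
      nsmul_eq_mul]

/-- the constant -/
noncomputable def cK (g : ℕ) (R : ℝ) : ℝ := (12 * g + 20) * Real.log (KK g R)

lemma cK_nonneg {g : ℕ} {R : ℝ} (hR : 1 ≤ R) : 0 ≤ cK g R := by
  unfold cK
  have := Real.log_nonneg (KK_ge (g := g) hR).2.2.2.2.2.2
  positivity

/-- the height inequality for a relation -/
theorem ME_rel {f : L[X]} {g : ℕ} {R : ℝ} (hD : Dat f g R) [HF f] (hg : 1 ≤ g) (hR : 1 ≤ R)
    {ι : Type} [Fintype ι] {x y : ι → L}
    {n : ι → ℕ} {U V : L[X]} {e : ℕ} {z : CR f}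
    (hz : Ideal.span {z} = (∏ i, pt f (x i) (y i) ^ n i) * mi f U V ^ e) {c : L}
    (hc : z.norm = C c * ((∏ i, (X - C (x i)) ^ n i) * U ^ e)) {s : Multiset L}
    (hs : U = (s.map fun a => X - C a).prod) {a b : L} (hab : b ^ 2 = f.eval a) (hb : b ≠ 0)
    (h1 : ∀ i, n i ≠ 0 → ¬ (a = x i ∧ b = y i))
    (h2 : e ≠ 0 → ¬ (U.eval a = 0 ∧ V.eval a = b)) {j : ℕ}
    (hj : (∏ i, pt f (x i) (y i) ^ n i) * mi f U V ^ e ≤ pt f a (-b) ^ j) :
    ((2 * g + 2) * j : ℕ) * logHeight₁ a ≤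
      (∑ i, n i * logHeight₁ (x i) + e * (s.map fun a => logHeight₁ a).sum) +
      (∑ i, n i + e * Multiset.card s : ℕ) * logHeight₁ a +
      totalWeight L * ((∑ i, n i + e * Multiset.card s + j + 1 : ℕ) * cK g R) := by
  obtain ⟨S, hS1, hS2, hS3⟩ := exists_ms x n s e
  have hzj : z ∈ mi f (X - C a) (-C b) ^ j := by
    have h3 : z ∈ pt f a (-b) ^ j := hj (by rw [← hz]; exact Ideal.mem_span_singleton_self z)
    unfold pt at h3
    rwa [C_neg] at h3
  have h4 := ME hD hg hR hab hb hzj (fn_ne hz hab h1 h2) (c := c) (s := S) (by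
    rw [hc, hS1, ← hs])
  rw [hS2, hS3] at h4
  unfold cK
  push_cast at h4 ⊢
  linarith

end ht

end Pool.Agent.KS6_58
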