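import Pool.Agent.KS6_58.Win

/-!
# The window theorem for arbitrary roots
-/

set_option autoImplicit false

namespace Pool.Agent.KS6_58

open Polynomial Pool.Agent.Y723.HJ Pool.Agent.H437R2.Man Height Height.AdmissibleAbsValues
  NumberField

section dat

variable {K : Type} [Field K] [NumberField K]

lemma clear_den (p : K[X]) : ∃ b : 𝓞 K, b ≠ 0 ∧ ∀ i, IsIntegral ℤ ((b : K) * p.coeff i) := by
  obtain ⟨b, hbM, hb⟩ := IsLocalization.integerNormalization_spec (nonZeroDivisors (𝓞 K)) p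
  refine ⟨b, nonZeroDivisors.ne_zero hbM, fun i => ?_⟩
  have h1 := congrArg (fun q => q.coeff i) hb
  simp only [coeff_map] at h1
  have h2 : algebraMap (𝓞 K) K ((IsLocalization.integerNormalization (nonZeroDivisors (𝓞 K)) p).coeff
      i) = (b : K) * p.coeff i := by
    rw [h1]
    erw [Polynomial.coeff_smul]
    exact Algebra.smul_def _ _
  rw [← h2]
  exact RingOfIntegers.isIntegral_coe _

theorem exists_dat {ι : Type} [Fintype ι] {r : ι → 𝓞 K} (hr : Function.Injective r) {g : ℕ}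
    (hc : Fintype.card ι = 2 * g + 1) (hg : 1 ≤ g) : ∃ R : ℝ, 1 ≤ R ∧ Dat (pfi r) g R := by
  classical
  obtain ⟨f, hf⟩ : ∃ f, f = pfi r := ⟨_, rfl⟩
  have hr' : Function.Injective (fun i => (r i : K)) := by
    intro i k h
    have h' : (r i : K) = r k := h
    exact hr (by exact_mod_cast h')
  have hmon : f.Monic := by
    rw [hf]
    exact monic_prod_of_monic _ _ fun i _ => monic_X_sub_C _
  have hdeg : f.natDegree = 2 * g + 1 := by rw [hf, pf_deg, hc]
  have hsep : f.Separable := by rw [hf]; exact separable_prod_X_sub_C_iff.2 hr'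
  have hint : ∀ i, IsIntegral ℤ (f.coeff i) := by
    intro i
    have : f = (∏ i, (X - C (r i)) : (𝓞 K)[X]).map (algebraMap (𝓞 K) K) := by
      rw [hf, Polynomial.map_prod]
      simp [pfi, pf]
    rw [this, coeff_map]
    exact RingOfIntegers.isIntegral_coe _
  obtain ⟨a, b, hab⟩ := hsep
  obtain ⟨f', hf'⟩ : ∃ f', f' = derivative f := ⟨_, rfl⟩
  have hf'd : f'.natDegree = 2 * g := by
    rw [hf', natDegree_derivative, hdeg]; rfl
  have hf'0 : f' ≠ 0 := by
    rintro rfl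
    rw [natDegree_zero] at hf'd
    omega
  rw [← hf'] at hab
  obtain ⟨a1, ha1⟩ : ∃ a1, a1 = a % f' := ⟨_, rfl⟩
  obtain ⟨b1, hb1⟩ : ∃ b1, b1 = b + (a / f') * f := ⟨_, rfl⟩
  have hab1 : a1 * f + b1 * f' = 1 := by
    have h1 := EuclideanDomain.div_add_mod a f'
    rw [ha1, hb1, ← hab]
    linear_combination f * h1
  have ha1d : a1.natDegree ≤ 2 * g - 1 := by
    by_cases h : a1 = 0
    · rw [h]; simp
    · have h1 : a1.degree < f'.degree := by rw [ha1]; exact EuclideanDomain.mod_lt a hf'0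
      have := natDegree_lt_natDegree h h1
      omega
  have hb1d : b1.natDegree ≤ 2 * g + 1 := by
    by_cases h : b1 = 0
    · rw [h]; simp
    · have h1 : (b1 * f').natDegree = b1.natDegree + f'.natDegree := natDegree_mul h hf'0
      have h2 : b1 * f' = 1 - a1 * f := by linear_combination hab1
      have h3 : (1 - a1 * f).natDegree ≤ 4 * g := by
        refine (natDegree_sub_le _ _).trans (max_le (by simp) ?_)
        have := natDegree_mul_le (p := a1) (q := f)
        omega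
      rw [h2] at h1
      omega
  obtain ⟨c1, hc10, hc1⟩ := clear_den a1
  obtain ⟨c2, hc20, hc2⟩ := clear_den b1
  obtain ⟨Δ, hΔ⟩ : ∃ Δ : K, Δ = (c1 : K) * c2 := ⟨_, rfl⟩
  have hc1K : (c1 : K) ≠ 0 := by exact_mod_cast hc10
  have hc2K : (c2 : K) ≠ 0 := by exact_mod_cast hc20
  have hΔ0 : Δ ≠ 0 := by rw [hΔ]; exact mul_ne_zero hc1K hc2K
  have hc1i : IsIntegral ℤ (c1 : K) := RingOfIntegers.isIntegral_coe _
  have hc2i : IsIntegral ℤ (c2 : K) := RingOfIntegers.isIntegral_coe _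
  obtain ⟨A, hA⟩ : ∃ A, A = C Δ * a1 := ⟨_, rfl⟩
  obtain ⟨B, hB⟩ : ∃ B, B = C Δ * b1 := ⟨_, rfl⟩
  obtain ⟨R, hR⟩ : ∃ R : ℝ, R = 1 + ∑ φ : K →+* ℂ,
      (L1 (f.map φ) + L1 (A.map φ) + L1 (B.map φ) + ‖φ Δ‖) := ⟨_, rfl⟩
  have hpos : ∀ φ : K →+* ℂ, 0 ≤ L1 (f.map φ) + L1 (A.map φ) + L1 (B.map φ) + ‖φ Δ‖ := by
    intro φ
    have := L1_nonneg (f.map φ)
    have := L1_nonneg (A.map φ)
    have := L1_nonneg (B.map φ)
    have := norm_nonneg (φ Δ)
    linarith
  have hRφ : ∀ φ : K →+* ℂ, L1 (f.map φ) + L1 (A.map φ) + L1 (B.map φ) + ‖φ Δ‖ ≤ R := by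
    intro φ
    have := Finset.single_le_sum (f := fun φ : K →+* ℂ =>
      L1 (f.map φ) + L1 (A.map φ) + L1 (B.map φ) + ‖φ Δ‖) (fun φ _ => hpos φ)
      (Finset.mem_univ φ)
    rw [hR]
    linarith
  refine ⟨R, ?_, ?_⟩
  · have := Finset.sum_nonneg (s := Finset.univ) fun (φ : K →+* ℂ) _ => hpos φ
    rw [hR]
    linarith
  · rw [← hf]
    refine ⟨hmon, hdeg, hint, fun φ => ?_, A, B, Δ, ?_, hΔ0, ?_, ?_, ?_, ?_, ?_, fun φ => ?_⟩
    · have := hRφ φ
      have := L1_nonneg (f.map φ)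
      have := L1_nonneg (A.map φ)
      have := L1_nonneg (B.map φ)
      have := norm_nonneg (φ Δ)
      linarith
    · rw [hA, hB, ← hf']
      linear_combination C Δ * hab1
    · rw [hΔ]; exact hc1i.mul hc2i
    · intro i
      rw [hA, coeff_C_mul, hΔ, mul_comm (c1 : K), mul_assoc]
      exact hc2i.mul (hc1 i)
    · intro i
      rw [hB, coeff_C_mul, hΔ, mul_assoc]
      exact hc1i.mul (hc2 i)
    · rw [hA, natDegree_C_mul hΔ0]; omega
    · rw [hB, natDegree_C_mul hΔ0]; omega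
    · have := hRφ φ
      have := L1_nonneg (f.map φ)
      have := L1_nonneg (A.map φ)
      have := L1_nonneg (B.map φ)
      have := norm_nonneg (φ Δ)
      exact ⟨by linarith, by linarith, by linarith⟩

/-- heights and multiplication by constants -/
lemma ht_mul_const {b : K} (hb : b ≠ 0) (x : K) :
    logHeight₁ (b * x) ≤ logHeight₁ x + logHeight₁ b ∧
      logHeight₁ x ≤ logHeight₁ (b * x) + logHeight₁ b := by
  constructor
  · have := logHeight₁_mul_le b x
    linarith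
  · have h1 := logHeight₁_mul_le b⁻¹ (b * x)
    rw [inv_mul_cancel_left₀ hb, logHeight₁_inv] at h1
    linarith

/-- **the window theorem for arbitrary distinct roots** -/
theorem window_gen {ι : Type} [Fintype ι] {r : ι → K} (hr : Function.Injective r) {g : ℕ}
    (hcard : Fintype.card ι = 2 * g + 1) (hg : 2 ≤ g) {c : ℝ} (hc : 1 ≤ c) :
    ∃ (H0 : ℝ) (B : ℕ), ∀ H : ℝ, H0 ≤ H → ∀ S : Finset K,
      (∀ x ∈ S, (∃ y, y ^ 2 = ∏ i, (x - r i)) ∧ H ≤ logHeight₁ x ∧ logHeight₁ x ≤ c * H) →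
      S.card ≤ B := by
  classical
  obtain ⟨b, hb⟩ := IsLocalization.exist_integer_multiples_of_finite (nonZeroDivisors (𝓞 K)) r
  have hb0 : ((b : 𝓞 K) : K) ≠ 0 := by
    have := nonZeroDivisors.ne_zero b.2
    exact_mod_cast this
  choose s hs using hb
  obtain ⟨β, hβ⟩ : ∃ β : K, β = ((b : 𝓞 K) : K) := ⟨_, rfl⟩
  rw [← hβ] at hb0
  have hs' : ∀ i, (s i : K) = β * r i := by
    intro i
    have := hs i
    rw [Algebra.smul_def] at this
    rw [hβ]
    exact this
  have hs2 : ∀ i, ((((b : 𝓞 K) * s i : 𝓞 K)) : K) = β ^ 2 * r i := by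
    intro i
    have h1 : ((((b : 𝓞 K) * s i : 𝓞 K)) : K) = ((b : 𝓞 K) : K) * (s i : K) := by
      exact map_mul (algebraMap (𝓞 K) K) _ _
    rw [h1, hs', ← hβ]
    ring
  have hinj : Function.Injective (fun i => (b : 𝓞 K) * s i) := by
    intro i k h
    have h' : (b : 𝓞 K) * s i = b * s k := h
    apply hr
    have h1 := hs2 i
    rw [h', hs2 k] at h1
    exact (mul_left_cancel₀ (pow_ne_zero 2 hb0) h1).symm
  obtain ⟨R, hR, hD⟩ := exists_dat hinj hcard (by omega)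
  have hHF : HF (pfi fun i => (b : 𝓞 K) * s i) := hD.hf
  obtain ⟨H0, B, hwin⟩ := window hinj hD hg hR (c := 2 * c) (by linarith)
  obtain ⟨Cb, hCb⟩ : ∃ Cb, Cb = logHeight₁ (β ^ 2) := ⟨_, rfl⟩
  have hCb0 : 0 ≤ Cb := by rw [hCb]; exact zero_le_logHeight₁ _
  refine ⟨max (H0 + Cb) (3 * Cb), B, fun H hH S hS => ?_⟩
  have hH1 : H0 + Cb ≤ H := (le_max_left _ _).trans hH
  have hH2 : 3 * Cb ≤ H := (le_max_right _ _).trans hH
  have hβ2 : β ^ 2 ≠ 0 := pow_ne_zero 2 hb0
  rw [← Finset.card_image_of_injective S (mul_right_injective₀ hβ2)]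
  apply hwin (H - Cb) (by linarith)
  intro x hx
  obtain ⟨t, ht, rfl⟩ := Finset.mem_image.1 hx
  obtain ⟨⟨y, hy⟩, h1, h2⟩ := hS t ht
  obtain ⟨h3, h4⟩ := ht_mul_const hβ2 t
  rw [← hCb] at h3 h4
  refine ⟨⟨β ^ (2 * g + 1) * y, ?_⟩, by linarith, by nlinarith⟩
  have e1 : (pfi fun i => (b : 𝓞 K) * s i).eval (β ^ 2 * t) = ∏ i, (β ^ 2 * t - β ^ 2 * r i) := by
    unfold pfi pf
    rw [eval_prod]
    apply Finset.prod_congr rfl
    intro i _
    rw [eval_sub, eval_X, eval_C]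
    congr 1
    exact hs2 i
  have e2 : ∏ i, (β ^ 2 * t - β ^ 2 * r i) = (β ^ 2) ^ (2 * g + 1) * ∏ i, (t - r i) := by
    rw [← hcard, ← Finset.card_univ, ← Finset.prod_const, ← Finset.prod_mul_distrib]
    apply Finset.prod_congr rfl
    intro i _
    ring
  show (β ^ (2 * g + 1) * y) ^ 2 = (pfi fun i => (b : 𝓞 K) * s i).eval (β ^ 2 * t)
  rw [e1, e2, mul_pow, hy, ← pow_mul, ← pow_mul, mul_comm 2 (2 * g + 1)]

end dat

section transfer

variable {K L : Type} [Field K] [NumberField K] [Field L] [NumberField L]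

/-- the window property of a set of elements -/
def WinP (P : K → Prop) : Prop := ∀ c : ℝ, 1 ≤ c → ∃ (H0 : ℝ) (B : ℕ), ∀ H : ℝ, H0 ≤ H →
  ∀ S : Finset K, (∀ x ∈ S, P x ∧ H ≤ logHeight₁ x ∧ logHeight₁ x ≤ c * H) → S.card ≤ B

theorem transfer {ι : Type} [Fintype ι] {r : ι → L} (hr : Function.Injective r) {g : ℕ}
    (hcard : Fintype.card ι = 2 * g + 1) (hg : 2 ≤ g) {P : K → Prop} (X : K → L)
    (hP : ∀ x, P x → ∃ y, y ^ 2 = ∏ i, (X x - r i)) {κ : ℕ}
    (hfib : ∀ (t : L) (S : Finset K), (∀ x ∈ S, P x ∧ X x = t) → S.card ≤ κ)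
    {α β C : ℝ} (hα : 0 < α) (hβ : 0 < β) (hC : 0 ≤ C)
    (hlow : ∀ x, P x → α * logHeight₁ x - C ≤ logHeight₁ (X x))
    (hup : ∀ x, P x → logHeight₁ (X x) ≤ β * logHeight₁ x + C) : WinP P := by
  classical
  intro c hc
  obtain ⟨c', hc'⟩ : ∃ c', c' = 2 * (β * c + 1) / α + 1 := ⟨_, rfl⟩
  have hc'1 : 1 ≤ c' := by
    rw [hc']
    have : 0 ≤ 2 * (β * c + 1) / α := by positivity
    linarith
  obtain ⟨H0, B, hwin⟩ := window_gen hr hcard hg hc'1
  refine ⟨max (2 * H0 / α) (max (2 * C / α) C), κ * B, fun H hH S hS => ?_⟩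
  have h1 : 2 * H0 / α ≤ H := (le_max_left _ _).trans hH
  have h2 : 2 * C / α ≤ H := (le_max_left _ _).trans ((le_max_right _ _).trans hH)
  have h3 : C ≤ H := (le_max_right _ _).trans ((le_max_right _ _).trans hH)
  rw [div_le_iff₀ hα] at h1 h2
  have himg : (S.image X).card ≤ B := by
    apply hwin (α * H / 2) (by linarith)
    intro t ht
    obtain ⟨x, hx, rfl⟩ := Finset.mem_image.1 ht
    obtain ⟨hPx, h4, h5⟩ := hS x hx
    refine ⟨hP x hPx, ?_, ?_⟩
    · have := hlow x hPx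
      have h6 : α * H ≤ α * logHeight₁ x := by gcongr
      linarith
    · have := hup x hPx
      have h6 : β * logHeight₁ x ≤ β * (c * H) := by gcongr
      have h7 : c' * (α * H / 2) = (β * c + 1) * H + α * H / 2 := by
        rw [hc']; field_simp
      have h8 : 0 ≤ α * H / 2 := by
        have : 0 ≤ H := hC.trans h3
        positivity
      rw [h7]
      nlinarith
  calc S.card ≤ κ * (S.image X).card := by
        apply Finset.card_le_mul_card_image
        intro t _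
        apply hfib t
        intro x hx
        rw [Finset.mem_filter] at hx
        exact ⟨(hS x hx.1).1, hx.2⟩
    _ ≤ κ * B := Nat.mul_le_mul_left _ himg

end transfer

end Pool.Agent.KS6_58
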