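import Mathlib

/-!
# Small relations in groups of finite rank
-/

set_option autoImplicit false

namespace Pool.Agent.KS6_58

open Module

/-- a finite family contains a basis of its span with respect to which all coordinates are
bounded by one -/
theorem exists_good_basis {V : Type} [AddCommGroup V] [Module ℚ V] {M : ℕ} (v : Fin M → V)
    (hspan : Submodule.span ℚ (Set.range v) = ⊤) :
    ∃ (r : ℕ) (f : Fin r → Fin M) (b : Basis (Fin r) ℚ V), (∀ i, b i = v (f i)) ∧
      ∀ j i, |b.repr (v j) i| ≤ 1 := by
  classical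
  have hfin : Module.Finite ℚ V := by
    refine ⟨⟨Finset.univ.image v, ?_⟩⟩
    rw [Finset.coe_image, Finset.coe_univ, Set.image_univ, hspan]
  obtain ⟨r, hr⟩ : ∃ r, r = finrank ℚ V := ⟨_, rfl⟩
  obtain ⟨e⟩ : Nonempty (Basis (Fin r) ℚ V) := by
    rw [hr]; exact ⟨finBasis ℚ V⟩
  -- a basis inside the family
  obtain ⟨f0, hf0⟩ : ∃ f0 : Fin r → Fin M, e.det (fun i => v (f0 i)) ≠ 0 := by
    obtain ⟨s, hs, hs2, hs3⟩ := exists_linearIndependent ℚ (Set.range v)
    rw [hspan] at hs2
    have hs4 : ⊤ ≤ Submodule.span ℚ (Set.range ((↑) : s → V)) := by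
      rw [Subtype.range_coe, hs2]
    let b := Basis.mk hs3 hs4
    have hsfin : Finite s := (Set.finite_range v).subset hs |>.to_subtype
    have : Fintype s := Fintype.ofFinite s
    have hcard : Fintype.card s = r := by rw [hr, finrank_eq_card_basis b]
    let eq : Fin r ≃ s := (Fintype.equivFinOfCardEq hcard).symm
    have h1 : ∀ i : Fin r, ∃ j, v j = (eq i : V) := fun i => hs (eq i).2
    choose f0 hf0 using h1
    refine ⟨f0, ?_⟩
    have h2 : (fun i => v (f0 i)) = (b.reindex eq.symm : Fin r → V) := by
      funext i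
      rw [hf0, Basis.reindex_apply, Equiv.symm_symm, Basis.mk_apply]
    rw [h2]
    exact (e.isUnit_det _).ne_zero
  -- the largest determinant
  obtain ⟨f, -, hf⟩ := Finset.exists_max_image (Finset.univ : Finset (Fin r → Fin M))
    (fun f => |e.det (fun i => v (f i))|) ⟨f0, Finset.mem_univ _⟩
  have hdet : e.det (fun i => v (f i)) ≠ 0 := by
    intro h0
    have := hf f0 (Finset.mem_univ _)
    rw [h0, abs_zero] at this
    exact hf0 (abs_eq_zero.1 (le_antisymm this (abs_nonneg _)))
  obtain ⟨hli, hsp⟩ := (e.is_basis_iff_det (v := fun i => v (f i))).2 hdet.isUnit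
  let b := Basis.mk hli hsp.ge
  refine ⟨r, f, b, fun i => Basis.mk_apply _ _ _, fun j i => ?_⟩
  have hb : ∀ i, b i = v (f i) := fun i => Basis.mk_apply _ _ _
  have h1 : e.det (Function.update (fun i => v (f i)) i (v j)) =
      b.repr (v j) i * e.det (fun i => v (f i)) := by
    have h2 : v j = ∑ k, b.repr (v j) k • v (f k) := by
      conv_lhs => rw [← b.sum_repr (v j)]
      simp only [hb]
    conv_lhs => rw [h2]
    rw [AlternatingMap.map_update_sum, Finset.sum_eq_single i]
    · rw [AlternatingMap.map_update_smul, Function.update_eq_self, smul_eq_mul]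
    · intro k _ hk
      rw [AlternatingMap.map_update_smul]
      have : e.det (Function.update (fun i => v (f i)) i (v (f k))) = 0 := by
        apply AlternatingMap.map_eq_zero_of_eq _ _ (i := i) (j := k) _ (Ne.symm hk)
        rw [Function.update_self, Function.update_of_ne hk]
      rw [this, smul_zero]
    · intro h; exact absurd (Finset.mem_univ _) h
  have h3 : Function.update (fun i => v (f i)) i (v j) = fun l => v (Function.update f i j l) := by
    funext l
    by_cases hl : l = i
    · subst hl
      rw [Function.update_self, Function.update_self]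
    · rw [Function.update_of_ne hl, Function.update_of_ne hl]
  have h4 := hf (Function.update f i j) (Finset.mem_univ _)
  rw [← h3, h1, abs_mul] at h4
  have h5 : 0 < |e.det (fun i => v (f i))| := abs_pos.2 hdet
  exact le_of_mul_le_mul_right (by rw [one_mul]; exact h4) h5

section

variable {G : Type} [CommGroup G] {M : ℕ}

/-- the integral relations -/
def Rel (c : Fin M → G) : AddSubgroup (Fin M → ℤ) where
  carrier := {n | ∏ i, c i ^ n i = 1}
  zero_mem' := by simp
  add_mem' := by
    intro a b ha hb
    simp only [Set.mem_ofPred_eq] at ha hb ⊢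
    simp only [Pi.add_apply, zpow_add, Finset.prod_mul_distrib]
    rw [ha, hb, mul_one]
  neg_mem' := by
    intro a ha
    simp only [Set.mem_ofPred_eq] at ha ⊢
    simp only [Pi.neg_apply, zpow_neg, Finset.prod_inv_distrib]
    rw [ha, inv_one]

/-- the rational relations -/
def RelQ (c : Fin M → G) : Submodule ℚ (Fin M → ℚ) :=
  Submodule.span ℚ {q | ∃ n ∈ Rel c, q = fun i => (n i : ℚ)}

lemma relQ_clear {c : Fin M → G} {q : Fin M → ℚ} (hq : q ∈ RelQ c) :
    ∃ (D : ℕ) (n : Fin M → ℤ), 0 < D ∧ n ∈ Rel c ∧ ∀ i, (n i : ℚ) = D * q i := by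
  unfold RelQ at hq
  induction hq using Submodule.span_induction with
  | mem q hq =>
    obtain ⟨n, hn, rfl⟩ := hq
    exact ⟨1, n, one_pos, hn, fun i => by simp⟩
  | zero => exact ⟨1, 0, one_pos, (Rel c).zero_mem, fun i => by simp⟩
  | add q q' _ _ ih ih' =>
    obtain ⟨D, n, hD, hn, h⟩ := ih
    obtain ⟨D', n', hD', hn', h'⟩ := ih'
    refine ⟨D * D', (D' : ℤ) • n + (D : ℤ) • n', Nat.mul_pos hD hD',
      (Rel c).add_mem ((Rel c).zsmul_mem hn _) ((Rel c).zsmul_mem hn' _), fun i => ?_⟩
    simp only [Pi.add_apply, Pi.smul_apply, smul_eq_mul]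
    push_cast
    rw [h i, h' i]
    ring
  | smul a q _ ih =>
    obtain ⟨D, n, hD, hn, h⟩ := ih
    refine ⟨D * a.den, a.num • n, Nat.mul_pos hD a.den_pos, (Rel c).zsmul_mem hn _, fun i => ?_⟩
    simp only [Pi.smul_apply, smul_eq_mul]
    push_cast
    rw [h i]
    have : (a.num : ℚ) = a * a.den := (Rat.mul_den_eq_num a).symm
    rw [this]
    ring

lemma zpow_sum' {κ : Type} (s : Finset κ) (a : G) (n : κ → ℤ) :
    a ^ (∑ k ∈ s, n k) = ∏ k ∈ s, a ^ n k := by
  classical
  induction s using Finset.induction_on with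
  | empty => simp
  | insert k s hk ih => rw [Finset.sum_insert hk, Finset.prod_insert hk, zpow_add, ih]

/-- **small relations** -/
theorem small_rel {N T : ℕ} (hT : 1 ≤ T) (c : Fin M → G)
    (hN : ∀ f : Fin N → Fin M, Function.Injective f →
      ∃ n : Fin N → ℤ, n ≠ 0 ∧ ∏ i, c (f i) ^ n i = 1)
    (hM : N + (2 * T + 1) ^ N < M) :
    ∃ (n : Fin M → ℤ) (j j' : Fin M) (D : ℕ), j ≠ j' ∧ 0 < D ∧ n j = D ∧ n j' = -D ∧
      (T : ℤ) * ∑ i ∈ (Finset.univ.erase j).erase j', |n i| ≤ N * D ∧
      ∏ i, c i ^ n i = 1 := by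
  classical
  let V := (Fin M → ℚ) ⧸ RelQ c
  let v : Fin M → V := fun i => (RelQ c).mkQ (Pi.single i 1)
  have hv : ∀ q : Fin M → ℚ, (RelQ c).mkQ q = ∑ i, q i • v i := by
    intro q
    conv_lhs => rw [← Finset.univ_sum_single q]
    rw [map_sum]
    apply Finset.sum_congr rfl
    intro i _
    rw [← map_smul]
    congr 1
    ext k
    by_cases h : k = i
    · subst h; simp
    · simp [h]
  have hspan : Submodule.span ℚ (Set.range v) = ⊤ := by
    rw [eq_top_iff]
    intro x _
    obtain ⟨q, rfl⟩ := (RelQ c).mkQ_surjective x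
    rw [hv]
    exact Submodule.sum_mem _ fun i _ =>
      Submodule.smul_mem _ _ (Submodule.subset_span (Set.mem_range_self i))
  obtain ⟨r, f, b, hb, hb1⟩ := exists_good_basis v hspan
  have hfinj : Function.Injective f := by
    intro i k h
    apply b.injective
    rw [hb, hb, h]
  -- the rank is small
  have hrN : r < N := by
    by_contra hc
    push Not at hc
    let g : Fin N → Fin r := Fin.castLE hc
    have hg : Function.Injective g := Fin.castLE_injective hc
    obtain ⟨n, hn0, hn⟩ := hN (fun i => f (g i)) (hfinj.comp hg)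
    apply hn0
    -- the relation in `V`
    let n' : Fin M → ℤ := fun i => ∑ k, if f (g k) = i then n k else 0
    have hn' : n' ∈ Rel c := by
      show ∏ i, c i ^ n' i = 1
      have h1 : ∀ i, c i ^ n' i = ∏ k, (if f (g k) = i then c i ^ n k else 1) := by
        intro i
        simp only [n']
        rw [zpow_sum']
        apply Finset.prod_congr rfl
        intro k _
        split_ifs <;> simp
      rw [Finset.prod_congr rfl fun i _ => h1 i, Finset.prod_comm]
      conv_rhs => rw [← hn]
      apply Finset.prod_congr rfl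
      intro k _
      rw [Finset.prod_ite_eq]
      simp
    have h2 : (RelQ c).mkQ (fun i => (n' i : ℚ)) = 0 := by
      rw [Submodule.mkQ_apply, Submodule.Quotient.mk_eq_zero]
      exact Submodule.subset_span ⟨n', hn', rfl⟩
    rw [hv] at h2
    have h3 : ∑ i, (n' i : ℚ) • v i = ∑ k, (n k : ℚ) • b (g k) := by
      simp only [n', Int.cast_sum, Finset.sum_smul]
      rw [Finset.sum_comm]
      apply Finset.sum_congr rfl
      intro k _
      rw [hb]
      have : ∀ i, ((if f (g k) = i then n k else 0 : ℤ) : ℚ) • v i =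
          if f (g k) = i then (n k : ℚ) • v i else 0 := by
        intro i
        split_ifs <;> simp
      rw [Finset.sum_congr rfl fun i _ => this i, Finset.sum_ite_eq]
      simp
    rw [h3] at h2
    have h4 := (b.linearIndependent.comp g hg)
    rw [Fintype.linearIndependent_iff] at h4
    funext k
    have := h4 (fun k => (n k : ℚ)) h2 k
    exact_mod_cast this
  -- the pigeonhole principle
  let S : Finset (Fin M) := Finset.univ \ Finset.univ.image f
  have hS : (2 * T + 1) ^ N < S.card := by
    have h1 : (Finset.univ.image f).card ≤ r := by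
      refine Finset.card_image_le.trans ?_
      rw [Finset.card_univ, Fintype.card_fin]
    have h2 : S.card = M - (Finset.univ.image f).card := by
      rw [Finset.card_sdiff_of_subset (Finset.subset_univ _), Finset.card_univ, Fintype.card_fin]
    omega
  let box : Fin M → (Fin r → ℤ) := fun j i => ⌊(T : ℚ) * b.repr (v j) i⌋
  let boxes : Finset (Fin r → ℤ) := Fintype.piFinset fun _ => Finset.Icc (-(T : ℤ)) T
  have hbox : ∀ j ∈ S, box j ∈ boxes := by
    intro j _
    rw [Fintype.mem_piFinset]
    intro i
    rw [Finset.mem_Icc]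
    have h1 := abs_le.1 (hb1 j i)
    have hTq : (1 : ℚ) ≤ T := by exact_mod_cast hT
    constructor
    · rw [Int.le_floor]
      push_cast
      nlinarith
    · have h2 : (⌊(T : ℚ) * b.repr (v j) i⌋ : ℚ) ≤ T := (Int.floor_le _).trans (by nlinarith)
      exact_mod_cast h2
  have hboxes : boxes.card ≤ (2 * T + 1) ^ N := by
    rw [Fintype.card_piFinset]
    simp only [Int.card_Icc, Finset.prod_const, Finset.card_univ, Fintype.card_fin]
    have : ((T : ℤ) + 1 - -T).toNat = 2 * T + 1 := by omega
    rw [this]
    exact Nat.pow_le_pow_right (by omega) hrN.le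
  obtain ⟨j, hj, j', hj', hjj', hbb⟩ := Finset.exists_ne_map_eq_of_card_lt_of_maps_to
    (hboxes.trans_lt hS) hbox
  -- the relation
  let ε : Fin r → ℚ := fun i => b.repr (v j) i - b.repr (v j') i
  have hε : ∀ i, |ε i| ≤ 1 / T := by
    intro i
    have hTq : (0 : ℚ) < T := by exact_mod_cast hT
    have h1 := congrFun hbb i
    simp only [box] at h1
    have h2 := Int.abs_sub_lt_one_of_floor_eq_floor h1
    rw [← mul_sub, abs_mul, abs_of_pos hTq] at h2
    rw [le_div_iff₀ hTq, mul_comm]
    exact h2.le
  let q : Fin M → ℚ := Pi.single j 1 - Pi.single j' 1 - ∑ i, ε i • Pi.single (f i) 1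
  have hq : q ∈ RelQ c := by
    rw [← Submodule.Quotient.mk_eq_zero, ← Submodule.mkQ_apply]
    simp only [q, map_sub, map_sum, map_smul]
    have h1 : ∀ k, (RelQ c).mkQ (Pi.single k 1) = v k := fun k => rfl
    simp only [h1]
    have h2 : ∑ i, ε i • v (f i) = v j - v j' := by
      have e1 := b.sum_repr (v j)
      have e2 := b.sum_repr (v j')
      simp only [hb] at e1 e2
      conv_rhs => rw [← e1, ← e2]
      rw [← Finset.sum_sub_distrib]
      apply Finset.sum_congr rfl
      intro i _
      rw [← sub_smul]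
    rw [h2, sub_self]
  obtain ⟨D, n, hD, hn, hnq⟩ := relQ_clear hq
  have hjf : ∀ i, f i ≠ j := by
    intro i h
    rw [Finset.mem_sdiff] at hj
    exact hj.2 (Finset.mem_image.2 ⟨i, Finset.mem_univ _, h⟩)
  have hjf' : ∀ i, f i ≠ j' := by
    intro i h
    rw [Finset.mem_sdiff] at hj'
    exact hj'.2 (Finset.mem_image.2 ⟨i, Finset.mem_univ _, h⟩)
  have hqj : q j = 1 := by
    simp only [q, Pi.sub_apply, Pi.single_eq_same, Finset.sum_apply, Pi.smul_apply]
    rw [Pi.single_eq_of_ne hjj', Finset.sum_eq_zero]
    · ring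
    · intro i _
      rw [Pi.single_eq_of_ne (Ne.symm (hjf i)), smul_zero]
  have hqj' : q j' = -1 := by
    simp only [q, Pi.sub_apply, Pi.single_eq_same, Finset.sum_apply, Pi.smul_apply]
    rw [Pi.single_eq_of_ne (Ne.symm hjj'), Finset.sum_eq_zero]
    · ring
    · intro i _
      rw [Pi.single_eq_of_ne (Ne.symm (hjf' i)), smul_zero]
  refine ⟨n, j, j', D, hjj', hD, ?_, ?_, ?_, hn⟩
  · have := hnq j
    rw [hqj, mul_one] at this
    exact_mod_cast this
  · have := hnq j'
    rw [hqj'] at this
    have h2 : (n j' : ℚ) = ((-D : ℤ) : ℚ) := by rw [this]; push_cast; ring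
    exact_mod_cast h2
  · have hTq : (0 : ℚ) < T := by exact_mod_cast hT
    have h1 : ∑ i ∈ (Finset.univ.erase j).erase j', |(n i : ℚ)| ≤ D * (N * (1 / T)) := by
      have h2 : ∀ i ∈ (Finset.univ.erase j).erase j', |(n i : ℚ)| ≤
          D * ∑ k, (if f k = i then |ε k| else 0) := by
        intro i hi
        rw [Finset.mem_erase, Finset.mem_erase] at hi
        rw [hnq i, abs_mul, Nat.abs_cast]
        apply mul_le_mul_of_nonneg_left _ (Nat.cast_nonneg _)
        have h3 : q i = -∑ k, ε k • (Pi.single (f k) (1 : ℚ) : Fin M → ℚ) i := by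
          simp only [q, Pi.sub_apply, Finset.sum_apply, Pi.smul_apply]
          rw [Pi.single_eq_of_ne hi.2.1, Pi.single_eq_of_ne hi.1]
          ring
        rw [h3, abs_neg]
        refine (Finset.abs_sum_le_sum_abs _ _).trans (Finset.sum_le_sum fun k _ => ?_)
        by_cases h : f k = i
        · subst h
          simp
        · rw [if_neg h, Pi.single_eq_of_ne (Ne.symm h), smul_zero, abs_zero]
      refine (Finset.sum_le_sum h2).trans ?_
      rw [← Finset.mul_sum]
      apply mul_le_mul_of_nonneg_left _ (Nat.cast_nonneg _)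
      rw [Finset.sum_comm]
      calc ∑ k, ∑ i ∈ (Finset.univ.erase j).erase j', (if f k = i then |ε k| else 0)
          ≤ ∑ _k : Fin r, (1 / T : ℚ) := by
            apply Finset.sum_le_sum
            intro k _
            rw [Finset.sum_ite_eq]
            split_ifs
            · exact hε k
            · positivity
        _ = r * (1 / T) := by
            rw [Finset.sum_const, Finset.card_univ, Fintype.card_fin, nsmul_eq_mul]
        _ ≤ N * (1 / T) := by
            have : (r : ℚ) ≤ N := by exact_mod_cast hrN.le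
            gcongr
    have h2 : (T : ℚ) * ∑ i ∈ (Finset.univ.erase j).erase j', |(n i : ℚ)| ≤ N * D := by
      calc (T : ℚ) * ∑ i ∈ (Finset.univ.erase j).erase j', |(n i : ℚ)|
          ≤ T * (D * (N * (1 / T))) := by gcongr
        _ = N * D := by field_simp
    exact_mod_cast h2

end

end Pool.Agent.KS6_58
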