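import Mathlib

/-!
# The sum of the absolute values of the coefficients of a complex polynomial, the Mahler measure,
and approximate square roots of polynomials of odd degree
-/

set_option autoImplicit false

namespace Pool.Agent.KS6_58

open Polynomial

/-- the sum of the absolute values of the coefficients -/
noncomputable def L1 (p : ℂ[X]) : ℝ := p.sum fun _ a => ‖a‖

lemma L1_range {p : ℂ[X]} {N : ℕ} (h : p.natDegree < N) : L1 p = ∑ i ∈ Finset.range N, ‖p.coeff i‖ :=
  Polynomial.sum_over_range' p (fun _ => norm_zero) N h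

lemma L1_nonneg (p : ℂ[X]) : 0 ≤ L1 p := by
  rw [L1_range (Nat.lt_succ_self _)]; positivity

lemma coeff_le_L1 (p : ℂ[X]) (i : ℕ) : ‖p.coeff i‖ ≤ L1 p := by
  rw [L1_range (p := p) (N := max i p.natDegree + 1) (by omega)]
  exact Finset.single_le_sum (f := fun i => ‖p.coeff i‖) (fun _ _ => norm_nonneg _)
    (Finset.mem_range.2 (by omega))

lemma L1_zero : L1 0 = 0 := by simp [L1]

lemma L1_add_le (p q : ℂ[X]) : L1 (p + q) ≤ L1 p + L1 q := by
  have h1 := natDegree_add_le p q
  rw [L1_range (p := p + q) (N := max p.natDegree q.natDegree + 1) (by omega),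
    L1_range (p := p) (N := max p.natDegree q.natDegree + 1) (by omega),
    L1_range (p := q) (N := max p.natDegree q.natDegree + 1) (by omega), ← Finset.sum_add_distrib]
  apply Finset.sum_le_sum
  intro i _
  rw [coeff_add]
  exact norm_add_le _ _

lemma L1_neg (p : ℂ[X]) : L1 (-p) = L1 p := by
  rw [L1_range (p := -p) (N := p.natDegree + 1) (by rw [natDegree_neg]; omega),
    L1_range (p := p) (Nat.lt_succ_self _)]
  simp

lemma L1_sub_le (p q : ℂ[X]) : L1 (p - q) ≤ L1 p + L1 q := by
  rw [sub_eq_add_neg, ← L1_neg q]; exact L1_add_le _ _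

lemma L1_C_mul (a : ℂ) (p : ℂ[X]) : L1 (C a * p) = ‖a‖ * L1 p := by
  rw [L1_range (p := C a * p) (N := p.natDegree + 1)
    ((natDegree_C_mul_le _ _).trans_lt (Nat.lt_succ_self _)),
    L1_range (p := p) (Nat.lt_succ_self _), Finset.mul_sum]
  simp

lemma L1_C (a : ℂ) : L1 (C a) = ‖a‖ := by
  rw [L1_range (p := C a) (N := 1) (by rw [natDegree_C]; omega)]
  simp

lemma L1_X_mul (p : ℂ[X]) : L1 (X * p) = L1 p := by
  rw [L1_range (p := X * p) (N := p.natDegree + 2)
    ((natDegree_mul_le).trans_lt (by rw [natDegree_X]; omega)),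
    L1_range (p := p) (Nat.lt_succ_self _), Finset.sum_range_succ']
  simp

lemma L1_X_pow_mul (p : ℂ[X]) (n : ℕ) : L1 (X ^ n * p) = L1 p := by
  induction n with
  | zero => simp
  | succ n ih => rw [pow_succ', mul_assoc, L1_X_mul, ih]

lemma L1_sum_le {ι : Type*} (s : Finset ι) (p : ι → ℂ[X]) :
    L1 (∑ i ∈ s, p i) ≤ ∑ i ∈ s, L1 (p i) := by
  classical
  induction s using Finset.induction_on with
  | empty => simp [L1_zero]
  | insert a s ha ih =>
    rw [Finset.sum_insert ha, Finset.sum_insert ha]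
    exact (L1_add_le _ _).trans (by gcongr)

lemma L1_mul_le (p q : ℂ[X]) : L1 (p * q) ≤ L1 p * L1 q := by
  conv_lhs => rw [p.as_sum_range_C_mul_X_pow, Finset.sum_mul]
  refine (L1_sum_le _ _).trans ?_
  rw [L1_range (p := p) (Nat.lt_succ_self _), Finset.sum_mul]
  apply Finset.sum_le_sum
  intro i _
  rw [mul_assoc, L1_C_mul, L1_X_pow_mul]

lemma norm_eval_le (p : ℂ[X]) (x : ℂ) : ‖p.eval x‖ ≤ L1 p * max 1 ‖x‖ ^ p.natDegree := by
  rw [eval_eq_sum_range, L1_range (p := p) (Nat.lt_succ_self _), Finset.sum_mul]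
  refine (norm_sum_le _ _).trans (Finset.sum_le_sum fun i hi => ?_)
  rw [norm_mul, norm_pow]
  gcongr
  rw [Finset.mem_range] at hi
  calc ‖x‖ ^ i ≤ max 1 ‖x‖ ^ i := by gcongr; exact le_max_right _ _
    _ ≤ _ := pow_le_pow_right₀ (le_max_left _ _) (by omega)

lemma L1_le_mahler (p : ℂ[X]) {d : ℕ} (h : p.natDegree ≤ d) : L1 p ≤ 2 ^ d * p.mahlerMeasure := by
  rw [L1_range (p := p) (Nat.lt_succ_self _)]
  calc ∑ i ∈ Finset.range (p.natDegree + 1), ‖p.coeff i‖
      ≤ ∑ i ∈ Finset.range (p.natDegree + 1), (p.natDegree.choose i : ℝ) * p.mahlerMeasure :=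
        Finset.sum_le_sum fun i _ => norm_coeff_le_choose_mul_mahlerMeasure i p
    _ = 2 ^ p.natDegree * p.mahlerMeasure := by
        rw [← Finset.sum_mul]
        congr 1
        exact_mod_cast Nat.sum_range_choose p.natDegree
    _ ≤ _ := by
        have := mahlerMeasure_nonneg p
        gcongr
        norm_num

lemma mahler_le_L1 (p : ℂ[X]) : p.mahlerMeasure ≤ L1 p := mahlerMeasure_le_sum_norm_coeff p

lemma mahler_neg (p : ℂ[X]) : (-p).mahlerMeasure = p.mahlerMeasure := by
  have : -p = C (-1) * p := by simp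
  rw [this, mahlerMeasure_mul, mahlerMeasure_const]
  simp

lemma mahler_comp_neg (p : ℂ[X]) : (p.comp (-X)).mahlerMeasure = p.mahlerMeasure := by
  have hs := (IsAlgClosed.splits p).eq_prod_roots
  rw [hs]
  rw [mul_comp, C_comp, mahlerMeasure_mul, mahlerMeasure_mul]
  congr 1
  generalize p.roots = s
  induction s using Multiset.induction_on with
  | empty => simp
  | cons a s ih =>
    rw [Multiset.map_cons, Multiset.prod_cons, mul_comp, mahlerMeasure_mul, mahlerMeasure_mul, ih]
    congr 1
    have : (X - C a).comp (-X) = -(X + C a) := by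
      simp only [sub_comp, X_comp, C_comp]; ring
    rw [this, mahler_neg, mahlerMeasure_X_add_C, mahlerMeasure_X_sub_C]

lemma L1_expand (p : ℂ[X]) : L1 (expand ℂ 2 p) = L1 p := by
  rw [L1_range (p := expand ℂ 2 p) (N := 2 * (p.natDegree + 1))
    (by rw [natDegree_expand]; omega), L1_range (p := p) (Nat.lt_succ_self _)]
  have : ∀ N, ∑ i ∈ Finset.range (2 * N), ‖(expand ℂ 2 p).coeff i‖ =
      ∑ i ∈ Finset.range N, ‖p.coeff i‖ := by
    intro N
    induction N with
    | zero => simp
    | succ N ih =>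
      rw [show 2 * (N + 1) = 2 * N + 1 + 1 by ring, Finset.sum_range_succ, Finset.sum_range_succ,
        Finset.sum_range_succ, ih]
      have e1 : (expand ℂ 2 p).coeff (2 * N) = p.coeff N := by
        rw [mul_comm, coeff_expand_mul (by norm_num)]
      have e2 : (expand ℂ 2 p).coeff (2 * N + 1) = 0 := by
        rw [coeff_expand (by norm_num), if_neg (by omega)]
      rw [e1, e2, norm_zero, add_zero]
  exact this _

lemma L1_reflect (p : ℂ[X]) (N : ℕ) : L1 (reflect N p) = L1 p := by
  unfold L1 Polynomial.sum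
  rw [reflect_support, Finset.sum_image]
  · apply Finset.sum_congr rfl
    intro i _
    rw [coeff_reflect, revAt_invol]
  · intro a _ b _ h
    exact (revAt N).injective h

/-! ### Square roots -/

/-- an approximate square root of a power series with small coefficients -/
lemma exists_sqrt_aux {c : ℕ → ℂ} {E : ℝ} (hE : 0 ≤ E) (hc : ∀ j, 1 ≤ j → ‖c j‖ ≤ E ^ j) (k : ℕ) :
    ∃ P : ℂ[X], P.natDegree ≤ k ∧ P.coeff 0 = 0 ∧
      (∀ m, 1 ≤ m → m ≤ k → 2 * P.coeff m + (P ^ 2).coeff m = c m) ∧
      ∀ j, ‖P.coeff (j + 1)‖ ≤ catalan j * E ^ (j + 1) := by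
  induction k with
  | zero =>
    refine ⟨0, by simp, by simp, fun m h1 h2 => by omega, fun j => ?_⟩
    simp only [coeff_zero, norm_zero]
    positivity
  | succ k ih =>
    obtain ⟨P, h1, h2, h3, h4⟩ := ih
    have h5 : P.coeff (k + 1) = 0 := coeff_eq_zero_of_natDegree_lt (by omega)
    obtain ⟨t, ht⟩ : ∃ t, t = (c (k + 1) - (P ^ 2).coeff (k + 1)) / 2 := ⟨_, rfl⟩
    have e2 : (P + C t * X ^ (k + 1)) ^ 2 = P ^ 2 + X ^ (k + 1) * (C (2 * t) * P) +
        X ^ (k + 1) * (C (t ^ 2) * X ^ (k + 1)) := by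
      simp only [C_mul, C_pow, map_ofNat]
      ring
    have e3 : ∀ m, m ≤ k + 1 → ((P + C t * X ^ (k + 1)) ^ 2).coeff m = (P ^ 2).coeff m := by
      intro m hm
      rw [e2, coeff_add, coeff_add, coeff_X_pow_mul', coeff_X_pow_mul']
      split_ifs with h
      · have : m = k + 1 := by omega
        rw [this, Nat.sub_self, coeff_C_mul, coeff_C_mul, h2]
        simp
      · ring
    have e4 : ∀ m, (P + C t * X ^ (k + 1)).coeff m = P.coeff m + if m = k + 1 then t else 0 := by
      intro m
      rw [coeff_add, coeff_C_mul, coeff_X_pow]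
      split_ifs <;> simp
    -- the bound for the square
    have h6 : ‖(P ^ 2).coeff (k + 1)‖ ≤ catalan k * E ^ (k + 1) := by
      rw [pow_two, coeff_mul]
      refine (norm_sum_le _ _).trans ?_
      cases k with
      | zero =>
        rw [zero_add, Finset.Nat.antidiagonal_succ]
        simp [h2]
        positivity
      | succ k =>
        rw [Finset.Nat.antidiagonal_succ_succ', Finset.sum_cons, Finset.sum_cons, Finset.sum_map]
        simp only [h2, zero_mul, norm_zero, mul_zero, zero_add]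
        rw [catalan_succ', Nat.cast_sum, Finset.sum_mul]
        apply Finset.sum_le_sum
        intro x hx
        rw [Finset.HasAntidiagonal.mem_antidiagonal] at hx
        simp only [Function.Embedding.prodMap, Function.Embedding.coeFn_mk, Prod.map]
        rw [norm_mul]
        calc ‖P.coeff (Nat.succ x.1)‖ * ‖P.coeff (Nat.succ x.2)‖
            ≤ (catalan x.1 * E ^ (x.1 + 1)) * (catalan x.2 * E ^ (x.2 + 1)) := by
              have := h4 x.1
              have := h4 x.2
              gcongr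
          _ = _ := by
              rw [← hx]
              push_cast
              ring
    refine ⟨P + C t * X ^ (k + 1), ?_, ?_, ?_, ?_⟩
    · refine (natDegree_add_le _ _).trans (max_le (by omega) (natDegree_C_mul_X_pow_le _ _))
    · rw [e4, h2, if_neg (by omega), add_zero]
    · intro m hm1 hm2
      rw [e3 m hm2, e4]
      rcases Nat.lt_or_ge m (k + 1) with h | h
      · rw [if_neg (by omega), add_zero]
        exact h3 m hm1 (by omega)
      · have : m = k + 1 := by omega
        rw [this, if_pos rfl, h5, ht]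
        ring
    · intro j
      rw [e4]
      split_ifs with h
      · have : j = k := by omega
        rw [this, h5, zero_add, ht, norm_div]
        have h7 : ‖(2 : ℂ)‖ = 2 := by simp
        rw [h7, div_le_iff₀ (by norm_num)]
        refine (norm_sub_le _ _).trans ?_
        have h8 := hc (k + 1) (by omega)
        have h9 : E ^ (k + 1) ≤ catalan k * E ^ (k + 1) := by
          have : (1 : ℝ) ≤ catalan k := by
            have h10 : 1 ≤ catalan k := by
              rw [Nat.one_le_iff_ne_zero]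
              intro h0
              have := succ_mul_catalan_eq_centralBinom k
              rw [h0, mul_zero] at this
              exact (Nat.centralBinom_ne_zero k) this.symm
            exact_mod_cast h10
          exact le_mul_of_one_le_left (by positivity) this
        linarith
      · rw [add_zero]; exact h4 j

lemma catalan_le (n : ℕ) : (catalan n : ℝ) ≤ 4 ^ n := by
  have h1 : catalan n ≤ 4 ^ n := by
    rw [catalan_eq_centralBinom_div]
    refine (Nat.div_le_self _ _).trans ?_
    rw [Nat.centralBinom_eq_two_mul_choose]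
    calc (2 * n).choose n ≤ 2 ^ (2 * n) := Nat.choose_le_two_pow _ _
      _ = 4 ^ n := by rw [pow_mul]; norm_num
  exact_mod_cast h1

/-- an approximate square root of `X ^ (2 k - n) f`, `f` with small lower coefficients -/
theorem exists_sqrt {f : ℂ[X]} {n k : ℕ} (hf : f.Monic) (hn : f.natDegree = n)
    (hc : ∀ j, 1 ≤ j → j ≤ n → ‖f.coeff (n - j)‖ ≤ (1 / 4 ^ 6) ^ j) (hk : n ≤ k) :
    ∃ T E : ℂ[X], T.natDegree ≤ k ∧ X ^ (2 * k - n) * f = T ^ 2 + E ∧
      L1 E ≤ 2 ^ k * (1 / 2 ^ 9) ^ (k + 1) ∧ L1 (T - X ^ k) ≤ 1 / 2 := by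
  obtain ⟨F, hF⟩ : ∃ F, F = reflect n f := ⟨_, rfl⟩
  have hF0 : F.coeff 0 = 1 := by
    rw [hF, coeff_reflect, revAt_zero, ← hn]
    exact hf.coeff_natDegree
  have hFd : F.natDegree ≤ n := by
    rw [hF]
    refine natDegree_reflect_le.trans ?_
    rw [hn, max_self]
  have hFc : ∀ j, 1 ≤ j → ‖F.coeff j‖ ≤ (1 / 4 ^ 6) ^ j := by
    intro j hj
    rcases Nat.lt_or_ge n j with h | h
    · rw [coeff_eq_zero_of_natDegree_lt (by omega), norm_zero]
      positivity
    · rw [hF, coeff_reflect, revAt_le h]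
      exact hc j hj h
  obtain ⟨P, hP1, hP2, hP3, hP4⟩ := exists_sqrt_aux (c := fun j => F.coeff j)
    (E := 1 / 4 ^ 6) (by positivity) hFc k
  have hb : ∀ j, ‖P.coeff (j + 1)‖ ≤ (1 / 4 ^ 5 : ℝ) ^ (j + 1) := by
    intro j
    refine (hP4 j).trans ?_
    calc (catalan j : ℝ) * (1 / 4 ^ 6) ^ (j + 1) ≤ 4 ^ j * (1 / 4 ^ 6) ^ (j + 1) := by
          gcongr
          exact catalan_le j
      _ ≤ 4 ^ (j + 1) * (1 / 4 ^ 6) ^ (j + 1) := by
          gcongr
          · norm_num
          · omega
      _ = _ := by rw [← mul_pow]; norm_num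
  have hb' : ∀ j, ‖(1 + P).coeff j‖ ≤ (1 / 4 ^ 5 : ℝ) ^ j := by
    intro j
    cases j with
    | zero => rw [coeff_add, hP2, coeff_one_zero]; simp
    | succ j =>
      rw [coeff_add, coeff_one, if_neg (by omega), zero_add]
      exact hb j
  have hb2 : ∀ m, ‖((1 + P) ^ 2).coeff m‖ ≤ (1 / 2 ^ 9 : ℝ) ^ m := by
    intro m
    rw [pow_two, coeff_mul]
    refine (norm_sum_le _ _).trans ?_
    calc ∑ x ∈ Finset.HasAntidiagonal.antidiagonal m, ‖(1 + P).coeff x.1 * (1 + P).coeff x.2‖
        ≤ ∑ x ∈ Finset.HasAntidiagonal.antidiagonal m, (1 / 4 ^ 5 : ℝ) ^ m := by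
          apply Finset.sum_le_sum
          intro x hx
          rw [Finset.HasAntidiagonal.mem_antidiagonal] at hx
          rw [norm_mul]
          calc ‖(1 + P).coeff x.1‖ * ‖(1 + P).coeff x.2‖
              ≤ (1 / 4 ^ 5 : ℝ) ^ x.1 * (1 / 4 ^ 5 : ℝ) ^ x.2 := by
                have := hb' x.1
                have := hb' x.2
                gcongr
            _ = _ := by rw [← pow_add, hx]
      _ = (m + 1 : ℕ) * (1 / 4 ^ 5 : ℝ) ^ m := by
          rw [Finset.sum_const, Finset.Nat.card_antidiagonal, nsmul_eq_mul]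
      _ ≤ 2 ^ m * (1 / 4 ^ 5 : ℝ) ^ m := by
          have h1 : m + 1 ≤ 2 ^ m := Nat.lt_two_pow_self
          have : ((m + 1 : ℕ) : ℝ) ≤ 2 ^ m := by exact_mod_cast h1
          gcongr
      _ = _ := by rw [← mul_pow]; norm_num
  have hd2 : ((1 + P) ^ 2).natDegree ≤ 2 * k := by
    refine natDegree_pow_le.trans ?_
    have : (1 + P).natDegree ≤ k := (natDegree_add_le _ _).trans (max_le (by simp) hP1)
    omega
  have hzero : ∀ m, m ≤ k → (F - (1 + P) ^ 2).coeff m = 0 := by
    intro m hm
    have e1 : (1 + P) ^ 2 = 1 + C 2 * P + P ^ 2 := by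
      rw [map_ofNat]; ring
    rw [coeff_sub, e1, coeff_add, coeff_add, coeff_C_mul]
    rcases Nat.eq_zero_or_pos m with h | h
    · subst h
      rw [hF0, hP2, coeff_one_zero, pow_two, mul_coeff_zero, hP2]
      ring
    · rw [coeff_one, if_neg (by omega)]
      linear_combination -hP3 m h hm
  obtain ⟨Er, hEr⟩ : ∃ Er, Er = F - (1 + P) ^ 2 := ⟨_, rfl⟩
  have hErd : Er.natDegree ≤ 2 * k := by
    rw [hEr]
    exact (natDegree_sub_le _ _).trans (max_le (by omega) hd2)
  have hErL : L1 Er ≤ 2 ^ k * (1 / 2 ^ 9) ^ (k + 1) := by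
    rw [L1_range (p := Er) (N := (k + 1) + k) (by omega), Finset.sum_range_add]
    have e1 : ∑ x ∈ Finset.range (k + 1), ‖Er.coeff x‖ = 0 := by
      apply Finset.sum_eq_zero
      intro x hx
      rw [Finset.mem_range] at hx
      rw [hEr, hzero x (by omega), norm_zero]
    rw [e1, zero_add]
    calc ∑ x ∈ Finset.range k, ‖Er.coeff (k + 1 + x)‖
        ≤ ∑ x ∈ Finset.range k, (1 / 2 ^ 9 : ℝ) ^ (k + 1) := by
          apply Finset.sum_le_sum
          intro x _
          rw [hEr, coeff_sub, coeff_eq_zero_of_natDegree_lt (by omega), zero_sub, norm_neg]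
          refine (hb2 _).trans ?_
          apply pow_le_pow_of_le_one (by positivity) (by norm_num) (by omega)
      _ = k * (1 / 2 ^ 9 : ℝ) ^ (k + 1) := by
          rw [Finset.sum_const, Finset.card_range, nsmul_eq_mul]
      _ ≤ _ := by
          have h1 : k ≤ 2 ^ k := Nat.lt_two_pow_self.le
          have : (k : ℝ) ≤ 2 ^ k := by exact_mod_cast h1
          gcongr
  refine ⟨reflect k (1 + P), reflect (2 * k) Er, ?_, ?_, ?_, ?_⟩
  · refine natDegree_reflect_le.trans (max_le le_rfl ?_)
    exact (natDegree_add_le _ _).trans (max_le (by simp) hP1)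
  · have e1 : reflect (2 * k) F = X ^ (2 * k - n) * f := by
      have h1 : reflect ((2 * k - n) + n) (X ^ (2 * k - n) * f) =
          reflect (2 * k - n) (X ^ (2 * k - n)) * reflect n f :=
        reflect_mul _ _ (natDegree_X_pow_le _) hn.le
      rw [show 2 * k - n + n = 2 * k by omega, reflect_monomial, revAt_le le_rfl, Nat.sub_self,
        pow_zero, one_mul, ← hF] at h1
      rw [← h1, reflect_reflect]
    have e2 : reflect (2 * k) ((1 + P) ^ 2) = reflect k (1 + P) ^ 2 := by
      have hdP : (1 + P).natDegree ≤ k := (natDegree_add_le _ _).trans (max_le (by simp) hP1)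
      rw [pow_two, pow_two, two_mul, reflect_mul _ _ hdP hdP]
    have e3 : F = (1 + P) ^ 2 + Er := by rw [hEr]; ring
    rw [← e1, ← e2, ← reflect_add, ← e3]
  · rw [L1_reflect]; exact hErL
  · have e1 : reflect k (1 + P) - X ^ k = reflect k P := by
      rw [reflect_add, reflect_one]; ring
    rw [e1, L1_reflect, L1_range (p := P) (N := k + 1) (by omega), Finset.sum_range_succ', hP2,
      norm_zero, add_zero]
    have h2 : ∀ N : ℕ, ∑ j ∈ Finset.range N, (1 / 2 : ℝ) ^ (j + 2) = 1 / 2 - (1 / 2) ^ (N + 1) := by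
      intro N
      induction N with
      | zero => norm_num
      | succ N ih => rw [Finset.sum_range_succ, ih]; ring
    calc ∑ j ∈ Finset.range k, ‖P.coeff (j + 1)‖ ≤ ∑ j ∈ Finset.range k, (1 / 2 : ℝ) ^ (j + 2) := by
          apply Finset.sum_le_sum
          intro j _
          refine (hb j).trans ?_
          calc (1 / 4 ^ 5 : ℝ) ^ (j + 1) ≤ (1 / 4) ^ (j + 1) := by gcongr; norm_num
            _ = (1 / 2) ^ (2 * (j + 1)) := by rw [pow_mul]; norm_num
            _ ≤ _ := pow_le_pow_of_le_one (by norm_num) (by norm_num) (by omega)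
      _ ≤ 1 / 2 := by
          rw [h2]
          have : (0 : ℝ) ≤ (1 / 2) ^ (k + 1) := by positivity
          linarith

end Pool.Agent.KS6_58
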