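import Pool.Agent.KS6_58.Gen

/-!
# The window theorem for superelliptic conditions

If all the ratios `(l - e j) / (l - e k)` are `n`-th powers up to finitely many constants
(`n ≥ 4` distinct points `e j`), then `l` gives a point on one of finitely many hyperelliptic curves
of genus at least two.
-/

set_option autoImplicit false

namespace Pool.Agent.KS6_58

open Polynomial Height Height.AdmissibleAbsValues NumberField

/-- a number field in which the `n`-th roots of finitely many elements exist -/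
theorem exists_ext {K : Type} [Field K] [NumberField K] {n : ℕ} (hn : 0 < n) (F : Finset K) :
    ∃ (L : Type) (_ : Field L) (_ : Algebra K L) (_ : NumberField L),
      ∀ f ∈ F, ((X ^ n - C f : K[X]).map (algebraMap K L)).Splits := by
  obtain ⟨Q, hQ⟩ : ∃ Q : K[X], Q = ∏ f ∈ F, (X ^ n - C f) := ⟨_, rfl⟩
  have hQ0 : Q ≠ 0 := by
    rw [hQ, Finset.prod_ne_zero_iff]
    exact fun f _ => X_pow_sub_C_ne_zero hn f
  obtain ⟨L, hF, hA, hchar, hfin, hsp⟩ : ∃ (L : Type) (_ : Field L) (_ : Algebra K L)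
      (_ : CharZero L), Module.Finite K L ∧ (Q.map (algebraMap K L)).Splits :=
    ⟨Q.SplittingField, inferInstance, inferInstance,
      charZero_of_injective_algebraMap (algebraMap K Q.SplittingField).injective,
      inferInstance, SplittingField.splits Q⟩
  have hNF : NumberField L :=
    { to_charZero := inferInstance
      to_finiteDimensional := Module.Finite.trans K L }
  refine ⟨L, hF, hA, hNF, fun f hf => ?_⟩
  apply hsp.of_dvd ((Polynomial.map_ne_zero_iff (algebraMap K L).injective).2 hQ0)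
  apply Polynomial.map_dvd
  rw [hQ]
  exact Finset.dvd_prod_of_mem _ hf

lemma exists_root {K L : Type} [Field K] [Field L] [Algebra K L] {n : ℕ} (hn : 0 < n) {f : K}
    (h : ((X ^ n - C f : K[X]).map (algebraMap K L)).Splits) : ∃ a : L, a ^ n = algebraMap K L f := by
  have hmap : ((X ^ n - C f : K[X]).map (algebraMap K L)) = X ^ n - C (algebraMap K L f) := by simp
  rw [hmap] at h
  obtain ⟨a, ha⟩ := h.exists_eval_eq_zero (by
    rw [degree_X_pow_sub_C hn]
    exact_mod_cast hn.ne')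
  refine ⟨a, ?_⟩
  rw [eval_sub, eval_pow, eval_X, eval_C, sub_eq_zero] at ha
  exact ha

/-- `X ^ n + 1` as a product of distinct linear factors -/
lemma exists_unit_roots {K L : Type} [Field K] [Field L] [Algebra K L] [CharZero L] {n : ℕ}
    (hn : 0 < n) (h : ((X ^ n - C (-1) : K[X]).map (algebraMap K L)).Splits) :
    ∃ r : Fin n → L, Function.Injective r ∧ ∀ x : L, ∏ i, (x - r i) = x ^ n + 1 := by
  classical
  obtain ⟨Q, hQ⟩ : ∃ Q : L[X], Q = X ^ n - C (-1) := ⟨_, rfl⟩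
  have hmap : ((X ^ n - C (-1) : K[X]).map (algebraMap K L)) = Q := by rw [hQ]; simp
  rw [hmap] at h
  have hmon : Q.Monic := by rw [hQ]; exact monic_X_pow_sub_C _ hn.ne'
  have hsep : Q.Separable := by
    rw [hQ]
    exact separable_X_pow_sub_C _ (by exact_mod_cast hn.ne') (by simp)
  have hnd : Q.roots.Nodup := nodup_roots hsep
  have hcard : Multiset.card Q.roots = n := by
    rw [← h.natDegree_eq_card_roots, hQ, natDegree_X_pow_sub_C]
  have hcard2 : Fintype.card {x // x ∈ Q.roots.toFinset} = n := by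
    rw [Fintype.card_coe, Multiset.toFinset_card_of_nodup hnd, hcard]
  obtain ⟨eqv⟩ : Nonempty (Fin n ≃ {x // x ∈ Q.roots.toFinset}) :=
    ⟨(Fintype.equivFinOfCardEq hcard2).symm⟩
  refine ⟨fun i => (eqv i : L), fun i j hij => eqv.injective (Subtype.ext hij), fun x => ?_⟩
  have h1 : ∏ i, (x - (eqv i : L)) = ∏ a : {x // x ∈ Q.roots.toFinset}, (x - (a : L)) :=
    Equiv.prod_comp eqv (fun a => x - (a : L))
  rw [h1, Finset.prod_coe_sort Q.roots.toFinset (fun a => x - a)]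
  have h2 := h.eq_prod_roots
  rw [hmon.leadingCoeff, C_1, one_mul] at h2
  have h3 : Q.eval x = (Q.roots.map fun a => x - a).prod := by
    conv_lhs => rw [h2]
    rw [eval_multiset_prod, Multiset.map_map]
    congr 1
    apply Multiset.map_congr rfl
    intro a _
    simp
  have h4 : ∏ a ∈ Q.roots.toFinset, (x - a) = (Q.roots.map fun a => x - a).prod := by
    rw [Finset.prod, Multiset.toFinset_val, Multiset.dedup_eq_self.2 hnd]
  rw [h4, ← h3, hQ]
  simp

section ht

variable {K : Type} [Field K] [NumberField K]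

lemma ht_nn (x : K) : 0 ≤ logHeight₁ x := zero_le_logHeight₁ _

/-- heights of affine functions -/
lemma ht_aff (a b x : K) : logHeight₁ (a * x + b) ≤ logHeight₁ x +
    (logHeight₁ a + logHeight₁ b + totalWeight K * Real.log 2) := by
  have h1 := logHeight₁_add_le (a * x) b
  have h2 := logHeight₁_mul_le a x
  linarith

/-- heights of fractional linear functions -/
lemma ht_mob (a b c d : K) : ∃ C : ℝ, 0 ≤ C ∧ ∀ x : K,
    logHeight₁ ((a * x + b) / (c * x + d)) ≤ 2 * logHeight₁ x + C := by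
  have hlog : 0 ≤ (totalWeight K : ℝ) * Real.log 2 := by positivity
  refine ⟨(logHeight₁ a + logHeight₁ b + totalWeight K * Real.log 2) +
    (logHeight₁ c + logHeight₁ d + totalWeight K * Real.log 2), ?_, fun x => ?_⟩
  · have := ht_nn a
    have := ht_nn b
    have := ht_nn c
    have := ht_nn d
    linarith
  · rw [div_eq_mul_inv]
    have h1 := logHeight₁_mul_le (a * x + b) (c * x + d)⁻¹
    rw [logHeight₁_inv] at h1
    have h2 := ht_aff a b x
    have h3 := ht_aff c d x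
    linarith

/-- the ratio `(l - a) / (l - b)` and the height -/
lemma ht_ratio {a b : K} (hab : a ≠ b) : ∃ C : ℝ, 0 ≤ C ∧ ∀ l : K, l ≠ b →
    logHeight₁ ((l - a) / (l - b)) ≤ 2 * logHeight₁ l + C ∧
    logHeight₁ l ≤ 2 * logHeight₁ ((l - a) / (l - b)) + C := by
  obtain ⟨C1, hC1, h1⟩ := ht_mob 1 (-a) 1 (-b)
  obtain ⟨C2, hC2, h2⟩ := ht_mob (-b) a (-1) 1
  refine ⟨C1 + C2, by linarith, fun l hl => ⟨?_, ?_⟩⟩
  · have := h1 l
    rw [one_mul, ← sub_eq_add_neg, ← sub_eq_add_neg] at this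
    linarith
  · have hlb : l - b ≠ 0 := sub_ne_zero.2 hl
    have := h2 ((l - a) / (l - b))
    have e : (-b * ((l - a) / (l - b)) + a) / (-1 * ((l - a) / (l - b)) + 1) = l := by
      have e1 : -b * ((l - a) / (l - b)) + a = l * (a - b) / (l - b) := by
        field_simp; ring
      have e2 : -1 * ((l - a) / (l - b)) + 1 = (a - b) / (l - b) := by
        field_simp; ring
      have hab' : a - b ≠ 0 := sub_ne_zero.2 hab
      rw [e1, e2]
      field_simp
    rw [e] at this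
    linarith

end ht

section transfer2

variable {K L : Type} [Field K] [NumberField K] [Field L] [NumberField L] [Algebra K L]

theorem transfer2 {ι : Type} [Fintype ι] {r : ι → L} (hr : Function.Injective r) {g : ℕ}
    (hcard : Fintype.card ι = 2 * g + 1) (hg : 2 ≤ g) {P : K → Prop} (ρ : K → K) {m : ℕ}
    (hm : 0 < m) (hP : ∀ l, P l → ∃ X y : L, X ^ m = algebraMap K L (ρ l) ∧ y ^ 2 = ∏ i, (X - r i))
    {κ : ℕ} (hfib : ∀ (t : K) (S : Finset K), (∀ l ∈ S, P l ∧ ρ l = t) → S.card ≤ κ)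
    {a b C : ℝ} (ha : 0 < a) (hb : 0 < b) (hC : 0 ≤ C)
    (hlow : ∀ l, P l → a * logHeight₁ l - C ≤ logHeight₁ (ρ l))
    (hup : ∀ l, P l → logHeight₁ (ρ l) ≤ b * logHeight₁ l + C) : WinP P := by
  classical
  have hfin : Module.Finite K L := Module.Finite.of_restrictScalars_finite ℚ K L
  obtain ⟨D, hD⟩ : ∃ D : ℝ, D = Module.finrank K L := ⟨_, rfl⟩
  have hD0 : 0 < D := by
    rw [hD]
    exact_mod_cast Module.finrank_pos
  have hP' : ∀ l, ∃ X : L, P l → (X ^ m = algebraMap K L (ρ l) ∧ ∃ y : L, y ^ 2 = ∏ i, (X - r i)) := by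
    intro l
    by_cases h : P l
    · obtain ⟨X, y, h1, h2⟩ := hP l h
      exact ⟨X, fun _ => ⟨h1, y, h2⟩⟩
    · exact ⟨0, fun h' => absurd h' h⟩
  choose X hX using hP'
  have hm' : (0 : ℝ) < m := by exact_mod_cast hm
  have hht : ∀ l, P l → m * logHeight₁ (X l) = D * logHeight₁ (ρ l) := by
    intro l hl
    rw [← logHeight₁_pow, (hX l hl).1, ht_rel, hD]
  refine transfer (κ := κ) hr hcard hg X (fun l hl => (hX l hl).2) ?_ (α := D * a / m)
    (β := D * b / m) (C := D * C / m) (by positivity) (by positivity) (by positivity) ?_ ?_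
  · intro t S hS
    rcases S.eq_empty_or_nonempty with rfl | ⟨l0, hl0⟩
    · simp
    · apply hfib (ρ l0) S
      intro l hl
      refine ⟨(hS l hl).1, ?_⟩
      apply (algebraMap K L).injective
      rw [← (hX l (hS l hl).1).1, ← (hX l0 (hS l0 hl0).1).1, (hS l hl).2, (hS l0 hl0).2]
  · intro l hl
    have h1 := hht l hl
    have h2 := hlow l hl
    have e : D * a / m * logHeight₁ l - D * C / m = D * (a * logHeight₁ l - C) / m := by ring
    rw [e, div_le_iff₀ hm', mul_comm _ (m : ℝ), h1]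
    gcongr
  · intro l hl
    have h1 := hht l hl
    have h2 := hup l hl
    have e : D * b / m * logHeight₁ l + D * C / m = D * (b * logHeight₁ l + C) / m := by ring
    rw [e, le_div_iff₀ hm', mul_comm _ (m : ℝ), h1]
    gcongr

end transfer2

section cases

variable {K : Type} [Field K] [NumberField K]

/-- the condition on the ratios -/
def RatP {n : ℕ} (e : Fin n → K) (T : Finset K) (l : K) : Prop :=
  (∀ j, l ≠ e j) ∧ ∀ j k, ∃ t ∈ T, ∃ b, (l - e j) / (l - e k) = t * b ^ n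

omit [NumberField K] in
lemma card_quad {κ : ℕ} {Q : K[X]} (hQ : Q ≠ 0) (hd : Q.natDegree ≤ κ) {S : Finset K}
    (h : ∀ x ∈ S, Q.eval x = 0) : S.card ≤ κ := by
  classical
  have h1 : S ⊆ Q.roots.toFinset := by
    intro x hx
    rw [Multiset.mem_toFinset, mem_roots hQ]
    exact h x hx
  calc S.card ≤ Q.roots.toFinset.card := Finset.card_le_card h1
    _ ≤ Multiset.card Q.roots := Multiset.toFinset_card_le _
    _ ≤ Q.natDegree := card_roots' _
    _ ≤ κ := hd

/-- `n` odd -/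
theorem win_odd {n : ℕ} (hn : 5 ≤ n) (hodd : Odd n) {e : Fin n → K} (he : Function.Injective e)
    (T : Finset K) : WinP (RatP e T) := by
  classical
  obtain ⟨e1, he1⟩ : ∃ e1, e1 = e ⟨0, by omega⟩ := ⟨_, rfl⟩
  obtain ⟨e2, he2⟩ : ∃ e2, e2 = e ⟨1, by omega⟩ := ⟨_, rfl⟩
  obtain ⟨e3, he3⟩ : ∃ e3, e3 = e ⟨2, by omega⟩ := ⟨_, rfl⟩
  have h12 : e1 - e2 ≠ 0 := by
    rw [he1, he2, sub_ne_zero]
    intro h
    simpa using he h
  have h13 : e1 - e3 ≠ 0 := by
    rw [he1, he3, sub_ne_zero]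
    intro h
    simpa using he h
  have h23 : e2 - e3 ≠ 0 := by
    rw [he2, he3, sub_ne_zero]
    intro h
    simpa using he h
  have h32 : e3 - e2 ≠ 0 := by
    rw [← neg_sub]; exact neg_ne_zero.2 h23
  obtain ⟨A, hA⟩ : ∃ A, A = (e3 - e2) / (e1 - e2) := ⟨_, rfl⟩
  obtain ⟨B, hB⟩ : ∃ B, B = (e1 - e3) / (e1 - e2) := ⟨_, rfl⟩
  have hA0 : A ≠ 0 := by rw [hA]; exact div_ne_zero h32 h12
  have hB0 : B ≠ 0 := by rw [hB]; exact div_ne_zero h13 h12
  obtain ⟨L, hF, hAlg, hNF, hL⟩ := exists_ext (n := n) (by omega)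
    (T ∪ {A, B, -4, -1} : Finset K)
  have hn0 : 0 < n := by omega
  obtain ⟨α, hα⟩ := exists_root hn0 (hL A (by simp))
  obtain ⟨β, hβ⟩ := exists_root hn0 (hL B (by simp))
  obtain ⟨μ, hμ⟩ := exists_root hn0 (hL (-4) (by simp))
  obtain ⟨r, hr, hr'⟩ := exists_unit_roots hn0 (hL (-1) (by simp))
  have hT : ∀ t ∈ T, ∃ τ : L, τ ^ n = algebraMap K L t := fun t ht =>
    exists_root hn0 (hL t (by simp [ht]))
  obtain ⟨g, hg⟩ := hodd
  obtain ⟨p, hp⟩ : ∃ p : K → K, p = fun l => A * ((l - e1) / (l - e3)) := ⟨_, rfl⟩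
  obtain ⟨q, hq⟩ : ∃ q : K → K, q = fun l => B * ((l - e2) / (l - e3)) := ⟨_, rfl⟩
  have hpq : ∀ l, l ≠ e3 → p l + q l = 1 := by
    intro l hl
    have hl' : l - e3 ≠ 0 := sub_ne_zero.2 hl
    rw [hp, hq, hA, hB]
    simp only
    field_simp
    ring
  obtain ⟨C1, hC1, hr1⟩ := ht_ratio (K := K) (sub_ne_zero.1 h13)
  obtain ⟨C2, hC2, hr2⟩ := ht_ratio (K := K) (sub_ne_zero.1 h23)
  have hlog : 0 ≤ (totalWeight K : ℝ) * Real.log 2 := by positivity
  refine transfer2 (L := L) (g := g) (κ := 2) (m := n) hr (by rw [Fintype.card_fin]; exact hg)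
    (by omega) (fun l => -4 * (p l * q l)) hn0 ?_ ?_ (a := 1) (b := 4)
    (C := logHeight₁ (-4 : K) + 2 * logHeight₁ (2 : K) + 2 * logHeight₁ A + logHeight₁ B +
      3 * (totalWeight K * Real.log 2) + C1 + C2 + C1)
    one_pos (by norm_num) ?_ ?_ ?_
  · rintro l ⟨hne, hl⟩
    obtain ⟨t1, ht1, b1, hb1⟩ := hl ⟨0, by omega⟩ ⟨2, by omega⟩
    obtain ⟨t2, ht2, b2, hb2⟩ := hl ⟨1, by omega⟩ ⟨2, by omega⟩
    rw [← he1, ← he3] at hb1
    rw [← he2, ← he3] at hb2
    obtain ⟨τ1, hτ1⟩ := hT t1 ht1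
    obtain ⟨τ2, hτ2⟩ := hT t2 ht2
    have hl3 : l ≠ e3 := by rw [he3]; exact hne _
    have hpn : (α * (τ1 * algebraMap K L b1)) ^ n = algebraMap K L (p l) := by
      rw [hp]
      simp only
      rw [hb1, mul_pow, mul_pow, hα, hτ1, map_mul, map_mul, map_pow]
    have hqn : (β * (τ2 * algebraMap K L b2)) ^ n = algebraMap K L (q l) := by
      rw [hq]
      simp only
      rw [hb2, mul_pow, mul_pow, hβ, hτ2, map_mul, map_mul, map_pow]
    obtain ⟨X, hX⟩ : ∃ X, X = μ * ((α * (τ1 * algebraMap K L b1)) *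
      (β * (τ2 * algebraMap K L b2))) := ⟨_, rfl⟩
    have hXn : X ^ n = algebraMap K L (-4 * (p l * q l)) := by
      rw [hX, mul_pow, mul_pow, hμ, hpn, hqn, map_mul, map_mul]
    refine ⟨X, algebraMap K L (p l - q l), hXn, ?_⟩
    rw [hr', hXn, ← map_pow, ← map_one (algebraMap K L), ← map_add]
    congr 1
    have := hpq l hl3
    linear_combination (p l + q l + 1) * this
  · intro t S hS
    have hQ : ∃ Q : K[X], Q = C (-4 * (A * B)) * (X - C e1) * (X - C e2) - C t * (X - C e3) ^ 2 :=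
      ⟨_, rfl⟩
    obtain ⟨Q, hQ⟩ := hQ
    have hev : ∀ x, Q.eval x = -4 * (A * B) * (x - e1) * (x - e2) - t * (x - e3) ^ 2 := by
      intro x; rw [hQ]; simp
    apply card_quad (Q := Q)
    · intro h0
      have h1 := hev e3
      rw [h0, eval_zero, sub_self] at h1
      have h2 : (-4 : K) * (A * B) * (e3 - e1) * (e3 - e2) ≠ 0 := by
        have h31 : e3 - e1 ≠ 0 := by rw [← neg_sub]; exact neg_ne_zero.2 h13
        have : (-4 : K) ≠ 0 := by norm_num
        exact mul_ne_zero (mul_ne_zero (mul_ne_zero this (mul_ne_zero hA0 hB0)) h31) h32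
      apply h2
      rw [zero_pow two_ne_zero, mul_zero, sub_zero] at h1
      exact h1.symm
    · rw [hQ]
      refine (natDegree_sub_le _ _).trans (max_le ?_ ?_)
      · rw [mul_assoc]
        refine (natDegree_C_mul_le _ _).trans ?_
        refine natDegree_mul_le.trans ?_
        rw [natDegree_X_sub_C, natDegree_X_sub_C]
      · refine (natDegree_C_mul_le _ _).trans ?_
        refine (natDegree_pow_le).trans ?_
        rw [natDegree_X_sub_C]
    · intro l hl
      obtain ⟨⟨hne, -⟩, ht⟩ := hS l hl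
      have hl3 : l ≠ e3 := by rw [he3]; exact hne _
      have hl' : l - e3 ≠ 0 := sub_ne_zero.2 hl3
      rw [hev, ← ht, hp, hq]
      field_simp
      ring
  · have := ht_nn (-4 : K)
    have := ht_nn (2 : K)
    have := ht_nn A
    have := ht_nn B
    linarith
  · rintro l ⟨hne, -⟩
    have hl3 : l ≠ e3 := by rw [he3]; exact hne _
    obtain ⟨-, h1⟩ := hr1 l hl3
    -- ratio from p
    have h2 : logHeight₁ ((l - e1) / (l - e3)) ≤ logHeight₁ (p l) + logHeight₁ A := by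
      have := (ht_mul_const hA0 ((l - e1) / (l - e3))).2
      rw [hp]
      exact this
    have h3 : logHeight₁ (p l) ≤ logHeight₁ (p l - q l) + (totalWeight K * Real.log 2 +
        logHeight₁ (2 : K)) := by
      have e1 : 2 * p l = 1 * (p l - q l) + 1 := by
        have := hpq l hl3
        linear_combination this
      have h4 := (ht_mul_const (two_ne_zero : (2 : K) ≠ 0) (p l)).2
      rw [e1] at h4
      have h5 := ht_aff (1 : K) 1 (p l - q l)
      rw [logHeight₁_one] at h5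
      linarith
    have h4 : 2 * logHeight₁ (p l - q l) ≤ logHeight₁ (-4 * (p l * q l)) +
        totalWeight K * Real.log 2 := by
      have e1 : (p l - q l) ^ 2 = 1 * (-4 * (p l * q l)) + 1 := by
        have := hpq l hl3
        linear_combination (p l + q l + 1) * this
      have h5 := logHeight₁_pow (p l - q l) 2
      rw [e1] at h5
      have h6 := ht_aff (1 : K) 1 (-4 * (p l * q l))
      rw [logHeight₁_one] at h6
      push_cast at h5
      linarith
    have := ht_nn (-4 : K)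
    have := ht_nn B
    linarith
  · rintro l ⟨hne, -⟩
    have hl3 : l ≠ e3 := by rw [he3]; exact hne _
    obtain ⟨h1, -⟩ := hr1 l hl3
    obtain ⟨h2, -⟩ := hr2 l hl3
    have h3 := logHeight₁_mul_le (-4 : K) (p l * q l)
    have h4 := logHeight₁_mul_le (p l) (q l)
    have h5 : logHeight₁ (p l) ≤ logHeight₁ A + logHeight₁ ((l - e1) / (l - e3)) := by
      rw [hp]; exact logHeight₁_mul_le _ _
    have h6 : logHeight₁ (q l) ≤ logHeight₁ B + logHeight₁ ((l - e2) / (l - e3)) := by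
      rw [hq]; exact logHeight₁_mul_le _ _
    have := ht_nn (2 : K)
    have := ht_nn A
    linarith

/-- `n ≥ 6` even -/
theorem win_even {n : ℕ} (hn : 6 ≤ n) (heven : Even n) {e : Fin n → K}
    (he : Function.Injective e) (T : Finset K) : WinP (RatP e T) := by
  classical
  obtain ⟨m, hm⟩ := heven
  obtain ⟨c, hc, hcinj⟩ : ∃ c : Fin 6 → Fin n, (∀ i, (c i : ℕ) = i) ∧ Function.Injective c :=
    ⟨fun i => ⟨i, by omega⟩, fun i => rfl, fun i j h => by
      have := congrArg (fun x : Fin n => (x : ℕ)) h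
      exact Fin.ext this⟩
  obtain ⟨E, hE⟩ : ∃ E : Fin 6 → K, E = fun i => e (c i) := ⟨_, rfl⟩
  have hEinj : Function.Injective E := by rw [hE]; exact he.comp hcinj
  have hne : ∀ i j, i ≠ j → E i - E j ≠ 0 := fun i j h => sub_ne_zero.2 fun h' => h (hEinj h')
  obtain ⟨ii, hii, hiinj⟩ : ∃ ii : Fin 5 → Fin 6, (∀ i, ii i ≠ 5) ∧ Function.Injective ii :=
    ⟨Fin.castSucc, fun i => (Fin.castSucc_lt_last i).ne, Fin.castSucc_injective 5⟩
  obtain ⟨a, ha⟩ : ∃ a : Fin 5 → K, a = fun i => (E (ii i) - E 5) / (E 0 - E 5) := ⟨_, rfl⟩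
  obtain ⟨ρ, hρ⟩ : ∃ ρ : Fin 5 → K, ρ = fun i => (E (ii i) - E 0) / (E (ii i) - E 5) := ⟨_, rfl⟩
  have h05 : E 0 - E 5 ≠ 0 := hne _ _ (by decide)
  have ha0 : ∀ i, a i ≠ 0 := by
    intro i
    rw [ha]
    exact div_ne_zero (hne _ _ (hii i)) h05
  have hρinj : Function.Injective ρ := by
    intro i j h
    rw [hρ] at h
    simp only at h
    rw [div_eq_div_iff (hne _ _ (hii i)) (hne _ _ (hii j))] at h
    apply hiinj
    apply hEinj
    apply mul_right_cancel₀ h05
    linear_combination h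
  obtain ⟨L, hF, hAlg, hNF, hL⟩ := exists_ext (n := n) (by omega)
    (T ∪ Finset.univ.image a : Finset K)
  have hn0 : 0 < n := by omega
  have hT : ∀ t ∈ T, ∃ τ : L, τ ^ n = algebraMap K L t := fun t ht =>
    exists_root hn0 (hL t (by simp [ht]))
  have hα : ∀ i, ∃ α : L, α ^ n = algebraMap K L (a i) := fun i =>
    exists_root hn0 (hL (a i) (by simp))
  choose α hα using hα
  have hα0 : ∀ i, α i ≠ 0 := by
    intro i h
    have := hα i
    rw [h, zero_pow hn0.ne', eq_comm, map_eq_zero] at this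
    exact ha0 i this
  obtain ⟨C1, hC1, hr1⟩ := ht_ratio (K := K) (sub_ne_zero.1 h05)
  refine transfer2 (L := L) (g := 2) (κ := 1) (m := 1) (r := fun i => algebraMap K L (ρ i))
    ((algebraMap K L).injective.comp hρinj) (by simp) le_rfl
    (fun l => (l - E 0) / (l - E 5)) one_pos ?_ ?_ (a := 1 / 2) (b := 2) (C := C1)
    (by norm_num) (by norm_num) hC1 ?_ ?_
  · rintro l ⟨hne', hl⟩
    refine ⟨algebraMap K L ((l - E 0) / (l - E 5)), ?_⟩
    have h1 : ∀ i : Fin 5, ∃ w : L, w ^ 2 =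
        algebraMap K L ((l - E 0) / (l - E 5)) - algebraMap K L (ρ i) := by
      intro i
      obtain ⟨t, ht, b, hb⟩ := hl (c (ii i)) (c 5)
      obtain ⟨τ, hτ⟩ := hT t ht
      refine ⟨(τ * algebraMap K L b / α i) ^ m, ?_⟩
      rw [← pow_mul, show m * 2 = n by omega, div_pow, mul_pow, hτ, hα, ← map_pow, ← map_mul, ← hb,
        ← map_sub, ← map_div₀]
      congr 1
      have hl5 : l - E 5 ≠ 0 := by rw [hE]; exact sub_ne_zero.2 (hne' _)
      have hei : e (c (ii i)) = E (ii i) := by rw [hE]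
      have he5 : e (c 5) = E 5 := by rw [hE]
      have hi5 := hne _ _ (hii i)
      rw [hei, he5, ha, hρ]
      simp only
      field_simp
      ring
    choose w hw using h1
    refine ⟨∏ i, w i, pow_one _, ?_⟩
    rw [← Finset.prod_pow]
    exact Finset.prod_congr rfl fun i _ => hw i
  · intro t S hS
    rw [Finset.card_le_one]
    intro x hx y hy
    obtain ⟨⟨hnx, -⟩, htx⟩ := hS x hx
    obtain ⟨⟨hny, -⟩, hty⟩ := hS y hy
    have hx5 : x - E 5 ≠ 0 := by rw [hE]; exact sub_ne_zero.2 (hnx _)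
    have hy5 : y - E 5 ≠ 0 := by rw [hE]; exact sub_ne_zero.2 (hny _)
    rw [← hty, div_eq_div_iff hx5 hy5] at htx
    apply mul_right_cancel₀ h05
    linear_combination htx
  · rintro l ⟨hne', -⟩
    have hl5 : l ≠ E 5 := by rw [hE]; exact hne' _
    have := (hr1 l hl5).2
    linarith
  · rintro l ⟨hne', -⟩
    have hl5 : l ≠ E 5 := by rw [hE]; exact hne' _
    exact (hr1 l hl5).1

lemma inj5 {L : Type} [Field L] {a b : L} (ha : a ≠ 0) (hb : b ≠ 0) (h1 : a ≠ b) (h2 : a ≠ -b)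
    (h3 : a ≠ -a) (h4 : b ≠ -b) (h5 : -a ≠ b) (h6 : -a ≠ -b) :
    Function.Injective (![0, a, -a, b, -b] : Fin 5 → L) := by
  have ha' : (0 : L) ≠ a := ha.symm
  have hb' : (0 : L) ≠ b := hb.symm
  have ha'' : (0 : L) ≠ -a := by simpa using ha
  have hb'' : (0 : L) ≠ -b := by simpa using hb
  intro i j h
  fin_cases i <;> fin_cases j <;> first | rfl | (exfalso; revert h; simp only [Matrix.cons_val,
    Fin.mk_zero, Fin.mk_one, Fin.reduceFinMk, Fin.isValue]; first | assumption |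
    (apply Ne.symm; assumption))

/-- `n = 4` -/
theorem win_four {e : Fin 4 → K} (he : Function.Injective e) (T : Finset K) :
    WinP (RatP e T) := by
  classical
  have hne : ∀ i j, i ≠ j → e i - e j ≠ 0 := fun i j h => sub_ne_zero.2 fun h' => h (he h')
  have h01 : e 0 - e 1 ≠ 0 := hne _ _ (by decide)
  have h10 : e 1 - e 0 ≠ 0 := hne _ _ (by decide)
  have h20 : e 2 - e 0 ≠ 0 := hne _ _ (by decide)
  have h21 : e 2 - e 1 ≠ 0 := hne _ _ (by decide)
  have h30 : e 3 - e 0 ≠ 0 := hne _ _ (by decide)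
  have h31 : e 3 - e 1 ≠ 0 := hne _ _ (by decide)
  have h23 : e 2 - e 3 ≠ 0 := hne _ _ (by decide)
  obtain ⟨a2, ha2⟩ : ∃ a, a = (e 2 - e 1) / (e 0 - e 1) := ⟨_, rfl⟩
  obtain ⟨a3, ha3⟩ : ∃ a, a = (e 3 - e 1) / (e 0 - e 1) := ⟨_, rfl⟩
  obtain ⟨r2, hr2⟩ : ∃ a, a = (e 2 - e 0) / (e 2 - e 1) := ⟨_, rfl⟩
  obtain ⟨r3, hr3⟩ : ∃ a, a = (e 3 - e 0) / (e 3 - e 1) := ⟨_, rfl⟩
  have ha20 : a2 ≠ 0 := by rw [ha2]; exact div_ne_zero h21 h01
  have ha30 : a3 ≠ 0 := by rw [ha3]; exact div_ne_zero h31 h01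
  have hr20 : r2 ≠ 0 := by rw [hr2]; exact div_ne_zero h20 h21
  have hr30 : r3 ≠ 0 := by rw [hr3]; exact div_ne_zero h30 h31
  have hr23 : r2 ≠ r3 := by
    intro h
    rw [hr2, hr3, div_eq_div_iff h21 h31] at h
    apply h23
    apply mul_right_cancel₀ h01
    linear_combination h
  obtain ⟨L, hF, hAlg, hNF, hL⟩ := exists_ext (n := 4) (by omega)
    (T ∪ {a2, a3, r2, r3} : Finset K)
  have hT : ∀ t ∈ T, ∃ τ : L, τ ^ 4 = algebraMap K L t := fun t ht =>
    exists_root four_pos (hL t (by simp [ht]))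
  obtain ⟨α2, hα2⟩ := exists_root four_pos (hL a2 (by simp))
  obtain ⟨α3, hα3⟩ := exists_root four_pos (hL a3 (by simp))
  obtain ⟨s2, hs2⟩ := exists_root four_pos (hL r2 (by simp))
  obtain ⟨s3, hs3⟩ := exists_root four_pos (hL r3 (by simp))
  have hα20 : α2 ≠ 0 := by
    rintro rfl
    rw [zero_pow four_ne_zero, eq_comm, map_eq_zero] at hα2
    exact ha20 hα2
  have hα30 : α3 ≠ 0 := by
    rintro rfl
    rw [zero_pow four_ne_zero, eq_comm, map_eq_zero] at hα3
    exact ha30 hα3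
  have hs20 : s2 ≠ 0 := by
    rintro rfl
    rw [zero_pow four_ne_zero, eq_comm, map_eq_zero] at hs2
    exact hr20 hs2
  have hs30 : s3 ≠ 0 := by
    rintro rfl
    rw [zero_pow four_ne_zero, eq_comm, map_eq_zero] at hs3
    exact hr30 hs3
  obtain ⟨u2, hu2⟩ : ∃ u, u = s2 ^ 2 := ⟨_, rfl⟩
  obtain ⟨u3, hu3⟩ : ∃ u, u = s3 ^ 2 := ⟨_, rfl⟩
  have hu20 : u2 ≠ 0 := by rw [hu2]; exact pow_ne_zero _ hs20
  have hu30 : u3 ≠ 0 := by rw [hu3]; exact pow_ne_zero _ hs30
  have hu22 : u2 ^ 2 = algebraMap K L r2 := by rw [hu2, ← hs2]; ring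
  have hu32 : u3 ^ 2 = algebraMap K L r3 := by rw [hu3, ← hs3]; ring
  have hu23 : u2 ^ 2 ≠ u3 ^ 2 := by
    rw [hu22, hu32]
    exact fun h => hr23 ((algebraMap K L).injective h)
  have h1 : u2 ≠ u3 := fun h => hu23 (by rw [h])
  have h2 : u2 ≠ -u3 := fun h => hu23 (by rw [h, neg_sq])
  have h3 : u2 ≠ -u2 := fun h => hu20 (self_eq_neg.1 h)
  have h4 : u3 ≠ -u3 := fun h => hu30 (self_eq_neg.1 h)
  have h5 : -u2 ≠ u3 := fun h => hu23 (by rw [← h, neg_sq])
  obtain ⟨r, hr⟩ : ∃ r : Fin 5 → L, r = ![0, u2, -u2, u3, -u3] := ⟨_, rfl⟩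
  have hrinj : Function.Injective r := by
    rw [hr]
    exact inj5 hu20 hu30 h1 h2 h3 h4 h5 fun h => h1 (neg_injective h)
  obtain ⟨C1, hC1, hr1⟩ := ht_ratio (K := K) (sub_ne_zero.1 h01)
  refine transfer2 (L := L) (g := 2) (κ := 1) (m := 2) (r := r)
    hrinj (by simp) le_rfl
    (fun l => (l - e 0) / (l - e 1)) two_pos ?_ ?_ (a := 1 / 2) (b := 2) (C := C1)
    (by norm_num) (by norm_num) hC1 ?_ ?_
  · rintro l ⟨hne', hl⟩
    have hl1 : l - e 1 ≠ 0 := sub_ne_zero.2 (hne' _)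
    obtain ⟨t, ht, b, hb⟩ := hl 0 1
    obtain ⟨τ, hτ⟩ := hT t ht
    obtain ⟨t2, ht2, b2, hb2⟩ := hl 2 1
    obtain ⟨τ2, hτ2⟩ := hT t2 ht2
    obtain ⟨t3, ht3, b3, hb3⟩ := hl 3 1
    obtain ⟨τ3, hτ3⟩ := hT t3 ht3
    obtain ⟨w, hw⟩ : ∃ w, w = τ * algebraMap K L b := ⟨_, rfl⟩
    obtain ⟨w2, hw2⟩ : ∃ w, w = τ2 * algebraMap K L b2 / α2 := ⟨_, rfl⟩
    obtain ⟨w3, hw3⟩ : ∃ w, w = τ3 * algebraMap K L b3 / α3 := ⟨_, rfl⟩
    have hw4 : w ^ 4 = algebraMap K L ((l - e 0) / (l - e 1)) := by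
      rw [hw, mul_pow, hτ, hb, map_mul, map_pow]
    have hw24 : w2 ^ 4 = w ^ 4 - u2 ^ 2 := by
      rw [hw2, div_pow, mul_pow, hτ2, hα2, hu22, hw4, ← map_pow, ← map_mul, ← hb2, ← map_sub,
        ← map_div₀]
      congr 1
      rw [ha2, hr2]
      field_simp
      ring
    have hw34 : w3 ^ 4 = w ^ 4 - u3 ^ 2 := by
      rw [hw3, div_pow, mul_pow, hτ3, hα3, hu32, hw4, ← map_pow, ← map_mul, ← hb3, ← map_sub,
        ← map_div₀]
      congr 1
      rw [ha3, hr3]
      field_simp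
      ring
    refine ⟨w ^ 2, w * w2 ^ 2 * w3 ^ 2, ?_, ?_⟩
    · rw [← hw4]; ring
    · rw [hr, Fin.prod_univ_five]
      simp only [Matrix.cons_val]
      have e1 : (w * w2 ^ 2 * w3 ^ 2) ^ 2 = w ^ 2 * w2 ^ 4 * w3 ^ 4 := by ring
      rw [e1, hw24, hw34]
      ring
  · intro t S hS
    rw [Finset.card_le_one]
    intro x hx y hy
    obtain ⟨⟨hnx, -⟩, htx⟩ := hS x hx
    obtain ⟨⟨hny, -⟩, hty⟩ := hS y hy
    have hx5 : x - e 1 ≠ 0 := sub_ne_zero.2 (hnx _)
    have hy5 : y - e 1 ≠ 0 := sub_ne_zero.2 (hny _)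
    rw [← hty, div_eq_div_iff hx5 hy5] at htx
    apply mul_right_cancel₀ h01
    linear_combination htx
  · rintro l ⟨hne', -⟩
    have := (hr1 l (hne' 1)).2
    linarith
  · rintro l ⟨hne', -⟩
    exact (hr1 l (hne' 1)).1

/-- **the window theorem for the ratio condition** -/
theorem win_rat {n : ℕ} (hn : 4 ≤ n) {e : Fin n → K} (he : Function.Injective e)
    (T : Finset K) : WinP (RatP e T) := by
  rcases Nat.even_or_odd n with h | h
  · rcases Nat.lt_or_ge n 6 with h6 | h6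
    · obtain rfl : n = 4 := by
        obtain ⟨m, hm⟩ := h
        omega
      exact win_four he T
    · exact win_even h6 h he T
  · refine win_odd ?_ h he T
    obtain ⟨m, hm⟩ := h
    omega

end cases

end Pool.Agent.KS6_58
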