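import Pool.Graph.R_seed8.Y723.HJ.Cls

/-!
# The local inequality for functions on `y² = f(x)` vanishing to a high order at a point
-/

set_option autoImplicit false

namespace Pool.Agent.KS6_58

open Polynomial Pool.Agent.Y723.HJ

variable {k : Type*} [Field k] {f : k[X]}

/-- evaluation at the point `(x, y)` of the curve -/
noncomputable def evP (x y : k) (h : y ^ 2 = f.eval x) : CR f →+* k where
  toFun z := z.re.eval x + z.im.eval x * y
  map_zero' := by
    show (0 : k[X]).eval x + (0 : k[X]).eval x * y = 0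
    simp
  map_one' := by
    show (1 : k[X]).eval x + (0 : k[X]).eval x * y = 1
    simp
  map_add' z w := by
    simp only [QuadraticAlgebra.re_add, QuadraticAlgebra.im_add, eval_add]; ring
  map_mul' z w := by
    simp only [QuadraticAlgebra.re_mul, QuadraticAlgebra.im_mul, eval_add, eval_mul, zero_mul,
      eval_zero]
    linear_combination (-(z.im.eval x * w.im.eval x)) * h

lemma evP_apply {x y : k} (h : y ^ 2 = f.eval x) (z : CR f) :
    evP x y h z = z.re.eval x + z.im.eval x * y := rfl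

lemma evP_CC {x y : k} (h : y ^ 2 = f.eval x) (p : k[X]) : evP x y h (CC f p) = p.eval x := by
  rw [evP_apply, CC_re, CC_im]; simp

/-- the local data: `μ` is a multiplicative norm of polynomials, `ν` a norm of functions -/
structure LN (v : AbsoluteValue k ℝ) (f : k[X]) (g : ℕ) (Δ : k) (κ T : ℝ) where
  μ : k[X] → ℝ
  ν : CR f → ℝ
  one_le_T : 1 ≤ T
  T_le : T ≤ κ
  two_le : v 2 ≤ κ
  μ_mul : ∀ p q, μ (p * q) = μ p * μ q
  μ_C : ∀ c, μ (C c) = v c
  μ_X : ∀ r, μ (X - C r) = max 1 (v r)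
  ν_nonneg : ∀ z, 0 ≤ ν z
  ν_mul : ∀ z w, ν (z * w) ≤ κ * ν z * ν w
  ν_smul : ∀ p w, p ≠ 0 → w ≠ 0 →
    μ p * ν w ≤ κ ^ ((CC f p * w).norm.natDegree + 1) * ν (CC f p * w)
  ν_eval : ∀ w x y (h : y ^ 2 = f.eval x),
    v (evP x y h w) ^ 2 ≤ κ ^ 2 * ν w ^ 2 * (max 1 (v x)) ^ w.norm.natDegree
  ν_y : ∀ a b i, ν ⟨C a * X ^ i, C b⟩ ≤ κ * max (v a) (v b)
  bc : ∀ z, z ≠ 0 → ν z ^ 2 ≤ κ ^ (z.norm.natDegree + 1) * μ z.norm
  f_le : ∀ x, v (f.eval x) ≤ κ * max 1 (v x) ^ (2 * g + 1)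
  h1 : ∀ x, v x ≤ T → v Δ ≤ κ * max (v (f.eval x)) (v (f.derivative.eval x))
  h2 : ∀ x, T < v x → v x ^ (2 * g + 1) ≤
    κ * v (2 * g * f.eval x - x * f.derivative.eval x)
  Δ_le : v Δ ≤ κ

lemma mi_point_dvd {x y : k} (h : y ^ 2 = f.eval x) : (X - C x) ∣ f - (C y) ^ 2 := by
  rw [dvd_iff_isRoot, IsRoot, eval_sub, eval_pow, eval_C, h, sub_self]

/-- multiplication by a function vanishing at the opposite point -/
lemma exists_quot [HF f] {x y : k} (h : y ^ 2 = f.eval x) {z G : CR f} {j : ℕ}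
    (hz : z ∈ mi f (X - C x) (-C y) ^ j) (hG : G ∈ mi f (X - C x) (C y)) :
    ∃ w, z * G ^ j = CC f ((X - C x) ^ j) * w := by
  have h1 : z * G ^ j ∈ mi f (X - C x) (-C y) ^ j * mi f (X - C x) (C y) ^ j :=
    Ideal.mul_mem_mul hz (Ideal.pow_mem_pow hG j)
  rw [← mul_pow, mul_comm (mi f (X - C x) (-C y)), mi_neg (mi_point_dvd h),
    Ideal.span_singleton_pow, Ideal.mem_span_singleton] at h1
  obtain ⟨w, hw⟩ := h1
  exact ⟨w, by rw [hw, ← map_pow]⟩

lemma natDegree_norm_mul [OddM f] {z w : CR f} (hz : z ≠ 0) (hw : w ≠ 0) :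
    (z * w).norm.natDegree = z.norm.natDegree + w.norm.natDegree := by
  rw [map_mul, natDegree_mul (norm_ne hz) (norm_ne hw)]

lemma natDegree_norm_pow [OddM f] (z : CR f) (j : ℕ) :
    (z ^ j).norm.natDegree = j * z.norm.natDegree := by
  rw [map_pow, natDegree_pow]

lemma natDegree_norm_CC [OddM f] (p : k[X]) : (CC f p).norm.natDegree = 2 * p.natDegree := by
  rw [QuadraticAlgebra.norm_algebraMap, natDegree_pow]

lemma sq_le_imp {a b : ℝ} (hb : 1 ≤ b) (h : a ^ 2 ≤ b) : a ≤ b := by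
  nlinarith [sq_nonneg (a - b), sq_nonneg (a - 1)]

lemma norm_Yy {g : ℕ} (hd : f.natDegree = 2 * g + 1) (y : k) :
    (⟨-C y, 1⟩ : CR f) ≠ 0 ∧ (⟨-C y, 1⟩ : CR f).norm.natDegree = 2 * g + 1 := by
  have h0 : (⟨-C y, 1⟩ : CR f) ≠ 0 := fun h => one_ne_zero (congrArg QuadraticAlgebra.im h)
  refine ⟨h0, ?_⟩
  rw [nrm]
  simp only [one_pow, mul_one]
  rw [show (-C y) ^ 2 - f = -(f - C (y ^ 2)) by rw [C_pow]; ring, natDegree_neg,
    natDegree_sub_C, hd]

lemma cc_mul (p q : k[X]) : CC f (p * q) = CC f p * CC f q := map_mul _ _ _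

lemma cc_pow (p : k[X]) (j : ℕ) : CC f (p ^ j) = CC f p ^ j := map_pow _ _ _

namespace LN

variable {v : AbsoluteValue k ℝ} {g : ℕ} {Δ : k} {κ T : ℝ} (N : LN v f g Δ κ T)
include N

lemma one_le : 1 ≤ κ := N.one_le_T.trans N.T_le

lemma ν_mul_pow (z G : CR f) (j : ℕ) : N.ν (z * G ^ j) ≤ N.ν z * (κ * N.ν G) ^ j := by
  induction j with
  | zero => simp
  | succ j ih =>
    have hκ := N.one_le
    rw [pow_succ, ← mul_assoc]
    refine (N.ν_mul _ _).trans ?_
    have h1 : κ * N.ν (z * G ^ j) * N.ν G ≤ κ * (N.ν z * (κ * N.ν G) ^ j) * N.ν G := by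
      have := N.ν_nonneg G
      gcongr
    refine h1.trans (le_of_eq ?_)
    ring

lemma μ_pow (p : k[X]) (j : ℕ) : N.μ (p ^ j) = N.μ p ^ j := by
  induction j with
  | zero =>
    have := N.μ_C 1
    rw [C_1] at this
    rw [pow_zero, pow_zero, this, map_one]
  | succ j ih => rw [pow_succ, pow_succ, N.μ_mul, ih]

/-- the bound for the quotient -/
lemma quot_bound [HF f] {x : k} {z G w : CR f} {j : ℕ} (hz : z ≠ 0) (hG : G ≠ 0)
    (hw : z * G ^ j = CC f ((X - C x) ^ j) * w) :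
    (w ≠ 0) ∧ w.norm.natDegree + 2 * j = z.norm.natDegree + j * G.norm.natDegree ∧
    max 1 (v x) ^ j * N.ν w ≤ κ ^ (z.norm.natDegree + j * G.norm.natDegree + 1) *
      (N.ν z * (κ * N.ν G) ^ j) := by
  have hp : (X - C x) ^ j ≠ 0 := pow_ne_zero _ (X_sub_C_ne_zero x)
  have h0 : z * G ^ j ≠ 0 := mul_ne_zero hz (pow_ne_zero _ hG)
  have hw0 : w ≠ 0 := by
    rintro rfl
    rw [mul_zero] at hw
    exact h0 hw
  have hdeg : (z * G ^ j).norm.natDegree = z.norm.natDegree + j * G.norm.natDegree := by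
    rw [natDegree_norm_mul hz (pow_ne_zero _ hG), natDegree_norm_pow]
  have hdeg2 : (z * G ^ j).norm.natDegree = 2 * j + w.norm.natDegree := by
    rw [hw, natDegree_norm_mul (CC_ne hp) hw0, natDegree_norm_CC, natDegree_pow,
      natDegree_X_sub_C, mul_one]
  refine ⟨hw0, by omega, ?_⟩
  have h1 := N.ν_smul _ _ hp hw0
  rw [← hw, hdeg, N.μ_pow, N.μ_X] at h1
  refine h1.trans ?_
  have := N.one_le
  gcongr
  exact N.ν_mul_pow z G j

/-- the bound for the value of the quotient -/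
lemma quot_eval [HF f] {x y : k} (h : y ^ 2 = f.eval x) {z G w : CR f} {j : ℕ} (hz : z ≠ 0)
    (hG : G ≠ 0) (hw : z * G ^ j = CC f ((X - C x) ^ j) * w) :
    v (evP x y h w) ^ 2 * max 1 (v x) ^ (4 * j) ≤
      κ ^ (2 * z.norm.natDegree + 2 * (j * G.norm.natDegree) + 2 * j + 4) * N.ν z ^ 2 *
        N.ν G ^ (2 * j) * max 1 (v x) ^ (z.norm.natDegree + j * G.norm.natDegree) := by
  obtain ⟨h0, h1, h2⟩ := N.quot_bound (x := x) hz hG hw
  have h3 := N.ν_eval w x y h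
  obtain ⟨m, hm⟩ : ∃ m, m = max 1 (v x) := ⟨_, rfl⟩
  have hm1 : 1 ≤ m := by rw [hm]; exact le_max_left _ _
  rw [← hm] at h2 h3 ⊢
  obtain ⟨D, hD⟩ : ∃ D, D = z.norm.natDegree + j * G.norm.natDegree := ⟨_, rfl⟩
  obtain ⟨e, he⟩ : ∃ e, e = w.norm.natDegree := ⟨_, rfl⟩
  rw [← hD, ← he] at h1
  rw [← hD] at h2 ⊢
  rw [← he] at h3
  have hκ := N.one_le
  have hν := N.ν_nonneg w
  have e1 : 2 * z.norm.natDegree + 2 * (j * G.norm.natDegree) + 2 * j + 4 =
      2 * (D + 1) + 2 * j + 2 := by rw [hD]; ring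
  rw [e1]
  calc v (evP x y h w) ^ 2 * m ^ (4 * j) ≤ κ ^ 2 * N.ν w ^ 2 * m ^ e * m ^ (4 * j) := by gcongr
    _ = κ ^ 2 * (m ^ j * N.ν w) ^ 2 * m ^ D := by
        rw [← h1, pow_add, mul_pow, ← pow_mul, show 4 * j = j * 2 + 2 * j by ring, pow_add]
        ring
    _ ≤ κ ^ 2 * (κ ^ (D + 1) * (N.ν z * (κ * N.ν G) ^ j)) ^ 2 * m ^ D := by
        gcongr
    _ = _ := by
        rw [mul_pow, mul_pow, mul_pow κ, mul_pow (κ ^ j), ← pow_mul, ← pow_mul, ← pow_mul,
          show 2 * (D + 1) + 2 * j + 2 = (D + 1) * 2 + j * 2 + 2 by ring, pow_add, pow_add,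
          show 2 * j = j * 2 by ring]
        ring


/-- the case of small `x` -/
theorem caseA [HF f] (hd : f.natDegree = 2 * g + 1) {x y : k} (h : y ^ 2 = f.eval x) (hx : v x ≤ T)
    {z : CR f} {j : ℕ} (hz : z ≠ 0) (hzj : z ∈ mi f (X - C x) (-C y) ^ j) :
    v (evP x y h z) ^ 2 * v (f.derivative.eval x) ^ (2 * j) ≤
      κ ^ (3 * z.norm.natDegree + (10 * g + 13) * j + 4) * N.ν z ^ 2 * v y ^ (2 * j) := by
  obtain ⟨hG0, hGd⟩ := norm_Yy (f := f) hd y
  obtain ⟨G, hG⟩ : ∃ G : CR f, G = ⟨-C y, 1⟩ := ⟨_, rfl⟩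
  rw [← hG] at hG0 hGd
  have hGm : G ∈ mi f (X - C x) (C y) := by rw [hG]; exact mi_y_mem _ _
  obtain ⟨w, hw⟩ := exists_quot h hzj hGm
  obtain ⟨m, hm⟩ : ∃ m, m = max 1 (v x) := ⟨_, rfl⟩
  have hm1 : 1 ≤ m := by rw [hm]; exact le_max_left _ _
  have hκ := N.one_le
  have hmκ : m ≤ κ := by rw [hm]; exact max_le hκ (hx.trans N.T_le)
  have h1 := N.quot_eval h hz hG0 hw
  rw [← hm, hGd] at h1
  obtain ⟨D, hD⟩ : ∃ D, D = z.norm.natDegree := ⟨_, rfl⟩
  rw [← hD] at h1 ⊢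
  -- the size of `y` and of `G`
  have hy : v y ≤ κ ^ (2 * g + 2) := by
    apply sq_le_imp (one_le_pow₀ hκ)
    calc v y ^ 2 = v (f.eval x) := by rw [← h, map_pow]
      _ ≤ κ * m ^ (2 * g + 1) := by rw [hm]; exact N.f_le x
      _ ≤ κ * κ ^ (2 * g + 1) := by gcongr
      _ = κ ^ (2 * g + 2) := by ring
  have hνG : N.ν G ≤ κ ^ (2 * g + 3) := by
    have e1 : G = ⟨C (-y) * X ^ 0, C 1⟩ := by
      rw [hG]
      refine QuadraticAlgebra.ext ?_ ?_
      · simp
      · simp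
    rw [e1]
    refine (N.ν_y _ _ _).trans ?_
    rw [map_neg_eq_map, map_one]
    calc κ * max (v y) 1 ≤ κ * κ ^ (2 * g + 2) := by
          gcongr
          exact max_le hy (one_le_pow₀ hκ)
      _ = _ := by ring
  have hw1 : v (evP x y h w) ^ 2 ≤ κ ^ (3 * D + (10 * g + 11) * j + 4) * N.ν z ^ 2 := by
    calc v (evP x y h w) ^ 2 ≤ v (evP x y h w) ^ 2 * m ^ (4 * j) :=
          le_mul_of_one_le_right (sq_nonneg _) (one_le_pow₀ hm1)
      _ ≤ _ := h1
      _ ≤ κ ^ (2 * D + 2 * (j * (2 * g + 1)) + 2 * j + 4) * N.ν z ^ 2 *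
            (κ ^ (2 * g + 3)) ^ (2 * j) * κ ^ (D + j * (2 * g + 1)) := by
          have := N.ν_nonneg G
          gcongr
      _ = κ ^ (2 * D + 2 * (j * (2 * g + 1)) + 2 * j + 4) *
            (κ ^ (2 * g + 3)) ^ (2 * j) * κ ^ (D + j * (2 * g + 1)) * N.ν z ^ 2 := by ring
      _ = _ := by
          rw [← pow_mul, ← pow_add, ← pow_add]
          congr 2
          ring
  -- the polynomial `S`
  obtain ⟨S, hS⟩ := mi_point_dvd h
  have hS' : S.eval x = f.derivative.eval x := by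
    have h2 : f = (X - C x) * S + C (y ^ 2) := by rw [← hS, C_pow]; ring
    have h3 := congrArg (fun p => (derivative p).eval x) h2
    simp only [derivative_add, derivative_mul, derivative_sub, derivative_X, derivative_C,
      eval_add, eval_mul, eval_sub, eval_X, eval_C, sub_self, zero_mul, add_zero, sub_zero,
      one_mul] at h3
    exact h3.symm
  have hconj : G * ⟨C y, 1⟩ = CC f (X - C x) * CC f S := by
    have e : CC f (X - C x) * CC f S = CC f (f - C y ^ 2) := by rw [hS, cc_mul]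
    rw [e, hG]
    refine QuadraticAlgebra.ext ?_ ?_
    · simp only [QuadraticAlgebra.re_mul, CC_re]; ring
    · simp only [QuadraticAlgebra.im_mul, CC_im]; ring
  have hkey : z * CC f S ^ j = w * (⟨C y, 1⟩ : CR f) ^ j := by
    have hp : CC f (X - C x) ^ j ≠ 0 := pow_ne_zero _ (CC_ne (X_sub_C_ne_zero x))
    apply mul_left_cancel₀ hp
    calc CC f (X - C x) ^ j * (z * CC f S ^ j) = z * (CC f (X - C x) * CC f S) ^ j := by
          rw [mul_pow]; ring
      _ = z * G ^ j * (⟨C y, 1⟩ : CR f) ^ j := by rw [← hconj, mul_pow]; ring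
      _ = _ := by rw [hw, cc_pow]; ring
  have hev := congrArg (evP x y h) hkey
  rw [map_mul, map_mul, map_pow, map_pow, evP_CC, hS', evP_apply h ⟨C y, 1⟩] at hev
  simp only [eval_C, eval_one, one_mul] at hev
  have hev2 := congrArg (fun t => v t ^ 2) hev
  simp only [map_mul, map_pow] at hev2
  rw [mul_pow, ← pow_mul, mul_pow, ← pow_mul, mul_comm j 2] at hev2
  rw [hev2]
  have hyy : v (y + y) ≤ κ * v y := by
    rw [← two_mul, map_mul]
    exact mul_le_mul_of_nonneg_right N.two_le (v.nonneg _)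
  calc v (evP x y h w) ^ 2 * v (y + y) ^ (2 * j)
      ≤ (κ ^ (3 * D + (10 * g + 11) * j + 4) * N.ν z ^ 2) * (κ * v y) ^ (2 * j) := by
        gcongr
    _ = κ ^ (3 * D + (10 * g + 11) * j + 4) * κ ^ (2 * j) * N.ν z ^ 2 * v y ^ (2 * j) := by
        rw [mul_pow]; ring
    _ = _ := by
        rw [← pow_add]
        congr 3
        ring

/-- the case of large `x` -/
theorem caseB [HF f] (hd : f.natDegree = 2 * g + 1) (hg : 1 ≤ g) {x y : k}
    (h : y ^ 2 = f.eval x) (hx : T < v x)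
    {z : CR f} {j : ℕ} (hz : z ≠ 0) (hzj : z ∈ mi f (X - C x) (-C y) ^ j) :
    v (evP x y h z) ^ 2 * max 1 (v x) ^ ((2 * g + 2) * j) ≤
      κ ^ (2 * z.norm.natDegree + (4 * g + 11) * j + 4) * N.ν z ^ 2 * v y ^ (2 * j) *
        max 1 (v x) ^ z.norm.natDegree := by
  have hκ := N.one_le
  have hx1 : 1 < v x := N.one_le_T.trans_lt hx
  have hx0 : x ≠ 0 := by
    rintro rfl
    rw [map_zero] at hx1
    linarith
  obtain ⟨m, hm⟩ : ∃ m, m = max 1 (v x) := ⟨_, rfl⟩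
  have hmx : m = v x := by rw [hm, max_eq_right hx1.le]
  have hm1 : 1 ≤ m := by rw [hm]; exact le_max_left _ _
  obtain ⟨G, hG⟩ : ∃ G : CR f, G = ⟨C y * X ^ g, C (-x ^ g)⟩ := ⟨_, rfl⟩
  have hG0 : G ≠ 0 := by
    intro h0
    have h1 := congrArg QuadraticAlgebra.im h0
    rw [hG] at h1
    have h2 : (C (-x ^ g) : k[X]) = 0 := h1
    rw [C_eq_zero, neg_eq_zero] at h2
    exact pow_ne_zero _ hx0 h2
  have hGn : G.norm = C (y ^ 2) * X ^ (2 * g) - C (x ^ (2 * g)) * f := by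
    rw [nrm, hG]
    simp only [C_neg, C_pow]
    ring
  have hGd : G.norm.natDegree = 2 * g + 1 := by
    have h1 : (C (x ^ (2 * g)) * f).natDegree = 2 * g + 1 := by
      rw [natDegree_C_mul (pow_ne_zero _ hx0), hd]
    have h2 : (C (y ^ 2) * X ^ (2 * g) : k[X]).natDegree < (C (x ^ (2 * g)) * f).natDegree := by
      rw [h1]
      exact (natDegree_C_mul_X_pow_le _ _).trans_lt (by omega)
    rw [hGn, natDegree_sub_eq_right_of_natDegree_lt h2, h1]
  have hGm : G ∈ mi f (X - C x) (C y) := by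
    rw [mem_mi (mi_point_dvd h), hG, dvd_iff_isRoot, IsRoot]
    simp only [C_neg, C_pow, eval_add, eval_mul, eval_C, eval_pow, eval_X, eval_neg]
    ring
  obtain ⟨w, hw⟩ := exists_quot h hzj hGm
  have h1 := N.quot_eval h hz hG0 hw
  rw [← hm, hGd] at h1
  rw [← hm]
  obtain ⟨D, hD⟩ : ∃ D, D = z.norm.natDegree := ⟨_, rfl⟩
  rw [← hD] at h1 ⊢
  -- the size of `G`
  have hy : v y ^ 2 ≤ κ * m ^ (2 * g + 1) := by
    rw [← map_pow, h, hm]; exact N.f_le x
  have hνG : N.ν G ^ 2 ≤ κ ^ 3 * m ^ (2 * g + 1) := by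
    have e0 := N.ν_y y (-x ^ g) g
    rw [← hG, map_neg_eq_map, map_pow, ← hmx] at e0
    have e1 : (max (v y) (m ^ g)) ^ 2 ≤ κ * m ^ (2 * g + 1) := by
      rcases max_choice (v y) (m ^ g) with h2 | h2
      · rw [h2]; exact hy
      · rw [h2, ← pow_mul]
        calc m ^ (g * 2) ≤ m ^ (2 * g + 1) := pow_le_pow_right₀ hm1 (by omega)
          _ ≤ κ * m ^ (2 * g + 1) := le_mul_of_one_le_left (by positivity) hκ
    calc N.ν G ^ 2 ≤ (κ * max (v y) (m ^ g)) ^ 2 := by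
          have := N.ν_nonneg G
          gcongr
      _ = κ ^ 2 * (max (v y) (m ^ g)) ^ 2 := by ring
      _ ≤ κ ^ 2 * (κ * m ^ (2 * g + 1)) := by gcongr
      _ = _ := by ring
  have hw1 : v (evP x y h w) ^ 2 * m ^ (4 * j) ≤ κ ^ (2 * D + (4 * g + 7) * j + 4) *
      N.ν z ^ 2 * m ^ (D + 2 * (j * (2 * g + 1))) := by
    refine h1.trans ?_
    rw [pow_mul (N.ν G) 2 j]
    calc κ ^ (2 * D + 2 * (j * (2 * g + 1)) + 2 * j + 4) * N.ν z ^ 2 * (N.ν G ^ 2) ^ j *
          m ^ (D + j * (2 * g + 1)) ≤ κ ^ (2 * D + 2 * (j * (2 * g + 1)) + 2 * j + 4) *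
          N.ν z ^ 2 * (κ ^ 3 * m ^ (2 * g + 1)) ^ j * m ^ (D + j * (2 * g + 1)) := by gcongr
      _ = (κ ^ (2 * D + 2 * (j * (2 * g + 1)) + 2 * j + 4) * κ ^ (3 * j)) * N.ν z ^ 2 *
          (m ^ ((2 * g + 1) * j) * m ^ (D + j * (2 * g + 1))) := by
          rw [mul_pow, ← pow_mul, ← pow_mul]; ring
      _ = _ := by
          rw [← pow_add, ← pow_add]
          congr 2
          · ring
          · ring
  -- the polynomial `S`
  obtain ⟨H, hH⟩ : ∃ H : k[X], H = C (y ^ 2) * X ^ (2 * g) - C (x ^ (2 * g)) * f := ⟨_, rfl⟩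
  have hHx : H.eval x = 0 := by
    rw [hH]
    simp only [eval_sub, eval_mul, eval_C, eval_pow, eval_X]
    rw [← h]; ring
  obtain ⟨S, hS⟩ := dvd_iff_isRoot.2 hHx
  have hS' : x * S.eval x = x ^ (2 * g) * (2 * g * f.eval x - x * f.derivative.eval x) := by
    have h3 := congrArg (fun p => (derivative p).eval x) hS
    rw [hH] at h3
    simp only [derivative_mul, derivative_sub, derivative_X, derivative_C, derivative_X_pow,
      eval_add, eval_mul, eval_sub, eval_X, eval_C, sub_self, zero_mul, add_zero, sub_zero,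
      one_mul, zero_add, eval_pow, eval_one, map_mul, C_mul] at h3
    rw [← h3, ← h]
    obtain ⟨g', rfl⟩ : ∃ g', g = g' + 1 := ⟨g - 1, by omega⟩
    have e1 : 2 * (g' + 1) - 1 = 2 * g' + 1 := by omega
    rw [e1]
    push_cast
    ring
  have hSv : m ^ (4 * g) ≤ κ * v (S.eval x) := by
    have h4 := congrArg v hS'
    rw [map_mul, map_mul, map_pow, ← hmx] at h4
    have h5 := N.h2 x hx
    rw [← hmx] at h5
    have hm0 : 0 < m := by linarith
    have h6 : m * m ^ (4 * g) ≤ m * (κ * v (S.eval x)) := by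
      calc m * m ^ (4 * g) = m ^ (2 * g) * m ^ (2 * g + 1) := by
            rw [← pow_succ', ← pow_add]; congr 1; ring
        _ ≤ m ^ (2 * g) * (κ * v (2 * g * f.eval x - x * f.derivative.eval x)) := by gcongr
        _ = κ * (m * v (S.eval x)) := by rw [h4]; ring
        _ = _ := by ring
    exact le_of_mul_le_mul_left h6 hm0
  have hconj : G * ⟨C y * X ^ g, C (x ^ g)⟩ = CC f (X - C x) * CC f S := by
    have e : CC f (X - C x) * CC f S = CC f H := by rw [hS, cc_mul]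
    rw [e, hG, hH]
    refine QuadraticAlgebra.ext ?_ ?_
    · simp only [QuadraticAlgebra.re_mul, CC_re, C_neg, C_pow]; ring
    · simp only [QuadraticAlgebra.im_mul, CC_im, C_neg]; ring
  have hkey : z * CC f S ^ j = w * (⟨C y * X ^ g, C (x ^ g)⟩ : CR f) ^ j := by
    have hp : CC f (X - C x) ^ j ≠ 0 := pow_ne_zero _ (CC_ne (X_sub_C_ne_zero x))
    apply mul_left_cancel₀ hp
    calc CC f (X - C x) ^ j * (z * CC f S ^ j) = z * (CC f (X - C x) * CC f S) ^ j := by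
          rw [mul_pow]; ring
      _ = z * G ^ j * (⟨C y * X ^ g, C (x ^ g)⟩ : CR f) ^ j := by
          rw [← hconj, mul_pow]; ring
      _ = _ := by rw [hw, cc_pow]; ring
  have hev := congrArg (evP x y h) hkey
  rw [map_mul, map_mul, map_pow, map_pow, evP_CC, evP_apply h ⟨C y * X ^ g, C (x ^ g)⟩] at hev
  simp only [eval_C, eval_mul, eval_pow, eval_X] at hev
  have hev2 := congrArg (fun t => v t ^ 2) hev
  simp only [map_mul, map_pow] at hev2
  rw [mul_pow, ← pow_mul, mul_pow, ← pow_mul, mul_comm j 2] at hev2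
  have hyy : v (y * x ^ g + x ^ g * y) ≤ κ * (m ^ g * v y) := by
    have e1 : y * x ^ g + x ^ g * y = 2 * (x ^ g * y) := by ring
    rw [e1, map_mul, map_mul, map_pow, ← hmx]
    exact mul_le_mul_of_nonneg_right N.two_le (mul_nonneg (by positivity) (v.nonneg _))
  have hm0 : 0 < m := by linarith
  have hfin : (v (evP x y h z) ^ 2 * m ^ ((2 * g + 2) * j)) * m ^ ((6 * g + 2) * j) ≤
      (κ ^ (2 * D + (4 * g + 11) * j + 4) * N.ν z ^ 2 * v y ^ (2 * j) * m ^ D) *
        m ^ ((6 * g + 2) * j) := by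
    calc (v (evP x y h z) ^ 2 * m ^ ((2 * g + 2) * j)) * m ^ ((6 * g + 2) * j)
        = v (evP x y h z) ^ 2 * (m ^ (4 * g)) ^ (2 * j) * m ^ (4 * j) := by
          rw [mul_assoc, ← pow_add, ← pow_mul, mul_assoc, ← pow_add]
          congr 2
          ring
      _ ≤ v (evP x y h z) ^ 2 * (κ * v (S.eval x)) ^ (2 * j) * m ^ (4 * j) := by gcongr
      _ = κ ^ (2 * j) * (v (evP x y h z) ^ 2 * v (S.eval x) ^ (2 * j)) * m ^ (4 * j) := by
          rw [mul_pow]; ring
      _ = κ ^ (2 * j) * (v (evP x y h w) ^ 2 * v (y * x ^ g + x ^ g * y) ^ (2 * j)) *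
            m ^ (4 * j) := by rw [hev2]
      _ ≤ κ ^ (2 * j) * (v (evP x y h w) ^ 2 * (κ * (m ^ g * v y)) ^ (2 * j)) *
            m ^ (4 * j) := by gcongr
      _ = (v (evP x y h w) ^ 2 * m ^ (4 * j)) * (κ ^ (2 * j) * (κ * (m ^ g * v y)) ^ (2 * j)) := by
          ring
      _ ≤ (κ ^ (2 * D + (4 * g + 7) * j + 4) * N.ν z ^ 2 * m ^ (D + 2 * (j * (2 * g + 1)))) *
            (κ ^ (2 * j) * (κ * (m ^ g * v y)) ^ (2 * j)) := by gcongr
      _ = (κ ^ (2 * D + (4 * g + 7) * j + 4) * κ ^ (2 * j) * κ ^ (2 * j)) * N.ν z ^ 2 *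
            v y ^ (2 * j) * (m ^ (D + 2 * (j * (2 * g + 1))) * m ^ (g * (2 * j))) := by
          rw [mul_pow, mul_pow, ← pow_mul]; ring
      _ = κ ^ (2 * D + (4 * g + 11) * j + 4) * N.ν z ^ 2 * v y ^ (2 * j) *
            m ^ (D + (6 * g + 2) * j) := by ring
      _ = _ := by rw [pow_add]; ring
  exact le_of_mul_le_mul_right hfin (by positivity)

/-- the local inequality -/
theorem local_ineq [HF f] (hd : f.natDegree = 2 * g + 1) (hg : 1 ≤ g) {x y : k}
    (h : y ^ 2 = f.eval x) {z : CR f} {j : ℕ} (hz : z ≠ 0)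
    (hzj : z ∈ mi f (X - C x) (-C y) ^ j) :
    v Δ ^ (2 * j) * v (evP x y h z) ^ 2 * max 1 (v x) ^ ((2 * g + 2) * j) ≤
      κ ^ ((12 * g + 20) * (z.norm.natDegree + j + 1)) * N.μ z.norm * v y ^ (2 * j) *
        max 1 (v x) ^ z.norm.natDegree := by
  have hκ := N.one_le
  have hκ0 : 0 < κ := by linarith
  have hbc := N.bc z hz
  obtain ⟨m, hm⟩ : ∃ m, m = max 1 (v x) := ⟨_, rfl⟩
  have hm1 : 1 ≤ m := by rw [hm]; exact le_max_left _ _
  have hΔ0 : 0 ≤ v Δ := v.nonneg _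
  have hy0 : 0 ≤ v y := v.nonneg _
  have hν0 := N.ν_nonneg z
  -- the general estimate
  have key : ∀ e : ℕ, e + z.norm.natDegree + 1 ≤ (12 * g + 20) * (z.norm.natDegree + j + 1) →
      v Δ ^ (2 * j) * v (evP x y h z) ^ 2 * m ^ ((2 * g + 2) * j) ≤
        κ ^ e * N.ν z ^ 2 * v y ^ (2 * j) * m ^ z.norm.natDegree →
      v Δ ^ (2 * j) * v (evP x y h z) ^ 2 * m ^ ((2 * g + 2) * j) ≤
        κ ^ ((12 * g + 20) * (z.norm.natDegree + j + 1)) * N.μ z.norm * v y ^ (2 * j) *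
          m ^ z.norm.natDegree := by
    intro e he h1
    refine h1.trans ?_
    have hμ : 0 ≤ N.μ z.norm := by
      have h2 : 0 ≤ κ ^ (z.norm.natDegree + 1) * N.μ z.norm := (sq_nonneg _).trans hbc
      exact nonneg_of_mul_nonneg_right h2 (by positivity)
    calc κ ^ e * N.ν z ^ 2 * v y ^ (2 * j) * m ^ z.norm.natDegree
        ≤ κ ^ e * (κ ^ (z.norm.natDegree + 1) * N.μ z.norm) * v y ^ (2 * j) *
          m ^ z.norm.natDegree := by gcongr
      _ = κ ^ (e + z.norm.natDegree + 1) * N.μ z.norm * v y ^ (2 * j) *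
          m ^ z.norm.natDegree := by rw [← mul_assoc, ← pow_add]; rfl
      _ ≤ _ := by gcongr
  rw [← hm]
  rcases le_or_gt (v x) T with hx | hx
  · have hmκ : m ≤ κ := by rw [hm]; exact max_le hκ (hx.trans N.T_le)
    have hA := N.caseA hd h hx hz hzj
    have hmD : 1 ≤ m ^ z.norm.natDegree := one_le_pow₀ hm1
    rcases le_total (v (f.eval x)) (v (f.derivative.eval x)) with h2 | h2
    · have h3 : v Δ ≤ κ * v (f.derivative.eval x) := by
        have := N.h1 x hx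
        rwa [max_eq_right h2] at this
      apply key (3 * z.norm.natDegree + (10 * g + 13) * j + 4 + 2 * j + (2 * g + 2) * j)
        (by nlinarith)
      calc v Δ ^ (2 * j) * v (evP x y h z) ^ 2 * m ^ ((2 * g + 2) * j)
          ≤ (κ * v (f.derivative.eval x)) ^ (2 * j) * v (evP x y h z) ^ 2 *
            κ ^ ((2 * g + 2) * j) := by gcongr
        _ = κ ^ (2 * j) * (v (evP x y h z) ^ 2 * v (f.derivative.eval x) ^ (2 * j)) *
            κ ^ ((2 * g + 2) * j) := by rw [mul_pow]; ring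
        _ ≤ κ ^ (2 * j) * (κ ^ (3 * z.norm.natDegree + (10 * g + 13) * j + 4) * N.ν z ^ 2 *
              v y ^ (2 * j)) * κ ^ ((2 * g + 2) * j) := by gcongr
        _ = (κ ^ (3 * z.norm.natDegree + (10 * g + 13) * j + 4) * κ ^ (2 * j) *
              κ ^ ((2 * g + 2) * j)) * N.ν z ^ 2 * v y ^ (2 * j) * 1 := by ring
        _ ≤ (κ ^ (3 * z.norm.natDegree + (10 * g + 13) * j + 4) * κ ^ (2 * j) *
              κ ^ ((2 * g + 2) * j)) * N.ν z ^ 2 * v y ^ (2 * j) * m ^ z.norm.natDegree := by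
            gcongr
        _ = _ := by rw [← pow_add, ← pow_add]
    · have h3 : v Δ ≤ κ * v y ^ 2 := by
        have := N.h1 x hx
        rwa [max_eq_left h2, ← h, map_pow] at this
      apply key (2 + 2 * j + (2 * g + 2) * j) (by nlinarith)
      have h4 := N.ν_eval z x y h
      rw [← hm] at h4
      calc v Δ ^ (2 * j) * v (evP x y h z) ^ 2 * m ^ ((2 * g + 2) * j)
          = v Δ ^ j * v Δ ^ j * v (evP x y h z) ^ 2 * m ^ ((2 * g + 2) * j) := by
            rw [two_mul j, pow_add]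
        _ ≤ κ ^ j * (κ * v y ^ 2) ^ j * (κ ^ 2 * N.ν z ^ 2 * m ^ z.norm.natDegree) *
              κ ^ ((2 * g + 2) * j) := by
            have := N.Δ_le
            gcongr
        _ = (κ ^ j * κ ^ j * κ ^ 2 * κ ^ ((2 * g + 2) * j)) * N.ν z ^ 2 * v y ^ (2 * j) *
              m ^ z.norm.natDegree := by rw [mul_pow, ← pow_mul]; ring
        _ = _ := by
            rw [← pow_add, ← pow_add, ← pow_add]
            congr 4
            ring
  · have hB := N.caseB hd hg h hx hz hzj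
    rw [← hm] at hB
    apply key (2 * z.norm.natDegree + (4 * g + 11) * j + 4 + 2 * j) (by nlinarith)
    calc v Δ ^ (2 * j) * v (evP x y h z) ^ 2 * m ^ ((2 * g + 2) * j)
        = v Δ ^ (2 * j) * (v (evP x y h z) ^ 2 * m ^ ((2 * g + 2) * j)) := by ring
      _ ≤ κ ^ (2 * j) * (κ ^ (2 * z.norm.natDegree + (4 * g + 11) * j + 4) * N.ν z ^ 2 *
            v y ^ (2 * j) * m ^ z.norm.natDegree) := by
          have := N.Δ_le
          gcongr
      _ = (κ ^ (2 * z.norm.natDegree + (4 * g + 11) * j + 4) * κ ^ (2 * j)) * N.ν z ^ 2 *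
            v y ^ (2 * j) * m ^ z.norm.natDegree := by ring
      _ = _ := by rw [← pow_add]

end LN

end Pool.Agent.KS6_58
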