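import Pool.Agent.KS6_58.Ar
import Pool.Graph.R_seed8.H437R2.Man.V1

/-!
# The height of a point at which a function vanishes to a high order
-/

set_option autoImplicit false

namespace Pool.Agent.KS6_58

open Polynomial Pool.Agent.Y723.HJ Pool.Agent.H437R2.Man Height Height.AdmissibleAbsValues

/-- `f` is monic of degree `2 g + 1` and separable, with integral coefficients bounded by `R` at the
archimedean places -/
structure Dat {L : Type} [Field L] (f : L[X]) (g : ℕ) (R : ℝ) : Prop where
  monic : f.Monic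
  deg : f.natDegree = 2 * g + 1
  int : ∀ i, IsIntegral ℤ (f.coeff i)
  bd : ∀ φ : L →+* ℂ, L1 (f.map φ) ≤ R
  bez : ∃ (A B : L[X]) (Δ : L), A * f + B * derivative f = C Δ ∧ Δ ≠ 0 ∧ IsIntegral ℤ Δ ∧
    (∀ i, IsIntegral ℤ (A.coeff i)) ∧ (∀ i, IsIntegral ℤ (B.coeff i)) ∧
    A.natDegree ≤ 2 * g + 1 ∧ B.natDegree ≤ 2 * g + 1 ∧
    ∀ φ : L →+* ℂ, L1 (A.map φ) ≤ R ∧ L1 (B.map φ) ≤ R ∧ ‖φ Δ‖ ≤ R

lemma Dat.oddM {L : Type} [Field L] {f : L[X]} {g : ℕ} {R : ℝ} (h : Dat f g R) : OddM f :=
  ⟨h.monic, by rw [h.deg]; exact ⟨g, rfl⟩⟩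

lemma Dat.hf {L : Type} [Field L] [CharZero L] {f : L[X]} {g : ℕ} {R : ℝ} (h : Dat f g R) :
    HF f :=
  { h.oddM with
    sep := by
      obtain ⟨A, B, Δ, hAB, hΔ, -⟩ := h.bez
      refine ⟨C Δ⁻¹ * A, C Δ⁻¹ * B, ?_⟩
      have : C Δ⁻¹ * A * f + C Δ⁻¹ * B * derivative f = C Δ⁻¹ * (A * f + B * derivative f) := by
        ring
      rw [this, hAB, ← C_mul, inv_mul_cancel₀ hΔ, C_1]
    two := two_ne_zero }

lemma Dat.map {L L' : Type} [Field L] [Field L'] {f : L[X]} {g : ℕ} {R : ℝ}
    (h : Dat f g R) (ψ : L →+* L') : Dat (f.map ψ) g R where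
  monic := h.monic.map ψ
  deg := by rw [natDegree_map, h.deg]
  int i := by rw [coeff_map]; exact map_isIntegral_int ψ (h.int i)
  bd φ := by rw [Polynomial.map_map]; exact h.bd _
  bez := by
    obtain ⟨A, B, Δ, hAB, hΔ, hi, hA, hB, hdA, hdB, hR⟩ := h.bez
    refine ⟨A.map ψ, B.map ψ, ψ Δ, ?_, ?_, map_isIntegral_int ψ hi, ?_, ?_, ?_, ?_, ?_⟩
    · rw [derivative_map, ← Polynomial.map_mul, ← Polynomial.map_mul, ← Polynomial.map_add, hAB,
        map_C]
    · exact (map_ne_zero ψ).2 hΔ
    · intro i; rw [coeff_map]; exact map_isIntegral_int ψ (hA i)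
    · intro i; rw [coeff_map]; exact map_isIntegral_int ψ (hB i)
    · rw [natDegree_map]; exact hdA
    · rw [natDegree_map]; exact hdB
    · intro φ
      obtain ⟨h1, h2, h3⟩ := hR (φ.comp ψ)
      rw [Polynomial.map_map, Polynomial.map_map]
      exact ⟨h1, h2, h3⟩

/-- nonarchimedean absolute values of integral elements -/
lemma v_int_le {k : Type} [Field k] {v : AbsoluteValue k ℝ} (hna : IsNonarchimedean v) {x : k}
    (hx : IsIntegral ℤ x) : v x ≤ 1 := by
  by_contra hc
  push Not at hc
  obtain ⟨p, hp, hpx⟩ := hx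
  obtain ⟨P, hP⟩ : ∃ P : k[X], P = p.map (algebraMap ℤ k) := ⟨_, rfl⟩
  have hPm : P.Monic := by rw [hP]; exact hp.map _
  have hP0 : P.eval x = 0 := by rw [hP, eval_map]; exact hpx
  have hPc : ∀ i, v (P.coeff i) ≤ 1 := by
    intro i
    rw [hP, coeff_map]
    have h1 : ∀ m : ℤ, v (algebraMap ℤ k m) ≤ 1 := by
      intro m
      rcases Int.natAbs_eq m with h | h
      · rw [h]; simpa using v_nat_le hna m.natAbs
      · rw [h, map_neg, map_neg_eq_map]; simpa using v_nat_le hna m.natAbs
    exact h1 _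
  rw [eval_eq_sum_range, Finset.sum_range_succ, hPm.coeff_natDegree, one_mul] at hP0
  have hn : P.natDegree ≠ 0 := by
    intro h0
    rw [h0] at hP0
    simp at hP0
  obtain ⟨m, hm⟩ := Nat.exists_eq_succ_of_ne_zero hn
  have h2 : v (∑ i ∈ Finset.range P.natDegree, P.coeff i * x ^ i) ≤ v x ^ m := by
    have : ∀ (s : Finset ℕ), (∀ i ∈ s, i ≤ m) →
        v (∑ i ∈ s, P.coeff i * x ^ i) ≤ v x ^ m := by
      intro s
      classical
      induction s using Finset.induction_on with
      | empty =>
        intro _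
        simp only [Finset.sum_empty, map_zero]
        positivity
      | insert a s ha ih =>
        intro h
        rw [Finset.sum_insert ha]
        refine (hna _ _).trans (max_le ?_ (ih fun x hx => h x (Finset.mem_insert_of_mem hx)))
        rw [map_mul, map_pow]
        calc v (P.coeff a) * v x ^ a ≤ 1 * v x ^ m := by
              gcongr
              · exact hPc a
              · exact hc.le
              · exact h a (Finset.mem_insert_self _ _)
          _ = _ := one_mul _
    exact this _ fun i hi => by rw [Finset.mem_range] at hi; omega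
  have h3 : x ^ P.natDegree = -∑ i ∈ Finset.range P.natDegree, P.coeff i * x ^ i := by
    linear_combination hP0
  have h4 := congrArg v h3
  rw [map_neg_eq_map, map_pow, hm, pow_succ] at h4
  rw [hm] at h2
  rw [← h4] at h2
  have h5 : 0 < v x ^ m := by positivity
  nlinarith

section

variable {L : Type} [Field L] [NumberField L]

lemma gs_sum {s : Multiset L} :
    FS (fun v : AbsoluteValue L ℝ => (s.map fun a => lx a v).sum) ∧
    gs (fun v : AbsoluteValue L ℝ => (s.map fun a => lx a v).sum) =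
      (s.map fun a => logHeight₁ a).sum := by
  induction s using Multiset.induction_on with
  | empty =>
    constructor
    · unfold FS
      simp
    · simp [gs]
  | cons a s ih =>
    have e : (fun v : AbsoluteValue L ℝ => ((a ::ₘ s).map fun a => lx a v).sum) =
        fun v => lx a v + (s.map fun a => lx a v).sum := by
      funext v
      rw [Multiset.map_cons, Multiset.sum_cons]
    rw [e]
    exact ⟨(FS_lx a).add ih.1, by
      rw [gs_add (FS_lx a) ih.1, ih.2, gs_lx, Multiset.map_cons, Multiset.sum_cons]⟩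

omit [NumberField L] in
lemma max_one_eq (v : AbsoluteValue L ℝ) (x : L) : Real.log (max 1 (v x)) = lx x v := by
  rw [lx, max_comm]

/-- the local inequality in logarithmic form -/
lemma local_log {v : AbsoluteValue L ℝ} {f : L[X]} [HF f] {g : ℕ} {Δ : L} {κ T : ℝ}
    (N : LN v f g Δ κ T) (hd : f.natDegree = 2 * g + 1) (hg : 1 ≤ g) {x y : L}
    (h : y ^ 2 = f.eval x) (hy : y ≠ 0) (hΔ : Δ ≠ 0) {z : CR f} {j : ℕ}
    (hzj : z ∈ mi f (X - C x) (-C y) ^ j) (hzQ : evP x y h z ≠ 0) {c : L} {s : Multiset L}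
    (hnorm : z.norm = C c * (s.map (fun a => X - C a)).prod) :
    (2 * j : ℕ) * Real.log (v Δ) + 2 * Real.log (v (evP x y h z)) +
      ((2 * g + 2) * j : ℕ) * lx x v ≤
    Real.log (v c) + (s.map fun a => lx a v).sum + (2 * j : ℕ) * Real.log (v y) +
      (Multiset.card s : ℕ) * lx x v +
      ((12 * g + 20) * (Multiset.card s + j + 1) : ℕ) * Real.log κ := by
  have hz : z ≠ 0 := by
    rintro rfl
    exact hzQ (map_zero _)
  have hn0 := norm_ne hz
  have hc : c ≠ 0 := by
    rintro rfl
    rw [C_0, zero_mul] at hnorm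
    exact hn0 hnorm
  have hmon : (s.map (fun a => X - C a)).prod.Monic :=
    monic_multiset_prod_of_monic _ _ fun a _ => monic_X_sub_C a
  have hdeg : z.norm.natDegree = Multiset.card s := by
    rw [hnorm, natDegree_C_mul hc, natDegree_multiset_prod_X_sub_C_eq_card]
  have hμ : N.μ z.norm = v c * (s.map fun a => max 1 (v a)).prod := by
    rw [hnorm, N.μ_mul, N.μ_C]
    congr 1
    clear hnorm hmon hdeg
    induction s using Multiset.induction_on with
    | empty =>
      rw [Multiset.map_zero, Multiset.prod_zero, Multiset.map_zero, Multiset.prod_zero]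
      have := N.μ_C 1
      rwa [C_1, map_one] at this
    | cons a s ih =>
      rw [Multiset.map_cons, Multiset.prod_cons, Multiset.map_cons, Multiset.prod_cons, N.μ_mul,
        N.μ_X, ih]
  have hloc := N.local_ineq hd hg h hz hzj
  rw [hdeg, hμ] at hloc
  have hvΔ : 0 < v Δ := v.pos hΔ
  have hvz : 0 < v (evP x y h z) := v.pos hzQ
  have hvy : 0 < v y := v.pos hy
  have hvc : 0 < v c := v.pos hc
  have hm : 0 < max 1 (v x) := lt_of_lt_of_le one_pos (le_max_left _ _)
  have hκ : 0 < κ := lt_of_lt_of_le one_pos N.one_le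
  have hprod : 0 < (s.map fun a => max 1 (v a)).prod := by
    apply Multiset.prod_pos
    intro a ha
    rw [Multiset.mem_map] at ha
    obtain ⟨b, -, rfl⟩ := ha
    exact lt_of_lt_of_le one_pos (le_max_left _ _)
  have hlog := Real.log_le_log (by positivity) hloc
  rw [Real.log_mul (by positivity) (by positivity), Real.log_mul (by positivity) (by positivity),
    Real.log_mul (by positivity) (by positivity), Real.log_mul (by positivity) (by positivity),
    Real.log_mul (by positivity) (by positivity), Real.log_mul (by positivity) (by positivity),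
    Real.log_pow, Real.log_pow, Real.log_pow, Real.log_pow, Real.log_pow, Real.log_pow,
    max_one_eq] at hlog
  have hs : Real.log (s.map fun a => max 1 (v a)).prod = (s.map fun a => lx a v).sum := by
    rw [Real.log_multiset_prod, Multiset.map_map]
    · congr 1
      apply Multiset.map_congr rfl
      intro a _
      exact max_one_eq v a
    · intro a ha
      rw [Multiset.mem_map] at ha
      obtain ⟨b, -, rfl⟩ := ha
      exact (lt_of_lt_of_le one_pos (le_max_left _ _)).ne'
  rw [hs] at hlog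
  push_cast at hlog ⊢
  linarith

/-- the height of a point at which a function vanishes to a high order -/
theorem ME {f : L[X]} {g : ℕ} {R : ℝ} (hD : Dat f g R) [HF f] (hg : 1 ≤ g) (hR : 1 ≤ R) {x y : L}
    (h : y ^ 2 = f.eval x) (hy : y ≠ 0) {z : CR f} {j : ℕ}
    (hzj : z ∈ mi f (X - C x) (-C y) ^ j) (hzQ : evP x y h z ≠ 0) {c : L} {s : Multiset L}
    (hnorm : z.norm = C c * (s.map (fun a => X - C a)).prod) :
    ((2 * g + 2) * j : ℕ) * logHeight₁ x ≤ (s.map fun a => logHeight₁ a).sum +
      (Multiset.card s : ℕ) * logHeight₁ x +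
      totalWeight L * (((12 * g + 20) * (Multiset.card s + j + 1) : ℕ) * Real.log (KK g R)) := by
  obtain ⟨A, B, Δ, hAB, hΔ, hi, hA, hB, hdA, hdB, hRR⟩ := hD.bez
  have hz : z ≠ 0 := by
    rintro rfl
    exact hzQ (map_zero _)
  have hn0 := norm_ne hz
  have hc : c ≠ 0 := by
    rintro rfl
    rw [C_0, zero_mul] at hnorm
    exact hn0 hnorm
  have h1 := gs_le (K := L)
    (f := fun v => (2 * j : ℕ) * Real.log (v Δ) + 2 * Real.log (v (evP x y h z)) +
      ((2 * g + 2) * j : ℕ) * lx x v)
    (g := fun v => Real.log (v c) + (s.map fun a => lx a v).sum +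
      (2 * j : ℕ) * Real.log (v y) + (Multiset.card s : ℕ) * lx x v)
    (((FS_log hΔ).const_mul _).add ((FS_log hzQ).const_mul _) |>.add ((FS_lx x).const_mul _))
    ((((FS_log hc).add gs_sum.1).add ((FS_log hy).const_mul _)).add ((FS_lx x).const_mul _))
    (((12 * g + 20) * (Multiset.card s + j + 1) : ℕ) * Real.log (KK g R)) ?_ ?_
  · rw [gs_add (((FS_log hΔ).const_mul _).add ((FS_log hzQ).const_mul _)) ((FS_lx x).const_mul _),
      gs_add ((FS_log hΔ).const_mul _) ((FS_log hzQ).const_mul _), gs_const_mul _ (FS_log hΔ),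
      gs_const_mul _ (FS_log hzQ), gs_const_mul _ (FS_lx x), gs_log hΔ, gs_log hzQ, gs_lx,
      gs_add (((FS_log hc).add gs_sum.1).add ((FS_log hy).const_mul _)) ((FS_lx x).const_mul _),
      gs_add ((FS_log hc).add gs_sum.1) ((FS_log hy).const_mul _),
      gs_add (FS_log hc) gs_sum.1, gs_log hc, gs_sum.2, gs_const_mul _ (FS_log hy), gs_log hy,
      gs_const_mul _ (FS_lx x), gs_lx] at h1
    linarith
  · intro v hv
    obtain ⟨φ, hφ⟩ := arch_emb hv
    have N : LN v f g Δ (KK g R) (TT g R) := arLN hR φ hφ hD.deg (hD.bd φ) (hRR φ).1 (hRR φ).2.1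
      hdA hdB hAB (by rw [hφ]; exact (hRR φ).2.2)
    exact local_log N hD.deg hg h hy hΔ hzj hzQ hnorm
  · intro v hv
    have hna := isNonarchimedean v hv
    have N : LN v f g Δ 1 1 := naLN hna hD.deg (fun i => v_int_le hna (hD.int i))
      (fun i => v_int_le hna (hA i)) (fun i => v_int_le hna (hB i)) hAB (v_int_le hna hi)
    have := local_log N hD.deg hg h hy hΔ hzj hzQ hnorm
    rw [Real.log_one, mul_zero, add_zero] at this
    exact this

end

end Pool.Agent.KS6_58
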