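import Pool.Agent.KS6_58.SelN

/-!
# Finiteness of `K(S,n)` in terms of absolute values
-/

set_option autoImplicit false

open IsDedekindDomain NumberField

namespace Pool.Agent.KS6_58

variable {K : Type} [Field K] [NumberField K]

lemma adic_eq_iff (v : HeightOneSpectrum (𝓞 K)) (x y : K) :
    NumberField.HeightOneSpectrum.adicAbv K v x = NumberField.HeightOneSpectrum.adicAbv K v y ↔
      v.valuation K x = v.valuation K y := by
  rw [NumberField.HeightOneSpectrum.adicAbv_def, NumberField.HeightOneSpectrum.adicAbv_def]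
  constructor
  · intro h
    have h' := NNReal.coe_injective h
    exact (WithZeroMulInt.toNNReal_strictMono
      (NumberField.HeightOneSpectrum.one_lt_absNorm_nnreal v)).injective h'
  · intro h
    rw [h]

lemma finite_bad_places {D : K} (hD : D ≠ 0) :
    {v : HeightOneSpectrum (𝓞 K) | NumberField.HeightOneSpectrum.adicAbv K v D ≠ 1}.Finite := by
  have h := NumberField.FinitePlace.hasFiniteMulSupport (K := K) hD
  refine Set.Finite.of_injOn (f := fun v => NumberField.FinitePlace.mk v) ?_ ?_ h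
  · intro v hv
    simp only [Set.mem_ofPred_eq] at hv
    rw [Function.mem_mulSupport]
    intro h1
    apply hv
    rw [← h1, ← NumberField.FinitePlace.norm_embedding]
    rfl
  · intro v _ w _ h
    exact NumberField.FinitePlace.mk_eq_iff.1 h

/-- finiteness of `K(S,n)` in terms of absolute values -/
theorem sel_abs {n : ℕ} (hn : 0 < n) {D : K} (hD : D ≠ 0) :
    ∃ T : Finset K, (∀ t ∈ T, t ≠ 0) ∧ ∀ a : K, a ≠ 0 →
      (∀ v : AbsoluteValue K ℝ, IsNonarchimedean v → v D = 1 → ∃ z : K, z ≠ 0 ∧ v a = v (z ^ n)) →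
      ∃ t ∈ T, ∃ b : K, a = t * b ^ n := by
  obtain ⟨T, hT0, hT⟩ := sel_finite_n hn _ (finite_bad_places hD)
  refine ⟨T, hT0, fun a ha h => ?_⟩
  obtain ⟨t, ht, b, -, hb⟩ := hT (Units.mk0 a ha) (by
    intro v hv
    simp only [Set.mem_ofPred_eq, ne_eq, not_not] at hv
    obtain ⟨z, hz, hz'⟩ := h _ (NumberField.HeightOneSpectrum.isNonarchimedean_adicAbv K v) hv
    rw [adic_eq_iff] at hz'
    have h1 : v.valuationOfNeZero (Units.mk0 a ha) = v.valuationOfNeZero (Units.mk0 z hz ^ n) := by
      have h2 := v.valuationOfNeZero_eq (K := K) (Units.mk0 a ha)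
      have h3 := v.valuationOfNeZero_eq (K := K) (Units.mk0 z hz ^ n)
      rw [Units.val_mk0, hz'] at h2
      rw [Units.val_pow_eq_pow_val, Units.val_mk0, ← h2] at h3
      exact (WithZero.coe_injective h3).symm
    rw [h1, map_pow, toAdd_pow, nsmul_eq_mul]
    exact dvd_mul_right _ _)
  exact ⟨t, ht, b, hb⟩

end Pool.Agent.KS6_58
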