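import Pool.Agent.KS6_58.Lam
import Pool.Agent.KS6_58.Sel2
import Pool.Agent.KS6_58.DynH

/-!
# Uniform boundedness for `x ^ d + c`, `d ≥ 5`, over number fields
-/

set_option autoImplicit false

namespace Pool.Agent.KS6_58

open Function Height Height.AdmissibleAbsValues NumberField

section prep

variable {K : Type} [Field K] [NumberField K] {n : ℕ} {ζ : K} {c : K}

/-- the points `ζ, ζ^2, …, ζ^n` -/
def eζ (n : ℕ) (ζ : K) : Fin n → K := fun j => ζ ^ ((j : ℕ) + 1)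

omit [NumberField K] in
lemma eζ_inj (hζ : IsPrimitiveRoot ζ (n + 1)) : Function.Injective (eζ n ζ) := by
  intro i j h
  have h1 := hζ.pow_inj (by omega : (i : ℕ) + 1 < n + 1) (by omega : (j : ℕ) + 1 < n + 1) h
  exact Fin.ext (by omega)

/-- admissible pairs -/
def Adm (n : ℕ) (x y : K) : Prop :=
  (∀ η : K, η ^ (n + 1) = 1 → η ≠ 1 → x ≠ η * y) ∧
  ∀ v : AbsoluteValue K ℝ, IsNonarchimedean v → v ((n : K) + 1) = 1 →
    ∀ η η' : K, η ^ (n + 1) = 1 → η ≠ 1 → η' ^ (n + 1) = 1 → η' ≠ 1 →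
      ∃ z : K, z ≠ 0 ∧ v ((x - η * y) / (x - η' * y)) = v (z ^ n)

omit [NumberField K] in
lemma adm_rat (hζ : IsPrimitiveRoot ζ (n + 1)) {T : Finset K}
    (hT : ∀ a : K, a ≠ 0 →
      (∀ v : AbsoluteValue K ℝ, IsNonarchimedean v → v ((n : K) + 1) = 1 →
        ∃ z : K, z ≠ 0 ∧ v a = v (z ^ n)) → ∃ t ∈ T, ∃ b : K, a = t * b ^ n)
    {x y : K} (hy : y ≠ 0) (h : Adm n x y) : RatP (eζ n ζ) T (x / y) := by
  obtain ⟨h1, h2⟩ := h
  have hr : ∀ j : Fin n, eζ n ζ j ^ (n + 1) = 1 := fun j => pow_root hζ _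
  have hr1 : ∀ j : Fin n, eζ n ζ j ≠ 1 := fun j => pow_ne hζ j.2
  refine ⟨fun j hj => ?_, fun j k => ?_⟩
  · rw [div_eq_iff hy] at hj
    exact h1 _ (hr j) (hr1 j) hj
  · have hj0 : x - eζ n ζ j * y ≠ 0 := sub_ne_zero.2 (h1 _ (hr j) (hr1 j))
    have hk0 : x - eζ n ζ k * y ≠ 0 := sub_ne_zero.2 (h1 _ (hr k) (hr1 k))
    have e : (x / y - eζ n ζ j) / (x / y - eζ n ζ k) =
        (x - eζ n ζ j * y) / (x - eζ n ζ k * y) := by
      have e1 : x / y - eζ n ζ j = (x - eζ n ζ j * y) / y := by field_simp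
      have e2 : x / y - eζ n ζ k = (x - eζ n ζ k * y) / y := by field_simp
      rw [e1, e2, div_div_div_cancel_right₀ hy]
    rw [e]
    exact hT _ (div_ne_zero hj0 hk0) fun v hna hv => h2 v hna hv _ _ (hr j) (hr1 j) (hr k) (hr1 k)

omit [NumberField K] in
lemma fc_inj_per {x y : K} (hx : x ∈ periodicPts (fc (n + 1) c))
    (hy : y ∈ periodicPts (fc (n + 1) c)) (h : fc (n + 1) c x = fc (n + 1) c y) : x = y :=
  (bijOn_periodicPts (fc (n + 1) c)).injOn hx hy h

omit [NumberField K] in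
lemma iter_inj_per {x y : K} (hx : x ∈ periodicPts (fc (n + 1) c))
    (hy : y ∈ periodicPts (fc (n + 1) c)) {k : ℕ}
    (h : (fc (n + 1) c)^[k] x = (fc (n + 1) c)^[k] y) : x = y := by
  induction k with
  | zero => exact h
  | succ k ih =>
    rw [iterate_succ_apply', iterate_succ_apply'] at h
    exact ih (fc_inj_per (per_iter hx _) (per_iter hy _) h)

omit [NumberField K] in
lemma fc_root {x y η : K} (hη : η ^ (n + 1) = 1) (h : x = η * y) :
    fc (n + 1) c x = fc (n + 1) c y := by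
  unfold fc
  rw [h, mul_pow, hη, one_mul]

omit [NumberField K] in
/-- two periodic points -/
lemma adm_per (hζ : IsPrimitiveRoot ζ (n + 1)) (hn : 1 ≤ n) {x y : K}
    (hx : x ∈ periodicPts (fc (n + 1) c)) (hy : y ∈ periodicPts (fc (n + 1) c)) (hne : x ≠ y) :
    Adm n x y := by
  have h1 : ∀ η : K, η ^ (n + 1) = 1 → η ≠ 1 → x ≠ η * y := fun η hη _ h =>
    hne (fc_inj_per hx hy (fc_root hη h))
  refine ⟨h1, fun v hna hv η η' hη hη1 hη' hη1' => ?_⟩
  rcases le_or_gt (v c) 1 with hc | hc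
  · refine ⟨1, one_ne_zero, ?_⟩
    rw [map_div₀, good_per hna hζ hn hc hx hy hne hη hη1,
      good_per hna hζ hn hc hx hy hne hη' hη1', one_pow, map_one, div_one]
  · exact bad_ratio hna hζ hv hn hc (PreP.of_per hx) (PreP.of_per hy) hη hη' (h1 η hη hη1)
      (h1 η' hη' hη1')

omit [NumberField K] in
/-- a tail and a periodic point -/
lemma adm_tail (hζ : IsPrimitiveRoot ζ (n + 1)) (hn : 1 ≤ n) {x y w θ : K}
    (hx : PreP (fc (n + 1) c) x) (hx' : fc (n + 1) c x ∉ periodicPts (fc (n + 1) c))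
    (hy : y ∈ periodicPts (fc (n + 1) c)) (hw : w ∈ periodicPts (fc (n + 1) c)) {k : ℕ}
    (hk : 1 ≤ k) (hθ : θ ^ (n + 1) = 1) (hθ1 : θ ≠ 1) (hkx : (fc (n + 1) c)^[k] x = θ * w)
    (hne : (fc (n + 1) c)^[k] y ≠ w) : Adm n x y := by
  have h1 : ∀ η : K, η ^ (n + 1) = 1 → η ≠ 1 → x ≠ η * y := fun η hη _ h =>
    hx' ((fc_root hη h : fc (n + 1) c x = fc (n + 1) c y) ▸ per_map hy)
  refine ⟨h1, fun v hna hv η η' hη hη1 hη' hη1' => ?_⟩
  rcases le_or_gt (v c) 1 with hc | hc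
  · refine ⟨1, one_ne_zero, ?_⟩
    have h2 : v ((fc (n + 1) c)^[k] x - (fc (n + 1) c)^[k] y) = 1 := by
      rw [hkx, ← v.map_neg, neg_sub]
      exact good_per hna hζ hn hc (per_iter hy k) hw hne hθ hθ1
    rw [map_div₀, good_iter hna hζ hn hc hx (PreP.of_per hy) hk h2 hη,
      good_iter hna hζ hn hc hx (PreP.of_per hy) hk h2 hη', one_pow, map_one, div_one]
  · exact bad_ratio hna hζ hv hn hc hx (PreP.of_per hy) hη hη' (h1 η hη hη1)
      (h1 η' hη' hη1')

omit [NumberField K] in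
/-- a tail and the fixed point -/
lemma adm_fix (hζ : IsPrimitiveRoot ζ (n + 1)) (hn : 1 ≤ n) {x z θ : K}
    (hx : PreP (fc (n + 1) c) x) (hx' : fc (n + 1) c x ∉ periodicPts (fc (n + 1) c))
    (hz : fc (n + 1) c z = z) (hz0 : z ≠ 0) {k : ℕ}
    (hk : 1 ≤ k) (hθ : θ ^ (n + 1) = 1) (hθ1 : θ ≠ 1) (hkx : (fc (n + 1) c)^[k] x = θ * z) :
    Adm n x z := by
  have hzp : z ∈ periodicPts (fc (n + 1) c) := ⟨1, one_pos, hz⟩
  have h1 : ∀ η : K, η ^ (n + 1) = 1 → η ≠ 1 → x ≠ η * z := fun η hη _ h =>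
    hx' ((fc_root hη h : fc (n + 1) c x = fc (n + 1) c z) ▸ per_map hzp)
  refine ⟨h1, fun v hna hv η η' hη hη1 hη' hη1' => ?_⟩
  rcases le_or_gt (v c) 1 with hc | hc
  · refine ⟨1, one_ne_zero, ?_⟩
    rw [good_fix hna hζ hv hn hc hx hz hz0 hk hθ hθ1 hkx hη hη', one_pow, map_one]
  · exact bad_ratio hna hζ hv hn hc hx (PreP.of_per hzp) hη hη' (h1 η hη hη1)
      (h1 η' hη' hη1')

omit [NumberField K] in
/-- the structure of the tails -/
lemma tail_data {x : K} (h0 : ¬ PreP (fc (n + 1) c) 0) (hx : PreP (fc (n + 1) c) x)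
    (hx' : fc (n + 1) c x ∉ periodicPts (fc (n + 1) c)) :
    ∃ k : ℕ, 1 ≤ k ∧ ∃ θ w : K, θ ^ (n + 1) = 1 ∧ θ ≠ 1 ∧ w ∈ periodicPts (fc (n + 1) c) ∧
      (fc (n + 1) c)^[k] x = θ * w := by
  classical
  obtain ⟨f, hf⟩ : ∃ f, f = fc (n + 1) c := ⟨_, rfl⟩
  rw [← hf] at h0 hx hx' ⊢
  have hex := hx.exists_per
  obtain ⟨m, hm, hmin⟩ : ∃ m, f^[m] x ∈ periodicPts f ∧ ∀ j < m, f^[j] x ∉ periodicPts f :=
    ⟨Nat.find hex, Nat.find_spec hex, fun j hj => Nat.find_min hex hj⟩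
  have hm0 : m ≠ 0 := by
    rintro rfl
    exact hx' (per_map hm)
  have hm1 : m ≠ 1 := by
    rintro rfl
    exact hx' hm
  obtain ⟨k, rfl⟩ : ∃ k, m = k + 1 := ⟨m - 1, by omega⟩
  refine ⟨k, by omega, ?_⟩
  obtain ⟨w, hw, hwe⟩ := (bijOn_periodicPts f).surjOn hm
  rw [iterate_succ_apply'] at hwe
  have hw0 : w ≠ 0 := by
    rintro rfl
    exact h0 (PreP.of_per hw)
  have hpow : (f^[k] x) ^ (n + 1) = w ^ (n + 1) := by
    rw [hf] at hwe ⊢
    unfold fc at hwe ⊢
    exact (add_right_cancel hwe).symm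
  refine ⟨f^[k] x / w, w, ?_, ?_, hw, ?_⟩
  · rw [div_pow, hpow, div_self (pow_ne_zero _ hw0)]
  · intro h
    rw [div_eq_one_iff_eq hw0] at h
    exact hmin k (by omega) (h ▸ hw)
  · rw [div_mul_cancel₀ _ hw0]

end prep

section count

variable {K : Type} [Field K] [NumberField K] {n : ℕ} {ζ : K} {c : K}

omit [NumberField K] in
/-- the counting argument -/
lemma count (hζ : IsPrimitiveRoot ζ (n + 1)) (hn : 1 ≤ n) (h0 : ¬ PreP (fc (n + 1) c) 0) {B : ℕ}
    (hB : ∀ y : K, PreP (fc (n + 1) c) y → ∀ S : Finset K,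
      (∀ x ∈ S, PreP (fc (n + 1) c) x ∧ fc (n + 1) c x ≠ fc (n + 1) c y ∧ Adm n x y) → S.card ≤ B)
    {S : Finset K} (hS : ∀ x ∈ S, PreP (fc (n + 1) c) x) :
    S.card ≤ (n + 1) * (B + 1) + 2 * B := by
  classical
  -- periodic points
  have c1 : ∀ S₁ : Finset K, (∀ x ∈ S₁, x ∈ periodicPts (fc (n + 1) c)) → S₁.card ≤ B + 1 := by
    intro S₁ h₁
    rcases S₁.eq_empty_or_nonempty with rfl | ⟨y, hy⟩
    · simp
    · rw [← Finset.card_erase_add_one hy]
      apply Nat.add_le_add_right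
      apply hB y (PreP.of_per (h₁ y hy))
      intro x hx
      rw [Finset.mem_erase] at hx
      refine ⟨PreP.of_per (h₁ x hx.2), fun h => hx.1 (fc_inj_per (h₁ x hx.2) (h₁ y hy) h), ?_⟩
      exact adm_per hζ hn (h₁ x hx.2) (h₁ y hy) hx.1
  -- points whose image is periodic
  have c2 : ∀ S₂ : Finset K, (∀ x ∈ S₂, fc (n + 1) c x ∈ periodicPts (fc (n + 1) c)) →
      S₂.card ≤ (n + 1) * (B + 1) := by
    intro S₂ h₂
    calc S₂.card ≤ (n + 1) * (S₂.image (fc (n + 1) c)).card := by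
          apply Finset.card_le_mul_card_image
          intro a _
          refine card_quad (Q := Polynomial.X ^ (n + 1) - Polynomial.C (a - c))
            (Polynomial.X_pow_sub_C_ne_zero (Nat.succ_pos n) _)
            (by rw [Polynomial.natDegree_X_pow_sub_C]) ?_
          intro x hx
          rw [Finset.mem_filter] at hx
          have h3 : x ^ (n + 1) + c = a := hx.2
          simp only [Polynomial.eval_sub, Polynomial.eval_pow, Polynomial.eval_X,
            Polynomial.eval_C]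
          linear_combination h3
      _ ≤ (n + 1) * (B + 1) := by
          apply Nat.mul_le_mul_left
          apply c1
          intro x hx
          obtain ⟨t, ht, rfl⟩ := Finset.mem_image.1 hx
          exact h₂ t ht
  -- the remaining points
  have c3 : ∀ S₃ : Finset K, (∀ x ∈ S₃, PreP (fc (n + 1) c) x ∧
      fc (n + 1) c x ∉ periodicPts (fc (n + 1) c)) → S₃.card ≤ 2 * B := by
    intro S₃ h₃
    rcases S₃.eq_empty_or_nonempty with rfl | ⟨x0, hx0⟩
    · simp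
    obtain ⟨-, -, -, y1, -, -, hy1, -⟩ := tail_data h0 (h₃ x0 hx0).1 (h₃ x0 hx0).2
    obtain ⟨y2, hy2, hy⟩ : ∃ y2, y2 ∈ periodicPts (fc (n + 1) c) ∧
        ∀ x ∈ S₃, Adm n x y1 ∨ Adm n x y2 := by
      by_cases hex : ∃ y2 ∈ periodicPts (fc (n + 1) c), y2 ≠ y1
      · obtain ⟨y2, hy2, hne⟩ := hex
        refine ⟨y2, hy2, fun x hx => ?_⟩
        obtain ⟨k, hk, θ, w, hθ, hθ1, hw, hkx⟩ := tail_data h0 (h₃ x hx).1 (h₃ x hx).2
        by_cases h : (fc (n + 1) c)^[k] y1 = w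
        · right
          refine adm_tail hζ hn (h₃ x hx).1 (h₃ x hx).2 hy2 hw hk hθ hθ1 hkx fun h' => ?_
          exact hne (iter_inj_per hy2 hy1 (h'.trans h.symm))
        · left
          exact adm_tail hζ hn (h₃ x hx).1 (h₃ x hx).2 hy1 hw hk hθ hθ1 hkx h
      · push Not at hex
        refine ⟨y1, hy1, fun x hx => Or.inl ?_⟩
        obtain ⟨k, hk, θ, w, hθ, hθ1, hw, hkx⟩ := tail_data h0 (h₃ x hx).1 (h₃ x hx).2
        have hw1 : w = y1 := hex w hw
        rw [hw1] at hkx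
        refine adm_fix hζ hn (h₃ x hx).1 (h₃ x hx).2 (hex _ (per_map hy1)) ?_ hk hθ hθ1 hkx
        rintro rfl
        exact h0 (PreP.of_per hy1)
    have hsplit : S₃ = S₃.filter (fun x => Adm n x y1) ∪ S₃.filter (fun x => Adm n x y2) := by
      ext x
      rw [Finset.mem_union, Finset.mem_filter, Finset.mem_filter, ← and_or_left]
      exact ⟨fun h => ⟨h, hy x h⟩, fun h => h.1⟩
    have hne : ∀ x ∈ S₃, ∀ y ∈ periodicPts (fc (n + 1) c), fc (n + 1) c x ≠ fc (n + 1) c y :=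
      fun x hx y hy h => (h₃ x hx).2 (h ▸ per_map hy)
    rw [hsplit]
    refine (Finset.card_union_le _ _).trans ?_
    rw [two_mul]
    apply Nat.add_le_add
    · apply hB y1 (PreP.of_per hy1)
      intro x hx
      rw [Finset.mem_filter] at hx
      exact ⟨(h₃ x hx.1).1, hne x hx.1 y1 hy1, hx.2⟩
    · apply hB y2 (PreP.of_per hy2)
      intro x hx
      rw [Finset.mem_filter] at hx
      exact ⟨(h₃ x hx.1).1, hne x hx.1 y2 hy2, hx.2⟩
  rw [← Finset.card_filter_add_card_filter_not (fun x => fc (n + 1) c x ∈ periodicPts (fc (n + 1) c))]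
  apply Nat.add_le_add
  · apply c2
    intro x hx
    rw [Finset.mem_filter] at hx
    exact hx.2
  · apply c3
    intro x hx
    rw [Finset.mem_filter] at hx
    exact ⟨hS x hx.1, hx.2⟩

/-- uniform boundedness when the roots of unity are in the field -/
theorem main_zeta (hn : 4 ≤ n) (hζ : IsPrimitiveRoot ζ (n + 1)) :
    ∃ B : ℕ, ∀ (c : K) (S : Finset K), (∀ x ∈ S, PreP (fc (n + 1) c) x) → S.card ≤ B := by
  classical
  have hD : ((n : K) + 1) ≠ 0 := by exact_mod_cast Nat.succ_ne_zero n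
  obtain ⟨T, -, hT⟩ := sel_abs (K := K) (n := n) (by omega) hD
  have hnR : (4 : ℝ) ≤ n := by exact_mod_cast hn
  obtain ⟨D, hDD⟩ : ∃ D : ℝ, D = ((n + 1 : ℕ) : ℝ) := ⟨_, rfl⟩
  have hDn : D = n + 1 := by rw [hDD]; push_cast; rfl
  have hD5 : 5 ≤ D := by linarith
  obtain ⟨w, hw⟩ : ∃ w : ℝ, w = totalWeight K := ⟨_, rfl⟩
  have hw0 : 0 ≤ w := by rw [hw]; exact Nat.cast_nonneg _
  obtain ⟨C1, hC1⟩ : ∃ C1, C1 = w * (D * (Real.log 2 + Real.log 16)) := ⟨_, rfl⟩
  obtain ⟨C2, hC2⟩ : ∃ C2, C2 = w * (D * Real.log 2) := ⟨_, rfl⟩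
  have hl2 : 0 ≤ Real.log 2 := Real.log_nonneg (by norm_num)
  have hl16 : 0 ≤ Real.log 16 := Real.log_nonneg (by norm_num)
  have hl4 : 0 ≤ Real.log 4 := Real.log_nonneg (by norm_num)
  have hC10 : 0 ≤ C1 := by rw [hC1]; positivity
  have hC20 : 0 ≤ C2 := by rw [hC2]; positivity
  obtain ⟨H0, B0, hwin⟩ := win_rat hn (eζ_inj hζ) T (8 * D / n) (by
    rw [le_div_iff₀ (by linarith)]
    linarith)
  obtain ⟨H1, hH1⟩ : ∃ H1 : ℝ, H1 = 2 * C1 / n + C2 + max (2 * D ^ 2 * H0 / n) 0 + w * Real.log 4 + 1 :=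
    ⟨_, rfl⟩
  have hfin := NumberField.finite_setOfPred_logHeight₁_le K (H1 + C2)
  refine ⟨max ((n + 1) * (B0 + 1) + 2 * B0) hfin.toFinset.card, fun c S hS => ?_⟩
  rcases lt_or_ge (logHeight₁ c) H1 with hc | hc
  · refine le_trans ?_ (le_max_right _ _)
    apply Finset.card_le_card
    intro x hx
    rw [Set.Finite.mem_toFinset]
    have h1 := ht_pre (by omega) (hS x hx)
    rw [← hDD, ← hw, ← hC2] at h1
    have h2 := ht_nn x
    show logHeight₁ x ≤ H1 + C2
    nlinarith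
  · refine le_trans ?_ (le_max_left _ _)
    have hm0 : 0 ≤ max (2 * D ^ 2 * H0 / n) 0 := le_max_right _ _
    have hm1 : 2 * D ^ 2 * H0 / n ≤ max (2 * D ^ 2 * H0 / n) 0 := le_max_left _ _
    have h2C1 : 0 ≤ 2 * C1 / n := by positivity
    have hwl : 0 ≤ w * Real.log 4 := by positivity
    have h0 : ¬ PreP (fc (n + 1) c) 0 := by
      intro h
      have := zero_pre (by omega) h
      rw [← hw] at this
      linarith
    apply count hζ (by omega) h0 _ hS
    intro y hy S' hS'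
    have hy0 : y ≠ 0 := by
      rintro rfl
      exact h0 hy
    obtain ⟨h, hh⟩ : ∃ h, h = logHeight₁ c := ⟨_, rfl⟩
    rw [← hh] at hc
    have hinj : Function.Injective (fun x => x / y) := fun a b hab => by
      simpa using (div_left_inj' hy0).1 hab
    rw [← Finset.card_image_of_injective S' hinj]
    have hn0 : (0 : ℝ) < n := by linarith
    have b1 : C1 ≤ n * h / 2 := by
      have : 2 * C1 / n ≤ h := by linarith
      rw [div_le_iff₀ hn0] at this
      linarith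
    have b2 : C2 ≤ h := by linarith
    have b3 : H0 ≤ n * h / (2 * D ^ 2) := by
      have : 2 * D ^ 2 * H0 / n ≤ h := by linarith
      rw [div_le_iff₀ hn0] at this
      rw [le_div_iff₀ (by positivity)]
      linarith
    apply hwin (n * h / (2 * D ^ 2)) b3
    intro t ht
    obtain ⟨x, hx, rfl⟩ := Finset.mem_image.1 ht
    obtain ⟨hxP, hxy, hadm⟩ := hS' x hx
    refine ⟨adm_rat hζ hT hy0 hadm, ?_, ?_⟩
    · have h1 := ht_ratio_low (by omega) hxP hy hy0 (fun h => hxy (by unfold fc; rw [h]))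
      rw [← hDD, ← hw, ← hC1, ← hh] at h1
      rw [div_le_iff₀ (by positivity)]
      linarith
    · have h1 := ht_pre (by omega) hxP
      have h2 := ht_pre (by omega) hy
      rw [← hDD, ← hw, ← hC2, ← hh] at h1 h2
      have h3 : logHeight₁ (x / y) ≤ logHeight₁ x + logHeight₁ y := by
        rw [div_eq_mul_inv]
        have := logHeight₁_mul_le x y⁻¹
        rwa [logHeight₁_inv] at this
      have h4 : 8 * D / n * (n * h / (2 * D ^ 2)) = 4 * h / D := by
        field_simp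
        ring
      rw [h4]
      show logHeight₁ (x / y) ≤ 4 * h / D
      rw [le_div_iff₀ (by linarith)]
      nlinarith

end count

section final

/-- **uniform boundedness of the number of preperiodic points of `x ^ d + c` over a number field,
for `d ≥ 5`** -/
theorem main {K : Type} [Field K] [NumberField K] {d : ℕ} (hd : 5 ≤ d) :
    ∃ B : ℕ, ∀ (c : K) (S : Finset K), (∀ x ∈ S, PreP (fc d c) x) → S.card ≤ B := by
  classical
  obtain ⟨n, rfl⟩ : ∃ n, d = n + 1 := ⟨d - 1, by omega⟩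
  have : NeZero ((n + 1 : ℕ) : K) := ⟨by exact_mod_cast Nat.succ_ne_zero n⟩
  obtain ⟨B, hB⟩ := main_zeta (K := CyclotomicField (n + 1) K) (n := n) (by omega)
    (IsCyclotomicExtension.zeta_spec (n + 1) K (CyclotomicField (n + 1) K))
  refine ⟨B, fun c S hS => ?_⟩
  rw [← Finset.card_image_of_injective S (algebraMap K (CyclotomicField (n + 1) K)).injective]
  apply hB (algebraMap K (CyclotomicField (n + 1) K) c)
  intro y hy
  obtain ⟨x, hx, rfl⟩ := Finset.mem_image.1 hy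
  obtain ⟨i, j, hij, h⟩ := hS x hx
  have hs : Function.Semiconj (algebraMap K (CyclotomicField (n + 1) K)) (fc (n + 1) c)
      (fc (n + 1) (algebraMap K (CyclotomicField (n + 1) K) c)) := by
    intro t
    unfold fc
    rw [map_add, map_pow]
  refine ⟨i, j, hij, ?_⟩
  rw [← hs.iterate_right i x, ← hs.iterate_right j x, h]

end final

end Pool.Agent.KS6_58
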