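import Pool.Agent.KS6_58.Main

/-!
# Uniform boundedness for `a x ^ d + b`, `d ≥ 5`, `a` fixed, over number fields
-/

set_option autoImplicit false

namespace Pool.Agent.KS6_58

/-- from finite subsets to the extended cardinality -/
lemma encard_le {α : Type} {s : Set α} {B : ℕ} (h : ∀ S : Finset α, (∀ x ∈ S, x ∈ s) → S.card ≤ B) :
    s.encard ≤ B := by
  by_contra hlt
  push Not at hlt
  have h1 : ((B + 1 : ℕ) : ℕ∞) ≤ s.encard := by
    push_cast
    exact Order.add_one_le_of_lt hlt
  obtain ⟨t, hts, ht⟩ := Set.exists_subset_encard_eq h1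
  have hfin : t.Finite := Set.finite_of_encard_eq_coe ht
  have h2 := h hfin.toFinset fun x hx => hts ((Set.Finite.mem_toFinset hfin).1 hx)
  rw [hfin.encard_eq_coe_toFinset_card] at ht
  have h3 : hfin.toFinset.card = B + 1 := by exact_mod_cast ht
  omega

/-- **uniform boundedness for `a x ^ d + b`** -/
theorem main_a {K : Type} [Field K] [NumberField K] {d : ℕ} (hd : 5 ≤ d) {a : K} (ha : a ≠ 0) :
    ∃ B : ℕ, ∀ b : K, {x : K | ∃ m n : ℕ, m < n ∧
      (fun y : K => a * y ^ d + b)^[m] x = (fun y : K => a * y ^ d + b)^[n] x}.encard ≤ B := by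
  classical
  obtain ⟨n, rfl⟩ : ∃ n, d = n + 1 := ⟨d - 1, by omega⟩
  obtain ⟨L, hF, hAlg, hNF, hL⟩ := exists_ext (K := K) (n := n) (by omega) {a}
  obtain ⟨α, hα⟩ := exists_root (by omega : 0 < n) (hL a (by simp))
  have hα0 : α ≠ 0 := by
    rintro rfl
    rw [zero_pow (by omega), eq_comm, map_eq_zero] at hα
    exact ha hα
  obtain ⟨B, hB⟩ := main (K := L) (d := n + 1) hd
  refine ⟨B, fun b => encard_le fun S hS => ?_⟩
  have hinj : Function.Injective (fun x : K => α * algebraMap K L x) := fun x y h =>
    (algebraMap K L).injective (mul_left_cancel₀ hα0 h)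
  rw [← Finset.card_image_of_injective S hinj]
  apply hB (α * algebraMap K L b)
  intro y hy
  obtain ⟨x, hx, rfl⟩ := Finset.mem_image.1 hy
  obtain ⟨i, j, hij, h⟩ := hS x hx
  have hs : Function.Semiconj (fun x : K => α * algebraMap K L x) (fun y : K => a * y ^ (n + 1) + b)
      (fc (n + 1) (α * algebraMap K L b)) := by
    intro t
    unfold fc
    simp only
    rw [map_add, map_mul, map_pow, mul_pow, pow_succ α n, hα]
    ring
  refine ⟨i, j, hij, ?_⟩
  have h1 := hs.iterate_right i x
  have h2 := hs.iterate_right j x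
  rw [← h1, ← h2, h]

/-- odd degree over `ℚ` -/
theorem odd_case {d : ℕ} (hd : Odd d) (hd3 : 3 ≤ d) (c : ℚ) : {x : ℚ | ∃ m n : ℕ, m < n ∧
      (fun y : ℚ => y ^ d + c)^[m] x = (fun y : ℚ => y ^ d + c)^[n] x}.encard ≤ d := by
  obtain ⟨f, hf⟩ : ∃ f : ℚ → ℚ, f = fun y : ℚ => y ^ d + c := ⟨_, rfl⟩
  rw [← hf]
  have hmono : StrictMono f := by
    rw [hf]
    intro x y hxy
    have := hd.strictMono_pow hxy
    simp only at this ⊢
    linarith
  have hfix : ∀ x, (∃ m n : ℕ, m < n ∧ f^[m] x = f^[n] x) → f x = x := by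
    rintro x ⟨m, n, hmn, h⟩
    obtain ⟨k, hk, rfl⟩ : ∃ k, 0 < k ∧ n = m + k := ⟨n - m, by omega, by omega⟩
    rw [Function.iterate_add_apply] at h
    have h1 : f^[k] x = x := ((hmono.iterate m).injective h).symm
    obtain ⟨l, rfl⟩ : ∃ l, k = l + 1 := ⟨k - 1, by omega⟩
    rcases lt_trichotomy (f x) x with h2 | h2 | h2
    · have h3 : ∀ j, f^[j + 1] x < x := by
        intro j
        induction j with
        | zero => exact h2
        | succ j ih =>
          rw [Function.iterate_succ_apply']
          exact (hmono ih).trans h2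
      exact absurd h1 (h3 l).ne
    · exact h2
    · have h3 : ∀ j, x < f^[j + 1] x := by
        intro j
        induction j with
        | zero => exact h2
        | succ j ih =>
          rw [Function.iterate_succ_apply']
          exact h2.trans (hmono ih)
      exact absurd h1 (h3 l).ne'
  apply encard_le
  intro S hS
  refine card_quad (Q := Polynomial.X ^ d - Polynomial.X + Polynomial.C c) ?_ ?_ ?_
  · intro h0
    have h1 := congrArg (fun p => Polynomial.coeff p d) h0
    simp only [Polynomial.coeff_add, Polynomial.coeff_sub, Polynomial.coeff_X_pow_self,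
      Polynomial.coeff_X, Polynomial.coeff_C, Polynomial.coeff_zero] at h1
    rw [if_neg (by omega), if_neg (by omega)] at h1
    norm_num at h1
  · refine (Polynomial.natDegree_add_le _ _).trans (max_le ?_ (by simp))
    refine (Polynomial.natDegree_sub_le _ _).trans (max_le (by simp) ?_)
    rw [Polynomial.natDegree_X]
    omega
  · intro x hx
    have := hfix x (hS x hx)
    rw [hf] at this
    simp only at this
    simp only [Polynomial.eval_add, Polynomial.eval_sub, Polynomial.eval_pow, Polynomial.eval_X,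
      Polynomial.eval_C]
    linarith

end Pool.Agent.KS6_58
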