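import Pool.Agent.KS6_58.PL

/-!
# Spreading of preperiodic points of `P(x) + c` at an arbitrary place
-/

set_option autoImplicit false

namespace Pool.Agent.KS6_58

open Function Polynomial Pool.Agent.H437R2.Man

section exp

variable {K : Type} [Field K] (v : AbsoluteValue K ℝ)

lemma v_sub_le (x y : K) : v (x - y) ≤ v x + v y := by
  rw [sub_eq_add_neg]
  refine (v.add_le _ _).trans ?_
  rw [v.map_neg]

lemma v_sub_ge (x y : K) : v x - v y ≤ v (x - y) := by
  have := v.add_le (x - y) y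
  rw [sub_add_cancel] at this
  linarith

lemma v_add_ge (x y : K) : v x - v y ≤ v (x + y) := by
  have := v_sub_le v (x + y) y
  rw [add_sub_cancel_right] at this
  linarith

lemma v_sum_le {ι : Type} (s : Finset ι) (a : ι → K) : v (∑ i ∈ s, a i) ≤ ∑ i ∈ s, v (a i) := by
  classical
  induction s using Finset.induction_on with
  | empty => simp
  | insert i s hi ih =>
    rw [Finset.sum_insert hi, Finset.sum_insert hi]
    exact (v.add_le _ _).trans (by linarith)

variable {v}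

lemma exp_aux {u b p : K} {M B : ℝ} {k : ℕ} (hM : 0 ≤ M) (hB : 1 ≤ B) (hu : v u ≤ B)
    (hb : v b ≤ B) (hub : v (u - b) ≤ M) (h : v (p - b ^ k) * B ≤ k * (M * B ^ k)) :
    v (u * p - b ^ (k + 1)) * B ≤ ((k + 1 : ℕ) : ℝ) * (M * B ^ (k + 1)) := by
  have e : u * p - b ^ (k + 1) = u * (p - b ^ k) + (u - b) * b ^ k := by ring
  have h1 : v (u * p - b ^ (k + 1)) ≤ B * v (p - b ^ k) + M * B ^ k := by
    rw [e]
    refine (v.add_le _ _).trans ?_
    rw [map_mul, map_mul, map_pow]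
    have := v.nonneg b
    have := v.nonneg (p - b ^ k)
    gcongr
  have h2 : v (u * p - b ^ (k + 1)) * B ≤ (B * v (p - b ^ k) + M * B ^ k) * B := by gcongr
  have h3 : (B * v (p - b ^ k) + M * B ^ k) * B = B * (v (p - b ^ k) * B) + M * B ^ (k + 1) := by
    ring
  have h4 : B * (v (p - b ^ k) * B) ≤ B * (k * (M * B ^ k)) := by gcongr
  have h5 : B * (k * (M * B ^ k)) + M * B ^ (k + 1) = ((k + 1 : ℕ) : ℝ) * (M * B ^ (k + 1)) := by
    push_cast
    ring
  linarith

lemma mono_exp {u w b : K} {M B : ℝ} (hM : 0 ≤ M) (hB : 1 ≤ B) (hu : v u ≤ B) (hw : v w ≤ B)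
    (hb : v b ≤ B) (hub : v (u - b) ≤ M) (hwb : v (w - b) ≤ M) (i j : ℕ) :
    v (u ^ i * w ^ j - b ^ (i + j)) * B ≤ ((i + j : ℕ) : ℝ) * (M * B ^ (i + j)) := by
  induction i with
  | zero =>
    rw [pow_zero, one_mul, zero_add]
    induction j with
    | zero => simp
    | succ j ih =>
      rw [pow_succ' w]
      exact exp_aux hM hB hw hb hwb ih
  | succ i ih =>
    rw [pow_succ' u, mul_assoc, show i + 1 + j = (i + j) + 1 by ring]
    exact exp_aux hM hB hu hb hub ih

lemma mono_diff {u w b : K} {M B : ℝ} (hM : 0 ≤ M) (hB : 1 ≤ B) (hu : v u ≤ B) (hw : v w ≤ B)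
    (hb : v b ≤ B) (hub : v (u - b) ≤ M) (hwb : v (w - b) ≤ M) (k : ℕ) :
    v (u ^ (k + 1) - w ^ (k + 1) - ((k + 1 : ℕ) : K) * b ^ k * (u - w)) * B ≤
      v (u - w) * (((k + 1) * k : ℕ) * (M * B ^ k)) := by
  have e : u ^ (k + 1) - w ^ (k + 1) - ((k + 1 : ℕ) : K) * b ^ k * (u - w) =
      (∑ i ∈ Finset.range (k + 1), (u ^ i * w ^ (k + 1 - 1 - i) - b ^ k)) * (u - w) := by
    rw [Finset.sum_sub_distrib, sub_mul, (Commute.all u w).geom_sum₂_mul, Finset.sum_const,
      Finset.card_range, nsmul_eq_mul]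
  rw [e, map_mul]
  have h1 : v (∑ i ∈ Finset.range (k + 1), (u ^ i * w ^ (k + 1 - 1 - i) - b ^ k)) * B ≤
      ((k + 1) * k : ℕ) * (M * B ^ k) := by
    calc v (∑ i ∈ Finset.range (k + 1), (u ^ i * w ^ (k + 1 - 1 - i) - b ^ k)) * B
        ≤ (∑ i ∈ Finset.range (k + 1), v (u ^ i * w ^ (k + 1 - 1 - i) - b ^ k)) * B := by
          have := v_sum_le v (Finset.range (k + 1)) fun i => u ^ i * w ^ (k + 1 - 1 - i) - b ^ k
          gcongr
      _ = ∑ i ∈ Finset.range (k + 1), v (u ^ i * w ^ (k + 1 - 1 - i) - b ^ k) * B :=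
          Finset.sum_mul _ _ _
      _ ≤ ∑ _i ∈ Finset.range (k + 1), (k : ℝ) * (M * B ^ k) := by
          apply Finset.sum_le_sum
          intro i hi
          rw [Finset.mem_range] at hi
          have h2 := mono_exp hM hB hu hw hb hub hwb i (k + 1 - 1 - i)
          have h3 : i + (k + 1 - 1 - i) = k := by omega
          rwa [h3] at h2
      _ = ((k + 1) * k : ℕ) * (M * B ^ k) := by
          rw [Finset.sum_const, Finset.card_range, nsmul_eq_mul]
          push_cast
          ring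
  have h2 := v.nonneg (u - w)
  calc v (∑ i ∈ Finset.range (k + 1), (u ^ i * w ^ (k + 1 - 1 - i) - b ^ k)) * v (u - w) * B
      = v (u - w) * (v (∑ i ∈ Finset.range (k + 1), (u ^ i * w ^ (k + 1 - 1 - i) - b ^ k)) * B) := by
        ring
    _ ≤ v (u - w) * (((k + 1) * k : ℕ) * (M * B ^ k)) := by gcongr

end exp

section poly

variable {K : Type} [Field K] (v : AbsoluteValue K ℝ) (n : ℕ) (P : K[X])

/-- the derivative -/
def Dv (b : K) : K := ∑ k ∈ Finset.range (n + 1), P.coeff (k + 1) * (((k + 1 : ℕ) : K) * b ^ k)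

variable {n P}

lemma poly_diff (hd : P.natDegree = n + 1) {W : ℝ} (hW : ∀ k, v (P.coeff k) ≤ W)
    (u w b : K) (M B : ℝ) (hM : 0 ≤ M) (hB : 1 ≤ B) (hu : v u ≤ B) (hw : v w ≤ B) (hb : v b ≤ B)
    (hub : v (u - b) ≤ M) (hwb : v (w - b) ≤ M) :
    v (P.eval u - P.eval w - Dv n P b * (u - w)) * B ≤
      v (u - w) * ((((n + 1) ^ 3 : ℕ) * W) * (M * B ^ n)) := by
  have hW0 : 0 ≤ W := (v.nonneg _).trans (hW 0)
  have hc : ∑ k ∈ Finset.range (n + 1), v (P.coeff (k + 1)) * (((k + 1) * k : ℕ) : ℝ) ≤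
      ((n + 1) ^ 3 : ℕ) * W := by
    calc ∑ k ∈ Finset.range (n + 1), v (P.coeff (k + 1)) * (((k + 1) * k : ℕ) : ℝ)
        ≤ ∑ _k ∈ Finset.range (n + 1), W * (((n + 1) ^ 2 : ℕ) : ℝ) := by
          apply Finset.sum_le_sum
          intro k hk
          rw [Finset.mem_range] at hk
          have h1 : (k + 1) * k ≤ (n + 1) ^ 2 := by nlinarith
          have h2 : (((k + 1) * k : ℕ) : ℝ) ≤ (((n + 1) ^ 2 : ℕ) : ℝ) := by exact_mod_cast h1
          have := hW (k + 1)
          gcongr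
      _ = ((n + 1) ^ 3 : ℕ) * W := by
          rw [Finset.sum_const, Finset.card_range, nsmul_eq_mul]
          push_cast
          ring
  have h0 : 0 ≤ v (u - w) * (M * B ^ n) := mul_nonneg (v.nonneg _) (by positivity)
  have hfin := mul_le_mul_of_nonneg_right hc h0
  refine le_trans ?_ (le_trans hfin (le_of_eq (by ring)))
  have e : P.eval u - P.eval w - Dv n P b * (u - w) = ∑ k ∈ Finset.range (n + 1),
      P.coeff (k + 1) * (u ^ (k + 1) - w ^ (k + 1) - ((k + 1 : ℕ) : K) * b ^ k * (u - w)) := by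
    rw [eval_eq_sum_range' (Nat.lt_succ_of_le hd.le), eval_eq_sum_range' (Nat.lt_succ_of_le hd.le),
      Finset.sum_range_succ' _ (n + 1), Finset.sum_range_succ' _ (n + 1), Dv, Finset.sum_mul]
    rw [add_sub_add_comm, ← Finset.sum_sub_distrib]
    simp only [pow_zero, sub_self, add_zero]
    rw [← Finset.sum_sub_distrib]
    apply Finset.sum_congr rfl
    intro k _
    ring
  rw [e, Finset.sum_mul]
  calc v (∑ k ∈ Finset.range (n + 1), P.coeff (k + 1) *
        (u ^ (k + 1) - w ^ (k + 1) - ((k + 1 : ℕ) : K) * b ^ k * (u - w))) * B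
      ≤ (∑ k ∈ Finset.range (n + 1), v (P.coeff (k + 1) *
        (u ^ (k + 1) - w ^ (k + 1) - ((k + 1 : ℕ) : K) * b ^ k * (u - w)))) * B := by
        have := v_sum_le v (Finset.range (n + 1)) fun k => P.coeff (k + 1) *
          (u ^ (k + 1) - w ^ (k + 1) - ((k + 1 : ℕ) : K) * b ^ k * (u - w))
        gcongr
    _ = ∑ k ∈ Finset.range (n + 1), v (P.coeff (k + 1)) *
        (v (u ^ (k + 1) - w ^ (k + 1) - ((k + 1 : ℕ) : K) * b ^ k * (u - w)) * B) := by
        rw [Finset.sum_mul]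
        apply Finset.sum_congr rfl
        intro k _
        rw [map_mul]
        ring
    _ ≤ ∑ k ∈ Finset.range (n + 1), v (P.coeff (k + 1)) * ((k + 1) * k : ℕ) *
        (v (u - w) * (M * B ^ n)) := by
        apply Finset.sum_le_sum
        intro k hk
        rw [Finset.mem_range] at hk
        have h1 := mono_diff hM hB hu hw hb hub hwb k
        have h2 : v (u - w) * (((k + 1) * k : ℕ) * (M * B ^ k)) ≤
            v (u - w) * (((k + 1) * k : ℕ) * (M * B ^ n)) := by
          have := v.nonneg (u - w)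
          have h3 : B ^ k ≤ B ^ n := pow_le_pow_right₀ hB (by omega)
          gcongr
        calc v (P.coeff (k + 1)) * (v (u ^ (k + 1) - w ^ (k + 1) -
            ((k + 1 : ℕ) : K) * b ^ k * (u - w)) * B)
            ≤ v (P.coeff (k + 1)) * (v (u - w) * (((k + 1) * k : ℕ) * (M * B ^ n))) := by
              have := v.nonneg (P.coeff (k + 1))
              have := h1.trans h2
              gcongr
          _ = _ := by ring

lemma v_natCast_le {K : Type} [Field K] (v : AbsoluteValue K ℝ) (m : ℕ) : v (m : K) ≤ m := by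
  induction m with
  | zero => simp
  | succ m ih =>
    push_cast
    refine (v.add_le _ _).trans ?_
    rw [map_one]
    linarith

lemma D_low (hP : P.Monic) (hd : P.natDegree = n + 1) {W : ℝ} (hW : ∀ k, v (P.coeff k) ≤ W)
    (x : K) (B : ℝ) (hB : 1 ≤ B) (hx : v x ≤ B) :
    v (Dv n P x - (((n + 1 : ℕ) : K)) * x ^ n) * B ≤ (((n + 1) ^ 2 : ℕ) * W) * B ^ n := by
  have hW0 : 0 ≤ W := (v.nonneg _).trans (hW 0)
  have hc : ∑ k ∈ Finset.range n, v (P.coeff (k + 1) * ((k + 1 : ℕ) : K)) ≤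
      ((n + 1) ^ 2 : ℕ) * W := by
    calc ∑ k ∈ Finset.range n, v (P.coeff (k + 1) * ((k + 1 : ℕ) : K))
        ≤ ∑ _k ∈ Finset.range n, W * ((n + 1 : ℕ) : ℝ) := by
          apply Finset.sum_le_sum
          intro k hk
          rw [Finset.mem_range] at hk
          rw [map_mul]
          have h1 : v ((k + 1 : ℕ) : K) ≤ ((n + 1 : ℕ) : ℝ) := by
            refine (v_natCast_le v (k + 1)).trans ?_
            exact_mod_cast (by omega : k + 1 ≤ n + 1)
          have := hW (k + 1)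
          have := v.nonneg ((k + 1 : ℕ) : K)
          gcongr
      _ = (n * (n + 1) : ℕ) * W := by
          rw [Finset.sum_const, Finset.card_range, nsmul_eq_mul]
          push_cast
          ring
      _ ≤ ((n + 1) ^ 2 : ℕ) * W := by
          have h1 : n * (n + 1) ≤ (n + 1) ^ 2 := by nlinarith
          have h2 : ((n * (n + 1) : ℕ) : ℝ) ≤ (((n + 1) ^ 2 : ℕ) : ℝ) := by exact_mod_cast h1
          gcongr
  refine le_trans ?_ (mul_le_mul_of_nonneg_right hc (by positivity))
  have hl : P.coeff (n + 1) = 1 := by rw [← hd, coeff_natDegree, hP.leadingCoeff]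
  have e : Dv n P x - (((n + 1 : ℕ) : K)) * x ^ n =
      ∑ k ∈ Finset.range n, P.coeff (k + 1) * ((k + 1 : ℕ) : K) * x ^ k := by
    rw [Dv, Finset.sum_range_succ, hl, one_mul, add_sub_cancel_right]
    exact Finset.sum_congr rfl fun k _ => by ring
  rw [e, Finset.sum_mul]
  calc v (∑ k ∈ Finset.range n, P.coeff (k + 1) * ((k + 1 : ℕ) : K) * x ^ k) * B
      ≤ (∑ k ∈ Finset.range n, v (P.coeff (k + 1) * ((k + 1 : ℕ) : K) * x ^ k)) * B := by
        have := v_sum_le v (Finset.range n) fun k => P.coeff (k + 1) * ((k + 1 : ℕ) : K) * x ^ k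
        gcongr
    _ = ∑ k ∈ Finset.range n, v (P.coeff (k + 1) * ((k + 1 : ℕ) : K)) * (v x ^ k * B) := by
        rw [Finset.sum_mul]
        apply Finset.sum_congr rfl
        intro k _
        rw [map_mul _ (P.coeff (k + 1) * ((k + 1 : ℕ) : K)), map_pow]
        ring
    _ ≤ ∑ k ∈ Finset.range n, v (P.coeff (k + 1) * ((k + 1 : ℕ) : K)) * B ^ n := by
        apply Finset.sum_le_sum
        intro k hk
        rw [Finset.mem_range] at hk
        apply mul_le_mul_of_nonneg_left _ (v.nonneg _)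
        calc v x ^ k * B ≤ B ^ k * B := by
              have := v.nonneg x
              gcongr
          _ = B ^ (k + 1) := (pow_succ B k).symm
          _ ≤ B ^ n := pow_le_pow_right₀ hB hk

lemma P_low (hP : P.Monic) (hd : P.natDegree = n + 1) {W : ℝ} (hW : ∀ k, v (P.coeff k) ≤ W)
    (x : K) (B : ℝ) (hB : 1 ≤ B) (hx : v x ≤ B) :
    v (P.eval x - x ^ (n + 1)) ≤ (((n + 1 : ℕ) : ℝ) * W) * B ^ n := by
  have hc : ∑ k ∈ Finset.range (n + 1), v (P.coeff k) ≤ ((n + 1 : ℕ) : ℝ) * W := by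
    calc ∑ k ∈ Finset.range (n + 1), v (P.coeff k) ≤ ∑ _k ∈ Finset.range (n + 1), W :=
          Finset.sum_le_sum fun k _ => hW k
      _ = ((n + 1 : ℕ) : ℝ) * W := by
          rw [Finset.sum_const, Finset.card_range, nsmul_eq_mul]
  refine le_trans ?_ (mul_le_mul_of_nonneg_right hc (by positivity))
  have hl : P.coeff (n + 1) = 1 := by rw [← hd, coeff_natDegree, hP.leadingCoeff]
  have e : P.eval x - x ^ (n + 1) = ∑ k ∈ Finset.range (n + 1), P.coeff k * x ^ k := by
    rw [eval_eq_sum_range' (Nat.lt_succ_of_le hd.le), Finset.sum_range_succ, hl, one_mul,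
      add_sub_cancel_right]
  rw [e, Finset.sum_mul]
  refine (v_sum_le v _ _).trans ?_
  apply Finset.sum_le_sum
  intro k hk
  rw [Finset.mem_range] at hk
  rw [map_mul, map_pow]
  apply mul_le_mul_of_nonneg_left _ (v.nonneg _)
  calc v x ^ k ≤ B ^ k := pow_le_pow_left₀ (v.nonneg _) hx _
    _ ≤ B ^ n := pow_le_pow_right₀ hB (by omega)

/-- bound for the preperiodic points -/
lemma pre_le (hP : P.Monic) (hd : P.natDegree = n + 1) (hn : 1 ≤ n) {W0 : ℝ}
    (hW0 : ∀ k, v (P.coeff k) ≤ W0) (c x : K) (R : ℝ) (hR : 1 ≤ R) (hc : v c ≤ R ^ (n + 1))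
    (hx : PreP (fP P c) x) : v x ≤ (2 * (((n + 1 : ℕ) : ℝ) * W0) + 8) * R := by
  obtain ⟨W, hW⟩ : ∃ W, W = ((n + 1 : ℕ) : ℝ) * W0 := ⟨_, rfl⟩
  have hlow : ∀ (x : K) (B : ℝ), 1 ≤ B → v x ≤ B → v (P.eval x - x ^ (n + 1)) ≤ W * B ^ n := by
    rw [hW]; exact P_low v hP hd hW0
  have hWnn : 0 ≤ W := by
    have : 0 ≤ W0 := (v.nonneg _).trans (hW0 0)
    rw [hW]; positivity
  rw [← hW]
  by_contra hlt
  push Not at hlt
  refine not_pre {y | (2 * W + 8) * R < v y} (fun y => v y) ?_ hlt hx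
  intro y (hy : (2 * W + 8) * R < v y)
  have h1 : 2 * W + 8 < v y := by nlinarith
  have h8 : 8 * R < v y := by nlinarith
  have hy1 : 1 ≤ v y := by linarith
  have h2 := hlow y (v y) hy1 le_rfl
  have h3 : v (y ^ (n + 1)) - v (P.eval y - y ^ (n + 1)) ≤ v (P.eval y) := by
    have := v_add_ge v (y ^ (n + 1)) (P.eval y - y ^ (n + 1))
    rwa [add_sub_cancel] at this
  rw [map_pow] at h3
  have hyn : (0 : ℝ) < v y ^ n := by positivity
  have h4 : v y ^ (n + 1) = v y ^ n * v y := pow_succ _ _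
  have h5 : v c ≤ v y ^ n * v y / 8 := by
    have h6 : R ^ (n + 1) ≤ (v y / 8) ^ (n + 1) := by
      apply pow_le_pow_left₀ (by linarith)
      linarith
    have h7 : (v y / 8) ^ (n + 1) ≤ v y ^ (n + 1) / 8 := by
      rw [div_pow]
      apply div_le_div_of_nonneg_left (by positivity) (by norm_num)
      calc (8 : ℝ) = 8 ^ 1 := by norm_num
        _ ≤ 8 ^ (n + 1) := pow_le_pow_right₀ (by norm_num) (by omega)
    linarith
  have h6 : v (P.eval y) - v c ≤ v (fP P c y) := v_add_ge v _ _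
  have h7 : v y ^ n * v y / 4 ≤ v (fP P c y) := by
    have h9 : W * v y ^ n ≤ v y ^ n * v y / 2 := by nlinarith
    have h10 : 0 ≤ v y ^ n * v y := by positivity
    linarith
  have h9 : v y ≤ v y ^ n := by
    conv_lhs => rw [← pow_one (v y)]
    exact pow_le_pow_right₀ hy1 hn
  have h10 : 2 * v y ≤ v (fP P c y) := by nlinarith
  constructor
  · show (2 * W + 8) * R < v (fP P c y)
    linarith
  · linarith

end poly

end Pool.Agent.KS6_58
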