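import Pool.Agent.KS6_58.PA

/-!
# Spreading of preperiodic points of `P(x) + c` at an arbitrary place: the inequality
-/

set_option autoImplicit false

namespace Pool.Agent.KS6_58

open Function Polynomial Pool.Agent.H437R2.Man

section spread

variable {K : Type} [Field K] [CharZero K] (v : AbsoluteValue K ℝ) {n : ℕ} {P : K[X]}

omit [CharZero K] in
/-- the basic estimates with given constants -/
lemma any_base0 (hn : 1 ≤ n) {C1 W1 W2 C2 c2 e : ℝ} (he : e = v ((n + 1 : ℕ) : K)) (he0 : 0 < e)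
    (hC1 : 1 ≤ C1) (hW1 : 0 ≤ W1) (hW2 : 0 ≤ W2) (hC2 : C2 = 2 * (1 + W1)) (hC20 : 1 ≤ C2)
    (hc2 : c2 = e / (2 * C2 ^ n)) (hc20 : 0 < c2)
    (hpre : ∀ (c x : K) (R : ℝ), 1 ≤ R → v c ≤ R ^ (n + 1) → PreP (fP P c) x → v x ≤ C1 * R)
    (hlow : ∀ (x : K) (B : ℝ), 1 ≤ B → v x ≤ B → v (P.eval x - x ^ (n + 1)) ≤ W1 * B ^ n)
    (hD : ∀ (x : K) (B : ℝ), 1 ≤ B → v x ≤ B →
      v (Dv n P x - (((n + 1 : ℕ) : K)) * x ^ n) * B ≤ W2 * B ^ n)
    (c : K) (R : ℝ) (hR : 1 + 2 * C1 + 2 * (1 + W1) + W2 * C1 ^ n / c2 + 6 / c2 ≤ R)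
    (hc : v c = R ^ (n + 1)) :
    6 ≤ c2 * R ^ n ∧ ∀ x, PreP (fP P c) x → v x ≤ C1 * R ∧ c2 * R ^ n ≤ v (Dv n P x) := by
  have hp1 : 0 ≤ W2 * C1 ^ n / c2 := by positivity
  have hp2 : 0 ≤ 6 / c2 := by positivity
  have r1 : 1 ≤ R := by nlinarith
  have r2 : 2 * C1 ≤ R := by nlinarith
  have r3 : 2 * (1 + W1) < R := by nlinarith
  have r4 : W2 * C1 ^ n / c2 ≤ R := by nlinarith
  have r5 : 6 / c2 ≤ R := by nlinarith
  have hR0 : 0 < R := by linarith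
  have hRn : R ≤ R ^ n := by
    conv_lhs => rw [← pow_one R]
    exact pow_le_pow_right₀ r1 hn
  have hup : ∀ x, PreP (fP P c) x → v x ≤ C1 * R := fun x hx => hpre c x R r1 hc.le hx
  -- lower bound
  have hlo : ∀ x, PreP (fP P c) x → R ≤ C2 * v x := by
    intro x hx
    have h1 := hup _ hx.map
    have h2 : v c - v (fP P c x) ≤ v (P.eval x) := by
      have := v_sub_le v (fP P c x) (P.eval x)
      have e1 : fP P c x - P.eval x = c := by unfold fP; ring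
      rw [e1] at this
      linarith
    have h3 : R ^ (n + 1) = R ^ n * R := pow_succ _ _
    have h4 : R ^ (n + 1) / 2 ≤ v (P.eval x) := by
      rw [hc] at h2
      have : C1 * R ≤ R ^ (n + 1) / 2 := by
        rw [h3]
        nlinarith
      linarith
    have h5 : v (P.eval x) ≤ v x ^ (n + 1) + v (P.eval x - x ^ (n + 1)) := by
      have := v.add_le (x ^ (n + 1)) (P.eval x - x ^ (n + 1))
      rw [add_sub_cancel, map_pow] at this
      exact this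
    rcases lt_or_ge (v x) 1 with h6 | h6
    · exfalso
      have h7 := hlow x 1 le_rfl h6.le
      rw [one_pow, mul_one] at h7
      have h8 : v x ^ (n + 1) ≤ 1 := pow_le_one₀ (v.nonneg _) h6.le
      nlinarith
    · have h7 := hlow x (v x) h6 le_rfl
      have h8 : v x ^ n ≤ v x ^ (n + 1) := pow_le_pow_right₀ h6 (Nat.le_succ n)
      have h9 : R ^ (n + 1) ≤ C2 * v x ^ (n + 1) := by
        rw [hC2]
        nlinarith
      have h10 : C2 * v x ^ (n + 1) ≤ (C2 * v x) ^ (n + 1) := by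
        rw [mul_pow]
        apply mul_le_mul_of_nonneg_right _ (by positivity)
        conv_lhs => rw [← pow_one C2]
        exact pow_le_pow_right₀ hC20 (by omega)
      exact (pow_le_pow_iff_left₀ hR0.le (by positivity) (Nat.succ_ne_zero n)).1 (h9.trans h10)
  -- the derivative
  have hC1R : 1 ≤ C1 * R := by nlinarith
  have hDb : ∀ x0, PreP (fP P c) x0 → c2 * R ^ n ≤ v (Dv n P x0) := by
    intro x0 hx0
    have h1 := hD x0 (C1 * R) hC1R (hup _ hx0)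
    have h2 : v (((n + 1 : ℕ) : K) * x0 ^ n) - v (Dv n P x0 - ((n + 1 : ℕ) : K) * x0 ^ n) ≤
        v (Dv n P x0) := by
      have := v_add_ge v (((n + 1 : ℕ) : K) * x0 ^ n) (Dv n P x0 - ((n + 1 : ℕ) : K) * x0 ^ n)
      rwa [add_sub_cancel] at this
    rw [map_mul, map_pow, ← he] at h2
    have h3 : 2 * c2 * R ^ n ≤ e * v x0 ^ n := by
      have h4 : R ^ n ≤ C2 ^ n * v x0 ^ n := by
        rw [← mul_pow]
        exact pow_le_pow_left₀ hR0.le (hlo _ hx0) n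
      rw [hc2]
      calc 2 * (e / (2 * C2 ^ n)) * R ^ n = e * (R ^ n / C2 ^ n) := by field_simp
        _ ≤ e * v x0 ^ n := by
            apply mul_le_mul_of_nonneg_left _ he0.le
            rw [div_le_iff₀ (by positivity), mul_comm]
            exact h4
    have h4 : v (Dv n P x0 - ((n + 1 : ℕ) : K) * x0 ^ n) ≤ c2 * R ^ n := by
      have h5 : v (Dv n P x0 - ((n + 1 : ℕ) : K) * x0 ^ n) * R ≤
          v (Dv n P x0 - ((n + 1 : ℕ) : K) * x0 ^ n) * (C1 * R) := by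
        have := v.nonneg (Dv n P x0 - ((n + 1 : ℕ) : K) * x0 ^ n)
        gcongr
        nlinarith
      have h6 : W2 * (C1 * R) ^ n ≤ c2 * R ^ n * R := by
        rw [div_le_iff₀ hc20] at r4
        have hRn0 : 0 < R ^ n := by positivity
        rw [mul_pow]
        nlinarith
      exact le_of_mul_le_mul_right ((h5.trans h1).trans h6) hR0
    linarith
  refine ⟨?_, fun x hx => ⟨hup x hx, hDb x hx⟩⟩
  rw [div_le_iff₀ hc20] at r5
  nlinarith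

omit [Field K] [CharZero K] in
/-- the size of the constants -/
lemma sizes (n : ℕ) {e W N1 q : ℝ} (he0 : 0 < e) (hW1' : 1 ≤ W) (hN1 : 1 ≤ N1)
    (hq : q = 2 * (2 + 2 * N1) ^ n / e) :
    2 * (N1 * W) + 8 ≤ (2 * N1 + 8) * W ∧ 2 * (1 + N1 * W) ≤ (2 + 2 * N1) * W ∧
    (e / (2 * (2 * (1 + N1 * W)) ^ n))⁻¹ ≤ q * W ^ n ∧
    (N1 ^ 2 * W) * (2 * (N1 * W) + 8) ^ n * (e / (2 * (2 * (1 + N1 * W)) ^ n))⁻¹ ≤
      N1 ^ 2 * (2 * N1 + 8) ^ n * q * W ^ (2 * n + 1) := by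
  have hN10 : 0 < N1 := by linarith
  have hq0 : 0 < q := by rw [hq]; positivity
  have k1 : 2 * (N1 * W) + 8 ≤ (2 * N1 + 8) * W := by nlinarith
  have k2 : 2 * (1 + N1 * W) ≤ (2 + 2 * N1) * W := by nlinarith
  have k3 : (e / (2 * (2 * (1 + N1 * W)) ^ n))⁻¹ ≤ q * W ^ n := by
    rw [hq, inv_div, div_mul_eq_mul_div]
    apply div_le_div_of_nonneg_right _ he0.le
    rw [mul_assoc, ← mul_pow]
    gcongr
  refine ⟨k1, k2, k3, ?_⟩
  calc (N1 ^ 2 * W) * (2 * (N1 * W) + 8) ^ n * (e / (2 * (2 * (1 + N1 * W)) ^ n))⁻¹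
      ≤ (N1 ^ 2 * W) * ((2 * N1 + 8) * W) ^ n * (q * W ^ n) := by gcongr
    _ = N1 ^ 2 * (2 * N1 + 8) ^ n * q * W ^ (2 * n + 1) := by
        rw [mul_pow, pow_succ, two_mul, pow_add]
        ring

/-- the constants at a place -/
lemma any_base (hn : 1 ≤ n) : ∃ a : ℝ, 1 ≤ a ∧ ∀ P : K[X], P.Monic → P.natDegree = n + 1 →
    ∀ W : ℝ, 1 ≤ W → (∀ k, v (P.coeff k) ≤ W) →
    ∃ R0 C1 c2 : ℝ, 1 ≤ R0 ∧ 1 ≤ C1 ∧ 0 < c2 ∧ C1 ≤ a * W ∧ c2⁻¹ ≤ a * W ^ n ∧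
      R0 ≤ a * W ^ (2 * n + 1) ∧ ∀ (c : K) (R : ℝ), R0 ≤ R → v c = R ^ (n + 1) →
      6 ≤ c2 * R ^ n ∧ ∀ x, PreP (fP P c) x → v x ≤ C1 * R ∧ c2 * R ^ n ≤ v (Dv n P x) := by
  obtain ⟨e, he⟩ : ∃ e, e = v ((n + 1 : ℕ) : K) := ⟨_, rfl⟩
  have he0 : 0 < e := by
    rw [he]
    apply v.pos
    exact_mod_cast Nat.succ_ne_zero n
  obtain ⟨N1, hN1⟩ : ∃ N1 : ℝ, N1 = ((n + 1 : ℕ) : ℝ) := ⟨_, rfl⟩
  have hN11 : 1 ≤ N1 := by rw [hN1]; exact_mod_cast Nat.succ_le_succ (Nat.zero_le n)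
  have hN10 : 0 < N1 := by linarith
  obtain ⟨q, hq⟩ : ∃ q : ℝ, q = 2 * (2 + 2 * N1) ^ n / e := ⟨_, rfl⟩
  have hq0 : 0 < q := by rw [hq]; positivity
  obtain ⟨b, hb⟩ : ∃ b : ℝ, b = N1 ^ 2 * (2 * N1 + 8) ^ n * q := ⟨_, rfl⟩
  have hb0 : 0 ≤ b := by rw [hb]; positivity
  obtain ⟨a, ha⟩ : ∃ a : ℝ, a = 1 + 2 * (2 * N1 + 8) + (2 + 2 * N1) + b + 6 * q := ⟨_, rfl⟩
  refine ⟨a, by rw [ha]; linarith, fun P hP hd W hW1' hW => ?_⟩
  obtain ⟨k1, k2, k3, k4⟩ := sizes n he0 hW1' hN11 hq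
  rw [← hb] at k4
  obtain ⟨C1, hC1e⟩ : ∃ C1, C1 = 2 * (N1 * W) + 8 := ⟨_, rfl⟩
  obtain ⟨W1, hW1e⟩ : ∃ W1, W1 = N1 * W := ⟨_, rfl⟩
  obtain ⟨W2, hW2e⟩ : ∃ W2 : ℝ, W2 = N1 ^ 2 * W := ⟨_, rfl⟩
  obtain ⟨C2, hC2⟩ : ∃ C2, C2 = 2 * (1 + W1) := ⟨_, rfl⟩
  have hW1 : 0 ≤ W1 := by rw [hW1e]; positivity
  have hW2 : 0 ≤ W2 := by rw [hW2e]; positivity
  have hC1 : 1 ≤ C1 := by
    have : 0 ≤ N1 * W := by positivity
    rw [hC1e]; linarith
  have hC20 : 1 ≤ C2 := by rw [hC2]; linarith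
  obtain ⟨c2, hc2⟩ : ∃ c2, c2 = e / (2 * C2 ^ n) := ⟨_, rfl⟩
  have hc20 : 0 < c2 := by rw [hc2]; positivity
  rw [← hC1e] at k1 k4
  rw [← hW1e, ← hC2, ← hc2] at k3 k4
  rw [← hW1e] at k2
  rw [← hW2e] at k4
  have hWn : 1 ≤ W ^ n := one_le_pow₀ hW1'
  have hW2n : 1 ≤ W ^ (2 * n + 1) := one_le_pow₀ hW1'
  have hWW : W ≤ W ^ (2 * n + 1) := by
    conv_lhs => rw [← pow_one W]
    exact pow_le_pow_right₀ hW1' (by omega)
  have hWnn : W ^ n ≤ W ^ (2 * n + 1) := pow_le_pow_right₀ hW1' (by omega)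
  have haW : 1 + 2 * C1 + 2 * (1 + W1) + W2 * C1 ^ n / c2 + 6 / c2 ≤ a * W ^ (2 * n + 1) := by
    have k5 : 6 / c2 ≤ 6 * q * W ^ (2 * n + 1) := by
      rw [div_eq_mul_inv]
      have : q * W ^ n ≤ q * W ^ (2 * n + 1) := by gcongr
      linarith
    have k6 : (2 * N1 + 8) * W ≤ (2 * N1 + 8) * W ^ (2 * n + 1) := by gcongr
    have k7 : (2 + 2 * N1) * W ≤ (2 + 2 * N1) * W ^ (2 * n + 1) := by gcongr
    rw [div_eq_mul_inv (W2 * C1 ^ n), ha]
    linarith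
  have h0 : 0 ≤ W2 * C1 ^ n / c2 := by positivity
  have h0' : 0 ≤ 6 / c2 := by positivity
  refine ⟨1 + 2 * C1 + 2 * (1 + W1) + W2 * C1 ^ n / c2 + 6 / c2, C1, c2, by linarith, hC1, hc20,
    ?_, ?_, haW, fun c R hR hc => any_base0 v hn he he0 hC1 hW1 hW2 hC2 hC20 hc2 hc20 ?_ ?_ ?_
      c R hR hc⟩
  · refine k1.trans ?_
    have : 2 * N1 + 8 ≤ a := by rw [ha]; linarith
    gcongr
  · refine k3.trans ?_
    have : q ≤ a := by rw [ha]; linarith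
    gcongr
  · rw [hC1e, hN1]
    exact pre_le v hP hd hn hW
  · rw [hW1e, hN1]
    exact P_low v hP hd hW
  · rw [hW2e, hN1]
    have := D_low v hP hd hW
    push_cast at this ⊢
    exact this

omit [CharZero K] in
/-- one step of the expansion -/
lemma any_step (hd : P.natDegree = n + 1) {W : ℝ} (hW1 : 1 ≤ W) (hW : ∀ k, v (P.coeff k) ≤ W)
    {C1 c2 : ℝ} (hC1 : 1 ≤ C1) (hc20 : 0 < c2) :
    ∃ C4 : ℝ, 0 ≤ C4 ∧ C4 = (((n + 1) ^ 3 : ℕ) * W) * C1 ^ n / c2 ∧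
      ∀ (c : K) (R : ℝ), 1 ≤ R → 6 ≤ c2 * R ^ n →
      (∀ x, PreP (fP P c) x → v x ≤ C1 * R ∧ c2 * R ^ n ≤ v (Dv n P x)) →
      ∀ (x : Fin (n + 2) → K), Function.Injective x → (∀ i, PreP (fP P c) (x i)) →
        ∀ Q s : ℝ, 1 ≤ Q → (∀ i j k l, k ≠ l → v (x i - x j) ≤ Q * v (x k - x l)) →
        s * R = Q * v (x 0 - x 1) → C4 * s ≤ 1 / 3 →
        Function.Injective (fP P c ∘ x) ∧
        (∀ i j k l, k ≠ l → v ((fP P c ∘ x) i - (fP P c ∘ x) j) ≤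
          (Q * (1 + 3 * (C4 * s))) * v ((fP P c ∘ x) k - (fP P c ∘ x) l)) ∧
        4 * v (x 0 - x 1) ≤ v ((fP P c ∘ x) 0 - (fP P c ∘ x) 1) := by
  obtain ⟨W3, hW3e⟩ : ∃ W3 : ℝ, W3 = ((n + 1) ^ 3 : ℕ) * W := ⟨_, rfl⟩
  have hW3 : 0 ≤ W3 := by rw [hW3e]; positivity
  have hdiff := poly_diff v hd hW
  rw [← hW3e] at hdiff ⊢
  obtain ⟨C4, hC4⟩ : ∃ C4, C4 = W3 * C1 ^ n / c2 := ⟨_, rfl⟩
  have hC40 : 0 ≤ C4 := by rw [hC4]; positivity
  refine ⟨C4, hC40, hC4, fun c R r1 r5 hall x hx hxp Q s hQ hcond hs hsm => ?_⟩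
  have hR0 : 0 < R := by linarith
  have hC1R : 1 ≤ C1 * R := by nlinarith
  have hup : ∀ x, PreP (fP P c) x → v x ≤ C1 * R := fun x hx => (hall x hx).1
  have hDb : c2 * R ^ n ≤ v (Dv n P (x 0)) := (hall _ (hxp 0)).2
  have hs0 : 0 ≤ s := by
    have : 0 ≤ s * R := by rw [hs]; exact mul_nonneg (by linarith) (v.nonneg _)
    exact nonneg_of_mul_nonneg_left this hR0
  have hD0 : 0 < v (Dv n P (x 0)) := lt_of_lt_of_le (by positivity) hDb
  obtain ⟨D, hDD⟩ : ∃ D, D = v (Dv n P (x 0)) := ⟨_, rfl⟩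
  obtain ⟨θ, hθ⟩ : ∃ θ, θ = C4 * s := ⟨_, rfl⟩
  rw [← hθ] at hsm ⊢
  rw [← hDD] at hDb hD0
  have hθ0 : 0 ≤ θ := by rw [hθ]; positivity
  have h01 : (0 : Fin (n + 2)) ≠ 1 := by
    intro h'
    have := congrArg (fun t : Fin (n + 2) => (t : ℕ)) h'
    simp at this
  -- the expansion
  have hexp : ∀ i j, v (fP P c (x i) - fP P c (x j) - Dv n P (x 0) * (x i - x j)) ≤
      θ * (D * v (x i - x j)) := by
    intro i j
    have hM : 0 ≤ s * R := by positivity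
    have h1 := hdiff (x i) (x j) (x 0) (s * R) (C1 * R) hM hC1R (hup _ (hxp i)) (hup _ (hxp j))
      (hup _ (hxp 0)) (by rw [hs]; exact hcond i 0 0 1 h01) (by rw [hs]; exact hcond j 0 0 1 h01)
    have e1 : fP P c (x i) - fP P c (x j) = P.eval (x i) - P.eval (x j) := by unfold fP; ring
    rw [e1]
    obtain ⟨E, hE⟩ : ∃ E, E = v (P.eval (x i) - P.eval (x j) - Dv n P (x 0) * (x i - x j)) :=
      ⟨_, rfl⟩
    obtain ⟨δ, hδ⟩ : ∃ δ, δ = v (x i - x j) := ⟨_, rfl⟩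
    rw [← hE, ← hδ] at h1 ⊢
    have hE0 : 0 ≤ E := by rw [hE]; exact v.nonneg _
    have hδ0 : 0 ≤ δ := by rw [hδ]; exact v.nonneg _
    have h2 : E * R ≤ E * (C1 * R) := by
      have : R ≤ C1 * R := by nlinarith
      gcongr
    have h3 : δ * (W3 * (s * R * (C1 * R) ^ n)) = (δ * (C4 * s) * (c2 * R ^ n)) * R := by
      rw [hC4, mul_pow]
      field_simp
    have h4 : E ≤ δ * (C4 * s) * (c2 * R ^ n) := by
      apply le_of_mul_le_mul_right _ hR0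
      rw [← h3]
      exact h2.trans h1
    calc E ≤ δ * (C4 * s) * (c2 * R ^ n) := h4
      _ ≤ δ * (C4 * s) * D := by
          have : 0 ≤ C4 * s := by positivity
          gcongr
      _ = θ * (D * δ) := by rw [hθ]; ring
  have hub : ∀ i j, v (fP P c (x i) - fP P c (x j)) ≤ (1 + θ) * (D * v (x i - x j)) := by
    intro i j
    have h1 := hexp i j
    have h2 := v.add_le (fP P c (x i) - fP P c (x j) - Dv n P (x 0) * (x i - x j))
      (Dv n P (x 0) * (x i - x j))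
    rw [sub_add_cancel, map_mul, ← hDD] at h2
    linarith
  have hlb : ∀ i j, (1 - θ) * (D * v (x i - x j)) ≤ v (fP P c (x i) - fP P c (x j)) := by
    intro i j
    have h1 := hexp i j
    have h2 := v_sub_ge v (Dv n P (x 0) * (x i - x j)) (Dv n P (x 0) * (x i - x j) -
      (fP P c (x i) - fP P c (x j)))
    rw [sub_sub_cancel, map_mul, ← hDD, ← v.map_neg (Dv n P (x 0) * (x i - x j) -
      (fP P c (x i) - fP P c (x j))), neg_sub] at h2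
    linarith
  have hpos : ∀ i j, i ≠ j → 0 < v (x i - x j) := fun i j hij =>
    v.pos (sub_ne_zero.2 fun h' => hij (hx h'))
  refine ⟨?_, ?_, ?_⟩
  · intro i j hij
    by_contra hne
    have h1 := hlb i j
    have h2 : v (fP P c (x i) - fP P c (x j)) = 0 := by
      have : fP P c (x i) = fP P c (x j) := hij
      rw [this, sub_self, map_zero]
    rw [h2] at h1
    have h3 := hpos i j hne
    have : 0 < (1 - θ) * (D * v (x i - x j)) := by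
      apply mul_pos
      · linarith
      · positivity
    linarith
  · intro i j k l hkl
    show v (fP P c (x i) - fP P c (x j)) ≤ Q * (1 + 3 * θ) * v (fP P c (x k) - fP P c (x l))
    have h1 := hub i j
    have h2 := hlb k l
    have h3 := hcond i j k l hkl
    have h4 := hpos k l hkl
    calc v (fP P c (x i) - fP P c (x j)) ≤ (1 + θ) * (D * v (x i - x j)) := h1
      _ ≤ (1 + θ) * (D * (Q * v (x k - x l))) := by gcongr
      _ ≤ (Q * (1 + 3 * θ)) * ((1 - θ) * (D * v (x k - x l))) := by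
          have h5 : 1 + θ ≤ (1 + 3 * θ) * (1 - θ) := by nlinarith
          have h6 : 0 ≤ Q * (D * v (x k - x l)) := by positivity
          calc (1 + θ) * (D * (Q * v (x k - x l))) = (1 + θ) * (Q * (D * v (x k - x l))) := by ring
            _ ≤ ((1 + 3 * θ) * (1 - θ)) * (Q * (D * v (x k - x l))) := by gcongr
            _ = _ := by ring
      _ ≤ (Q * (1 + 3 * θ)) * v (fP P c (x k) - fP P c (x l)) := by gcongr
  · show 4 * v (x 0 - x 1) ≤ v (fP P c (x 0) - fP P c (x 1))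
    refine le_trans ?_ (hlb 0 1)
    have h1 := hpos 0 1 h01
    have h2 : 6 ≤ D := r5.trans hDb
    have h3 : 2 / 3 ≤ 1 - θ := by linarith
    calc 4 * v (x 0 - x 1) = 2 / 3 * (6 * v (x 0 - x 1)) := by ring
      _ ≤ (1 - θ) * (D * v (x 0 - x 1)) := by gcongr

end spread

end Pool.Agent.KS6_58
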