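import Pool.Agent.KS6_58.PB

/-!
# Spreading of preperiodic points of `P(x) + c` at an arbitrary place: conclusion
-/

set_option autoImplicit false

namespace Pool.Agent.KS6_58

open Function Polynomial Pool.Agent.H437R2.Man

section spread

variable {K : Type} [Field K] (v : AbsoluteValue K ℝ) {n : ℕ} {P : K[X]}

lemma lagr_any (hP : P.Monic) (hd : P.natDegree = n + 1) {c : K} {x : Fin (n + 2) → K}
    (hx : Function.Injective x) {A r : ℝ} (hA : ∀ i, v (fP P c (x i)) ≤ A) (hr0 : 0 < r)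
    (hr : ∀ k l, k ≠ l → r ≤ v (x k - x l)) : r ^ (n + 1) ≤ ((n + 2 : ℕ) : ℝ) * (2 * A) := by
  have hA0 : 0 ≤ A := (v.nonneg _).trans (hA 0)
  have h1 := congrArg v (lagr (c := c) hP hd hx)
  rw [map_one] at h1
  have h2 := v_sum_le v Finset.univ
    fun i => (fP P c (x i) - fP P c (x 0)) / ∏ j ∈ Finset.univ.erase i, (x i - x j)
  have h3 : ∀ i ∈ (Finset.univ : Finset (Fin (n + 2))),
      v ((fP P c (x i) - fP P c (x 0)) / ∏ j ∈ Finset.univ.erase i, (x i - x j)) ≤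
        2 * A / r ^ (n + 1) := by
    intro i _
    rw [map_div₀, map_prod]
    have h4 : r ^ (n + 1) ≤ ∏ j ∈ Finset.univ.erase i, v (x i - x j) := by
      calc r ^ (n + 1) = ∏ _j ∈ Finset.univ.erase i, r := by
            rw [Finset.prod_const, Finset.card_erase_of_mem (Finset.mem_univ _), Finset.card_univ,
              Fintype.card_fin]
            rfl
        _ ≤ _ := Finset.prod_le_prod (fun _ _ => hr0.le) fun j hj =>
            hr i j (Ne.symm (Finset.ne_of_mem_erase hj))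
    have h5 : v (fP P c (x i) - fP P c (x 0)) ≤ 2 * A := by
      have := v_sub_le v (fP P c (x i)) (fP P c (x 0))
      have := hA i
      have := hA 0
      linarith
    have h6 : 0 < r ^ (n + 1) := by positivity
    gcongr
  have h4 := Finset.sum_le_sum h3
  rw [Finset.sum_const, Finset.card_univ, Fintype.card_fin, nsmul_eq_mul] at h4
  have h5 : 1 ≤ ((n + 2 : ℕ) : ℝ) * (2 * A / r ^ (n + 1)) := by
    rw [← h1] at h2
    linarith
  rw [← mul_div_assoc, le_div_iff₀ (by positivity), one_mul] at h5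
  exact h5

variable [CharZero K]

omit [Field K] [CharZero K] in
/-- the size of the final constants -/
lemma sizes2 (n : ℕ) {a : ℝ} (ha : 1 ≤ a) : ∃ A : ℝ, 0 ≤ A ∧ ∀ W R0 C1 c2 C4 κ C5 C6 N C7 C8 : ℝ,
    1 ≤ W → 1 ≤ R0 → 1 ≤ C1 → 0 < c2 → C1 ≤ a * W → c2⁻¹ ≤ a * W ^ n →
    R0 ≤ a * W ^ (2 * n + 1) → C4 = (((n + 1) ^ 3 : ℕ) * W) * C1 ^ n / c2 →
    κ = 1 / (3 * C4 + 3) → C5 = ((n + 2 : ℕ) : ℝ) * (2 * C1) → C6 = Real.log (C5 / κ ^ (n + 1)) →
    N = 2 * ((n : ℝ) + 1) → C7 = ((n : ℝ) + 1) * (|C6| + N * (4 * C4 * κ)) →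
    C8 = n * (((n + 1 : ℕ) : ℝ) * Real.log R0) → C7 + C8 ≤ A * (1 + Real.log W) := by
  obtain ⟨b, hb⟩ : ∃ b : ℝ, b = 3 * (((n + 1) ^ 3 : ℕ) * (a ^ n * a)) + 3 := ⟨_, rfl⟩
  have hb3 : 3 ≤ b := by
    have : (0 : ℝ) ≤ 3 * (((n + 1) ^ 3 : ℕ) * (a ^ n * a)) := by positivity
    rw [hb]; linarith
  obtain ⟨b5, hb5⟩ : ∃ b5 : ℝ, b5 = ((n + 2 : ℕ) : ℝ) * (2 * a) := ⟨_, rfl⟩
  have hb51 : 1 ≤ b5 := by
    have h1 : (1 : ℝ) ≤ ((n + 2 : ℕ) : ℝ) := by exact_mod_cast (by omega : 1 ≤ n + 2)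
    have h2 : 1 ≤ 2 * a := by linarith
    rw [hb5]
    exact one_le_mul_of_one_le_of_one_le h1 h2
  obtain ⟨l1, hl1⟩ : ∃ l : ℝ, l = Real.log b5 + ((n + 1 : ℕ) : ℝ) * Real.log b := ⟨_, rfl⟩
  have hl10 : 0 ≤ l1 := by
    have := Real.log_nonneg hb51
    have := Real.log_nonneg (by linarith : 1 ≤ b)
    rw [hl1]; positivity
  obtain ⟨l2, hl2⟩ : ∃ l : ℝ, l = 1 + ((n + 1 : ℕ) : ℝ) * ((2 * n + 1 : ℕ) : ℝ) := ⟨_, rfl⟩
  have hl20 : 0 ≤ l2 := by rw [hl2]; positivity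
  have hla : 0 ≤ Real.log a := Real.log_nonneg ha
  refine ⟨((n : ℝ) + 1) * (l1 + l2 + 2 * ((n : ℝ) + 1) * 4) +
    n * (((n + 1 : ℕ) : ℝ) * (Real.log a + ((2 * n + 1 : ℕ) : ℝ))), by positivity,
    fun W R0 C1 c2 C4 κ C5 C6 N C7 C8 hW hR0 hC1 hc20 hC1a hc2a hR0a hC4 hκ hC5 hC6 hN hC7 hC8 => ?_⟩
  have hlW : 0 ≤ Real.log W := Real.log_nonneg hW
  have hW0 : 0 < W := by linarith
  have ha0 : 0 < a := by linarith
  have hC40 : 0 ≤ C4 := by rw [hC4]; positivity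
  have hκ0 : 0 < κ := by rw [hκ]; positivity
  have hW2n : 1 ≤ W ^ (2 * n + 1) := one_le_pow₀ hW
  -- C4
  have g1 : 3 * C4 + 3 ≤ b * W ^ (2 * n + 1) := by
    have : C4 ≤ (((n + 1) ^ 3 : ℕ) * (a ^ n * a)) * W ^ (2 * n + 1) := by
      rw [hC4, div_eq_mul_inv]
      calc (((n + 1) ^ 3 : ℕ) * W) * C1 ^ n * c2⁻¹
          ≤ (((n + 1) ^ 3 : ℕ) * W) * (a * W) ^ n * (a * W ^ n) := by gcongr
        _ = (((n + 1) ^ 3 : ℕ) * (a ^ n * a)) * W ^ (2 * n + 1) := by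
            rw [mul_pow, pow_succ W (2 * n), two_mul, pow_add]
            ring
    rw [hb]
    calc 3 * C4 + 3 ≤ 3 * ((((n + 1) ^ 3 : ℕ) * (a ^ n * a)) * W ^ (2 * n + 1)) +
          3 * W ^ (2 * n + 1) := by linarith
      _ = _ := by ring
  have g2 : C4 * κ ≤ 1 := by
    rw [hκ, mul_one_div, div_le_one (by positivity)]
    linarith
  have g3 : C5 / κ ^ (n + 1) ≤ b5 * W * (b * W ^ (2 * n + 1)) ^ (n + 1) := by
    have e1 : C5 / κ ^ (n + 1) = C5 * (3 * C4 + 3) ^ (n + 1) := by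
      rw [hκ, div_pow, one_pow, div_div_eq_mul_div, div_one]
    rw [e1]
    have : C5 ≤ b5 * W := by
      rw [hC5, hb5]
      have : ((n + 2 : ℕ) : ℝ) * (2 * C1) ≤ ((n + 2 : ℕ) : ℝ) * (2 * (a * W)) := by gcongr
      linarith
    gcongr
  have g4 : 1 ≤ C5 / κ ^ (n + 1) := by
    have hκ1 : κ ^ (n + 1) ≤ 1 := by
      apply pow_le_one₀ hκ0.le
      rw [hκ, div_le_one (by positivity)]
      linarith
    have : 1 ≤ C5 := by
      have h1 : (1 : ℝ) ≤ ((n + 2 : ℕ) : ℝ) := by exact_mod_cast (by omega : 1 ≤ n + 2)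
      have h2 : 1 ≤ 2 * C1 := by linarith
      rw [hC5]
      exact one_le_mul_of_one_le_of_one_le h1 h2
    rw [le_div_iff₀ (by positivity), one_mul]
    linarith
  have g5 : |C6| ≤ l1 + l2 * Real.log W := by
    have h1 : 0 ≤ C6 := by rw [hC6]; exact Real.log_nonneg g4
    rw [abs_of_nonneg h1, hC6]
    refine (Real.log_le_log (by linarith) g3).trans ?_
    have hb0 : 0 < b := by linarith
    have hb50 : 0 < b5 := by linarith
    rw [Real.log_mul (by positivity) (by positivity), Real.log_mul (by positivity) (by positivity),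
      Real.log_pow, Real.log_mul (by positivity) (by positivity), Real.log_pow, hl1, hl2]
    apply le_of_eq
    ring
  have g6 : Real.log R0 ≤ Real.log a + ((2 * n + 1 : ℕ) : ℝ) * Real.log W := by
    refine (Real.log_le_log (by linarith) hR0a).trans ?_
    rw [Real.log_mul (by positivity) (by positivity), Real.log_pow]
  have g7 : N * (4 * C4 * κ) ≤ 2 * ((n : ℝ) + 1) * 4 := by
    rw [hN]
    have h1 : 4 * C4 * κ = 4 * (C4 * κ) := by ring
    have h2 : (0 : ℝ) ≤ 2 * ((n : ℝ) + 1) := by positivity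
    rw [h1]
    calc 2 * ((n : ℝ) + 1) * (4 * (C4 * κ)) ≤ 2 * ((n : ℝ) + 1) * (4 * 1) := by gcongr
      _ = _ := by ring
  have g8 : C7 ≤ ((n : ℝ) + 1) * (l1 + l2 + 2 * ((n : ℝ) + 1) * 4) * (1 + Real.log W) := by
    rw [hC7, mul_assoc ((n : ℝ) + 1) (l1 + l2 + 2 * ((n : ℝ) + 1) * 4)]
    apply mul_le_mul_of_nonneg_left _ (by positivity)
    obtain ⟨M, hM⟩ : ∃ M : ℝ, M = 2 * ((n : ℝ) + 1) * 4 := ⟨_, rfl⟩
    have hM0 : 0 ≤ M := by rw [hM]; positivity
    rw [← hM] at g7 ⊢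
    have h1 : 0 ≤ l1 * Real.log W := by positivity
    have h2 : 0 ≤ M * Real.log W := by positivity
    have e : (l1 + l2 + M) * (1 + Real.log W) = l1 + l2 + M + l1 * Real.log W + l2 * Real.log W +
      M * Real.log W := by ring
    rw [e]
    linarith
  have g9 : C8 ≤ n * (((n + 1 : ℕ) : ℝ) * (Real.log a + ((2 * n + 1 : ℕ) : ℝ))) *
      (1 + Real.log W) := by
    have h1 : Real.log R0 ≤ (Real.log a + ((2 * n + 1 : ℕ) : ℝ)) * (1 + Real.log W) := by
      have h2 : 0 ≤ Real.log a * Real.log W := by positivity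
      have h3 : (0 : ℝ) ≤ ((2 * n + 1 : ℕ) : ℝ) := Nat.cast_nonneg _
      have e : (Real.log a + ((2 * n + 1 : ℕ) : ℝ)) * (1 + Real.log W) = Real.log a +
        ((2 * n + 1 : ℕ) : ℝ) + Real.log a * Real.log W + ((2 * n + 1 : ℕ) : ℝ) * Real.log W := by
          ring
      rw [e]
      linarith
    rw [hC8, mul_assoc (n : ℝ), mul_assoc (((n + 1 : ℕ) : ℝ))]
    gcongr
  rw [add_mul]
  exact add_le_add g8 g9

theorem any_spread (hn : 1 ≤ n) : ∃ A : ℝ, 0 ≤ A ∧ ∀ P : K[X], P.Monic → P.natDegree = n + 1 →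
    ∀ W : ℝ, 1 ≤ W → (∀ k, v (P.coeff k) ≤ W) → ∀ (c : K) (x : Fin (n + 2) → K),
      Function.Injective x → (∀ i, PreP (fP P c) (x i)) → ∀ Q : ℝ, 1 ≤ Q →
      (∀ i j k l, k ≠ l → v (x i - x j) ≤ Q * v (x k - x l)) →
      (n : ℝ) * lx c v ≤ 2 * ((n : ℝ) + 1) ^ 2 * Real.log Q + A * (1 + Real.log W) := by
  obtain ⟨a, ha1, habase⟩ := any_base v hn
  obtain ⟨A, hA0, hA⟩ := sizes2 n ha1
  refine ⟨A, hA0, fun P hP hd W hW1 hW => ?_⟩
  obtain ⟨R0, C1, c2, hR0, hC1, hc20, hC1a, hc2a, hR0a, hbase⟩ := habase P hP hd W hW1 hW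
  obtain ⟨C4, hC4, hC4e, hstep⟩ := any_step v (n := n) (P := P) hd hW1 hW hC1 hc20
  obtain ⟨κ, hκ⟩ : ∃ κ, κ = 1 / (3 * C4 + 3) := ⟨_, rfl⟩
  have hκ0 : 0 < κ := by rw [hκ]; positivity
  have hκ1 : ∀ s, s < κ → C4 * s ≤ 1 / 3 := by
    intro s hs
    have h1 : C4 * s ≤ C4 * κ := by gcongr
    have h2 : C4 * κ ≤ 1 / 3 := by
      rw [hκ, mul_one_div, div_le_div_iff₀ (by positivity) (by norm_num)]
      linarith
    linarith
  obtain ⟨C5, hC5⟩ : ∃ C5 : ℝ, C5 = ((n + 2 : ℕ) : ℝ) * (2 * C1) := ⟨_, rfl⟩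
  have hC50 : 0 < C5 := by rw [hC5]; positivity
  obtain ⟨C6, hC6⟩ : ∃ C6, C6 = Real.log (C5 / κ ^ (n + 1)) := ⟨_, rfl⟩
  obtain ⟨N, hN⟩ : ∃ N : ℝ, N = 2 * ((n : ℝ) + 1) := ⟨_, rfl⟩
  have hN0 : 0 < N := by rw [hN]; positivity
  -- the claim
  have claim : ∀ (c : K) (R : ℝ), R0 ≤ R → v c = R ^ (n + 1) → ∀ (t : ℕ) (x : Fin (n + 2) → K),
      Function.Injective x → (∀ i, PreP (fP P c) (x i)) → ∀ Q s : ℝ, 1 ≤ Q →
      (∀ i j k l, k ≠ l → v (x i - x j) ≤ Q * v (x k - x l)) → s * R = Q * v (x 0 - x 1) →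
      κ ≤ 4 ^ t * s → (κ ≤ s → n * Real.log R ≤ N * Real.log Q + C6) ∧
        (s < κ → n * Real.log R + N * (C4 * s) ≤ N * Real.log Q + C6 + N * (4 * C4 * κ)) := by
    intro c R hR hc t
    obtain ⟨hb6, hb⟩ := hbase c R hR hc
    have hR1 : 1 ≤ R := hR0.trans hR
    have hRp : 0 < R := by linarith
    have h01 : (0 : Fin (n + 2)) ≠ 1 := by
      intro h'
      have := congrArg (fun t : Fin (n + 2) => (t : ℕ)) h'
      simp at this
    have hL : ∀ x : Fin (n + 2) → K, Function.Injective x → (∀ i, PreP (fP P c) (x i)) →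
        ∀ Q s : ℝ, 1 ≤ Q → (∀ i j k l, k ≠ l → v (x i - x j) ≤ Q * v (x k - x l)) →
        s * R = Q * v (x 0 - x 1) → κ ≤ s → n * Real.log R ≤ N * Real.log Q + C6 := by
      intro x hx hxp Q s hQ hcond hs hκs
      have hQ0 : 0 < Q := by linarith
      have h1 := lagr_any v hP hd hx (c := c) (A := C1 * R) (r := κ * R / Q ^ 2)
        (fun i => (hb _ (hxp i).map).1) (by positivity) (fun k l hkl => by
          have h2 := hcond 0 1 k l hkl
          have h3 : κ * R ≤ s * R := by gcongr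
          rw [div_le_iff₀ (by positivity)]
          calc κ * R ≤ s * R := h3
            _ = Q * v (x 0 - x 1) := hs
            _ ≤ Q * (Q * v (x k - x l)) := by gcongr
            _ = v (x k - x l) * Q ^ 2 := by ring)
      have h2 : R ^ n ≤ C5 / κ ^ (n + 1) * (Q ^ 2) ^ (n + 1) := by
        rw [div_pow, div_le_iff₀ (by positivity), mul_pow] at h1
        have h3 : κ ^ (n + 1) * R ^ n * R ≤ C5 * (Q ^ 2) ^ (n + 1) * R := by
          calc κ ^ (n + 1) * R ^ n * R = κ ^ (n + 1) * R ^ (n + 1) := by rw [pow_succ R]; ring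
            _ ≤ _ := h1
            _ = C5 * (Q ^ 2) ^ (n + 1) * R := by rw [hC5]; ring
        have h4 := le_of_mul_le_mul_right h3 hRp
        rw [div_mul_eq_mul_div, le_div_iff₀ (by positivity), mul_comm]
        exact h4
      have h3 := Real.log_le_log (by positivity) h2
      rw [Real.log_mul (by positivity) (by positivity), Real.log_pow, Real.log_pow, Real.log_pow,
        ← hC6] at h3
      rw [hN]
      push_cast at h3
      linarith
    induction t with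
    | zero =>
      intro x hx hxp Q s hQ hcond hs ht
      rw [pow_zero, one_mul] at ht
      exact ⟨fun _ => hL x hx hxp Q s hQ hcond hs ht, fun h => absurd h (not_lt.2 ht)⟩
    | succ t ih =>
      intro x hx hxp Q s hQ hcond hs ht
      refine ⟨hL x hx hxp Q s hQ hcond hs, fun hsκ => ?_⟩
      obtain ⟨h1, h2, h3⟩ := hstep c R hR1 hb6 hb x hx hxp Q s hQ hcond hs (hκ1 s hsκ)
      obtain ⟨Q', hQ'⟩ : ∃ Q', Q' = Q * (1 + 3 * (C4 * s)) := ⟨_, rfl⟩
      obtain ⟨s', hs'⟩ : ∃ s', s' = Q' * v ((fP P c ∘ x) 0 - (fP P c ∘ x) 1) / R := ⟨_, rfl⟩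
      have hs0 : 0 ≤ s := by
        have : 0 ≤ s * R := by rw [hs]; exact mul_nonneg (by linarith) (v.nonneg _)
        exact nonneg_of_mul_nonneg_left this hRp
      have hθ : 0 ≤ C4 * s := by positivity
      have hQQ : Q ≤ Q' := by rw [hQ']; nlinarith
      rw [← hQ'] at h2
      have hs'R : s' * R = Q' * v ((fP P c ∘ x) 0 - (fP P c ∘ x) 1) := by
        rw [hs', div_mul_cancel₀ _ hRp.ne']
      have hQ'0 : 0 ≤ Q' := by linarith
      have hss : 4 * s ≤ s' := by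
        apply le_of_mul_le_mul_right _ hRp
        rw [hs'R, mul_assoc, hs]
        calc 4 * (Q * v (x 0 - x 1)) = Q * (4 * v (x 0 - x 1)) := by ring
          _ ≤ Q' * v ((fP P c ∘ x) 0 - (fP P c ∘ x) 1) := by gcongr
      obtain ⟨g1, g2⟩ := ih (fP P c ∘ x) h1 (fun i => (hxp i).map) Q' s' (hQ.trans hQQ) h2 hs'R (by
        calc κ ≤ 4 ^ (t + 1) * s := ht
          _ = 4 ^ t * (4 * s) := by rw [pow_succ]; ring
          _ ≤ 4 ^ t * s' := by gcongr)
      have hlog : Real.log Q' ≤ Real.log Q + 3 * (C4 * s) := by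
        rw [hQ', Real.log_mul (by linarith) (by positivity)]
        have := Real.log_le_sub_one_of_pos (by positivity : 0 < 1 + 3 * (C4 * s))
        linarith
      have hlogN : N * Real.log Q' ≤ N * Real.log Q + N * (3 * (C4 * s)) := by
        rw [← mul_add]
        gcongr
      rcases lt_or_ge s' κ with h4 | h4
      · have g3 := g2 h4
        have h5 : N * (C4 * (4 * s)) ≤ N * (C4 * s') := by gcongr
        have h6 : N * (C4 * (4 * s)) = N * (3 * (C4 * s)) + N * (C4 * s) := by ring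
        linarith
      · have g3 := g1 h4
        have h5 : N * (C4 * s) ≤ N * (C4 * κ) := by gcongr
        have h6 : N * (3 * (C4 * s)) = 3 * (N * (C4 * s)) := by ring
        have h7 : N * (4 * C4 * κ) = 4 * (N * (C4 * κ)) := by ring
        rw [h6] at hlogN
        rw [h7]
        linarith
  -- the conclusion
  obtain ⟨C7, hC7⟩ : ∃ C7 : ℝ, C7 = ((n : ℝ) + 1) * (|C6| + N * (4 * C4 * κ)) := ⟨_, rfl⟩
  obtain ⟨C8, hC8⟩ : ∃ C8 : ℝ, C8 = n * (((n + 1 : ℕ) : ℝ) * Real.log R0) := ⟨_, rfl⟩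
  have hlR0 : 0 ≤ Real.log R0 := Real.log_nonneg hR0
  have hC70 : 0 ≤ C7 := by rw [hC7]; positivity
  have hC80 : 0 ≤ C8 := by rw [hC8]; positivity
  have hC78 := hA W R0 C1 c2 C4 κ C5 C6 N C7 C8 hW1 hR0 hC1 hc20 hC1a hc2a hR0a hC4e hκ hC5 hC6 hN
    hC7 hC8
  refine fun c x hx hxp Q hQ hcond => le_trans ?_ (add_le_add_right hC78 _)
  have hlQ : 0 ≤ Real.log Q := Real.log_nonneg hQ
  obtain ⟨R, hRnn, hR⟩ : ∃ R : ℝ, 0 ≤ R ∧ v c = R ^ (n + 1) := by
    refine ⟨(v c) ^ ((((n + 1 : ℕ) : ℝ))⁻¹), Real.rpow_nonneg (v.nonneg _) _, ?_⟩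
    rw [Real.rpow_inv_natCast_pow (v.nonneg _) (Nat.succ_ne_zero n)]
  have hmain : 0 ≤ 2 * ((n : ℝ) + 1) ^ 2 * Real.log Q := by positivity
  rcases lt_or_ge R R0 with h | h
  · have h1 : lx c v ≤ ((n + 1 : ℕ) : ℝ) * Real.log R0 := by
      unfold lx
      rw [← Real.log_pow]
      apply Real.log_le_log (by positivity)
      apply max_le
      · rw [hR]
        exact pow_le_pow_left₀ hRnn h.le _
      · exact one_le_pow₀ hR0
    have h2 : (n : ℝ) * lx c v ≤ C8 := by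
      rw [hC8]
      gcongr
    linarith
  · have hR1 : 1 ≤ R := hR0.trans h
    have hRp : 0 < R := by linarith
    have h01 : (0 : Fin (n + 2)) ≠ 1 := by
      intro h'
      have := congrArg (fun t : Fin (n + 2) => (t : ℕ)) h'
      simp at this
    have hpos : 0 < v (x 0 - x 1) := v.pos (sub_ne_zero.2 fun h' => h01 (hx h'))
    obtain ⟨s, hs⟩ : ∃ s, s = Q * v (x 0 - x 1) / R := ⟨_, rfl⟩
    have hs0 : 0 < s := by rw [hs]; positivity
    have hsR : s * R = Q * v (x 0 - x 1) := by rw [hs, div_mul_cancel₀ _ hRp.ne']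
    obtain ⟨t, ht⟩ := pow_unbounded_of_one_lt (κ / s) (by norm_num : (1 : ℝ) < 4)
    rw [div_lt_iff₀ hs0] at ht
    obtain ⟨g1, g2⟩ := claim c R h hR t x hx hxp Q s hQ hcond hsR ht.le
    have h3 : n * Real.log R ≤ N * Real.log Q + |C6| + N * (4 * C4 * κ) := by
      have h4 := le_abs_self C6
      have h5 : 0 ≤ N * (4 * C4 * κ) := by positivity
      rcases lt_or_ge s κ with h6 | h6
      · have := g2 h6
        have : 0 ≤ N * (C4 * s) := by positivity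
        linarith
      · have := g1 h6
        linarith
    have h4 : lx c v = ((n : ℝ) + 1) * Real.log R := by
      unfold lx
      rw [hR, max_eq_left (one_le_pow₀ hR1), Real.log_pow]
      push_cast
      ring
    rw [h4]
    calc (n : ℝ) * (((n : ℝ) + 1) * Real.log R) = ((n : ℝ) + 1) * (n * Real.log R) := by ring
      _ ≤ ((n : ℝ) + 1) * (N * Real.log Q + |C6| + N * (4 * C4 * κ)) := by gcongr
      _ = 2 * ((n : ℝ) + 1) ^ 2 * Real.log Q + C7 := by rw [hN, hC7, hN]; ring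
      _ ≤ _ := by linarith

end spread

end Pool.Agent.KS6_58
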