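import Pool.Agent.KS6_58.Dyn

/-!
# Local dynamics of `P(x) + c` at the nonarchimedean places of good behaviour
-/

set_option autoImplicit false

namespace Pool.Agent.KS6_58

open Function Polynomial

/-- the map `P(x) + c` -/
def fP {K : Type} [Field K] (P : K[X]) (c : K) : K → K := fun x => P.eval x + c

section basic

variable {K : Type} [Field K] {v : AbsoluteValue K ℝ}

lemma na_sum (hna : IsNonarchimedean v) {ι : Type} (s : Finset ι) (a : ι → K) {B : ℝ} (hB : 0 ≤ B)
    (h : ∀ i ∈ s, v (a i) ≤ B) : v (∑ i ∈ s, a i) ≤ B := by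
  classical
  induction s using Finset.induction_on with
  | empty => simpa using hB
  | insert i s hi ih =>
    rw [Finset.sum_insert hi]
    exact (hna _ _).trans (max_le (h i (Finset.mem_insert_self _ _))
      (ih fun j hj => h j (Finset.mem_insert_of_mem hj)))

/-- differences of powers -/
lemma na_pow_sub (hna : IsNonarchimedean v) {x y : K} {M : ℝ} (hx : v x ≤ M) (hy : v y ≤ M)
    (k : ℕ) : v (x ^ (k + 1) - y ^ (k + 1)) ≤ v (x - y) * M ^ k := by
  have hM : 0 ≤ M := (v.nonneg x).trans hx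
  rw [← (Commute.all x y).geom_sum₂_mul, map_mul, mul_comm]
  apply mul_le_mul_of_nonneg_left _ (v.nonneg _)
  apply na_sum hna _ _ (by positivity)
  intro i hi
  rw [Finset.mem_range] at hi
  rw [map_mul, map_pow, map_pow]
  calc v x ^ i * v y ^ (k + 1 - 1 - i) ≤ M ^ i * M ^ (k + 1 - 1 - i) := by
        gcongr
    _ = M ^ k := by rw [← pow_add]; congr 1; omega

/-- differences of values of a polynomial of degree at most `m + 1` with integral coefficients -/
lemma na_eval_sub (hna : IsNonarchimedean v) {P : K[X]} (hi : ∀ i, v (P.coeff i) ≤ 1) {m : ℕ}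
    (hd : P.natDegree ≤ m + 1) {x y : K} {M : ℝ} (hM : 1 ≤ M) (hx : v x ≤ M) (hy : v y ≤ M) :
    v (P.eval x - P.eval y) ≤ v (x - y) * M ^ m := by
  rw [eval_eq_sum_range' (Nat.lt_succ_of_le hd), eval_eq_sum_range' (Nat.lt_succ_of_le hd),
    ← Finset.sum_sub_distrib]
  have h0 : 0 ≤ v (x - y) * M ^ m := mul_nonneg (v.nonneg _) (by positivity)
  apply na_sum hna _ _ h0
  intro i hi'
  rw [Finset.mem_range] at hi'
  rcases i with _ | k
  · simpa using h0
  · rw [← mul_sub, map_mul]
    calc v (P.coeff (k + 1)) * v (x ^ (k + 1) - y ^ (k + 1)) ≤ 1 * (v (x - y) * M ^ k) := by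
          have := na_pow_sub hna hx hy k
          have := v.nonneg (x ^ (k + 1) - y ^ (k + 1))
          have := v.nonneg (P.coeff (k + 1))
          have h2 := hi (k + 1)
          gcongr
      _ ≤ v (x - y) * M ^ m := by
          rw [one_mul]
          apply mul_le_mul_of_nonneg_left _ (v.nonneg _)
          exact pow_le_pow_right₀ hM (by omega)

lemma na_eval_le (hna : IsNonarchimedean v) {P : K[X]} (hi : ∀ i, v (P.coeff i) ≤ 1) {m : ℕ}
    (hd : P.natDegree ≤ m) {x : K} {M : ℝ} (hM : 1 ≤ M) (hx : v x ≤ M) :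
    v (P.eval x) ≤ M ^ m := by
  rw [eval_eq_sum_range' (Nat.lt_succ_of_le hd)]
  apply na_sum hna _ _ (by positivity)
  intro i hi'
  rw [Finset.mem_range] at hi'
  rw [map_mul, map_pow]
  calc v (P.coeff i) * v x ^ i ≤ 1 * M ^ i := by
        have := v.nonneg x
        have h2 := hi i
        gcongr
    _ ≤ M ^ m := by
        rw [one_mul]
        exact pow_le_pow_right₀ hM (by omega)

/-- the lower terms of a monic polynomial -/
lemma erase_data {n : ℕ} {P : K[X]} (hP : P.Monic) (hd : P.natDegree = n + 1)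
    (hi : ∀ i, v (P.coeff i) ≤ 1) : ∃ Q : K[X], Q.natDegree ≤ n ∧ (∀ i, v (Q.coeff i) ≤ 1) ∧
      ∀ x, P.eval x = x ^ (n + 1) + Q.eval x := by
  refine ⟨P - X ^ (n + 1), ?_, ?_, fun x => ?_⟩
  · have h1 : (P - X ^ (n + 1)).degree < P.degree := by
      apply degree_sub_lt_left
      · rw [degree_X_pow, degree_eq_natDegree hP.ne_zero, hd]
      · exact hP.ne_zero
      · rw [hP.leadingCoeff, leadingCoeff_X_pow]
    by_cases h : P - X ^ (n + 1) = 0
    · rw [h]; simp
    · have := natDegree_lt_natDegree h h1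
      omega
  · intro i
    rw [coeff_sub, coeff_X_pow]
    split_ifs with h
    · rw [h, ← hd, coeff_natDegree, hP.leadingCoeff, sub_self, map_zero]
      exact zero_le_one
    · rw [sub_zero]; exact hi i
  · simp

end basic

/-- the local hypotheses -/
structure LD {K : Type} [Field K] (v : AbsoluteValue K ℝ) (n : ℕ) (P : K[X]) : Prop where
  na : IsNonarchimedean v
  mon : P.Monic
  deg : P.natDegree = n + 1
  int : ∀ i, v (P.coeff i) ≤ 1
  one : v ((n : K) + 1) = 1
  pos : 1 ≤ n

section loc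

variable {K : Type} [Field K] {v : AbsoluteValue K ℝ} {n : ℕ} {P : K[X]} {c : K}

lemma LD.lead (h : LD v n P) {x : K} (hx : 1 < v x) : v (P.eval x) = v x ^ (n + 1) := by
  obtain ⟨Q, hQd, hQi, hQ⟩ := erase_data h.mon h.deg h.int
  rw [hQ, na_add_eq h.na, map_pow]
  rw [map_pow]
  exact (na_eval_le h.na hQi hQd hx.le le_rfl).trans_lt (pow_lt_pow_right₀ hx (Nat.lt_succ_self n))

lemma LD.eval_le_one (h : LD v n P) {x : K} (hx : v x ≤ 1) : v (P.eval x) ≤ 1 := by
  have := na_eval_le h.na h.int h.deg.le le_rfl hx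
  rwa [one_pow] at this

/-- good places -/
lemma LD.gd_pre (h : LD v n P) (hc : v c ≤ 1) {x : K} (hx : PreP (fP P c) x) : v x ≤ 1 := by
  by_contra hlt
  push Not at hlt
  refine not_pre {y | 1 < v y} (fun y => v y) ?_ hlt hx
  intro y (hy : 1 < v y)
  have hn := h.pos
  have h1 : v y < v y ^ (n + 1) := by
    conv_lhs => rw [← pow_one (v y)]
    exact pow_lt_pow_right₀ hy (by omega)
  have h2 : v (fP P c y) = v y ^ (n + 1) := by
    unfold fP
    rw [na_add_eq h.na, h.lead hy]
    rw [h.lead hy]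
    exact hc.trans_lt (hy.trans h1)
  simp only [Set.mem_ofPred_eq, h2]
  exact ⟨hy.trans h1, h1⟩

/-- bad places -/
lemma LD.bd_pre (h : LD v n P) (hc : 1 < v c) {x : K} (hx : PreP (fP P c) x) :
    v x ^ (n + 1) = v c := by
  have hn := h.pos
  have hesc : ∀ y, v c < v y ^ (n + 1) → ¬ PreP (fP P c) y := by
    intro y hy
    refine not_pre {y | v c < v y ^ (n + 1)} (fun y => v y) ?_ hy
    intro y (hy : v c < v y ^ (n + 1))
    have h0 : 1 < v y := by
      by_contra h
      push Not at h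
      have := pow_le_one₀ (v.nonneg y) h (n := n + 1)
      linarith
    have h1 : v y < v y ^ (n + 1) := by
      conv_lhs => rw [← pow_one (v y)]
      exact pow_lt_pow_right₀ h0 (by omega)
    have h2 : v (fP P c y) = v y ^ (n + 1) := by
      unfold fP
      rw [na_add_eq h.na, h.lead h0]
      rw [h.lead h0]
      exact hy
    simp only [Set.mem_ofPred_eq, h2]
    refine ⟨hy.trans ?_, h1⟩
    exact pow_lt_pow_left₀ h1 (v.nonneg _) (by omega)
  rcases lt_trichotomy (v x ^ (n + 1)) (v c) with h' | h' | h'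
  · exfalso
    refine hesc _ ?_ hx.map
    have h2 : v (fP P c x) = v c := by
      unfold fP
      rw [add_comm, na_add_eq h.na]
      rcases le_or_gt (v x) 1 with h1 | h1
      · exact (h.eval_le_one h1).trans_lt hc
      · rw [h.lead h1]; exact h'
    rw [h2]
    conv_lhs => rw [← pow_one (v c)]
    exact pow_lt_pow_right₀ hc (by omega)
  · exact h'
  · exact absurd hx (hesc _ h')

lemma LD.bd_eq (h : LD v n P) (hc : 1 < v c) {x y : K} (hx : PreP (fP P c) x)
    (hy : PreP (fP P c) y) : v x = v y := bad_eq (h.bd_pre hc hx) (h.bd_pre hc hy)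

lemma LD.bd_gt (h : LD v n P) (hc : 1 < v c) {x : K} (hx : PreP (fP P c) x) : 1 < v x :=
  bad_gt hc (h.bd_pre hc hx)

/-- one step -/
lemma LD.bd_step (h : LD v n P) (hc : 1 < v c) {x y : K}
    (hx : PreP (fP P c) x) (hy : PreP (fP P c) y) (hlt : v (x - y) < v x) :
    v (fP P c x - fP P c y) = v (x - y) * v x ^ n := by
  obtain ⟨Q, hQd, hQi, hQ⟩ := erase_data h.mon h.deg h.int
  have hxy : v y = v x := (h.bd_eq hc hx hy).symm
  have hx1 := h.bd_gt hc hx
  have hn := h.pos
  obtain ⟨m, rfl⟩ : ∃ m, n = m + 1 := ⟨n - 1, by omega⟩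
  have e : fP P c x - fP P c y = (x ^ (m + 2) - y ^ (m + 2)) + (Q.eval x - Q.eval y) := by
    unfold fP
    rw [hQ, hQ]
    ring
  have h0 : 0 < v x := one_pos.trans hx1
  -- the lower terms
  have hlow : v (Q.eval x - Q.eval y) ≤ v (x - y) * v x ^ m :=
    na_eval_sub h.na hQi hQd hx1.le le_rfl hxy.le
  -- the leading term
  have hlead : v (x ^ (m + 2) - y ^ (m + 2)) = v (x - y) * v x ^ (m + 1) := by
    rw [← (Commute.all x y).geom_sum₂_mul, map_mul, mul_comm]
    congr 1
    have e1 : ∑ i ∈ Finset.range (m + 2), x ^ i * y ^ (m + 2 - 1 - i) =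
        (((m + 1 : ℕ) : K) + 1) * y ^ (m + 1) +
          ∑ i ∈ Finset.range (m + 2), (x ^ i - y ^ i) * y ^ (m + 2 - 1 - i) := by
      have e2 : ∀ i ∈ Finset.range (m + 2), x ^ i * y ^ (m + 2 - 1 - i) =
          y ^ (m + 1) + (x ^ i - y ^ i) * y ^ (m + 2 - 1 - i) := by
        intro i hi
        rw [Finset.mem_range] at hi
        have e3 : y ^ (m + 1) = y ^ i * y ^ (m + 2 - 1 - i) := by
          rw [← pow_add]; congr 1; omega
        rw [e3]
        ring
      rw [Finset.sum_congr rfl e2, Finset.sum_add_distrib, Finset.sum_const, Finset.card_range,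
        nsmul_eq_mul]
      push_cast
      ring
    have h1 : v ((((m + 1 : ℕ) : K) + 1) * y ^ (m + 1)) = v x ^ (m + 1) := by
      rw [map_mul, map_pow, h.one, one_mul, hxy]
    have h2 : v (∑ i ∈ Finset.range (m + 2), (x ^ i - y ^ i) * y ^ (m + 2 - 1 - i)) ≤
        v (x - y) * v x ^ m := by
      apply na_sum h.na _ _ (by positivity)
      intro i hi
      rw [Finset.mem_range] at hi
      rcases i with _ | k
      · simp
        positivity
      · rw [map_mul, map_pow, hxy]
        calc v (x ^ (k + 1) - y ^ (k + 1)) * v x ^ (m + 2 - 1 - (k + 1))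
            ≤ (v (x - y) * v x ^ k) * v x ^ (m + 2 - 1 - (k + 1)) := by
              have := na_pow_sub h.na le_rfl hxy.le k
              gcongr
          _ = v (x - y) * v x ^ m := by
              rw [mul_assoc, ← pow_add]
              congr 2
              omega
    rw [e1, na_add_eq h.na, h1]
    rw [h1]
    refine h2.trans_lt ?_
    rw [pow_succ']
    exact mul_lt_mul_of_pos_right hlt (by positivity)
  rw [e]
  rcases (v.nonneg (x - y)).eq_or_lt with h3 | h3
  · have h4 : x = y := by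
      rw [eq_comm, v.eq_zero, sub_eq_zero] at h3
      exact h3
    rw [h4]; simp
  · rw [na_add_eq h.na, hlead]
    rw [hlead]
    refine hlow.trans_lt ?_
    apply mul_lt_mul_of_pos_left _ h3
    exact pow_lt_pow_right₀ hx1 (Nat.lt_succ_self m)

/-- **distances of preperiodic points at the bad places** -/
lemma LD.bd_dist (h : LD v n P) (hc : 1 < v c) {x y : K}
    (hx : PreP (fP P c) x) (hy : PreP (fP P c) y) (hne : x ≠ y) :
    ∃ N : ℕ, v (x - y) * (v x ^ N) ^ n = v x ∧
      v ((fP P c)^[N] x - (fP P c)^[N] y) = v x := by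
  obtain ⟨f, hf⟩ : ∃ f, f = fP P c := ⟨_, rfl⟩
  have hR : ∀ z, PreP f z → v z = v x := fun z hz => by
    rw [hf] at hz
    exact h.bd_eq hc hz hx
  have hR1 : 1 < v x := h.bd_gt hc hx
  have h0 : 0 < v (x - y) := v.pos (sub_ne_zero.2 hne)
  have hRn : 1 < v x ^ n := one_lt_pow₀ hR1 (by have := h.pos; omega)
  rw [← hf] at hx hy ⊢
  have key : ∀ N : ℕ, (∃ M : ℕ, v (x - y) * (v x ^ M) ^ n = v x ∧
      v (f^[M] x - f^[M] y) = v x) ∨
      (v (f^[N] x - f^[N] y) = v (x - y) * (v x ^ N) ^ n ∧ v (f^[N] x - f^[N] y) < v x) := by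
    intro N
    induction N with
    | zero =>
      have h1 : v (x - y) ≤ v x := by
        refine (na_sub h.na _ _).trans ?_
        rw [hR y hy, max_self]
      rcases h1.eq_or_lt with h2 | h2
      · left
        exact ⟨0, by simpa using h2, by simpa using h2⟩
      · right
        exact ⟨by simp, h2⟩
    | succ N ih =>
      rcases ih with h' | ⟨h1, h2⟩
      · exact Or.inl h'
      · have hxN := hx.iter N
        have hyN := hy.iter N
        have h3 : v (f (f^[N] x) - f (f^[N] y)) = v (f^[N] x - f^[N] y) * v (f^[N] x) ^ n := by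
          have h4 : v (f^[N] x - f^[N] y) < v (f^[N] x) := by rw [hR _ hxN]; exact h2
          rw [hf] at hxN hyN h4 ⊢
          exact h.bd_step hc hxN hyN h4
        rw [← iterate_succ_apply' f, ← iterate_succ_apply' f, hR _ hxN, h1] at h3
        have h5 : v (x - y) * (v x ^ N) ^ n * v x ^ n = v (x - y) * (v x ^ (N + 1)) ^ n := by
          rw [pow_succ (v x) N, mul_pow]; ring
        rw [h5] at h3
        have h6 : v (f^[N + 1] x - f^[N + 1] y) ≤ v x := by
          refine (na_sub h.na _ _).trans ?_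
          rw [hR _ (hx.iter _), hR _ (hy.iter _), max_self]
        rcases h6.eq_or_lt with h7 | h7
        · left
          exact ⟨N + 1, by rw [← h3, h7], h7⟩
        · right
          exact ⟨h3, h7⟩
  obtain ⟨N, hN⟩ := pow_unbounded_of_one_lt (v x / v (x - y)) hRn
  rcases key N with h' | ⟨h1, h2⟩
  · exact h'
  · exfalso
    rw [h1] at h2
    rw [div_lt_iff₀ h0, ← pow_mul, mul_comm n N, pow_mul] at hN
    linarith

/-- ratios at the bad places -/
lemma LD.bd_ratio (h : LD v n P) (hc : 1 < v c) {x y z w : K}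
    (hx : PreP (fP P c) x) (hy : PreP (fP P c) y) (hz : PreP (fP P c) z) (hw : PreP (fP P c) w)
    (hxy : x ≠ y) (hzw : z ≠ w) : ∃ u : K, u ≠ 0 ∧ v ((x - y) / (z - w)) = v (u ^ n) := by
  obtain ⟨N, hN, -⟩ := h.bd_dist hc hx hy hxy
  obtain ⟨M, hM, -⟩ := h.bd_dist hc hz hw hzw
  have hxz : v z = v x := h.bd_eq hc hz hx
  rw [hxz] at hM
  have hx1 : 1 < v x := h.bd_gt hc hx
  have hx0 : x ≠ 0 := by
    rintro rfl
    rw [map_zero] at hx1
    linarith
  have hvx : 0 < v x := v.pos hx0
  refine ⟨x ^ M / x ^ N, div_ne_zero (pow_ne_zero _ hx0) (pow_ne_zero _ hx0), ?_⟩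
  have h1 : 0 < v (z - w) := v.pos (sub_ne_zero.2 hzw)
  have h3 : 0 < (v x ^ N) ^ n := by positivity
  rw [map_div₀, map_pow, map_div₀, map_pow, map_pow, div_pow, div_eq_div_iff h1.ne' h3.ne', hN,
    mul_comm, hM]

/-- good places: the map does not increase distances -/
lemma LD.gd_step (h : LD v n P) (hc : v c ≤ 1) {x y : K} (hx : PreP (fP P c) x)
    (hy : PreP (fP P c) y) : v (fP P c x - fP P c y) ≤ v (x - y) := by
  have h1 := na_eval_sub h.na h.int h.deg.le (le_refl (1 : ℝ)) (h.gd_pre hc hx) (h.gd_pre hc hy)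
  rw [one_pow, mul_one] at h1
  unfold fP
  rwa [add_sub_add_right_eq_sub]

lemma LD.gd_iter (h : LD v n P) (hc : v c ≤ 1) {x y : K} (hx : PreP (fP P c) x)
    (hy : PreP (fP P c) y) (k : ℕ) :
    v ((fP P c)^[k] x - (fP P c)^[k] y) ≤ v (x - y) := by
  induction k with
  | zero => exact le_rfl
  | succ k ih =>
    rw [iterate_succ_apply', iterate_succ_apply']
    exact (h.gd_step hc (hx.iter k) (hy.iter k)).trans ih

/-- good places: distances between periodic points are preserved -/
lemma LD.gd_per (h : LD v n P) (hc : v c ≤ 1) {x y : K} (hx : x ∈ periodicPts (fP P c))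
    (hy : y ∈ periodicPts (fP P c)) (k : ℕ) :
    v ((fP P c)^[k] x - (fP P c)^[k] y) = v (x - y) := by
  apply le_antisymm (h.gd_iter hc (PreP.of_per hx) (PreP.of_per hy) k)
  obtain ⟨N, hN, hxN⟩ := id hx
  obtain ⟨M, hM, hyM⟩ := id hy
  -- `k` more steps reach a common period
  have h1 : (fP P c)^[k * (M * N)] x = x := (hxN.const_mul M).const_mul k
  have h2 : (fP P c)^[k * (M * N)] y = y := (hyM.mul_const N).const_mul k
  have hMN : 1 ≤ M * N := Nat.mul_pos hM hN
  have h3 : k ≤ k * (M * N) := Nat.le_mul_of_pos_right k hMN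
  obtain ⟨j, hj⟩ := Nat.exists_eq_add_of_le h3
  have h4 := h.gd_iter hc (PreP.of_per (per_iter hx k)) (PreP.of_per (per_iter hy k)) j
  rw [← iterate_add_apply, ← iterate_add_apply, add_comm j k, ← hj, h1, h2] at h4
  exact h4

end loc

end Pool.Agent.KS6_58
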