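import Pool.Agent.KS6_58.PG

/-!
# Few preperiodic points of `P(x) + c` satisfy a three term relation
-/

set_option autoImplicit false

namespace Pool.Agent.KS6_58

open Function Polynomial Height Height.AdmissibleAbsValues Pool.Agent.H437R2.Man NumberField

section few

variable {K : Type} [Field K] [NumberField K] {n : ℕ} {P : K[X]}

/-- few preperiodic points have small coordinates -/
theorem few_small (K : Type) [Field K] [NumberField K] (n : ℕ) (hn : 1 ≤ n) {N : ℕ} (hN0 : N ≠ 0) :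
    ∃ δ A' : ℝ, 0 < δ ∧ δ ≤ 1 ∧ 0 ≤ A' ∧ ∀ P : K[X], P.Monic → P.natDegree = n + 1 →
      (∀ i, SInt N (P.coeff i)) → ∀ c : K, A' * (1 + hC58 n P) ≤ logHeight₁ c →
      ∀ u w : K, w ≠ 0 → ∀ S : Finset K,
      (∀ x ∈ S, PreP (fP P c) x ∧ logHeight₁ ((x - u) / w) ≤ δ * logHeight₁ c) →
      S.card ≤ n + 1 := by
  classical
  obtain ⟨C', hC', hsp'⟩ := glob_spread K n hn hN0
  obtain ⟨M4, hM4⟩ : ∃ M : ℝ, M = (((n + 2) * (n + 2) * ((n + 2) * (n + 2)) : ℕ) : ℝ) := ⟨_, rfl⟩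
  have hM41 : 1 ≤ M4 := by
    rw [hM4]
    have : 0 < (n + 2) * (n + 2) * ((n + 2) * (n + 2)) := by positivity
    have : 1 ≤ (n + 2) * (n + 2) * ((n + 2) * (n + 2)) := this
    exact_mod_cast this
  obtain ⟨A, hA⟩ : ∃ A : ℝ, A = 2 * ((n : ℝ) + 1) ^ 2 := ⟨_, rfl⟩
  have hnR : (1 : ℝ) ≤ n := by exact_mod_cast hn
  have hA1 : (n : ℝ) ≤ A := by rw [hA]; nlinarith
  have hA0 : 0 < A := by linarith
  obtain ⟨l2, hl2⟩ : ∃ l2, l2 = (totalWeight K : ℝ) * Real.log 2 := ⟨_, rfl⟩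
  have hl20 : 0 ≤ l2 := by rw [hl2]; positivity
  obtain ⟨δ, hδ⟩ : ∃ δ, δ = n / (8 * (A * M4)) := ⟨_, rfl⟩
  have hAM : 0 < A * M4 := by positivity
  have hδ0 : 0 < δ := by rw [hδ]; positivity
  have hδ1 : δ ≤ 1 := by
    rw [hδ, div_le_one (by positivity)]
    nlinarith
  refine ⟨δ, 2 * (A * (M4 * (2 * l2)) + C') + 1, hδ0, hδ1, by positivity,
    fun P hP hd hN c hc' u w hw S hS => ?_⟩
  have hPh := hC58_nonneg n P
  obtain ⟨C, hCe⟩ : ∃ C, C = C' * (1 + hC58 n P) := ⟨_, rfl⟩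
  have hC : 0 ≤ C := by rw [hCe]; positivity
  have hsp := hsp' P hP hd hN
  rw [← hCe] at hsp
  have hc : 2 * (A * (M4 * (2 * l2)) + C) + 1 ≤ logHeight₁ c := by
    refine le_trans ?_ hc'
    have h1 : 0 ≤ A * (M4 * (2 * l2)) * hC58 n P := by positivity
    rw [hCe]
    nlinarith
  by_contra hcard
  push Not at hcard
  obtain ⟨S', hS'S, hS'⟩ := Finset.exists_subset_card_eq (show n + 2 ≤ S.card by omega)
  obtain ⟨x, hx, hxS⟩ : ∃ x : Fin (n + 2) → K, Function.Injective x ∧ ∀ i, x i ∈ S := by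
    refine ⟨fun i => ((S'.equivFinOfCardEq hS').symm i : K), fun i j h => ?_, fun i => ?_⟩
    · exact (S'.equivFinOfCardEq hS').symm.injective (Subtype.ext h)
    · exact hS'S ((S'.equivFinOfCardEq hS').symm i).2
  obtain ⟨h, hh⟩ : ∃ h, h = logHeight₁ c := ⟨_, rfl⟩
  have h1 := hsp c x hx fun i => (hS _ (hxS i)).1
  rw [← hA, ← hh] at h1
  have h2 : ∀ a ∈ (Finset.univ : Finset ((Fin (n + 2) × Fin (n + 2)) × (Fin (n + 2) × Fin (n + 2)))),
      logHeight₁ ((x a.1.1 - x a.1.2) / (x a.2.1 - x a.2.2)) ≤ 4 * (δ * h) + 2 * l2 := by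
    rintro ⟨⟨i, j⟩, ⟨k, l⟩⟩ -
    show logHeight₁ ((x i - x j) / (x k - x l)) ≤ 4 * (δ * h) + 2 * l2
    have e : (x i - x j) / (x k - x l) = ((x i - u) / w - (x j - u) / w) /
        ((x k - u) / w - (x l - u) / w) := by
      rw [← sub_div, ← sub_div, sub_sub_sub_cancel_right, sub_sub_sub_cancel_right,
        div_div_div_cancel_right₀ hw]
    have hs : ∀ i, logHeight₁ ((x i - u) / w) ≤ δ * h := fun i => by
      rw [hh]; exact (hS _ (hxS i)).2
    rw [e, div_eq_mul_inv]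
    have g1 := logHeight₁_mul_le ((x i - u) / w - (x j - u) / w)
      ((x k - u) / w - (x l - u) / w)⁻¹
    rw [logHeight₁_inv] at g1
    have g2 := logHeight₁_sub_le ((x i - u) / w) ((x j - u) / w)
    have g3 := logHeight₁_sub_le ((x k - u) / w) ((x l - u) / w)
    have := hs i
    have := hs j
    have := hs k
    have := hs l
    rw [← hl2] at g2 g3
    linarith
  have h3 := Finset.sum_le_sum h2
  rw [Finset.sum_const, nsmul_eq_mul] at h3
  have hcardU : ((Finset.univ : Finset ((Fin (n + 2) × Fin (n + 2)) ×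
      (Fin (n + 2) × Fin (n + 2)))).card : ℝ) = M4 := by
    rw [Finset.card_univ, Fintype.card_prod, Fintype.card_prod, Fintype.card_fin, hM4]
  rw [hcardU] at h3
  have h4 : (n : ℝ) * h ≤ A * (M4 * (4 * (δ * h) + 2 * l2)) + C := by
    refine h1.trans ?_
    gcongr
  have h5 : A * (M4 * (4 * (δ * h))) = n * h / 2 := by
    rw [hδ]
    field_simp
    ring
  have h6 : (n : ℝ) * h / 2 ≤ A * (M4 * (2 * l2)) + C := by
    have : A * (M4 * (4 * (δ * h) + 2 * l2)) = A * (M4 * (4 * (δ * h))) + A * (M4 * (2 * l2)) := by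
      ring
    linarith
  rw [← hh] at hc
  have hh0 : 0 ≤ h := by rw [hh]; exact ht_nn c
  nlinarith

/-- **few preperiodic points have coordinates in a set with the window property** -/
theorem few_gen (K : Type) [Field K] [NumberField K] (n : ℕ) (hn : 1 ≤ n) {N : ℕ} (hN0 : N ≠ 0)
    {W : K → Prop} (hW : WinP W) : ∃ (B : ℕ) (A' : ℝ), 0 ≤ A' ∧ ∀ P : K[X], P.Monic →
      P.natDegree = n + 1 → (∀ i, SInt N (P.coeff i)) → ∀ c : K,
      A' * (1 + hC58 n P) ≤ logHeight₁ c → ∀ u w : K, w ≠ 0 →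
      logHeight₁ u ≤ 3 * logHeight₁ c → logHeight₁ w ≤ 6 * logHeight₁ c → ∀ S : Finset K,
      (∀ x ∈ S, PreP (fP P c) x ∧ W ((x - u) / w)) → S.card ≤ B := by
  classical
  obtain ⟨δ, A1, hδ0, hδ1, hA1, hsmall⟩ := few_small K n hn hN0
  obtain ⟨A2, hA2, hup⟩ := glob_up K n hn hN0
  obtain ⟨l2, hl2⟩ : ∃ l2, l2 = (totalWeight K : ℝ) * Real.log 2 := ⟨_, rfl⟩
  have hl20 : 0 ≤ l2 := by rw [hl2]; positivity
  obtain ⟨H0, B0, hwin⟩ := hW (12 / δ) (by
    rw [le_div_iff₀ hδ0]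
    linarith)
  have hm0 : 0 ≤ |H0| / δ := by positivity
  refine ⟨n + 1 + B0, A1 + A2 + l2 + |H0| / δ, by positivity,
    fun P hP hd hN c hc' u w hw hu hw' S hS => ?_⟩
  have hPh := hC58_nonneg n P
  obtain ⟨h, hh⟩ : ∃ h, h = logHeight₁ c := ⟨_, rfl⟩
  rw [← hh] at hc' hu hw'
  have hh0 : 0 ≤ h := by rw [hh]; exact ht_nn c
  have e1 : (A1 + A2 + l2 + |H0| / δ) * (1 + hC58 n P) = A1 * (1 + hC58 n P) +
      A2 * (1 + hC58 n P) + (l2 + |H0| / δ) + (l2 + |H0| / δ) * hC58 n P := by ring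
  rw [e1] at hc'
  have q1 : 0 ≤ A1 * (1 + hC58 n P) := by positivity
  have q2 : 0 ≤ A2 * (1 + hC58 n P) := by positivity
  have q3 : 0 ≤ (l2 + |H0| / δ) * hC58 n P := by positivity
  rw [← Finset.card_filter_add_card_filter_not (fun x => logHeight₁ ((x - u) / w) ≤ δ * h)]
  apply Nat.add_le_add
  · apply hsmall P hP hd hN c (by rw [← hh]; linarith) u w hw
    intro x hx
    rw [Finset.mem_filter] at hx
    rw [← hh]
    exact ⟨(hS x hx.1).1, hx.2⟩
  · have hinj : Function.Injective (fun x : K => (x - u) / w) := by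
      intro x y hxy
      have h1 : x - u = y - u := (div_left_inj' hw).1 hxy
      exact sub_left_injective h1
    rw [← Finset.card_image_of_injective _ hinj]
    apply hwin (δ * h)
    · have h1 : |H0| / δ ≤ h := by linarith
      rw [div_le_iff₀ hδ0] at h1
      have := le_abs_self H0
      linarith
    · intro t ht
      obtain ⟨x, hx, rfl⟩ := Finset.mem_image.1 ht
      rw [Finset.mem_filter, not_le] at hx
      refine ⟨(hS x hx.1).2, hx.2.le, ?_⟩
      have h1 : 12 / δ * (δ * h) = 12 * h := by field_simp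
      rw [h1]
      have g1 := logHeight₁_mul_le (x - u) w⁻¹
      rw [logHeight₁_inv, ← div_eq_mul_inv] at g1
      have g2 := logHeight₁_sub_le x u
      have g3 := hup P hP hd hN c x (hS x hx.1).1
      rw [← hh] at g3
      rw [← hl2] at g2
      show logHeight₁ ((x - u) / w) ≤ 12 * h
      linarith

/-- **few preperiodic points satisfy a three term relation** -/
theorem few (K : Type) [Field K] [NumberField K] (n : ℕ) (hn : 5 ≤ n) {N : ℕ} (hN0 : N ≠ 0)
    {a : K} (ha : a ≠ 0) (T : Finset K) : ∃ (B : ℕ) (A' : ℝ), 0 ≤ A' ∧ ∀ P : K[X], P.Monic →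
      P.natDegree = n + 1 → (∀ i, SInt N (P.coeff i)) → ∀ c : K,
      A' * (1 + hC58 n P) ≤ logHeight₁ c → ∀ u w : K, w ≠ 0 →
      logHeight₁ u ≤ 3 * logHeight₁ c → logHeight₁ w ≤ 6 * logHeight₁ c → ∀ S : Finset K,
      (∀ x ∈ S, PreP (fP P c) x ∧ TwoP n a T ((x - u) / w)) → S.card ≤ B :=
  few_gen K n (by omega) hN0 (win_two hn ha T)

end few

end Pool.Agent.KS6_58
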