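import Pool.Agent.KS6_58.Lam

/-!
# The window theorem for the three term relation

`s` and `s + a` are both `n`-th powers up to finitely many constants, `n ≥ 5`.
-/

set_option autoImplicit false

namespace Pool.Agent.KS6_58

open Polynomial Height Height.AdmissibleAbsValues NumberField

section two

variable {K : Type} [Field K] [NumberField K]

/-- the condition on `s` and `s + a` -/
def TwoP (n : ℕ) (a : K) (T : Finset K) (s : K) : Prop :=
  s ≠ 0 ∧ s + a ≠ 0 ∧ (∃ t ∈ T, ∃ b, s = t * b ^ n) ∧ ∃ t ∈ T, ∃ b, s + a = t * b ^ n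

theorem two_odd {n : ℕ} (hn : 5 ≤ n) (hodd : Odd n) {a : K} (ha : a ≠ 0) (T : Finset K) :
    WinP (TwoP n a T) := by
  classical
  obtain ⟨A, hA⟩ : ∃ A : K, A = 4 / a ^ 2 := ⟨_, rfl⟩
  have hA0 : A ≠ 0 := by rw [hA]; exact div_ne_zero (by norm_num) (pow_ne_zero _ ha)
  have hn0 : 0 < n := by omega
  obtain ⟨L, hF, hAlg, hNF, hL⟩ := exists_ext (n := n) hn0 (T ∪ {A, -1} : Finset K)
  obtain ⟨μ, hμ⟩ := exists_root hn0 (hL A (by simp))
  obtain ⟨r, hr, hr'⟩ := exists_unit_roots hn0 (hL (-1) (by simp))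
  have hT : ∀ t ∈ T, ∃ τ : L, τ ^ n = algebraMap K L t := fun t ht =>
    exists_root hn0 (hL t (by simp [ht]))
  obtain ⟨g, hg⟩ := hodd
  refine transfer2 (L := L) (g := g) (κ := 2) (m := n) hr (by rw [Fintype.card_fin]; exact hg)
    (by omega) (fun s => A * (s * (s + a))) hn0 ?_ ?_ (a := 1) (b := 4)
    (C := 2 * logHeight₁ (a / 2) + logHeight₁ (1 : K) + logHeight₁ A + logHeight₁ a +
      logHeight₁ (a ^ 2 / 4) + 4 * (totalWeight K * Real.log 2))
    one_pos (by norm_num) ?_ ?_ ?_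
  · rintro s ⟨-, -, ⟨t1, ht1, b1, hb1⟩, ⟨t2, ht2, b2, hb2⟩⟩
    obtain ⟨τ1, hτ1⟩ := hT t1 ht1
    obtain ⟨τ2, hτ2⟩ := hT t2 ht2
    obtain ⟨X, hX⟩ : ∃ X, X = μ * ((τ1 * algebraMap K L b1) * (τ2 * algebraMap K L b2)) :=
      ⟨_, rfl⟩
    have hXn : X ^ n = algebraMap K L (A * (s * (s + a))) := by
      rw [hX, mul_pow, mul_pow, mul_pow, mul_pow, hμ, hτ1, hτ2, map_mul, map_mul, hb2, map_mul,
        map_pow]
      conv_rhs => rw [hb1]
      rw [map_mul, map_pow]
    refine ⟨X, algebraMap K L ((2 * s + a) / a), hXn, ?_⟩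
    rw [hr', hXn, ← map_pow, ← map_one (algebraMap K L), ← map_add]
    congr 1
    rw [hA]
    field_simp
    ring
  · intro t S hS
    obtain ⟨Q, hQ⟩ : ∃ Q : K[X], Q = C A * (X * (X + C a)) - C t := ⟨_, rfl⟩
    have hev : ∀ x, Q.eval x = A * (x * (x + a)) - t := by
      intro x; rw [hQ]; simp
    apply card_quad (Q := Q)
    · intro h0
      have h1 := hev a
      have h2 := hev (-a)
      rw [h0, eval_zero] at h1 h2
      have h3 : A * (a * (a + a)) = 0 := by linear_combination -h1 + h2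
      have h4 : A * (a * (a + a)) ≠ 0 :=
        mul_ne_zero hA0 (mul_ne_zero ha (by rw [← two_mul]; exact mul_ne_zero two_ne_zero ha))
      exact h4 h3
    · rw [hQ]
      refine (natDegree_sub_le _ _).trans (max_le ?_ (by simp))
      refine (natDegree_C_mul_le _ _).trans ?_
      refine natDegree_mul_le.trans ?_
      rw [natDegree_X, natDegree_X_add_C]
    · intro l hl
      obtain ⟨-, ht⟩ := hS l hl
      rw [hev, ← ht]
      ring
  · have := ht_nn (a / 2)
    have := ht_nn (1 : K)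
    have := ht_nn A
    have := ht_nn a
    have := ht_nn (a ^ 2 / 4)
    positivity
  · rintro s -
    -- `(s + a/2)^2 = A⁻¹ ρ + a^2/4`
    have h1 : logHeight₁ s ≤ logHeight₁ (s + a / 2) + logHeight₁ (a / 2) +
        totalWeight K * Real.log 2 := by
      have := logHeight₁_sub_le (s + a / 2) (a / 2)
      rw [add_sub_cancel_right] at this
      linarith
    have h2 : 2 * logHeight₁ (s + a / 2) ≤ logHeight₁ (s * (s + a)) + logHeight₁ (a ^ 2 / 4) +
        totalWeight K * Real.log 2 := by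
      have e1 : (s + a / 2) ^ 2 = s * (s + a) + a ^ 2 / 4 := by ring
      have h5 := logHeight₁_pow (s + a / 2) 2
      rw [e1] at h5
      have h6 := logHeight₁_add_le (s * (s + a)) (a ^ 2 / 4)
      push_cast at h5
      linarith
    have h3 := (ht_mul_const hA0 (s * (s + a))).2
    have := ht_nn (a / 2)
    have := ht_nn (1 : K)
    have := ht_nn A
    have := ht_nn a
    have := ht_nn (a ^ 2 / 4)
    have := ht_nn (s + a / 2)
    have : 0 ≤ (totalWeight K : ℝ) * Real.log 2 := by positivity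
    linarith
  · rintro s -
    have h1 := (ht_mul_const hA0 (s * (s + a))).1
    have h2 := logHeight₁_mul_le s (s + a)
    have h3 := logHeight₁_add_le s a
    have := ht_nn (a / 2)
    have := ht_nn (1 : K)
    have := ht_nn A
    have := ht_nn a
    have := ht_nn (a ^ 2 / 4)
    have := ht_nn s
    have : 0 ≤ (totalWeight K : ℝ) * Real.log 2 := by positivity
    linarith

theorem two_even {m : ℕ} (hm : 3 ≤ m) {a : K} (ha : a ≠ 0) (T : Finset K) :
    WinP (TwoP (2 * m) a T) := by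
  classical
  obtain ⟨n, hnm⟩ : ∃ n, n = 2 * m := ⟨_, rfl⟩
  rw [← hnm]
  have hn0 : 0 < n := by omega
  have hai : a⁻¹ ≠ 0 := inv_ne_zero ha
  obtain ⟨L, hF, hAlg, hNF, hL⟩ := exists_ext (n := n) hn0 (T ∪ {a⁻¹, -1} : Finset K)
  obtain ⟨α, hα⟩ := exists_root hn0 (hL a⁻¹ (by simp))
  obtain ⟨r, hr, hr'⟩ := exists_unit_roots hn0 (hL (-1) (by simp))
  have hT : ∀ t ∈ T, ∃ τ : L, τ ^ n = algebraMap K L t := fun t ht =>
    exists_root hn0 (hL t (by simp [ht]))
  obtain ⟨i0, hi0⟩ : ∃ i0 : Fin n, i0 = ⟨0, hn0⟩ := ⟨_, rfl⟩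
  obtain ⟨r0, hr0⟩ : ∃ r0, r0 = r i0 := ⟨_, rfl⟩
  have hne : ∀ i, i ≠ i0 → r0 - r i ≠ 0 := by
    intro i hi
    rw [hr0, sub_ne_zero]
    exact fun h => hi (hr h).symm
  obtain ⟨E, hE⟩ : ∃ E, E = ∏ i ∈ Finset.univ.erase i0, (r0 - r i) := ⟨_, rfl⟩
  have hE0 : E ≠ 0 := by
    rw [hE, Finset.prod_ne_zero_iff]
    exact fun i hi => hne i (Finset.ne_of_mem_erase hi)
  obtain ⟨L2, hF2, hAlg2, hNF2, hL2⟩ := exists_ext (K := L) (n := 2) two_pos ({E} : Finset L)
  obtain ⟨ε, hε⟩ := exists_root two_pos (hL2 E (by simp))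
  have hε0 : ε ≠ 0 := by
    rintro rfl
    rw [zero_pow two_ne_zero, eq_comm, map_eq_zero] at hε
    exact hE0 hε
  have hUW : ∀ s, ∃ U : L, TwoP n a T s → U ^ n = algebraMap K L (a⁻¹ * s) ∧
      (∃ W : L, W ^ n = U ^ n + 1) ∧ U - r0 ≠ 0 := by
    intro s
    by_cases h : TwoP n a T s
    · obtain ⟨h1, h2, ⟨t1, ht1, b1, hb1⟩, ⟨t2, ht2, b2, hb2⟩⟩ := h
      obtain ⟨τ1, hτ1⟩ := hT t1 ht1
      obtain ⟨τ2, hτ2⟩ := hT t2 ht2
      have hU : (α * (τ1 * algebraMap K L b1)) ^ n = algebraMap K L (a⁻¹ * s) := by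
        rw [mul_pow, mul_pow, hα, hτ1, hb1, map_mul, map_mul, map_pow]
      have hW : (α * (τ2 * algebraMap K L b2)) ^ n =
          (α * (τ1 * algebraMap K L b1)) ^ n + 1 := by
        rw [hU, mul_pow, mul_pow, hα, hτ2, ← map_pow, ← map_mul, ← map_mul, ← hb2,
          ← map_one (algebraMap K L), ← map_add]
        congr 1
        field_simp
      refine ⟨α * (τ1 * algebraMap K L b1), fun _ => ⟨hU, ⟨_, hW⟩, fun h0 => ?_⟩⟩
      have h3 := hr' (α * (τ1 * algebraMap K L b1))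
      rw [Finset.prod_eq_zero (Finset.mem_univ i0) (by rw [← hr0]; exact h0), hU,
        ← map_one (algebraMap K L), ← map_add, eq_comm, map_eq_zero] at h3
      apply h2
      have : a * (a⁻¹ * s + 1) = 0 := by rw [h3, mul_zero]
      rw [mul_add, mul_inv_cancel_left₀ ha, mul_one] at this
      exact this
    · exact ⟨0, fun h' => absurd h' h⟩
  choose U hU using hUW
  obtain ⟨D1, hD1⟩ : ∃ D : ℝ, D = Module.finrank K L := ⟨_, rfl⟩
  obtain ⟨D2, hD2⟩ : ∃ D : ℝ, D = Module.finrank L L2 := ⟨_, rfl⟩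
  have hfin1 : Module.Finite K L := Module.Finite.of_restrictScalars_finite ℚ K L
  have hfin2 : Module.Finite L L2 := Module.Finite.of_restrictScalars_finite ℚ L L2
  have hD10 : 0 < D1 := by rw [hD1]; exact_mod_cast Module.finrank_pos
  have hD20 : 0 < D2 := by rw [hD2]; exact_mod_cast Module.finrank_pos
  have hnR : (0 : ℝ) < n := by exact_mod_cast hn0
  obtain ⟨Cr, hCr⟩ : ∃ Cr, Cr = logHeight₁ r0 + totalWeight L * Real.log 2 := ⟨_, rfl⟩
  have hCr0 : 0 ≤ Cr := by
    rw [hCr]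
    have := ht_nn r0
    positivity
  obtain ⟨Ca, hCa⟩ : ∃ Ca, Ca = logHeight₁ a⁻¹ := ⟨_, rfl⟩
  have hCa0 : 0 ≤ Ca := by rw [hCa]; exact ht_nn _
  have hh1 : ∀ s, TwoP n a T s → n * logHeight₁ (U s) = D1 * logHeight₁ (a⁻¹ * s) := by
    intro s hs
    rw [← logHeight₁_pow, (hU s hs).1, ht_rel, hD1]
  have hh2 : ∀ s, logHeight₁ (algebraMap L L2 ((U s - r0)⁻¹)) = D2 * logHeight₁ (U s - r0) := by
    intro s
    rw [ht_rel, hD2, logHeight₁_inv]
  have hh3 : ∀ s, logHeight₁ (U s) ≤ logHeight₁ (U s - r0) + Cr := by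
    intro s
    have := logHeight₁_add_le (U s - r0) r0
    rw [sub_add_cancel] at this
    linarith
  have hh4 : ∀ s, logHeight₁ (U s - r0) ≤ logHeight₁ (U s) + Cr := by
    intro s
    have := logHeight₁_sub_le (U s) r0
    linarith
  refine transfer (L := L2) (ι := {i : Fin n // i ≠ i0}) (g := m - 1) (κ := 1)
    (r := fun i => algebraMap L L2 ((r i.1 - r0)⁻¹)) ?_ ?_ (by omega)
    (fun s => algebraMap L L2 ((U s - r0)⁻¹)) ?_ ?_ (α := D2 * D1 / n) (β := D2 * D1 / n)
    (C := D2 * (D1 * Ca / n + Cr)) (by positivity) (by positivity) (by positivity) ?_ ?_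
  · intro i j h
    have h1 := (algebraMap L L2).injective h
    have h2 := inv_injective h1
    have h3 : r i.1 = r j.1 := by linear_combination h2
    exact Subtype.ext (hr h3)
  · rw [Fintype.card_subtype_compl, Fintype.card_fin, Fintype.card_subtype_eq]
    omega
  · intro s hs
    obtain ⟨h1, ⟨W, hW⟩, h3⟩ := hU s hs
    refine ⟨algebraMap L L2 (W ^ m * (U s - r0)⁻¹ ^ m) / ε, ?_⟩
    rw [div_pow, hε, ← map_pow, ← map_div₀]
    have e1 : ∏ i : {i : Fin n // i ≠ i0}, (algebraMap L L2 ((U s - r0)⁻¹) -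
        algebraMap L L2 ((r i.1 - r0)⁻¹)) = algebraMap L L2 (∏ i ∈ Finset.univ.erase i0,
          ((U s - r0)⁻¹ - (r i - r0)⁻¹)) := by
      rw [map_prod, Finset.prod_subtype (p := fun i => i ≠ i0) (Finset.univ.erase i0)
        (by intro x; simp)]
      exact Finset.prod_congr rfl fun i _ => (map_sub _ _ _).symm
    rw [e1]
    congr 1
    have e2 : ∀ i ∈ Finset.univ.erase i0, (U s - r0)⁻¹ - (r i - r0)⁻¹ =
        ((U s - r i) * (U s - r0)⁻¹) / (r0 - r i) := by
      intro i hi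
      have h4 := hne i (Finset.ne_of_mem_erase hi)
      have h5 : r i - r0 ≠ 0 := by rw [← neg_sub]; exact neg_ne_zero.2 h4
      field_simp
      ring
    rw [Finset.prod_congr rfl e2, Finset.prod_div_distrib, ← hE]
    congr 1
    rw [Finset.prod_mul_distrib, Finset.prod_const, Finset.card_erase_of_mem (Finset.mem_univ _),
      Finset.card_univ, Fintype.card_fin]
    have h6 := hr' (U s)
    rw [← Finset.mul_prod_erase _ _ (Finset.mem_univ i0), ← hr0, ← hW] at h6
    have h7 : ∏ i ∈ Finset.univ.erase i0, (U s - r i) = W ^ n * (U s - r0)⁻¹ := by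
      rw [← h6]
      field_simp
    rw [h7, mul_pow, ← pow_mul, ← pow_mul, mul_comm m 2, ← hnm]
    have h8 : (U s - r0)⁻¹ ^ n = (U s - r0)⁻¹ * (U s - r0)⁻¹ ^ (n - 1) := by
      rw [← pow_succ', Nat.sub_add_cancel hn0]
    rw [h8, mul_assoc]
  · intro t S hS
    rw [Finset.card_le_one]
    intro x hx y hy
    obtain ⟨hPx, htx⟩ := hS x hx
    obtain ⟨hPy, hty⟩ := hS y hy
    rw [← hty] at htx
    have h1 := inv_injective ((algebraMap L L2).injective htx)
    have h2 : U x = U y := by linear_combination h1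
    have h3 := (hU x hPx).1
    rw [h2, (hU y hPy).1] at h3
    exact (mul_left_cancel₀ hai ((algebraMap K L).injective h3)).symm
  · intro s hs
    have h1 := hh1 s hs
    rw [hh2 s]
    have h2 := hh3 s
    have h3 := (ht_mul_const hai s).2
    rw [← hCa] at h3
    have e : D2 * D1 / n * logHeight₁ s - D2 * (D1 * Ca / n + Cr) =
        D2 * (D1 * (logHeight₁ s - Ca) / n - Cr) := by ring
    rw [e]
    apply mul_le_mul_of_nonneg_left _ hD20.le
    have h4 : D1 * (logHeight₁ s - Ca) / n ≤ logHeight₁ (U s) := by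
      rw [div_le_iff₀ hnR, mul_comm _ (n : ℝ), h1]
      apply mul_le_mul_of_nonneg_left _ hD10.le
      linarith
    linarith
  · intro s hs
    have h1 := hh1 s hs
    rw [hh2 s]
    have h2 := hh4 s
    have h3 := (ht_mul_const hai s).1
    rw [← hCa] at h3
    have e : D2 * D1 / n * logHeight₁ s + D2 * (D1 * Ca / n + Cr) =
        D2 * (D1 * (logHeight₁ s + Ca) / n + Cr) := by ring
    rw [e]
    apply mul_le_mul_of_nonneg_left _ hD20.le
    have h4 : logHeight₁ (U s) ≤ D1 * (logHeight₁ s + Ca) / n := by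
      rw [le_div_iff₀ hnR, mul_comm _ (n : ℝ), h1]
      apply mul_le_mul_of_nonneg_left _ hD10.le
      linarith
    linarith

/-- **the window theorem for the three term relation** -/
theorem win_two {n : ℕ} (hn : 5 ≤ n) {a : K} (ha : a ≠ 0) (T : Finset K) :
    WinP (TwoP n a T) := by
  rcases Nat.even_or_odd n with h | h
  · obtain ⟨m, rfl⟩ := h
    rw [← two_mul]
    exact two_even (by omega) ha T
  · exact two_odd hn h ha T

end two

end Pool.Agent.KS6_58
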