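import Pool.Agent.KS6_58.PC
import Pool.Agent.KS6_58.W2
import Pool.Agent.KS6_58.Sel2

/-!
# Heights of preperiodic points of `P(x) + c` and of their ratios of differences
-/

set_option autoImplicit false

namespace Pool.Agent.KS6_58

open Function Polynomial Height Height.AdmissibleAbsValues Pool.Agent.H437R2.Man NumberField

section integral

variable {K : Type} [Field K] {v : AbsoluteValue K ℝ}

lemma na_natCast (hna : IsNonarchimedean v) (m : ℕ) : v (m : K) ≤ 1 := by
  induction m with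
  | zero => simp
  | succ m ih =>
    push_cast
    refine (hna _ _).trans (max_le ih ?_)
    rw [map_one]

lemma na_intCast (hna : IsNonarchimedean v) (m : ℤ) : v (m : K) ≤ 1 := by
  rcases Int.eq_nat_or_neg m with ⟨k, h | h⟩
  · rw [h]; exact_mod_cast na_natCast hna k
  · rw [h]
    push_cast
    rw [v.map_neg]
    exact na_natCast hna k

lemma na_integral (hna : IsNonarchimedean v) {x : K} (hx : IsIntegral ℤ x) : v x ≤ 1 := by
  by_contra hlt
  push Not at hlt
  obtain ⟨p, hp, hpx⟩ := hx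
  obtain ⟨P, hP⟩ : ∃ P : K[X], P = p.map (algebraMap ℤ K) := ⟨_, rfl⟩
  have hPm : P.Monic := by rw [hP]; exact hp.map _
  have hPx : P.eval x = 0 := by rw [hP, eval_map]; exact hpx
  rcases Nat.eq_zero_or_pos P.natDegree with h0 | h0
  · rw [hPm.natDegree_eq_zero.1 h0, eval_one] at hPx
    exact one_ne_zero hPx
  · obtain ⟨m, hm⟩ : ∃ m, P.natDegree = m + 1 := ⟨P.natDegree - 1, by omega⟩
    obtain ⟨Q, hQd, hQi, hQ⟩ := erase_data hPm hm (v := v) (fun i => by
      rw [hP, coeff_map]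
      exact na_intCast hna _)
    have h1 : v (P.eval x) = v x ^ (m + 1) := by
      rw [hQ, na_add_eq hna, map_pow]
      rw [map_pow]
      exact (na_eval_le hna hQi hQd hlt.le le_rfl).trans_lt
        (pow_lt_pow_right₀ hlt (Nat.lt_succ_self m))
    rw [hPx, map_zero] at h1
    have : 0 < v x ^ (m + 1) := by positivity
    linarith

end integral

section glob

variable {K : Type} [Field K] [NumberField K] {n : ℕ} {P : K[X]}

/-- elements of the ring of integers with `N` inverted -/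
def SInt (N : ℕ) (x : K) : Prop := ∃ k : ℕ, IsIntegral ℤ ((N : K) ^ k * x)

omit [NumberField K] in
/-- the good places -/
lemma to_LD {N : ℕ} (hP : P.Monic) (hd : P.natDegree = n + 1) (hn : 1 ≤ n)
    (hN : ∀ i, SInt N (P.coeff i)) {v : AbsoluteValue K ℝ} (hna : IsNonarchimedean v)
    (hv : v ((N : K) * ((n : K) + 1)) = 1) : LD v n P := by
  have h1 : v (N : K) ≤ 1 := na_natCast hna N
  have h2 : v ((n : K) + 1) ≤ 1 := by
    have := na_natCast hna (n + 1)
    push_cast at this
    exact this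
  rw [map_mul] at hv
  have h3 := v.nonneg (N : K)
  have h4 := v.nonneg ((n : K) + 1)
  have h5 : v (N : K) = 1 := by nlinarith
  have h6 : v ((n : K) + 1) = 1 := by rw [h5, one_mul] at hv; exact hv
  refine ⟨hna, hP, hd, fun i => ?_, h6, hn⟩
  obtain ⟨k, hk⟩ := hN i
  have h7 := na_integral hna hk
  rwa [map_mul, map_pow, h5, one_pow, one_mul] at h7

/-- any polynomial has such a denominator -/
lemma exists_N (P : K[X]) : ∃ N : ℕ, N ≠ 0 ∧ ∀ i, SInt N (P.coeff i) := by
  obtain ⟨b, hb0, hb⟩ := clear_den P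
  -- the norm of `b` is a multiple of `b`
  obtain ⟨N, hN0, c, hc, hbc⟩ : ∃ N : ℕ, N ≠ 0 ∧ ∃ c : K, IsIntegral ℤ c ∧ (N : K) = c * b := by
    have hbi : IsIntegral ℤ (b : K) := RingOfIntegers.isIntegral_coe b
    have hbK : (b : K) ≠ 0 := by exact_mod_cast hb0
    refine ⟨Ideal.absNorm (Ideal.span {b}), ?_, ?_⟩
    · rw [Ne, Ideal.absNorm_eq_zero_iff, Ideal.span_singleton_eq_bot]
      exact hb0
    · obtain ⟨c, hc⟩ := Ideal.mem_span_singleton.1 (Ideal.absNorm_mem (Ideal.span {b}))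
      refine ⟨(c : K), RingOfIntegers.isIntegral_coe c, ?_⟩
      have h3 := congrArg (algebraMap (𝓞 K) K) hc
      rw [map_mul] at h3
      rw [mul_comm, ← h3]
      simp
  refine ⟨N, hN0, fun i => ⟨1, ?_⟩⟩
  rw [pow_one, hbc, mul_assoc]
  exact hc.mul (hb i)

lemma arch_not_na {v : AbsoluteValue K ℝ} (hv : v ∈ (archAbsVal : Multiset (AbsoluteValue K ℝ))) :
    ¬ IsNonarchimedean v := by
  intro hna
  obtain ⟨φ, hφ⟩ := arch_emb hv
  have h1 := na_natCast hna 2
  rw [hφ, map_natCast, Complex.norm_natCast] at h1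
  norm_num at h1

/-- a common bound at the exceptional places -/
lemma exists_sup {D : K} (hD : D ≠ 0) (Cf : AbsoluteValue K ℝ → ℝ) : ∃ A : ℝ, 0 ≤ A ∧
    (∀ v ∈ (archAbsVal : Multiset (AbsoluteValue K ℝ)), Cf v ≤ A) ∧
    ∀ v ∈ (nonarchAbsVal : Set (AbsoluteValue K ℝ)), v D ≠ 1 → Cf v ≤ A := by
  classical
  have hfin : {v : (nonarchAbsVal : Set (AbsoluteValue K ℝ)) | v.val D ≠ 1}.Finite := by
    refine Set.Finite.subset (FS_log hD) ?_
    intro v hv
    simp only [Function.mem_support, ne_eq, Set.mem_ofPred_eq] at hv ⊢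
    intro h
    apply hv
    have := v.val.pos hD
    rw [Real.log_eq_zero] at h
    rcases h with h | h | h <;> linarith
  obtain ⟨S, hS⟩ : ∃ S : Finset (AbsoluteValue K ℝ), S =
      (archAbsVal : Multiset (AbsoluteValue K ℝ)).toFinset ∪ hfin.toFinset.image (fun v => v.val) :=
    ⟨_, rfl⟩
  refine ⟨∑ v ∈ S, |Cf v|, Finset.sum_nonneg fun v _ => abs_nonneg _, fun v hv => ?_,
    fun v hv hvD => ?_⟩
  · refine (le_abs_self _).trans (Finset.single_le_sum (f := fun v => |Cf v|)
      (fun v _ => abs_nonneg _) ?_)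
    rw [hS, Finset.mem_union]
    exact Or.inl (by simpa using hv)
  · refine (le_abs_self _).trans (Finset.single_le_sum (f := fun v => |Cf v|)
      (fun v _ => abs_nonneg _) ?_)
    rw [hS, Finset.mem_union]
    right
    rw [Finset.mem_image]
    exact ⟨⟨v, hv⟩, by simpa using hvD, rfl⟩

/-- comparison of global sums with exceptional places -/
lemma gs_leS {D : K} (hD : D ≠ 0) (Cf : AbsoluteValue K ℝ → ℝ) :
    ∃ A : ℝ, 0 ≤ A ∧ ∀ f g w : AbsoluteValue K ℝ → ℝ, FS f → FS g → FS w → (∀ v, 0 ≤ w v) →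
      (∀ v, f v ≤ g v + Cf v * (1 + w v)) →
      (∀ v : AbsoluteValue K ℝ, IsNonarchimedean v → v D = 1 → f v ≤ g v) →
      gs f ≤ gs g + A * (1 + gs w) := by
  classical
  obtain ⟨A, hA0, hA1, hA2⟩ := exists_sup hD Cf
  obtain ⟨e, he⟩ : ∃ e : AbsoluteValue K ℝ → ℝ,
      e = fun v : AbsoluteValue K ℝ => if v D = 1 ∧ IsNonarchimedean v then (0 : ℝ) else 1 :=
    ⟨_, rfl⟩
  have hFS : FS e := by
    refine Set.Finite.subset (FS_log hD) ?_
    intro v hv
    simp only [Function.mem_support, ne_eq] at hv ⊢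
    intro h
    apply hv
    have h1 : v.val D = 1 := by
      have := v.val.pos hD
      rw [Real.log_eq_zero] at h
      rcases h with h | h | h <;> linarith
    rw [he]
    simp only
    rw [if_pos ⟨h1, isNonarchimedean v.val v.2⟩]
  have hFAe : FS (fun v => A * e v) := hFS.const_mul A
  refine ⟨A * |gs e| + A, by positivity, fun f g w hf hg hw hw0 h1 h2 => ?_⟩
  have hFAw : FS (fun v => A * w v) := hw.const_mul A
  have hFS2 : FS (fun v => A * e v + A * w v) := hFAe.add hFAw
  have hgw : 0 ≤ gs w := by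
    have := gs_le (K := K) (f := fun v => (0 : ℝ) * w v) (g := w) (hw.const_mul 0) hw 0
      (fun v _ => by rw [zero_mul, add_zero]; exact hw0 v)
      (fun v _ => by rw [zero_mul]; exact hw0 v)
    rw [gs_const_mul _ hw, zero_mul, mul_zero, add_zero] at this
    exact this
  have h3 := gs_le (K := K) (f := f) (g := fun v => g v + (A * e v + A * w v)) hf (hg.add hFS2) 0
    (fun v hv => by
      rw [he]
      simp only
      rw [if_neg (fun h => arch_not_na hv h.2), add_zero]
      have h4 := h1 v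
      have h5 := mul_le_mul_of_nonneg_right (hA1 v hv) (by linarith [hw0 v] : 0 ≤ 1 + w v)
      linarith)
    (fun v hv => by
      have hna := isNonarchimedean v hv
      rw [he]
      simp only
      by_cases hvD : v D = 1
      · rw [if_pos ⟨hvD, hna⟩]
        have h4 := h2 v hna hvD
        have h5 := mul_nonneg hA0 (hw0 v)
        linarith
      · rw [if_neg (fun h => hvD h.1)]
        have h4 := h1 v
        have h5 := mul_le_mul_of_nonneg_right (hA2 v hv hvD) (by linarith [hw0 v] : 0 ≤ 1 + w v)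
        linarith)
  rw [gs_add hg hFS2, gs_add hFAe hFAw, gs_const_mul _ hFS, gs_const_mul _ hw, mul_zero,
    add_zero] at h3
  have h4 : A * gs e ≤ A * |gs e| := by
    have := le_abs_self (gs e)
    gcongr
  have h5 : 0 ≤ A * |gs e| * gs w := by positivity
  nlinarith

/-- the height of the coefficients -/
noncomputable def hC58 (n : ℕ) (P : K[X]) : ℝ := ∑ i ∈ Finset.range (n + 1), logHeight₁ (P.coeff i)

/-- the local height of the coefficients -/
noncomputable def wl (n : ℕ) (P : K[X]) (v : AbsoluteValue K ℝ) : ℝ :=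
  ∑ i ∈ Finset.range (n + 1), lx (P.coeff i) v

lemma FS_sum {ι : Type} (s : Finset ι) (ρ : ι → K) : FS (fun v => ∑ a ∈ s, lx (ρ a) v) ∧
    gs (fun v => ∑ a ∈ s, lx (ρ a) v) = ∑ a ∈ s, logHeight₁ (ρ a) := by
  classical
  induction s using Finset.induction_on with
  | empty =>
    simp only [Finset.sum_empty]
    have h1 : FS (fun v : AbsoluteValue K ℝ => (0 : ℝ) * lx (1 : K) v) := (FS_lx 1).const_mul _
    have h2 := gs_const_mul (0 : ℝ) (FS_lx (1 : K))
    simp only [zero_mul] at h1 h2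
    exact ⟨h1, h2⟩
  | insert a s ha ih =>
    simp only [Finset.sum_insert ha]
    refine ⟨(FS_lx _).add ih.1, ?_⟩
    have h1 := gs_add (FS_lx (ρ a)) ih.1
    rw [ih.2, gs_lx] at h1
    exact h1

lemma wl_nonneg (n : ℕ) (P : K[X]) (v : AbsoluteValue K ℝ) : 0 ≤ wl n P v :=
  Finset.sum_nonneg fun _ _ => lx_nonneg _ _

lemma hC58_nonneg (n : ℕ) (P : K[X]) : 0 ≤ hC58 n P := Finset.sum_nonneg fun _ _ => ht_nn _

omit [NumberField K] in
lemma exists_W (hP : P.Monic) (hd : P.natDegree = n + 1) (v : AbsoluteValue K ℝ) :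
    ∃ W : ℝ, 1 ≤ W ∧ Real.log W = wl n P v ∧ ∀ k, v (P.coeff k) ≤ W := by
  classical
  have hW1 : 1 ≤ ∏ i ∈ Finset.range (n + 1), max (v (P.coeff i)) 1 := by
    calc (1 : ℝ) = ∏ _i ∈ Finset.range (n + 1), (1 : ℝ) := by simp
      _ ≤ _ := Finset.prod_le_prod (fun _ _ => zero_le_one) fun a _ => le_max_right _ _
  refine ⟨∏ i ∈ Finset.range (n + 1), max (v (P.coeff i)) 1, hW1, ?_, fun k => ?_⟩
  · rw [Real.log_prod (fun a _ => by positivity)]
    rfl
  · rcases lt_trichotomy k (n + 1) with h | h | h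
    · rw [← Finset.mul_prod_erase _ _ (Finset.mem_range.2 h)]
      refine (le_max_left (v (P.coeff k)) 1).trans ?_
      apply le_mul_of_one_le_right (by positivity)
      calc (1 : ℝ) = ∏ _i ∈ (Finset.range (n + 1)).erase k, (1 : ℝ) := by simp
        _ ≤ _ := Finset.prod_le_prod (fun _ _ => zero_le_one) fun a _ => le_max_right _ _
    · rw [h, ← hd, coeff_natDegree, hP.leadingCoeff, map_one, hd]
      exact hW1
    · rw [coeff_eq_zero_of_natDegree_lt (by omega), map_zero]
      linarith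

/-- **heights of preperiodic points** -/
theorem glob_up (K : Type) [Field K] [NumberField K] (n : ℕ) (hn : 1 ≤ n) {N : ℕ} (hN0 : N ≠ 0) :
    ∃ A : ℝ, 0 ≤ A ∧ ∀ P : K[X], P.Monic → P.natDegree = n + 1 → (∀ i, SInt N (P.coeff i)) →
    ∀ c x : K, PreP (fP P c) x → logHeight₁ x ≤ logHeight₁ c + A * (1 + hC58 n P) := by
  have hD : (N : K) * ((n : K) + 1) ≠ 0 := by
    apply mul_ne_zero
    · exact_mod_cast hN0
    · exact_mod_cast Nat.succ_ne_zero n
  obtain ⟨q, hq⟩ : ∃ q : ℝ, q = 2 * ((n + 1 : ℕ) : ℝ) + 8 := ⟨_, rfl⟩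
  have hq8 : 8 ≤ q := by
    have : (0 : ℝ) ≤ 2 * ((n + 1 : ℕ) : ℝ) := by positivity
    rw [hq]; linarith
  have hlq : 0 ≤ Real.log q := Real.log_nonneg (by linarith)
  obtain ⟨A, hA0, hA⟩ := gs_leS hD (fun _ => Real.log q + 1)
  refine ⟨A, hA0, fun P hP hd hN c x hx => ?_⟩
  have h1 := hA (lx x) (lx c) (wl n P) (FS_lx x) (FS_lx c) (FS_sum _ _).1 (wl_nonneg n P)
    (fun v => ?_) (fun v hna hv => ?_)
  · have h2 : gs (wl n P) = hC58 n P := (FS_sum _ _).2
    rw [gs_lx, gs_lx, h2] at h1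
    exact h1
  · obtain ⟨W, hW1, hWl, hW⟩ := exists_W hP hd v
    have h2 := pre_le v hP hd hn hW c x (max (v c) 1) (le_max_right _ _) (by
      calc v c ≤ max (v c) 1 := le_max_left _ _
        _ = max (v c) 1 ^ 1 := (pow_one _).symm
        _ ≤ max (v c) 1 ^ (n + 1) := pow_le_pow_right₀ (le_max_right _ _) (by omega)) hx
    have hqW : 2 * (((n + 1 : ℕ) : ℝ) * W) + 8 ≤ q * W := by rw [hq]; linarith
    have hW0 : 0 < W := by linarith
    have hqW1 : 1 ≤ q * W := by nlinarith
    have h3 : max (v x) 1 ≤ (q * W) * max (v c) 1 := by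
      have hm := le_max_right (v c) 1
      apply max_le
      · refine h2.trans ?_
        gcongr
      · exact one_le_mul_of_one_le_of_one_le hqW1 hm
    have h4 := Real.log_le_log (by positivity) h3
    rw [Real.log_mul (by positivity) (by positivity), Real.log_mul (by positivity) (by positivity),
      hWl] at h4
    have h5 := wl_nonneg n P v
    have h6 : 0 ≤ Real.log q * wl n P v := by positivity
    show Real.log (max (v x) 1) ≤ Real.log (max (v c) 1) + (Real.log q + 1) * (1 + wl n P v)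
    nlinarith
  · have h := to_LD hP hd hn hN hna hv
    unfold lx
    apply Real.log_le_log (by positivity)
    rcases le_or_gt (v c) 1 with hc | hc
    · rw [max_eq_right (h.gd_pre hc hx)]
      exact le_max_right _ _
    · have h2 := h.bd_pre hc hx
      have h3 := h.bd_gt hc hx
      rw [max_eq_left h3.le, max_eq_left hc.le, ← h2]
      conv_lhs => rw [← pow_one (v x)]
      exact pow_le_pow_right₀ h3.le (by omega)

/-- **some ratio of differences of `n + 2` preperiodic points has large height** -/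
theorem glob_spread (K : Type) [Field K] [NumberField K] (n : ℕ) (hn : 1 ≤ n) {N : ℕ}
    (hN0 : N ≠ 0) : ∃ A : ℝ, 0 ≤ A ∧ ∀ P : K[X], P.Monic → P.natDegree = n + 1 →
    (∀ i, SInt N (P.coeff i)) →
    ∀ (c : K) (x : Fin (n + 2) → K), Function.Injective x → (∀ i, PreP (fP P c) (x i)) →
      (n : ℝ) * logHeight₁ c ≤ 2 * ((n : ℝ) + 1) ^ 2 *
        ∑ a : (Fin (n + 2) × Fin (n + 2)) × (Fin (n + 2) × Fin (n + 2)),
          logHeight₁ ((x a.1.1 - x a.1.2) / (x a.2.1 - x a.2.2)) + A * (1 + hC58 n P) := by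
  classical
  have hD : (N : K) * ((n : K) + 1) ≠ 0 := by
    apply mul_ne_zero
    · exact_mod_cast hN0
    · exact_mod_cast Nat.succ_ne_zero n
  choose C0 hC0 hC0' using fun v : AbsoluteValue K ℝ => any_spread v hn
  obtain ⟨A, hA0, hA⟩ := gs_leS hD C0
  refine ⟨A, hA0, fun P hP hd hN c x hx hpre => ?_⟩
  obtain ⟨ρ, hρ⟩ : ∃ ρ : (Fin (n + 2) × Fin (n + 2)) × (Fin (n + 2) × Fin (n + 2)) → K,
      ρ = fun a => (x a.1.1 - x a.1.2) / (x a.2.1 - x a.2.2) := ⟨_, rfl⟩
  obtain ⟨Q, hQ⟩ : ∃ Q : AbsoluteValue K ℝ → ℝ, Q = fun v => ∏ a, max (v (ρ a)) 1 := ⟨_, rfl⟩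
  have hQ1 : ∀ v, 1 ≤ Q v := by
    intro v
    rw [hQ]
    calc (1 : ℝ) = ∏ _a : (Fin (n + 2) × Fin (n + 2)) × (Fin (n + 2) × Fin (n + 2)), 1 := by simp
      _ ≤ _ := Finset.prod_le_prod (fun _ _ => zero_le_one) fun a _ => le_max_right _ _
  have hcond : ∀ v i j k l, k ≠ l → v (x i - x j) ≤ Q v * v (x k - x l) := by
    intro v i j k l hkl
    have hpos : 0 < v (x k - x l) := v.pos (sub_ne_zero.2 fun h' => hkl (hx h'))
    rw [← div_le_iff₀ hpos, ← map_div₀]
    calc v ((x i - x j) / (x k - x l)) ≤ max (v (ρ ((i, j), (k, l)))) 1 := by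
          rw [hρ]; exact le_max_left _ _
      _ ≤ Q v := by
          rw [hQ]
          simp only
          rw [← Finset.mul_prod_erase _ _ (Finset.mem_univ ((i, j), (k, l)))]
          apply le_mul_of_one_le_right (by positivity)
          calc (1 : ℝ) = ∏ _a ∈ Finset.univ.erase ((i, j), (k, l)), (1 : ℝ) := by simp
            _ ≤ _ := Finset.prod_le_prod (fun _ _ => zero_le_one) fun a _ => le_max_right _ _
  have hlQ : ∀ v, Real.log (Q v) = ∑ a, lx (ρ a) v := by
    intro v
    rw [hQ, Real.log_prod (fun a _ => by positivity)]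
    rfl
  obtain ⟨hF, hG⟩ := FS_sum Finset.univ ρ
  have h1 := hA (fun v => (n : ℝ) * lx c v)
    (fun v => 2 * ((n : ℝ) + 1) ^ 2 * ∑ a, lx (ρ a) v) (wl n P)
    ((FS_lx c).const_mul _) (hF.const_mul _) (FS_sum _ _).1 (wl_nonneg n P) (fun v => ?_)
    (fun v hna hv => ?_)
  · have h2 : gs (wl n P) = hC58 n P := (FS_sum _ _).2
    rw [gs_const_mul _ (FS_lx c), gs_const_mul _ hF, hG, gs_lx, h2] at h1
    rw [hρ] at h1
    exact h1
  · obtain ⟨W, hW1, hWl, hW⟩ := exists_W hP hd v
    have := hC0' v P hP hd W hW1 hW c x hx hpre (Q v) (hQ1 v) (hcond v)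
    rw [hlQ, hWl] at this
    exact this
  · have h := to_LD hP hd hn hN hna hv
    rw [← hlQ]
    have hlQ0 : 0 ≤ Real.log (Q v) := Real.log_nonneg (hQ1 v)
    rcases le_or_gt (v c) 1 with hc | hc
    · have : lx c v = 0 := by unfold lx; rw [max_eq_right hc, Real.log_one]
      rw [this, mul_zero]
      positivity
    · have h2 := h.spread hc hx hpre (hcond v)
      have h3 : v c ^ n ≤ Q v ^ (n + 1) := by
        rw [← h.bd_pre hc (hpre 0), ← pow_mul, mul_comm, pow_mul]
        exact pow_le_pow_left₀ (pow_nonneg (v.nonneg _) _) h2 _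
      have h4 := Real.log_le_log (by positivity) h3
      rw [Real.log_pow, Real.log_pow] at h4
      push_cast at h4
      unfold lx
      rw [max_eq_left hc.le]
      refine h4.trans ?_
      have hn0 : (0 : ℝ) ≤ n := Nat.cast_nonneg n
      have : (n : ℝ) + 1 ≤ 2 * ((n : ℝ) + 1) ^ 2 := by nlinarith
      gcongr

end glob

end Pool.Agent.KS6_58
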