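import Pool.Agent.KS6_58.PD
import Pool.Graph.R_seed8.H437R2.Man.V1

/-!
# Among `d + 1` preperiodic points of `P(x) + c` some ratio of differences is large
-/

set_option autoImplicit false

namespace Pool.Agent.KS6_58

open Function Polynomial

section lagr

variable {K : Type} [Field K] {n : ℕ} {P : K[X]} {c : K}

/-- Lagrange interpolation for the leading coefficient -/
lemma lagr (hP : P.Monic) (hd : P.natDegree = n + 1) {x : Fin (n + 2) → K}
    (hx : Function.Injective x) :
    1 = ∑ i, (fP P c (x i) - fP P c (x 0)) / ∏ j ∈ Finset.univ.erase i, (x i - x j) := by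
  obtain ⟨F, hF⟩ : ∃ F : K[X], F = P + C (c - fP P c (x 0)) := ⟨_, rfl⟩
  have hdP : P.degree = (n + 1 : ℕ) := by rw [degree_eq_natDegree hP.ne_zero, hd]
  have hlt : (C (c - fP P c (x 0)) : K[X]).degree < P.degree := by
    rw [hdP]
    refine degree_C_le.trans_lt ?_
    exact_mod_cast Nat.succ_pos n
  have hFd : F.degree = (n + 1 : ℕ) := by
    rw [hF, degree_add_eq_left_of_degree_lt hlt, hdP]
  have hFl : F.leadingCoeff = 1 := by
    rw [hF, leadingCoeff_add_of_degree_lt' hlt, hP.leadingCoeff]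
  have h1 := Lagrange.leadingCoeff_eq_sum (s := Finset.univ) (v := x) (hx.injOn) (P := F) (by
    rw [hFd, Finset.card_univ, Fintype.card_fin]
    rfl)
  rw [hFl] at h1
  rw [h1]
  apply Finset.sum_congr rfl
  intro i _
  congr 1
  rw [hF, eval_add, eval_C]
  unfold fP
  ring

end lagr

section na

variable {K : Type} [Field K] {v : AbsoluteValue K ℝ} {n : ℕ} {P : K[X]} {c : K}

/-- the bad places -/
lemma LD.spread (h : LD v n P) (hc : 1 < v c) {x : Fin (n + 2) → K} (hx : Function.Injective x)
    (hpre : ∀ i, PreP (fP P c) (x i)) {Q : ℝ}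
    (hQ : ∀ i j k l, k ≠ l → v (x i - x j) ≤ Q * v (x k - x l)) : v (x 0) ^ n ≤ Q := by
  by_contra hlt
  push Not at hlt
  obtain ⟨R, hR⟩ : ∃ R, R = v (x 0) := ⟨_, rfl⟩
  rw [← hR] at hlt
  have hR1 : 1 < R := by rw [hR]; exact h.bd_gt hc (hpre 0)
  have hn := h.pos
  have hv : ∀ i, v (x i) = R := fun i => by rw [hR]; exact h.bd_eq hc (hpre i) (hpre 0)
  have hdist : ∀ i j, i ≠ j → ∃ N : ℕ, v (x i - x j) * (R ^ N) ^ n = R ∧
      v ((fP P c)^[N] (x i) - (fP P c)^[N] (x j)) = R := by
    intro i j hij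
    have := h.bd_dist hc (hpre i) (hpre j) (fun h' => hij (hx h'))
    rwa [hv] at this
  have h01 : (0 : Fin (n + 2)) ≠ 1 := by
    intro h'
    have := congrArg (fun t : Fin (n + 2) => (t : ℕ)) h'
    simp at this
  obtain ⟨N, hN, hN'⟩ := hdist 0 1 h01
  have hall : ∀ i j, i ≠ j → v ((fP P c)^[N] (x i) - (fP P c)^[N] (x j)) = R := by
    intro i j hij
    obtain ⟨M, hM, hM'⟩ := hdist i j hij
    have hpos1 : 0 < v (x i - x j) := v.pos (sub_ne_zero.2 fun h' => hij (hx h'))
    have hpos2 : 0 < v (x 0 - x 1) := v.pos (sub_ne_zero.2 fun h' => h01 (hx h'))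
    have key : ∀ (A B : ℕ) (a b : ℝ), 0 < a → 0 < b → a * (R ^ A) ^ n = R → b * (R ^ B) ^ n = R →
        a ≤ Q * b → ¬ A < B := by
      intro A B a b ha hb h1 h2 h3 hAB
      have h4 : R ^ n * b * (R ^ A) ^ n ≤ a * (R ^ A) ^ n := by
        calc R ^ n * b * (R ^ A) ^ n = b * (R ^ (A + 1)) ^ n := by
              rw [pow_succ R A, mul_pow]; ring
          _ ≤ b * (R ^ B) ^ n := by
              gcongr
              · exact hR1.le
              · exact hAB
          _ = a * (R ^ A) ^ n := by rw [h1, h2]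
      have h6 : R ^ n * b ≤ a := le_of_mul_le_mul_right h4 (by positivity)
      have h7 : Q * b < R ^ n * b := by gcongr
      linarith
    have e : M = N := by
      rcases lt_trichotomy M N with h' | h' | h'
      · exact absurd h' (key M N _ _ hpos1 hpos2 hM hN (hQ i j 0 1 h01))
      · exact h'
      · exact absurd h' (key N M _ _ hpos2 hpos1 hN hM (hQ 0 1 i j hij))
    rw [← e]
    exact hM'
  obtain ⟨y, hy⟩ : ∃ y : Fin (n + 2) → K, y = fun i => (fP P c)^[N] (x i) := ⟨_, rfl⟩
  have hyd : ∀ i j, i ≠ j → v (y i - y j) = R := by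
    intro i j hij
    rw [hy]
    exact hall i j hij
  have hyinj : Function.Injective y := by
    intro i j hij
    by_contra h'
    have := hyd i j h'
    rw [hij, sub_self, map_zero] at this
    linarith
  have hypre : ∀ i, PreP (fP P c) (y i) := fun i => by rw [hy]; exact (hpre i).iter N
  have h1 := congrArg v (lagr (c := c) h.mon h.deg hyinj)
  rw [map_one] at h1
  have h2 : v (∑ i, (fP P c (y i) - fP P c (y 0)) / ∏ j ∈ Finset.univ.erase i, (y i - y j)) ≤
      R / R ^ (n + 1) := by
    apply na_sum h.na _ _ (by positivity)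
    intro i _
    rw [map_div₀, map_prod]
    have h3 : ∏ j ∈ Finset.univ.erase i, v (y i - y j) = R ^ (n + 1) := by
      rw [Finset.prod_congr rfl (g := fun _ => R), Finset.prod_const,
        Finset.card_erase_of_mem (Finset.mem_univ _), Finset.card_univ, Fintype.card_fin]
      · rfl
      · intro j hj
        exact hyd i j (Ne.symm (Finset.ne_of_mem_erase hj))
    rw [h3]
    gcongr
    refine (na_sub h.na _ _).trans ?_
    rw [h.bd_eq hc (hypre i).map (hpre 0), h.bd_eq hc (hypre 0).map (hpre 0), max_self, hR]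
  have h3 : R / R ^ (n + 1) < 1 := by
    rw [div_lt_one (by positivity)]
    conv_lhs => rw [← pow_one R]
    exact pow_lt_pow_right₀ hR1 (by omega)
  linarith

end na

end Pool.Agent.KS6_58
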