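import Pool.Agent.KS6_58.PT3b

/-!
# Periodic and preperiodic points of `G(x ^ m) + c`, `m ≥ 3`
-/

set_option autoImplicit false

namespace Pool.Agent.KS6_58

open Function Polynomial Height Height.AdmissibleAbsValues Pool.Agent.H437R2.Man NumberField

section winp

variable {K : Type} [Field K] [NumberField K]

/-- the window property and maps comparable with the identity -/
lemma WinP.comp58 {P Q : K → Prop} (hP : WinP P) {g : K → K} (hQ : ∀ x, Q x → P (g x))
    (hinj : ∀ x y, Q x → Q y → g x = g y → x = y) {C : ℝ} (hC : 0 ≤ C)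
    (h1 : ∀ x, Q x → logHeight₁ (g x) ≤ 2 * logHeight₁ x + C)
    (h2 : ∀ x, Q x → logHeight₁ x ≤ 2 * logHeight₁ (g x) + C) : WinP Q := by
  classical
  intro c hc
  obtain ⟨H0, B, hwin⟩ := hP (4 * (2 * c + 1)) (by linarith)
  refine ⟨max (4 * H0) (2 * C), B, fun H hH S hS => ?_⟩
  have hH1 : 4 * H0 ≤ H := (le_max_left _ _).trans hH
  have hH2 : 2 * C ≤ H := (le_max_right _ _).trans hH
  have hinjS : Set.InjOn g S := fun x hx y hy hxy => hinj x y (hS x hx).1 (hS y hy).1 hxy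
  rw [← Finset.card_image_of_injOn hinjS]
  apply hwin (H / 4) (by linarith)
  intro t ht
  obtain ⟨x, hx, rfl⟩ := Finset.mem_image.1 ht
  obtain ⟨hQx, h3, h4⟩ := hS x hx
  have := h1 x hQx
  have := h2 x hQx
  refine ⟨hQ x hQx, by linarith, ?_⟩
  have e : 4 * (2 * c + 1) * (H / 4) = 2 * (c * H) + H := by ring
  rw [e]
  linarith

end winp

section sym

variable {K : Type} [Field K] {v : AbsoluteValue K ℝ} {n m : ℕ} {G : K[X]} {c ζ : K}

lemma fP_sym (_hm : 0 < m) {η : K} (hη : η ^ m = 1) (x : K) :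
    fP (expand K m G) c (η * x) = fP (expand K m G) c x := by
  unfold fP
  rw [expand_eval, expand_eval, mul_pow, hη, one_mul]

lemma pre_sym (hm : 0 < m) {η : K} (hη : η ^ m = 1) {x : K} (hx : PreP (fP (expand K m G) c) x) :
    PreP (fP (expand K m G) c) (η * x) :=
  hx.of_eq (fP_sym hm hη x).symm

lemma ne_sym (hm : 0 < m) {η : K} (hη : η ^ m = 1) {x y : K}
    (hx : x ∈ periodicPts (fP (expand K m G) c)) (hy : y ∈ periodicPts (fP (expand K m G) c))
    (hne : x ≠ y) : x ≠ η * y := fun h => hne ((bijOn_periodicPts _).injOn hx hy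
      (by rw [h]; exact fP_sym hm hη y))

/-- two periodic points at a good place -/
lemma LD.sym_good (h : LD v n (expand K (m + 1) G)) (hζ : IsPrimitiveRoot ζ (m + 1))
    (hc : v c ≤ 1) {x y : K} (hx : x ∈ periodicPts (fP (expand K (m + 1) G) c))
    (hy : y ∈ periodicPts (fP (expand K (m + 1) G) c)) (hne : x ≠ y) {η : K}
    (hη : η ^ (m + 1) = 1) (hη1 : η ≠ 1) : v (x - η * y) = 1 := by
  obtain ⟨k, hk, rfl⟩ := root_pow hζ hη hη1
  have hx1 := h.gd_pre hc (PreP.of_per hx)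
  have hy1 := h.gd_pre hc (PreP.of_per hy)
  have h1 : v (fP (expand K (m + 1) G) c x - fP (expand K (m + 1) G) c y) = v (x - y) :=
    h.gd_per hc hx hy 1
  have hGi : ∀ i, v (G.coeff i) ≤ 1 := by
    intro i
    have := h.int ((m + 1) * i)
    rwa [coeff_expand_mul' (Nat.succ_pos m)] at this
  have h2 : v (fP (expand K (m + 1) G) c x - fP (expand K (m + 1) G) c y) ≤
      v (x ^ (m + 1) - y ^ (m + 1)) := by
    have e : fP (expand K (m + 1) G) c x - fP (expand K (m + 1) G) c y =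
        G.eval (x ^ (m + 1)) - G.eval (y ^ (m + 1)) := by
      unfold fP
      rw [expand_eval, expand_eval]
      ring
    rw [e]
    have := na_eval_sub h.na hGi (Nat.le_succ G.natDegree) (le_refl (1 : ℝ))
      (x := x ^ (m + 1)) (y := y ^ (m + 1))
      (by rw [map_pow]; exact pow_le_one₀ (v.nonneg _) hx1)
      (by rw [map_pow]; exact pow_le_one₀ (v.nonneg _) hy1)
    rwa [one_pow, mul_one] at this
  rw [fac hζ, map_mul, map_prod, h1] at h2
  have h3 : 0 < v (x - y) := v.pos (sub_ne_zero.2 hne)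
  have h4 : 1 ≤ ∏ j ∈ Finset.range m, v (x - ζ ^ (j + 1) * y) := by
    by_contra h
    push Not at h
    nlinarith
  exact fac_one _ (fun j => v (x - ζ ^ (j + 1) * y)) (fun _ _ => v.nonneg _)
    (fun j _ => by
      refine (na_sub h.na _ _).trans (max_le hx1 ?_)
      rw [map_mul, v_root (pow_root hζ _), one_mul]
      exact hy1) h4 (Finset.mem_range.2 hk)

/-- expansion at a good place -/
lemma na_taylor (hna : IsNonarchimedean v) {P : K[X]} (hd : P.natDegree = n + 1)
    (hi : ∀ i, v (P.coeff i) ≤ 1) {u w : K} (hu : v u ≤ 1) (hw : v w ≤ 1) :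
    v (P.eval u - P.eval w - Dv n P w * (u - w)) ≤ v (u - w) * v (u - w) := by
  have e : P.eval u - P.eval w - Dv n P w * (u - w) = ∑ k ∈ Finset.range (n + 1),
      P.coeff (k + 1) * ((∑ i ∈ Finset.range (k + 1), (u ^ i - w ^ i) * w ^ (k + 1 - 1 - i)) *
        (u - w)) := by
    rw [eval_eq_sum_range' (Nat.lt_succ_of_le hd.le), eval_eq_sum_range' (Nat.lt_succ_of_le hd.le),
      Finset.sum_range_succ' _ (n + 1), Finset.sum_range_succ' _ (n + 1), Dv, Finset.sum_mul]
    rw [add_sub_add_comm, ← Finset.sum_sub_distrib]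
    simp only [pow_zero, sub_self, add_zero]
    rw [← Finset.sum_sub_distrib]
    apply Finset.sum_congr rfl
    intro k _
    have e1 : u ^ (k + 1) - w ^ (k + 1) - ((k + 1 : ℕ) : K) * w ^ k * (u - w) =
        (∑ i ∈ Finset.range (k + 1), (u ^ i - w ^ i) * w ^ (k + 1 - 1 - i)) * (u - w) := by
      have e2 : ∑ i ∈ Finset.range (k + 1), (u ^ i - w ^ i) * w ^ (k + 1 - 1 - i) =
          ∑ i ∈ Finset.range (k + 1), (u ^ i * w ^ (k + 1 - 1 - i) - w ^ k) := by
        apply Finset.sum_congr rfl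
        intro i hi'
        rw [Finset.mem_range] at hi'
        have e3 : w ^ k = w ^ i * w ^ (k + 1 - 1 - i) := by
          rw [← pow_add]; congr 1; omega
        rw [e3]
        ring
      rw [e2, Finset.sum_sub_distrib, sub_mul, (Commute.all u w).geom_sum₂_mul, Finset.sum_const,
        Finset.card_range, nsmul_eq_mul]
    rw [← e1]
    ring
  rw [e]
  apply na_sum hna _ _ (mul_nonneg (v.nonneg _) (v.nonneg _))
  intro k _
  rw [map_mul, map_mul]
  have h1 : v (∑ i ∈ Finset.range (k + 1), (u ^ i - w ^ i) * w ^ (k + 1 - 1 - i)) ≤ v (u - w) := by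
    apply na_sum hna _ _ (v.nonneg _)
    intro i _
    rw [map_mul, map_pow]
    have h2 : v (u ^ i - w ^ i) ≤ v (u - w) := by
      rcases i with _ | j
      · simp
      · have := na_pow_sub hna hu hw j
        rwa [one_pow, mul_one] at this
    have h3 : v w ^ (k + 1 - 1 - i) ≤ 1 := pow_le_one₀ (v.nonneg _) hw
    calc v (u ^ i - w ^ i) * v w ^ (k + 1 - 1 - i) ≤ v (u - w) * 1 := by
          have := v.nonneg (u - w)
          have := v.nonneg w
          gcongr
      _ = v (u - w) := mul_one _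
  have h2 := hi (k + 1)
  have h3 := v.nonneg (u - w)
  have h4 := v.nonneg (P.coeff (k + 1))
  calc v (P.coeff (k + 1)) * (v (∑ i ∈ Finset.range (k + 1), (u ^ i - w ^ i) *
        w ^ (k + 1 - 1 - i)) * v (u - w)) ≤ 1 * (v (u - w) * v (u - w)) := by gcongr
    _ = _ := one_mul _

/-- the last point of a tail and a periodic point at a good place -/
lemma LD.tail {P : K[X]} (h : LD v n P) (hc : v c ≤ 1) {z w y : K} (hz : PreP (fP P c) z)
    (hw : w ∈ periodicPts (fP P c)) (hy : y ∈ periodicPts (fP P c)) (hzw : z ≠ w)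
    (hf : fP P c z = fP P c w) (hyw : y ≠ w) : v (z - y) = 1 := by
  have hz1 := h.gd_pre hc hz
  have hw1 := h.gd_pre hc (PreP.of_per hw)
  have hy1 := h.gd_pre hc (PreP.of_per hy)
  have hle : v (z - y) ≤ 1 := (na_sub h.na _ _).trans (max_le hz1 hy1)
  apply le_antisymm hle
  by_contra hlt
  push Not at hlt
  -- `y` and `w` are congruent
  have h1 : v (y - w) = v (fP P c y - fP P c w) := (h.gd_per hc hy hw 1).symm
  have h2 : v (y - w) < 1 := by
    rw [h1, ← hf]
    have := h.gd_step hc (PreP.of_per hy) hz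
    rw [← v.map_neg (y - z), neg_sub] at this
    exact this.trans_lt hlt
  have h3 : v (z - w) < 1 := by
    have e : z - w = (z - y) + (y - w) := by ring
    rw [e]
    exact (h.na _ _).trans_lt (max_lt hlt h2)
  have hzw0 : 0 < v (z - w) := v.pos (sub_ne_zero.2 hzw)
  have hyw0 : 0 < v (y - w) := v.pos (sub_ne_zero.2 hyw)
  -- the derivative at `w` is small
  have h4 : v (Dv n P w) < 1 := by
    have h5 := na_taylor h.na h.deg h.int hz1 hw1
    have h6 : P.eval z = P.eval w := by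
      unfold fP at hf
      exact add_right_cancel hf
    rw [h6, sub_self, zero_sub, v.map_neg, map_mul] at h5
    exact (le_of_mul_le_mul_right h5 hzw0).trans_lt h3
  have h5 := na_taylor h.na h.deg h.int hy1 hw1
  have h6 : v (P.eval y - P.eval w) < v (y - w) := by
    have e : P.eval y - P.eval w = (P.eval y - P.eval w - Dv n P w * (y - w)) +
        Dv n P w * (y - w) := by ring
    rw [e]
    refine (h.na _ _).trans_lt (max_lt ?_ ?_)
    · exact h5.trans_lt (by nlinarith)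
    · rw [map_mul]; nlinarith
  have h7 : P.eval y - P.eval w = fP P c y - fP P c w := by unfold fP; ring
  rw [h7, ← h1] at h6
  exact lt_irrefl _ h6

end sym

section sym2

variable {K : Type} [Field K] [NumberField K] {n m : ℕ} {G : K[X]} {c ζ : K}

omit [NumberField K] in
/-- three periodic points -/
lemma sym_two {D : K} (hLD : ∀ v : AbsoluteValue K ℝ, IsNonarchimedean v → v D = 1 →
      LD v n (expand K (m + 1) G)) {T : Finset K}
    (hT : ∀ a : K, a ≠ 0 →
      (∀ v : AbsoluteValue K ℝ, IsNonarchimedean v → v D = 1 →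
        ∃ z : K, z ≠ 0 ∧ v a = v (z ^ n)) → ∃ t ∈ T, ∃ b : K, a = t * b ^ n)
    (hζ : IsPrimitiveRoot ζ (m + 1)) (hm : 2 ≤ m) {x y z : K}
    (hx : x ∈ periodicPts (fP (expand K (m + 1) G) c))
    (hy : y ∈ periodicPts (fP (expand K (m + 1) G) c))
    (hz : z ∈ periodicPts (fP (expand K (m + 1) G) c)) (hxy : x ≠ y) (hyz : y ≠ z) (hxz : x ≠ z) :
    y - ζ * z ≠ 0 ∧ TwoP n ζ T ((x - ζ * y) / (y - ζ * z)) := by
  have hζm : ζ ^ (m + 1) = 1 := hζ.pow_eq_one
  have hζ1 : ζ ≠ 1 := hζ.ne_one (by omega)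
  have hζ2m : (ζ ^ 2) ^ (m + 1) = 1 := by rw [← pow_mul, mul_comm, pow_mul, hζm, one_pow]
  have hζ21 : ζ ^ 2 ≠ 1 := hζ.pow_ne_one_of_pos_of_lt (by omega) (by omega)
  have hm0 : 0 < m + 1 := Nat.succ_pos m
  have n1 : y - ζ * z ≠ 0 := sub_ne_zero.2 (ne_sym hm0 hζm hy hz hyz)
  have n2 : x - ζ * y ≠ 0 := sub_ne_zero.2 (ne_sym hm0 hζm hx hy hxy)
  have n3 : x - ζ ^ 2 * z ≠ 0 := sub_ne_zero.2 (ne_sym hm0 hζ2m hx hz hxz)
  have e : (x - ζ * y) / (y - ζ * z) + ζ = (x - ζ ^ 2 * z) / (y - ζ * z) := by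
    field_simp
    ring
  refine ⟨n1, div_ne_zero n2 n1, by rw [e]; exact div_ne_zero n3 n1, ?_, ?_⟩
  · apply hT _ (div_ne_zero n2 n1)
    intro v hna hv
    have h := hLD v hna hv
    rcases le_or_gt (v c) 1 with hc | hc
    · refine ⟨1, one_ne_zero, ?_⟩
      rw [one_pow, map_one, map_div₀, h.sym_good hζ hc hx hy hxy hζm hζ1,
        h.sym_good hζ hc hy hz hyz hζm hζ1, div_one]
    · exact h.bd_ratio hc (PreP.of_per hx) (pre_sym hm0 hζm (PreP.of_per hy)) (PreP.of_per hy)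
        (pre_sym hm0 hζm (PreP.of_per hz)) (sub_ne_zero.1 n2) (sub_ne_zero.1 n1)
  · rw [e]
    apply hT _ (div_ne_zero n3 n1)
    intro v hna hv
    have h := hLD v hna hv
    rcases le_or_gt (v c) 1 with hc | hc
    · refine ⟨1, one_ne_zero, ?_⟩
      rw [one_pow, map_one, map_div₀, h.sym_good hζ hc hx hz hxz hζ2m hζ21,
        h.sym_good hζ hc hy hz hyz hζm hζ1, div_one]
    · exact h.bd_ratio hc (PreP.of_per hx) (pre_sym hm0 hζ2m (PreP.of_per hz)) (PreP.of_per hy)
        (pre_sym hm0 hζm (PreP.of_per hz)) (sub_ne_zero.1 n3) (sub_ne_zero.1 n1)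

omit [NumberField K] in
/-- the structure of the tails -/
lemma tail_data2 {P : K[X]} {x : K} (hx : PreP (fP P c) x)
    (hx' : fP P c x ∉ periodicPts (fP P c)) :
    ∃ k : ℕ, 1 ≤ k ∧ ∃ w : K, w ∈ periodicPts (fP P c) ∧ (fP P c)^[k] x ≠ w ∧
      fP P c ((fP P c)^[k] x) = fP P c w := by
  classical
  obtain ⟨f, hf⟩ : ∃ f, f = fP P c := ⟨_, rfl⟩
  rw [← hf] at hx hx' ⊢
  have hex := hx.exists_per
  obtain ⟨m, hm, hmin⟩ : ∃ m, f^[m] x ∈ periodicPts f ∧ ∀ j < m, f^[j] x ∉ periodicPts f :=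
    ⟨Nat.find hex, Nat.find_spec hex, fun j hj => Nat.find_min hex hj⟩
  have hm0 : m ≠ 0 := by
    rintro rfl
    exact hx' (per_map hm)
  have hm1 : m ≠ 1 := by
    rintro rfl
    exact hx' hm
  obtain ⟨k, rfl⟩ : ∃ k, m = k + 1 := ⟨m - 1, by omega⟩
  refine ⟨k, by omega, ?_⟩
  obtain ⟨w, hw, hwe⟩ := (bijOn_periodicPts f).surjOn hm
  rw [iterate_succ_apply'] at hwe
  exact ⟨w, hw, fun h => hmin k (by omega) (h ▸ hw), hwe.symm⟩

omit [NumberField K] in
/-- a tail and a periodic point -/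
lemma tail_two {D : K} (hLD : ∀ v : AbsoluteValue K ℝ, IsNonarchimedean v → v D = 1 →
      LD v n (expand K (m + 1) G)) {T : Finset K}
    (hT : ∀ a : K, a ≠ 0 →
      (∀ v : AbsoluteValue K ℝ, IsNonarchimedean v → v D = 1 →
        ∃ z : K, z ≠ 0 ∧ v a = v (z ^ n)) → ∃ t ∈ T, ∃ b : K, a = t * b ^ n)
    {x y w : K} {k : ℕ} (hk : 1 ≤ k)
    (hx : PreP (fP (expand K (m + 1) G) c) x)
    (hx' : fP (expand K (m + 1) G) c x ∉ periodicPts (fP (expand K (m + 1) G) c))
    (hy : y ∈ periodicPts (fP (expand K (m + 1) G) c))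
    (hw : w ∈ periodicPts (fP (expand K (m + 1) G) c))
    (hzw : (fP (expand K (m + 1) G) c)^[k] x ≠ w)
    (hf : fP (expand K (m + 1) G) c ((fP (expand K (m + 1) G) c)^[k] x) =
      fP (expand K (m + 1) G) c w) (hyw : (fP (expand K (m + 1) G) c)^[k] y ≠ w)
    {η η' : K} (hη : η ^ (m + 1) = 1) (hη' : η' ^ (m + 1) = 1) :
    x - η' * y ≠ 0 ∧ (x - η * y) / (x - η' * y) ≠ 0 ∧
      ∃ t ∈ T, ∃ b : K, (x - η * y) / (x - η' * y) = t * b ^ n := by
  have hm0 : 0 < m + 1 := Nat.succ_pos m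
  have hne : ∀ η : K, η ^ (m + 1) = 1 → x - η * y ≠ 0 := by
    intro η hη
    rw [sub_ne_zero]
    rintro rfl
    apply hx'
    rw [fP_sym hm0 hη]
    exact per_map hy
  refine ⟨hne η' hη', div_ne_zero (hne η hη) (hne η' hη'), ?_⟩
  apply hT _ (div_ne_zero (hne η hη) (hne η' hη'))
  intro v hna hv
  have h := hLD v hna hv
  rcases le_or_gt (v c) 1 with hc | hc
  · refine ⟨1, one_ne_zero, ?_⟩
    have key : ∀ η : K, η ^ (m + 1) = 1 → v (x - η * y) = 1 := by
      intro η hη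
      have hpy := pre_sym hm0 hη (PreP.of_per hy) (c := c) (G := G)
      apply le_antisymm
      · refine (na_sub h.na _ _).trans (max_le (h.gd_pre hc hx) (h.gd_pre hc hpy))
      · obtain ⟨j, rfl⟩ : ∃ j, k = j + 1 := ⟨k - 1, by omega⟩
        have h1 := h.gd_iter hc hx hpy (j + 1)
        rw [iterate_succ_apply (fP (expand K (m + 1) G) c) j (η * y), fP_sym hm0 hη,
          ← iterate_succ_apply] at h1
        rw [h.tail hc (hx.iter _) hw (per_iter hy _) hzw hf hyw] at h1
        exact h1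
    rw [one_pow, map_one, map_div₀, key η hη, key η' hη', div_one]
  · exact h.bd_ratio hc hx (pre_sym hm0 hη (PreP.of_per hy)) hx
      (pre_sym hm0 hη' (PreP.of_per hy)) (sub_ne_zero.1 (hne η hη)) (sub_ne_zero.1 (hne η' hη'))

end sym2

end Pool.Agent.KS6_58
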