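import Pool.Agent.KS6_58.PT2

/-!
# Counting the periodic and preperiodic points of `G(x ^ m) + c`, `m ≥ 3`
-/

set_option autoImplicit false

namespace Pool.Agent.KS6_58

open Function Polynomial Height Height.AdmissibleAbsValues Pool.Agent.H437R2.Man NumberField

section zero

variable {K : Type} [Field K]

/-- zero preperiodic: local bound -/
lemma any_zero [CharZero K] (v : AbsoluteValue K ℝ) {n : ℕ} (hn : 1 ≤ n) : ∃ A : ℝ, 0 ≤ A ∧
    ∀ P : K[X], P.Monic → P.natDegree = n + 1 → ∀ W : ℝ, 1 ≤ W → (∀ k, v (P.coeff k) ≤ W) →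
    ∀ c : K, PreP (fP P c) 0 → lx c v ≤ A * (1 + Real.log W) := by
  obtain ⟨a, ha1, hab⟩ := any_base v hn
  have hla : 0 ≤ Real.log a := Real.log_nonneg ha1
  refine ⟨((n + 1 : ℕ) : ℝ) * (Real.log a + ((2 * n + 1 : ℕ) : ℝ)), by positivity,
    fun P hP hd W hW1 hW c h0 => ?_⟩
  obtain ⟨R0, C1, c2, hR0, hC1, hc20, hC1a, hc2a, hR0a, hbase⟩ := hab P hP hd W hW1 hW
  have hlW : 0 ≤ Real.log W := Real.log_nonneg hW1
  have hWpos : 0 < W := by linarith
  have ha0 : 0 < a := by linarith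
  obtain ⟨R, hRnn, hR⟩ : ∃ R : ℝ, 0 ≤ R ∧ v c = R ^ (n + 1) := by
    refine ⟨(v c) ^ ((((n + 1 : ℕ) : ℝ))⁻¹), Real.rpow_nonneg (v.nonneg _) _, ?_⟩
    rw [Real.rpow_inv_natCast_pow (v.nonneg _) (Nat.succ_ne_zero n)]
  have hRle : R ≤ a * W ^ (2 * n + 1) := by
    rcases lt_or_ge R R0 with h | h
    · exact h.le.trans hR0a
    · have hR1 : 1 ≤ R := hR0.trans h
      obtain ⟨-, h2⟩ := hbase c R h hR
      have h3 := (h2 0 h0).2
      have h4 : v (Dv n P 0) ≤ W := by
        have : Dv n P 0 = P.coeff 1 := by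
          unfold Dv
          rw [Finset.sum_range_succ', Finset.sum_eq_zero]
          · simp
          · intro i _
            rw [pow_succ]
            simp
        rw [this]
        exact hW 1
      have h5 : R ^ n ≤ W * c2⁻¹ := by
        rw [← div_eq_mul_inv, le_div_iff₀ hc20, mul_comm]
        exact h3.trans h4
      calc R ≤ R ^ n := by
            conv_lhs => rw [← pow_one R]
            exact pow_le_pow_right₀ hR1 hn
        _ ≤ W * c2⁻¹ := h5
        _ ≤ W * (a * W ^ n) := by gcongr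
        _ = a * W ^ (n + 1) := by rw [pow_succ]; ring
        _ ≤ a * W ^ (2 * n + 1) := by
            have : W ^ (n + 1) ≤ W ^ (2 * n + 1) := pow_le_pow_right₀ hW1 (by omega)
            gcongr
  have h1 : 1 ≤ a * W ^ (2 * n + 1) :=
    one_le_mul_of_one_le_of_one_le ha1 (one_le_pow₀ hW1)
  have h2 : max (v c) 1 ≤ (a * W ^ (2 * n + 1)) ^ (n + 1) := by
    apply max_le
    · rw [hR]
      exact pow_le_pow_left₀ hRnn hRle _
    · exact one_le_pow₀ h1
  have h3 := Real.log_le_log (by positivity) h2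
  rw [Real.log_pow, Real.log_mul (by positivity) (by positivity), Real.log_pow] at h3
  show Real.log (max (v c) 1) ≤ _
  refine h3.trans ?_
  rw [mul_assoc]
  apply mul_le_mul_of_nonneg_left _ (Nat.cast_nonneg _)
  have h4 : 0 ≤ Real.log a * Real.log W := by positivity
  have h5 : (0 : ℝ) ≤ ((2 * n + 1 : ℕ) : ℝ) := Nat.cast_nonneg _
  have e : (Real.log a + ((2 * n + 1 : ℕ) : ℝ)) * (1 + Real.log W) = Real.log a +
    ((2 * n + 1 : ℕ) : ℝ) + Real.log a * Real.log W + ((2 * n + 1 : ℕ) : ℝ) * Real.log W := by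
      ring
  rw [e]
  linarith

/-- zero preperiodic: the parameter has small height -/
theorem glob_zero (K : Type) [Field K] [NumberField K] (n : ℕ) (hn : 1 ≤ n) {N : ℕ} (hN0 : N ≠ 0) :
    ∃ A : ℝ, 0 ≤ A ∧ ∀ P : K[X], P.Monic → P.natDegree = n + 1 → (∀ i, SInt N (P.coeff i)) →
    ∀ c : K, PreP (fP P c) 0 → logHeight₁ c ≤ A * (1 + hC58 n P) := by
  have hD : (N : K) * ((n : K) + 1) ≠ 0 := by
    apply mul_ne_zero
    · exact_mod_cast hN0
    · exact_mod_cast Nat.succ_ne_zero n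
  choose C0 hC0 hC0' using fun v : AbsoluteValue K ℝ => any_zero v hn
  obtain ⟨A, hA0, hA⟩ := gs_leS hD C0
  refine ⟨A, hA0, fun P hP hd hN c h0 => ?_⟩
  have h1 := hA (lx c) (fun v => (0 : ℝ) * lx c v) (wl n P) (FS_lx c) ((FS_lx c).const_mul 0)
    (FS_sum _ _).1 (wl_nonneg n P) (fun v => ?_) (fun v hna hv => ?_)
  · have h2 : gs (wl n P) = hC58 n P := (FS_sum _ _).2
    rw [gs_const_mul _ (FS_lx c), gs_lx, h2, zero_mul, zero_add] at h1
    exact h1
  · obtain ⟨W, hW1, hWl, hW⟩ := exists_W hP hd v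
    have := hC0' v P hP hd W hW1 hW c h0
    rw [hWl] at this
    rw [zero_mul, zero_add]
    exact this
  · rw [zero_mul]
    have h := to_LD hP hd hn hN hna hv
    unfold lx
    rcases le_or_gt (v c) 1 with hc | hc
    · rw [max_eq_right hc, Real.log_one]
    · exfalso
      have := h.bd_gt hc h0
      rw [map_zero] at this
      linarith

end zero

section count

/-- **periodic and preperiodic points of `G(x ^ m) + c`** -/
theorem sym_main (K : Type) [Field K] [NumberField K] (n m : ℕ) (hn : 5 ≤ n) (hm : 2 ≤ m)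
    {ζ : K} (hζ : IsPrimitiveRoot ζ (m + 1)) {N : ℕ} (hN0 : N ≠ 0) :
    ∃ (B : ℕ) (A : ℝ), 0 ≤ A ∧ ∀ G : K[X], (expand K (m + 1) G).Monic →
      (expand K (m + 1) G).natDegree = n + 1 → (∀ i, SInt N ((expand K (m + 1) G).coeff i)) →
      ∀ c : K, A * (1 + hC58 n (expand K (m + 1) G)) ≤ logHeight₁ c →
      (∀ S : Finset K, (∀ x ∈ S, x ∈ periodicPts (fP (expand K (m + 1) G) c)) → S.card ≤ B) ∧
      ((∃ y ∈ periodicPts (fP (expand K (m + 1) G) c),
        ∃ z ∈ periodicPts (fP (expand K (m + 1) G) c), y ≠ z) →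
        ∀ S : Finset K, (∀ x ∈ S, PreP (fP (expand K (m + 1) G) c) x) → S.card ≤ B) := by
  classical
  have hD : (N : K) * ((n : K) + 1) ≠ 0 := by
    apply mul_ne_zero
    · exact_mod_cast hN0
    · exact_mod_cast Nat.succ_ne_zero n
  have hζm : ζ ^ (m + 1) = 1 := hζ.pow_eq_one
  have hζ0 : ζ ≠ 0 := hζ.ne_zero (Nat.succ_ne_zero m)
  have hζ1 : ζ ≠ 1 := hζ.ne_one (by omega)
  have hζ2m : (ζ ^ 2) ^ (m + 1) = 1 := by rw [← pow_mul, mul_comm, pow_mul, hζm, one_pow]
  have hζ21 : ζ ^ 2 ≠ 1 := hζ.pow_ne_one_of_pos_of_lt (by omega) (by omega)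
  have h1ζ : 1 + ζ ≠ 0 := by
    intro h
    apply hζ21
    have : ζ = -1 := by linear_combination h
    rw [this]; ring
  have hζζ : ζ ≠ ζ ^ 2 := by
    intro h
    have : ζ * (1 - ζ) = 0 := by linear_combination h
    rcases mul_eq_zero.1 this with h | h
    · exact hζ0 h
    · exact hζ1 (by linear_combination -h)
  obtain ⟨T, -, hT⟩ := sel_abs (K := K) (n := n) (by omega) hD
  -- the second set with the window property
  obtain ⟨T', hT'⟩ : ∃ T' : Finset K, T' = T.image (fun t => (1 + ζ) * t) ∪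
    T.image (fun t => ζ * t) := ⟨_, rfl⟩
  obtain ⟨W2, hW2⟩ : ∃ W2 : K → Prop, W2 = fun l => l ≠ ζ ^ 2 ∧
    TwoP n (-1) T' ((1 + ζ) * ((l - ζ) / (l - ζ ^ 2))) := ⟨_, rfl⟩
  obtain ⟨Cr, hCr, hr⟩ := ht_ratio (K := K) hζζ
  have hWin2 : WinP W2 := by
    refine (win_two hn (neg_ne_zero.2 (one_ne_zero (α := K))) T').comp58
      (g := fun l => (1 + ζ) * ((l - ζ) / (l - ζ ^ 2))) (C := Cr + 2 * logHeight₁ (1 + ζ))
      ?_ ?_ ?_ ?_ ?_
    · intro x hx
      rw [hW2] at hx
      exact hx.2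
    · intro x y hx hy hxy
      rw [hW2] at hx hy
      have hx' : x - ζ ^ 2 ≠ 0 := sub_ne_zero.2 hx.1
      have hy' : y - ζ ^ 2 ≠ 0 := sub_ne_zero.2 hy.1
      have h1 := mul_left_cancel₀ h1ζ hxy
      rw [div_eq_div_iff hx' hy'] at h1
      have h2 : (ζ - ζ ^ 2) * (x - y) = 0 := by linear_combination h1
      rcases mul_eq_zero.1 h2 with h | h
      · exact absurd (sub_eq_zero.1 h) hζζ
      · exact sub_eq_zero.1 h
    · have := ht_nn (1 + ζ)
      positivity
    · intro x hx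
      rw [hW2] at hx
      have h1 := (hr x hx.1).1
      have h2 := (ht_mul_const h1ζ ((x - ζ) / (x - ζ ^ 2))).1
      have := ht_nn (1 + ζ)
      linarith
    · intro x hx
      rw [hW2] at hx
      have h1 := (hr x hx.1).2
      have h2 := (ht_mul_const h1ζ ((x - ζ) / (x - ζ ^ 2))).2
      linarith
  obtain ⟨A2, hA2, hup'⟩ := glob_up K n (by omega : 1 ≤ n) hN0
  obtain ⟨A3, hA3, hzero'⟩ := glob_zero K n (by omega : 1 ≤ n) hN0
  obtain ⟨B1, A1, hA1, hfew1'⟩ := few K n hn hN0 hζ0 T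
  obtain ⟨B4, A4, hA4, hfew4'⟩ := few_gen K n (by omega) hN0 hWin2
  obtain ⟨l2, hl2⟩ : ∃ l2, l2 = (totalWeight K : ℝ) * Real.log 2 := ⟨_, rfl⟩
  have hl20 : 0 ≤ l2 := by rw [hl2]; positivity
  obtain ⟨hz, hhz⟩ : ∃ hz, hz = logHeight₁ ζ := ⟨_, rfl⟩
  have hz0 : 0 ≤ hz := by rw [hhz]; exact ht_nn _
  refine ⟨(n + 1) * (B1 + 2) + 2 * B4, A1 + A2 + A3 + A4 + l2 + hz + 1, by positivity,
    fun G hP hd hN c hc' => ?_⟩
  obtain ⟨P, hPe⟩ : ∃ P, P = expand K (m + 1) G := ⟨_, rfl⟩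
  rw [← hPe] at hP hd hN hc'
  have hPh := hC58_nonneg n P
  have hLD : ∀ v : AbsoluteValue K ℝ, IsNonarchimedean v → v ((N : K) * ((n : K) + 1)) = 1 →
      LD v n P := fun v hna hv => to_LD hP hd (by omega) hN hna hv
  have hfew1 := hfew1' P hP hd hN c
  have hfew4 := hfew4' P hP hd hN c
  have hup := hup' P hP hd hN c
  have hzero := hzero' P hP hd hN c
  obtain ⟨h, hh⟩ : ∃ h, h = logHeight₁ c := ⟨_, rfl⟩
  have hh0 : 0 ≤ h := by rw [hh]; exact ht_nn c
  rw [← hh] at hc' hfew1 hfew4 hup hzero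
  have q1 : 0 ≤ A1 * (1 + hC58 n P) := by positivity
  have q2 : 0 ≤ A2 * (1 + hC58 n P) := by positivity
  have q3 : 0 ≤ A3 * (1 + hC58 n P) := by positivity
  have q4 : 0 ≤ A4 * (1 + hC58 n P) := by positivity
  have q5 : 0 ≤ (l2 + hz + 1) * hC58 n P := by positivity
  have e1 : (A1 + A2 + A3 + A4 + l2 + hz + 1) * (1 + hC58 n P) = A1 * (1 + hC58 n P) +
      A2 * (1 + hC58 n P) + A3 * (1 + hC58 n P) + A4 * (1 + hC58 n P) + (l2 + hz + 1) +
      (l2 + hz + 1) * hC58 n P := by ring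
  rw [e1] at hc'
  have h00 : ¬ PreP (fP P c) 0 := fun h0 => by
    have := hzero h0
    linarith
  have hup2 : ∀ x, PreP (fP P c) x → logHeight₁ x ≤ 2 * h - l2 - hz := fun x hx => by
    have := hup x hx
    linarith
  -- periodic points
  have c1 : ∀ S : Finset K, (∀ x ∈ S, x ∈ periodicPts (fP P c)) → S.card ≤ B1 + 2 := by
    intro S hS
    by_contra hlt
    push Not at hlt
    obtain ⟨y, hy, z, hz', hyz⟩ := Finset.one_lt_card.1 (by omega : 1 < S.card)
    have h1 : ((S.erase y).erase z).card ≤ B1 := by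
      have hyP := PreP.of_per (hS y hy)
      have hzP := PreP.of_per (hS z hz')
      have htwo : ∀ x ∈ (S.erase y).erase z, y - ζ * z ≠ 0 ∧
          TwoP n ζ T ((x - ζ * y) / (y - ζ * z)) := by
        intro x hx
        rw [Finset.mem_erase, Finset.mem_erase] at hx
        have g1 := hS x hx.2.2
        have g2 := hS y hy
        have g3 := hS z hz'
        rw [hPe] at g1 g2 g3 hLD
        exact sym_two hLD hT hζ hm g1 g2 g3 hx.2.1 hyz hx.1
      have hw : y - ζ * z ≠ 0 := by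
        have g2 := hS y hy
        have g3 := hS z hz'
        rw [hPe] at g2 g3
        exact sub_ne_zero.2 (ne_sym (Nat.succ_pos m) hζm g2 g3 hyz)
      have hy1 := hup2 y hyP
      have hz1 := hup2 z hzP
      have hyh := logHeight₁_mul_le ζ y
      have hzh := logHeight₁_mul_le ζ z
      have hsub := logHeight₁_sub_le y (ζ * z)
      rw [← hhz] at hyh hzh
      rw [← hl2] at hsub
      apply hfew1 (by linarith) (ζ * y) (y - ζ * z) hw (by linarith) (by linarith)
      intro x hx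
      refine ⟨?_, (htwo x hx).2⟩
      rw [Finset.mem_erase, Finset.mem_erase] at hx
      exact PreP.of_per (hS x hx.2.2)
    have h2 := Finset.card_erase_of_mem hy
    have h3 : z ∈ S.erase y := Finset.mem_erase.2 ⟨Ne.symm hyz, hz'⟩
    have h4 := Finset.card_erase_of_mem h3
    omega
  rw [← hPe]
  refine ⟨fun S hS => (c1 S hS).trans (by nlinarith), ?_⟩
  rintro ⟨y1, hy1, y2, hy2, hy12⟩ S hS
  -- points whose image is periodic
  have c2 : ∀ S₂ : Finset K, (∀ x ∈ S₂, fP P c x ∈ periodicPts (fP P c)) →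
      S₂.card ≤ (n + 1) * (B1 + 2) := by
    intro S₂ h₂
    calc S₂.card ≤ (n + 1) * (S₂.image (fP P c)).card := by
          apply Finset.card_le_mul_card_image
          intro a _
          refine card_quad (Q := P + C (c - a)) ?_ ?_ ?_
          · intro h0
            have h1 := congrArg natDegree h0
            rw [natDegree_add_C, natDegree_zero, hd] at h1
            omega
          · rw [natDegree_add_C, hd]
          · intro x hx
            rw [Finset.mem_filter] at hx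
            have h3 : P.eval x + c = a := hx.2
            rw [eval_add, eval_C]
            linear_combination h3
      _ ≤ (n + 1) * (B1 + 2) := by
          apply Nat.mul_le_mul_left
          apply c1
          intro x hx
          obtain ⟨t, ht, rfl⟩ := Finset.mem_image.1 hx
          exact h₂ t ht
  -- the tails seen from one periodic point
  have c3 : ∀ y ∈ periodicPts (fP P c), ∀ S₃ : Finset K, (∀ x ∈ S₃, PreP (fP P c) x ∧
      fP P c x ∉ periodicPts (fP P c) ∧ ∃ k : ℕ, 1 ≤ k ∧ ∃ w : K, w ∈ periodicPts (fP P c) ∧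
      (fP P c)^[k] x ≠ w ∧ fP P c ((fP P c)^[k] x) = fP P c w ∧ (fP P c)^[k] y ≠ w) →
      S₃.card ≤ B4 := by
    intro y hy S₃ h₃
    have hy0 : y ≠ 0 := by
      rintro rfl
      exact h00 (PreP.of_per hy)
    have hyh := hup2 y (PreP.of_per hy)
    apply hfew4 (by linarith) 0 y hy0 (by rw [logHeight₁_zero]; linarith) (by linarith)
    intro x hx
    obtain ⟨g1, g2, k, hk, w, g3, g4, g5, g6⟩ := h₃ x hx
    refine ⟨g1, ?_⟩
    have key : ∀ η : K, η ^ (m + 1) = 1 → x - ζ ^ 2 * y ≠ 0 ∧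
        (x - η * y) / (x - ζ ^ 2 * y) ≠ 0 ∧
        ∃ t ∈ T, ∃ b : K, (x - η * y) / (x - ζ ^ 2 * y) = t * b ^ n := by
      intro η hη
      rw [hPe] at g1 g2 g3 g4 g5 g6 hy hLD
      exact tail_two hLD hT hk g1 g2 hy g3 g4 g5 g6 hη hζ2m
    obtain ⟨k1, k2, t1, ht1, b1, hb1⟩ := key ζ hζm
    obtain ⟨-, k3, t2, ht2, b2, hb2⟩ := key 1 (one_pow _)
    rw [one_mul] at k3 hb2
    have e1 : (x - 0) / y - ζ = (x - ζ * y) / y := by field_simp; ring
    have e2 : (x - 0) / y - ζ ^ 2 = (x - ζ ^ 2 * y) / y := by field_simp; ring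
    have e3 : ((x - 0) / y - ζ) / ((x - 0) / y - ζ ^ 2) = (x - ζ * y) / (x - ζ ^ 2 * y) := by
      rw [e1, e2, div_div_div_cancel_right₀ hy0]
    have e4 : (1 + ζ) * ((x - ζ * y) / (x - ζ ^ 2 * y)) + -1 =
        ζ * ((x - y) / (x - ζ ^ 2 * y)) := by
      field_simp
      ring
    rw [hW2]
    refine ⟨?_, ?_⟩
    · intro h0
      apply k1
      rw [div_eq_iff hy0] at h0
      linear_combination h0
    · show TwoP n (-1) T' ((1 + ζ) * (((x - 0) / y - ζ) / ((x - 0) / y - ζ ^ 2)))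
      rw [e3]
      refine ⟨mul_ne_zero h1ζ k2, by rw [e4]; exact mul_ne_zero hζ0 k3, ?_, ?_⟩
      · refine ⟨(1 + ζ) * t1, ?_, b1, by rw [hb1]; ring⟩
        rw [hT', Finset.mem_union]
        exact Or.inl (Finset.mem_image_of_mem _ ht1)
      · rw [e4]
        refine ⟨ζ * t2, ?_, b2, by rw [hb2]; ring⟩
        rw [hT', Finset.mem_union]
        exact Or.inr (Finset.mem_image_of_mem _ ht2)
  rw [← Finset.card_filter_add_card_filter_not (fun x => fP P c x ∈ periodicPts (fP P c))]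
  apply Nat.add_le_add
  · apply c2
    intro x hx
    rw [Finset.mem_filter] at hx
    exact hx.2
  · obtain ⟨S₃, hS₃⟩ : ∃ S₃, S₃ = S.filter fun x => ¬ fP P c x ∈ periodicPts (fP P c) := ⟨_, rfl⟩
    rw [← hS₃]
    have hS₃' : ∀ x ∈ S₃, PreP (fP P c) x ∧ fP P c x ∉ periodicPts (fP P c) := by
      intro x hx
      rw [hS₃, Finset.mem_filter] at hx
      exact ⟨hS x hx.1, hx.2⟩
    obtain ⟨U, hU⟩ : ∃ U : K → K → Prop, U = fun y x => ∃ k : ℕ, 1 ≤ k ∧ ∃ w : K,
      w ∈ periodicPts (fP P c) ∧ (fP P c)^[k] x ≠ w ∧ fP P c ((fP P c)^[k] x) = fP P c w ∧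
        (fP P c)^[k] y ≠ w := ⟨_, rfl⟩
    have hsplit : S₃ = S₃.filter (fun x => U y1 x) ∪ S₃.filter (fun x => U y2 x) := by
      ext x
      rw [Finset.mem_union, Finset.mem_filter, Finset.mem_filter, ← and_or_left]
      refine ⟨fun hx => ⟨hx, ?_⟩, fun hx => hx.1⟩
      obtain ⟨g1, g2⟩ := hS₃' x hx
      obtain ⟨k, hk, w, g3, g4, g5⟩ := tail_data2 g1 g2
      rw [hU]
      by_cases hyw : (fP P c)^[k] y1 = w
      · right
        refine ⟨k, hk, w, g3, g4, g5, fun h' => hy12 ?_⟩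
        exact fP_iter_inj hy1 hy2 (hyw.trans h'.symm)
      · left
        exact ⟨k, hk, w, g3, g4, g5, hyw⟩
    rw [hsplit]
    refine (Finset.card_union_le _ _).trans ?_
    rw [two_mul]
    apply Nat.add_le_add
    · apply c3 y1 hy1
      intro x hx
      rw [Finset.mem_filter, hU] at hx
      exact ⟨(hS₃' x hx.1).1, (hS₃' x hx.1).2, hx.2⟩
    · apply c3 y2 hy2
      intro x hx
      rw [Finset.mem_filter, hU] at hx
      exact ⟨(hS₃' x hx.1).1, (hS₃' x hx.1).2, hx.2⟩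

end count

end Pool.Agent.KS6_58
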