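import Pool.Agent.KS6_58.PT3
import Pool.Agent.KS6_58.Main2

/-!
# Reduction to monic polynomials and counting
-/

set_option autoImplicit false

namespace Pool.Agent.KS6_58

open Function Polynomial Height Height.AdmissibleAbsValues NumberField

section scale

/-- conjugation to a monic polynomial over an extension -/
theorem exists_scale {K : Type} [Field K] [NumberField K] {n : ℕ} (hn : 1 ≤ n) {P : K[X]}
    (hd : P.natDegree = n + 1) : ∃ (L : Type) (_ : Field L) (_ : Algebra K L) (_ : NumberField L)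
      (α : L) (Q : L[X]), α ≠ 0 ∧ Q.Monic ∧ Q.natDegree = n + 1 ∧
      (Q = C α * (P.map (algebraMap K L)).comp (C α⁻¹ * X)) ∧
      ∀ c x : K, α * algebraMap K L (P.eval x + c) =
        Q.eval (α * algebraMap K L x) + α * algebraMap K L c := by
  have hP0 : P ≠ 0 := by
    rintro rfl
    rw [natDegree_zero] at hd
    omega
  have ha : P.leadingCoeff ≠ 0 := leadingCoeff_ne_zero.2 hP0
  obtain ⟨L, hF, hAlg, hNF, hL⟩ := exists_ext (K := K) (n := n) (by omega) {P.leadingCoeff}
  obtain ⟨α, hα⟩ := exists_root (by omega : 0 < n) (hL P.leadingCoeff (by simp))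
  have hα0 : α ≠ 0 := by
    rintro rfl
    rw [zero_pow (by omega), eq_comm, map_eq_zero] at hα
    exact ha hα
  have hdm : (P.map (algebraMap K L)).natDegree = n + 1 := by
    rw [natDegree_map, hd]
  have hlin : (C α⁻¹ * X : L[X]).natDegree = 1 := by
    rw [natDegree_C_mul (inv_ne_zero hα0), natDegree_X]
  have hQd : (C α * (P.map (algebraMap K L)).comp (C α⁻¹ * X)).natDegree = n + 1 := by
    rw [natDegree_C_mul hα0, natDegree_comp, hlin, hdm, mul_one]
  refine ⟨L, hF, hAlg, hNF, α, _, hα0, ?_, hQd, rfl, fun c x => ?_⟩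
  · have h1 : (C α * (P.map (algebraMap K L)).comp (C α⁻¹ * X)).coeff (n + 1) = 1 := by
      rw [coeff_C_mul, comp_C_mul_X_coeff, coeff_map, ← hd, coeff_natDegree, hd, ← hα, pow_succ,
        inv_pow]
      field_simp
    rw [Monic, leadingCoeff, hQd, h1]
  · simp only [eval_mul, eval_C, eval_comp, eval_X, inv_mul_cancel_left₀ hα0]
    rw [eval_map, eval₂_at_apply, map_add]
    ring

lemma minPer_of_semiconj {A B : Type} {f : A → A} {g : B → B} {φ : A → B} (hφ : Injective φ)
    (h : Semiconj φ f g) (x : A) : minimalPeriod g (φ x) = minimalPeriod f x := by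
  rw [minimalPeriod_eq_minimalPeriod_iff]
  intro m
  unfold IsPeriodicPt IsFixedPt
  rw [← h.iterate_right m x, hφ.eq_iff]

end scale

section final

variable {K : Type} [Field K] [NumberField K]

omit [Field K] [NumberField K] in
/-- from prime powers to the odd part -/
lemma odd_le {B m L : ℕ} (hm : Odd m) (hdvd : m ∣ L)
    (h : ∀ p b : ℕ, p.Prime → p ≠ 2 → p ^ b ∣ L → p ^ b ≤ B) : m ≤ B.factorial := by
  apply Nat.le_of_dvd (Nat.factorial_pos B)
  rw [Nat.dvd_iff_prime_pow_dvd_dvd]
  intro p k hp hpk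
  rcases Nat.eq_zero_or_pos k with rfl | hk
  · rw [pow_zero]; exact one_dvd _
  have hp2 : p ≠ 2 := by
    rintro rfl
    have h1 : 2 ∣ m := dvd_trans (dvd_pow_self 2 (by omega)) hpk
    rw [← Nat.not_even_iff_odd] at hm
    exact hm (even_iff_two_dvd.2 h1)
  exact Nat.dvd_factorial (pow_pos hp.pos k) (h p k hp hp2 (hpk.trans hdvd))

/-- **the odd part of the length of a cycle is bounded, uniformly in the polynomial** -/
theorem odd_part_unif (K : Type) [Field K] [NumberField K] {d N : ℕ} (hd : 6 ≤ d) (hN : N ≠ 0) :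
    ∃ (B : ℕ) (A : ℝ), ∀ P : K[X], P.Monic → P.natDegree = d →
      (∀ i, ∃ k : ℕ, IsIntegral ℤ ((N : K) ^ k * P.coeff i)) → ∀ c : K,
      A * (1 + ∑ i ∈ Finset.range d, logHeight₁ (P.coeff i)) ≤ logHeight₁ c → ∀ x : K,
      x ∈ periodicPts (fun y : K => P.eval y + c) → ∀ m : ℕ, Odd m →
      m ∣ minimalPeriod (fun y : K => P.eval y + c) x → m ≤ B := by
  obtain ⟨n, rfl⟩ : ∃ n, d = n + 1 := ⟨d - 1, by omega⟩
  obtain ⟨B, A, -, hB⟩ := cyc_pow K n (by omega) hN
  exact ⟨B.factorial, A, fun P hP hPd hPN c hc x hx m hm hdvd =>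
    odd_le hm hdvd fun p b hp hp2 hpb => hB P hP hPd hPN c hc x hx p b hp hp2 hpb⟩

/-- **the odd part of the length of a cycle is bounded** -/
theorem odd_part (P : K[X]) (hd : 6 ≤ P.natDegree) : ∃ B : ℕ, ∀ c x : K,
    x ∈ periodicPts (fun y : K => P.eval y + c) → ∀ m : ℕ, Odd m →
      m ∣ minimalPeriod (fun y : K => P.eval y + c) x → m ≤ B := by
  obtain ⟨n, hn⟩ : ∃ n, P.natDegree = n + 1 := ⟨P.natDegree - 1, by omega⟩
  obtain ⟨L, hF, hAlg, hNF, α, Q, hα0, hQm, hQd, -, hQ⟩ := exists_scale (by omega : 1 ≤ n) hn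
  obtain ⟨N, hN0, hN⟩ := exists_N Q
  obtain ⟨B, A, -, hB⟩ := cyc_pow L n (by omega) hN0
  obtain ⟨B', hB'⟩ := per_small hQm hQd (by omega) (A * (1 + hC58 n Q))
  refine ⟨max B.factorial B', fun c x hx m hm hdvd => ?_⟩
  have hinj : Function.Injective (fun x : K => α * algebraMap K L x) := fun x y h =>
    (algebraMap K L).injective (mul_left_cancel₀ hα0 h)
  have hs : Function.Semiconj (fun x : K => α * algebraMap K L x) (fun y : K => P.eval y + c)
      (fP Q (α * algebraMap K L c)) := by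
    intro t
    exact hQ c t
  have hmp := minPer_of_semiconj hinj hs x
  have hx' : α * algebraMap K L x ∈ periodicPts (fP Q (α * algebraMap K L c)) := by
    rw [← minimalPeriod_pos_iff_mem_periodicPts] at hx ⊢
    rw [hmp]
    exact hx
  rw [← hmp] at hdvd
  rcases lt_or_ge (logHeight₁ (α * algebraMap K L c)) (A * (1 + hC58 n Q)) with h | h
  · refine le_trans ?_ (le_max_right _ _)
    refine (Nat.le_of_dvd (minimalPeriod_pos_of_mem_periodicPts hx') hdvd).trans ?_
    exact minPer_le_of_card (hB' _ h) hx'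
  · refine le_trans ?_ (le_max_left _ _)
    exact odd_le hm hdvd fun p b hp hp2 hpb => hB Q hQm hQd hN _ h _ hx' p b hp hp2 hpb

omit [NumberField K] in
/-- points of bounded period -/
lemma card_per (P : K[X]) (hd : 2 ≤ P.natDegree) (N : ℕ) : ∃ B : ℕ, ∀ c : K,
    ∀ S : Finset K, (∀ x ∈ S, ∃ j, 1 ≤ j ∧ j ≤ N ∧ (fun y : K => P.eval y + c)^[j] x = x) →
      S.card ≤ B := by
  classical
  refine ⟨∑ j ∈ Finset.range (N + 1), P.natDegree ^ j, fun c S hS => ?_⟩
  obtain ⟨F, hF⟩ : ∃ F : K[X], F = P + C c := ⟨_, rfl⟩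
  have hFd : F.natDegree = P.natDegree := by
    rw [hF, natDegree_add_C]
  have hfe : ∀ (j : ℕ) (x : K), (fun y : K => P.eval y + c)^[j] x = (F.comp^[j] X).eval x := by
    intro j x
    rw [iterate_comp_eval]
    have : (fun y : K => P.eval y + c) = fun x => F.eval x := by
      funext y
      rw [hF, eval_add, eval_C]
    rw [this, eval_X]
  have hsub : S ⊆ (Finset.range (N + 1)).biUnion fun j =>
      if 1 ≤ j then S.filter fun x => (fun y : K => P.eval y + c)^[j] x = x else ∅ := by
    intro x hx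
    obtain ⟨j, hj1, hjN, hj⟩ := hS x hx
    rw [Finset.mem_biUnion]
    refine ⟨j, Finset.mem_range.2 (by omega), ?_⟩
    rw [if_pos hj1, Finset.mem_filter]
    exact ⟨hx, hj⟩
  refine (Finset.card_le_card hsub).trans (Finset.card_biUnion_le.trans ?_)
  apply Finset.sum_le_sum
  intro j _
  split_ifs with h
  · have hdeg : (F.comp^[j] X).natDegree = P.natDegree ^ j := by
      rw [natDegree_iterate_comp, hFd, natDegree_X, mul_one]
    have h2 : 2 ≤ P.natDegree ^ j := by
      calc 2 ≤ P.natDegree := hd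
        _ = P.natDegree ^ 1 := (pow_one _).symm
        _ ≤ P.natDegree ^ j := Nat.pow_le_pow_right (by omega) h
    apply card_quad (Q := F.comp^[j] X - X)
    · intro h0
      have h1 : (F.comp^[j] X).natDegree = (X : K[X]).natDegree := by rw [sub_eq_zero.1 h0]
      rw [hdeg, natDegree_X] at h1
      omega
    · refine (natDegree_sub_le _ _).trans (max_le hdeg.le ?_)
      rw [natDegree_X]
      omega
    · intro x hx
      rw [Finset.mem_filter] at hx
      rw [eval_sub, ← hfe, hx.2, eval_X, sub_self]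
  · simp

/-- **points whose period is not divisible by a given power of two** -/
theorem odd_count (P : K[X]) (hd : 6 ≤ P.natDegree) (a : ℕ) : ∃ B : ℕ, ∀ c : K,
    {x : K | x ∈ periodicPts (fun y : K => P.eval y + c) ∧
      ¬ 2 ^ a ∣ minimalPeriod (fun y : K => P.eval y + c) x}.encard ≤ B := by
  obtain ⟨B, hB⟩ := odd_part P hd
  obtain ⟨B', hB'⟩ := card_per P (by omega) (2 ^ a * B)
  refine ⟨B', fun c => encard_le fun S hS => hB' c S fun x hx => ?_⟩
  obtain ⟨h1, h2⟩ := hS x hx
  have hpos := minimalPeriod_pos_of_mem_periodicPts h1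
  refine ⟨minimalPeriod (fun y : K => P.eval y + c) x, hpos, ?_,
    isPeriodicPt_minimalPeriod _ x⟩
  obtain ⟨e, m, hm, hem⟩ := Nat.exists_eq_two_pow_mul_odd hpos.ne'
  have h3 := hB c x h1 m hm (by rw [hem]; exact dvd_mul_left _ _)
  rw [hem]
  have h4 : 2 ^ e ≤ 2 ^ a := by
    apply Nat.pow_le_pow_right (by omega)
    by_contra h
    push Not at h
    apply h2
    rw [hem]
    exact dvd_mul_of_dvd_left (pow_dvd_pow 2 h.le) m
  exact Nat.mul_le_mul h4 h3

end final

end Pool.Agent.KS6_58
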