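import Pool.Agent.KS6_58.PT2b
import Pool.Agent.KS6_58.PT3b

/-!
# Polynomials in x^m: descent to the ground field
-/

set_option autoImplicit false

namespace Pool.Agent.KS6_58

open Function Polynomial Height Height.AdmissibleAbsValues NumberField

section desc

variable {K L : Type} [Field K] [NumberField K] [Field L] [NumberField L] [Algebra K L]

omit [NumberField K] [NumberField L] in
lemma SInt.map {N : ℕ} {x : K} (h : SInt N x) : SInt N (algebraMap K L x) := by
  obtain ⟨k, hk⟩ := h
  refine ⟨k, ?_⟩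
  have h1 := hk.map (algebraMap K L).toIntAlgHom
  simpa using h1

lemma hC58_map (n : ℕ) (P : K[X]) :
    hC58 n (P.map (algebraMap K L)) = Module.finrank K L * hC58 n P := by
  unfold hC58
  rw [Finset.mul_sum]
  exact Finset.sum_congr rfl fun i _ => by rw [coeff_map, ht_rel]

omit [NumberField K] [NumberField L] in
lemma fP_map (P : K[X]) (c x : K) : algebraMap K L (fP P c x) =
    fP (P.map (algebraMap K L)) (algebraMap K L c) (algebraMap K L x) := by
  unfold fP
  rw [map_add, eval_map, eval₂_at_apply]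

omit [NumberField K] [NumberField L] in
lemma fP_map_iter (P : K[X]) (c x : K) (j : ℕ) : algebraMap K L ((fP P c)^[j] x) =
    (fP (P.map (algebraMap K L)) (algebraMap K L c))^[j] (algebraMap K L x) := by
  induction j with
  | zero => rfl
  | succ j ih => rw [iterate_succ_apply', fP_map, ih, iterate_succ_apply']

omit [NumberField K] [NumberField L] in
lemma per_mapP {P : K[X]} {c x : K} (h : x ∈ periodicPts (fP P c)) : algebraMap K L x ∈
    periodicPts (fP (P.map (algebraMap K L)) (algebraMap K L c)) := by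
  obtain ⟨j, hj, hj2⟩ := h
  refine ⟨j, hj, ?_⟩
  unfold IsPeriodicPt IsFixedPt at *
  rw [← fP_map_iter, hj2]

omit [NumberField K] [NumberField L] in
lemma pre_mapP {P : K[X]} {c x : K} (h : PreP (fP P c) x) :
    PreP (fP (P.map (algebraMap K L)) (algebraMap K L c)) (algebraMap K L x) := by
  obtain ⟨a, b, hab, h1⟩ := h
  refine ⟨a, b, hab, ?_⟩
  rw [← fP_map_iter, ← fP_map_iter, h1]

omit [NumberField K] [NumberField L] in
lemma expand_mapp (m : ℕ) (G : K[X]) : (expand K m G).map (algebraMap K L) =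
    expand L m (G.map (algebraMap K L)) := by
  rw [map_expand]

end desc

/-- descent along an extension which contains the roots of unity -/
theorem sym_desc0 (K L : Type) [Field K] [NumberField K] [Field L] [NumberField L] [Algebra K L]
    (n m : ℕ) (hn : 5 ≤ n) (hm : 2 ≤ m) {ζ : L} (hζ : IsPrimitiveRoot ζ (m + 1))
    {N : ℕ} (hN0 : N ≠ 0) :
    ∃ (B : ℕ) (A : ℝ), 0 ≤ A ∧ ∀ G : K[X], (expand K (m + 1) G).Monic →
      (expand K (m + 1) G).natDegree = n + 1 → (∀ i, SInt N ((expand K (m + 1) G).coeff i)) →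
      ∀ c : K, A * (1 + hC58 n (expand K (m + 1) G)) ≤ logHeight₁ c →
      (∀ S : Finset K, (∀ x ∈ S, x ∈ periodicPts (fP (expand K (m + 1) G) c)) → S.card ≤ B) ∧
      ((∃ y ∈ periodicPts (fP (expand K (m + 1) G) c),
        ∃ z ∈ periodicPts (fP (expand K (m + 1) G) c), y ≠ z) →
        ∀ S : Finset K, (∀ x ∈ S, PreP (fP (expand K (m + 1) G) c) x) → S.card ≤ B) := by
  classical
  obtain ⟨B, A, hA0, hB⟩ := sym_main L n m hn hm hζ hN0
  refine ⟨B, A, hA0, fun G hG hGd hGN c hc => ?_⟩
  have hinj : Function.Injective (algebraMap K L) := (algebraMap K L).injective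
  have hD : (1 : ℝ) ≤ Module.finrank K L := by
    exact_mod_cast Module.finrank_pos (R := K) (M := L)
  have e0 := expand_mapp (K := K) (L := L) (m + 1) G
  obtain ⟨h1, h2⟩ := hB (G.map (algebraMap K L)) (by rw [← e0]; exact hG.map _)
    (by rw [← e0, natDegree_map, hGd]) (fun i => by rw [← e0, coeff_map]; exact (hGN i).map)
    (algebraMap K L c) (by
      rw [← e0, hC58_map, ht_rel]
      have h3 : 0 ≤ hC58 n (expand K (m + 1) G) := hC58_nonneg _ _
      calc A * (1 + Module.finrank K L * hC58 n (expand K (m + 1) G))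
          ≤ A * (Module.finrank K L * (1 + hC58 n (expand K (m + 1) G))) := by
            apply mul_le_mul_of_nonneg_left _ hA0
            linarith
        _ = Module.finrank K L * (A * (1 + hC58 n (expand K (m + 1) G))) := by ring
        _ ≤ Module.finrank K L * logHeight₁ c := by gcongr)
  rw [← e0] at h1 h2
  constructor
  · intro S hS
    rw [← Finset.card_image_of_injective S hinj]
    apply h1
    intro x hx
    obtain ⟨y, hy, rfl⟩ := Finset.mem_image.1 hx
    exact per_mapP (hS y hy)
  · rintro ⟨y, hy, z, hz, hyz⟩ S hS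
    rw [← Finset.card_image_of_injective S hinj]
    apply h2 ⟨_, per_mapP hy, _, per_mapP hz, fun h => hyz (hinj h)⟩
    intro x hx
    obtain ⟨y, hy, rfl⟩ := Finset.mem_image.1 hx
    exact pre_mapP (hS y hy)

/-- the theorem over a field that need not contain the roots of unity -/
theorem sym_desc (K : Type) [Field K] [NumberField K] (n m : ℕ) (hn : 5 ≤ n) (hm : 3 ≤ m)
    {N : ℕ} (hN0 : N ≠ 0) :
    ∃ (B : ℕ) (A : ℝ), 0 ≤ A ∧ ∀ G : K[X], (expand K m G).Monic →
      (expand K m G).natDegree = n + 1 → (∀ i, SInt N ((expand K m G).coeff i)) →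
      ∀ c : K, A * (1 + hC58 n (expand K m G)) ≤ logHeight₁ c →
      (∀ S : Finset K, (∀ x ∈ S, x ∈ periodicPts (fP (expand K m G) c)) → S.card ≤ B) ∧
      ((∃ y ∈ periodicPts (fP (expand K m G) c),
        ∃ z ∈ periodicPts (fP (expand K m G) c), y ≠ z) →
        ∀ S : Finset K, (∀ x ∈ S, PreP (fP (expand K m G) c) x) → S.card ≤ B) := by
  obtain ⟨m, rfl⟩ : ∃ k, m = k + 1 := ⟨m - 1, by omega⟩
  have : NeZero (m + 1) := ⟨by omega⟩
  have : NumberField (CyclotomicField (m + 1) K) := IsCyclotomicExtension.numberField {m + 1} K _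
  obtain ⟨ζ, hζ⟩ := IsCyclotomicExtension.exists_isPrimitiveRoot K (CyclotomicField (m + 1) K)
    (Set.mem_singleton (m + 1)) (by omega)
  exact sym_desc0 K (CyclotomicField (m + 1) K) n m hn (by omega) hζ hN0

section final

variable {K : Type} [Field K] [NumberField K]

/-- **periodic points of polynomials in x^m, uniformly in the polynomial** -/
theorem sym_unif (K : Type) [Field K] [NumberField K] {m e N : ℕ} (hm : 3 ≤ m) (he : 6 ≤ m * e)
    (hN : N ≠ 0) :
    ∃ (B : ℕ) (A : ℝ), ∀ G : K[X], G.Monic → G.natDegree = e →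
      (∀ i, ∃ k : ℕ, IsIntegral ℤ ((N : K) ^ k * G.coeff i)) → ∀ c : K,
      A * (1 + ∑ i ∈ Finset.range e, logHeight₁ (G.coeff i)) ≤ logHeight₁ c →
      {x : K | x ∈ periodicPts (fun y : K => G.eval (y ^ m) + c)}.encard ≤ B ∧
      (1 < {x : K | x ∈ periodicPts (fun y : K => G.eval (y ^ m) + c)}.encard →
        {x : K | PreP (fun y : K => G.eval (y ^ m) + c) x}.encard ≤ B) := by
  obtain ⟨n, hn⟩ : ∃ n, m * e = n + 1 := ⟨m * e - 1, by omega⟩
  obtain ⟨B, A, hA0, hB⟩ := sym_desc K n m (by omega) hm hN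
  refine ⟨B, A * (n + 1), fun G hG hGe hGN c hc => ?_⟩
  have hm0 : 0 < m := by omega
  have hcoef : ∀ i, (expand K m G).coeff i = if m ∣ i then G.coeff (i / m) else 0 :=
    fun i => coeff_expand hm0 G i
  have h1 : (expand K m G).Monic := hG.expand hm0
  have h2 : (expand K m G).natDegree = n + 1 := by
    rw [natDegree_expand, hGe, ← hn, mul_comm]
  have h3 : ∀ i, SInt N ((expand K m G).coeff i) := by
    intro i
    rw [hcoef]
    split_ifs
    · exact hGN _
    · exact ⟨0, by simpa using isIntegral_zero⟩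
  have h4 : hC58 n (expand K m G) ≤ (n + 1) * ∑ i ∈ Finset.range e, logHeight₁ (G.coeff i) := by
    unfold hC58
    refine (Finset.sum_le_card_nsmul _ _ (∑ i ∈ Finset.range e, logHeight₁ (G.coeff i))
      fun i hi => ?_).trans (by rw [Finset.card_range, nsmul_eq_mul]; push_cast; exact le_rfl)
    rw [hcoef]
    split_ifs with hdv
    · obtain ⟨j, rfl⟩ := hdv
      rw [Nat.mul_div_cancel_left _ hm0]
      apply Finset.single_le_sum (f := fun i => logHeight₁ (G.coeff i)) (fun _ _ => ht_nn _)
      rw [Finset.mem_range] at hi ⊢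
      rw [← hn] at hi
      exact lt_of_mul_lt_mul_left hi (by omega)
    · rw [show logHeight₁ (0 : K) = 0 by simp]
      exact Finset.sum_nonneg fun _ _ => ht_nn _
  have hs0 : 0 ≤ ∑ i ∈ Finset.range e, logHeight₁ (G.coeff i) :=
    Finset.sum_nonneg fun _ _ => ht_nn _
  have h5 : A * (1 + hC58 n (expand K m G)) ≤ logHeight₁ c := by
    refine le_trans ?_ hc
    rw [mul_assoc]
    apply mul_le_mul_of_nonneg_left _ hA0
    have : (0 : ℝ) ≤ n := Nat.cast_nonneg _
    nlinarith
  have hfun : fP (expand K m G) c = fun y : K => G.eval (y ^ m) + c := by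
    funext y
    unfold fP
    rw [expand_eval]
  obtain ⟨h6, h7⟩ := hB G h1 h2 h3 c h5
  rw [hfun] at h6 h7
  refine ⟨encard_le fun S hS => h6 S hS, fun h8 => ?_⟩
  obtain ⟨y, z, hy, hz, hyz⟩ := Set.one_lt_encard_iff.1 h8
  exact encard_le fun S hS => h7 ⟨y, hy, z, hz, hyz⟩ S hS

/-- **periodic points of polynomials in x^m** -/
theorem sym_fixed (m : ℕ) (hm : 3 ≤ m) (G : K[X]) (he : 6 ≤ m * G.natDegree) :
    ∃ B : ℕ, ∀ c : K,
      {x : K | x ∈ periodicPts (fun y : K => G.eval (y ^ m) + c)}.encard ≤ B ∧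
      (1 < {x : K | x ∈ periodicPts (fun y : K => G.eval (y ^ m) + c)}.encard →
        {x : K | PreP (fun y : K => G.eval (y ^ m) + c) x}.encard ≤ B) := by
  classical
  have hm0 : 0 < m := by omega
  obtain ⟨n, hn⟩ : ∃ n, m * G.natDegree = n + 1 := ⟨m * G.natDegree - 1, by omega⟩
  have hPd : (expand K m G).natDegree = n + 1 := by
    rw [natDegree_expand, mul_comm, hn]
  obtain ⟨L, hF, hAlg, hNF, α, Q, hα0, hQm, hQd, hQ0, hQ⟩ := exists_scale (by omega : 1 ≤ n) hPd
  have hQe : Q = expand L m (C α * (G.map (algebraMap K L)).comp (C (α⁻¹ ^ m) * X)) := by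
    rw [hQ0, expand_mapp, expand_eq_comp_X_pow, expand_eq_comp_X_pow, mul_comp, C_comp,
      Polynomial.comp_assoc, Polynomial.comp_assoc, pow_comp, X_comp, mul_comp, C_comp, X_comp, mul_pow, ← C_pow]
  obtain ⟨N, hN0, hN⟩ := exists_N Q
  obtain ⟨B, A, -, hB⟩ := sym_desc L n m (by omega) hm hN0
  obtain ⟨B', hB'⟩ := per_small hQm hQd (by omega) (A * (1 + hC58 n Q))
  have hinj : Function.Injective (fun x : K => α * algebraMap K L x) := fun x y h =>
    (algebraMap K L).injective (mul_left_cancel₀ hα0 h)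
  refine ⟨max B B', fun c => ?_⟩
  have hs : Function.Semiconj (fun x : K => α * algebraMap K L x)
      (fun y : K => G.eval (y ^ m) + c) (fP Q (α * algebraMap K L c)) := by
    intro t
    have := hQ c t
    rw [expand_eval] at this
    exact this
  have hper : ∀ x : K, x ∈ periodicPts (fun y : K => G.eval (y ^ m) + c) →
      α * algebraMap K L x ∈ periodicPts (fP Q (α * algebraMap K L c)) := by
    intro x hx
    rw [← minimalPeriod_pos_iff_mem_periodicPts] at hx ⊢
    rw [minPer_of_semiconj hinj hs x]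
    exact hx
  have hpre : ∀ x : K, PreP (fun y : K => G.eval (y ^ m) + c) x →
      PreP (fP Q (α * algebraMap K L c)) (α * algebraMap K L x) := by
    rintro x ⟨a, b, hab, h⟩
    refine ⟨a, b, hab, ?_⟩
    have e1 := (hs.iterate_right a).eq x
    have e2 := (hs.iterate_right b).eq x
    rw [← e1, ← e2, h]
  rcases lt_or_ge (logHeight₁ (α * algebraMap K L c)) (A * (1 + hC58 n Q)) with h | h
  · have h1 := hB' _ h
    constructor
    · apply encard_le
      intro S hS
      refine le_trans ?_ (le_max_right _ _)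
      rw [← Finset.card_image_of_injective S hinj]
      apply h1
      intro x hx
      obtain ⟨y, hy, rfl⟩ := Finset.mem_image.1 hx
      obtain ⟨j, hj, hj2⟩ := hper y (hS y hy)
      exact ⟨0, j, hj, hj2.symm⟩
    · intro _
      apply encard_le
      intro S hS
      refine le_trans ?_ (le_max_right _ _)
      rw [← Finset.card_image_of_injective S hinj]
      apply h1
      intro x hx
      obtain ⟨y, hy, rfl⟩ := Finset.mem_image.1 hx
      exact hpre y (hS y hy)
  · rw [hQe] at hQm hQd hN h hper hpre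
    rw [hQe] at hB'
    obtain ⟨h1, h2⟩ := hB _ hQm hQd hN _ h
    constructor
    · apply encard_le
      intro S hS
      refine le_trans ?_ (le_max_left _ _)
      rw [← Finset.card_image_of_injective S hinj]
      apply h1
      intro x hx
      obtain ⟨y, hy, rfl⟩ := Finset.mem_image.1 hx
      exact hper y (hS y hy)
    · intro h8
      obtain ⟨y, z, hy, hz, hyz⟩ := Set.one_lt_encard_iff.1 h8
      apply encard_le
      intro S hS
      refine le_trans ?_ (le_max_left _ _)
      rw [← Finset.card_image_of_injective S hinj]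
      apply h2 ⟨_, hper y hy, _, hper z hz, fun h => hyz (hinj h)⟩
      intro x hx
      obtain ⟨y, hy, rfl⟩ := Finset.mem_image.1 hx
      exact hpre y (hS y hy)

end final

end Pool.Agent.KS6_58
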