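import Pool.Agent.KS6_58.PF

/-!
# The odd part of the lengths of the cycles of `P(x) + c` is bounded
-/

set_option autoImplicit false

namespace Pool.Agent.KS6_58

open Function Polynomial Height Height.AdmissibleAbsValues Pool.Agent.H437R2.Man NumberField

section orbit

variable {K : Type} [Field K] {v : AbsoluteValue K ℝ} {n : ℕ} {P : K[X]} {c : K}

/-- telescoping at a good place -/
lemma LD.tele (h : LD v n P) (hc : v c ≤ 1) {x : K} (hx : x ∈ periodicPts (fP P c)) (m j : ℕ) :
    v ((fP P c)^[j * m] x - x) ≤ v ((fP P c)^[m] x - x) := by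
  induction j with
  | zero => simp
  | succ j ih =>
    have e : (fP P c)^[(j + 1) * m] x - x = ((fP P c)^[j * m] ((fP P c)^[m] x) -
        (fP P c)^[j * m] x) + ((fP P c)^[j * m] x - x) := by
      rw [← iterate_add_apply, show j * m + m = (j + 1) * m by ring]
      ring
    rw [e]
    refine (h.na _ _).trans (max_le ?_ ih)
    rw [h.gd_per hc (per_iter hx m) hx]

/-- the differences inside a cycle at a good place -/
lemma LD.orb (h : LD v n P) (hc : v c ≤ 1) {x : K} (hx : x ∈ periodicPts (fP P c)) {p b M : ℕ}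
    (hp : p.Prime) (hb : 1 ≤ b) (hper : (fP P c)^[p ^ b * M] x = x) {j : ℕ} (hj : ¬ p ∣ j) :
    v ((fP P c)^[j * M] x - x) = v ((fP P c)^[M] x - x) := by
  apply le_antisymm (h.tele hc hx M j)
  obtain ⟨l, -, hl⟩ := Nat.exists_mul_mod_eq_one_of_coprime (n := j) (k := p ^ b)
    (((Nat.Prime.coprime_iff_not_dvd hp).2 hj).symm.pow_right b)
    (Nat.one_lt_pow (by omega) hp.one_lt)
  have h1 := h.tele hc hx (j * M) l
  have h2 : j * l = 1 + p ^ b * (j * l / p ^ b) := by
    have := Nat.mod_add_div (j * l) (p ^ b)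
    omega
  have h3 : l * (j * M) = M + (j * l / p ^ b) * (p ^ b * M) := by
    calc l * (j * M) = (j * l) * M := by ring
      _ = (1 + p ^ b * (j * l / p ^ b)) * M := by rw [← h2]
      _ = _ := by ring
  have h4 : (fP P c)^[(j * l / p ^ b) * (p ^ b * M)] x = x := by
    have : IsPeriodicPt (fP P c) (p ^ b * M) x := hper
    exact this.const_mul _
  rw [h3, iterate_add_apply, h4] at h1
  exact h1

end orbit

section cycles

variable {K : Type} [Field K] [NumberField K] {n : ℕ} {P : K[X]}

omit [NumberField K] in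
lemma fP_iter_inj {c x y : K} (hx : x ∈ periodicPts (fP P c)) (hy : y ∈ periodicPts (fP P c))
    {k : ℕ} (h : (fP P c)^[k] x = (fP P c)^[k] y) : x = y := by
  induction k with
  | zero => exact h
  | succ k ih =>
    rw [iterate_succ_apply', iterate_succ_apply'] at h
    exact ih ((bijOn_periodicPts (fP P c)).injOn (per_iter hx _) (per_iter hy _) h)

omit [NumberField K] in
/-- the three term relation inside a cycle -/
lemma orbit_two {D : K} (hLD : ∀ v : AbsoluteValue K ℝ, IsNonarchimedean v → v D = 1 → LD v n P)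
    {T : Finset K}
    (hT : ∀ a : K, a ≠ 0 →
      (∀ v : AbsoluteValue K ℝ, IsNonarchimedean v → v D = 1 →
        ∃ z : K, z ≠ 0 ∧ v a = v (z ^ n)) → ∃ t ∈ T, ∃ b : K, a = t * b ^ n)
    {c x : K} (hx : x ∈ periodicPts (fP P c)) {p b M k : ℕ} (hp : p.Prime) (hb : 1 ≤ b)
    (hN : minimalPeriod (fP P c) x = p ^ b * M) (hM : 0 < M) (hk : k < p ^ b) (hk2 : 2 ≤ k)
    (hk0 : ¬ p ∣ k) (hk1 : ¬ p ∣ (k - 1)) :
    (fP P c)^[M] x - x ≠ 0 ∧
      TwoP n (-1) T (((fP P c)^[k * M] x - x) / ((fP P c)^[M] x - x)) := by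
  have hper : (fP P c)^[p ^ b * M] x = x := by
    have := isPeriodicPt_minimalPeriod (fP P c) x
    rw [hN] at this
    exact this
  have hinj := iterate_injOn_Iio_minimalPeriod (f := fP P c) (x := x)
  have hlt : ∀ j, j < p ^ b → j * M < minimalPeriod (fP P c) x := by
    intro j hj
    rw [hN]
    exact Nat.mul_lt_mul_of_pos_right hj hM
  have hq : 1 < p ^ b := Nat.one_lt_pow (by omega) hp.one_lt
  have hne : ∀ i j, i < p ^ b → j < p ^ b → i ≠ j →
      (fP P c)^[i * M] x ≠ (fP P c)^[j * M] x := by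
    intro i j hi hj hij heq
    have := hinj (hlt i hi) (hlt j hj) heq
    exact hij (Nat.eq_of_mul_eq_mul_right hM this)
  have h10 : (fP P c)^[M] x - x ≠ 0 := by
    have := hne 1 0 hq (by omega) one_ne_zero
    rw [one_mul, zero_mul] at this
    exact sub_ne_zero.2 this
  have hk00 : (fP P c)^[k * M] x - x ≠ 0 := by
    have := hne k 0 hk (by omega) (by omega)
    rw [zero_mul] at this
    exact sub_ne_zero.2 this
  have hk11 : (fP P c)^[k * M] x - (fP P c)^[M] x ≠ 0 := by
    have := hne k 1 hk hq (by omega)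
    rw [one_mul] at this
    exact sub_ne_zero.2 this
  have e : ((fP P c)^[k * M] x - x) / ((fP P c)^[M] x - x) + -1 =
      ((fP P c)^[k * M] x - (fP P c)^[M] x) / ((fP P c)^[M] x - x) := by
    field_simp
    ring
  refine ⟨h10, div_ne_zero hk00 h10, by rw [e]; exact div_ne_zero hk11 h10, ?_, ?_⟩
  · apply hT _ (div_ne_zero hk00 h10)
    intro v hna hv
    have h := hLD v hna hv
    rcases le_or_gt (v c) 1 with hc | hc
    · refine ⟨1, one_ne_zero, ?_⟩
      rw [one_pow, map_one, map_div₀, h.orb hc hx hp hb hper hk0, div_self]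
      exact (v.pos h10).ne'
    · exact h.bd_ratio hc (PreP.of_per (per_iter hx _)) (PreP.of_per hx)
        (PreP.of_per (per_iter hx _)) (PreP.of_per hx) (sub_ne_zero.1 hk00) (sub_ne_zero.1 h10)
  · rw [e]
    apply hT _ (div_ne_zero hk11 h10)
    intro v hna hv
    have h := hLD v hna hv
    rcases le_or_gt (v c) 1 with hc | hc
    · refine ⟨1, one_ne_zero, ?_⟩
      have h1 : v ((fP P c)^[k * M] x - (fP P c)^[M] x) = v ((fP P c)^[M] x - x) := by
        have e1 : (fP P c)^[k * M] x = (fP P c)^[M] ((fP P c)^[(k - 1) * M] x) := by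
          rw [← iterate_add_apply]
          congr 2
          obtain ⟨k', rfl⟩ : ∃ k', k = k' + 1 := ⟨k - 1, by omega⟩
          rw [Nat.add_sub_cancel]
          ring
        rw [e1, h.gd_per hc (per_iter hx _) hx, h.orb hc hx hp hb hper hk1]
      rw [one_pow, map_one, map_div₀, h1, div_self]
      exact (v.pos h10).ne'
    · exact h.bd_ratio hc (PreP.of_per (per_iter hx _)) (PreP.of_per (per_iter hx _))
        (PreP.of_per (per_iter hx _)) (PreP.of_per hx) (sub_ne_zero.1 hk11) (sub_ne_zero.1 h10)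

/-- **the odd prime powers dividing the length of a cycle are bounded** -/
theorem cyc_pow (K : Type) [Field K] [NumberField K] (n : ℕ) (hn : 5 ≤ n) {N : ℕ} (hN0 : N ≠ 0) :
    ∃ (B : ℕ) (A' : ℝ), 0 ≤ A' ∧ ∀ P : K[X], P.Monic → P.natDegree = n + 1 →
      (∀ i, SInt N (P.coeff i)) → ∀ c : K, A' * (1 + hC58 n P) ≤ logHeight₁ c → ∀ x : K,
      x ∈ periodicPts (fP P c) → ∀ p b : ℕ, p.Prime → p ≠ 2 →
      p ^ b ∣ minimalPeriod (fP P c) x → p ^ b ≤ B := by
  classical
  have hD : (N : K) * ((n : K) + 1) ≠ 0 := by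
    apply mul_ne_zero
    · exact_mod_cast hN0
    · exact_mod_cast Nat.succ_ne_zero n
  obtain ⟨T, -, hT⟩ := sel_abs (K := K) (n := n) (by omega) hD
  obtain ⟨A2, hA2, hup'⟩ := glob_up K n (by omega : 1 ≤ n) hN0
  obtain ⟨B0, A1, hA1, hfew'⟩ := few K n hn hN0 (neg_ne_zero.2 (one_ne_zero (α := K))) T
  obtain ⟨l2, hl2⟩ : ∃ l2, l2 = (totalWeight K : ℝ) * Real.log 2 := ⟨_, rfl⟩
  have hl20 : 0 ≤ l2 := by rw [hl2]; positivity
  refine ⟨(B0 + 2) * B0 + 1, A1 + A2 + l2, by positivity,
    fun P hP hd hN c hc' x hx p b hp hp2 hdvd => ?_⟩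
  have hPh := hC58_nonneg n P
  have hLD : ∀ v : AbsoluteValue K ℝ, IsNonarchimedean v → v ((N : K) * ((n : K) + 1)) = 1 →
      LD v n P := fun v hna hv => to_LD hP hd (by omega) hN hna hv
  have hfew := hfew' P hP hd hN
  have hup := hup' P hP hd hN
  obtain ⟨C, hCe⟩ : ∃ C, C = A2 * (1 + hC58 n P) := ⟨_, rfl⟩
  have hC : 0 ≤ C := by rw [hCe]; positivity
  obtain ⟨H1, hH1e⟩ : ∃ H1, H1 = A1 * (1 + hC58 n P) := ⟨_, rfl⟩
  have hH1 : 0 ≤ H1 := by rw [hH1e]; positivity
  rw [← hCe] at hup
  rw [← hH1e] at hfew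
  have hc : H1 + C + l2 ≤ logHeight₁ c := by
    refine le_trans ?_ hc'
    have h1 : 0 ≤ l2 * hC58 n P := by positivity
    rw [hCe, hH1e]
    nlinarith
  have hNpos := minimalPeriod_pos_of_mem_periodicPts hx
  suffices p ^ b ≤ (B0 + 2) * B0 + 1 from this
  · rcases Nat.eq_zero_or_pos b with rfl | hb
    · rw [pow_zero]; omega
    have hp3 : 3 ≤ p := by
      have := hp.two_le
      omega
    obtain ⟨h, hh⟩ : ∃ h, h = logHeight₁ c := ⟨_, rfl⟩
    rw [← hh] at hc
    -- the count
    have key : ∀ e : ℕ, 1 ≤ e → p ^ e ∣ minimalPeriod (fP P c) x → ∀ A : Finset ℕ,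
        (∀ k ∈ A, k < p ^ e ∧ 2 ≤ k ∧ ¬ p ∣ k ∧ ¬ p ∣ (k - 1)) → A.card ≤ B0 := by
      intro e he hdv A hA
      obtain ⟨M, hM⟩ := hdv
      have hM0 : 0 < M := by
        rcases Nat.eq_zero_or_pos M with h0 | h0
        · rw [h0, mul_zero] at hM
          omega
        · exact h0
      rcases A.eq_empty_or_nonempty with rfl | ⟨k0, hk0⟩
      · simp
      have hinj : Set.InjOn (fun k => (fP P c)^[k * M] x) A := by
        intro i hi j hj hij
        have hlt : ∀ k ∈ A, k * M < minimalPeriod (fP P c) x := by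
          intro k hk
          rw [hM]
          exact Nat.mul_lt_mul_of_pos_right (hA k hk).1 hM0
        have := iterate_injOn_Iio_minimalPeriod (hlt i hi) (hlt j hj) hij
        exact Nat.eq_of_mul_eq_mul_right hM0 this
      rw [← Finset.card_image_of_injOn hinj]
      obtain ⟨g1, g2, g3, g4⟩ := hA k0 hk0
      have hw := (orbit_two hLD hT hx hp he hM hM0 g1 g2 g3 g4).1
      have hux := hup c x (PreP.of_per hx)
      have huy := hup c _ (PreP.of_per (per_iter hx M))
      rw [← hh] at hux huy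
      have hh0 : 0 ≤ h := by rw [hh]; exact ht_nn c
      apply hfew c (by rw [← hh]; linarith) x ((fP P c)^[M] x - x) hw (by rw [← hh]; linarith)
      · have := logHeight₁_sub_le ((fP P c)^[M] x) x
        rw [← hl2] at this
        rw [← hh]
        linarith
      · intro y hy
        obtain ⟨k, hk, rfl⟩ := Finset.mem_image.1 hy
        obtain ⟨k1, k2, k3, k4⟩ := hA k hk
        exact ⟨PreP.of_per (per_iter hx _), (orbit_two hLD hT hx hp he hM hM0 k1 k2 k3 k4).2⟩
    have c1 : p - 2 ≤ B0 := by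
      have := key 1 le_rfl (dvd_trans (pow_dvd_pow p hb) hdvd) (Finset.Ico 2 p) (by
        intro k hk
        rw [Finset.mem_Ico] at hk
        rw [pow_one]
        refine ⟨hk.2, hk.1, fun h' => ?_, fun h' => ?_⟩
        · have := Nat.le_of_dvd (by omega) h'
          omega
        · have := Nat.le_of_dvd (by omega) h'
          omega)
      rwa [Nat.card_Ico] at this
    have c2 : p ^ (b - 1) ≤ B0 := by
      have := key b hb hdvd ((Finset.range (p ^ (b - 1))).image fun i => p * i + 2) (by
        intro k hk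
        obtain ⟨i, hi, rfl⟩ := Finset.mem_image.1 hk
        rw [Finset.mem_range] at hi
        have h1 : p ^ b = p * p ^ (b - 1) := by
          rw [← pow_succ']; congr 1; omega
        refine ⟨?_, by omega, fun h' => ?_, fun h' => ?_⟩
        · have h2 : p * (i + 1) ≤ p * p ^ (b - 1) := Nat.mul_le_mul_left _ hi
          rw [h1]
          rw [mul_add, mul_one] at h2
          omega
        · have h2 : p ∣ 2 := (Nat.dvd_add_right (dvd_mul_right p i)).1 h'
          have := Nat.le_of_dvd (by omega) h2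
          omega
        · have h3 : p * i + 2 - 1 = p * i + 1 := by omega
          rw [h3] at h'
          have h2 : p ∣ 1 := (Nat.dvd_add_right (dvd_mul_right p i)).1 h'
          have := Nat.le_of_dvd (by omega) h2
          omega)
      rw [Finset.card_image_of_injective, Finset.card_range] at this
      · exact this
      · intro i j hij
        have h1 : p * i = p * j := Nat.add_right_cancel hij
        exact Nat.eq_of_mul_eq_mul_left (by omega) h1
    have h1 : p ^ b = p * p ^ (b - 1) := by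
      rw [← pow_succ']; congr 1; omega
    rw [h1]
    have h2 : p ≤ B0 + 2 := by omega
    have := Nat.mul_le_mul h2 c2
    omega

/-- a fixed polynomial and parameters of bounded height -/
theorem per_small (hP : P.Monic) (hd : P.natDegree = n + 1) (hn : 1 ≤ n) (H : ℝ) :
    ∃ B : ℕ, ∀ c : K, logHeight₁ c < H → ∀ S : Finset K, (∀ x ∈ S, PreP (fP P c) x) →
      S.card ≤ B := by
  classical
  obtain ⟨N, hN0, hN⟩ := exists_N P
  obtain ⟨A2, hA2, hup'⟩ := glob_up K n hn hN0
  have hup := hup' P hP hd hN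
  obtain ⟨C, hCe⟩ : ∃ C, C = A2 * (1 + hC58 n P) := ⟨_, rfl⟩
  rw [← hCe] at hup
  have hfin := NumberField.finite_setOfPred_logHeight₁_le K (H + C)
  refine ⟨hfin.toFinset.card, fun c hc S hS => ?_⟩
  apply Finset.card_le_card
  intro y hy
  rw [Set.Finite.mem_toFinset]
  have h2 := hup c y (hS y hy)
  show logHeight₁ y ≤ H + C
  linarith

omit [NumberField K] in
lemma minPer_le_of_card {c : K} {B : ℕ} (hB : ∀ S : Finset K, (∀ x ∈ S, PreP (fP P c) x) → S.card ≤ B)
    {x : K} (hx : x ∈ periodicPts (fP P c)) : minimalPeriod (fP P c) x ≤ B := by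
  classical
  have h1 : ((Finset.range (minimalPeriod (fP P c) x)).image fun j => (fP P c)^[j] x).card =
      minimalPeriod (fP P c) x := by
    rw [Finset.card_image_of_injOn, Finset.card_range]
    intro i hi j hj hij
    exact iterate_injOn_Iio_minimalPeriod (by simpa using hi) (by simpa using hj) hij
  rw [← h1]
  apply hB
  intro y hy
  obtain ⟨j, -, rfl⟩ := Finset.mem_image.1 hy
  exact PreP.of_per (per_iter hx j)

end cycles

end Pool.Agent.KS6_58
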