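import Pool.Agent.KS6_58.DynH

/-!
# Local dynamics of `1 / (x ^ (n + 1) + c)`
-/

set_option autoImplicit false

namespace Pool.Agent.KS6_58

open Function

/-- the map `1 / (x ^ d + c)` -/
def gc {K : Type} [Field K] (d : ℕ) (c : K) : K → K := fun x => (x ^ d + c)⁻¹

section basin

variable {K : Type} [Field K] {v : AbsoluteValue K ℝ} {n : ℕ} {c : K}

/-- the conditions at a bad place -/
structure BadV (v : AbsoluteValue K ℝ) (n : ℕ) (c : K) : Prop where
  inv : ∀ z, v z ≤ 1 → 1 ≤ v (z ^ (n + 1) + c)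
  con : ∀ z w, v z ≤ 1 → v w ≤ 1 → z ≠ w → v (gc (n + 1) c z - gc (n + 1) c w) < v (z - w)
  out : ∀ η p u : K, η ^ (n + 1) = 1 → η ≠ 1 → v p ≤ 1 →
    u ^ (n + 1) = (η⁻¹ - 1) * c + η⁻¹ * p ^ (n + 1) → 1 < v u

lemma gc_inj_pow {x y : K} (h : gc (n + 1) c x = gc (n + 1) c y) : x ^ (n + 1) = y ^ (n + 1) :=
  add_right_cancel (inv_injective h)

lemma gc_root {x η : K} (hη : η ^ (n + 1) = 1) : gc (n + 1) c (η * x) = gc (n + 1) c x := by
  unfold gc
  rw [mul_pow, hη, one_mul]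

lemma gc_zero_pre {x : K} (h0 : ¬ PreP (gc (n + 1) c) 0) (hx : PreP (gc (n + 1) c) x) : x ≠ 0 := by
  rintro rfl
  exact h0 hx

lemma gc_den {x : K} (h0 : ¬ PreP (gc (n + 1) c) 0) (hx : PreP (gc (n + 1) c) x) :
    x ^ (n + 1) + c ≠ 0 := by
  intro h
  have h1 : gc (n + 1) c x = 0 := by
    unfold gc
    rw [h, inv_zero]
  exact h0 (h1 ▸ hx.map)

lemma BadV.inv' (hB : BadV v n c) {z : K} (hz : v z ≤ 1) : v (gc (n + 1) c z) ≤ 1 := by
  unfold gc
  rw [map_inv₀]
  exact inv_le_one_of_one_le₀ (hB.inv z hz)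

lemma BadV.iter (hB : BadV v n c) {z : K} (hz : v z ≤ 1) (k : ℕ) :
    v ((gc (n + 1) c)^[k] z) ≤ 1 := by
  induction k with
  | zero => exact hz
  | succ k ih => rw [iterate_succ_apply']; exact hB.inv' ih

/-- periodic points in the unit ball are fixed -/
lemma BadV.per_fix (hB : BadV v n c) {a : K} (ha : v a ≤ 1) (hp : a ∈ periodicPts (gc (n + 1) c)) :
    gc (n + 1) c a = a := by
  by_contra hne
  obtain ⟨f, hf⟩ : ∃ f, f = gc (n + 1) c := ⟨_, rfl⟩
  rw [← hf] at hp hne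
  obtain ⟨N, hN, hNa⟩ := hp
  have hap : a ∈ periodicPts f := ⟨N, hN, hNa⟩
  refine not_pre (f := Prod.map f f) {z : K × K | v z.1 ≤ 1 ∧ v z.2 ≤ 1 ∧ z.1 ≠ z.2 ∧
    z.1 ∈ periodicPts f ∧ z.2 ∈ periodicPts f} (fun z => - v (z.1 - z.2)) ?_ (y := (a, f a)) ?_ ?_
  · rintro ⟨x, y⟩ ⟨hx, hy, hxy, hxp, hyp⟩
    simp only at hx hy hxy hxp hyp
    simp only [Prod.map_apply, Set.mem_ofPred_eq]
    refine ⟨⟨?_, ?_, ?_, per_map hxp, per_map hyp⟩, ?_⟩
    · rw [hf]; exact hB.inv' hx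
    · rw [hf]; exact hB.inv' hy
    · exact fun h => hxy ((bijOn_periodicPts f).injOn hxp hyp h)
    · rw [neg_lt_neg_iff, hf]
      exact hB.con x y hx hy hxy
  · refine ⟨ha, ?_, Ne.symm hne, hap, per_map hap⟩
    rw [hf]
    exact hB.inv' ha
  · refine ⟨0, N, hN, ?_⟩
    have h1 : f^[N] a = a := hNa
    have h2 : f^[N] (f a) = f a := by
      rw [← iterate_succ_apply, iterate_succ_apply', h1]
    rw [iterate_zero, id, Prod.map_iterate, Prod.map_apply, h1, h2]

lemma BadV.fix_unique (hB : BadV v n c) {a b : K} (ha : v a ≤ 1) (hb : v b ≤ 1)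
    (ha' : gc (n + 1) c a = a) (hb' : gc (n + 1) c b = b) : a = b := by
  by_contra hne
  have := hB.con a b ha hb hne
  rw [ha', hb'] at this
  exact lt_irrefl _ this

lemma BadV.exists_fix (hB : BadV v n c) {z : K} (hz : v z ≤ 1) (hp : PreP (gc (n + 1) c) z) :
    ∃ k, gc (n + 1) c ((gc (n + 1) c)^[k] z) = (gc (n + 1) c)^[k] z := by
  obtain ⟨k, hk⟩ := hp.exists_per
  exact ⟨k, hB.per_fix (hB.iter hz k) hk⟩

/-- the equation for the points of tail length two -/
lemma tail_eq {p η u : K} (_hη : η ^ (n + 1) = 1) (hfix : gc (n + 1) c p = p)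
    (hu : gc (n + 1) c u = η * p) : u ^ (n + 1) = (η⁻¹ - 1) * c + η⁻¹ * p ^ (n + 1) := by
  have h1 : p ^ (n + 1) + c = p⁻¹ := by
    have h2 := congrArg (fun t => t⁻¹) hfix
    unfold gc at h2
    rw [inv_inv] at h2
    exact h2
  have h3 : u ^ (n + 1) + c = η⁻¹ * p⁻¹ := by
    have h2 := congrArg (fun t => t⁻¹) hu
    unfold gc at h2
    rw [inv_inv, mul_inv] at h2
    exact h2
  rw [← h1] at h3
  linear_combination h3

/-- a preperiodic point whose image is not fixed is outside the unit ball -/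
lemma BadV.good_out (hB : BadV v n c) (h0 : ¬ PreP (gc (n + 1) c) 0) {x : K}
    (hx : PreP (gc (n + 1) c) x)
    (hfix : gc (n + 1) c (gc (n + 1) c x) ≠ gc (n + 1) c x) : 1 < v x := by
  classical
  by_contra hv
  push Not at hv
  obtain ⟨f, hf⟩ : ∃ f, f = gc (n + 1) c := ⟨_, rfl⟩
  have hex : ∃ k, f (f^[k] x) = f^[k] x := by rw [hf]; exact hB.exists_fix hv hx
  obtain ⟨m, hm, hmin⟩ : ∃ m, f (f^[m] x) = f^[m] x ∧ ∀ j < m, f (f^[j] x) ≠ f^[j] x :=
    ⟨Nat.find hex, Nat.find_spec hex, fun j hj => Nat.find_min hex hj⟩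
  rw [← hf] at hfix h0 hx
  have hm0 : m ≠ 0 := by
    rintro rfl
    rw [iterate_zero, id] at hm
    exact hfix (by rw [hm, hm])
  have hm1 : m ≠ 1 := by
    rintro rfl
    exact hfix hm
  obtain ⟨k, rfl⟩ : ∃ k, m = k + 2 := ⟨m - 2, by omega⟩
  obtain ⟨u, hu⟩ : ∃ u, u = f^[k] x := ⟨_, rfl⟩
  have e1 : f^[k + 1] x = f u := by rw [iterate_succ_apply', hu]
  have e2 : f^[k + 2] x = f (f u) := by rw [iterate_succ_apply', e1]
  have h1 := hmin (k + 1) (by omega)
  rw [e2] at hm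
  rw [e1] at h1
  have hpP : PreP f (f (f u)) := by
    rw [← e2]
    exact hx.iter _
  have hp0 : f (f u) ≠ 0 := by
    intro h
    rw [h] at hpP
    exact h0 hpP
  obtain ⟨p, hp⟩ : ∃ p, p = f (f u) := ⟨_, rfl⟩
  rw [← hp] at hm h1 hp0
  have hfu : f p = f (f u) := by rw [hm, hp]
  have hpow : p ^ (n + 1) = (f u) ^ (n + 1) := by
    rw [hf] at hfu ⊢
    exact gc_inj_pow hfu
  have hη : (f u / p) ^ (n + 1) = 1 := by
    rw [div_pow, ← hpow, div_self (pow_ne_zero _ hp0)]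
  have hη1 : f u / p ≠ 1 := by
    intro h
    rw [div_eq_one_iff_eq hp0] at h
    exact h1 h.symm
  have huv : v u ≤ 1 := by rw [hu, hf]; exact hB.iter hv k
  have hpv : v p ≤ 1 := by rw [hp, hf]; exact hB.inv' (hB.inv' huv)
  have hq : f u = (f u / p) * p := by rw [div_mul_cancel₀ _ hp0]
  rw [hf] at hm hq
  have h5 := tail_eq (by rw [← hf]; exact hη) hm hq
  have := hB.out _ p u (by rw [← hf]; exact hη) (by rw [← hf]; exact hη1) hpv h5
  linarith

/-- the two kinds of points outside the unit ball -/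
lemma BadV.dich (hB : BadV v n c) (h0 : ¬ PreP (gc (n + 1) c) 0) {x : K}
    (hx : PreP (gc (n + 1) c) x) (hvx : 1 < v x) :
    1 < v (gc (n + 1) c x) ∨ ∃ p η : K, gc (n + 1) c p = p ∧ p ≠ 0 ∧ v p ≤ 1 ∧
      η ^ (n + 1) = 1 ∧ η ≠ 1 ∧ gc (n + 1) c x = η * p ∧
      x ^ (n + 1) = (η⁻¹ - 1) * c + η⁻¹ * p ^ (n + 1) := by
  rcases lt_or_ge 1 (v (gc (n + 1) c x)) with h | h
  · exact Or.inl h
  · right
    obtain ⟨f, hf⟩ : ∃ f, f = gc (n + 1) c := ⟨_, rfl⟩
    have hg : f (f (f x)) = f (f x) := by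
      by_contra hne
      have := hB.good_out h0 hx.map (by rw [← hf]; exact hne)
      linarith
    rw [← hf] at h h0 hx
    obtain ⟨p, hp⟩ : ∃ p, p = f (f x) := ⟨_, rfl⟩
    rw [← hp] at hg
    have hpv : v p ≤ 1 := by rw [hp, hf]; rw [hf] at h; exact hB.inv' h
    have hp0 : p ≠ 0 := by
      intro h'
      have : PreP f p := by rw [hp]; exact hx.map.map
      rw [h'] at this
      exact h0 this
    have hfx : f p = f (f x) := by rw [hg, hp]
    have hpow : p ^ (n + 1) = (f x) ^ (n + 1) := by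
      rw [hf] at hfx ⊢
      exact gc_inj_pow hfx
    have hη : (f x / p) ^ (n + 1) = 1 := by
      rw [div_pow, ← hpow, div_self (pow_ne_zero _ hp0)]
    have hq : f x = (f x / p) * p := by rw [div_mul_cancel₀ _ hp0]
    refine ⟨p, f x / p, by rw [← hf]; exact hg, hp0, hpv, hη, ?_, by rw [← hf]; exact hq, ?_⟩
    · intro h'
      rw [div_eq_one_iff_eq hp0] at h'
      have h2 : f x = f p := by rw [hg, h']
      have h3 : x ^ (n + 1) = p ^ (n + 1) := by
        rw [hf] at h2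
        exact gc_inj_pow h2
      have h4 : v x ^ (n + 1) ≤ 1 := by
        rw [← map_pow, h3, map_pow]
        exact pow_le_one₀ (v.nonneg _) hpv
      have h5 : 1 < v x ^ (n + 1) := one_lt_pow₀ hvx (Nat.succ_ne_zero n)
      linarith
    · rw [hf] at hg hq hη
      rw [hf]
      exact tail_eq hη hg hq

end basin

section na

variable {K : Type} [Field K] {v : AbsoluteValue K ℝ} {n : ℕ} {ζ : K} {c : K}

lemma v_inv_sub (hna : IsNonarchimedean v) (hζ : IsPrimitiveRoot ζ (n + 1))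
    (hv : v ((n : K) + 1) = 1) {η : K} (h : η ^ (n + 1) = 1) (h1 : η ≠ 1) : v (η⁻¹ - 1) = 1 := by
  rw [← v.map_neg, neg_sub]
  exact v_one_sub hna hζ hv (by rw [inv_pow, h, inv_one]) (fun h' => h1 (inv_eq_one.1 h'))

lemma na_badV (hna : IsNonarchimedean v) (hζ : IsPrimitiveRoot ζ (n + 1))
    (hv : v ((n : K) + 1) = 1) (hc : 1 < v c) : BadV v n c := by
  have hpow : ∀ z, v z ≤ 1 → v (z ^ (n + 1)) ≤ 1 := fun z hz => by
    rw [map_pow]; exact pow_le_one₀ (v.nonneg _) hz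
  have hden : ∀ z, v z ≤ 1 → v (z ^ (n + 1) + c) = v c := fun z hz => by
    rw [add_comm, na_add_eq hna]
    exact (hpow z hz).trans_lt hc
  have hc0 : 0 < v c := one_pos.trans hc
  refine ⟨fun z hz => by rw [hden z hz]; exact hc.le, fun z w hz hw hzw => ?_,
    fun η p u hη hη1 hp hu => ?_⟩
  · have hz0 : z ^ (n + 1) + c ≠ 0 := v.pos_iff.1 (by rw [hden z hz]; exact hc0)
    have hw0 : w ^ (n + 1) + c ≠ 0 := v.pos_iff.1 (by rw [hden w hw]; exact hc0)
    have e : gc (n + 1) c z - gc (n + 1) c w = (w ^ (n + 1) - z ^ (n + 1)) /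
        ((z ^ (n + 1) + c) * (w ^ (n + 1) + c)) := by
      unfold gc
      field_simp
      ring
    have h1 : v (w ^ (n + 1) - z ^ (n + 1)) ≤ v (z - w) := by
      rw [fac hζ, map_mul, map_prod, ← neg_sub z w, v.map_neg]
      apply mul_le_of_le_one_right (v.nonneg _)
      refine Finset.prod_le_one (fun _ _ => v.nonneg _) fun j _ => ?_
      refine (na_sub hna _ _).trans (max_le hw ?_)
      rw [map_mul, v_root (pow_root hζ _), one_mul]
      exact hz
    have h2 : 0 < v (z - w) := v.pos (sub_ne_zero.2 hzw)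
    have h3 : 1 < v c * v c := by nlinarith
    rw [e, map_div₀, map_mul, hden z hz, hden w hw, div_lt_iff₀ (by positivity)]
    calc v (w ^ (n + 1) - z ^ (n + 1)) ≤ v (z - w) * 1 := by rw [mul_one]; exact h1
      _ < v (z - w) * (v c * v c) := mul_lt_mul_of_pos_left h3 h2
  · have h1 : v ((η⁻¹ - 1) * c) = v c := by
      rw [map_mul, v_inv_sub hna hζ hv hη hη1, one_mul]
    have h2 : v (η⁻¹ * p ^ (n + 1)) ≤ 1 := by
      rw [map_mul, map_inv₀, v_root hη, inv_one, one_mul]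
      exact hpow p hp
    have h3 : v u ^ (n + 1) = v c := by
      rw [← map_pow, hu, na_add_eq hna, h1]
      rw [h1]
      exact h2.trans_lt hc
    exact bad_gt hc h3

/-- the fixed point in the unit ball -/
lemma na_fix (hna : IsNonarchimedean v) (hc : 1 < v c) {p : K} (hfix : gc (n + 1) c p = p)
    (hp : v p ≤ 1) : v p * v c = 1 := by
  have h1 : p ^ (n + 1) + c = p⁻¹ := by
    have h2 := congrArg (fun t => t⁻¹) hfix
    unfold gc at h2
    rw [inv_inv] at h2
    exact h2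
  have h2 : v (p ^ (n + 1) + c) = v c := by
    rw [add_comm, na_add_eq hna]
    rw [map_pow]
    exact (pow_le_one₀ (v.nonneg _) hp).trans_lt hc
  have hc0 : 0 < v c := one_pos.trans hc
  rw [h1, map_inv₀] at h2
  have hp0 : v p ≠ 0 := by
    intro h
    rw [h, inv_zero] at h2
    exact hc0.ne h2
  rw [← h2, mul_inv_cancel₀ hp0]

/-- points outside the unit ball -/
lemma na_R (hna : IsNonarchimedean v) (hζ : IsPrimitiveRoot ζ (n + 1))
    (hv : v ((n : K) + 1) = 1) (hc : 1 < v c) (h0 : ¬ PreP (gc (n + 1) c) 0) {x : K}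
    (hx : PreP (gc (n + 1) c) x) (hvx : 1 < v x) : v x ^ (n + 1) = v c := by
  rcases (na_badV hna hζ hv hc).dich h0 hx hvx with h | ⟨p, η, hfix, hp0, hp, hη, hη1, hxe, hpw⟩
  · have h1 : v (x ^ (n + 1) + c) < 1 := by
      unfold gc at h
      rw [map_inv₀] at h
      have h2 : 0 < v (x ^ (n + 1) + c) := v.pos (gc_den h0 hx)
      rwa [one_lt_inv₀ h2] at h
    have e : x ^ (n + 1) = -c + (x ^ (n + 1) + c) := by ring
    rw [← map_pow, e, na_add_eq hna, v.map_neg]
    rw [v.map_neg]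
    exact h1.trans hc
  · have h1 : v ((η⁻¹ - 1) * c) = v c := by
      rw [map_mul, v_inv_sub hna hζ hv hη hη1, one_mul]
    have h2 : v (η⁻¹ * p ^ (n + 1)) ≤ 1 := by
      rw [map_mul, map_inv₀, v_root hη, inv_one, one_mul, map_pow]
      exact pow_le_one₀ (v.nonneg _) hp
    rw [← map_pow, hpw, na_add_eq hna, h1]
    rw [h1]
    exact h2.trans_lt hc

/-- one step -/
lemma na_step (hna : IsNonarchimedean v) (hζ : IsPrimitiveRoot ζ (n + 1))
    (hv : v ((n : K) + 1) = 1) (hc : 1 < v c) (h0 : ¬ PreP (gc (n + 1) c) 0) {x y : K}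
    (hx : PreP (gc (n + 1) c) x) (hy : PreP (gc (n + 1) c) y) (hvx : 1 < v x) (hvy : 1 < v y)
    (hne : x ≠ y) (h : v (x - y) < v x) : 1 < v (gc (n + 1) c x) ∧ 1 < v (gc (n + 1) c y) ∧
      v (gc (n + 1) c x - gc (n + 1) c y) = v (x - y) * v x ^ (n + 2) := by
  have hB := na_badV hna hζ hv hc
  have hRx := na_R hna hζ hv hc h0 hx hvx
  have hRy := na_R hna hζ hv hc h0 hy hvy
  have hxy : v x = v y := bad_eq hRx hRy
  have hx0 : 0 < v x := one_pos.trans hvx
  have hdx := gc_den h0 hx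
  have hdy := gc_den h0 hy
  -- the difference of the powers
  have hpow : v (x ^ (n + 1) - y ^ (n + 1)) = v (x - y) * v x ^ n := by
    rw [fac hζ, map_mul, map_prod]
    congr 1
    rw [Finset.prod_congr rfl (g := fun _ => v x), Finset.prod_const, Finset.card_range]
    intro k hk
    rw [Finset.mem_range] at hk
    have h1 : v ((1 - ζ ^ (k + 1)) * y) = v x := by
      rw [map_mul, v_one_sub hna hζ hv (pow_root hζ _) (pow_ne hζ hk), one_mul, hxy]
    have e2 : x - ζ ^ (k + 1) * y = (1 - ζ ^ (k + 1)) * y + (x - y) := by ring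
    rw [e2, na_add_eq hna, h1]
    rwa [h1]
  have hlt : v (x ^ (n + 1) - y ^ (n + 1)) < v c := by
    rw [hpow, ← hRx, pow_succ, mul_comm (v x ^ n)]
    exact mul_lt_mul_of_pos_right h (by positivity)
  have hpos : 0 < v (x ^ (n + 1) - y ^ (n + 1)) := by
    rw [hpow]
    have := v.pos (sub_ne_zero.2 hne)
    positivity
  have hg : ∀ z, PreP (gc (n + 1) c) z → 1 < v (gc (n + 1) c z) →
      v (z ^ (n + 1) + c) < 1 ∧ v (z ^ (n + 1) + c) * v x = 1 := by
    intro z hz hgz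
    have h2 : 0 < v (z ^ (n + 1) + c) := v.pos (gc_den h0 hz)
    have h3 : v (gc (n + 1) c z) = (v (z ^ (n + 1) + c))⁻¹ := by unfold gc; rw [map_inv₀]
    have h4 : v (gc (n + 1) c z) = v x := bad_eq (na_R hna hζ hv hc h0 hz.map hgz) hRx
    rw [← h4, h3, mul_inv_cancel₀ h2.ne']
    refine ⟨?_, rfl⟩
    rw [h3] at hgz
    rwa [one_lt_inv₀ h2] at hgz
  have hs : ∀ z p η : K, p ≠ 0 → v p ≤ 1 → gc (n + 1) c p = p → η ^ (n + 1) = 1 →
      gc (n + 1) c z = η * p → z ^ (n + 1) + c = η⁻¹ * p⁻¹ ∧ v (z ^ (n + 1) + c) = v c := by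
    intro z p η hp0 hp hfix hη hze
    have h1 : z ^ (n + 1) + c = η⁻¹ * p⁻¹ := by
      have h2 := congrArg (fun t => t⁻¹) hze
      unfold gc at h2
      rw [inv_inv, mul_inv] at h2
      exact h2
    have h3 := na_fix hna hc hfix hp
    have h4 : v p ≠ 0 := v.ne_zero_iff.2 hp0
    refine ⟨h1, ?_⟩
    rw [h1, map_mul, map_inv₀, map_inv₀, v_root hη, inv_one, one_mul]
    field_simp
    linarith
  have hdiff : (x ^ (n + 1) + c) - (y ^ (n + 1) + c) = x ^ (n + 1) - y ^ (n + 1) := by ring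
  rcases hB.dich h0 hx hvx with h1 | ⟨p, η, hfix, hp0, hp, hη, hη1, hxe, hpw⟩
  · rcases hB.dich h0 hy hvy with h2 | ⟨p, η, hfix, hp0, hp, hη, hη1, hye, hpw⟩
    · refine ⟨h1, h2, ?_⟩
      obtain ⟨-, h3⟩ := hg x hx h1
      obtain ⟨-, h4⟩ := hg y hy h2
      have e : gc (n + 1) c x - gc (n + 1) c y = -((x ^ (n + 1) - y ^ (n + 1)) /
          ((x ^ (n + 1) + c) * (y ^ (n + 1) + c))) := by
        unfold gc
        field_simp
        ring
      have h5 : v (x ^ (n + 1) + c) = (v x)⁻¹ := eq_inv_of_mul_eq_one_left h3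
      have h6 : v (y ^ (n + 1) + c) = (v x)⁻¹ := eq_inv_of_mul_eq_one_left h4
      rw [e, v.map_neg, map_div₀, map_mul, h5, h6, hpow]
      field_simp
      ring
    · exfalso
      obtain ⟨h3, -⟩ := hg x hx h1
      obtain ⟨-, h4⟩ := hs y p η hp0 hp hfix hη hye
      have h5 : v ((y ^ (n + 1) + c) - (x ^ (n + 1) + c)) = v c := by
        rw [na_sub_eq hna, h4]
        rw [h4]
        exact h3.trans hc
      have e : (y ^ (n + 1) + c) - (x ^ (n + 1) + c) = -(x ^ (n + 1) - y ^ (n + 1)) := by ring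
      rw [e, v.map_neg] at h5
      linarith
  · exfalso
    obtain ⟨h5, h6⟩ := hs x p η hp0 hp hfix hη hxe
    rcases hB.dich h0 hy hvy with h2 | ⟨p', η', hfix', hp0', hp', hη', hη1', hye, hpw'⟩
    · obtain ⟨h3, -⟩ := hg y hy h2
      have h7 : v ((x ^ (n + 1) + c) - (y ^ (n + 1) + c)) = v c := by
        rw [na_sub_eq hna, h6]
        rw [h6]
        exact h3.trans hc
      rw [hdiff] at h7
      linarith
    · have hpp : p' = p := hB.fix_unique hp' hp hfix' hfix
      subst hpp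
      obtain ⟨h3, -⟩ := hs y p' η' hp0 hp hfix hη' hye
      have h7 : x ^ (n + 1) - y ^ (n + 1) = (η⁻¹ - η'⁻¹) * p'⁻¹ := by
        rw [← hdiff, h5, h3]
        ring
      have hη0 : η ≠ 0 := by
        rintro rfl
        rw [zero_pow (Nat.succ_ne_zero n)] at hη
        exact zero_ne_one hη
      have hη0' : η' ≠ 0 := by
        rintro rfl
        rw [zero_pow (Nat.succ_ne_zero n)] at hη'
        exact zero_ne_one hη'
      by_cases hηη : η = η'
      · rw [h7, hηη, sub_self, zero_mul, map_zero] at hpos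
        exact lt_irrefl _ hpos
      · have h8 : v (η⁻¹ - η'⁻¹) = 1 := by
          have e : η⁻¹ - η'⁻¹ = η⁻¹ * (1 - η / η') := by
            field_simp
          rw [e, map_mul, map_inv₀, v_root hη, inv_one, one_mul]
          apply v_one_sub hna hζ hv
          · rw [div_pow, hη, hη', div_one]
          · intro h9
            rw [div_eq_one_iff_eq hη0'] at h9
            exact hηη h9
        have h9 := na_fix hna hc hfix hp
        have h10 : v p' ≠ 0 := v.ne_zero_iff.2 hp0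
        rw [h7, map_mul, h8, one_mul, map_inv₀] at hlt
        have h11 : (v p')⁻¹ = v c := by
          field_simp
          linarith
        rw [h11] at hlt
        exact lt_irrefl _ hlt

/-- **distances at the bad places** -/
lemma na_dist (hna : IsNonarchimedean v) (hζ : IsPrimitiveRoot ζ (n + 1))
    (hv : v ((n : K) + 1) = 1) (hc : 1 < v c) (h0 : ¬ PreP (gc (n + 1) c) 0) {x y : K}
    (hx : PreP (gc (n + 1) c) x) (hy : PreP (gc (n + 1) c) y) (hvx : 1 < v x) (hvy : 1 < v y)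
    (hne : x ≠ y) : ∃ N : ℕ, v (x - y) * (v x ^ N) ^ (n + 2) = v x := by
  obtain ⟨f, hf⟩ : ∃ f, f = gc (n + 1) c := ⟨_, rfl⟩
  have hR : ∀ z, PreP f z → 1 < v z → v z = v x := fun z hz hz1 => by
    rw [hf] at hz
    exact bad_eq (na_R hna hζ hv hc h0 hz hz1) (na_R hna hζ hv hc h0 hx hvx)
  rw [← hf] at hx hy
  have h00 : 0 < v (x - y) := v.pos (sub_ne_zero.2 hne)
  have hRn : 1 < v x ^ (n + 2) := one_lt_pow₀ hvx (by omega)
  have key : ∀ N : ℕ, (∃ M : ℕ, v (x - y) * (v x ^ M) ^ (n + 2) = v x) ∨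
      (v (f^[N] x - f^[N] y) = v (x - y) * (v x ^ N) ^ (n + 2) ∧ v (f^[N] x - f^[N] y) < v x ∧
        1 < v (f^[N] x) ∧ 1 < v (f^[N] y)) := by
    intro N
    induction N with
    | zero =>
      have h1 : v (x - y) ≤ v x := by
        refine (na_sub hna _ _).trans ?_
        rw [hR y hy hvy, max_self]
      rcases h1.eq_or_lt with h2 | h2
      · left
        exact ⟨0, by simpa using h2⟩
      · right
        exact ⟨by simp, h2, hvx, hvy⟩
    | succ N ih =>
      rcases ih with h | ⟨h1, h2, h3, h4⟩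
      · exact Or.inl h
      · have hxN := hx.iter N
        have hyN := hy.iter N
        have hRN := hR _ hxN h3
        have hneN : f^[N] x ≠ f^[N] y := by
          intro h
          rw [h, sub_self, map_zero] at h1
          have : 0 < v (x - y) * (v x ^ N) ^ (n + 2) := by
            have := one_pos.trans hvx
            positivity
          linarith
        have h5 : 1 < v (f (f^[N] x)) ∧ 1 < v (f (f^[N] y)) ∧
            v (f (f^[N] x) - f (f^[N] y)) = v (f^[N] x - f^[N] y) * v (f^[N] x) ^ (n + 2) := by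
          have h4' : v (f^[N] x - f^[N] y) < v (f^[N] x) := by rw [hRN]; exact h2
          rw [hf] at hxN hyN h4' h3 h4 hneN ⊢
          exact na_step hna hζ hv hc h0 hxN hyN h3 h4 hneN h4'
        obtain ⟨h6, h7, h8⟩ := h5
        rw [← iterate_succ_apply' f] at h6 h7
        rw [← iterate_succ_apply' f, ← iterate_succ_apply' f, hRN, h1] at h8
        have h9 : v (x - y) * (v x ^ N) ^ (n + 2) * v x ^ (n + 2) =
            v (x - y) * (v x ^ (N + 1)) ^ (n + 2) := by
          rw [pow_succ (v x) N, mul_pow]; ring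
        rw [h9] at h8
        have h10 : v (f^[N + 1] x - f^[N + 1] y) ≤ v x := by
          refine (na_sub hna _ _).trans ?_
          rw [hR _ (hx.iter _) h6, hR _ (hy.iter _) h7, max_self]
        rcases h10.eq_or_lt with h11 | h11
        · left
          exact ⟨N + 1, by rw [← h8, h11]⟩
        · right
          exact ⟨h8, h11, h6, h7⟩
  obtain ⟨N, hN⟩ := pow_unbounded_of_one_lt (v x / v (x - y)) hRn
  rcases key N with h | ⟨h1, h2, -, -⟩
  · exact h
  · exfalso
    rw [h1] at h2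
    rw [div_lt_iff₀ h00, ← pow_mul, mul_comm (n + 2) N, pow_mul] at hN
    linarith

/-- ratios at the bad places -/
lemma na_ratio (hna : IsNonarchimedean v) (hζ : IsPrimitiveRoot ζ (n + 1))
    (hv : v ((n : K) + 1) = 1) (hc : 1 < v c) (h0 : ¬ PreP (gc (n + 1) c) 0) {x y : K}
    (hx : PreP (gc (n + 1) c) x) (hy : PreP (gc (n + 1) c) y) (hvx : 1 < v x)
    (hy' : 1 < v y ∨ v y ≤ 1) {η η' : K} (hη : η ^ (n + 1) = 1)
    (hη' : η' ^ (n + 1) = 1) (hne : x ≠ η * y) (hne' : x ≠ η' * y) :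
    ∃ z : K, z ≠ 0 ∧ v ((x - η * y) / (x - η' * y)) = v (z ^ (n + 2)) := by
  have hx0 : x ≠ 0 := gc_zero_pre h0 hx
  have hvx0 : 0 < v x := v.pos hx0
  rcases hy' with hvy | hvy
  · have hpre : ∀ η : K, η ^ (n + 1) = 1 → PreP (gc (n + 1) c) (η * y) := fun η h =>
      hy.of_eq (gc_root h).symm
    have hvη : ∀ η : K, η ^ (n + 1) = 1 → 1 < v (η * y) := fun η h => by
      rw [map_mul, v_root h, one_mul]
      exact hvy
    obtain ⟨N, hN⟩ := na_dist hna hζ hv hc h0 hx (hpre η hη) hvx (hvη η hη) hne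
    obtain ⟨M, hM⟩ := na_dist hna hζ hv hc h0 hx (hpre η' hη') hvx (hvη η' hη') hne'
    refine ⟨x ^ M / x ^ N, div_ne_zero (pow_ne_zero _ hx0) (pow_ne_zero _ hx0), ?_⟩
    have h1 : 0 < v (x - η' * y) := v.pos (sub_ne_zero.2 hne')
    have h3 : 0 < (v x ^ N) ^ (n + 2) := by positivity
    have h4 : 0 < (v x ^ M) ^ (n + 2) := by positivity
    rw [map_div₀, map_pow, map_div₀, map_pow, map_pow, div_pow, div_eq_div_iff h1.ne' h3.ne', hN,
      mul_comm, hM]
  · refine ⟨1, one_ne_zero, ?_⟩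
    have h1 : ∀ η : K, η ^ (n + 1) = 1 → v (x - η * y) = v x := fun η h => by
      rw [na_sub_eq hna]
      rw [map_mul, v_root h, one_mul]
      exact hvy.trans_lt hvx
    rw [map_div₀, h1 η hη, h1 η' hη', one_pow, map_one, div_self hvx0.ne']

end na

end Pool.Agent.KS6_58
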