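import Pool.Agent.KS6_58.RD

/-!
# `1 / (x ^ (n + 1) + c)` at the places of good reduction: the chordal distance
-/

set_option autoImplicit false

namespace Pool.Agent.KS6_58

open Function

section chord

variable {K : Type} [Field K] {v : AbsoluteValue K ℝ} {n : ℕ} {ζ : K} {c : K}

/-- the chordal distance -/
noncomputable def dl (v : AbsoluteValue K ℝ) (x y : K) : ℝ :=
  v (x - y) / (max (v x) 1 * max (v y) 1)

lemma mx_pos (x : K) : 0 < max (v x) 1 := lt_of_lt_of_le one_pos (le_max_right _ _)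

lemma dl_nonneg (x y : K) : 0 ≤ dl v x y :=
  div_nonneg (v.nonneg _) (mul_pos (mx_pos x) (mx_pos y)).le

lemma dl_pos {x y : K} (h : x ≠ y) : 0 < dl v x y :=
  div_pos (v.pos (sub_ne_zero.2 h)) (mul_pos (mx_pos x) (mx_pos y))

lemma dl_le_one (hna : IsNonarchimedean v) (x y : K) : dl v x y ≤ 1 := by
  unfold dl
  rw [div_le_one (mul_pos (mx_pos x) (mx_pos y))]
  refine (na_sub hna x y).trans (max_le ?_ ?_)
  · calc v x ≤ max (v x) 1 * 1 := by rw [mul_one]; exact le_max_left _ _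
      _ ≤ _ := mul_le_mul_of_nonneg_left (le_max_right _ _) (mx_pos x).le
  · calc v y ≤ 1 * max (v y) 1 := by rw [one_mul]; exact le_max_left _ _
      _ ≤ _ := mul_le_mul_of_nonneg_right (le_max_right _ _) (mx_pos y).le

lemma mx_root {η : K} (h : η ^ (n + 1) = 1) (y : K) : max (v (η * y)) 1 = max (v y) 1 := by
  rw [map_mul, v_root h, one_mul]

lemma mx_pow (hna : IsNonarchimedean v) (hc : v c ≤ 1) (x : K) :
    max (v (x ^ (n + 1) + c)) 1 = max (v x) 1 ^ (n + 1) := by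
  rcases le_or_gt (v x) 1 with h | h
  · rw [max_eq_right h, one_pow, max_eq_right]
    refine (hna _ _).trans (max_le ?_ hc)
    rw [map_pow]
    exact pow_le_one₀ (v.nonneg _) h
  · have h1 : 1 < v x ^ (n + 1) := one_lt_pow₀ h (Nat.succ_ne_zero n)
    have h2 : v (x ^ (n + 1) + c) = v x ^ (n + 1) := by
      rw [na_add_eq hna, map_pow]
      rw [map_pow]
      exact hc.trans_lt h1
    rw [h2, max_eq_left h.le, max_eq_left h1.le]

lemma mx_gc (hna : IsNonarchimedean v) (hc : v c ≤ 1) {x : K} (hx : x ^ (n + 1) + c ≠ 0) :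
    max (v (gc (n + 1) c x)) 1 = max (v x) 1 ^ (n + 1) / v (x ^ (n + 1) + c) := by
  have h1 : 0 < v (x ^ (n + 1) + c) := v.pos hx
  rw [← mx_pow hna hc]
  unfold gc
  rw [map_inv₀, eq_div_iff h1.ne']
  rcases le_total (v (x ^ (n + 1) + c)) 1 with h | h
  · rw [max_eq_right h, max_eq_left ((one_le_inv₀ h1).2 h), inv_mul_cancel₀ h1.ne']
  · rw [max_eq_left h, max_eq_right (inv_le_one_of_one_le₀ h), one_mul]

/-- **the chordal distance of the images** -/
lemma dl_step (hna : IsNonarchimedean v) (hζ : IsPrimitiveRoot ζ (n + 1)) (hc : v c ≤ 1) {x y : K}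
    (hx : x ^ (n + 1) + c ≠ 0) (hy : y ^ (n + 1) + c ≠ 0) :
    dl v (gc (n + 1) c x) (gc (n + 1) c y) = ∏ k ∈ Finset.range (n + 1), dl v x (ζ ^ k * y) := by
  have h1 : 0 < v (x ^ (n + 1) + c) := v.pos hx
  have h2 : 0 < v (y ^ (n + 1) + c) := v.pos hy
  have e : gc (n + 1) c x - gc (n + 1) c y = -((x ^ (n + 1) - y ^ (n + 1)) /
      ((x ^ (n + 1) + c) * (y ^ (n + 1) + c))) := by
    unfold gc
    field_simp
    ring
  have e2 : ∏ k ∈ Finset.range (n + 1), dl v x (ζ ^ k * y) =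
      v (x ^ (n + 1) - y ^ (n + 1)) / (max (v x) 1 * max (v y) 1) ^ (n + 1) := by
    unfold dl
    rw [Finset.prod_div_distrib]
    congr 1
    · rw [fac hζ, Finset.prod_range_succ', pow_zero, one_mul, map_mul, map_prod, mul_comm]
    · rw [Finset.prod_congr rfl (g := fun _ => max (v x) 1 * max (v y) 1), Finset.prod_const,
        Finset.card_range]
      intro k _
      rw [mx_root (pow_root hζ k)]
  rw [e2]
  unfold dl
  rw [e, v.map_neg, map_div₀, map_mul, mx_gc hna hc hx, mx_gc hna hc hy]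
  have := mx_pos (v := v) x
  have := mx_pos (v := v) y
  rw [mul_pow]
  field_simp

lemma dl_mono (hna : IsNonarchimedean v) (hζ : IsPrimitiveRoot ζ (n + 1)) (hc : v c ≤ 1) {x y : K}
    (hx : x ^ (n + 1) + c ≠ 0) (hy : y ^ (n + 1) + c ≠ 0) :
    dl v (gc (n + 1) c x) (gc (n + 1) c y) ≤ dl v x y := by
  rw [dl_step hna hζ hc hx hy, Finset.prod_range_succ', pow_zero, one_mul]
  apply mul_le_of_le_one_left (dl_nonneg _ _)
  exact Finset.prod_le_one (fun _ _ => dl_nonneg _ _) fun j _ => dl_le_one hna _ _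

lemma dl_anti (hna : IsNonarchimedean v) (hζ : IsPrimitiveRoot ζ (n + 1)) (hc : v c ≤ 1)
    (h0 : ¬ PreP (gc (n + 1) c) 0) {x y : K} (hx : PreP (gc (n + 1) c) x)
    (hy : PreP (gc (n + 1) c) y) (i : ℕ) :
    dl v ((gc (n + 1) c)^[i + 1] x) ((gc (n + 1) c)^[i + 1] y) ≤
      dl v (gc (n + 1) c x) (gc (n + 1) c y) := by
  induction i with
  | zero => exact le_rfl
  | succ i ih =>
    rw [iterate_succ_apply', iterate_succ_apply' (gc (n + 1) c) (i + 1) y]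
    exact (dl_mono hna hζ hc (gc_den h0 (hx.iter _)) (gc_den h0 (hy.iter _))).trans ih

/-- two periodic points at a good place -/
lemma dl_per (hna : IsNonarchimedean v) (hζ : IsPrimitiveRoot ζ (n + 1)) (hc : v c ≤ 1)
    (h0 : ¬ PreP (gc (n + 1) c) 0) {x y : K} (hx : x ∈ periodicPts (gc (n + 1) c))
    (hy : y ∈ periodicPts (gc (n + 1) c)) (hne : x ≠ y) {η : K} (hη : η ^ (n + 1) = 1)
    (hη1 : η ≠ 1) : dl v x (η * y) = 1 := by
  obtain ⟨k, hk, rfl⟩ := root_pow hζ hη hη1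
  obtain ⟨N, hN, hxN⟩ := hx
  obtain ⟨M, hM, hyM⟩ := hy
  have hxP : PreP (gc (n + 1) c) x := PreP.of_per ⟨N, hN, hxN⟩
  have hyP : PreP (gc (n + 1) c) y := PreP.of_per ⟨M, hM, hyM⟩
  have h1 : (gc (n + 1) c)^[M * N] x = x := (hxN.const_mul M)
  have h2 : (gc (n + 1) c)^[M * N] y = y := (hyM.mul_const N)
  obtain ⟨P, hP⟩ : ∃ P, M * N = P + 1 := ⟨M * N - 1, by
    have := Nat.mul_pos hM hN
    omega⟩
  rw [hP] at h1 h2
  have h3 := dl_anti hna hζ hc h0 hxP hyP P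
  rw [h1, h2, dl_step hna hζ hc (gc_den h0 hxP) (gc_den h0 hyP), Finset.prod_range_succ',
    pow_zero, one_mul] at h3
  have h4 := dl_pos (v := v) hne
  have h5 : 1 ≤ ∏ j ∈ Finset.range n, dl v x (ζ ^ (j + 1) * y) := by
    by_contra h
    push Not at h
    nlinarith
  exact fac_one _ (fun j => dl v x (ζ ^ (j + 1) * y)) (fun _ _ => dl_nonneg _ _)
    (fun j _ => dl_le_one hna _ _) h5 (Finset.mem_range.2 hk)

/-- if the images are far from each other -/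
lemma dl_iter (hna : IsNonarchimedean v) (hζ : IsPrimitiveRoot ζ (n + 1)) (hc : v c ≤ 1)
    (h0 : ¬ PreP (gc (n + 1) c) 0) {x y : K} (hx : PreP (gc (n + 1) c) x)
    (hy : PreP (gc (n + 1) c) y) {k : ℕ} (hk : 1 ≤ k)
    (h : dl v ((gc (n + 1) c)^[k] x) ((gc (n + 1) c)^[k] y) = 1) {η : K}
    (hη : η ^ (n + 1) = 1) : dl v x (η * y) = 1 := by
  obtain ⟨i, rfl⟩ : ∃ i, k = i + 1 := ⟨k - 1, by omega⟩
  have h1 := dl_anti hna hζ hc h0 hx hy i
  rw [h, dl_step hna hζ hc (gc_den h0 hx) (gc_den h0 hy)] at h1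
  obtain ⟨j, hj, rfl⟩ := hζ.eq_pow_of_pow_eq_one hη
  exact fac_one _ (fun j => dl v x (ζ ^ j * y)) (fun _ _ => dl_nonneg _ _)
    (fun j _ => dl_le_one hna _ _) h1 (Finset.mem_range.2 hj)

/-- ratios -/
lemma dl_ratio {x y η η' : K} (hη : η ^ (n + 1) = 1) (hη' : η' ^ (n + 1) = 1)
    (h : dl v x (η * y) = 1) (h' : dl v x (η' * y) = 1) :
    v ((x - η * y) / (x - η' * y)) = 1 := by
  have hp := mul_pos (mx_pos (v := v) x) (mx_pos (v := v) y)
  unfold dl at h h'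
  rw [mx_root hη, div_eq_one_iff_eq hp.ne'] at h
  rw [mx_root hη', div_eq_one_iff_eq hp.ne'] at h'
  rw [map_div₀, h, h', div_self hp.ne']

/-- a fixed point at a good place -/
lemma v_fix_good (hna : IsNonarchimedean v) (hc : v c ≤ 1) {p : K} (hp0 : p ≠ 0)
    (hfix : gc (n + 1) c p = p) : v p = 1 := by
  have h1 : (p ^ (n + 1) + c) * p = 1 := by
    have h2 := congrArg (fun t => t⁻¹) hfix
    unfold gc at h2
    rw [inv_inv] at h2
    rw [h2, inv_mul_cancel₀ hp0]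
  have h3 := congrArg v h1
  rw [map_mul, map_one] at h3
  have hpp : 0 < v p := v.pos hp0
  rcases lt_trichotomy (v p) 1 with h | h | h
  · exfalso
    have h4 : v (p ^ (n + 1) + c) ≤ 1 := by
      refine (hna _ _).trans (max_le ?_ hc)
      rw [map_pow]
      exact pow_le_one₀ (v.nonneg _) h.le
    nlinarith
  · exact h
  · exfalso
    have h4 : 1 < v p ^ (n + 1) := one_lt_pow₀ h (Nat.succ_ne_zero n)
    have h5 : v (p ^ (n + 1) + c) = v p ^ (n + 1) := by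
      rw [na_add_eq hna, map_pow]
      rw [map_pow]
      exact hc.trans_lt h4
    rw [h5] at h3
    nlinarith

/-- a fixed point and its tails -/
lemma dl_fix (hna : IsNonarchimedean v) (hζ : IsPrimitiveRoot ζ (n + 1))
    (hv : v ((n : K) + 1) = 1) (hc : v c ≤ 1) {p θ : K} (hp0 : p ≠ 0)
    (hfix : gc (n + 1) c p = p) (hθ : θ ^ (n + 1) = 1) (hθ1 : θ ≠ 1) : dl v (θ * p) p = 1 := by
  have h1 := v_fix_good hna hc hp0 hfix
  unfold dl
  rw [mx_root hθ, h1, max_self, mul_one, div_one]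
  have e : θ * p - p = -((1 - θ) * p) := by ring
  rw [e, v.map_neg, map_mul, v_one_sub hna hζ hv hθ hθ1, h1, mul_one]

end chord

section adm

variable {K : Type} [Field K] {n : ℕ} {ζ : K} {c : K}

/-- admissible pairs -/
def AdmR (n : ℕ) (x y : K) : Prop :=
  (∀ η : K, η ^ (n + 1) = 1 → η ≠ 1 → x ≠ η * y) ∧
  ∀ v : AbsoluteValue K ℝ, IsNonarchimedean v → v ((n : K) + 1) = 1 →
    ∀ η η' : K, η ^ (n + 1) = 1 → η ≠ 1 → η' ^ (n + 1) = 1 → η' ≠ 1 →
      ∃ z : K, z ≠ 0 ∧ v ((x - η * y) / (x - η' * y)) = v (z ^ (n + 2))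

lemma gc_inj_per {x y : K} (hx : x ∈ periodicPts (gc (n + 1) c))
    (hy : y ∈ periodicPts (gc (n + 1) c)) (h : gc (n + 1) c x = gc (n + 1) c y) : x = y :=
  (bijOn_periodicPts (gc (n + 1) c)).injOn hx hy h

lemma gc_iter_inj {x y : K} (hx : x ∈ periodicPts (gc (n + 1) c))
    (hy : y ∈ periodicPts (gc (n + 1) c)) {k : ℕ}
    (h : (gc (n + 1) c)^[k] x = (gc (n + 1) c)^[k] y) : x = y := by
  induction k with
  | zero => exact h
  | succ k ih =>
    rw [iterate_succ_apply', iterate_succ_apply'] at h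
    exact ih (gc_inj_per (per_iter hx _) (per_iter hy _) h)

lemma gc_root' {x y η : K} (hη : η ^ (n + 1) = 1) (h : x = η * y) :
    gc (n + 1) c x = gc (n + 1) c y := by rw [h, gc_root hη]

/-- bad places: `x` with nonfixed image, any `y` -/
lemma adm_bad (hζ : IsPrimitiveRoot ζ (n + 1)) (h0 : ¬ PreP (gc (n + 1) c) 0) {x y : K}
    (hx : PreP (gc (n + 1) c) x) (hy : PreP (gc (n + 1) c) y)
    (hfix : gc (n + 1) c (gc (n + 1) c x) ≠ gc (n + 1) c x)
    {v : AbsoluteValue K ℝ} (hna : IsNonarchimedean v) (hv : v ((n : K) + 1) = 1) (hc : 1 < v c)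
    {η η' : K} (hη : η ^ (n + 1) = 1) (hη' : η' ^ (n + 1) = 1) (hne : x ≠ η * y)
    (hne' : x ≠ η' * y) :
    ∃ z : K, z ≠ 0 ∧ v ((x - η * y) / (x - η' * y)) = v (z ^ (n + 2)) :=
  na_ratio hna hζ hv hc h0 hx hy ((na_badV hna hζ hv hc).good_out h0 hx hfix)
    (lt_or_ge 1 (v y)) hη hη' hne hne'

/-- two periodic points -/
lemma admR_per (hζ : IsPrimitiveRoot ζ (n + 1)) (h0 : ¬ PreP (gc (n + 1) c) 0) {x y : K}
    (hx : x ∈ periodicPts (gc (n + 1) c)) (hy : y ∈ periodicPts (gc (n + 1) c)) (hne : x ≠ y)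
    (hfix : gc (n + 1) c (gc (n + 1) c x) ≠ gc (n + 1) c x) : AdmR n x y := by
  have h1 : ∀ η : K, η ^ (n + 1) = 1 → η ≠ 1 → x ≠ η * y := fun η hη _ h =>
    hne (gc_inj_per hx hy (gc_root' hη h))
  refine ⟨h1, fun v hna hv η η' hη hη1 hη' hη1' => ?_⟩
  rcases le_or_gt (v c) 1 with hc | hc
  · refine ⟨1, one_ne_zero, ?_⟩
    rw [one_pow, map_one]
    exact dl_ratio hη hη' (dl_per hna hζ hc h0 hx hy hne hη hη1)
      (dl_per hna hζ hc h0 hx hy hne hη' hη1')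
  · exact adm_bad hζ h0 (PreP.of_per hx) (PreP.of_per hy) hfix hna hv hc hη hη' (h1 η hη hη1)
      (h1 η' hη' hη1')

/-- a tail and a periodic point -/
lemma admR_tail (hζ : IsPrimitiveRoot ζ (n + 1)) (h0 : ¬ PreP (gc (n + 1) c) 0) {x y w θ : K}
    (hx : PreP (gc (n + 1) c) x) (hx' : gc (n + 1) c x ∉ periodicPts (gc (n + 1) c))
    (hy : y ∈ periodicPts (gc (n + 1) c)) (hw : w ∈ periodicPts (gc (n + 1) c)) {k : ℕ}
    (hk : 1 ≤ k) (hθ : θ ^ (n + 1) = 1) (hθ1 : θ ≠ 1) (hkx : (gc (n + 1) c)^[k] x = θ * w)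
    (hne : (gc (n + 1) c)^[k] y ≠ w ∨ (w = y ∧ gc (n + 1) c y = y)) : AdmR n x y := by
  have h1 : ∀ η : K, η ^ (n + 1) = 1 → η ≠ 1 → x ≠ η * y := fun η hη _ h =>
    hx' ((gc_root' hη h : gc (n + 1) c x = gc (n + 1) c y) ▸ per_map hy)
  have hfix : gc (n + 1) c (gc (n + 1) c x) ≠ gc (n + 1) c x := by
    intro h
    exact hx' ⟨1, one_pos, h⟩
  refine ⟨h1, fun v hna hv η η' hη hη1 hη' hη1' => ?_⟩
  rcases le_or_gt (v c) 1 with hc | hc
  · refine ⟨1, one_ne_zero, ?_⟩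
    have h2 : dl v ((gc (n + 1) c)^[k] x) ((gc (n + 1) c)^[k] y) = 1 := by
      rcases hne with hne | ⟨rfl, hfy⟩
      · rw [hkx]
        have h3 := dl_per hna hζ hc h0 (per_iter hy k) hw hne hθ hθ1
        unfold dl at h3 ⊢
        rw [← v.map_neg, neg_sub, mul_comm (max (v (θ * w)) 1)]
        exact h3
      · rw [hkx, Function.iterate_fixed hfy k]
        exact dl_fix hna hζ hv hc (gc_zero_pre h0 (PreP.of_per hw)) hfy hθ hθ1
    rw [one_pow, map_one]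
    exact dl_ratio hη hη' (dl_iter hna hζ hc h0 hx (PreP.of_per hy) hk h2 hη)
      (dl_iter hna hζ hc h0 hx (PreP.of_per hy) hk h2 hη')
  · exact adm_bad hζ h0 hx (PreP.of_per hy) hfix hna hv hc hη hη' (h1 η hη hη1)
      (h1 η' hη' hη1')

/-- the structure of the tails -/
lemma tailR {x : K} (h0 : ¬ PreP (gc (n + 1) c) 0) (hx : PreP (gc (n + 1) c) x)
    (hx' : gc (n + 1) c x ∉ periodicPts (gc (n + 1) c)) :
    ∃ k : ℕ, 1 ≤ k ∧ ∃ θ w : K, θ ^ (n + 1) = 1 ∧ θ ≠ 1 ∧ w ∈ periodicPts (gc (n + 1) c) ∧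
      (gc (n + 1) c)^[k] x = θ * w := by
  classical
  obtain ⟨f, hf⟩ : ∃ f, f = gc (n + 1) c := ⟨_, rfl⟩
  rw [← hf] at h0 hx hx' ⊢
  have hex := hx.exists_per
  obtain ⟨m, hm, hmin⟩ : ∃ m, f^[m] x ∈ periodicPts f ∧ ∀ j < m, f^[j] x ∉ periodicPts f :=
    ⟨Nat.find hex, Nat.find_spec hex, fun j hj => Nat.find_min hex hj⟩
  have hm0 : m ≠ 0 := by
    rintro rfl
    exact hx' (per_map hm)
  have hm1 : m ≠ 1 := by
    rintro rfl
    exact hx' hm
  obtain ⟨k, rfl⟩ : ∃ k, m = k + 1 := ⟨m - 1, by omega⟩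
  refine ⟨k, by omega, ?_⟩
  obtain ⟨w, hw, hwe⟩ := (bijOn_periodicPts f).surjOn hm
  rw [iterate_succ_apply'] at hwe
  have hw0 : w ≠ 0 := by
    rintro rfl
    exact h0 (PreP.of_per hw)
  have hpow : (f^[k] x) ^ (n + 1) = w ^ (n + 1) := by
    rw [hf] at hwe ⊢
    exact (gc_inj_pow hwe).symm
  refine ⟨f^[k] x / w, w, ?_, ?_, hw, ?_⟩
  · rw [div_pow, hpow, div_self (pow_ne_zero _ hw0)]
  · intro h
    rw [div_eq_one_iff_eq hw0] at h
    exact hmin k (by omega) (h ▸ hw)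
  · rw [div_mul_cancel₀ _ hw0]

end adm

end Pool.Agent.KS6_58
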