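import Pool.Agent.KS6_58.RD2
import Pool.Agent.KS6_58.PG

/-!
# Heights for `1 / (x ^ (n + 1) + c)`
-/

set_option autoImplicit false

namespace Pool.Agent.KS6_58

open Function Height Height.AdmissibleAbsValues Pool.Agent.H437R2.Man NumberField

section any

variable {K : Type} [Field K] {n : ℕ} {ζ : K}

/-- a lower bound for the distances of the roots of unity -/
lemma kap (v : AbsoluteValue K ℝ) (hn : 1 ≤ n) (hζ : IsPrimitiveRoot ζ (n + 1)) : ∃ κ : ℝ, 0 < κ ∧
    ∀ η : K, η ^ (n + 1) = 1 → η ≠ 1 → κ ≤ v (η⁻¹ - 1) := by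
  obtain ⟨k, hk, hmin⟩ := Finset.exists_min_image (Finset.range n)
    (fun k => v ((ζ ^ (k + 1))⁻¹ - 1)) ⟨0, Finset.mem_range.2 (by omega)⟩
  refine ⟨v ((ζ ^ (k + 1))⁻¹ - 1), ?_, fun η hη hη1 => ?_⟩
  · apply v.pos
    intro h
    have h1 : (ζ ^ (k + 1))⁻¹ = 1 := sub_eq_zero.1 h
    exact pow_ne hζ (Finset.mem_range.1 hk) (inv_eq_one.1 h1)
  · obtain ⟨j, hj, rfl⟩ := root_pow hζ hη hη1
    exact hmin j (Finset.mem_range.2 hj)

lemma v_pow_sub (v : AbsoluteValue K ℝ) (d : ℕ) {z w : K} (hz : v z ≤ 1) (hw : v w ≤ 1) :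
    v (w ^ d - z ^ d) ≤ d * v (z - w) := by
  induction d with
  | zero => simp
  | succ d ih =>
    have e : w ^ (d + 1) - z ^ (d + 1) = w * (w ^ d - z ^ d) + -((z - w) * z ^ d) := by ring
    rw [e]
    refine (v.add_le _ _).trans ?_
    rw [v.map_neg, map_mul, map_mul, map_pow]
    have h1 : v w * v (w ^ d - z ^ d) ≤ 1 * (d * v (z - w)) :=
      mul_le_mul hw ih (v.nonneg _) zero_le_one
    have h2 : v (z - w) * v z ^ d ≤ v (z - w) * 1 :=
      mul_le_mul_of_nonneg_left (pow_le_one₀ (v.nonneg _) hz) (v.nonneg _)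
    push_cast
    linarith

lemma v_den (v : AbsoluteValue K ℝ) {c z : K} (hz : v z ≤ 1) : v c - 1 ≤ v (z ^ (n + 1) + c) := by
  have h1 : v c ≤ v (z ^ (n + 1) + c) + v (z ^ (n + 1)) := by
    have e : c = (z ^ (n + 1) + c) + -(z ^ (n + 1)) := by ring
    calc v c = v ((z ^ (n + 1) + c) + -(z ^ (n + 1))) := by rw [← e]
      _ ≤ _ := (v.add_le _ _).trans (by rw [v.map_neg])
  have h2 : v (z ^ (n + 1)) ≤ 1 := by
    rw [map_pow]; exact pow_le_one₀ (v.nonneg _) hz
  linarith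

/-- the threshold for the bad places -/
lemma any_badV (v : AbsoluteValue K ℝ) (hn : 1 ≤ n) (hζ : IsPrimitiveRoot ζ (n + 1)) :
    ∃ C : ℝ, 2 ≤ C ∧ ∀ c : K, C < v c → BadV v n c := by
  obtain ⟨κ, hκ, hκ'⟩ := kap v hn hζ
  refine ⟨max (n + 3) (2 / κ), le_trans (by
    have : (0 : ℝ) ≤ n := Nat.cast_nonneg _
    linarith) (le_max_left _ _), fun c hc => ?_⟩
  have hc1 : (n : ℝ) + 3 < v c := (le_max_left _ _).trans_lt hc
  have hc2 : 2 / κ < v c := (le_max_right _ _).trans_lt hc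
  have hnR : (0 : ℝ) ≤ n := Nat.cast_nonneg _
  refine ⟨fun z hz => ?_, fun z w hz hw hzw => ?_, fun η p u hη hη1 hp hu => ?_⟩
  · have := v_den (n := n) v (c := c) hz
    linarith
  · have h1 := v_den (n := n) v (c := c) hz
    have h2 := v_den (n := n) v (c := c) hw
    have h3 : 0 < v (z ^ (n + 1) + c) := by linarith
    have h4 : 0 < v (w ^ (n + 1) + c) := by linarith
    have hz0 : z ^ (n + 1) + c ≠ 0 := v.pos_iff.1 h3
    have hw0 : w ^ (n + 1) + c ≠ 0 := v.pos_iff.1 h4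
    have e : gc (n + 1) c z - gc (n + 1) c w = (w ^ (n + 1) - z ^ (n + 1)) /
        ((z ^ (n + 1) + c) * (w ^ (n + 1) + c)) := by
      unfold gc
      field_simp
      ring
    have h5 := v_pow_sub v (n + 1) hz hw
    have h6 : 0 < v (z - w) := v.pos (sub_ne_zero.2 hzw)
    have h7 : ((n : ℝ) + 1) < v (z ^ (n + 1) + c) * v (w ^ (n + 1) + c) := by nlinarith
    rw [e, map_div₀, map_mul, div_lt_iff₀ (by positivity)]
    push_cast at h5
    calc v (w ^ (n + 1) - z ^ (n + 1)) ≤ (n + 1) * v (z - w) := h5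
      _ = v (z - w) * (n + 1) := mul_comm _ _
      _ < _ := mul_lt_mul_of_pos_left h7 h6
  · by_contra hu1
    push Not at hu1
    have h1 : v u ^ (n + 1) ≤ 1 := pow_le_one₀ (v.nonneg _) hu1
    have h2 : v (η⁻¹ * p ^ (n + 1)) ≤ 1 := by
      rw [map_mul, map_inv₀, v_root hη, inv_one, one_mul, map_pow]
      exact pow_le_one₀ (v.nonneg _) hp
    have h3 : v ((η⁻¹ - 1) * c) ≤ v (u ^ (n + 1)) + v (η⁻¹ * p ^ (n + 1)) := by
      have e : (η⁻¹ - 1) * c = u ^ (n + 1) + -(η⁻¹ * p ^ (n + 1)) := by rw [hu]; ring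
      rw [e]
      exact (v.add_le _ _).trans (by rw [v.map_neg])
    rw [map_mul, map_pow] at h3
    have h4 : κ * v c ≤ v (η⁻¹ - 1) * v c := mul_le_mul_of_nonneg_right (hκ' η hη hη1) (v.nonneg _)
    rw [div_lt_iff₀ hκ] at hc2
    linarith

/-- a fixed point in the unit ball is small -/
lemma any_fix (v : AbsoluteValue K ℝ) {c p : K} (hc : 2 ≤ v c) (hfix : gc (n + 1) c p = p)
    (hp : v p ≤ 1) : v c / 2 ≤ (v p)⁻¹ := by
  have h1 : p ^ (n + 1) + c = p⁻¹ := by
    have h2 := congrArg (fun t => t⁻¹) hfix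
    unfold gc at h2
    rw [inv_inv] at h2
    exact h2
  have h2 := v_den (n := n) v (c := c) hp
  rw [h1, map_inv₀] at h2
  linarith

lemma lx_of {v : AbsoluteValue K ℝ} {c t : K} {C : ℝ} (hC : 1 ≤ C) (hc : 1 ≤ v c)
    (h : v c ≤ C * v t) : lx c v ≤ lx t v + Real.log C := by
  unfold lx
  rw [max_eq_left hc, add_comm, ← Real.log_mul (by positivity) (mx_pos t).ne']
  apply Real.log_le_log (by linarith)
  refine h.trans ?_
  gcongr
  exact le_max_left _ _

lemma lx_small {v : AbsoluteValue K ℝ} {c : K} {C : ℝ} (hC : 1 ≤ C) (h : v c ≤ C) :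
    lx c v ≤ Real.log C := by
  unfold lx
  exact Real.log_le_log (mx_pos c) (max_le h hC)

/-- the bound for the powers -/
lemma pow_lt {v : AbsoluteValue K ℝ} {c x : K} (h0 : ¬ PreP (gc (n + 1) c) 0)
    (hx : PreP (gc (n + 1) c) x) (hgx : 1 < v (gc (n + 1) c x)) : v (x ^ (n + 1) + c) < 1 := by
  have h2 : 0 < v (x ^ (n + 1) + c) := v.pos (gc_den h0 hx)
  unfold gc at hgx
  rw [map_inv₀] at hgx
  rwa [one_lt_inv₀ h2] at hgx

/-- the local comparison at any place, `y` outside -/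
lemma loc_any {v : AbsoluteValue K ℝ} {c x y : K} (hc : 2 ≤ v c) (hx : v (x ^ (n + 1) + c) < 1)
    (hy : v (y ^ (n + 1) + c) < 1) (hxy : x ^ (n + 1) ≠ y ^ (n + 1)) :
    lx c v ≤ lx (((x / y) ^ (n + 1) - 1)⁻¹) v + Real.log 4 := by
  have h1 : v c - 1 ≤ v (y ^ (n + 1)) := by
    have e : c = (y ^ (n + 1) + c) + -(y ^ (n + 1)) := by ring
    have : v c ≤ v (y ^ (n + 1) + c) + v (y ^ (n + 1)) := by
      calc v c = v ((y ^ (n + 1) + c) + -(y ^ (n + 1))) := by rw [← e]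
        _ ≤ _ := (v.add_le _ _).trans (by rw [v.map_neg])
    linarith
  have hy0 : y ^ (n + 1) ≠ 0 := v.pos_iff.1 (by linarith)
  have h2 : v (x ^ (n + 1) - y ^ (n + 1)) < 2 := by
    have e : x ^ (n + 1) - y ^ (n + 1) = (x ^ (n + 1) + c) + -(y ^ (n + 1) + c) := by ring
    rw [e]
    refine (v.add_le _ _).trans_lt ?_
    rw [v.map_neg]
    linarith
  have h3 : 0 < v (x ^ (n + 1) - y ^ (n + 1)) := v.pos (sub_ne_zero.2 hxy)
  apply lx_of (by norm_num) (by linarith)
  have e : ((x / y) ^ (n + 1) - 1)⁻¹ = y ^ (n + 1) / (x ^ (n + 1) - y ^ (n + 1)) := by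
    rw [div_pow, div_sub_one hy0, inv_div]
  rw [e, map_div₀, ← mul_div_assoc, le_div_iff₀ h3]
  have h4 : v c / 2 ≤ v (y ^ (n + 1)) := by linarith
  have h5 : 0 ≤ v c := v.nonneg _
  nlinarith

/-- the local comparison at a nonarchimedean place -/
lemma loc_na {v : AbsoluteValue K ℝ} (hna : IsNonarchimedean v) {c x y : K} (hc : 1 < v c)
    (hx : v (x ^ (n + 1) + c) < 1)
    (hy : v (y ^ (n + 1) + c) < 1) (hxy : x ^ (n + 1) ≠ y ^ (n + 1)) :
    lx c v ≤ lx (((x / y) ^ (n + 1) - 1)⁻¹) v := by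
  have h1 : v (y ^ (n + 1)) = v c := by
    have e : y ^ (n + 1) = -c + (y ^ (n + 1) + c) := by ring
    rw [e, na_add_eq hna, v.map_neg]
    rw [v.map_neg]
    exact hy.trans hc
  have hy0 : y ^ (n + 1) ≠ 0 := v.pos_iff.1 (by linarith)
  have h2 : v (x ^ (n + 1) - y ^ (n + 1)) < 1 := by
    have e : x ^ (n + 1) - y ^ (n + 1) = (x ^ (n + 1) + c) - (y ^ (n + 1) + c) := by ring
    rw [e]
    exact (na_sub hna _ _).trans_lt (max_lt hx hy)
  have h3 : 0 < v (x ^ (n + 1) - y ^ (n + 1)) := v.pos (sub_ne_zero.2 hxy)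
  have := lx_of (v := v) (c := c) (t := ((x / y) ^ (n + 1) - 1)⁻¹) (C := 1) le_rfl hc.le (by
    have e : ((x / y) ^ (n + 1) - 1)⁻¹ = y ^ (n + 1) / (x ^ (n + 1) - y ^ (n + 1)) := by
      rw [div_pow, div_sub_one hy0, inv_div]
    rw [e, map_div₀, one_mul, le_div_iff₀ h3, h1]
    nlinarith)
  rwa [Real.log_one, add_zero] at this

end any

section glob

variable {K : Type} [Field K] [NumberField K] {n : ℕ} {ζ : K}

/-- heights of the preperiodic points -/
theorem htR_pre {c x : K} (hx : PreP (gc (n + 1) c) x) :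
    (n : ℝ) * logHeight₁ x ≤ logHeight₁ c + totalWeight K * Real.log 2 := by
  obtain ⟨f, hf⟩ : ∃ f, f = gc (n + 1) c := ⟨_, rfl⟩
  rw [← hf] at hx
  have hstep : ∀ y : K, ((n : ℝ) + 1) * logHeight₁ y ≤ logHeight₁ (f y) + logHeight₁ c +
      totalWeight K * Real.log 2 := by
    intro y
    have e : y ^ (n + 1) = (f y)⁻¹ - c := by
      rw [hf]
      unfold gc
      rw [inv_inv]
      ring
    have h1 := logHeight₁_sub_le ((f y)⁻¹) c
    rw [← e, logHeight₁_pow, logHeight₁_inv] at h1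
    push_cast at h1
    linarith
  obtain ⟨m, k, hmk, he⟩ := hx
  obtain ⟨i, hi, hmax⟩ := Finset.exists_max_image (Finset.range k)
    (fun i => logHeight₁ (f^[i] x)) ⟨0, Finset.mem_range.2 (by omega)⟩
  have h1 := hstep (f^[i] x)
  rw [← iterate_succ_apply' f i x] at h1
  have h2 : logHeight₁ (f^[i + 1] x) ≤ logHeight₁ (f^[i] x) := by
    rw [Finset.mem_range] at hi
    rcases Nat.lt_or_ge (i + 1) k with h | h
    · exact hmax _ (Finset.mem_range.2 h)
    · have : i + 1 = k := by omega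
      rw [this, ← he]
      exact hmax _ (Finset.mem_range.2 hmk)
  have h3 : logHeight₁ x ≤ logHeight₁ (f^[i] x) := hmax 0 (Finset.mem_range.2 (by omega))
  have h4 : (n : ℝ) * logHeight₁ x ≤ n * logHeight₁ (f^[i] x) := by gcongr
  simp only [Nat.succ_eq_add_one] at h1
  linarith

lemma FS_zero : FS (fun v : AbsoluteValue K ℝ => (0 : ℝ) * lx (1 : K) v) ∧
    gs (fun v : AbsoluteValue K ℝ => (0 : ℝ) * lx (1 : K) v) = 0 := by
  refine ⟨(FS_lx 1).const_mul _, ?_⟩
  rw [gs_const_mul (0 : ℝ) (FS_lx (1 : K)), zero_mul]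

/-- comparison of global sums -/
lemma gs_leS0 {D : K} (hD : D ≠ 0) (Cf : AbsoluteValue K ℝ → ℝ) :
    ∃ A : ℝ, 0 ≤ A ∧ ∀ f g : AbsoluteValue K ℝ → ℝ, FS f → FS g →
      (∀ v, f v ≤ g v + Cf v) →
      (∀ v : AbsoluteValue K ℝ, IsNonarchimedean v → v D = 1 → f v ≤ g v) →
      gs f ≤ gs g + A := by
  obtain ⟨A, hA, h⟩ := gs_leS hD Cf
  obtain ⟨hFS, hgs⟩ := FS_zero (K := K)
  refine ⟨A, hA, fun f g hf hg h1 h2 => ?_⟩
  have := h f g _ hf hg hFS (fun v => by simp) (fun v => by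
    have := h1 v
    simpa using this) h2
  rw [hgs, add_zero, mul_one] at this
  exact this

/-- **zero is not preperiodic for the parameters of large height** -/
theorem zeroR (hn : 2 ≤ n) (hζ : IsPrimitiveRoot ζ (n + 1)) : ∃ A : ℝ, 0 ≤ A ∧ ∀ c : K,
    PreP (gc (n + 1) c) 0 → logHeight₁ c ≤ A := by
  have hD : ((n : K) + 1) ≠ 0 := by exact_mod_cast Nat.succ_ne_zero n
  have hCv := fun v : AbsoluteValue K ℝ => any_badV (n := n) v (by omega) hζ
  choose Cv hCv2 hCvB using hCv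
  obtain ⟨A, hA0, hA⟩ := gs_leS0 hD (fun v => Real.log (Cv v))
  refine ⟨totalWeight K * Real.log 2 + n * A, by positivity, fun c h0 => ?_⟩
  obtain ⟨k, hk⟩ := h0.exists_per
  obtain ⟨p, hp⟩ : ∃ p, p = (gc (n + 1) c)^[k] 0 := ⟨_, rfl⟩
  rw [← hp] at hk
  -- at a bad place
  have hbad : ∀ v : AbsoluteValue K ℝ, BadV v n c → gc (n + 1) c p = p ∧ v p ≤ 1 := by
    intro v hB
    have hv : v p ≤ 1 := by rw [hp]; exact hB.iter (by rw [map_zero]; exact zero_le_one) k
    exact ⟨hB.per_fix hv hk, hv⟩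
  have h1 := hA (fun v => lx c v) (fun v => lx (p⁻¹) v) (FS_lx c) (FS_lx _) (fun v => ?_)
    (fun v hna hv => ?_)
  · rw [gs_lx, gs_lx, logHeight₁_inv] at h1
    have h2 := htR_pre (h0.iter k)
    rw [← hp] at h2
    have hn2 : (2 : ℝ) ≤ n := by exact_mod_cast hn
    have h3 := ht_nn c
    have h4 : (n : ℝ) * logHeight₁ c ≤ n * (logHeight₁ p + A) := by gcongr
    nlinarith
  · have hC2 := hCv2 v
    rcases le_or_gt (v c) (Cv v) with h | h
    · have := lx_small (v := v) (c := c) (by linarith) h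
      have := lxnn (p⁻¹) v
      linarith
    · obtain ⟨h2, h3⟩ := hbad v (hCvB v c h)
      apply lx_of (by linarith) (by linarith)
      have h4 := any_fix v (by linarith : 2 ≤ v c) h2 h3
      rw [map_inv₀]
      have h5 : 0 ≤ (v p)⁻¹ := inv_nonneg.2 (v.nonneg _)
      nlinarith
  · rcases le_or_gt (v c) 1 with h | h
    · have : lx c v = 0 := by unfold lx; rw [max_eq_right h, Real.log_one]
      rw [this]
      exact lxnn _ _
    · obtain ⟨h2, h3⟩ := hbad v (na_badV hna hζ hv h)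
      have h4 := na_fix hna h h2 h3
      have := lx_of (v := v) (c := c) (t := p⁻¹) (C := 1) le_rfl h.le (by
        rw [map_inv₀, one_mul]
        have : v p ≠ 0 := by
          intro h'
          rw [h', zero_mul] at h4
          exact zero_ne_one h4
        rw [← one_div, le_div_iff₀ (lt_of_le_of_ne (v.nonneg _) (Ne.symm this))]
        linarith)
      rwa [Real.log_one, add_zero] at this

/-- **the lower bound for the ratios** -/
theorem ratioR (hn : 1 ≤ n) (hζ : IsPrimitiveRoot ζ (n + 1)) : ∃ A : ℝ, 0 ≤ A ∧ ∀ c x y : K,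
    ¬ PreP (gc (n + 1) c) 0 → PreP (gc (n + 1) c) x → PreP (gc (n + 1) c) y →
    (gc (n + 1) c)^[3] x ≠ (gc (n + 1) c)^[2] x →
    ((gc (n + 1) c)^[3] y ≠ (gc (n + 1) c)^[2] y ∨ gc (n + 1) c y = y) →
    x ^ (n + 1) ≠ y ^ (n + 1) → logHeight₁ c ≤ ((n : ℝ) + 2) * logHeight₁ (x / y) + A := by
  have hD : ((n : K) + 1) ≠ 0 := by exact_mod_cast Nat.succ_ne_zero n
  have hCv := fun v : AbsoluteValue K ℝ => any_badV (n := n) v hn hζ
  choose Cv hCv2 hCvB using hCv
  obtain ⟨A, hA0, hA⟩ := gs_leS0 hD (fun v => Real.log (Cv v) + Real.log 4)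
  refine ⟨A + totalWeight K * Real.log 2, by positivity, fun c x y h0 hx hy hx3 hy3 hxy => ?_⟩
  obtain ⟨f, hf⟩ : ∃ f, f = gc (n + 1) c := ⟨_, rfl⟩
  -- outside points
  have hout : ∀ v : AbsoluteValue K ℝ, BadV v n c → ∀ z : K, PreP f z → f^[3] z ≠ f^[2] z →
      1 < v z ∧ v (z ^ (n + 1) + c) < 1 := by
    intro v hB z hz hz3
    rw [hf] at hz hz3
    have h1 : gc (n + 1) c (gc (n + 1) c (gc (n + 1) c z)) ≠ gc (n + 1) c (gc (n + 1) c z) := hz3
    have h2 : gc (n + 1) c (gc (n + 1) c z) ≠ gc (n + 1) c z := fun h => h1 (by rw [h, h])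
    exact ⟨hB.good_out h0 hz h2, pow_lt h0 hz (hB.good_out h0 hz.map h1)⟩
  have houty : ∀ v : AbsoluteValue K ℝ, BadV v n c → v (y ^ (n + 1) + c) < 1 ∨
      (v y ≤ 1 ∧ gc (n + 1) c y = y) := by
    intro v hB
    rcases hy3 with h | h
    · left
      exact (hout v hB y (by rw [hf]; exact hy) (by rw [hf]; exact h)).2
    · rcases le_or_gt (v y) 1 with h1 | h1
      · exact Or.inr ⟨h1, h⟩
      · left
        exact pow_lt h0 hy (by rw [h]; exact h1)
  have hx0 : x ≠ 0 := gc_zero_pre h0 hx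
  have hy0 : y ≠ 0 := gc_zero_pre h0 hy
  have h1 := hA (fun v => lx c v) (fun v => lx (((x / y) ^ (n + 1) - 1)⁻¹) v + lx (x / y) v)
    (FS_lx c) ((FS_lx _).add (FS_lx _)) (fun v => ?_) (fun v hna hv => ?_)
  · rw [gs_add (FS_lx _) (FS_lx _), gs_lx, gs_lx, gs_lx, logHeight₁_inv] at h1
    have h2 := logHeight₁_sub_le ((x / y) ^ (n + 1)) (1 : K)
    rw [logHeight₁_one, logHeight₁_pow] at h2
    push_cast at h2
    linarith
  · have hC2 := hCv2 v
    have n1 := lxnn (((x / y) ^ (n + 1) - 1)⁻¹) v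
    have n2 := lxnn (x / y) v
    have n3 : 0 ≤ Real.log 4 := Real.log_nonneg (by norm_num)
    have n4 : 0 ≤ Real.log (Cv v) := Real.log_nonneg (by linarith)
    rcases le_or_gt (v c) (Cv v) with h | h
    · have := lx_small (v := v) (c := c) (by linarith) h
      linarith
    · have hB := hCvB v c h
      have hc2 : 2 ≤ v c := by linarith
      obtain ⟨h2, h3⟩ := hout v hB x (by rw [hf]; exact hx) (by rw [hf]; exact hx3)
      rcases houty v hB with h4 | ⟨h4, h5⟩
      · have := loc_any hc2 h3 h4 hxy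
        linarith
      · have h6 := any_fix v hc2 h5 h4
        have h7 : lx c v ≤ lx (x / y) v + Real.log 4 := by
          apply lx_of (by norm_num) (by linarith)
          rw [map_div₀, div_eq_mul_inv]
          have h8 : 0 ≤ v c := v.nonneg _
          have h9 : 1 * (v y)⁻¹ ≤ v x * (v y)⁻¹ :=
            mul_le_mul_of_nonneg_right h2.le (inv_nonneg.2 (v.nonneg _))
          linarith
        linarith
  · have n1 := lxnn (((x / y) ^ (n + 1) - 1)⁻¹) v
    have n2 := lxnn (x / y) v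
    rcases le_or_gt (v c) 1 with h | h
    · have : lx c v = 0 := by unfold lx; rw [max_eq_right h, Real.log_one]
      linarith
    · have hB := na_badV hna hζ hv h
      obtain ⟨h2, h3⟩ := hout v hB x (by rw [hf]; exact hx) (by rw [hf]; exact hx3)
      rcases houty v hB with h4 | ⟨h4, h5⟩
      · have := loc_na hna h h3 h4 hxy
        linarith
      · have h6 := na_fix hna h h5 h4
        have hyp : 0 < v y := v.pos hy0
        have h7 := lx_of (v := v) (c := c) (t := x / y) (C := 1) le_rfl h.le (by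
          rw [map_div₀, one_mul, le_div_iff₀ hyp]
          nlinarith)
        rw [Real.log_one, add_zero] at h7
        linarith

end glob

end Pool.Agent.KS6_58
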