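import Pool.Agent.KS6_58.RH
import Pool.Agent.KS6_58.PT2

/-!
# Uniform boundedness for `1 / (x ^ d + c)`, `d ≥ 4`, over number fields
-/

set_option autoImplicit false

namespace Pool.Agent.KS6_58

open Function Polynomial Height Height.AdmissibleAbsValues NumberField

section count

variable {K : Type} [Field K] {n : ℕ} {ζ : K} {c : K}

lemma card_fibre (S : Finset K) (B : ℕ)
    (h : ∀ S' : Finset K, (∀ y ∈ S', ∃ x ∈ S, gc (n + 1) c x = y) → S'.card ≤ B) :
    S.card ≤ (n + 1) * B := by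
  classical
  calc S.card ≤ (n + 1) * (S.image (gc (n + 1) c)).card := by
        apply Finset.card_le_mul_card_image
        intro a _
        refine card_quad (Q := Polynomial.X ^ (n + 1) - Polynomial.C (a⁻¹ - c))
          (Polynomial.X_pow_sub_C_ne_zero (Nat.succ_pos n) _)
          (by rw [Polynomial.natDegree_X_pow_sub_C]) ?_
        intro x hx
        rw [Finset.mem_filter] at hx
        have h3 : (x ^ (n + 1) + c)⁻¹ = a := hx.2
        simp only [Polynomial.eval_sub, Polynomial.eval_pow, Polynomial.eval_X,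
          Polynomial.eval_C]
        rw [← h3, inv_inv]
        ring
    _ ≤ (n + 1) * B := by
        apply Nat.mul_le_mul_left
        apply h
        intro y hy
        obtain ⟨t, ht, rfl⟩ := Finset.mem_image.1 hy
        exact ⟨t, ht, rfl⟩

lemma card_fixed (h0 : ¬ PreP (gc (n + 1) c) 0) (S : Finset K)
    (h : ∀ x ∈ S, gc (n + 1) c x = x) : S.card ≤ n + 2 := by
  refine card_quad (Q := X ^ (n + 2) + (C c * X - 1)) ?_ ?_ ?_
  · intro h1
    have h2 := congrArg (fun p => coeff p (n + 2)) h1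
    have h3 : (1 : K[X]).coeff (n + 2) = 0 := by
      rw [coeff_one, if_neg (by omega)]
    simp only [coeff_add, coeff_sub, coeff_X_pow_self, coeff_C_mul, coeff_X, h3,
      coeff_zero] at h2
    rw [if_neg (by omega)] at h2
    simp at h2
  · refine (natDegree_add_le _ _).trans (max_le (by rw [natDegree_X_pow]) ?_)
    refine (natDegree_sub_le _ _).trans (max_le ?_ (by simp))
    refine (natDegree_C_mul_le _ _).trans ?_
    rw [natDegree_X]
    omega
  · intro x hx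
    have hfix := h x hx
    have hx0 : x ≠ 0 := gc_zero_pre h0 ⟨0, 1, one_pos, hfix.symm⟩
    have h2 := congrArg (fun t => t⁻¹) hfix
    unfold gc at h2
    rw [inv_inv] at h2
    have h3 : (x ^ (n + 1) + c) * x = 1 := by rw [h2, inv_mul_cancel₀ hx0]
    simp only [eval_add, eval_sub, eval_mul, eval_pow, eval_X, eval_C, eval_one]
    linear_combination h3

/-- the counting argument -/
lemma countR (hζ : IsPrimitiveRoot ζ (n + 1)) (h0 : ¬ PreP (gc (n + 1) c) 0) {B : ℕ}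
    (hB : ∀ y : K, y ∈ periodicPts (gc (n + 1) c) → ∀ S : Finset K,
      (∀ x ∈ S, PreP (gc (n + 1) c) x ∧ (gc (n + 1) c)^[3] x ≠ (gc (n + 1) c)^[2] x ∧
        gc (n + 1) c x ≠ gc (n + 1) c y ∧ AdmR n x y) → S.card ≤ B)
    {S : Finset K} (hS : ∀ x ∈ S, PreP (gc (n + 1) c) x) :
    S.card ≤ (n + 1) * ((n + 1) * (n + 2)) + ((n + 1) * (B + 1) + 2 * B) := by
  classical
  have hper3 : ∀ z, z ∈ periodicPts (gc (n + 1) c) → gc (n + 1) c z ≠ z →
      (gc (n + 1) c)^[3] z ≠ (gc (n + 1) c)^[2] z := by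
    intro z hz hne h
    apply hne
    have h1 : (gc (n + 1) c)^[2] (gc (n + 1) c z) = (gc (n + 1) c)^[2] z := h
    exact gc_iter_inj (per_map hz) hz h1
  -- points whose second image is fixed
  have c0 : ∀ S₀ : Finset K, (∀ x ∈ S₀, (gc (n + 1) c)^[3] x = (gc (n + 1) c)^[2] x) →
      S₀.card ≤ (n + 1) * ((n + 1) * (n + 2)) := by
    intro S₀ h₀
    apply card_fibre (c := c)
    intro S₁ h₁
    apply card_fibre (c := c)
    intro S₂ h₂
    apply card_fixed h0
    intro y hy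
    obtain ⟨z, hz, rfl⟩ := h₂ y hy
    obtain ⟨x, hx, rfl⟩ := h₁ z hz
    exact h₀ x hx
  -- periodic points
  have c1 : ∀ S₁ : Finset K, (∀ x ∈ S₁, x ∈ periodicPts (gc (n + 1) c) ∧ gc (n + 1) c x ≠ x) →
      S₁.card ≤ B + 1 := by
    intro S₁ h₁
    rcases S₁.eq_empty_or_nonempty with rfl | ⟨y, hy⟩
    · simp
    · rw [← Finset.card_erase_add_one hy]
      apply Nat.add_le_add_right
      apply hB y (h₁ y hy).1
      intro x hx
      rw [Finset.mem_erase] at hx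
      obtain ⟨g1, g2⟩ := h₁ x hx.2
      refine ⟨PreP.of_per g1, hper3 x g1 g2, fun h => hx.1 (gc_inj_per g1 (h₁ y hy).1 h), ?_⟩
      refine admR_per hζ h0 g1 (h₁ y hy).1 hx.1 fun h => g2 ?_
      exact gc_inj_per (per_map g1) g1 h
  -- points whose image is periodic
  have c2 : ∀ S₂ : Finset K, (∀ x ∈ S₂, gc (n + 1) c x ∈ periodicPts (gc (n + 1) c) ∧
      (gc (n + 1) c)^[3] x ≠ (gc (n + 1) c)^[2] x) → S₂.card ≤ (n + 1) * (B + 1) := by
    intro S₂ h₂
    apply card_fibre (c := c)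
    intro S₁ h₁
    apply c1
    intro y hy
    obtain ⟨x, hx, rfl⟩ := h₁ y hy
    obtain ⟨g1, g2⟩ := h₂ x hx
    refine ⟨g1, fun h => g2 ?_⟩
    show gc (n + 1) c (gc (n + 1) c (gc (n + 1) c x)) = gc (n + 1) c (gc (n + 1) c x)
    rw [h, h]
  -- the remaining points
  have c3 : ∀ S₃ : Finset K, (∀ x ∈ S₃, PreP (gc (n + 1) c) x ∧
      gc (n + 1) c x ∉ periodicPts (gc (n + 1) c) ∧
      (gc (n + 1) c)^[3] x ≠ (gc (n + 1) c)^[2] x) → S₃.card ≤ 2 * B := by
    intro S₃ h₃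
    rcases S₃.eq_empty_or_nonempty with rfl | ⟨x0, hx0⟩
    · simp
    obtain ⟨-, -, -, y1, -, -, hy1, -⟩ := tailR h0 (h₃ x0 hx0).1 (h₃ x0 hx0).2.1
    obtain ⟨y2, hy2, hy⟩ : ∃ y2, y2 ∈ periodicPts (gc (n + 1) c) ∧
        ∀ x ∈ S₃, AdmR n x y1 ∨ AdmR n x y2 := by
      by_cases hex : ∃ y2 ∈ periodicPts (gc (n + 1) c), y2 ≠ y1
      · obtain ⟨y2, hy2, hne⟩ := hex
        refine ⟨y2, hy2, fun x hx => ?_⟩
        obtain ⟨k, hk, θ, w, hθ, hθ1, hw, hkx⟩ := tailR h0 (h₃ x hx).1 (h₃ x hx).2.1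
        by_cases h : (gc (n + 1) c)^[k] y1 = w
        · right
          refine admR_tail hζ h0 (h₃ x hx).1 (h₃ x hx).2.1 hy2 hw hk hθ hθ1 hkx
            (Or.inl fun h' => ?_)
          exact hne (gc_iter_inj hy2 hy1 (h'.trans h.symm))
        · left
          exact admR_tail hζ h0 (h₃ x hx).1 (h₃ x hx).2.1 hy1 hw hk hθ hθ1 hkx (Or.inl h)
      · push Not at hex
        refine ⟨y1, hy1, fun x hx => Or.inl ?_⟩
        obtain ⟨k, hk, θ, w, hθ, hθ1, hw, hkx⟩ := tailR h0 (h₃ x hx).1 (h₃ x hx).2.1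
        exact admR_tail hζ h0 (h₃ x hx).1 (h₃ x hx).2.1 hy1 hw hk hθ hθ1 hkx
          (Or.inr ⟨hex w hw, hex _ (per_map hy1)⟩)
    have hsplit : S₃ = S₃.filter (fun x => AdmR n x y1) ∪ S₃.filter (fun x => AdmR n x y2) := by
      ext x
      rw [Finset.mem_union, Finset.mem_filter, Finset.mem_filter, ← and_or_left]
      exact ⟨fun h => ⟨h, hy x h⟩, fun h => h.1⟩
    have hne : ∀ x ∈ S₃, ∀ y ∈ periodicPts (gc (n + 1) c), gc (n + 1) c x ≠ gc (n + 1) c y :=
      fun x hx y hy h => (h₃ x hx).2.1 (h ▸ per_map hy)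
    rw [hsplit]
    refine (Finset.card_union_le _ _).trans ?_
    rw [two_mul]
    apply Nat.add_le_add
    · apply hB y1 hy1
      intro x hx
      rw [Finset.mem_filter] at hx
      exact ⟨(h₃ x hx.1).1, (h₃ x hx.1).2.2, hne x hx.1 y1 hy1, hx.2⟩
    · apply hB y2 hy2
      intro x hx
      rw [Finset.mem_filter] at hx
      exact ⟨(h₃ x hx.1).1, (h₃ x hx.1).2.2, hne x hx.1 y2 hy2, hx.2⟩
  rw [← Finset.card_filter_add_card_filter_not
    (fun x => (gc (n + 1) c)^[3] x = (gc (n + 1) c)^[2] x)]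
  apply Nat.add_le_add
  · apply c0
    intro x hx
    rw [Finset.mem_filter] at hx
    exact hx.2
  · rw [← Finset.card_filter_add_card_filter_not
      (fun x => gc (n + 1) c x ∈ periodicPts (gc (n + 1) c))]
    apply Nat.add_le_add
    · apply c2
      intro x hx
      rw [Finset.mem_filter, Finset.mem_filter] at hx
      exact ⟨hx.2, hx.1.2⟩
    · apply c3
      intro x hx
      rw [Finset.mem_filter, Finset.mem_filter] at hx
      exact ⟨hS x hx.1.1, hx.2, hx.1.2⟩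

end count

section main

variable {K : Type} [Field K] [NumberField K] {n : ℕ} {ζ : K}

/-- the condition on the ratios -/
def ThreeP (m : ℕ) (ζ : K) (T : Finset K) (l : K) : Prop :=
  l ≠ ζ ∧ l ≠ ζ ^ 2 ∧ l ≠ ζ ^ 3 ∧ (∃ t ∈ T, ∃ b, (l - ζ) / (l - ζ ^ 3) = t * b ^ m) ∧
    ∃ t ∈ T, ∃ b, (l - ζ ^ 2) / (l - ζ ^ 3) = t * b ^ m

theorem win_three {m : ℕ} (hm : 5 ≤ m) (hζ0 : ζ ≠ 0) (hζ2 : ζ ^ 2 ≠ 1) (T : Finset K) :
    WinP (ThreeP m ζ T) := by
  classical
  have h1ζ : 1 + ζ ≠ 0 := by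
    intro h
    apply hζ2
    have : ζ = -1 := by linear_combination h
    rw [this]; ring
  have hζζ : ζ ≠ ζ ^ 3 := by
    intro h
    have : ζ * (1 - ζ ^ 2) = 0 := by linear_combination h
    rcases mul_eq_zero.1 this with h | h
    · exact hζ0 h
    · exact hζ2 (by linear_combination -h)
  obtain ⟨T', hT'⟩ : ∃ T' : Finset K, T' = T.image (fun t => ζ * t) ∪
    T.image (fun t => (1 + ζ) * t) := ⟨_, rfl⟩
  obtain ⟨Cr, hCr, hr⟩ := ht_ratio (K := K) hζζ
  refine (win_two hm (one_ne_zero (α := K)) T').comp58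
      (g := fun l => ζ * ((l - ζ) / (l - ζ ^ 3))) (C := Cr + 2 * logHeight₁ ζ)
      ?_ ?_ ?_ ?_ ?_
  · rintro l ⟨h1, h2, h3, ⟨t1, ht1, b1, hb1⟩, ⟨t2, ht2, b2, hb2⟩⟩
    have k1 : l - ζ ≠ 0 := sub_ne_zero.2 h1
    have k2 : l - ζ ^ 2 ≠ 0 := sub_ne_zero.2 h2
    have k3 : l - ζ ^ 3 ≠ 0 := sub_ne_zero.2 h3
    have e4 : ζ * ((l - ζ) / (l - ζ ^ 3)) + 1 = (1 + ζ) * ((l - ζ ^ 2) / (l - ζ ^ 3)) := by
      field_simp
      ring
    refine ⟨mul_ne_zero hζ0 (div_ne_zero k1 k3), ?_, ?_, ?_⟩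
    · show ζ * ((l - ζ) / (l - ζ ^ 3)) + 1 ≠ 0
      rw [e4]
      exact mul_ne_zero h1ζ (div_ne_zero k2 k3)
    · refine ⟨ζ * t1, ?_, b1, by simp only [hb1]; ring⟩
      rw [hT', Finset.mem_union]
      exact Or.inl (Finset.mem_image_of_mem _ ht1)
    · refine ⟨(1 + ζ) * t2, ?_, b2, ?_⟩
      · rw [hT', Finset.mem_union]
        exact Or.inr (Finset.mem_image_of_mem _ ht2)
      · show ζ * ((l - ζ) / (l - ζ ^ 3)) + 1 = _
        rw [e4, hb2]
        ring
  · intro x y hx hy hxy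
    have hx' : x - ζ ^ 3 ≠ 0 := sub_ne_zero.2 hx.2.2.1
    have hy' : y - ζ ^ 3 ≠ 0 := sub_ne_zero.2 hy.2.2.1
    have h1 := mul_left_cancel₀ hζ0 hxy
    rw [div_eq_div_iff hx' hy'] at h1
    have h2 : (ζ - ζ ^ 3) * (x - y) = 0 := by linear_combination h1
    rcases mul_eq_zero.1 h2 with h | h
    · exact absurd (sub_eq_zero.1 h) hζζ
    · exact sub_eq_zero.1 h
  · have := ht_nn ζ
    positivity
  · intro x hx
    have h1 := (hr x hx.2.2.1).1
    have h2 := (ht_mul_const hζ0 ((x - ζ) / (x - ζ ^ 3))).1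
    have := ht_nn ζ
    linarith
  · intro x hx
    have h1 := (hr x hx.2.2.1).2
    have h2 := (ht_mul_const hζ0 ((x - ζ) / (x - ζ ^ 3))).2
    linarith

/-- **uniform boundedness when the roots of unity are in the field** -/
theorem mainR_zeta (hn : 3 ≤ n) (hζ : IsPrimitiveRoot ζ (n + 1)) :
    ∃ B : ℕ, ∀ (c : K) (S : Finset K), (∀ x ∈ S, PreP (gc (n + 1) c) x) → S.card ≤ B := by
  classical
  have hD : ((n : K) + 1) ≠ 0 := by exact_mod_cast Nat.succ_ne_zero n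
  obtain ⟨T, -, hT⟩ := sel_abs (K := K) (n := n + 2) (by omega) hD
  have hnR : (3 : ℝ) ≤ n := by exact_mod_cast hn
  have hζ0 : ζ ≠ 0 := hζ.ne_zero (Nat.succ_ne_zero n)
  have hζ2 : ζ ^ 2 ≠ 1 := hζ.pow_ne_one_of_pos_of_lt (by omega) (by omega)
  obtain ⟨H0, B0, hwin⟩ := win_three (m := n + 2) (by omega) hζ0 hζ2 T (8 * (n + 2) / n) (by
    rw [le_div_iff₀ (by linarith)]
    linarith)
  obtain ⟨A1, hA1, hzero⟩ := zeroR (K := K) (by omega : 2 ≤ n) hζ
  obtain ⟨A2, hA2, hlow⟩ := ratioR (K := K) (by omega : 1 ≤ n) hζ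
  obtain ⟨l2, hl2⟩ : ∃ l2, l2 = (totalWeight K : ℝ) * Real.log 2 := ⟨_, rfl⟩
  have hl20 : 0 ≤ l2 := by rw [hl2]; positivity
  obtain ⟨H1, hH1⟩ : ∃ H1 : ℝ, H1 = A1 + 2 * A2 + l2 + 2 * (n + 2) * |H0| + 1 := ⟨_, rfl⟩
  have hfin := NumberField.finite_setOfPred_logHeight₁_le K (H1 + l2)
  refine ⟨max ((n + 1) * ((n + 1) * (n + 2)) + ((n + 1) * (B0 + 1) + 2 * B0))
    hfin.toFinset.card, fun c S hS => ?_⟩
  rcases lt_or_ge (logHeight₁ c) H1 with hc | hc
  · refine le_trans ?_ (le_max_right _ _)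
    apply Finset.card_le_card
    intro x hx
    rw [Set.Finite.mem_toFinset]
    have h1 := htR_pre (hS x hx)
    rw [← hl2] at h1
    have h2 := ht_nn x
    show logHeight₁ x ≤ H1 + l2
    nlinarith
  · refine le_trans ?_ (le_max_left _ _)
    have hH0 : 0 ≤ |H0| := abs_nonneg _
    have h0 : ¬ PreP (gc (n + 1) c) 0 := by
      intro h
      have := hzero c h
      have : 0 ≤ 2 * ((n : ℝ) + 2) * |H0| := by positivity
      linarith
    apply countR hζ h0 _ hS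
    intro y hyper S' hS'
    have hy := PreP.of_per hyper
    have hy0 : y ≠ 0 := gc_zero_pre h0 hy
    obtain ⟨h, hh⟩ : ∃ h, h = logHeight₁ c := ⟨_, rfl⟩
    rw [← hh] at hc
    have hinj : Function.Injective (fun x => x / y) := fun a b hab => by
      simpa using (div_left_inj' hy0).1 hab
    rw [← Finset.card_image_of_injective S' hinj]
    have hn0 : (0 : ℝ) < n := by linarith
    have b0 : 0 ≤ 2 * ((n : ℝ) + 2) * |H0| := by positivity
    have b1 : A2 ≤ h / 2 := by linarith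
    have b2 : l2 ≤ h := by linarith
    have b3 : H0 ≤ h / (2 * (n + 2)) := by
      rw [le_div_iff₀ (by positivity)]
      have := le_abs_self H0
      nlinarith
    apply hwin (h / (2 * (n + 2))) b3
    intro t ht
    obtain ⟨x, hx, rfl⟩ := Finset.mem_image.1 ht
    obtain ⟨hxP, hx3, hxy, hadm1, hadm2⟩ := hS' x hx
    have hy3 : (gc (n + 1) c)^[3] y ≠ (gc (n + 1) c)^[2] y ∨ gc (n + 1) c y = y := by
      by_cases h' : gc (n + 1) c y = y
      · exact Or.inr h'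
      · left
        intro h1
        exact h' (gc_iter_inj (k := 2) (per_map hyper) hyper h1)
    have hr : ∀ j : ℕ, (ζ ^ j) ^ (n + 1) = 1 := fun j => pow_root hζ j
    have hr1 : ζ ≠ 1 := hζ.ne_one (by omega)
    have hr2 : ζ ^ 2 ≠ 1 := hζ2
    have hr3 : ζ ^ 3 ≠ 1 := hζ.pow_ne_one_of_pos_of_lt (by omega) (by omega)
    have hq1 : ζ ^ (n + 1) = 1 := hζ.pow_eq_one
    have key : ∀ η η' : K, η ^ (n + 1) = 1 → η ≠ 1 → η' ^ (n + 1) = 1 → η' ≠ 1 →
        x / y ≠ η ∧ ∃ t ∈ T, ∃ b, (x / y - η) / (x / y - η') = t * b ^ (n + 2) := by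
      intro η η' hη hη1 hη' hη1'
      have k1 : x ≠ η * y := hadm1 η hη hη1
      have k2 : x ≠ η' * y := hadm1 η' hη' hη1'
      have e : (x / y - η) / (x / y - η') = (x - η * y) / (x - η' * y) := by
        have e1 : x / y - η = (x - η * y) / y := by field_simp
        have e2 : x / y - η' = (x - η' * y) / y := by field_simp
        rw [e1, e2, div_div_div_cancel_right₀ hy0]
      refine ⟨fun h' => k1 ((div_eq_iff hy0).1 h'), ?_⟩
      rw [e]
      exact hT _ (div_ne_zero (sub_ne_zero.2 k1) (sub_ne_zero.2 k2)) fun v hna hv =>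
        hadm2 v hna hv η η' hη hη1 hη' hη1'
    refine ⟨⟨?_, ?_, ?_, ?_, ?_⟩, ?_, ?_⟩
    · exact (key ζ (ζ ^ 3) hq1 hr1 (hr 3) hr3).1
    · exact (key (ζ ^ 2) (ζ ^ 3) (hr 2) hr2 (hr 3) hr3).1
    · exact (key (ζ ^ 3) (ζ ^ 3) (hr 3) hr3 (hr 3) hr3).1
    · exact (key ζ (ζ ^ 3) hq1 hr1 (hr 3) hr3).2
    · exact (key (ζ ^ 2) (ζ ^ 3) (hr 2) hr2 (hr 3) hr3).2
    · have h1 := hlow c x y h0 hxP hy hx3 hy3 (fun h' => hxy (by unfold gc; rw [h']))
      rw [← hh] at h1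
      rw [div_le_iff₀ (by positivity)]
      nlinarith
    · have h1 := htR_pre hxP
      have h2 := htR_pre hy
      rw [← hl2, ← hh] at h1 h2
      have h3 : logHeight₁ (x / y) ≤ logHeight₁ x + logHeight₁ y := by
        rw [div_eq_mul_inv]
        have := logHeight₁_mul_le x y⁻¹
        rwa [logHeight₁_inv] at this
      have h4 : 8 * ((n : ℝ) + 2) / n * (h / (2 * (n + 2))) = 4 * h / n := by
        field_simp
        ring
      rw [h4]
      show logHeight₁ (x / y) ≤ 4 * h / n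
      rw [le_div_iff₀ hn0]
      nlinarith

/-- **uniform boundedness for `1 / (x ^ d + c)`** -/
theorem mainR {K : Type} [Field K] [NumberField K] {d : ℕ} (hd : 4 ≤ d) :
    ∃ B : ℕ, ∀ (c : K) (S : Finset K), (∀ x ∈ S, PreP (gc d c) x) → S.card ≤ B := by
  classical
  obtain ⟨n, rfl⟩ : ∃ n, d = n + 1 := ⟨d - 1, by omega⟩
  have : NeZero ((n + 1 : ℕ) : K) := ⟨by exact_mod_cast Nat.succ_ne_zero n⟩
  obtain ⟨B, hB⟩ := mainR_zeta (K := CyclotomicField (n + 1) K) (n := n) (by omega)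
    (IsCyclotomicExtension.zeta_spec (n + 1) K (CyclotomicField (n + 1) K))
  refine ⟨B, fun c S hS => ?_⟩
  rw [← Finset.card_image_of_injective S (algebraMap K (CyclotomicField (n + 1) K)).injective]
  apply hB (algebraMap K (CyclotomicField (n + 1) K) c)
  intro y hy
  obtain ⟨x, hx, rfl⟩ := Finset.mem_image.1 hy
  obtain ⟨i, j, hij, h⟩ := hS x hx
  have hs : Function.Semiconj (algebraMap K (CyclotomicField (n + 1) K)) (gc (n + 1) c)
      (gc (n + 1) (algebraMap K (CyclotomicField (n + 1) K) c)) := by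
    intro t
    unfold gc
    rw [map_inv₀, map_add, map_pow]
  refine ⟨i, j, hij, ?_⟩
  rw [← hs.iterate_right i x, ← hs.iterate_right j x, h]

end main

end Pool.Agent.KS6_58
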