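import Pool.Agent.KS6_58.RM
import Pool.Agent.KS6_58.PG

/-!
# Local dynamics of `1 / (P(x) + c)`
-/

set_option autoImplicit false

namespace Pool.Agent.KS6_58

open Function Polynomial

/-- the map `1 / (P(x) + c)` -/
def gP {K : Type} [Field K] (P : K[X]) (c : K) : K → K := fun x => (P.eval x + c)⁻¹

section basin

variable {K : Type} [Field K] {v : AbsoluteValue K ℝ} {P : K[X]} {c : K}

/-- the conditions at a bad place -/
structure BadP (v : AbsoluteValue K ℝ) (P : K[X]) (c : K) : Prop where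
  inv : ∀ z, v z ≤ 1 → 1 ≤ v (P.eval z + c)
  con : ∀ z w, v z ≤ 1 → v w ≤ 1 → z ≠ w → v (gP P c z - gP P c w) < v (z - w)

lemma BadP.inv' (hB : BadP v P c) {z : K} (hz : v z ≤ 1) : v (gP P c z) ≤ 1 := by
  unfold gP
  rw [map_inv₀]
  exact inv_le_one_of_one_le₀ (hB.inv z hz)

lemma BadP.iter (hB : BadP v P c) {z : K} (hz : v z ≤ 1) (k : ℕ) : v ((gP P c)^[k] z) ≤ 1 := by
  induction k with
  | zero => exact hz
  | succ k ih => rw [iterate_succ_apply']; exact hB.inv' ih

/-- periodic points in the unit ball are fixed -/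
lemma BadP.per_fix (hB : BadP v P c) {a : K} (ha : v a ≤ 1) (hp : a ∈ periodicPts (gP P c)) :
    gP P c a = a := by
  by_contra hne
  obtain ⟨f, hf⟩ : ∃ f, f = gP P c := ⟨_, rfl⟩
  rw [← hf] at hp hne
  obtain ⟨N, hN, hNa⟩ := hp
  have hap : a ∈ periodicPts f := ⟨N, hN, hNa⟩
  refine not_pre (f := Prod.map f f) {z : K × K | v z.1 ≤ 1 ∧ v z.2 ≤ 1 ∧ z.1 ≠ z.2 ∧
    z.1 ∈ periodicPts f ∧ z.2 ∈ periodicPts f} (fun z => - v (z.1 - z.2)) ?_ (y := (a, f a)) ?_ ?_
  · rintro ⟨x, y⟩ ⟨hx, hy, hxy, hxp, hyp⟩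
    simp only at hx hy hxy hxp hyp
    simp only [Prod.map_apply, Set.mem_ofPred_eq]
    refine ⟨⟨?_, ?_, ?_, per_map hxp, per_map hyp⟩, ?_⟩
    · rw [hf]; exact hB.inv' hx
    · rw [hf]; exact hB.inv' hy
    · exact fun h => hxy ((bijOn_periodicPts f).injOn hxp hyp h)
    · rw [neg_lt_neg_iff, hf]
      exact hB.con x y hx hy hxy
  · refine ⟨ha, ?_, Ne.symm hne, hap, per_map hap⟩
    rw [hf]
    exact hB.inv' ha
  · refine ⟨0, N, hN, ?_⟩
    have h1 : f^[N] a = a := hNa
    have h2 : f^[N] (f a) = f a := by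
      rw [← iterate_succ_apply, iterate_succ_apply', h1]
    rw [iterate_zero, id, Prod.map_iterate, Prod.map_apply, h1, h2]

lemma gP_inj_per {x y : K} (hx : x ∈ periodicPts (gP P c)) (hy : y ∈ periodicPts (gP P c))
    (h : gP P c x = gP P c y) : x = y := (bijOn_periodicPts (gP P c)).injOn hx hy h

lemma gP_iter_inj {x y : K} (hx : x ∈ periodicPts (gP P c))
    (hy : y ∈ periodicPts (gP P c)) {k : ℕ} (h : (gP P c)^[k] x = (gP P c)^[k] y) : x = y := by
  induction k with
  | zero => exact h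
  | succ k ih =>
    rw [iterate_succ_apply', iterate_succ_apply'] at h
    exact ih (gP_inj_per (per_iter hx _) (per_iter hy _) h)

/-- the orbit of a point stays outside the unit ball -/
def Out (v : AbsoluteValue K ℝ) (P : K[X]) (c x : K) : Prop := ∀ k, 1 < v ((gP P c)^[k] x)

lemma Out.map {x : K} (h : Out v P c x) : Out v P c (gP P c x) := fun k => by
  rw [← iterate_succ_apply]
  exact h (k + 1)

lemma Out.gt {x : K} (h : Out v P c x) : 1 < v x := h 0

/-- a periodic point which is not fixed stays outside the unit ball -/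
lemma BadP.out (hB : BadP v P c) {x : K} (hx : x ∈ periodicPts (gP P c)) (hne : gP P c x ≠ x) :
    Out v P c x := by
  intro k
  by_contra h
  push Not at h
  have h1 := hB.per_fix h (per_iter hx k)
  rw [← iterate_succ_apply' (gP P c) k x, iterate_succ_apply] at h1
  exact hne (gP_iter_inj (per_map hx) hx h1)

lemma Out.lt {x : K} (h : Out v P c x) : v (P.eval x + c) < 1 ∧ P.eval x + c ≠ 0 := by
  have h1 := h 1
  rw [iterate_one] at h1
  unfold gP at h1
  rw [map_inv₀] at h1
  have h2 : P.eval x + c ≠ 0 := by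
    intro h'
    rw [h', map_zero, inv_zero] at h1
    linarith
  have h3 : 0 < v (P.eval x + c) := v.pos h2
  exact ⟨by rwa [one_lt_inv₀ h3] at h1, h2⟩

lemma Out.of_eq {x y : K} (h : Out v P c x) (hy : 1 < v y) (he : gP P c y = gP P c x) :
    Out v P c y := by
  intro k
  rcases k with _ | k
  · exact hy
  · rw [iterate_succ_apply, he, ← iterate_succ_apply]
    exact h _

end basin

section na

variable {K : Type} [Field K] {v : AbsoluteValue K ℝ} {n : ℕ} {P : K[X]} {c : K}

lemma LD.badP (h : LD v n P) (hc : 1 < v c) : BadP v P c := by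
  have hden : ∀ z, v z ≤ 1 → v (P.eval z + c) = v c := fun z hz => by
    rw [add_comm, na_add_eq h.na]
    exact (h.eval_le_one hz).trans_lt hc
  have hc0 : 0 < v c := one_pos.trans hc
  refine ⟨fun z hz => by rw [hden z hz]; exact hc.le, fun z w hz hw hzw => ?_⟩
  have hz0 : P.eval z + c ≠ 0 := v.pos_iff.1 (by rw [hden z hz]; exact hc0)
  have hw0 : P.eval w + c ≠ 0 := v.pos_iff.1 (by rw [hden w hw]; exact hc0)
  have e : gP P c z - gP P c w = -((P.eval z - P.eval w) /
      ((P.eval z + c) * (P.eval w + c))) := by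
    unfold gP
    field_simp
    ring
  have h1 := na_eval_sub h.na h.int h.deg.le (le_refl (1 : ℝ)) hz hw
  rw [one_pow, mul_one] at h1
  have h2 : 0 < v (z - w) := v.pos (sub_ne_zero.2 hzw)
  have h3 : 1 < v c * v c := by nlinarith
  rw [e, v.map_neg, map_div₀, map_mul, hden z hz, hden w hw, div_lt_iff₀ (by positivity)]
  calc v (P.eval z - P.eval w) ≤ v (z - w) * 1 := by rw [mul_one]; exact h1
    _ < v (z - w) * (v c * v c) := mul_lt_mul_of_pos_left h3 h2

lemma LD.out_R (h : LD v n P) (hc : 1 < v c) {x : K} (hx : Out v P c x) :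
    v x ^ (n + 1) = v c := by
  rw [← h.lead hx.gt]
  have e : P.eval x = -c + (P.eval x + c) := by ring
  rw [e, na_add_eq h.na, v.map_neg]
  rw [v.map_neg]
  exact hx.lt.1.trans hc

lemma LD.out_inv (h : LD v n P) (hc : 1 < v c) {x : K} (hx : Out v P c x) :
    v (P.eval x + c) = (v x)⁻¹ := by
  have h1 : v (gP P c x) = v x := bad_eq (h.out_R hc hx.map) (h.out_R hc hx)
  unfold gP at h1
  rw [map_inv₀] at h1
  rw [← h1, inv_inv]

/-- differences of values -/
lemma LD.poly_step (h : LD v n P) {x y : K} (hx1 : 1 < v x) (hxy : v y = v x)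
    (hlt : v (x - y) < v x) : v (P.eval x - P.eval y) = v (x - y) * v x ^ n := by
  obtain ⟨Q, hQd, hQi, hQ⟩ := erase_data h.mon h.deg h.int
  have hn := h.pos
  obtain ⟨m, rfl⟩ : ∃ m, n = m + 1 := ⟨n - 1, by omega⟩
  have e : P.eval x - P.eval y = (x ^ (m + 2) - y ^ (m + 2)) + (Q.eval x - Q.eval y) := by
    rw [hQ, hQ]
    ring
  have h0 : 0 < v x := one_pos.trans hx1
  have hlow : v (Q.eval x - Q.eval y) ≤ v (x - y) * v x ^ m :=
    na_eval_sub h.na hQi hQd hx1.le le_rfl hxy.le
  have hlead : v (x ^ (m + 2) - y ^ (m + 2)) = v (x - y) * v x ^ (m + 1) := by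
    rw [← (Commute.all x y).geom_sum₂_mul, map_mul, mul_comm]
    congr 1
    have e1 : ∑ i ∈ Finset.range (m + 2), x ^ i * y ^ (m + 2 - 1 - i) =
        (((m + 1 : ℕ) : K) + 1) * y ^ (m + 1) +
          ∑ i ∈ Finset.range (m + 2), (x ^ i - y ^ i) * y ^ (m + 2 - 1 - i) := by
      have e2 : ∀ i ∈ Finset.range (m + 2), x ^ i * y ^ (m + 2 - 1 - i) =
          y ^ (m + 1) + (x ^ i - y ^ i) * y ^ (m + 2 - 1 - i) := by
        intro i hi
        rw [Finset.mem_range] at hi
        have e3 : y ^ (m + 1) = y ^ i * y ^ (m + 2 - 1 - i) := by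
          rw [← pow_add]; congr 1; omega
        rw [e3]
        ring
      rw [Finset.sum_congr rfl e2, Finset.sum_add_distrib, Finset.sum_const, Finset.card_range,
        nsmul_eq_mul]
      push_cast
      ring
    have h1 : v ((((m + 1 : ℕ) : K) + 1) * y ^ (m + 1)) = v x ^ (m + 1) := by
      rw [map_mul, map_pow, h.one, one_mul, hxy]
    have h2 : v (∑ i ∈ Finset.range (m + 2), (x ^ i - y ^ i) * y ^ (m + 2 - 1 - i)) ≤
        v (x - y) * v x ^ m := by
      apply na_sum h.na _ _ (by positivity)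
      intro i hi
      rw [Finset.mem_range] at hi
      rcases i with _ | k
      · simp
        positivity
      · rw [map_mul, map_pow, hxy]
        calc v (x ^ (k + 1) - y ^ (k + 1)) * v x ^ (m + 2 - 1 - (k + 1))
            ≤ (v (x - y) * v x ^ k) * v x ^ (m + 2 - 1 - (k + 1)) := by
              have := na_pow_sub h.na le_rfl hxy.le k
              gcongr
          _ = v (x - y) * v x ^ m := by
              rw [mul_assoc, ← pow_add]
              congr 2
              omega
    rw [e1, na_add_eq h.na, h1]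
    rw [h1]
    refine h2.trans_lt ?_
    rw [pow_succ']
    exact mul_lt_mul_of_pos_right hlt (by positivity)
  rw [e]
  rcases (v.nonneg (x - y)).eq_or_lt with h3 | h3
  · have h4 : x = y := by
      rw [eq_comm, v.eq_zero, sub_eq_zero] at h3
      exact h3
    rw [h4]; simp
  · rw [na_add_eq h.na, hlead]
    rw [hlead]
    refine hlow.trans_lt ?_
    apply mul_lt_mul_of_pos_left _ h3
    exact pow_lt_pow_right₀ hx1 (Nat.lt_succ_self m)

/-- one step -/
lemma LD.gP_step (h : LD v n P) (hc : 1 < v c) {x y : K} (hx : Out v P c x) (hy : Out v P c y)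
    (hlt : v (x - y) < v x) : v (gP P c x - gP P c y) = v (x - y) * v x ^ (n + 2) := by
  have hxy : v y = v x := bad_eq (h.out_R hc hy) (h.out_R hc hx)
  have hx0 : 0 < v x := one_pos.trans hx.gt
  have hdx := hx.lt.2
  have hdy := hy.lt.2
  have e : gP P c x - gP P c y = -((P.eval x - P.eval y) /
      ((P.eval x + c) * (P.eval y + c))) := by
    unfold gP
    field_simp
    ring
  rw [e, v.map_neg, map_div₀, map_mul, h.out_inv hc hx, h.out_inv hc hy, hxy,
    h.poly_step hx.gt hxy hlt]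
  field_simp
  ring

/-- **distances at the bad places** -/
lemma LD.gP_dist (h : LD v n P) (hc : 1 < v c) {x y : K} (hx : Out v P c x) (hy : Out v P c y)
    (hne : x ≠ y) : ∃ N : ℕ, v (x - y) * (v x ^ N) ^ (n + 2) = v x := by
  obtain ⟨f, hf⟩ : ∃ f, f = gP P c := ⟨_, rfl⟩
  have hR : ∀ z, Out v P c z → v z = v x := fun z hz =>
    bad_eq (h.out_R hc hz) (h.out_R hc hx)
  have hvx := hx.gt
  have h00 : 0 < v (x - y) := v.pos (sub_ne_zero.2 hne)
  have hRn : 1 < v x ^ (n + 2) := one_lt_pow₀ hvx (by omega)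
  have hit : ∀ z, Out v P c z → ∀ N, Out v P c (f^[N] z) := by
    intro z hz N k
    rw [hf, ← iterate_add_apply]
    exact hz _
  have key : ∀ N : ℕ, (∃ M : ℕ, v (x - y) * (v x ^ M) ^ (n + 2) = v x) ∨
      (v (f^[N] x - f^[N] y) = v (x - y) * (v x ^ N) ^ (n + 2) ∧
        v (f^[N] x - f^[N] y) < v x) := by
    intro N
    induction N with
    | zero =>
      have h1 : v (x - y) ≤ v x := by
        refine (na_sub h.na _ _).trans ?_
        rw [hR y hy, max_self]
      rcases h1.eq_or_lt with h2 | h2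
      · left
        exact ⟨0, by simpa using h2⟩
      · right
        exact ⟨by simp, h2⟩
    | succ N ih =>
      rcases ih with h' | ⟨h1, h2⟩
      · exact Or.inl h'
      · have hxN := hit x hx N
        have hyN := hit y hy N
        have h8 := h.gP_step hc hxN hyN (by rw [hR _ hxN]; exact h2)
        rw [← hf, ← iterate_succ_apply' f, ← iterate_succ_apply' f, hR _ hxN, h1] at h8
        have h9 : v (x - y) * (v x ^ N) ^ (n + 2) * v x ^ (n + 2) =
            v (x - y) * (v x ^ (N + 1)) ^ (n + 2) := by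
          rw [pow_succ (v x) N, mul_pow]; ring
        rw [h9] at h8
        have h10 : v (f^[N + 1] x - f^[N + 1] y) ≤ v x := by
          refine (na_sub h.na _ _).trans ?_
          rw [hR _ (hit x hx _), hR _ (hit y hy _), max_self]
        rcases h10.eq_or_lt with h11 | h11
        · left
          exact ⟨N + 1, by rw [← h8, h11]⟩
        · right
          exact ⟨h8, h11⟩
  obtain ⟨N, hN⟩ := pow_unbounded_of_one_lt (v x / v (x - y)) hRn
  rcases key N with h' | ⟨h1, h2⟩
  · exact h'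
  · exfalso
    rw [h1] at h2
    rw [div_lt_iff₀ h00, ← pow_mul, mul_comm (n + 2) N, pow_mul] at hN
    linarith

/-- the chordal size of the image -/
lemma LD.mx_eval (h : LD v n P) (hc : v c ≤ 1) (x : K) :
    max (v (P.eval x + c)) 1 = max (v x) 1 ^ (n + 1) := by
  rcases le_or_gt (v x) 1 with h1 | h1
  · rw [max_eq_right h1, one_pow, max_eq_right]
    exact (h.na _ _).trans (max_le (h.eval_le_one h1) hc)
  · have h2 : 1 < v x ^ (n + 1) := one_lt_pow₀ h1 (Nat.succ_ne_zero n)
    have h3 : v (P.eval x + c) = v x ^ (n + 1) := by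
      rw [na_add_eq h.na, h.lead h1]
      rw [h.lead h1]
      exact hc.trans_lt h2
    rw [h3, max_eq_left h1.le, max_eq_left h2.le]

lemma LD.mx_gP (h : LD v n P) (hc : v c ≤ 1) {x : K} (hx : P.eval x + c ≠ 0) :
    max (v (gP P c x)) 1 = max (v x) 1 ^ (n + 1) / v (P.eval x + c) := by
  have h1 : 0 < v (P.eval x + c) := v.pos hx
  rw [← h.mx_eval hc]
  unfold gP
  rw [map_inv₀, eq_div_iff h1.ne']
  rcases le_total (v (P.eval x + c)) 1 with h' | h'
  · rw [max_eq_right h', max_eq_left ((one_le_inv₀ h1).2 h'), inv_mul_cancel₀ h1.ne']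
  · rw [max_eq_left h', max_eq_right (inv_le_one_of_one_le₀ h'), one_mul]

lemma LD.dl_eq (h : LD v n P) (hc : v c ≤ 1) {x y : K} (hx : P.eval x + c ≠ 0)
    (hy : P.eval y + c ≠ 0) : dl v (gP P c x) (gP P c y) =
      v (P.eval x - P.eval y) / (max (v x) 1 * max (v y) 1) ^ (n + 1) := by
  have h1 : 0 < v (P.eval x + c) := v.pos hx
  have h2 : 0 < v (P.eval y + c) := v.pos hy
  have e : gP P c x - gP P c y = -((P.eval x - P.eval y) /
      ((P.eval x + c) * (P.eval y + c))) := by
    unfold gP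
    field_simp
    ring
  unfold dl
  rw [e, v.map_neg, map_div₀, map_mul, h.mx_gP hc hx, h.mx_gP hc hy]
  have := mx_pos (v := v) x
  have := mx_pos (v := v) y
  rw [mul_pow]
  field_simp

/-- differences of values in the chordal metric -/
lemma na_chord (hna : IsNonarchimedean v) {G : K[X]} (hi : ∀ i, v (G.coeff i) ≤ 1) {e : ℕ}
    (hd : G.natDegree ≤ e + 1) (x y : K) :
    v (G.eval x - G.eval y) ≤ v (x - y) * (max (v x) 1 * max (v y) 1) ^ e := by
  have hx1 := le_max_right (v x) 1
  have hy1 := le_max_right (v y) 1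
  rw [eval_eq_sum_range' (Nat.lt_succ_of_le hd), eval_eq_sum_range' (Nat.lt_succ_of_le hd),
    ← Finset.sum_sub_distrib]
  have h0 : 0 ≤ v (x - y) * (max (v x) 1 * max (v y) 1) ^ e :=
    mul_nonneg (v.nonneg _) (by positivity)
  apply na_sum hna _ _ h0
  intro i hi'
  rw [Finset.mem_range] at hi'
  rcases i with _ | k
  · simpa using h0
  · rw [← mul_sub, map_mul]
    have h1 : v (x ^ (k + 1) - y ^ (k + 1)) ≤ v (x - y) * (max (v x) 1 * max (v y) 1) ^ e := by
      rw [← (Commute.all x y).geom_sum₂_mul, map_mul, mul_comm]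
      apply mul_le_mul_of_nonneg_left _ (v.nonneg _)
      apply na_sum hna _ _ (by positivity)
      intro j hj
      rw [Finset.mem_range] at hj
      rw [map_mul, map_pow, map_pow, mul_pow]
      have h2 : v x ^ j ≤ max (v x) 1 ^ e :=
        (pow_le_pow_left₀ (v.nonneg _) (le_max_left _ _) _).trans
          (pow_le_pow_right₀ hx1 (by omega))
      have h3 : v y ^ (k + 1 - 1 - j) ≤ max (v y) 1 ^ e :=
        (pow_le_pow_left₀ (v.nonneg _) (le_max_left _ _) _).trans
          (pow_le_pow_right₀ hy1 (by omega))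
      have := v.nonneg y
      gcongr
    calc v (G.coeff (k + 1)) * v (x ^ (k + 1) - y ^ (k + 1))
        ≤ 1 * (v (x - y) * (max (v x) 1 * max (v y) 1) ^ e) := by
          have := v.nonneg (x ^ (k + 1) - y ^ (k + 1))
          have h2 := hi (k + 1)
          gcongr
      _ = _ := one_mul _

end na

section sym

variable {K : Type} [Field K] {v : AbsoluteValue K ℝ} {n m : ℕ} {G : K[X]} {c ζ : K}

lemma gP_sym {η : K} (hη : η ^ m = 1) (x : K) :
    gP (expand K m G) c (η * x) = gP (expand K m G) c x := by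
  unfold gP
  rw [expand_eval, expand_eval, mul_pow, hη, one_mul]

/-- the chordal distance of the images -/
lemma LD.dl_sym (h : LD v n (expand K (m + 1) G)) (hζ : IsPrimitiveRoot ζ (m + 1))
    (hc : v c ≤ 1) {x y : K} (hx : (expand K (m + 1) G).eval x + c ≠ 0)
    (hy : (expand K (m + 1) G).eval y + c ≠ 0) :
    dl v (gP (expand K (m + 1) G) c x) (gP (expand K (m + 1) G) c y) ≤
      ∏ k ∈ Finset.range (m + 1), dl v x (ζ ^ k * y) := by
  have hGi : ∀ i, v (G.coeff i) ≤ 1 := by
    intro i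
    have := h.int ((m + 1) * i)
    rwa [coeff_expand_mul' (Nat.succ_pos m)] at this
  have hdeg := h.deg
  rw [natDegree_expand] at hdeg
  obtain ⟨e, he⟩ : ∃ e, G.natDegree = e + 1 := ⟨G.natDegree - 1, by
    rcases Nat.eq_zero_or_pos G.natDegree with h' | h'
    · rw [h', zero_mul] at hdeg; omega
    · omega⟩
  have hme : (m + 1) * e + (m + 1) = n + 1 := by rw [he] at hdeg; linarith
  have hroot : ∀ k : ℕ, (ζ ^ k) ^ (m + 1) = 1 := fun k => pow_root hζ k
  have e2 : ∏ k ∈ Finset.range (m + 1), dl v x (ζ ^ k * y) =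
      v (x ^ (m + 1) - y ^ (m + 1)) / (max (v x) 1 * max (v y) 1) ^ (m + 1) := by
    unfold dl
    rw [Finset.prod_div_distrib]
    congr 1
    · rw [fac hζ, Finset.prod_range_succ', pow_zero, one_mul, map_mul, map_prod, mul_comm]
    · rw [Finset.prod_congr rfl (g := fun _ => max (v x) 1 * max (v y) 1), Finset.prod_const,
        Finset.card_range]
      intro k _
      rw [mx_root (hroot k)]
  have hMx := mx_pos (v := v) x
  have hMy := mx_pos (v := v) y
  rw [h.dl_eq hc hx hy, e2, expand_eval, expand_eval, div_le_div_iff₀ (by positivity)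
    (by positivity)]
  have h1 := na_chord h.na hGi he.le (x ^ (m + 1)) (y ^ (m + 1))
  have h2 : ∀ z : K, max (v (z ^ (m + 1))) 1 = max (v z) 1 ^ (m + 1) := by
    intro z
    rw [map_pow]
    rcases le_total (v z) 1 with h' | h'
    · rw [max_eq_right h', one_pow, max_eq_right (pow_le_one₀ (v.nonneg _) h')]
    · rw [max_eq_left h', max_eq_left (one_le_pow₀ h')]
  rw [h2, h2, ← mul_pow, ← pow_mul] at h1
  calc v (eval (x ^ (m + 1)) G - eval (y ^ (m + 1)) G) * (max (v x) 1 * max (v y) 1) ^ (m + 1)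
      ≤ v (x ^ (m + 1) - y ^ (m + 1)) * (max (v x) 1 * max (v y) 1) ^ ((m + 1) * e) *
        (max (v x) 1 * max (v y) 1) ^ (m + 1) := by gcongr
    _ = v (x ^ (m + 1) - y ^ (m + 1)) * (max (v x) 1 * max (v y) 1) ^ (n + 1) := by
        rw [mul_assoc, ← pow_add, hme]

/-- two periodic points at a good place -/
lemma LD.dl_symper (h : LD v n (expand K (m + 1) G)) (hζ : IsPrimitiveRoot ζ (m + 1))
    (hc : v c ≤ 1) (hden : ∀ z ∈ periodicPts (gP (expand K (m + 1) G) c),
      (expand K (m + 1) G).eval z + c ≠ 0) {x y : K}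
    (hx : x ∈ periodicPts (gP (expand K (m + 1) G) c))
    (hy : y ∈ periodicPts (gP (expand K (m + 1) G) c)) (hne : x ≠ y) {η : K}
    (hη : η ^ (m + 1) = 1) (hη1 : η ≠ 1) : dl v x (η * y) = 1 := by
  obtain ⟨f, hf⟩ : ∃ f, f = gP (expand K (m + 1) G) c := ⟨_, rfl⟩
  obtain ⟨k, hk, rfl⟩ := root_pow hζ hη hη1
  rw [← hf] at hx hy hden
  have hstep : ∀ a b : K, a ∈ periodicPts f → b ∈ periodicPts f →
      dl v (f a) (f b) ≤ dl v a b * ∏ j ∈ Finset.range m, dl v a (ζ ^ (j + 1) * b) := by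
    intro a b ha hb
    have := h.dl_sym hζ hc (hden a ha) (hden b hb)
    rw [Finset.prod_range_succ', pow_zero, one_mul, ← hf, mul_comm] at this
    exact this
  have hmono : ∀ a b : K, a ∈ periodicPts f → b ∈ periodicPts f → dl v (f a) (f b) ≤ dl v a b := by
    intro a b ha hb
    refine (hstep a b ha hb).trans ?_
    apply mul_le_of_le_one_right (dl_nonneg _ _)
    exact Finset.prod_le_one (fun _ _ => dl_nonneg _ _) fun j _ => dl_le_one h.na _ _
  have hanti : ∀ i, dl v (f^[i + 1] x) (f^[i + 1] y) ≤ dl v (f x) (f y) := by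
    intro i
    induction i with
    | zero => exact le_rfl
    | succ i ih =>
      rw [iterate_succ_apply', iterate_succ_apply' f (i + 1) y]
      exact (hmono _ _ (per_iter hx _) (per_iter hy _)).trans ih
  obtain ⟨N, hN, hxN⟩ := id hx
  obtain ⟨M, hM, hyM⟩ := id hy
  have h1 : f^[M * N] x = x := (hxN.const_mul M)
  have h2 : f^[M * N] y = y := (hyM.mul_const N)
  obtain ⟨Q, hQ⟩ : ∃ Q, M * N = Q + 1 := ⟨M * N - 1, by
    have := Nat.mul_pos hM hN
    omega⟩
  rw [hQ] at h1 h2
  have h3 := (hanti Q).trans (hstep x y hx hy)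
  rw [h1, h2] at h3
  have h4 := dl_pos (v := v) hne
  have h5 : 1 ≤ ∏ j ∈ Finset.range m, dl v x (ζ ^ (j + 1) * y) := by
    by_contra h'
    push Not at h'
    nlinarith
  exact fac_one _ (fun j => dl v x (ζ ^ (j + 1) * y)) (fun _ _ => dl_nonneg _ _)
    (fun j _ => dl_le_one h.na _ _) h5 (Finset.mem_range.2 hk)

/-- **ratios** at the places with `LD` -/
lemma LD.gP_ratio (h : LD v n (expand K (m + 1) G)) (hζ : IsPrimitiveRoot ζ (m + 1))
    (hden : ∀ z ∈ periodicPts (gP (expand K (m + 1) G) c),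
      (expand K (m + 1) G).eval z + c ≠ 0) {x y : K}
    (hx : x ∈ periodicPts (gP (expand K (m + 1) G) c))
    (hy : y ∈ periodicPts (gP (expand K (m + 1) G) c)) (hne : x ≠ y)
    (hx' : gP (expand K (m + 1) G) c x ≠ x) (hy' : gP (expand K (m + 1) G) c y ≠ y) {η η' : K}
    (hη : η ^ (m + 1) = 1) (hη1 : η ≠ 1) (hη' : η' ^ (m + 1) = 1) (hη1' : η' ≠ 1) :
    ∃ z : K, z ≠ 0 ∧ v ((x - η * y) / (x - η' * y)) = v (z ^ (n + 2)) := by
  rcases le_or_gt (v c) 1 with hc | hc
  · refine ⟨1, one_ne_zero, ?_⟩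
    rw [one_pow, map_one]
    exact dl_ratio hη hη' (h.dl_symper hζ hc hden hx hy hne hη hη1)
      (h.dl_symper hζ hc hden hx hy hne hη' hη1')
  · have hB := h.badP hc
    have ox := hB.out hx hx'
    have oy := hB.out hy hy'
    have hvx := ox.gt
    have hx0 : x ≠ 0 := by
      rintro rfl
      rw [map_zero] at hvx
      linarith
    have hvx0 : 0 < v x := v.pos hx0
    have hroot : ∀ η : K, η ^ (m + 1) = 1 → Out v (expand K (m + 1) G) c (η * y) := by
      intro η hη
      apply oy.of_eq _ (gP_sym hη y)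
      rw [map_mul, v_root hη, one_mul]
      exact oy.gt
    have hneη : ∀ η : K, η ^ (m + 1) = 1 → η ≠ 1 → x ≠ η * y := by
      intro η hη _ h'
      exact hne (gP_inj_per hx hy (by rw [h', gP_sym hη]))
    obtain ⟨N, hN⟩ := h.gP_dist hc ox (hroot η hη) (hneη η hη hη1)
    obtain ⟨M, hM⟩ := h.gP_dist hc ox (hroot η' hη') (hneη η' hη' hη1')
    refine ⟨x ^ M / x ^ N, div_ne_zero (pow_ne_zero _ hx0) (pow_ne_zero _ hx0), ?_⟩
    have h1 : 0 < v (x - η' * y) := v.pos (sub_ne_zero.2 (hneη η' hη' hη1'))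
    have h3 : 0 < (v x ^ N) ^ (n + 2) := by positivity
    have h4 : 0 < (v x ^ M) ^ (n + 2) := by positivity
    rw [map_div₀, map_pow, map_div₀, map_pow, map_pow, div_pow, div_eq_div_iff h1.ne' h3.ne', hN,
      mul_comm, hM]

end sym

end Pool.Agent.KS6_58
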