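import Pool.Agent.KS6_58.RP

/-!
# Heights for `1 / (P(x) + c)`
-/

set_option autoImplicit false

namespace Pool.Agent.KS6_58

open Function Polynomial Height Height.AdmissibleAbsValues Pool.Agent.H437R2.Man NumberField

section any

variable {K : Type} [Field K] {n : ℕ} {P : K[X]}

/-- values of the polynomial on the unit ball -/
lemma any_ball (v : AbsoluteValue K ℝ) (hP : P.Monic) (hd : P.natDegree = n + 1) {W : ℝ}
    (hW1 : 1 ≤ W) (hW : ∀ k, v (P.coeff k) ≤ W) {z : K} (hz : v z ≤ 1) :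
    v (P.eval z) ≤ (n + 2) * W := by
  have h1 := P_low v hP hd hW z 1 le_rfl hz
  rw [one_pow, mul_one] at h1
  have e : P.eval z = (P.eval z - z ^ (n + 1)) + z ^ (n + 1) := by ring
  have h2 : v (z ^ (n + 1)) ≤ 1 := by rw [map_pow]; exact pow_le_one₀ (v.nonneg _) hz
  have h3 : v (P.eval z) ≤ v (P.eval z - z ^ (n + 1)) + v (z ^ (n + 1)) := by
    conv_lhs => rw [e]
    exact v.add_le _ _
  push_cast at h1
  linarith

lemma any_lip (v : AbsoluteValue K ℝ) (hd : P.natDegree = n + 1) {W : ℝ}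
    (hW1 : 1 ≤ W) (hW : ∀ k, v (P.coeff k) ≤ W) {z w : K} (hz : v z ≤ 1) (hw : v w ≤ 1) :
    v (P.eval z - P.eval w) ≤ ((n + 2) ^ 2 * W) * v (z - w) := by
  rw [eval_eq_sum_range' (Nat.lt_succ_of_le hd.le), eval_eq_sum_range' (Nat.lt_succ_of_le hd.le),
    ← Finset.sum_sub_distrib]
  refine (v_sum_le v _ _).trans ?_
  have h0 : 0 ≤ v (z - w) := v.nonneg _
  calc ∑ i ∈ Finset.range (n + 1 + 1), v (P.coeff i * z ^ i - P.coeff i * w ^ i)
      ≤ ∑ _i ∈ Finset.range (n + 1 + 1), W * (((n + 2 : ℕ) : ℝ) * v (z - w)) := by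
        apply Finset.sum_le_sum
        intro i hi
        rw [Finset.mem_range] at hi
        rw [← mul_sub, map_mul]
        have h1 := v_pow_sub v i hw hz
        have h2 : v (z ^ i - w ^ i) ≤ ((n + 2 : ℕ) : ℝ) * v (z - w) := by
          refine h1.trans ?_
          rw [← v.map_neg (w - z), neg_sub]
          have : (i : ℝ) ≤ ((n + 2 : ℕ) : ℝ) := by exact_mod_cast (by omega : i ≤ n + 2)
          gcongr
        have := hW i
        have := v.nonneg (z ^ i - w ^ i)
        gcongr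
    _ = ((n + 2) ^ 2 * W) * v (z - w) := by
        rw [Finset.sum_const, Finset.card_range, nsmul_eq_mul]
        push_cast
        ring

/-- the threshold for the bad places -/
lemma any_badP (v : AbsoluteValue K ℝ) (hP : P.Monic) (hd : P.natDegree = n + 1) {W : ℝ}
    (hW1 : 1 ≤ W) (hW : ∀ k, v (P.coeff k) ≤ W) {c : K} (hc : 2 * ((n + 3) ^ 2 * W) < v c) :
    BadP v P c := by
  have hnR : (0 : ℝ) ≤ n := Nat.cast_nonneg _
  have hT : 9 ≤ ((n : ℝ) + 3) ^ 2 * W := by nlinarith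
  have hden : ∀ z, v z ≤ 1 → ((n : ℝ) + 3) ^ 2 * W < v (P.eval z + c) := by
    intro z hz
    have h1 := any_ball v hP hd hW1 hW hz
    have h2 : v c - v (P.eval z) ≤ v (P.eval z + c) := by
      have := v_add_ge v c (P.eval z)
      rwa [add_comm c] at this
    have h3 : ((n : ℝ) + 2) * W ≤ (n + 3) ^ 2 * W := by
      have : (n : ℝ) + 2 ≤ (n + 3) ^ 2 := by nlinarith
      gcongr
    linarith
  refine ⟨fun z hz => by linarith [hden z hz], fun z w hz hw hzw => ?_⟩
  have h3 := hden z hz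
  have h4 := hden w hw
  have h3' : 0 < v (P.eval z + c) := by linarith
  have h4' : 0 < v (P.eval w + c) := by linarith
  have hz0 : P.eval z + c ≠ 0 := v.pos_iff.1 h3'
  have hw0 : P.eval w + c ≠ 0 := v.pos_iff.1 h4'
  have e : gP P c z - gP P c w = -((P.eval z - P.eval w) /
      ((P.eval z + c) * (P.eval w + c))) := by
    unfold gP
    field_simp
    ring
  have h5 := any_lip v hd hW1 hW hz hw
  have h6 : 0 < v (z - w) := v.pos (sub_ne_zero.2 hzw)
  have h7 : ((n : ℝ) + 2) ^ 2 * W < v (P.eval z + c) * v (P.eval w + c) := by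
    have h8 : ((n : ℝ) + 2) ^ 2 * W ≤ (n + 3) ^ 2 * W := by gcongr; norm_num
    nlinarith
  rw [e, v.map_neg, map_div₀, map_mul, div_lt_iff₀ (by positivity)]
  calc v (P.eval z - P.eval w) ≤ ((n + 2) ^ 2 * W) * v (z - w) := h5
    _ = v (z - w) * ((n + 2) ^ 2 * W) := mul_comm _ _
    _ < _ := mul_lt_mul_of_pos_left h7 h6

/-- the size of the points whose orbit stays outside -/
lemma any_out (v : AbsoluteValue K ℝ) (hP : P.Monic) (hd : P.natDegree = n + 1) {W : ℝ}
    (hW1 : 1 ≤ W) (hW : ∀ k, v (P.coeff k) ≤ W) {c x : K} {R : ℝ} (hR : 1 ≤ R)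
    (hc : v c = R ^ (n + 1)) (hx : Out v P c x) :
    v (x ^ (n + 1) + c) ≤ (2 * ((n + 1) * W) * ((2 * n + 4) * W) ^ n) * R ^ n := by
  have hnR : (0 : ℝ) ≤ n := Nat.cast_nonneg _
  have hlt := hx.lt.1
  have hx1 := hx.gt
  have hRn : 1 ≤ R ^ n := one_le_pow₀ hR
  have hR1 : 1 ≤ R ^ (n + 1) := one_le_pow₀ hR
  have hκ : 4 ≤ (2 * (n : ℝ) + 4) * W := by nlinarith
  have hPx : v (P.eval x) ≤ 2 * R ^ (n + 1) := by
    have e : P.eval x = (P.eval x + c) + -c := by ring
    have : v (P.eval x) ≤ v (P.eval x + c) + v c := by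
      conv_lhs => rw [e]
      exact (v.add_le _ _).trans (by rw [v.map_neg])
    linarith
  have hsize : v x ≤ ((2 * n + 4) * W) * R := by
    by_contra h
    push Not at h
    have h1 := P_low v hP hd hW x (v x) hx1.le le_rfl
    have h2 : v (x ^ (n + 1)) - v (P.eval x - x ^ (n + 1)) ≤ v (P.eval x) := by
      have := v_add_ge v (x ^ (n + 1)) (P.eval x - x ^ (n + 1))
      rwa [add_sub_cancel] at this
    rw [map_pow] at h2
    have hxn : (0 : ℝ) < v x ^ n := by positivity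
    have h3 : 2 * (((n + 1 : ℕ) : ℝ) * W) ≤ v x := by
      have : 2 * (((n + 1 : ℕ) : ℝ) * W) ≤ (2 * n + 4) * W := by push_cast; nlinarith
      nlinarith
    have h4 : (((n + 1 : ℕ) : ℝ) * W) * v x ^ n ≤ v x ^ (n + 1) / 2 := by
      rw [pow_succ]
      nlinarith
    have h5 : v x ^ (n + 1) ≤ 4 * R ^ (n + 1) := by linarith
    have h6 : (4 * R) ^ (n + 1) < v x ^ (n + 1) := by
      apply pow_lt_pow_left₀ _ (by positivity) (Nat.succ_ne_zero n)
      nlinarith
    have h7 : 4 * R ^ (n + 1) ≤ (4 * R) ^ (n + 1) := by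
      rw [mul_pow]
      have : (4 : ℝ) ≤ 4 ^ (n + 1) := by
        calc (4 : ℝ) = 4 ^ 1 := by norm_num
          _ ≤ 4 ^ (n + 1) := pow_le_pow_right₀ (by norm_num) (by omega)
      gcongr
    linarith
  have h1 := P_low v hP hd hW x (((2 * n + 4) * W) * R) (by nlinarith) hsize
  have e : x ^ (n + 1) + c = (P.eval x + c) + -(P.eval x - x ^ (n + 1)) := by ring
  have h2 : v (x ^ (n + 1) + c) ≤ v (P.eval x + c) + v (P.eval x - x ^ (n + 1)) := by
    rw [e]
    exact (v.add_le _ _).trans (by rw [v.map_neg])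
  rw [mul_pow] at h1
  have h3 : (1 : ℝ) ≤ ((n + 1) * W) * (((2 * n + 4) * W) ^ n * R ^ n) := by
    have h4 : 1 ≤ ((n : ℝ) + 1) * W := by nlinarith
    have h5 : 1 ≤ ((2 * (n : ℝ) + 4) * W) ^ n := one_le_pow₀ (by linarith)
    exact one_le_mul_of_one_le_of_one_le h4 (one_le_mul_of_one_le_of_one_le h5 hRn)
  push_cast at h1
  linarith

/-- the local lower bound for the ratios at any place -/
lemma any_ratio (v : AbsoluteValue K ℝ) (n : ℕ) : ∃ A : ℝ, 0 ≤ A ∧ ∀ P : K[X],
    P.Monic → P.natDegree = n + 1 → ∀ W : ℝ, 1 ≤ W → (∀ k, v (P.coeff k) ≤ W) →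
    ∀ c x y : K, x ∈ periodicPts (gP P c) → y ∈ periodicPts (gP P c) → gP P c x ≠ x →
    gP P c y ≠ y → x ^ (n + 1) ≠ y ^ (n + 1) →
    lx c v ≤ ((n + 1 : ℕ) : ℝ) * lx (((x / y) ^ (n + 1) - 1)⁻¹) v + A * (1 + Real.log W) := by
  have hnR : (0 : ℝ) ≤ n := Nat.cast_nonneg _
  obtain ⟨a, ha⟩ : ∃ a : ℝ, a = 8 * (n + 1) * (2 * n + 4) ^ n := ⟨_, rfl⟩
  have ha8 : 8 ≤ a := by
    rw [ha]
    have : (1 : ℝ) ≤ (2 * n + 4) ^ n := one_le_pow₀ (by linarith)
    nlinarith
  have hla : 0 ≤ Real.log a := Real.log_nonneg (by linarith)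
  have hlT : 0 ≤ Real.log (2 * ((n : ℝ) + 3) ^ 2) := Real.log_nonneg (by nlinarith)
  refine ⟨((n + 1 : ℕ) : ℝ) * (Real.log a + (n + 1)) + Real.log (2 * ((n : ℝ) + 3) ^ 2) + 1,
    by positivity, fun P hP hd W hW1 hW c x y hx hy hx' hy' hxy => ?_⟩
  have hlW : 0 ≤ Real.log W := Real.log_nonneg hW1
  have hW0 : 0 < W := by linarith
  obtain ⟨u, hu⟩ : ∃ u, u = ((x / y) ^ (n + 1) - 1)⁻¹ := ⟨_, rfl⟩
  rw [← hu]
  have hlu := lxnn u v
  have hlu' : 0 ≤ ((n + 1 : ℕ) : ℝ) * lx u v := by positivity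
  rcases le_or_gt (v c) (2 * ((n + 3) ^ 2 * W)) with h | h
  · have h1 : lx c v ≤ Real.log (2 * ((n + 3) ^ 2 * W)) := lx_small (by nlinarith) h
    rw [← mul_assoc, Real.log_mul (by positivity) (by positivity)] at h1
    have h2 : 0 ≤ ((n + 1 : ℕ) : ℝ) * (Real.log a + (n + 1)) := by positivity
    have h3 : 0 ≤ (((n + 1 : ℕ) : ℝ) * (Real.log a + (n + 1)) +
      Real.log (2 * ((n : ℝ) + 3) ^ 2)) * Real.log W := by positivity
    nlinarith
  · have hB := any_badP v hP hd hW1 hW h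
    have ox := hB.out hx hx'
    have oy := hB.out hy hy'
    have hc1 : 1 ≤ v c := by nlinarith
    obtain ⟨R, hRnn, hR⟩ : ∃ R : ℝ, 0 ≤ R ∧ v c = R ^ (n + 1) := by
      refine ⟨(v c) ^ ((((n + 1 : ℕ) : ℝ))⁻¹), Real.rpow_nonneg (v.nonneg _) _, ?_⟩
      rw [Real.rpow_inv_natCast_pow (v.nonneg _) (Nat.succ_ne_zero n)]
    have hR1 : 1 ≤ R := by
      by_contra h'
      push Not at h'
      have := pow_lt_one₀ hRnn h' (n := n + 1) (by omega)
      linarith
    obtain ⟨F, hF⟩ : ∃ F : ℝ, F = 2 * ((n + 1) * W) * ((2 * n + 4) * W) ^ n := ⟨_, rfl⟩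
    have hF4 : 4 * F = a * W ^ (n + 1) := by
      rw [hF, ha, mul_pow, pow_succ]
      ring
    have hF0 : 0 < F := by
      have : 0 < a * W ^ (n + 1) := by positivity
      linarith
    have hex := any_out v hP hd hW1 hW hR1 hR ox
    have hey := any_out v hP hd hW1 hW hR1 hR oy
    rw [← hF] at hex hey
    have hRn : 0 < R ^ n := by positivity
    -- the bound for R
    have hmain : R ≤ 4 * F * max (v u) 1 := by
      rcases lt_or_ge R (2 * F) with h1 | h1
      · have := le_max_right (v u) 1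
        nlinarith
      · have h2 : R ^ (n + 1) / 2 ≤ v (y ^ (n + 1)) := by
          have h3 : v c - v (y ^ (n + 1) + c) ≤ v (y ^ (n + 1)) := by
            have := v_sub_ge v (-c) (-(y ^ (n + 1) + c))
            rw [v.map_neg, v.map_neg] at this
            have e : -c - -(y ^ (n + 1) + c) = y ^ (n + 1) := by ring
            rwa [e] at this
          rw [hR] at h3
          have h4 : F * R ^ n ≤ R ^ (n + 1) / 2 := by
            rw [pow_succ]
            nlinarith
          linarith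
        have h3 : v (x ^ (n + 1) - y ^ (n + 1)) ≤ 2 * F * R ^ n := by
          have e : x ^ (n + 1) - y ^ (n + 1) = (x ^ (n + 1) + c) - (y ^ (n + 1) + c) := by ring
          rw [e]
          refine (v_sub_le v _ _).trans ?_
          linarith
        have h4 : 0 < v (x ^ (n + 1) - y ^ (n + 1)) := v.pos (sub_ne_zero.2 hxy)
        have hy0 : y ^ (n + 1) ≠ 0 := by
          apply v.pos_iff.1
          have : 0 < R ^ (n + 1) / 2 := by positivity
          linarith
        have h5 : u = y ^ (n + 1) / (x ^ (n + 1) - y ^ (n + 1)) := by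
          rw [hu, div_pow, div_sub_one hy0, inv_div]
        have h6 : R ≤ 4 * F * v u := by
          rw [h5, map_div₀, ← mul_div_assoc, le_div_iff₀ h4]
          calc R * v (x ^ (n + 1) - y ^ (n + 1)) ≤ R * (2 * F * R ^ n) := by gcongr
            _ = 4 * F * (R ^ (n + 1) / 2) := by rw [pow_succ]; ring
            _ ≤ 4 * F * v (y ^ (n + 1)) := by gcongr
        refine h6.trans ?_
        gcongr
        exact le_max_left _ _
    have h1 : lx c v = ((n + 1 : ℕ) : ℝ) * Real.log R := by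
      unfold lx
      rw [max_eq_left hc1, hR, Real.log_pow]
    have h2 : Real.log R ≤ Real.log (4 * F) + lx u v := by
      have := Real.log_le_log (by linarith) hmain
      rwa [Real.log_mul (by positivity) (by positivity)] at this
    have h3 : Real.log (4 * F) = Real.log a + (n + 1) * Real.log W := by
      rw [hF4, Real.log_mul (by positivity) (by positivity), Real.log_pow]
      push_cast
      ring
    rw [h1]
    have h4 : ((n + 1 : ℕ) : ℝ) * Real.log R ≤
        ((n + 1 : ℕ) : ℝ) * (Real.log a + (n + 1) * Real.log W + lx u v) := by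
      gcongr
      linarith
    have h5 : 0 ≤ ((n + 1 : ℕ) : ℝ) * (Real.log a * Real.log W) := by positivity
    have h6 : 0 ≤ ((n + 1 : ℕ) : ℝ) * ((n : ℝ) + 1) := by positivity
    have h7 : 0 ≤ Real.log (2 * ((n : ℝ) + 3) ^ 2) * Real.log W := by positivity
    have e : (((n + 1 : ℕ) : ℝ) * (Real.log a + (n + 1)) + Real.log (2 * ((n : ℝ) + 3) ^ 2) + 1) *
        (1 + Real.log W) = ((n + 1 : ℕ) : ℝ) * (Real.log a + (n + 1) * Real.log W) +
        ((n + 1 : ℕ) : ℝ) * (Real.log a * Real.log W) + ((n + 1 : ℕ) : ℝ) * ((n : ℝ) + 1) +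
        Real.log (2 * ((n : ℝ) + 3) ^ 2) * Real.log W + Real.log (2 * ((n : ℝ) + 3) ^ 2) +
        1 + Real.log W := by ring
    rw [e]
    nlinarith

/-- the height of the value of the polynomial, locally -/
lemma any_value (v : AbsoluteValue K ℝ) (n : ℕ) : ∃ A : ℝ, 0 ≤ A ∧ ∀ P : K[X],
    P.Monic → P.natDegree = n + 1 → ∀ W : ℝ, 1 ≤ W → (∀ k, v (P.coeff k) ≤ W) → ∀ x : K,
    ((n + 1 : ℕ) : ℝ) * lx x v ≤ lx (P.eval x) v + A * (1 + Real.log W) := by
  have hnR : (0 : ℝ) ≤ n := Nat.cast_nonneg _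
  have hl2 : 0 ≤ Real.log 2 := Real.log_nonneg (by norm_num)
  have hln : 0 ≤ Real.log (2 * ((n : ℝ) + 1)) := Real.log_nonneg (by linarith)
  refine ⟨((n + 1 : ℕ) : ℝ) * (Real.log (2 * ((n : ℝ) + 1)) + 1) + Real.log 2, by positivity,
    fun P hP hd W hW1 hW x => ?_⟩
  have hlW : 0 ≤ Real.log W := Real.log_nonneg hW1
  have h0 := lxnn (P.eval x) v
  rcases le_or_gt (v x) (2 * ((n + 1) * W)) with h | h
  · have h1 : lx x v ≤ Real.log (2 * ((n + 1) * W)) := lx_small (by nlinarith) h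
    rw [← mul_assoc, Real.log_mul (by positivity) (by positivity)] at h1
    have h2 : ((n + 1 : ℕ) : ℝ) * lx x v ≤
        ((n + 1 : ℕ) : ℝ) * (Real.log (2 * (n + 1)) + Real.log W) := by gcongr
    have h3 : 0 ≤ ((n + 1 : ℕ) : ℝ) * (Real.log (2 * ((n : ℝ) + 1)) * Real.log W) := by positivity
    have h4 : (0 : ℝ) ≤ ((n + 1 : ℕ) : ℝ) := Nat.cast_nonneg _
    have h5 : 0 ≤ Real.log 2 * Real.log W := by positivity
    nlinarith
  · have hx1 : 1 ≤ v x := by nlinarith
    have h1 := P_low v hP hd hW x (v x) hx1 le_rfl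
    have h2 : v (x ^ (n + 1)) - v (P.eval x - x ^ (n + 1)) ≤ v (P.eval x) := by
      have := v_add_ge v (x ^ (n + 1)) (P.eval x - x ^ (n + 1))
      rwa [add_sub_cancel] at this
    rw [map_pow] at h2
    have hxn : (0 : ℝ) < v x ^ n := by positivity
    have h4 : (((n + 1 : ℕ) : ℝ) * W) * v x ^ n ≤ v x ^ (n + 1) / 2 := by
      rw [pow_succ]
      push_cast
      nlinarith
    have h5 : v x ^ (n + 1) ≤ 2 * max (v (P.eval x)) 1 := by
      have := le_max_left (v (P.eval x)) 1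
      linarith
    have h6 := Real.log_le_log (by positivity) h5
    rw [Real.log_pow, Real.log_mul (by norm_num) (mx_pos _).ne'] at h6
    have h7 : lx x v = Real.log (v x) := by unfold lx; rw [max_eq_left hx1]
    have h8 : 0 ≤ (((n + 1 : ℕ) : ℝ) * (Real.log (2 * ((n : ℝ) + 1)) + 1)) *
      (1 + Real.log W) := by positivity
    have h9 : 0 ≤ Real.log 2 * Real.log W := by positivity
    rw [h7]
    have h10 : lx (P.eval x) v = Real.log (max (v (P.eval x)) 1) := rfl
    rw [h10]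
    nlinarith

/-- zero periodic -/
lemma any_zeroP (v : AbsoluteValue K ℝ) (n : ℕ) : ∃ A : ℝ, 0 ≤ A ∧ ∀ P : K[X],
    P.Monic → P.natDegree = n + 1 → ∀ W : ℝ, 1 ≤ W → (∀ k, v (P.coeff k) ≤ W) → ∀ c : K,
    (0 : K) ∈ periodicPts (gP P c) → lx c v ≤ A * (1 + Real.log W) := by
  have hnR : (0 : ℝ) ≤ n := Nat.cast_nonneg _
  have hlT : 0 ≤ Real.log (2 * ((n : ℝ) + 3) ^ 2) := Real.log_nonneg (by nlinarith)
  refine ⟨Real.log (2 * ((n : ℝ) + 3) ^ 2) + 1, by positivity,
    fun P hP hd W hW1 hW c h0 => ?_⟩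
  have hlW : 0 ≤ Real.log W := Real.log_nonneg hW1
  rcases le_or_gt (v c) (2 * ((n + 3) ^ 2 * W)) with h | h
  · have h1 : lx c v ≤ Real.log (2 * ((n + 3) ^ 2 * W)) := lx_small (by nlinarith) h
    rw [← mul_assoc, Real.log_mul (by positivity) (by positivity)] at h1
    nlinarith
  · exfalso
    have hB := any_badP v hP hd hW1 hW h
    have h1 := hB.per_fix (by rw [map_zero]; exact zero_le_one) h0
    have h2 := hB.inv 0 (by rw [map_zero]; exact zero_le_one)
    unfold gP at h1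
    rw [inv_eq_zero] at h1
    rw [h1, map_zero] at h2
    linarith

end any

section na

variable {K : Type} [Field K] {v : AbsoluteValue K ℝ} {n : ℕ} {P : K[X]} {c : K}

lemma LD.value (h : LD v n P) (x : K) : ((n + 1 : ℕ) : ℝ) * lx x v ≤ lx (P.eval x) v := by
  rcases le_or_gt (v x) 1 with h1 | h1
  · have : lx x v = 0 := by unfold lx; rw [max_eq_right h1, Real.log_one]
    rw [this, mul_zero]
    exact lxnn _ _
  · have h2 : 1 < v x ^ (n + 1) := one_lt_pow₀ h1 (Nat.succ_ne_zero n)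
    unfold lx
    rw [h.lead h1, max_eq_left h1.le, max_eq_left h2.le, Real.log_pow]

lemma LD.zeroP (h : LD v n P) (h0 : (0 : K) ∈ periodicPts (gP P c)) : lx c v = 0 := by
  unfold lx
  rcases le_or_gt (v c) 1 with hc | hc
  · rw [max_eq_right hc, Real.log_one]
  · exfalso
    have hB := h.badP hc
    have h1 := hB.per_fix (by rw [map_zero]; exact zero_le_one) h0
    have h2 := hB.inv 0 (by rw [map_zero]; exact zero_le_one)
    unfold gP at h1
    rw [inv_eq_zero] at h1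
    rw [h1, map_zero] at h2
    linarith

lemma LD.ratioP (h : LD v n P) {x y : K} (hx : x ∈ periodicPts (gP P c))
    (hy : y ∈ periodicPts (gP P c)) (hx' : gP P c x ≠ x) (hy' : gP P c y ≠ y)
    (hxy : x ^ (n + 1) ≠ y ^ (n + 1)) :
    lx c v ≤ ((n + 1 : ℕ) : ℝ) * lx (((x / y) ^ (n + 1) - 1)⁻¹) v := by
  rcases le_or_gt (v c) 1 with hc | hc
  · have : lx c v = 0 := by unfold lx; rw [max_eq_right hc, Real.log_one]
    rw [this]
    exact mul_nonneg (Nat.cast_nonneg _) (lxnn _ _)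
  · have hB := h.badP hc
    have ox := hB.out hx hx'
    have oy := hB.out hy hy'
    have hRx := h.out_R hc ox
    have hRy := h.out_R hc oy
    have hvy : v y = v x := bad_eq hRy hRx
    have hvx := ox.gt
    have hx0 : 0 < v x := one_pos.trans hvx
    obtain ⟨Q, hQd, hQi, hQ⟩ := erase_data h.mon h.deg h.int
    have h1 : v (x ^ (n + 1) - y ^ (n + 1)) ≤ v x ^ n := by
      have e : x ^ (n + 1) - y ^ (n + 1) = ((P.eval x + c) - (P.eval y + c)) -
          (Q.eval x - Q.eval y) := by rw [hQ, hQ]; ring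
      have h2 : 1 ≤ v x ^ n := one_le_pow₀ hvx.le
      rw [e]
      refine (na_sub h.na _ _).trans (max_le ?_ ?_)
      · refine (na_sub h.na _ _).trans (max_le ?_ ?_)
        · linarith [ox.lt.1]
        · linarith [oy.lt.1]
      · refine (na_sub h.na _ _).trans (max_le ?_ ?_)
        · exact na_eval_le h.na hQi hQd hvx.le le_rfl
        · exact na_eval_le h.na hQi hQd hvx.le hvy.le
    have h4 : 0 < v (x ^ (n + 1) - y ^ (n + 1)) := v.pos (sub_ne_zero.2 hxy)
    have hy0 : y ^ (n + 1) ≠ 0 := by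
      apply v.pos_iff.1
      rw [map_pow, hRy]
      linarith
    obtain ⟨u, hu⟩ : ∃ u, u = ((x / y) ^ (n + 1) - 1)⁻¹ := ⟨_, rfl⟩
    rw [← hu]
    have h5 : u = y ^ (n + 1) / (x ^ (n + 1) - y ^ (n + 1)) := by
      rw [hu, div_pow, div_sub_one hy0, inv_div]
    have h6 : v x ≤ v u := by
      rw [h5, map_div₀, le_div_iff₀ h4, map_pow, hvy]
      calc v x * v (x ^ (n + 1) - y ^ (n + 1)) ≤ v x * v x ^ n := by gcongr
        _ = v x ^ (n + 1) := by rw [pow_succ]; ring
    have h7 : lx c v = ((n + 1 : ℕ) : ℝ) * Real.log (v x) := by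
      unfold lx
      rw [max_eq_left hc.le, ← hRx, Real.log_pow]
    rw [h7]
    apply mul_le_mul_of_nonneg_left _ (Nat.cast_nonneg _)
    unfold lx
    apply Real.log_le_log hx0
    exact h6.trans (le_max_left _ _)

end na

section glob

/-- **heights of the preperiodic points** -/
theorem globR_up (K : Type) [Field K] [NumberField K] (n : ℕ) (hn : 1 ≤ n) {N : ℕ} (hN0 : N ≠ 0) :
    ∃ A : ℝ, 0 ≤ A ∧ ∀ P : K[X], P.Monic → P.natDegree = n + 1 → (∀ i, SInt N (P.coeff i)) →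
    ∀ c x : K, PreP (gP P c) x → (n : ℝ) * logHeight₁ x ≤ logHeight₁ c + A * (1 + hC58 n P) := by
  have hD : (N : K) * ((n : K) + 1) ≠ 0 := by
    apply mul_ne_zero
    · exact_mod_cast hN0
    · exact_mod_cast Nat.succ_ne_zero n
  choose C0 hC0 hC0' using fun v : AbsoluteValue K ℝ => any_value v n
  obtain ⟨A, hA0, hA⟩ := gs_leS hD C0
  refine ⟨A + totalWeight K * Real.log 2, by positivity, fun P hP hd hN c x hx => ?_⟩
  have hval : ∀ y : K, ((n + 1 : ℕ) : ℝ) * logHeight₁ y ≤ logHeight₁ (P.eval y) +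
      A * (1 + hC58 n P) := by
    intro y
    have h1 := hA (fun v => ((n + 1 : ℕ) : ℝ) * lx y v) (lx (P.eval y)) (wl n P)
      ((FS_lx y).const_mul _) (FS_lx _) (FS_sum _ _).1 (wl_nonneg n P)
      (fun v => ?_) (fun v hna hv => ?_)
    · have h2 : gs (wl n P) = hC58 n P := (FS_sum _ _).2
      rw [gs_const_mul _ (FS_lx y), gs_lx, gs_lx, h2] at h1
      exact h1
    · obtain ⟨W, hW1, hWl, hW⟩ := exists_W hP hd v
      have := hC0' v P hP hd W hW1 hW y
      rw [hWl] at this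
      exact this
    · exact (to_LD hP hd hn hN hna hv).value y
  have hl2 : 0 ≤ (totalWeight K : ℝ) * Real.log 2 := by positivity
  have hPh := hC58_nonneg n P
  obtain ⟨f, hf⟩ : ∃ f, f = gP P c := ⟨_, rfl⟩
  rw [← hf] at hx
  have hstep : ∀ y : K, ((n : ℝ) + 1) * logHeight₁ y ≤ logHeight₁ (f y) + logHeight₁ c +
      (totalWeight K * Real.log 2 + A * (1 + hC58 n P)) := by
    intro y
    have e : P.eval y = (f y)⁻¹ - c := by
      rw [hf]
      unfold gP
      rw [inv_inv]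
      ring
    have h1 := logHeight₁_sub_le ((f y)⁻¹) c
    rw [← e, logHeight₁_inv] at h1
    have h2 := hval y
    push_cast at h2
    linarith
  obtain ⟨m, k, hmk, he⟩ := hx
  obtain ⟨i, hi, hmax⟩ := Finset.exists_max_image (Finset.range k)
    (fun i => logHeight₁ (f^[i] x)) ⟨0, Finset.mem_range.2 (by omega)⟩
  have h1 := hstep (f^[i] x)
  rw [← iterate_succ_apply' f i x] at h1
  have h2 : logHeight₁ (f^[i + 1] x) ≤ logHeight₁ (f^[i] x) := by
    rw [Finset.mem_range] at hi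
    rcases Nat.lt_or_ge (i + 1) k with h | h
    · exact hmax _ (Finset.mem_range.2 h)
    · have : i + 1 = k := by omega
      rw [this, ← he]
      exact hmax _ (Finset.mem_range.2 hmk)
  have h3 : logHeight₁ x ≤ logHeight₁ (f^[i] x) := hmax 0 (Finset.mem_range.2 (by omega))
  have h4 : (n : ℝ) * logHeight₁ x ≤ n * logHeight₁ (f^[i] x) := by gcongr
  simp only [Nat.succ_eq_add_one] at h1
  nlinarith

/-- zero is not periodic -/
theorem globR_zero (K : Type) [Field K] [NumberField K] (n : ℕ) (hn : 1 ≤ n) {N : ℕ}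
    (hN0 : N ≠ 0) :
    ∃ A : ℝ, 0 ≤ A ∧ ∀ P : K[X], P.Monic → P.natDegree = n + 1 → (∀ i, SInt N (P.coeff i)) →
    ∀ c : K, (0 : K) ∈ periodicPts (gP P c) → logHeight₁ c ≤ A * (1 + hC58 n P) := by
  have hD : (N : K) * ((n : K) + 1) ≠ 0 := by
    apply mul_ne_zero
    · exact_mod_cast hN0
    · exact_mod_cast Nat.succ_ne_zero n
  choose C0 hC0 hC0' using fun v : AbsoluteValue K ℝ => any_zeroP v n
  obtain ⟨A, hA0, hA⟩ := gs_leS hD C0
  refine ⟨A, hA0, fun P hP hd hN c h0 => ?_⟩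
  have h1 := hA (lx c) (fun v => (0 : ℝ) * lx c v) (wl n P) (FS_lx c) ((FS_lx c).const_mul 0)
    (FS_sum _ _).1 (wl_nonneg n P) (fun v => ?_) (fun v hna hv => ?_)
  · have h2 : gs (wl n P) = hC58 n P := (FS_sum _ _).2
    rw [gs_const_mul _ (FS_lx c), gs_lx, h2, zero_mul, zero_add] at h1
    exact h1
  · obtain ⟨W, hW1, hWl, hW⟩ := exists_W hP hd v
    have := hC0' v P hP hd W hW1 hW c h0
    rw [hWl] at this
    rw [zero_mul, zero_add]
    exact this
  · rw [zero_mul, (to_LD hP hd hn hN hna hv).zeroP h0]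

/-- **the lower bound for the ratios** -/
theorem globR_ratio (K : Type) [Field K] [NumberField K] (n : ℕ) (hn : 1 ≤ n) {N : ℕ}
    (hN0 : N ≠ 0) :
    ∃ A : ℝ, 0 ≤ A ∧ ∀ P : K[X], P.Monic → P.natDegree = n + 1 → (∀ i, SInt N (P.coeff i)) →
    ∀ c x y : K, x ∈ periodicPts (gP P c) → y ∈ periodicPts (gP P c) → gP P c x ≠ x →
    gP P c y ≠ y → x ^ (n + 1) ≠ y ^ (n + 1) →
    logHeight₁ c ≤ ((n : ℝ) + 1) ^ 2 * logHeight₁ (x / y) + A * (1 + hC58 n P) := by
  have hD : (N : K) * ((n : K) + 1) ≠ 0 := by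
    apply mul_ne_zero
    · exact_mod_cast hN0
    · exact_mod_cast Nat.succ_ne_zero n
  choose C0 hC0 hC0' using fun v : AbsoluteValue K ℝ => any_ratio v n
  obtain ⟨A, hA0, hA⟩ := gs_leS hD C0
  refine ⟨A + ((n : ℝ) + 1) * (totalWeight K * Real.log 2), by positivity,
    fun P hP hd hN c x y hx hy hx' hy' hxy => ?_⟩
  obtain ⟨u, hu⟩ : ∃ u, u = ((x / y) ^ (n + 1) - 1)⁻¹ := ⟨_, rfl⟩
  have h1 := hA (lx c) (fun v => ((n + 1 : ℕ) : ℝ) * lx u v) (wl n P) (FS_lx c)
    ((FS_lx u).const_mul _) (FS_sum _ _).1 (wl_nonneg n P) (fun v => ?_) (fun v hna hv => ?_)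
  · have h2 : gs (wl n P) = hC58 n P := (FS_sum _ _).2
    rw [gs_const_mul _ (FS_lx u), gs_lx, gs_lx, h2] at h1
    have h3 : logHeight₁ u ≤ ((n : ℝ) + 1) * logHeight₁ (x / y) +
        totalWeight K * Real.log 2 := by
      rw [hu, logHeight₁_inv]
      have h4 := logHeight₁_sub_le ((x / y) ^ (n + 1)) (1 : K)
      rw [logHeight₁_one, logHeight₁_pow] at h4
      push_cast at h4
      linarith
    have h4 : ((n : ℝ) + 1) * logHeight₁ u ≤ (n + 1) * (((n : ℝ) + 1) * logHeight₁ (x / y) +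
        totalWeight K * Real.log 2) := by gcongr
    have h5 : 0 ≤ ((n : ℝ) + 1) * (totalWeight K * Real.log 2) * hC58 n P := by
      have := hC58_nonneg n P
      positivity
    push_cast at h1
    nlinarith
  · obtain ⟨W, hW1, hWl, hW⟩ := exists_W hP hd v
    have := hC0' v P hP hd W hW1 hW c x y hx hy hx' hy' hxy
    rw [hWl, ← hu] at this
    exact this
  · rw [hu]
    exact (to_LD hP hd hn hN hna hv).ratioP hx hy hx' hy' hxy

end glob

end Pool.Agent.KS6_58
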