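import Pool.Agent.KS6_58.RM
import Pool.Agent.KS6_58.Main2

/-!
# The self-maps `x ↦ 1 / D(x)` of the projective line
-/

set_option autoImplicit false

namespace Pool.Agent.KS6_58

open Function

section line

variable {K : Type} [Field K]

open Classical in
/-- the self-map `x ↦ 1 / D(x)`, `∞ ↦ 0`, of the projective line over `K` -/
noncomputable def recip (D : K → K) : OnePoint K → OnePoint K
  | none => ((0 : K) : OnePoint K)
  | some x => if D x = 0 then OnePoint.infty else (((D x)⁻¹ : K) : OnePoint K)

/-- the map on the affine line -/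
def rec0 (D : K → K) : K → K := fun x => (D x)⁻¹

lemma recip_infty (D : K → K) : recip D OnePoint.infty = ((0 : K) : OnePoint K) := rfl

lemma recip_ne {D : K → K} {x : K} (h : D x ≠ 0) :
    recip D (x : OnePoint K) = ((rec0 D x : K) : OnePoint K) := if_neg h

lemma recip_eq {D : K → K} {x : K} (h : D x = 0) :
    recip D (x : OnePoint K) = OnePoint.infty := if_pos h

/-- the orbit in the affine line is contained in the orbit in the projective line -/
lemma orb_sub (D : K → K) (x : K) (k : ℕ) :
    ∃ j, (recip D)^[j] (x : OnePoint K) = (((rec0 D)^[k] x : K) : OnePoint K) := by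
  induction k with
  | zero => exact ⟨0, rfl⟩
  | succ k ih =>
    obtain ⟨j, hj⟩ := ih
    by_cases h : D ((rec0 D)^[k] x) = 0
    · refine ⟨j + 2, ?_⟩
      rw [iterate_succ_apply', iterate_succ_apply', hj, recip_eq h, recip_infty,
        iterate_succ_apply']
      congr 1
      unfold rec0 at h ⊢
      rw [h, inv_zero]
    · refine ⟨j + 1, ?_⟩
      rw [iterate_succ_apply', hj, recip_ne h, iterate_succ_apply']

/-- the orbit in the projective line consists of the orbit in the affine line and the point at
infinity -/
lemma orb_sup (D : K → K) (x : K) (i : ℕ) :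
    (∃ k, (i ≠ 0 → k ≠ 0) ∧ (recip D)^[i] (x : OnePoint K) =
      (((rec0 D)^[k] x : K) : OnePoint K)) ∨
    (∃ k, k ≠ 0 ∧ (recip D)^[i] (x : OnePoint K) = OnePoint.infty ∧ (rec0 D)^[k] x = 0) := by
  induction i with
  | zero => exact Or.inl ⟨0, fun h => h, rfl⟩
  | succ i ih =>
    rcases ih with ⟨k, -, h⟩ | ⟨k, hk, h1, h2⟩
    · by_cases h' : D ((rec0 D)^[k] x) = 0
      · right
        refine ⟨k + 1, by omega, ?_, ?_⟩
        · rw [iterate_succ_apply', h, recip_eq h']
        · rw [iterate_succ_apply']
          unfold rec0 at h' ⊢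
          rw [h', inv_zero]
      · left
        refine ⟨k + 1, fun _ => by omega, ?_⟩
        rw [iterate_succ_apply', h, recip_ne h', iterate_succ_apply']
    · left
      refine ⟨k, fun _ => hk, ?_⟩
      rw [iterate_succ_apply', h1, recip_infty, h2]

lemma orbit_finite {α : Type} {f : α → α} {x : α} (h : PreP f x) :
    (Set.range fun k => f^[k] x).Finite := by
  classical
  obtain ⟨m, n, hmn, he⟩ := h
  refine Set.Finite.subset ((Finset.range n).image fun k => f^[k] x).finite_toSet ?_
  rintro y ⟨k, rfl⟩
  induction k using Nat.strong_induction_on with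
  | _ k ih =>
    rcases Nat.lt_or_ge k n with hk | hk
    · simp only [Finset.coe_image, Set.mem_image, Finset.coe_range, Set.mem_Iio]
      exact ⟨k, hk, rfl⟩
    · have h1 : f^[k] x = f^[k - n + m] x := by
        conv_lhs => rw [← Nat.sub_add_cancel hk]
        rw [iterate_add_apply, iterate_add_apply, he]
      show f^[k] x ∈ _
      rw [h1]
      exact ih (k - n + m) (by omega)

lemma preP_of_finite {α : Type} {f : α → α} {x : α} (h : (Set.range fun k => f^[k] x).Finite) :
    PreP f x := by
  by_contra hn
  apply Set.infinite_range_of_injective (f := fun k => f^[k] x) _ h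
  intro a b hab
  by_contra hne
  rcases Nat.lt_or_gt_of_ne hne with h1 | h1
  · exact hn ⟨a, b, h1, hab⟩
  · exact hn ⟨b, a, h1, hab.symm⟩

omit [Field K] in
lemma coe_inj58 : Function.Injective (fun x : K => (x : OnePoint K)) := OnePoint.coe_injective

/-- preperiodic points in the projective line are preperiodic in the affine line -/
lemma pre_recip {D : K → K} {x : K} (h : PreP (recip D) (x : OnePoint K)) :
    PreP (rec0 D) x := by
  apply preP_of_finite
  have h1 := orbit_finite h
  refine Set.Finite.of_finite_image (f := fun x : K => (x : OnePoint K)) ?_ coe_inj58.injOn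
  apply h1.subset
  rintro _ ⟨_, ⟨k, rfl⟩, rfl⟩
  obtain ⟨j, hj⟩ := orb_sub D x k
  exact ⟨j, hj⟩

/-- periodic points in the projective line are periodic in the affine line -/
lemma per_recip {D : K → K} {x : K} (h : (x : OnePoint K) ∈ periodicPts (recip D)) :
    x ∈ periodicPts (rec0 D) := by
  obtain ⟨N, hN, hN2⟩ := h
  have h2 : (recip D)^[N] (x : OnePoint K) = (x : OnePoint K) := hN2
  rcases orb_sup D x N with ⟨k, hk, h1⟩ | ⟨k, -, h1, -⟩
  · rw [h2] at h1
    exact ⟨k, Nat.pos_of_ne_zero (hk (by omega)), (coe_inj58 h1).symm⟩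
  · rw [h2] at h1
    exact absurd h1 (OnePoint.coe_ne_infty x)

omit [Field K] in
/-- from the affine line to the projective line -/
lemma card_line {B : ℕ} {Q : OnePoint K → Prop}
    (h : ∀ S : Finset K, (∀ x ∈ S, Q (x : OnePoint K)) → S.card ≤ B) :
    {P : OnePoint K | Q P}.encard ≤ (B + 1 : ℕ) := by
  classical
  refine encard_le fun S hS => ?_
  obtain ⟨S', hS'⟩ : ∃ S' : Finset K, S' = S.preimage (fun x : K => (x : OnePoint K))
    coe_inj58.injOn := ⟨_, rfl⟩
  have h1 : S'.card ≤ B := by
    apply h
    intro x hx
    rw [hS', Finset.mem_preimage] at hx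
    exact hS _ hx
  have h2 : S ⊆ insert OnePoint.infty (S'.image fun x : K => (x : OnePoint K)) := by
    intro P hP
    induction P using OnePoint.rec with
    | infty => exact Finset.mem_insert_self _ _
    | coe x =>
      apply Finset.mem_insert_of_mem
      rw [Finset.mem_image]
      exact ⟨x, by rw [hS', Finset.mem_preimage]; exact hP, rfl⟩
  calc S.card ≤ (insert OnePoint.infty (S'.image fun x : K => (x : OnePoint K))).card :=
        Finset.card_le_card h2
    _ ≤ (S'.image fun x : K => (x : OnePoint K)).card + 1 := Finset.card_insert_le _ _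
    _ ≤ B + 1 := Nat.add_le_add_right (Finset.card_image_le.trans h1) 1

end line

section main

/-- **uniform boundedness for `1 / (a x ^ d + c)` on the projective line** -/
theorem mainR_a {K : Type} [Field K] [NumberField K] {d : ℕ} (hd : 4 ≤ d) {a : K} (ha : a ≠ 0) :
    ∃ B : ℕ, ∀ c : K, {P : OnePoint K | PreP (recip fun y : K => a * y ^ d + c) P}.encard ≤ B := by
  classical
  obtain ⟨L, hF, hAlg, hNF, hL⟩ := exists_ext (K := K) (n := d + 1) (by omega) {a}
  obtain ⟨α, hα⟩ := exists_root (by omega : 0 < d + 1) (hL a (by simp))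
  have hα0 : α ≠ 0 := by
    rintro rfl
    rw [zero_pow (by omega), eq_comm, map_eq_zero] at hα
    exact ha hα
  obtain ⟨B, hB⟩ := mainR (K := L) hd
  have hinj : Function.Injective (fun x : K => α * algebraMap K L x) := fun x y h =>
    (algebraMap K L).injective (mul_left_cancel₀ hα0 h)
  refine ⟨B + 1, fun c => card_line fun S hS => ?_⟩
  have hs : Function.Semiconj (fun x : K => α * algebraMap K L x)
      (rec0 fun y : K => a * y ^ d + c) (gc d (algebraMap K L c / α)) := by
    intro t
    unfold rec0 gc
    simp only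
    rw [map_inv₀, map_add, map_mul, map_pow, ← hα, mul_pow]
    have e : α ^ (d + 1) * algebraMap K L t ^ d + algebraMap K L c =
        α * (α ^ d * algebraMap K L t ^ d + algebraMap K L c / α) := by
      rw [mul_add, mul_div_cancel₀ _ hα0, pow_succ]
      ring
    rw [e, mul_inv, ← mul_assoc, mul_inv_cancel₀ hα0, one_mul]
  rw [← Finset.card_image_of_injective S hinj]
  apply hB (algebraMap K L c / α)
  intro y hy
  obtain ⟨x, hx, rfl⟩ := Finset.mem_image.1 hy
  obtain ⟨i, j, hij, h⟩ := pre_recip (hS _ hx)
  refine ⟨i, j, hij, ?_⟩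
  have e1 := (hs.iterate_right i).eq x
  have e2 := (hs.iterate_right j).eq x
  rw [← e1, ← e2, h]

end main

end Pool.Agent.KS6_58
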