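import Pool.Agent.KS6_58.RP2
import Pool.Agent.KS6_58.RQ
import Pool.Agent.KS6_58.PT2c

/-!
# Periodic points of `1 / (G(x ^ m) + c)`
-/

set_option autoImplicit false

namespace Pool.Agent.KS6_58

open Function Polynomial Height Height.AdmissibleAbsValues NumberField

section main

variable {K : Type} [Field K]

lemma card_fixedP {n : ℕ} {P : K[X]} {c : K} (hd : P.natDegree = n + 1)
    (h0 : (0 : K) ∉ periodicPts (gP P c)) (S : Finset K)
    (h : ∀ x ∈ S, gP P c x = x) : S.card ≤ n + 2 := by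
  have hP0 : P + C c ≠ 0 := by
    intro h'
    have h1 := congrArg natDegree h'
    rw [natDegree_add_C, natDegree_zero, hd] at h1
    omega
  have hdeg : ((P + C c) * X).natDegree = n + 2 := by
    rw [natDegree_mul_X hP0, natDegree_add_C, hd]
  refine card_quad (Q := (P + C c) * X - C 1) ?_ ?_ ?_
  · intro h1
    have h2 := congrArg natDegree h1
    rw [natDegree_sub_C, natDegree_zero, hdeg] at h2
    omega
  · rw [natDegree_sub_C, hdeg]
  · intro x hx
    have hfix := h x hx
    have hx0 : x ≠ 0 := by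
      rintro rfl
      exact h0 ⟨1, one_pos, hfix⟩
    have h2 := congrArg (fun t => t⁻¹) hfix
    unfold gP at h2
    rw [inv_inv] at h2
    have h3 : (P.eval x + c) * x = 1 := by rw [h2, inv_mul_cancel₀ hx0]
    simp only [eval_add, eval_sub, eval_mul, eval_X, eval_C]
    linear_combination h3

/-- **periodic points of `1 / (G(x ^ m) + c)`** when the roots of unity are in the field -/
theorem symR_main (K : Type) [Field K] [NumberField K] (n m : ℕ) (hn : 3 ≤ n) (hm : 3 ≤ m)
    {ζ : K} (hζ : IsPrimitiveRoot ζ (m + 1)) {N : ℕ} (hN0 : N ≠ 0) :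
    ∃ (B : ℕ) (A : ℝ), 0 ≤ A ∧ ∀ G : K[X], (expand K (m + 1) G).Monic →
      (expand K (m + 1) G).natDegree = n + 1 → (∀ i, SInt N ((expand K (m + 1) G).coeff i)) →
      ∀ c : K, A * (1 + hC58 n (expand K (m + 1) G)) ≤ logHeight₁ c →
      ∀ S : Finset K, (∀ x ∈ S, x ∈ periodicPts (gP (expand K (m + 1) G) c)) → S.card ≤ B := by
  classical
  have hD : (N : K) * ((n : K) + 1) ≠ 0 := by
    apply mul_ne_zero
    · exact_mod_cast hN0
    · exact_mod_cast Nat.succ_ne_zero n
  have hn1 : 1 ≤ n := by omega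
  have hnR : (3 : ℝ) ≤ n := by exact_mod_cast hn
  have hζm : ζ ^ (m + 1) = 1 := hζ.pow_eq_one
  have hζ0 : ζ ≠ 0 := hζ.ne_zero (Nat.succ_ne_zero m)
  have hζ1 : ζ ≠ 1 := hζ.ne_one (by omega)
  have hζ2 : ζ ^ 2 ≠ 1 := hζ.pow_ne_one_of_pos_of_lt (by omega) (by omega)
  have hζ3 : ζ ^ 3 ≠ 1 := hζ.pow_ne_one_of_pos_of_lt (by omega) (by omega)
  have hr : ∀ j : ℕ, (ζ ^ j) ^ (m + 1) = 1 := fun j => pow_root hζ j
  obtain ⟨T, -, hT⟩ := sel_abs (K := K) (n := n + 2) (by omega) hD
  obtain ⟨H0, B0, hwin⟩ := win_three (m := n + 2) (by omega) hζ0 hζ2 T (8 * (n + 1) ^ 2 / n) (by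
    rw [le_div_iff₀ (by linarith)]
    nlinarith)
  obtain ⟨A1, hA1, hup'⟩ := globR_up K n hn1 hN0
  obtain ⟨A2, hA2, hzero'⟩ := globR_zero K n hn1 hN0
  obtain ⟨A3, hA3, hlow'⟩ := globR_ratio K n hn1 hN0
  refine ⟨(n + 2) + ((n + 1) + B0), A1 + A2 + 2 * A3 + 2 * (n + 1) ^ 2 * |H0| + 1, by positivity,
    fun G hP hd hN c hc' S hS => ?_⟩
  obtain ⟨P, hPe⟩ : ∃ P, P = expand K (m + 1) G := ⟨_, rfl⟩
  rw [← hPe] at hP hd hN hc' hS
  have hPh := hC58_nonneg n P
  have hLD : ∀ v : AbsoluteValue K ℝ, IsNonarchimedean v → v ((N : K) * ((n : K) + 1)) = 1 →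
      LD v n P := fun v hna hv => to_LD hP hd hn1 hN hna hv
  have hup := hup' P hP hd hN c
  have hzero := hzero' P hP hd hN c
  have hlow := hlow' P hP hd hN c
  obtain ⟨h, hh⟩ : ∃ h, h = logHeight₁ c := ⟨_, rfl⟩
  have hh0 : 0 ≤ h := by rw [hh]; exact ht_nn c
  rw [← hh] at hc' hup hzero hlow
  have hH0 : 0 ≤ |H0| := abs_nonneg _
  have q1 : 0 ≤ A1 * (1 + hC58 n P) := by positivity
  have q2 : 0 ≤ A2 * (1 + hC58 n P) := by positivity
  have q3 : 0 ≤ A3 * (1 + hC58 n P) := by positivity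
  have q4 : 0 ≤ 2 * ((n : ℝ) + 1) ^ 2 * |H0| := by positivity
  have q5 : 0 ≤ (2 * ((n : ℝ) + 1) ^ 2 * |H0| + 1) * hC58 n P := by positivity
  have e1 : (A1 + A2 + 2 * A3 + 2 * ((n : ℝ) + 1) ^ 2 * |H0| + 1) * (1 + hC58 n P) =
      A1 * (1 + hC58 n P) + A2 * (1 + hC58 n P) + 2 * (A3 * (1 + hC58 n P)) +
      (2 * ((n : ℝ) + 1) ^ 2 * |H0| + 1) + (2 * ((n : ℝ) + 1) ^ 2 * |H0| + 1) * hC58 n P := by ring
  rw [e1] at hc'
  have h00 : (0 : K) ∉ periodicPts (gP P c) := fun h0 => by
    have := hzero h0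
    linarith
  have hden : ∀ z ∈ periodicPts (gP P c), P.eval z + c ≠ 0 := by
    intro z hz h'
    apply h00
    have h1 : gP P c z = 0 := by unfold gP; rw [h', inv_zero]
    rw [← h1]
    exact per_map hz
  rw [← Finset.card_filter_add_card_filter_not (fun x => gP P c x = x)]
  apply Nat.add_le_add
  · apply card_fixedP hd h00
    intro x hx
    rw [Finset.mem_filter] at hx
    exact hx.2
  · obtain ⟨S₁, hS₁⟩ : ∃ S₁, S₁ = S.filter fun x => ¬ gP P c x = x := ⟨_, rfl⟩
    rw [← hS₁]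
    have hS₁' : ∀ x ∈ S₁, x ∈ periodicPts (gP P c) ∧ gP P c x ≠ x := by
      intro x hx
      rw [hS₁, Finset.mem_filter] at hx
      exact ⟨hS x hx.1, hx.2⟩
    rcases S₁.eq_empty_or_nonempty with he | ⟨y, hy⟩
    · rw [he]; simp
    obtain ⟨hyp, hyf⟩ := hS₁' y hy
    have hy0 : y ≠ 0 := by
      rintro rfl
      exact h00 hyp
    rw [← Finset.card_filter_add_card_filter_not (fun x => x ^ (n + 1) = y ^ (n + 1))]
    apply Nat.add_le_add
    · refine card_quad (Q := X ^ (n + 1) - C (y ^ (n + 1)))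
        (X_pow_sub_C_ne_zero (Nat.succ_pos n) _) (by rw [natDegree_X_pow_sub_C]) ?_
      intro x hx
      rw [Finset.mem_filter] at hx
      simp only [eval_sub, eval_pow, eval_X, eval_C]
      rw [hx.2, sub_self]
    · have hinj : Function.Injective (fun x => x / y) := fun a b hab => by
        simpa using (div_left_inj' hy0).1 hab
      rw [← Finset.card_image_of_injective _ hinj]
      have hn0 : (0 : ℝ) < n := by linarith
      have b3 : H0 ≤ h / (2 * (n + 1) ^ 2) := by
        rw [le_div_iff₀ (by positivity)]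
        have := le_abs_self H0
        have h5 : H0 * (2 * ((n : ℝ) + 1) ^ 2) ≤ 2 * ((n : ℝ) + 1) ^ 2 * |H0| := by
          rw [mul_comm]
          gcongr
        linarith
      apply hwin (h / (2 * (n + 1) ^ 2)) b3
      intro t ht
      obtain ⟨x, hx, rfl⟩ := Finset.mem_image.1 ht
      rw [Finset.mem_filter] at hx
      obtain ⟨hxp, hxf⟩ := hS₁' x hx.1
      have hxy : x ≠ y := by
        rintro rfl
        exact hx.2 rfl
      have key : ∀ η η' : K, η ^ (m + 1) = 1 → η ≠ 1 → η' ^ (m + 1) = 1 → η' ≠ 1 →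
          x / y ≠ η ∧ ∃ t ∈ T, ∃ b, (x / y - η) / (x / y - η') = t * b ^ (n + 2) := by
        intro η η' hη hη1 hη' hη1'
        have hneη : ∀ η : K, η ^ (m + 1) = 1 → η ≠ 1 → x ≠ η * y := by
          intro η hη _ h'
          apply hxy
          apply gP_inj_per hxp hyp
          rw [h', hPe, gP_sym hη]
        have k1 : x ≠ η * y := hneη η hη hη1
        have k2 : x ≠ η' * y := hneη η' hη' hη1'
        have e : (x / y - η) / (x / y - η') = (x - η * y) / (x - η' * y) := by
          have e1 : x / y - η = (x - η * y) / y := by field_simp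
          have e2 : x / y - η' = (x - η' * y) / y := by field_simp
          rw [e1, e2, div_div_div_cancel_right₀ hy0]
        refine ⟨fun h' => k1 ((div_eq_iff hy0).1 h'), ?_⟩
        rw [e]
        apply hT _ (div_ne_zero (sub_ne_zero.2 k1) (sub_ne_zero.2 k2))
        intro v hna hv
        have hL := hLD v hna hv
        rw [hPe] at hL hden hxp hyp hxf hyf
        exact hL.gP_ratio hζ hden hxp hyp hxy hxf hyf hη hη1 hη' hη1'
      refine ⟨⟨?_, ?_, ?_, ?_, ?_⟩, ?_, ?_⟩
      · exact (key ζ (ζ ^ 3) hζm hζ1 (hr 3) hζ3).1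
      · exact (key (ζ ^ 2) (ζ ^ 3) (hr 2) hζ2 (hr 3) hζ3).1
      · exact (key (ζ ^ 3) (ζ ^ 3) (hr 3) hζ3 (hr 3) hζ3).1
      · exact (key ζ (ζ ^ 3) hζm hζ1 (hr 3) hζ3).2
      · exact (key (ζ ^ 2) (ζ ^ 3) (hr 2) hζ2 (hr 3) hζ3).2
      · have h1 := hlow x y hxp hyp hxf hyf hx.2
        rw [div_le_iff₀ (by positivity)]
        nlinarith
      · have h1 := hup x (PreP.of_per hxp)
        have h2 := hup y (PreP.of_per hyp)
        have h3 : logHeight₁ (x / y) ≤ logHeight₁ x + logHeight₁ y := by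
          rw [div_eq_mul_inv]
          have := logHeight₁_mul_le x y⁻¹
          rwa [logHeight₁_inv] at this
        have h4 : 8 * ((n : ℝ) + 1) ^ 2 / n * (h / (2 * (n + 1) ^ 2)) = 4 * h / n := by
          field_simp
          ring
        rw [h4]
        show logHeight₁ (x / y) ≤ 4 * h / n
        rw [le_div_iff₀ hn0]
        nlinarith

end main

section desc

variable {K L : Type} [Field K] [Field L] [Algebra K L]

lemma gP_map (P : K[X]) (c x : K) : algebraMap K L (gP P c x) =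
    gP (P.map (algebraMap K L)) (algebraMap K L c) (algebraMap K L x) := by
  unfold gP
  rw [map_inv₀, map_add, eval_map, eval₂_at_apply]

lemma gP_per_map {P : K[X]} {c x : K} (h : x ∈ periodicPts (gP P c)) : algebraMap K L x ∈
    periodicPts (gP (P.map (algebraMap K L)) (algebraMap K L c)) := by
  obtain ⟨j, hj, hj2⟩ := h
  refine ⟨j, hj, ?_⟩
  have hs : Function.Semiconj (algebraMap K L) (gP P c)
      (gP (P.map (algebraMap K L)) (algebraMap K L c)) := fun t => gP_map P c t
  unfold IsPeriodicPt IsFixedPt at *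
  rw [← hs.iterate_right j x, hj2]

/-- descent along an extension which contains the roots of unity -/
theorem symR_desc0 (K L : Type) [Field K] [NumberField K] [Field L] [NumberField L] [Algebra K L]
    (n m : ℕ) (hn : 3 ≤ n) (hm : 3 ≤ m) {ζ : L} (hζ : IsPrimitiveRoot ζ (m + 1))
    {N : ℕ} (hN0 : N ≠ 0) :
    ∃ (B : ℕ) (A : ℝ), 0 ≤ A ∧ ∀ G : K[X], (expand K (m + 1) G).Monic →
      (expand K (m + 1) G).natDegree = n + 1 → (∀ i, SInt N ((expand K (m + 1) G).coeff i)) →
      ∀ c : K, A * (1 + hC58 n (expand K (m + 1) G)) ≤ logHeight₁ c →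
      ∀ S : Finset K, (∀ x ∈ S, x ∈ periodicPts (gP (expand K (m + 1) G) c)) → S.card ≤ B := by
  classical
  obtain ⟨B, A, hA0, hB⟩ := symR_main L n m hn hm hζ hN0
  refine ⟨B, A, hA0, fun G hG hGd hGN c hc S hS => ?_⟩
  have hinj : Function.Injective (algebraMap K L) := (algebraMap K L).injective
  have hD : (1 : ℝ) ≤ Module.finrank K L := by
    exact_mod_cast Module.finrank_pos (R := K) (M := L)
  have e0 := expand_mapp (K := K) (L := L) (m + 1) G
  have h1 := hB (G.map (algebraMap K L)) (by rw [← e0]; exact hG.map _)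
    (by rw [← e0, natDegree_map, hGd]) (fun i => by rw [← e0, coeff_map]; exact (hGN i).map)
    (algebraMap K L c) (by
      rw [← e0, hC58_map, ht_rel]
      have h3 : 0 ≤ hC58 n (expand K (m + 1) G) := hC58_nonneg _ _
      calc A * (1 + Module.finrank K L * hC58 n (expand K (m + 1) G))
          ≤ A * (Module.finrank K L * (1 + hC58 n (expand K (m + 1) G))) := by
            apply mul_le_mul_of_nonneg_left _ hA0
            linarith
        _ = Module.finrank K L * (A * (1 + hC58 n (expand K (m + 1) G))) := by ring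
        _ ≤ Module.finrank K L * logHeight₁ c := by gcongr)
  rw [← e0] at h1
  rw [← Finset.card_image_of_injective S hinj]
  apply h1
  intro x hx
  obtain ⟨y, hy, rfl⟩ := Finset.mem_image.1 hx
  exact gP_per_map (hS y hy)

/-- the theorem over a field that need not contain the roots of unity -/
theorem symR_desc (K : Type) [Field K] [NumberField K] (n m : ℕ) (hn : 3 ≤ n) (hm : 4 ≤ m)
    {N : ℕ} (hN0 : N ≠ 0) :
    ∃ (B : ℕ) (A : ℝ), 0 ≤ A ∧ ∀ G : K[X], (expand K m G).Monic →
      (expand K m G).natDegree = n + 1 → (∀ i, SInt N ((expand K m G).coeff i)) →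
      ∀ c : K, A * (1 + hC58 n (expand K m G)) ≤ logHeight₁ c →
      ∀ S : Finset K, (∀ x ∈ S, x ∈ periodicPts (gP (expand K m G) c)) → S.card ≤ B := by
  obtain ⟨m, rfl⟩ : ∃ k, m = k + 1 := ⟨m - 1, by omega⟩
  have : NeZero (m + 1) := ⟨by omega⟩
  have : NumberField (CyclotomicField (m + 1) K) := IsCyclotomicExtension.numberField {m + 1} K _
  obtain ⟨ζ, hζ⟩ := IsCyclotomicExtension.exists_isPrimitiveRoot K (CyclotomicField (m + 1) K)
    (Set.mem_singleton (m + 1)) (by omega)
  exact symR_desc0 K (CyclotomicField (m + 1) K) n m hn (by omega) hζ hN0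

/-- bounded heights -/
theorem perR_small (K : Type) [Field K] [NumberField K] {n : ℕ} (hn : 1 ≤ n) {P : K[X]}
    (hP : P.Monic) (hd : P.natDegree = n + 1) (H : ℝ) :
    ∃ B : ℕ, ∀ c : K, logHeight₁ c < H → ∀ S : Finset K, (∀ x ∈ S, PreP (gP P c) x) →
      S.card ≤ B := by
  classical
  obtain ⟨N, hN0, hN⟩ := exists_N P
  obtain ⟨A, hA0, hA⟩ := globR_up K n hn hN0
  have hfin := NumberField.finite_setOfPred_logHeight₁_le K (H + A * (1 + hC58 n P))
  refine ⟨hfin.toFinset.card, fun c hc S hS => Finset.card_le_card fun x hx => ?_⟩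
  rw [Set.Finite.mem_toFinset]
  have h1 := hA P hP hd hN c x (hS x hx)
  have h2 := ht_nn x
  have hnR : (1 : ℝ) ≤ n := by exact_mod_cast hn
  show logHeight₁ x ≤ H + A * (1 + hC58 n P)
  nlinarith

end desc

section final

/-- **periodic points of `1 / (G(x ^ m) + c)`, uniformly in `G`** -/
theorem symR_unif (K : Type) [Field K] [NumberField K] {m e N : ℕ} (hm : 4 ≤ m) (he : 1 ≤ e)
    (hN : N ≠ 0) :
    ∃ (B : ℕ) (A : ℝ), ∀ G : K[X], G.Monic → G.natDegree = e →
      (∀ i, ∃ k : ℕ, IsIntegral ℤ ((N : K) ^ k * G.coeff i)) → ∀ c : K,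
      A * (1 + ∑ i ∈ Finset.range e, logHeight₁ (G.coeff i)) ≤ logHeight₁ c →
      {P : OnePoint K | P ∈ periodicPts (recip fun y : K => G.eval (y ^ m) + c)}.encard ≤ B := by
  obtain ⟨n, hn⟩ : ∃ n, m * e = n + 1 := ⟨m * e - 1, by
    have : 0 < m * e := by positivity
    omega⟩
  have hn3 : 3 ≤ n := by
    have : m * 1 ≤ m * e := Nat.mul_le_mul_left m he
    omega
  obtain ⟨B, A, hA0, hB⟩ := symR_desc K n m hn3 hm hN
  refine ⟨B + 1, A * (n + 1), fun G hG hGe hGN c hc => ?_⟩
  have hm0 : 0 < m := by omega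
  have hcoef : ∀ i, (expand K m G).coeff i = if m ∣ i then G.coeff (i / m) else 0 :=
    fun i => coeff_expand hm0 G i
  have h1 : (expand K m G).Monic := hG.expand hm0
  have h2 : (expand K m G).natDegree = n + 1 := by
    rw [natDegree_expand, hGe, ← hn, mul_comm]
  have h3 : ∀ i, SInt N ((expand K m G).coeff i) := by
    intro i
    rw [hcoef]
    split_ifs
    · exact hGN _
    · exact ⟨0, by simpa using isIntegral_zero⟩
  have h4 : hC58 n (expand K m G) ≤ (n + 1) * ∑ i ∈ Finset.range e, logHeight₁ (G.coeff i) := by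
    unfold hC58
    refine (Finset.sum_le_card_nsmul _ _ (∑ i ∈ Finset.range e, logHeight₁ (G.coeff i))
      fun i hi => ?_).trans (by rw [Finset.card_range, nsmul_eq_mul]; push_cast; exact le_rfl)
    rw [hcoef]
    split_ifs with hdv
    · obtain ⟨j, rfl⟩ := hdv
      rw [Nat.mul_div_cancel_left _ hm0]
      apply Finset.single_le_sum (f := fun i => logHeight₁ (G.coeff i)) (fun _ _ => ht_nn _)
      rw [Finset.mem_range] at hi ⊢
      rw [← hn] at hi
      exact lt_of_mul_lt_mul_left hi (by omega)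
    · rw [show logHeight₁ (0 : K) = 0 by simp]
      exact Finset.sum_nonneg fun _ _ => ht_nn _
  have hs0 : 0 ≤ ∑ i ∈ Finset.range e, logHeight₁ (G.coeff i) :=
    Finset.sum_nonneg fun _ _ => ht_nn _
  have h5 : A * (1 + hC58 n (expand K m G)) ≤ logHeight₁ c := by
    refine le_trans ?_ hc
    rw [mul_assoc]
    apply mul_le_mul_of_nonneg_left _ hA0
    have : (0 : ℝ) ≤ n := Nat.cast_nonneg _
    nlinarith
  have hfun : gP (expand K m G) c = rec0 fun y : K => G.eval (y ^ m) + c := by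
    funext y
    unfold gP rec0
    rw [expand_eval]
  have h6 := hB G h1 h2 h3 c h5
  rw [hfun] at h6
  exact card_line fun S hS => h6 S fun x hx => per_recip (hS x hx)

/-- **periodic points of `1 / (G(x ^ m) + c)`** -/
theorem symR_fixed {K : Type} [Field K] [NumberField K] (m : ℕ) (hm : 4 ≤ m) (G : K[X])
    (he : 1 ≤ G.natDegree) :
    ∃ B : ℕ, ∀ c : K,
      {P : OnePoint K | P ∈ periodicPts (recip fun y : K => G.eval (y ^ m) + c)}.encard ≤ B := by
  classical
  have hm0 : 0 < m := by omega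
  obtain ⟨n, hn⟩ : ∃ n, m * G.natDegree = n + 1 := ⟨m * G.natDegree - 1, by
    have : 0 < m * G.natDegree := by positivity
    omega⟩
  have hn3 : 3 ≤ n := by
    have : m * 1 ≤ m * G.natDegree := Nat.mul_le_mul_left m he
    omega
  have hPd : (expand K m G).natDegree = n + 1 := by
    rw [natDegree_expand, mul_comm, hn]
  have hP0 : expand K m G ≠ 0 := by
    intro h
    rw [h, natDegree_zero] at hPd
    omega
  obtain ⟨a, ha⟩ : ∃ a, a = (expand K m G).leadingCoeff := ⟨_, rfl⟩
  have ha0 : a ≠ 0 := by rw [ha]; exact leadingCoeff_ne_zero.2 hP0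
  obtain ⟨L, hF, hAlg, hNF, hL⟩ := exists_ext (K := K) (n := n + 2) (by omega) {a}
  obtain ⟨α, hα⟩ := exists_root (by omega : 0 < n + 2) (hL a (by simp))
  have hα0 : α ≠ 0 := by
    rintro rfl
    rw [zero_pow (by omega), eq_comm, map_eq_zero] at hα
    exact ha0 hα
  obtain ⟨Q, hQ0⟩ : ∃ Q : L[X], Q = C α⁻¹ * ((expand K m G).map (algebraMap K L)).comp
    (C α⁻¹ * X) := ⟨_, rfl⟩
  have hdm : ((expand K m G).map (algebraMap K L)).natDegree = n + 1 := by
    rw [natDegree_map, hPd]
  have hlin : (C α⁻¹ * X : L[X]).natDegree = 1 := by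
    rw [natDegree_C_mul (inv_ne_zero hα0), natDegree_X]
  have hQd : Q.natDegree = n + 1 := by
    rw [hQ0, natDegree_C_mul (inv_ne_zero hα0), natDegree_comp, hlin, hdm, mul_one]
  have hQm : Q.Monic := by
    have h1 : Q.coeff (n + 1) = 1 := by
      have h2 : (expand K m G).coeff (n + 1) = a := by rw [ha, leadingCoeff, hPd]
      rw [hQ0, coeff_C_mul, comp_C_mul_X_coeff, coeff_map, h2, ← hα, inv_pow]
      rw [pow_succ α (n + 1)]
      field_simp
    rw [Monic, leadingCoeff, hQd, h1]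
  have hQe : Q = expand L m (C α⁻¹ * (G.map (algebraMap K L)).comp (C (α⁻¹ ^ m) * X)) := by
    rw [hQ0, expand_mapp, expand_eq_comp_X_pow, expand_eq_comp_X_pow, mul_comp, C_comp,
      Polynomial.comp_assoc, Polynomial.comp_assoc, pow_comp, X_comp, mul_comp, C_comp, X_comp,
      mul_pow, ← C_pow]
  obtain ⟨N, hN0, hN⟩ := exists_N Q
  obtain ⟨B, A, -, hB⟩ := symR_desc L n m hn3 hm hN0
  obtain ⟨B', hB'⟩ := perR_small L (by omega) hQm hQd (A * (1 + hC58 n Q))
  have hinj : Function.Injective (fun x : K => α * algebraMap K L x) := fun x y h =>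
    (algebraMap K L).injective (mul_left_cancel₀ hα0 h)
  refine ⟨max B B' + 1, fun c => card_line fun S hS => ?_⟩
  have hs : Function.Semiconj (fun x : K => α * algebraMap K L x)
      (rec0 fun y : K => G.eval (y ^ m) + c) (gP Q (α⁻¹ * algebraMap K L c)) := by
    intro t
    unfold rec0 gP
    simp only
    rw [hQ0, eval_mul, eval_C, eval_comp, eval_mul, eval_C, eval_X, inv_mul_cancel_left₀ hα0,
      eval_map, eval₂_at_apply, expand_eval, ← mul_add, ← map_add, mul_inv, inv_inv, map_inv₀]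
  have hper : ∀ x : K, x ∈ periodicPts (rec0 fun y : K => G.eval (y ^ m) + c) →
      α * algebraMap K L x ∈ periodicPts (gP Q (α⁻¹ * algebraMap K L c)) := by
    intro x hx
    rw [← minimalPeriod_pos_iff_mem_periodicPts] at hx ⊢
    rw [minPer_of_semiconj hinj hs x]
    exact hx
  rw [← Finset.card_image_of_injective S hinj]
  rcases lt_or_ge (logHeight₁ (α⁻¹ * algebraMap K L c)) (A * (1 + hC58 n Q)) with h | h
  · refine le_trans ?_ (le_max_right _ _)
    apply hB' _ h
    intro x hx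
    obtain ⟨y, hy, rfl⟩ := Finset.mem_image.1 hx
    exact PreP.of_per (hper y (per_recip (hS y hy)))
  · refine le_trans ?_ (le_max_left _ _)
    rw [hQe] at hQm hQd hN h hper
    apply hB _ hQm hQd hN _ h
    intro x hx
    obtain ⟨y, hy, rfl⟩ := Finset.mem_image.1 hx
    exact hper y (per_recip (hS y hy))

end final

end Pool.Agent.KS6_58
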