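import Pool.Agent.KS6_58.Fn
import Pool.Graph.R_pool_sql_team_seeded_620a6dc7.Helper891_XS.Ht

/-!
# The classes of the rational points generate a group of finite rank
-/

set_option autoImplicit false

namespace Pool.Agent.KS6_58

open Polynomial Pool.Agent.Y723.HJ Pool.Agent.H437R2.Man Height Height.AdmissibleAbsValues
  NumberField

section rel

variable {K L : Type} [Field K] [NumberField K] [Field L] [NumberField L] [Algebra K L]

/-- the relative height of an element -/
lemma ht_rel (x : K) :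
    logHeight₁ (algebraMap K L x) = Module.finrank K L * logHeight₁ x := by
  rw [logHeight₁_eq_logHeight, logHeight₁_eq_logHeight]
  have := Pool.Agent.Helper891_XS.logHeight_rel (F := K) (K := L) ![x, 1]
  rw [← this]
  congr 1
  funext i
  fin_cases i
  · rfl
  · exact (map_one _).symm

lemma tw_rel : (totalWeight L : ℝ) = Module.finrank K L * totalWeight K := by
  rw [totalWeight_eq_finrank, totalWeight_eq_finrank, ← Module.finrank_mul_finrank ℚ K L]
  push_cast
  ring

end rel

section coeffs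

variable {L : Type} [Field L] [NumberField L]

/-- heights of the coefficients -/
lemma coeff_ht (c : ℝ) (hc : 0 ≤ c) (s : Multiset L) (h : ∀ ρ ∈ s, logHeight₁ ρ ≤ c) (j : ℕ) :
    logHeight₁ ((s.map fun a => X - C a).prod.coeff j) ≤
      (2 ^ (Multiset.card s) - 1) * (c + totalWeight L * Real.log 2) := by
  have hlog : 0 ≤ (totalWeight L : ℝ) * Real.log 2 := by positivity
  induction s using Multiset.induction_on generalizing j with
  | empty =>
    rw [Multiset.map_zero, Multiset.prod_zero, coeff_one]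
    split_ifs <;> simp
  | cons a s ih =>
    have ih' := ih fun ρ hρ => h ρ (Multiset.mem_cons_of_mem hρ)
    have ha := h a (Multiset.mem_cons_self _ _)
    obtain ⟨p, hp⟩ : ∃ p, p = (s.map fun a => X - C a).prod := ⟨_, rfl⟩
    rw [← hp] at ih'
    rw [Multiset.map_cons, Multiset.prod_cons, ← hp, Multiset.card_cons]
    have h1 : (0 : ℝ) ≤ 2 ^ (Multiset.card s) - 1 := by
      have : (1 : ℝ) ≤ 2 ^ (Multiset.card s) := one_le_pow₀ (by norm_num)
      linarith
    obtain ⟨M, hM⟩ : ∃ M, M = (2 ^ (Multiset.card s) - 1) * (c + totalWeight L * Real.log 2) :=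
      ⟨_, rfl⟩
    have hM0 : 0 ≤ M := by rw [hM]; positivity
    rw [← hM] at ih'
    have e1 : ((2 : ℝ) ^ (Multiset.card s + 1) - 1) * (c + totalWeight L * Real.log 2) =
        2 * M + (c + totalWeight L * Real.log 2) := by
      rw [hM, pow_succ]; ring
    rw [e1, sub_mul, coeff_sub, coeff_C_mul]
    have h2 : logHeight₁ (a * p.coeff j) ≤ c + M :=
      (logHeight₁_mul_le _ _).trans (add_le_add ha (ih' j))
    cases j with
    | zero =>
      rw [coeff_X_mul_zero, zero_sub, logHeight₁_neg]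
      linarith
    | succ j =>
      rw [coeff_X_mul]
      refine (logHeight₁_sub_le _ _).trans ?_
      have := ih' j
      linarith

end coeffs

lemma map_prod_ideal {R S : Type} [CommRing R] [CommRing S] (ψ : R →+* S) {ι : Type}
    (s : Finset ι) (I : ι → Ideal R) : (∏ i ∈ s, I i).map ψ = ∏ i ∈ s, (I i).map ψ := by
  classical
  induction s using Finset.induction_on with
  | empty => rw [Finset.prod_empty, Finset.prod_empty, Ideal.one_eq_top, Ideal.map_top,
      Ideal.one_eq_top]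
  | insert a s ha ih => rw [Finset.prod_insert ha, Finset.prod_insert ha, Ideal.map_mul, ih]

section roots

variable {K : Type} [Field K] [NumberField K]

/-- finitely many polynomials of bounded degree and height -/
lemma finite_pol (g : ℕ) (B : ℝ) :
    {U : K[X] | U.natDegree ≤ g ∧ ∀ j, logHeight₁ (U.coeff j) ≤ B}.Finite := by
  have h1 : {x : K | logHeight₁ x ≤ B}.Finite := NumberField.finite_setOfPred_logHeight₁_le K B
  have h2 : (Set.pi Set.univ fun _ : Fin (g + 1) => {x : K | logHeight₁ x ≤ B}).Finite :=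
    Set.Finite.pi fun _ => h1
  refine Set.Finite.of_injOn (f := fun (U : K[X]) (i : Fin (g + 1)) => U.coeff i) ?_ ?_ h2
  · rintro U ⟨-, hU⟩ i _
    exact hU i
  · rintro U ⟨hU, -⟩ V ⟨hV, -⟩ h
    ext j
    rcases Nat.lt_or_ge j (g + 1) with hj | hj
    · exact congrFun h ⟨j, hj⟩
    · rw [coeff_eq_zero_of_natDegree_lt (by omega), coeff_eq_zero_of_natDegree_lt (by omega)]

/-- finitely many classes of bounded height -/
lemma finite_cls {f : K[X]} [HF f] (g : ℕ) (B : ℝ) :
    {c : ClassGroup (CR f) | ∃ U V : K[X], U.Monic ∧ U.natDegree ≤ g ∧ U ∣ f - V ^ 2 ∧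
      (∀ j, logHeight₁ (U.coeff j) ≤ B) ∧ c = cl (mi f U V)}.Finite := by
  have h1 : ∀ U : K[X], {c : ClassGroup (CR f) | U.Monic ∧ ∃ V, c = cl (mi f U V)}.Finite := by
    intro U
    by_cases hU : U.Monic
    · have hne : Ideal.span {CC f U} ≠ 0 := by
        rw [Ne, Ideal.zero_eq_bot]
        exact span_ne (CC_ne hU.ne_zero)
      have hfin := UniqueFactorizationMonoid.fintypeSubtypeDvd _ hne
      have hfin' : Finite {I : Ideal (CR f) // I ∣ Ideal.span {CC f U}} := Fintype.finite hfin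
      have h2 : ({I : Ideal (CR f) | I ∣ Ideal.span {CC f U}}).Finite :=
        Set.finite_coe_iff.1 hfin'
      refine (h2.image cl).subset ?_
      rintro c ⟨-, V, rfl⟩
      refine ⟨mi f U V, ?_, rfl⟩
      rw [Set.mem_ofPred_eq, Ideal.dvd_iff_le, Ideal.span_singleton_le_iff_mem]
      exact mi_C_mem dvd_rfl
    · convert Set.finite_empty
      ext c
      simp [hU]
  refine ((finite_pol (K := K) g B).biUnion fun U _ => h1 U).subset ?_
  rintro c ⟨U, V, hU, hUg, hUV, hB, rfl⟩
  simp only [Set.mem_iUnion]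
  exact ⟨U, ⟨hUg, hB⟩, hU, V, rfl⟩

variable {ι κ : Type} [Fintype ι] [Fintype κ]

/-- the roots of the reduced representative have bounded height -/
theorem root_bound {r : ι → 𝓞 K} [HF (pfi r)] {g : ℕ} {R : ℝ} (hD : Dat (pfi r) g R)
    (hg : 1 ≤ g) (hR : 1 ≤ R) {x y : κ → K} (hxy : ∀ i, y i ^ 2 = (pfi r).eval (x i))
    {n : κ → ℕ} {U V : K[X]} (hU : U.Monic) (hUV : U ∣ pfi r - V ^ 2) (hUg : U.natDegree ≤ g)
    {e : ℕ} (he : 1 ≤ e)
    (hrel : (∏ i, cl (pt (pfi r) (x i) (y i)) ^ n i) * cl (mi (pfi r) U V) ^ e = 1)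
    (hne : ∑ i, n i ≤ e) {H : ℝ} (hH0 : 0 ≤ H) (hH : ∀ i, logHeight₁ (x i) ≤ H)
    (hHr : ∀ i, logHeight₁ (r i : K) ≤ H) {L : Type} [Field L] [NumberField L] [Algebra K L]
    {s : Multiset L} (hs : U.map (algebraMap K L) = (s.map fun a => X - C a).prod) {ρ : L}
    (hρ : ρ ∈ s) :
    logHeight₁ ρ ≤ Module.finrank K L * (H + totalWeight K * ((g + 3) * cK g R)) := by
  classical
  obtain ⟨φ, hφ⟩ : ∃ φ, φ = algebraMap K L := ⟨_, rfl⟩
  obtain ⟨D, hDD⟩ : ∃ D : ℝ, D = Module.finrank K L := ⟨_, rfl⟩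
  have : Module.Finite K L := Module.Finite.of_restrictScalars_finite ℚ K L
  have hD0 : 0 < D := by
    rw [hDD]
    exact_mod_cast Module.finrank_pos
  obtain ⟨z, hz, hz', c, hc⟩ := exists_fn x y hxy n hU hUV e hrel
  have hcK := cK_nonneg (g := g) hR
  have hw0 : (0 : ℝ) ≤ totalWeight K := Nat.cast_nonneg _
  -- the root of the largest height
  obtain ⟨ρ0, hρ0, hmax⟩ := Finset.exists_max_image s.toFinset (fun a => logHeight₁ a)
    ⟨ρ, Multiset.mem_toFinset.2 hρ⟩
  rw [Multiset.mem_toFinset] at hρ0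
  have hmax' : ∀ a ∈ s, logHeight₁ a ≤ logHeight₁ ρ0 := fun a ha =>
    hmax a (Multiset.mem_toFinset.2 ha)
  refine (hmax' ρ hρ).trans ?_
  rw [← hDD]
  -- base change
  obtain ⟨f', hf'⟩ : ∃ f' : L[X], f' = (pfi r).map φ := ⟨_, rfl⟩
  have hDf' : Dat f' g R := by rw [hf']; exact hD.map φ
  have hHF' : HF f' := hDf'.hf
  obtain ⟨U', hU'⟩ : ∃ U', U' = U.map φ := ⟨_, rfl⟩
  obtain ⟨V', hV'⟩ : ∃ V', V' = V.map φ := ⟨_, rfl⟩
  rw [← hφ, ← hU'] at hs
  have hU'0 : U'.eval ρ0 = 0 := by
    rw [hs, eval_multiset_prod, Multiset.map_map]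
    apply Multiset.prod_eq_zero
    rw [Multiset.mem_map]
    exact ⟨ρ0, hρ0, by simp⟩
  have hcurve : V'.eval ρ0 ^ 2 = f'.eval ρ0 := by
    have h1 : U' ∣ f' - V' ^ 2 := by
      have := Polynomial.map_dvd φ hUV
      rwa [Polynomial.map_sub, Polynomial.map_pow, ← hU', ← hV', ← hf'] at this
    obtain ⟨w, hw⟩ := h1
    have h2 := congrArg (fun p => p.eval ρ0) hw
    simp only [eval_sub, eval_mul, eval_pow, hU'0, zero_mul] at h2
    linear_combination -h2
  -- the two exceptional cases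
  by_cases hV0 : V'.eval ρ0 = 0
  · rw [hV0, zero_pow two_ne_zero, hf', pf_map] at hcurve
    unfold pf at hcurve
    rw [eval_prod, eq_comm, Finset.prod_eq_zero_iff] at hcurve
    obtain ⟨i, -, hi⟩ := hcurve
    rw [eval_sub, eval_X, eval_C, sub_eq_zero] at hi
    rw [hi, hφ, ht_rel, ← hDD]
    have h1 := hHr i
    have h2 : 0 ≤ totalWeight K * ((g + 3) * cK g R) := by positivity
    have : logHeight₁ (r i : K) ≤ H + totalWeight K * ((g + 3) * cK g R) := by linarith
    gcongr
  by_cases hex : ∃ i, n i ≠ 0 ∧ ρ0 = φ (x i)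
  · obtain ⟨i, -, hi⟩ := hex
    rw [hi, hφ, ht_rel, ← hDD]
    have h1 := hH i
    have h2 : 0 ≤ totalWeight K * ((g + 3) * cK g R) := by positivity
    have : logHeight₁ (x i) ≤ H + totalWeight K * ((g + 3) * cK g R) := by linarith
    gcongr
  push Not at hex
  have hab : (-(V'.eval ρ0)) ^ 2 = f'.eval ρ0 := by rw [neg_sq]; exact hcurve
  obtain ⟨z', hzz'⟩ : ∃ z', z' = mapR φ hf'.symm z := ⟨_, rfl⟩
  have hmapmi : ∀ u v : K[X], (mi (pfi r) u v).map (mapR φ hf'.symm) =
      mi f' (u.map φ) (v.map φ) := fun u v => map_mi φ hf'.symm u v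
  have hz1 : Ideal.span {z'} = (∏ i, pt f' (φ (x i)) (φ (y i)) ^ n i) * mi f' U' V' ^ e := by
    have h1 := congrArg (Ideal.map (mapR φ hf'.symm)) hz'
    rw [Ideal.map_span, Set.image_singleton, Ideal.map_mul, Ideal.map_pow, map_prod_ideal,
      hmapmi] at h1
    rw [hzz', h1, hU', hV']
    congr 1
    apply Finset.prod_congr rfl
    intro i _
    rw [Ideal.map_pow]
    unfold pt
    rw [hmapmi]
    simp
  have hc1 : z'.norm = C (φ c) * ((∏ i, (X - C (φ (x i))) ^ n i) * U' ^ e) := by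
    rw [hzz', mapR_norm, hc, Polynomial.map_mul, Polynomial.map_mul, Polynomial.map_prod,
      Polynomial.map_pow, map_C, hU']
    simp
  have h1 := ME_rel hDf' hg hR hz1 hc1 hs hab (neg_ne_zero.2 hV0) (fun i hi h => hex i hi h.1)
    (fun _ h => by
      apply hV0
      have h2 := h.2
      have h3 : 2 * V'.eval ρ0 = 0 := by linear_combination h2
      exact (mul_eq_zero.1 h3).resolve_left two_ne_zero) (j := e) (by
      refine Ideal.mul_le_right.trans ?_
      rw [neg_neg]
      exact Ideal.pow_right_mono ((le_pt_iff hcurve).2 ⟨hU'0, rfl⟩) e)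
  have hcard : Multiset.card s ≤ g := by
    have h2 : U'.natDegree = Multiset.card s := by
      rw [hs, natDegree_multiset_prod_X_sub_C_eq_card]
    rw [← h2, hU', natDegree_map]
    exact hUg
  obtain ⟨h0, hh0⟩ : ∃ h0, h0 = logHeight₁ ρ0 := ⟨_, rfl⟩
  have hh00 : 0 ≤ h0 := by rw [hh0]; exact zero_le_logHeight₁ _
  rw [← hh0] at h1 hmax' ⊢
  have hsum : (s.map fun a => logHeight₁ a).sum ≤ Multiset.card s * h0 := by
    have h3 : (s.map fun a => logHeight₁ a).sum ≤
        Multiset.card (s.map fun a => logHeight₁ a) • h0 := by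
      apply Multiset.sum_le_card_nsmul
      intro a ha
      rw [Multiset.mem_map] at ha
      obtain ⟨b, hb, rfl⟩ := ha
      exact hmax' b hb
    rwa [Multiset.card_map, nsmul_eq_mul] at h3
  have hsum2 : ∑ i, n i * logHeight₁ (φ (x i)) ≤ e * (D * H) := by
    calc ∑ i, n i * logHeight₁ (φ (x i)) ≤ ∑ i, (n i : ℝ) * (D * H) := by
          apply Finset.sum_le_sum
          intro i _
          rw [hφ, ht_rel, ← hDD]
          have := hH i
          gcongr
      _ = (∑ i, n i : ℕ) * (D * H) := by rw [← Finset.sum_mul]; push_cast; rfl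
      _ ≤ e * (D * H) := by
          have : ((∑ i, n i : ℕ) : ℝ) ≤ e := by exact_mod_cast hne
          gcongr
  have htw : (totalWeight L : ℝ) = D * totalWeight K := by rw [hDD]; exact tw_rel
  have hcardR : (Multiset.card s : ℝ) ≤ g := by exact_mod_cast hcard
  have hneR : ((∑ i, n i : ℕ) : ℝ) ≤ e := by exact_mod_cast hne
  have heR : (1 : ℝ) ≤ e := by exact_mod_cast he
  rw [htw] at h1
  push_cast at h1 hneR
  have h4 : (e : ℝ) * (s.map fun a => logHeight₁ a).sum ≤ e * (g * h0) := by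
    have : (s.map fun a => logHeight₁ a).sum ≤ g * h0 :=
      hsum.trans (mul_le_mul_of_nonneg_right hcardR hh00)
    gcongr
  have h5 : ((∑ i, (n i : ℝ)) + e * Multiset.card s) * h0 ≤ (e + e * g) * h0 := by
    gcongr
  have h6 : (D * totalWeight K) * (((∑ i, (n i : ℝ)) + e * Multiset.card s + e + 1) * cK g R) ≤
      (D * totalWeight K) * ((e * (g + 3)) * cK g R) := by
    have : (∑ i, (n i : ℝ)) + e * Multiset.card s + e + 1 ≤ e * (g + 3) := by nlinarith
    gcongr
  have h7 : (e : ℝ) * h0 ≤ e * (D * (H + totalWeight K * ((g + 3) * cK g R))) := by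
    nlinarith
  exact le_of_mul_le_mul_left h7 (by linarith)

end roots

end Pool.Agent.KS6_58
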