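import Pool.Agent.KS6_58.Rk

/-!
# The classes of the rational points generate a group of finite rank (continued)
-/

set_option autoImplicit false

namespace Pool.Agent.KS6_58

open Polynomial Pool.Agent.Y723.HJ Pool.Agent.H437R2.Man Height Height.AdmissibleAbsValues
  NumberField

section grp

variable {G : Type} [CommGroup G]

lemma residues {U0 : Finset G} (h : ∀ c : G, ∃ u ∈ U0, ∃ P, c = u * P ^ 2) (m : ℕ) :
    ∃ W : Finset G, W.card ≤ U0.card ^ m ∧ ∀ c, ∃ w ∈ W, ∃ P, c = w * P ^ (2 ^ m) := by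
  classical
  induction m with
  | zero =>
    refine ⟨{1}, by simp, fun c => ⟨1, by simp, c, by simp⟩⟩
  | succ m ih =>
    obtain ⟨W, hW, hW'⟩ := ih
    refine ⟨(W ×ˢ U0).image fun p => p.1 * p.2 ^ (2 ^ m), ?_, fun c => ?_⟩
    · refine Finset.card_image_le.trans ?_
      rw [Finset.card_product, pow_succ]
      exact Nat.mul_le_mul_right _ hW
    · obtain ⟨w, hw, P, hP⟩ := hW' c
      obtain ⟨u, hu, Q, hQ⟩ := h P
      refine ⟨w * u ^ (2 ^ m), Finset.mem_image.2 ⟨(w, u), Finset.mem_product.2 ⟨hw, hu⟩, rfl⟩,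
        Q, ?_⟩
      rw [hP, hQ, mul_pow, ← pow_mul, pow_succ' 2 m, mul_assoc]

lemma pigeon {U0 : Finset G} (h : ∀ c : G, ∃ u ∈ U0, ∃ P, c = u * P ^ 2) {s : ℕ} (hs : 1 ≤ s)
    (hU : U0.card ≤ 2 ^ s) {t : ℕ} (ht : 1 ≤ t) (c : Fin (2 * s) → G) :
    ∃ n : Fin (2 * s) → ℤ, n ≠ 0 ∧ (∀ i, |n i| < 2 ^ t) ∧
      ∃ E : G, ∏ i, c i ^ n i = E ^ (2 ^ (2 * t - 1)) := by
  classical
  obtain ⟨W, hW, hW'⟩ := residues h (2 * t - 1)
  choose w hw P hP using hW'
  have hcard : W.card < (Finset.univ : Finset (Fin (2 * s) → Fin (2 ^ t))).card := by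
    rw [Finset.card_univ, Fintype.card_fun, Fintype.card_fin, Fintype.card_fin]
    refine hW.trans_lt ?_
    calc U0.card ^ (2 * t - 1) ≤ (2 ^ s) ^ (2 * t - 1) := Nat.pow_le_pow_left hU _
      _ = 2 ^ (s * (2 * t - 1)) := by rw [← pow_mul]
      _ < 2 ^ (t * (2 * s)) := by
          apply Nat.pow_lt_pow_right (by norm_num)
          calc s * (2 * t - 1) < s * (2 * t) := by
                apply Nat.mul_lt_mul_of_pos_left (by omega) (by omega)
            _ = t * (2 * s) := by ring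
      _ = (2 ^ t) ^ (2 * s) := by rw [← pow_mul]
  obtain ⟨a, -, b, -, hab, hab'⟩ := Finset.exists_ne_map_eq_of_card_lt_of_maps_to hcard
    (f := fun a => w (∏ i, c i ^ (a i : ℕ))) (fun a _ => hw _)
  refine ⟨fun i => (a i : ℤ) - (b i : ℤ), ?_, fun i => ?_, ?_⟩
  · intro h0
    apply hab
    funext i
    have := congrFun h0 i
    simp only [Pi.zero_apply, sub_eq_zero] at this
    exact Fin.ext (by exact_mod_cast this)
  · have h1 : (a i : ℤ) < 2 ^ t := by exact_mod_cast (a i).2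
    have h2 : (b i : ℤ) < 2 ^ t := by exact_mod_cast (b i).2
    have h3 : (0 : ℤ) ≤ (a i : ℤ) := Int.natCast_nonneg _
    have h4 : (0 : ℤ) ≤ (b i : ℤ) := Int.natCast_nonneg _
    rw [abs_lt]
    constructor <;> linarith
  · refine ⟨P (∏ i, c i ^ (a i : ℕ)) / P (∏ i, c i ^ (b i : ℕ)), ?_⟩
    have h3 : ∏ i, c i ^ ((a i : ℤ) - (b i : ℤ)) =
        (∏ i, c i ^ (a i : ℕ)) / ∏ i, c i ^ (b i : ℕ) := by
      rw [← Finset.prod_div_distrib]
      apply Finset.prod_congr rfl
      intro i _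
      rw [zpow_sub, zpow_natCast, zpow_natCast, div_eq_mul_inv]
    rw [h3, div_pow]
    obtain ⟨A, hA⟩ : ∃ A, A = ∏ i, c i ^ (a i : ℕ) := ⟨_, rfl⟩
    obtain ⟨B, hB⟩ : ∃ B, B = ∏ i, c i ^ (b i : ℕ) := ⟨_, rfl⟩
    have hab2 : w A = w B := by rw [hA, hB]; exact hab'
    rw [← hA, ← hB]
    have hPA := hP A
    have hPB := hP B
    calc A / B = (w A * P A ^ 2 ^ (2 * t - 1)) / (w B * P B ^ 2 ^ (2 * t - 1)) := by
          rw [← hPA, ← hPB]
      _ = _ := by rw [hab2, mul_div_mul_left_eq_div]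

end grp

section main

variable {K : Type} [Field K] [NumberField K] {ι : Type} [Fintype ι]

/-- the height of the coefficients of the reduced representative -/
theorem rep_height {κ : Type} [Fintype κ] {r : ι → 𝓞 K} [HF (pfi r)] {g : ℕ} {R : ℝ}
    (hD : Dat (pfi r) g R)
    (hg : 1 ≤ g) (hR : 1 ≤ R) {x y : κ → K} (hxy : ∀ i, y i ^ 2 = (pfi r).eval (x i))
    {n : κ → ℕ} {U V : K[X]} (hU : U.Monic) (hUV : U ∣ pfi r - V ^ 2) (hUg : U.natDegree ≤ g)
    {e : ℕ} (he : 1 ≤ e)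
    (hrel : (∏ i, cl (pt (pfi r) (x i) (y i)) ^ n i) * cl (mi (pfi r) U V) ^ e = 1)
    (hne : ∑ i, n i ≤ e) {H : ℝ} (hH0 : 0 ≤ H) (hH : ∀ i, logHeight₁ (x i) ≤ H)
    (hHr : ∀ i, logHeight₁ (r i : K) ≤ H) (j : ℕ) :
    logHeight₁ (U.coeff j) ≤ 2 ^ g * ((H + totalWeight K * ((g + 3) * cK g R)) +
      totalWeight K * Real.log 2) := by
  obtain ⟨L, hF, hA, hchar, hfin, hsp⟩ : ∃ (L : Type) (_ : Field L) (_ : Algebra K L)
      (_ : CharZero L), Module.Finite K L ∧ (U.map (algebraMap K L)).Splits :=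
    ⟨U.SplittingField, inferInstance, inferInstance,
      charZero_of_injective_algebraMap (algebraMap K U.SplittingField).injective,
      inferInstance, SplittingField.splits U⟩
  have hNF : NumberField L :=
    { to_charZero := inferInstance
      to_finiteDimensional := Module.Finite.trans K L }
  obtain ⟨s, hs⟩ : ∃ s, s = (U.map (algebraMap K L)).roots := ⟨_, rfl⟩
  have hprod : U.map (algebraMap K L) = (s.map fun a => X - C a).prod := by
    have := hsp.eq_prod_roots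
    rw [(hU.map _).leadingCoeff, C_1, one_mul, ← hs] at this
    exact this
  obtain ⟨D, hDD⟩ : ∃ D : ℝ, D = Module.finrank K L := ⟨_, rfl⟩
  have hD0 : 0 < D := by
    rw [hDD]
    exact_mod_cast Module.finrank_pos
  obtain ⟨B, hB⟩ : ∃ B, B = H + totalWeight K * ((g + 3) * cK g R) := ⟨_, rfl⟩
  have hcK := cK_nonneg (g := g) hR
  have hB0 : 0 ≤ B := by rw [hB]; positivity
  have h1 : ∀ ρ ∈ s, logHeight₁ ρ ≤ D * B := by
    intro ρ hρ
    rw [hDD, hB]
    exact root_bound hD hg hR hxy hU hUV hUg he hrel hne hH0 hH hHr hprod hρ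
  have h2 := coeff_ht (D * B) (by positivity) s h1 j
  rw [← hprod, coeff_map, ht_rel, ← hDD, tw_rel (K := K) (L := L), ← hDD] at h2
  have hcard : Multiset.card s ≤ g := by
    rw [hs]
    exact (card_roots' _).trans (natDegree_map_le.trans hUg)
  have h3 : (2 : ℝ) ^ (Multiset.card s) - 1 ≤ 2 ^ g := by
    have : (2 : ℝ) ^ (Multiset.card s) ≤ 2 ^ g := pow_le_pow_right₀ (by norm_num) hcard
    linarith
  have hlog : 0 ≤ (totalWeight K : ℝ) * Real.log 2 := by positivity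
  have h4 : D * logHeight₁ (U.coeff j) ≤ D * (2 ^ g * (B + totalWeight K * Real.log 2)) := by
    refine h2.trans ?_
    have e1 : D * B + D * totalWeight K * Real.log 2 = D * (B + totalWeight K * Real.log 2) := by
      ring
    rw [e1]
    calc (2 ^ (Multiset.card s) - 1) * (D * (B + totalWeight K * Real.log 2))
        ≤ 2 ^ g * (D * (B + totalWeight K * Real.log 2)) := by gcongr
      _ = _ := by ring
  rw [hB] at h4
  exact le_of_mul_le_mul_left h4 hD0

omit [NumberField K] in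
lemma cl_pt_neg {f : K[X]} [HF f] {x y : K} :
    cl (pt f x (-y)) = (cl (pt f x y))⁻¹ := by
  rw [← cl_bar (pt_ne x y)]
  unfold pt
  rw [bar_mi, C_neg]

/-- **finite rank** -/
theorem rank_fin {r : ι → 𝓞 K} (hr : Function.Injective r) [HF (pfi r)] {g : ℕ} {R : ℝ}
    (hD : Dat (pfi r) g R) (hg : 1 ≤ g) (hR : 1 ≤ R) :
    ∃ N : ℕ, ∀ x y : Fin N → K, (∀ i, y i ^ 2 = (pfi r).eval (x i)) →
      ∃ n : Fin N → ℤ, n ≠ 0 ∧ ∏ i, cl (pt (pfi r) (x i) (y i)) ^ n i = 1 := by
  classical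
  have hodd : Odd (Fintype.card ι) := by
    rw [← pf_deg (fun i => (r i : K))]
    exact (inferInstance : HF (pfi r)).toOddM.odd
  obtain ⟨U0, hU0⟩ := weak_mw hr hodd
  obtain ⟨s, hs1, hs⟩ : ∃ s : ℕ, 1 ≤ s ∧ U0.card ≤ 2 ^ s :=
    ⟨U0.card + 1, by omega, (Nat.lt_two_pow_self (n := U0.card + 1)).le.trans' (by omega)⟩
  refine ⟨2 * s, fun x y hxy => ?_⟩
  -- a bound for the heights
  obtain ⟨H, hH0, hH, hHr⟩ : ∃ H : ℝ, 0 ≤ H ∧ (∀ i, logHeight₁ (x i) ≤ H) ∧
      ∀ i, logHeight₁ (r i : K) ≤ H := by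
    refine ⟨∑ i, logHeight₁ (x i) + ∑ i, logHeight₁ (r i : K), ?_, ?_, ?_⟩
    · exact add_nonneg (Finset.sum_nonneg fun _ _ => zero_le_logHeight₁ _)
        (Finset.sum_nonneg fun _ _ => zero_le_logHeight₁ _)
    · intro i
      have h1 := Finset.single_le_sum (f := fun i => logHeight₁ (x i))
        (fun _ _ => zero_le_logHeight₁ _) (Finset.mem_univ i)
      have h2 : 0 ≤ ∑ i, logHeight₁ (r i : K) := Finset.sum_nonneg fun _ _ => zero_le_logHeight₁ _
      exact h1.trans (le_add_of_nonneg_right h2)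
    · intro i
      have h1 := Finset.single_le_sum (f := fun i => logHeight₁ (r i : K))
        (fun _ _ => zero_le_logHeight₁ _) (Finset.mem_univ i)
      have h2 : 0 ≤ ∑ i, logHeight₁ (x i) := Finset.sum_nonneg fun _ _ => zero_le_logHeight₁ _
      exact h1.trans (le_add_of_nonneg_left h2)
  have hdeg : (pfi r).natDegree = 2 * g + 1 := hD.deg
  obtain ⟨B, hB⟩ : ∃ B, B = 2 ^ g * ((H + totalWeight K * ((g + 3) * cK g R)) +
      totalWeight K * Real.log 2) := ⟨_, rfl⟩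
  have hF := finite_cls (f := pfi r) g B
  -- the relations
  have key : ∀ t : ℕ, 2 * s + 1 ≤ t → ∃ n : Fin (2 * s) → ℤ, n ≠ 0 ∧ (∀ i, |n i| < 2 ^ t) ∧
      ∃ E ∈ hF.toFinset, ∏ i, cl (pt (pfi r) (x i) (y i)) ^ n i = (E⁻¹) ^ (2 ^ (2 * t - 1)) := by
    intro t ht
    obtain ⟨n, hn0, hn, E, hE⟩ := pigeon hU0 hs1 hs (t := t) (by omega)
      (fun i => cl (pt (pfi r) (x i) (y i)))
    refine ⟨n, hn0, hn, E⁻¹, ?_, by rw [inv_inv]; exact hE⟩
    rw [Set.Finite.mem_toFinset]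
    obtain ⟨U, V, hU, hUV, hUg, -, hUc⟩ := exists_reduced hdeg E⁻¹
    refine ⟨U, V, hU, hUg, hUV, ?_, hUc.symm⟩
    intro j
    rw [hB]
    -- positive exponents
    let y' : Fin (2 * s) → K := fun i => if 0 ≤ n i then y i else -y i
    have hy' : ∀ i, y' i ^ 2 = (pfi r).eval (x i) := by
      intro i
      by_cases h : 0 ≤ n i
      · simp only [y', if_pos h]; exact hxy i
      · simp only [y', if_neg h, neg_sq]; exact hxy i
    have hcl : ∀ i, cl (pt (pfi r) (x i) (y' i)) ^ (n i).natAbs =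
        cl (pt (pfi r) (x i) (y i)) ^ n i := by
      intro i
      by_cases h : 0 ≤ n i
      · simp only [y', if_pos h]
        rw [← zpow_natCast, Int.natAbs_of_nonneg h]
      · simp only [y', if_neg h]
        rw [cl_pt_neg, ← zpow_natCast, inv_zpow', Int.ofNat_natAbs_of_nonpos (by omega),
          neg_neg]
    apply rep_height hD hg hR (x := x) (y := y') hy' (n := fun i => (n i).natAbs) hU hUV hUg
      (e := 2 ^ (2 * t - 1)) (Nat.one_le_two_pow) _ _ hH0 hH hHr j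
    · rw [Finset.prod_congr rfl fun i _ => hcl i, hE, hUc, inv_pow, mul_inv_cancel]
    · calc ∑ i, (n i).natAbs ≤ ∑ _i : Fin (2 * s), 2 ^ t := by
            apply Finset.sum_le_sum
            intro i _
            have := hn i
            have h2 : ((n i).natAbs : ℤ) < 2 ^ t := by rw [Int.natCast_natAbs]; exact this
            exact_mod_cast h2.le
        _ = (2 * s) * 2 ^ t := by
            rw [Finset.sum_const, Finset.card_univ, Fintype.card_fin, smul_eq_mul]
        _ ≤ 2 ^ (t - 1) * 2 ^ t := by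
            apply Nat.mul_le_mul_right
            calc 2 * s ≤ 2 ^ (2 * s) := Nat.lt_two_pow_self.le
              _ ≤ 2 ^ (t - 1) := Nat.pow_le_pow_right (by norm_num) (by omega)
        _ = 2 ^ (2 * t - 1) := by rw [← pow_add]; congr 1; omega
  -- two relations with the same class
  let tt : Fin (hF.toFinset.card + 1) → ℕ := fun k => 2 ^ (k : ℕ) * (2 * s + 1)
  have htt : ∀ k, 2 * s + 1 ≤ tt k := fun k => Nat.le_mul_of_pos_left _ (by positivity)
  choose n hn0 hn E hE hrel using fun k => key (tt k) (htt k)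
  obtain ⟨k, -, l, -, hkl, hEkl⟩ := Finset.exists_ne_map_eq_of_card_lt_of_maps_to
    (s := (Finset.univ : Finset (Fin (hF.toFinset.card + 1)))) (t := hF.toFinset)
    (by rw [Finset.card_univ, Fintype.card_fin]; omega) (f := E) (fun k _ => hE k)
  -- order them
  obtain ⟨k, l, hlt, hEkl⟩ : ∃ k l, k < l ∧ E k = E l := by
    rcases lt_or_gt_of_ne hkl with h | h
    · exact ⟨k, l, h, hEkl⟩
    · exact ⟨l, k, h, hEkl.symm⟩
  have h2 : 2 * tt k ≤ tt l := by
    simp only [tt]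
    rw [← mul_assoc, ← pow_succ']
    apply Nat.mul_le_mul_right
    exact Nat.pow_le_pow_right (by norm_num) hlt
  refine ⟨fun i => n k i * 4 ^ (tt l - tt k) - n l i, ?_, ?_⟩
  · intro h0
    obtain ⟨i, hi⟩ : ∃ i, n k i ≠ 0 := by
      by_contra hc
      push Not at hc
      exact hn0 k (funext hc)
    have h3 : n k i * 4 ^ (tt l - tt k) = n l i := by
      have := congrFun h0 i
      simp only [Pi.zero_apply] at this
      linarith
    have h4 : (4 : ℤ) ^ (tt l - tt k) ≤ |n l i| := by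
      rw [← h3, abs_mul, abs_of_nonneg (by positivity : (0 : ℤ) ≤ 4 ^ (tt l - tt k))]
      have : 1 ≤ |n k i| := Int.one_le_abs hi
      nlinarith [(by positivity : (0 : ℤ) < 4 ^ (tt l - tt k))]
    have h5 : (2 : ℤ) ^ (tt l) ≤ 4 ^ (tt l - tt k) := by
      rw [show (4 : ℤ) = 2 ^ 2 by norm_num, ← pow_mul]
      exact pow_le_pow_right₀ (by norm_num) (by omega)
    have := hn l i
    linarith
  · have h3 : ∀ i, cl (pt (pfi r) (x i) (y i)) ^ (n k i * 4 ^ (tt l - tt k) - n l i) =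
        (cl (pt (pfi r) (x i) (y i)) ^ n k i) ^ (4 ^ (tt l - tt k)) *
          (cl (pt (pfi r) (x i) (y i)) ^ n l i)⁻¹ := by
      intro i
      rw [zpow_sub, zpow_mul]
      congr 1
    rw [Finset.prod_congr rfl fun i _ => h3 i, Finset.prod_mul_distrib, Finset.prod_pow,
      Finset.prod_inv_distrib, hrel k, hrel l, hEkl, ← pow_mul]
    have h4 : 2 ^ (2 * tt k - 1) * 4 ^ (tt l - tt k) = 2 ^ (2 * tt l - 1) := by
      rw [show (4 : ℕ) = 2 ^ 2 by norm_num, ← pow_mul, ← pow_add]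
      congr 1
      have := htt k
      omega
    rw [h4, mul_inv_cancel]

end main

end Pool.Agent.KS6_58
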