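import Pool.Agent.KS6_58.Rk2
import Pool.Agent.KS6_58.LA

/-!
# The number of points with heights in a window is bounded (Mumford's gap principle)
-/

set_option autoImplicit false

namespace Pool.Agent.KS6_58

open Polynomial Pool.Agent.Y723.HJ Pool.Agent.H437R2.Man Height Height.AdmissibleAbsValues
  NumberField

variable {K : Type} [Field K] [NumberField K] {ι : Type} [Fintype ι]

/-- two points of large height cannot be nearly equal in the group of classes -/
theorem gap {r : ι → 𝓞 K} [HF (pfi r)] {g : ℕ} {R : ℝ}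
    (hD : Dat (pfi r) g R) (hg : 2 ≤ g) (hR : 1 ≤ R) {M : ℕ} {x y : Fin M → K}
    (hx : Function.Injective x) (hxy : ∀ i, y i ^ 2 = (pfi r).eval (x i)) {n : Fin M → ℤ}
    {j j' : Fin M} {D N T : ℕ} {c H : ℝ} (hjj' : j ≠ j') (hD0 : 0 < D) (hnj : |n j| = D)
    (hnj' : |n j'| = D) (hn : (T : ℤ) * ∑ i ∈ (Finset.univ.erase j).erase j', |n i| ≤ N * D)
    (hrel : ∏ i, cl (pt (pfi r) (x i) (y i)) ^ n i = 1) (hc : 1 ≤ c) (hT1 : 1 ≤ T)
    (hT : N * (c + 1) ≤ T)
    (hHr : ∀ i, logHeight₁ (r i : K) < H) (hH : ∀ i, H ≤ logHeight₁ (x i))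
    (hH' : ∀ i, logHeight₁ (x i) ≤ c * H) (hle : logHeight₁ (x j') ≤ logHeight₁ (x j)) :
    logHeight₁ (x j) ≤ 5 * (totalWeight K * cK g R) := by
  classical
  let y' : Fin M → K := fun i => if 0 ≤ n i then y i else -y i
  have hy' : ∀ i, y' i ^ 2 = (pfi r).eval (x i) := by
    intro i
    by_cases h : 0 ≤ n i
    · simp only [y', if_pos h]; exact hxy i
    · simp only [y', if_neg h, neg_sq]; exact hxy i
  have hcl : ∀ i, cl (pt (pfi r) (x i) (y' i)) ^ (n i).natAbs =
      cl (pt (pfi r) (x i) (y i)) ^ n i := by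
    intro i
    by_cases h : 0 ≤ n i
    · simp only [y', if_pos h]
      rw [← zpow_natCast, Int.natAbs_of_nonneg h]
    · simp only [y', if_neg h]
      rw [cl_pt_neg, ← zpow_natCast, inv_zpow', Int.ofNat_natAbs_of_nonpos (by omega), neg_neg]
  obtain ⟨z, hz, hz', c0, hc0⟩ := exists_fn x y' hy' (fun i => (n i).natAbs) (U := 1) (V := 0)
    monic_one (one_dvd _) 0 (by
      rw [pow_zero, mul_one, Finset.prod_congr rfl fun i _ => hcl i, hrel])
  have hyj : y' j ≠ 0 := by
    intro h0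
    have h1 := hy' j
    rw [h0, zero_pow two_ne_zero] at h1
    unfold pfi pf at h1
    rw [eval_prod, eq_comm, Finset.prod_eq_zero_iff] at h1
    obtain ⟨i, -, hi⟩ := h1
    rw [eval_sub, eval_X, eval_C, sub_eq_zero] at hi
    have h2 := hHr i
    have h3 := hH j
    rw [hi] at h3
    linarith
  have hDj : (n j).natAbs = D := by
    have : ((n j).natAbs : ℤ) = D := by rw [Int.natCast_natAbs]; exact hnj
    exact_mod_cast this
  have h1 := ME_rel hD (by omega) hR hz' hc0 (s := 0) (by simp) (a := x j) (b := -(y' j))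
    (by rw [neg_sq]; exact hy' j) (neg_ne_zero.2 hyj) (fun i _ h => by
      have h2 : i = j := hx h.1.symm
      rw [h2] at h
      have h3 : 2 * y' j = 0 := by linear_combination -h.2
      exact hyj ((mul_eq_zero.1 h3).resolve_left two_ne_zero))
    (fun h => absurd rfl h) (j := D) (by
      rw [pow_zero, mul_one, neg_neg]
      have h2 : pt (pfi r) (x j) (y' j) ^ (n j).natAbs ∣
          ∏ i, pt (pfi r) (x i) (y' i) ^ (n i).natAbs :=
        Finset.dvd_prod_of_mem (fun i => pt (pfi r) (x i) (y' i) ^ (n i).natAbs)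
          (Finset.mem_univ j)
      rw [hDj] at h2
      exact Ideal.le_of_dvd h2)
  -- the sums
  obtain ⟨S, hS⟩ : ∃ S : ℝ, S = ∑ i ∈ (Finset.univ.erase j).erase j', (|n i| : ℝ) := ⟨_, rfl⟩
  have hS0 : 0 ≤ S := by rw [hS]; exact Finset.sum_nonneg fun _ _ => abs_nonneg _
  have hna : ∀ i, (((n i).natAbs : ℕ) : ℝ) = |(n i : ℝ)| := by
    intro i
    rw [Nat.cast_natAbs, Int.cast_abs]
  have hmem : j' ∈ Finset.univ.erase j := Finset.mem_erase.2 ⟨Ne.symm hjj', Finset.mem_univ _⟩
  have hnjR : |(n j : ℝ)| = D := by exact_mod_cast hnj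
  have hnjR' : |(n j' : ℝ)| = D := by exact_mod_cast hnj'
  have hsum1 : ((∑ i, (n i).natAbs : ℕ) : ℝ) = 2 * D + S := by
    push_cast
    simp only [hna]
    rw [← Finset.add_sum_erase _ _ (Finset.mem_univ j), ← Finset.add_sum_erase _ _ hmem, hnjR,
      hnjR', hS]
    ring
  have hhj : 0 ≤ logHeight₁ (x j) := zero_le_logHeight₁ _
  have hsum2 : ∑ i, ((n i).natAbs : ℝ) * logHeight₁ (x i) ≤
      2 * D * logHeight₁ (x j) + S * (c * logHeight₁ (x j)) := by
    simp only [hna]
    rw [← Finset.add_sum_erase _ _ (Finset.mem_univ j), ← Finset.add_sum_erase _ _ hmem, hnjR,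
      hnjR']
    have h2 : ∑ i ∈ (Finset.univ.erase j).erase j', |(n i : ℝ)| * logHeight₁ (x i) ≤
        S * (c * logHeight₁ (x j)) := by
      rw [hS, Finset.sum_mul]
      apply Finset.sum_le_sum
      intro i _
      have h3 := hH' i
      have h4 := hH j
      have h5 : logHeight₁ (x i) ≤ c * logHeight₁ (x j) := by nlinarith
      have := abs_nonneg (n i : ℝ)
      gcongr
    have h3 : (D : ℝ) * logHeight₁ (x j') ≤ D * logHeight₁ (x j) := by gcongr
    linarith
  have hTS : (T : ℝ) * S ≤ N * D := by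
    rw [hS]
    exact_mod_cast hn
  have hDR : (1 : ℝ) ≤ D := by exact_mod_cast hD0
  have hcK := cK_nonneg (g := g) hR
  have htw : (0 : ℝ) ≤ totalWeight K := Nat.cast_nonneg _
  have hSc : S * (c + 1) ≤ D := by
    have hT0' : (0 : ℝ) < T := by exact_mod_cast hT1
    have h2 : T * (S * (c + 1)) ≤ T * D := by
      calc T * (S * (c + 1)) = (T * S) * (c + 1) := by ring
        _ ≤ (N * D) * (c + 1) := by gcongr
        _ = (N * (c + 1)) * D := by ring
        _ ≤ T * D := by gcongr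
    exact le_of_mul_le_mul_left h2 hT0'
  have hSD : S ≤ D := by nlinarith
  simp only [mul_zero, Nat.cast_zero, Multiset.map_zero, Multiset.sum_zero,
    Multiset.card_zero, add_zero] at h1
  have h3 : ((∑ i, (n i).natAbs + D + 1 : ℕ) : ℝ) * cK g R ≤ (5 * D) * cK g R := by
    have : ((∑ i, (n i).natAbs + D + 1 : ℕ) : ℝ) ≤ 5 * D := by
      push_cast at hsum1 ⊢
      rw [hsum1]
      linarith
    gcongr
  have h4 : (totalWeight K : ℝ) * (((∑ i, (n i).natAbs + D + 1 : ℕ) : ℝ) * cK g R) ≤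
      totalWeight K * ((5 * D) * cK g R) := by gcongr
  have hg2 : (2 : ℝ) ≤ g := by exact_mod_cast hg
  rw [hsum1] at h1
  push_cast at h1 h4
  have h5 : S * (c * logHeight₁ (x j)) + S * logHeight₁ (x j) ≤ D * logHeight₁ (x j) := by
    have : S * (c * logHeight₁ (x j)) + S * logHeight₁ (x j) =
      (S * (c + 1)) * logHeight₁ (x j) := by ring
    rw [this]
    gcongr
  have h6 : (D : ℝ) * logHeight₁ (x j) ≤ D * (5 * (totalWeight K * cK g R)) := by
    nlinarith [mul_nonneg (sub_nonneg.2 hg2) (mul_nonneg (by linarith : (0 : ℝ) ≤ D) hhj)]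
  exact le_of_mul_le_mul_left h6 (by linarith)

/-- **the window theorem** -/
theorem window {r : ι → 𝓞 K} (hr : Function.Injective r) [HF (pfi r)] {g : ℕ} {R : ℝ}
    (hD : Dat (pfi r) g R) (hg : 2 ≤ g) (hR : 1 ≤ R) {c : ℝ} (hc : 1 ≤ c) :
    ∃ (H0 : ℝ) (B : ℕ), ∀ H : ℝ, H0 ≤ H → ∀ S : Finset K,
      (∀ x ∈ S, (∃ y, y ^ 2 = (pfi r).eval x) ∧ H ≤ logHeight₁ x ∧ logHeight₁ x ≤ c * H) →
      S.card ≤ B := by
  classical
  obtain ⟨N, hN⟩ := rank_fin hr hD (by omega) hR
  obtain ⟨T, hT1, hT⟩ : ∃ T : ℕ, 1 ≤ T ∧ N * (c + 1) ≤ T := by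
    refine ⟨⌈N * (c + 1)⌉₊ + 1, by omega, ?_⟩
    push_cast
    have := Nat.le_ceil (N * (c + 1))
    linarith
  have hcK := cK_nonneg (g := g) hR
  have htw : (0 : ℝ) ≤ totalWeight K := Nat.cast_nonneg _
  refine ⟨5 * (totalWeight K * cK g R) + ∑ i, logHeight₁ (r i : K) + 1, N + (2 * T + 1) ^ N,
    fun H hH S hS => ?_⟩
  by_contra hcard
  push Not at hcard
  have hsum0 : 0 ≤ ∑ i, logHeight₁ (r i : K) := Finset.sum_nonneg fun _ _ => zero_le_logHeight₁ _
  have hHr : ∀ i, logHeight₁ (r i : K) < H := by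
    intro i
    have h1 := Finset.single_le_sum (f := fun i => logHeight₁ (r i : K))
      (fun _ _ => zero_le_logHeight₁ _) (Finset.mem_univ i)
    have h2 : 0 ≤ 5 * (totalWeight K * cK g R) := by positivity
    linarith
  have hHc : 5 * (totalWeight K * cK g R) < H := by linarith
  let x : Fin S.card → K := fun i => (S.equivFin.symm i : K)
  have hxS : ∀ i, x i ∈ S := fun i => (S.equivFin.symm i).2
  have hx : Function.Injective x := by
    intro i k h
    exact S.equivFin.symm.injective (Subtype.ext h)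
  choose y hy using fun i => (hS (x i) (hxS i)).1
  obtain ⟨n, j, j', D, hjj', hD0, hnj, hnj', hn, hrel⟩ := small_rel hT1
    (fun i => cl (pt (pfi r) (x i) (y i))) (fun f _ => hN _ _ fun i => hy (f i)) hcard
  have hA : ∀ i, H ≤ logHeight₁ (x i) := fun i => (hS (x i) (hxS i)).2.1
  have hB : ∀ i, logHeight₁ (x i) ≤ c * H := fun i => (hS (x i) (hxS i)).2.2
  have e1 : |n j| = D := by rw [hnj]; exact Nat.abs_cast D
  have e2 : |n j'| = D := by rw [hnj', abs_neg]; exact Nat.abs_cast D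
  rcases le_total (logHeight₁ (x j')) (logHeight₁ (x j)) with h | h
  · have := gap hD hg hR hx hy hjj' hD0 e1 e2 hn hrel hc hT1 hT hHr hA hB h
    have := hA j
    linarith
  · have hn' : (T : ℤ) * ∑ i ∈ (Finset.univ.erase j').erase j, |n i| ≤ N * D := by
      rwa [Finset.erase_right_comm]
    have := gap hD hg hR hx hy (Ne.symm hjj') hD0 e2 e1 hn' hrel hc hT1 hT hHr hA hB h
    have := hA j'
    linarith

end Pool.Agent.KS6_58
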